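import Pool.Agent.Lib.MP_dd84fd_nt.BY.ArDefs
import Pool.Agent.Lib.MP_dd84fd_nt.BX.Ar1
import Pool.Agent.Lib.MP_dd84fd_nt.BG.Exp

/-!
# BY-ArA: algebra of `VQf` (helper45)
-/

set_option autoImplicit false

namespace Pool.MP_dd84fd_nt.BY

open Finset Pool.MP_67663b_nt.Odd Pool.MP_dd84fd_nt.En Pool.MP_dd84fd_nt.E2 Pool.MP_dd84fd_nt.LS
open Pool.MP_dd84fd_nt.GX Pool.MP_dd84fd_nt.HX Pool.MP_dd84fd_nt.IX
open Pool.MP_dd84fd_nt.PL (rr tp)
open Pool.MP_dd84fd_nt.HXP (cq)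
open Pool.MP_dd84fd_nt.LXP (tq cS)
open Pool.MP_dd84fd_nt.BX (PC N2d Mn ar_ee_norm ar_ee_add ar_ee_cont ar_le)
open Pool.MP_dd84fd_nt.BG (Pj tqq tqq_eq pj_univ pj_parseval)

theorem conj_chi (q : ℕ) (χ : DirichletCharacter ℂ q) (a : ZMod q) :
    (starRingEnd ℂ) (χ a) = χ⁻¹ a := by
  by_cases hu : IsUnit a
  · obtain ⟨u, hu⟩ := hu
    rw [← hu]
    have h1 : ‖χ (u : ZMod q)‖ = 1 := DirichletCharacter.unit_norm_eq_one χ u
    rw [← Complex.inv_eq_conj h1]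
    have h2 : χ⁻¹ (u : ZMod q) * χ (u : ZMod q) = 1 := by
      rw [← MulChar.mul_apply, inv_mul_cancel, MulChar.one_apply_coe]
    exact (eq_inv_of_mul_eq_one_left h2).symm
  · rw [MulChar.map_nonunit _ hu, MulChar.map_nonunit _ hu, map_zero]

theorem SXf_cont (X : ℕ) (w : ℕ → ℝ) (ψ : PC) : Continuous (SXf X w ψ) := by
  unfold SXf
  have h := ar_ee_cont
  fun_prop

theorem EXf_cont (X : ℕ) (w : ℕ → ℝ) : Continuous (EXf X w) := by
  unfold EXf
  have h := ar_ee_cont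
  fun_prop

theorem VQf_cont (X : ℕ) (w : ℕ → ℝ) (q : ℕ) (Y : Finset (DirichletCharacter ℂ q)) (a : ℕ) :
    Continuous (VQf X w q Y a) := by
  unfold VQf
  have h := SXf_cont X w
  split_ifs
  · exact continuous_const
  · fun_prop

theorem EXf_tp (X : ℕ) (w : ℕ → ℝ) (θ : ℝ) : EXf X w θ = tp X (fun k => ((w k : ℝ) : ℂ)) θ := rfl

theorem WI_EXf (ww gg : ℕ → ℕ → ℝ) (s : ℝ) (w X : ℕ) (θ : ℝ) :
    WI ww gg s w X θ = EXf X (ww X) θ + s * EXf X (fI gg X w) θ := by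
  unfold WI EXf
  rw [mul_sum, ← sum_add_distrib]
  refine sum_congr rfl fun n _ => ?_
  push_cast
  ring

theorem EXf_sub (X : ℕ) (w w' : ℕ → ℝ) (θ : ℝ) :
    EXf X (fun n => w n - w' n) θ = EXf X w θ - EXf X w' θ := by
  unfold EXf
  rw [← sum_sub_distrib]
  refine sum_congr rfl fun n _ => ?_
  push_cast
  ring

theorem SXf_sub (X : ℕ) (w w' : ℕ → ℝ) (ψ : PC) (x : ℝ) :
    SXf X (fun n => w n - w' n) ψ x = SXf X w ψ x - SXf X w' ψ x := by
  unfold SXf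
  rw [← sum_sub_distrib]
  refine sum_congr rfl fun n _ => ?_
  push_cast
  ring

theorem VQf_sub (X : ℕ) (w w' : ℕ → ℝ) (q : ℕ) (Y : Finset (DirichletCharacter ℂ q)) (a : ℕ)
    (x : ℝ) :
    VQf X (fun n => w n - w' n) q Y a x = VQf X w q Y a x - VQf X w' q Y a x := by
  unfold VQf
  split_ifs
  · ring
  · rw [← mul_sub, ← sum_sub_distrib]
    congr 1
    refine sum_congr rfl fun χ _ => ?_
    rw [SXf_sub]
    ring

open Classical in
theorem VQf_split (X : ℕ) (w : ℕ → ℝ) (q : ℕ) (Y : Finset (DirichletCharacter ℂ q))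
    (P : DirichletCharacter ℂ q → Prop) (a : ℕ) (x : ℝ) :
    VQf X w q Y a x = VQf X w q (Y.filter P) a x + VQf X w q (Y.filter (fun χ => ¬ P χ)) a x := by
  unfold VQf
  split_ifs
  · ring
  · rw [← mul_add]
    congr 1
    exact (sum_filter_add_sum_filter_not Y P _).symm

open Classical in
theorem vqf_pj (X : ℕ) (w : ℕ → ℝ) (q : ℕ) [NeZero q] (Y : Finset (DirichletCharacter ℂ q)) (a : ℕ)
    (x : ℝ) :
    VQf X w q Y a x = Pj q X (Y.image (fun χ => χ⁻¹)) (fun k => ((w k : ℝ) : ℂ)) x a := by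
  unfold VQf Pj
  rw [dif_neg (NeZero.ne q)]
  congr 1
  rw [sum_image (fun χ _ χ' _ h => inv_injective h)]
  refine sum_congr rfl fun χ _ => ?_
  rw [conj_chi, inv_inv, tqq_eq]
  have h1 : cS q X (fun k => ((w k : ℝ) : ℂ)) χ⁻¹ x = SXf X w ⟨q, χ⟩ x := by
    unfold cS SXf BX.pv
    refine sum_congr rfl fun k _ => ?_
    rw [conj_chi, inv_inv]
  rw [h1]
  ring

/-- the expansion in characters -/
theorem vqf_univ (X : ℕ) (w : ℕ → ℝ) (q : ℕ) (hq : 1 ≤ q) (a : ℕ) (ha : a ∈ rr q) (x : ℝ) :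
    VQf X w q (allC q) a x = tp X (cq q (fun k => ((w k : ℝ) : ℂ))) ((a : ℝ) / q + x) := by
  classical
  have : NeZero q := ⟨by omega⟩
  have hc : Nat.Coprime a q := (mem_filter.1 ha).2
  rw [pj_univ q X (fun k => ((w k : ℝ) : ℂ)) x a hc, vqf_pj]
  congr 1
  unfold allC
  rw [dif_neg (NeZero.ne q)]
  ext χ
  rw [mem_image]
  constructor
  · intro _
    exact mem_univ _
  · intro _
    exact ⟨χ⁻¹, mem_univ _, inv_inv χ⟩

/-- Parseval -/
theorem vqf_parseval (X : ℕ) (w : ℕ → ℝ) (q : ℕ) [NeZero q] (Y : Finset (DirichletCharacter ℂ q))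
    (x : ℝ) :
    ∑ a ∈ rr q, ‖VQf X w q Y a x‖ ^ 2 =
      1 / (Nat.totient q : ℝ) * ∑ χ ∈ Y, ‖tq q χ⁻¹‖ ^ 2 * ‖SXf X w ⟨q, χ⟩ x‖ ^ 2 := by
  classical
  simp only [vqf_pj]
  rw [pj_parseval]
  congr 1
  rw [sum_image (fun χ _ χ' _ h => inv_injective h)]
  refine sum_congr rfl fun χ _ => ?_
  rw [tqq_eq]
  have h1 : cS q X (fun k => ((w k : ℝ) : ℂ)) χ⁻¹ x = SXf X w ⟨q, χ⟩ x := by
    unfold cS SXf BX.pv
    refine sum_congr rfl fun k _ => ?_
    rw [conj_chi, inv_inv]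
  rw [h1]

/-- fewer characters, smaller norm -/
theorem N2d_proj (X : ℕ) (ρ : ℕ → ℝ) (QQ : Finset ℕ) (hρ : ∀ q ∈ QQ, 0 ≤ ρ q)
    (hq1 : ∀ q ∈ QQ, 1 ≤ q) (w : ℕ → ℝ) (Y Y' : (q : ℕ) → Finset (DirichletCharacter ℂ q))
    (hY : ∀ q ∈ QQ, Y q ⊆ Y' q) :
    N2d X ρ QQ (fun q a x => VQf X w q (Y q) a x) ≤ N2d X ρ QQ (fun q a x => VQf X w q (Y' q) a x) := by
  unfold N2d
  refine sum_le_sum fun q hq => ?_
  have : NeZero q := ⟨by have := hq1 q hq; omega⟩
  have hc := VQf_cont X w q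
  rw [← intervalIntegral.integral_finsetSum
      (fun a _ => by apply Continuous.intervalIntegrable; fun_prop),
    ← intervalIntegral.integral_finsetSum
      (fun a _ => by apply Continuous.intervalIntegrable; fun_prop)]
  refine intervalIntegral.integral_mono_on (ar_le X (hρ q hq))
    (by apply Continuous.intervalIntegrable; fun_prop)
    (by apply Continuous.intervalIntegrable; fun_prop) fun x _ => ?_
  rw [vqf_parseval, vqf_parseval]
  refine mul_le_mul_of_nonneg_left ?_ (by positivity)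
  exact sum_le_sum_of_subset_of_nonneg (hY q hq) fun χ _ _ => by positivity

/-- the norm in terms of the characters -/
theorem N2d_vqf (X : ℕ) (ρ : ℕ → ℝ) (QQ : Finset ℕ) (hq1 : ∀ q ∈ QQ, 1 ≤ q) (w : ℕ → ℝ)
    (Y : (q : ℕ) → Finset (DirichletCharacter ℂ q)) :
    N2d X ρ QQ (fun q a x => VQf X w q (Y q) a x) =
      ∑ q ∈ QQ, ∑ χ ∈ Y q, (if h : q = 0 then 0 else haveI : NeZero q := ⟨h⟩; ‖tq q χ⁻¹‖ ^ 2) /
        (Nat.totient q : ℝ) * ∫ x in (-(ρ q / X))..(ρ q / X), ‖SXf X w ⟨q, χ⟩ x‖ ^ 2 := by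
  unfold N2d
  refine sum_congr rfl fun q hq => ?_
  have : NeZero q := ⟨by have := hq1 q hq; omega⟩
  have hc := VQf_cont X w q
  have hs := SXf_cont X w
  rw [← intervalIntegral.integral_finsetSum
      (fun a _ => by apply Continuous.intervalIntegrable; fun_prop)]
  simp only [vqf_parseval]
  rw [intervalIntegral.integral_const_mul, intervalIntegral.integral_finsetSum
      (fun χ _ => by apply Continuous.intervalIntegrable; fun_prop), mul_sum]
  refine sum_congr rfl fun χ _ => ?_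
  rw [dif_neg (NeZero.ne q), intervalIntegral.integral_const_mul]
  ring

/-- the absolute value of the Gauss sum -/
theorem tq_inv_norm (q : ℕ) [NeZero q] (χ : DirichletCharacter ℂ q) :
    ‖tq q χ⁻¹‖ = ‖DX.gs χ‖ := by
  have h1 : tq q χ = DX.gs χ := by
    rw [← tqq_eq]
    unfold tqq DX.gs rr
    symm
    refine sum_subset (filter_subset _ _) ?_
    intro y hy hy'
    have h2 : ¬ Nat.Coprime y q := fun h => hy' (mem_filter.2 ⟨hy, h⟩)
    have h3 : χ ((y : ℕ) : ZMod q) = 0 := by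
      apply MulChar.map_nonunit
      rw [ZMod.isUnit_iff_coprime]
      exact h2
    rw [h3, zero_mul]
  rw [← h1]
  have h4 : tq q χ⁻¹ = (starRingEnd ℂ) (χ (-1) * tq q χ) := by
    unfold tq
    rw [mul_sum, map_sum]
    refine Fintype.sum_equiv (Equiv.neg (ZMod q)) _ _ fun y => ?_
    rw [Equiv.neg_apply, ← mul_assoc, ← map_mul, neg_one_mul, neg_neg, map_mul, conj_chi]
    congr 1
    have h5 : ∀ z : ZMod q, ee ((z.val : ℝ) / q) = ZMod.stdAddChar z := by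
      intro z
      rw [ZMod.stdAddChar_apply, ZMod.toCircle_apply]
      unfold ee
      congr 1
      push_cast
      ring
    rw [h5, h5, AddChar.map_neg_eq_conj, Complex.conj_conj]
  rw [h4, Complex.norm_conj, norm_mul]
  have h6 : ‖χ (-1)‖ = 1 := by
    have := DirichletCharacter.unit_norm_eq_one χ (-1 : (ZMod q)ˣ)
    rwa [Units.val_neg, Units.val_one] at this
  rw [h6, one_mul]

end Pool.MP_dd84fd_nt.BY
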