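import Pool.Agent.Lib.MP_dd84fd_nt.BY.ArA

/-!
# BY-ArB: sizes, the numbers which are not coprime to `q` (helper45)
-/

set_option autoImplicit false

namespace Pool.MP_dd84fd_nt.BY

open Finset Pool.MP_67663b_nt.Odd Pool.MP_dd84fd_nt.En Pool.MP_dd84fd_nt.E2 Pool.MP_dd84fd_nt.LS
open Pool.MP_dd84fd_nt.GX Pool.MP_dd84fd_nt.HX Pool.MP_dd84fd_nt.IX
open Pool.MP_dd84fd_nt.PL (rr tp Fam)
open Pool.MP_dd84fd_nt.JX (Adm)
open Pool.MP_dd84fd_nt.HXP (cq)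
open Pool.MP_dd84fd_nt.LXP (tq cS)
open Pool.MP_dd84fd_nt.BX (PC N2d Mn DiscH ar_ee_norm ar_ee_add ar_ee_cont ar_le N2d_tp N2d_add
  N2d_sub N2d_congr ar_tp_cont N2d_nonneg)

/-- sizes of the discs -/
theorem ay_sizes (th e τ : ℝ) (hp : Adm th e τ) (K1 K2 : ℕ) : ∃ X0 : ℕ, ∀ X : ℕ, X0 ≤ X →
    ∀ (n : ℕ) (QQ : Finset ℕ) (N : ℝ) (ρ : ℕ → ℝ), DiscH e th K1 K2 X n QQ N ρ → QQ.Nonempty →
      1 ≤ N ∧ N ≤ (X : ℝ) ^ (22 / 25 : ℝ) ∧ 2 * (4 * (Real.log X) ^ K2) * N ≤ X ∧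
      Fam QQ N ∧ (∀ q ∈ QQ, 0 ≤ ρ q ∧ ρ q ≤ 4 * (Real.log X) ^ K2) ∧
      (∀ q ∈ QQ, 1 ≤ q ∧ (q : ℝ) ≤ N ∧ q ≤ X) := by
  obtain ⟨p1, p2, p3, p4, p5⟩ := hp
  obtain ⟨X1, hX1⟩ := MP_log_pow 8 K2 (ε := 3 / 25) (by norm_num)
  refine ⟨max X1 1, fun X hX n QQ N ρ hd hne => ?_⟩
  have g1 := hX1 X ((le_max_left _ _).trans hX)
  have g2 : 1 ≤ X := (le_max_right _ _).trans hX
  have hXR : (1 : ℝ) ≤ X := by exact_mod_cast g2
  have hX0 : (0 : ℝ) < X := by linarith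
  obtain ⟨-, -, d1, d2, d3, d4, d5⟩ := hd
  have hq : ∀ q ∈ QQ, 1 ≤ q ∧ (q : ℝ) ≤ N := by
    intro q hq
    have h3 := d3 q hq q hq
    rw [Nat.lcm_self] at h3
    exact ⟨(d1 q hq).1, h3⟩
  obtain ⟨q0, hq0⟩ := hne
  have hN1 : 1 ≤ N := by
    have h3 : (1 : ℝ) ≤ q0 := by exact_mod_cast (hq q0 hq0).1
    exact h3.trans (hq q0 hq0).2
  have hN2 : N ≤ (X : ℝ) ^ (22 / 25 : ℝ) :=
    d5.trans (Real.rpow_le_rpow_of_exponent_le hXR (by linarith))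
  have hXX : (X : ℝ) ^ (3 / 25 : ℝ) * (X : ℝ) ^ (22 / 25 : ℝ) = X := by
    rw [← Real.rpow_add hX0]
    norm_num
  refine ⟨hN1, hN2, ?_, ⟨fun q h => (hq q h).1, d3⟩, d2, fun q h => ⟨(hq q h).1, (hq q h).2, ?_⟩⟩
  · calc 2 * (4 * (Real.log X) ^ K2) * N = (8 * (Real.log X) ^ K2) * N := by ring
      _ ≤ (X : ℝ) ^ (3 / 25 : ℝ) * (X : ℝ) ^ (22 / 25 : ℝ) :=
          mul_le_mul g1 hN2 (by linarith) (by positivity)
      _ = X := hXX
  · have h3 : (X : ℝ) ^ (22 / 25 : ℝ) ≤ X := by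
      calc (X : ℝ) ^ (22 / 25 : ℝ) ≤ (X : ℝ) ^ (1 : ℝ) :=
            Real.rpow_le_rpow_of_exponent_le hXR (by norm_num)
        _ = X := Real.rpow_one _
    have h4 : (q : ℝ) ≤ X := (hq q h).2.trans (hN2.trans h3)
    exact_mod_cast h4

/-- the number of `z`-rough numbers `k ≤ X` with `(k, q) > 1` -/
theorem nc_count (X q z : ℕ) (hz : 1 ≤ z) (hq : 1 ≤ q) :
    ((((Icc 1 X).filter (fun k => ¬ Nat.Coprime k q ∧ Rgh z k)).card : ℕ) : ℝ) ≤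
      ((q.primeFactors.filter (fun p => z ≤ p)).card : ℝ) * (X / z) := by
  classical
  have hsub : (Icc 1 X).filter (fun k => ¬ Nat.Coprime k q ∧ Rgh z k) ⊆
      (q.primeFactors.filter (fun p => z ≤ p)).biUnion
        (fun p => (Icc 1 X).filter (fun k => p ∣ k)) := by
    intro k hk
    rw [mem_filter, mem_Icc] at hk
    obtain ⟨⟨hk1, hkX⟩, hc, hr⟩ := hk
    rw [mem_biUnion]
    obtain ⟨p, hp, hpk, hpq⟩ := Nat.Prime.not_coprime_iff_dvd.1 hc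
    refine ⟨p, ?_, ?_⟩
    · rw [mem_filter, Nat.mem_primeFactors]
      exact ⟨⟨hp, hpq, by omega⟩, hr.2 p (Nat.mem_primeFactors.2 ⟨hp, hpk, by omega⟩)⟩
    · rw [mem_filter, mem_Icc]
      exact ⟨⟨hk1, hkX⟩, hpk⟩
  have h1 := (card_le_card hsub).trans card_biUnion_le
  have h2 : ((∑ p ∈ q.primeFactors.filter (fun p => z ≤ p),
      ((Icc 1 X).filter (fun k => p ∣ k)).card : ℕ) : ℝ) ≤
      ∑ p ∈ q.primeFactors.filter (fun p => z ≤ p), ((X : ℝ) / z) := by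
    push_cast
    refine sum_le_sum fun p hp => ?_
    rw [mem_filter] at hp
    have h3 : ((Icc 1 X).filter (fun n => p ∣ n)).card = X / p := by
      have h3 : Icc 1 X = Ioc 0 X := by
        ext n
        rw [mem_Icc, mem_Ioc]
        omega
      rw [h3]
      exact Nat.Ioc_filter_dvd_card_eq_div X p
    rw [h3]
    have hz0 : (0 : ℝ) < z := by exact_mod_cast hz
    have h4 : (z : ℝ) ≤ p := by exact_mod_cast hp.2
    calc ((X / p : ℕ) : ℝ) ≤ (X : ℝ) / p := Nat.cast_div_le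
      _ ≤ X / z := by gcongr
  rw [sum_const, nsmul_eq_mul] at h2
  exact le_trans (by exact_mod_cast h1) h2

/-- a number `q ≤ X` has at most `10` prime factors `≥ X^(1/10)` -/
theorem nc_pf (X q z : ℕ) (hX : 2 ≤ X) (hq : 1 ≤ q) (hqX : q ≤ X)
    (hz : (X : ℝ) ^ (1 / 10 : ℝ) ≤ z) :
    (q.primeFactors.filter (fun p => z ≤ p)).card ≤ 10 := by
  classical
  have hX1 : (1 : ℝ) < X := by exact_mod_cast (by omega : 1 < X)
  have hX0 : (0 : ℝ) < X := by linarith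
  by_contra hcon
  push Not at hcon
  set P := q.primeFactors.filter (fun p => z ≤ p) with hP
  have h1 : z ^ P.card ≤ q := by
    calc z ^ P.card = ∏ _p ∈ P, z := by rw [prod_const]
      _ ≤ ∏ p ∈ P, p := prod_le_prod' fun p hp => (mem_filter.1 hp).2
      _ ≤ ∏ p ∈ q.primeFactors, p := by
          refine prod_le_prod_of_subset_of_one_le' (filter_subset _ _) fun p hp _ => ?_
          exact (Nat.prime_of_mem_primeFactors hp).one_le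
      _ ≤ q := Nat.le_of_dvd (by omega) (Nat.prod_primeFactors_dvd q)
  have hz1 : (1 : ℝ) < z := lt_of_lt_of_le (Real.one_lt_rpow hX1 (by norm_num)) hz
  have h2 : (z : ℝ) ^ 11 ≤ X := by
    calc (z : ℝ) ^ 11 ≤ (z : ℝ) ^ P.card := pow_le_pow_right₀ hz1.le (by omega)
      _ ≤ q := by exact_mod_cast h1
      _ ≤ X := by exact_mod_cast hqX
  have h3 : (X : ℝ) ^ (11 / 10 : ℝ) ≤ X := by
    calc (X : ℝ) ^ (11 / 10 : ℝ) = ((X : ℝ) ^ (1 / 10 : ℝ)) ^ 11 := by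
          rw [← Real.rpow_natCast ((X : ℝ) ^ (1 / 10 : ℝ)) 11, ← Real.rpow_mul hX0.le]
          norm_num
      _ ≤ (z : ℝ) ^ 11 := pow_le_pow_left₀ (by positivity) hz 11
      _ ≤ X := h2
  have h4 : (X : ℝ) < (X : ℝ) ^ (11 / 10 : ℝ) := by
    calc (X : ℝ) = (X : ℝ) ^ (1 : ℝ) := (Real.rpow_one _).symm
      _ < (X : ℝ) ^ (11 / 10 : ℝ) := Real.rpow_lt_rpow_of_exponent_lt hX1 (by norm_num)
  linarith

/-- the coefficients at the numbers which are not coprime to `q` -/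
noncomputable def ncc (q : ℕ) (w : ℕ → ℝ) (k : ℕ) : ℂ := if Nat.Coprime k q then 0 else ((w k : ℝ) : ℂ)

theorem ncc_l2 (X q K0 : ℕ) (hX : 2 ≤ X) (hq : 1 ≤ q) (hqX : q ≤ X) (w : ℕ → ℝ)
    (hw : ∀ n, |w n| ≤ K0 * rg (zI X) n) :
    ∑ k ∈ Icc 1 X, ‖ncc q w k‖ ^ 2 ≤ (K0 : ℝ) ^ 2 * 10 * (X : ℝ) ^ (9 / 10 : ℝ) := by
  have hXr : (2 : ℝ) ≤ X := by exact_mod_cast hX
  have hX0 : (0 : ℝ) < X := by linarith
  set z : ℕ := zI X with hz
  have hzX : (X : ℝ) ^ (1 / 10 : ℝ) ≤ z := Nat.le_ceil _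
  have hz0 : (0 : ℝ) < z := lt_of_lt_of_le (by positivity) hzX
  have hz1 : 1 ≤ z := by
    have : 0 < z := by exact_mod_cast hz0
    omega
  have h4 : ∀ k ∈ Icc 1 X, ‖ncc q w k‖ ^ 2 ≤
      if ¬ Nat.Coprime k q ∧ Rgh z k then (K0 : ℝ) ^ 2 else 0 := by
    intro k _
    have h5 := hw k
    unfold ncc
    by_cases hk1 : Nat.Coprime k q
    · rw [if_pos hk1, norm_zero, if_neg (fun h : ¬ Nat.Coprime k q ∧ Rgh z k => h.1 hk1)]
      norm_num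
    · rw [if_neg hk1, Complex.norm_real, Real.norm_eq_abs]
      unfold rg at h5
      by_cases hk2 : Rgh z k
      · rw [if_pos ⟨hk1, hk2⟩]
        rw [if_pos hk2, mul_one] at h5
        exact pow_le_pow_left₀ (abs_nonneg _) h5 2
      · rw [if_neg (fun h => hk2 h.2)]
        rw [if_neg hk2, mul_zero] at h5
        have h7 : |w k| = 0 := le_antisymm h5 (abs_nonneg _)
        rw [h7]
        norm_num
  refine (sum_le_sum h4).trans ?_
  rw [← sum_filter, sum_const, nsmul_eq_mul]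
  have h8 := nc_count X q z hz1 hq
  have h9 : ((q.primeFactors.filter (fun p => z ≤ p)).card : ℝ) ≤ 10 := by
    exact_mod_cast nc_pf X q z hX hq hqX hzX
  have h10 : (X : ℝ) / z ≤ (X : ℝ) ^ (9 / 10 : ℝ) := by
    rw [div_le_iff₀ hz0]
    calc (X : ℝ) = (X : ℝ) ^ (9 / 10 : ℝ) * (X : ℝ) ^ (1 / 10 : ℝ) := by
          rw [← Real.rpow_add hX0]
          norm_num
      _ ≤ _ := by gcongr
  have h11 : ((((Icc 1 X).filter (fun k => ¬ Nat.Coprime k q ∧ Rgh z k)).card : ℕ) : ℝ) ≤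
      10 * (X : ℝ) ^ (9 / 10 : ℝ) := by
    refine h8.trans ?_
    apply mul_le_mul h9 h10 (by positivity) (by norm_num)
  calc ((((Icc 1 X).filter (fun k => ¬ Nat.Coprime k q ∧ Rgh z k)).card : ℕ) : ℝ) * (K0 : ℝ) ^ 2
      ≤ 10 * (X : ℝ) ^ (9 / 10 : ℝ) * (K0 : ℝ) ^ 2 := by gcongr
    _ = _ := by ring

theorem exf_nc (X q : ℕ) (w : ℕ → ℝ) (hq : 1 ≤ q) (a : ℕ) (ha : a ∈ rr q) (x : ℝ) :
    EXf X w ((a : ℝ) / q + x) - VQf X w q (allC q) a x = tp X (ncc q w) ((a : ℝ) / q + x) := by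
  rw [vqf_univ X w q hq a ha x]
  unfold EXf tp cq ncc
  rw [← sum_sub_distrib]
  refine sum_congr rfl fun k _ => ?_
  by_cases h : Nat.Coprime k q
  · rw [if_pos h, if_pos h]
    ring
  · rw [if_neg h, if_neg h]
    ring

/-- (A1) -/
theorem ncY : NcY := by
  intro K0 th e τ hp B K1 K2
  obtain ⟨X1, hX1⟩ := ay_sizes th e τ hp K1 K2
  obtain ⟨p1, p2, p3, p4, p5⟩ := hp
  obtain ⟨X2, hX2⟩ := MP_log_pow (20 * (K0 : ℝ) ^ 2) B (ε := 1 / 20) (by norm_num)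
  refine ⟨max X1 (max X2 2), fun X hX w hw n QQ N ρ hd => ?_⟩
  have g1 := hX1 X (by omega) n QQ N ρ hd
  have g2 := hX2 X (by omega)
  have hX2' : 2 ≤ X := by omega
  have hXR : (2 : ℝ) ≤ X := by exact_mod_cast hX2'
  have hX1r : (1 : ℝ) ≤ X := by linarith
  have hX0 : (0 : ℝ) < X := by linarith
  have hL0 : 0 < Real.log X := Real.log_pos (by linarith)
  rcases QQ.eq_empty_or_nonempty with h0 | hne
  · rw [h0]
    unfold N2d
    rw [sum_empty]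
    positivity
  obtain ⟨-, -, f3, f4, f5, f6⟩ := g1 hne
  have hone : ∀ q ∈ QQ, ∑ a ∈ rr q, ∫ x in (-(ρ q / X))..(ρ q / X),
      ‖EXf X w ((a : ℝ) / q + x) - VQf X w q (allC q) a x‖ ^ 2 ≤
      20 * (K0 : ℝ) ^ 2 * (X : ℝ) ^ (9 / 10 : ℝ) := by
    intro q hq
    obtain ⟨hq1, hqN, hqX⟩ := f6 q hq
    have h1 := N2d_tp X ρ (4 * (Real.log X) ^ K2) (q : ℝ) {q} (fun q' hq' => by
        rw [mem_singleton] at hq'
        rw [hq']
        exact f5 q hq) (by positivity) ⟨fun q' hq' => by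
        rw [mem_singleton] at hq'; omega, fun q' hq' q'' hq'' => by
        rw [mem_singleton] at hq' hq''
        rw [hq', hq'', Nat.lcm_self]⟩ (by exact_mod_cast hq1) X (ncc q w)
    unfold N2d at h1
    rw [sum_singleton] at h1
    have h2 : ∑ a ∈ rr q, ∫ x in (-(ρ q / X))..(ρ q / X),
        ‖EXf X w ((a : ℝ) / q + x) - VQf X w q (allC q) a x‖ ^ 2 =
        ∑ a ∈ rr q, ∫ x in (-(ρ q / X))..(ρ q / X), ‖tp X (ncc q w) ((a : ℝ) / q + x)‖ ^ 2 := by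
      refine sum_congr rfl fun a ha => ?_
      apply intervalIntegral.integral_congr
      intro x _
      simp only [exf_nc X q w hq1 a ha x]
    rw [h2]
    refine h1.trans ?_
    have h3 := ncc_l2 X q K0 hX2' hq1 hqX w hw
    have h4 : 2 * (4 * (Real.log X) ^ K2) * (q : ℝ) / X + 1 ≤ 2 := by
      have h5 : 2 * (4 * (Real.log X) ^ K2) * (q : ℝ) / X ≤ 1 := by
        rw [div_le_one hX0]
        refine le_trans ?_ f3
        exact mul_le_mul_of_nonneg_left hqN (by positivity)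
      linarith
    calc (2 * (4 * (Real.log X) ^ K2) * (q : ℝ) / X + 1) * ∑ k ∈ Icc 1 X, ‖ncc q w k‖ ^ 2
        ≤ 2 * ((K0 : ℝ) ^ 2 * 10 * (X : ℝ) ^ (9 / 10 : ℝ)) :=
          mul_le_mul h4 h3 (sum_nonneg fun k _ => by positivity) (by norm_num)
      _ = _ := by ring
  unfold N2d
  refine (sum_le_sum hone).trans ?_
  rw [sum_const, nsmul_eq_mul]
  have hQQ : (QQ.card : ℝ) ≤ (X : ℝ) ^ (1 / 20 : ℝ) :=
    hd.2.2.2.2.2.1.trans (Real.rpow_le_rpow_of_exponent_le hX1r (by linarith))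
  rw [le_div_iff₀ (by positivity)]
  calc (QQ.card : ℝ) * (20 * (K0 : ℝ) ^ 2 * (X : ℝ) ^ (9 / 10 : ℝ)) * Real.log X ^ B
      = (20 * (K0 : ℝ) ^ 2 * Real.log X ^ B) * ((QQ.card : ℝ) * (X : ℝ) ^ (9 / 10 : ℝ)) := by ring
    _ ≤ (X : ℝ) ^ (1 / 20 : ℝ) * ((X : ℝ) ^ (1 / 20 : ℝ) * (X : ℝ) ^ (9 / 10 : ℝ)) := by
        apply mul_le_mul g2 _ (by positivity) (by positivity)
        exact mul_le_mul_of_nonneg_right hQQ (by positivity)
    _ = X := by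
        rw [← Real.rpow_add hX0, ← Real.rpow_add hX0]
        norm_num

end Pool.MP_dd84fd_nt.BY
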