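import Pool.Agent.Lib.MP_dd84fd_nt.BY.ArB

/-!
# BY-ArC: light characters, decomposition of `W_-` (helper45)
-/

set_option autoImplicit false

namespace Pool.MP_dd84fd_nt.BY

open Finset Pool.MP_67663b_nt.Odd Pool.MP_dd84fd_nt.En Pool.MP_dd84fd_nt.E2 Pool.MP_dd84fd_nt.LS
open Pool.MP_dd84fd_nt.GX Pool.MP_dd84fd_nt.HX Pool.MP_dd84fd_nt.IX
open Pool.MP_dd84fd_nt.PL (rr tp Fam)
open Pool.MP_dd84fd_nt.JX (Adm DecJ)
open Pool.MP_dd84fd_nt.HXP (cq)
open Pool.MP_dd84fd_nt.LXP (tq cS)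
open Pool.MP_dd84fd_nt.BX (PC N2d Mn DiscH ar_ee_norm ar_ee_add ar_ee_cont ar_le N2d_tp N2d_add
  N2d_sub N2d_congr N2d_rad ar_tp_cont N2d_nonneg rr_card)

/-- a close function has the same decomposition -/
theorem decJ_close (B B0 C2 K0 : ℕ) (hB : B0 + 2 ≤ B) (th e τ : ℝ) (ww aa : ℕ → ℕ → ℝ)
    (h : DecJ B C2 th e τ ww) (hc : Cls K0 B ww aa) : DecJ B0 C2 th e τ aa := by
  obtain ⟨X0, h⟩ := h
  obtain ⟨X1, hc⟩ := hc
  obtain ⟨X2, hX2⟩ := MP_log_large 2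
  refine ⟨max X0 (max X1 X2), fun X hX => ?_⟩
  obtain ⟨I, γ, α, M, K, a, c, err, h1, h2, h3, h4, h5, h6, h7, h8, h9⟩ := h X (by omega)
  obtain ⟨-, c2⟩ := hc X (by omega)
  have hL := hX2 X (by omega)
  refine ⟨I, γ, α, M, K, a, c, fun n => err n - (ww X n - aa X n), h1, h2, h3, h4, h5, h6, h7,
    fun n hn => ?_, ?_⟩
  · have := h8 n hn
    linarith
  · have e1 : ∀ n ∈ Icc 1 X, (err n - (ww X n - aa X n)) ^ 2 ≤
        2 * err n ^ 2 + 2 * (ww X n - aa X n) ^ 2 := by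
      intro n _
      nlinarith [sq_nonneg (err n + (ww X n - aa X n))]
    refine (sum_le_sum e1).trans ?_
    rw [sum_add_distrib, ← mul_sum, ← mul_sum]
    have hX0 : (0 : ℝ) ≤ X := Nat.cast_nonneg X
    have hL0 : 0 < Real.log (X : ℝ) := by linarith
    calc 2 * ∑ n ∈ Icc 1 X, err n ^ 2 + 2 * ∑ n ∈ Icc 1 X, (ww X n - aa X n) ^ 2
        ≤ 2 * (X / Real.log X ^ B) + 2 * (X / Real.log X ^ B) := by linarith
      _ = 4 * (X / Real.log X ^ B) := by ring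
      _ ≤ X / Real.log X ^ B0 := by
          rw [← mul_div_assoc, div_le_div_iff₀ (by positivity) (by positivity)]
          have e2 : Real.log (X : ℝ) ^ (B0 + 2) ≤ Real.log X ^ B :=
            pow_le_pow_right₀ (by linarith) hB
          have e3 : 4 * Real.log (X : ℝ) ^ B0 ≤ Real.log X ^ (B0 + 2) := by
            rw [pow_add]
            have e4 : (4 : ℝ) ≤ Real.log X ^ 2 := by nlinarith
            have e5 : 0 ≤ Real.log (X : ℝ) ^ B0 := by positivity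
            nlinarith
          calc 4 * (X : ℝ) * Real.log X ^ B0 = X * (4 * Real.log (X : ℝ) ^ B0) := by ring
            _ ≤ X * Real.log X ^ B := mul_le_mul_of_nonneg_left (e3.trans e2) hX0

theorem w1_close (K0 C1 B : ℕ) (ww gg aa : ℕ → ℕ → ℝ) (h : W1 K0 C1 ww gg)
    (hc : Cls K0 B ww aa) : W1 K0 C1 aa gg := by
  obtain ⟨X0, h⟩ := h
  obtain ⟨X1, hc⟩ := hc
  refine ⟨max X0 X1, fun X hX => ?_⟩
  obtain ⟨h1, h2⟩ := h X (by omega)
  obtain ⟨c1, -⟩ := hc X (by omega)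
  exact ⟨fun n => ⟨c1 n, (h1 n).2⟩, h2⟩

open Classical in
/-- the characters of conductor `> Z` and norm `≤ L^(-A')` -/
noncomputable def YL (X : ℕ) (T Z : ℝ) (A' : ℕ) (w : ℕ → ℝ) (q : ℕ) :
    Finset (DirichletCharacter ℂ q) :=
  (allC q).filter (fun χ => Z < (χ.conductor : ℝ) ∧ ¬ 1 / (Real.log X) ^ A' < sNf X T w ⟨q, χ⟩)

theorem vN_sNf (ww : ℕ → ℕ → ℝ) (X : ℕ) (T : ℝ) (q : ℕ) (χ : DirichletCharacter ℂ q) :
    DX.vN ww X T χ = sNf X T (ww X) ⟨q, χ⟩ := rfl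

/-- (LIGHT) for one function -/
theorem light_part (hL : DX.LightE) (A : ℕ) : ∃ B : ℕ, ∀ K0 C1 C2 K1 K2 K' : ℕ, ∀ τ : ℝ, 0 < τ →
    ∃ A' : ℕ, ∀ th e : ℝ, Adm th e τ → ∀ ww gg : ℕ → ℕ → ℝ, W1 K0 C1 ww gg →
    DecJ B C2 th e τ ww → ∃ X0 : ℕ, ∀ X : ℕ, X0 ≤ X →
    ∀ (n : ℕ) (QQ : Finset ℕ) (N : ℝ) (ρ : ℕ → ℝ), DiscH e th K1 K2 X n QQ N ρ →
      N2d X ρ QQ (fun q a x => VQf X (ww X) q
        (YL X (4 * (Real.log X) ^ K2) ((Real.log X) ^ K') A' (ww X) q) a x) ≤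
      X / (Real.log X) ^ A := by
  classical
  obtain ⟨B, hB⟩ := hL A
  refine ⟨B, fun K0 C1 C2 K1 K2 K' τ hτ => ?_⟩
  obtain ⟨A', hA'⟩ := hB K0 C1 C2 K1 K2 τ hτ
  refine ⟨A', fun th e hp ww gg hw hd => ?_⟩
  obtain ⟨X1, hX1⟩ := hA' th e hp ww gg hw hd
  obtain ⟨X2, hX2⟩ := ay_sizes th e τ hp K1 K2
  obtain ⟨X3, hX3⟩ := MP_log_large 1
  refine ⟨max X1 (max X2 (max X3 2)), fun X hX n QQ N ρ hD => ?_⟩
  have hL1 := hX3 X (by omega)
  have hXp : (0 : ℝ) < X := by exact_mod_cast (by omega : 0 < X)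
  rcases QQ.eq_empty_or_nonempty with h0 | hne
  · rw [h0]
    unfold N2d
    rw [sum_empty]
    positivity
  obtain ⟨f1, -, -, f4, f5, f6⟩ := hX2 X (by omega) n QQ N ρ hD hne
  obtain ⟨d1, d2, d3, d4, d5, d6, d7⟩ := hD
  set T : ℝ := 4 * (Real.log X) ^ K2 with hT
  have hT0 : 0 ≤ T := by positivity
  set Y : (q : ℕ) → Finset (DirichletCharacter ℂ q) := fun q =>
    YL X T ((Real.log X) ^ K') A' (ww X) q with hY
  have g1 := hX1 X (by omega) n QQ N ⟨d1, d2, d3, d5, d6, f1, d7⟩ Y (fun q hq χ hχ => by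
    rw [hY] at hχ
    unfold YL at hχ
    rw [mem_filter] at hχ
    refine ⟨?_, ?_⟩
    · rintro rfl
      have h1 := hχ.2.1
      have hq1 : NeZero q := ⟨by have := (f6 q hq).1; omega⟩
      rw [DirichletCharacter.conductor_one] at h1
      have h2 : (1 : ℝ) ≤ (Real.log X) ^ K' := one_le_pow₀ hL1
      rw [Nat.cast_one] at h1
      linarith
    · rw [vN_sNf]
      exact not_lt.1 hχ.2.2)
  refine (N2d_rad X ρ (fun _ => T) QQ (fun q hq => (f5 q hq).1) (fun q hq => (f5 q hq).2) _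
    (fun q a => VQf_cont X _ q _ a)).trans ?_
  rw [N2d_vqf X _ QQ (fun q hq => (f6 q hq).1)]
  refine le_trans (le_of_eq ?_) g1
  refine sum_congr rfl fun q hq => sum_congr rfl fun χ _ => ?_
  have hq1 : NeZero q := ⟨by have := (f6 q hq).1; omega⟩
  rw [dif_neg (NeZero.ne q), tq_inv_norm]
  rfl

/-- the mean over the reduced fractions is a contraction -/
theorem ay_mean (X : ℕ) (ρ : ℕ → ℝ) (QQ : Finset ℕ) (hρ : ∀ q ∈ QQ, 0 ≤ ρ q)
    (f : ℕ → ℕ → ℝ → ℂ) (hf : ∀ q a, Continuous (f q a)) :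
    N2d X ρ QQ (fun q _ x => (1 / (Nat.totient q : ℂ)) * ∑ b ∈ rr q, f q b x) ≤
      N2d X ρ QQ f := by
  unfold N2d
  refine Finset.sum_le_sum fun q hq => ?_
  have hfq := hf q
  have hM : Continuous (fun x => (1 / (Nat.totient q : ℂ)) * ∑ b ∈ rr q, f q b x) := by
    fun_prop
  rw [Finset.sum_const, nsmul_eq_mul, rr_card, ← intervalIntegral.integral_const_mul,
    ← intervalIntegral.integral_finsetSum
      (fun a _ => by apply Continuous.intervalIntegrable; fun_prop)]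
  refine intervalIntegral.integral_mono_on (ar_le X (hρ q hq))
    (by apply Continuous.intervalIntegrable; fun_prop)
    (by apply Continuous.intervalIntegrable; fun_prop) fun x _ => ?_
  rcases Nat.eq_zero_or_pos (Nat.totient q) with h0 | h0
  · rw [h0, Nat.cast_zero, zero_mul]
    exact Finset.sum_nonneg fun a _ => by positivity
  · have hφ : (0 : ℝ) < Nat.totient q := by exact_mod_cast h0
    rw [norm_mul, norm_div, norm_one, Complex.norm_natCast]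
    have h1 : ‖∑ b ∈ rr q, f q b x‖ ^ 2 ≤ (Nat.totient q : ℝ) * ∑ b ∈ rr q, ‖f q b x‖ ^ 2 := by
      calc ‖∑ b ∈ rr q, f q b x‖ ^ 2 ≤ (∑ b ∈ rr q, ‖f q b x‖) ^ 2 :=
            pow_le_pow_left₀ (norm_nonneg _) (norm_sum_le _ _) 2
        _ ≤ ((rr q).card : ℝ) * ∑ b ∈ rr q, ‖f q b x‖ ^ 2 := sq_sum_le_card_mul_sum_sq
        _ = (Nat.totient q : ℝ) * ∑ b ∈ rr q, ‖f q b x‖ ^ 2 := by rw [rr_card]
    rw [mul_pow]
    calc (Nat.totient q : ℝ) * ((1 / (Nat.totient q : ℝ)) ^ 2 * ‖∑ b ∈ rr q, f q b x‖ ^ 2) =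
          ‖∑ b ∈ rr q, f q b x‖ ^ 2 / (Nat.totient q : ℝ) := by
          field_simp
      _ ≤ ∑ b ∈ rr q, ‖f q b x‖ ^ 2 := by
          rw [div_le_iff₀ hφ]
          linarith

open Classical in
/-- the mean of the part of all characters is the part of the principal one -/
theorem mean_vqf (X : ℕ) (w : ℕ → ℝ) (q : ℕ) (hq : 1 ≤ q) (a : ℕ) (ha : a ∈ rr q) (x : ℝ) :
    (1 / (Nat.totient q : ℂ)) * ∑ b ∈ rr q, VQf X w q (allC q) b x =
      VQf X w q ((allC q).filter (fun χ => χ = 1)) a x := by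
  have hq1 : NeZero q := ⟨by omega⟩
  have hφ : (Nat.totient q : ℂ) ≠ 0 := by
    have := Nat.totient_pos.2 hq
    exact_mod_cast this.ne'
  have hsum : ∀ χ : DirichletCharacter ℂ q, ∑ b ∈ rr q, χ (b : ZMod q) =
      if χ = 1 then (Nat.totient q : ℂ) else 0 := by
    intro χ
    have e1 : ∑ b ∈ rr q, χ (b : ZMod q) = ∑ b ∈ range q, χ (b : ZMod q) := by
      unfold rr
      refine sum_subset (filter_subset _ _) ?_
      intro y hy hy'
      have h2 : ¬ Nat.Coprime y q := fun h => hy' (mem_filter.2 ⟨hy, h⟩)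
      apply MulChar.map_nonunit
      rw [ZMod.isUnit_iff_coprime]
      exact h2
    have e2 : ∑ b ∈ range q, χ (b : ZMod q) = ∑ y : ZMod q, χ y := by
      refine sum_bij (fun b _ => (b : ZMod q)) (fun _ _ => mem_univ _) ?_ ?_ (fun _ _ => rfl)
      · intro a ha b hb hab
        rw [mem_range] at ha hb
        rw [ZMod.natCast_eq_natCast_iff'] at hab
        rwa [Nat.mod_eq_of_lt ha, Nat.mod_eq_of_lt hb] at hab
      · intro y _
        exact ⟨y.val, mem_range.2 (ZMod.val_lt y), ZMod.natCast_zmod_val y⟩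
    rw [e1, e2]
    by_cases h : χ = 1
    · rw [if_pos h, h]
      have h2 := MulChar.sum_one_eq_card_units (R := ZMod q) (R' := ℂ)
      rw [h2, ZMod.card_units_eq_totient]
    · rw [if_neg h]
      exact MulChar.sum_eq_zero_of_ne_one h
  unfold VQf
  rw [dif_neg (NeZero.ne q)]
  simp only [dif_neg (NeZero.ne q)]
  rw [← mul_sum, sum_comm]
  have e3 : ∀ χ ∈ allC q, ∑ b ∈ rr q, tq q χ⁻¹ * χ (b : ZMod q) * SXf X w ⟨q, χ⟩ x =
      if χ = 1 then (Nat.totient q : ℂ) * (tq q χ⁻¹ * χ (a : ZMod q) * SXf X w ⟨q, χ⟩ x) else 0 := by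
    intro χ _
    have e4 : ∑ b ∈ rr q, tq q χ⁻¹ * χ (b : ZMod q) * SXf X w ⟨q, χ⟩ x =
        tq q χ⁻¹ * SXf X w ⟨q, χ⟩ x * ∑ b ∈ rr q, χ (b : ZMod q) := by
      rw [mul_sum]
      refine sum_congr rfl fun b _ => ?_
      ring
    rw [e4, hsum]
    by_cases h : χ = 1
    · rw [if_pos h, if_pos h]
      have h5 : χ (a : ZMod q) = 1 := by
        rw [h]
        apply MulChar.one_apply
        rw [ZMod.isUnit_iff_coprime]
        exact (mem_filter.1 ha).2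
      rw [h5]
      ring
    · rw [if_neg h, if_neg h, mul_zero]
  rw [sum_congr rfl e3, sum_filter]
  have e5 : ∀ χ ∈ allC q, (if χ = 1 then (Nat.totient q : ℂ) *
      (tq q χ⁻¹ * χ (a : ZMod q) * SXf X w ⟨q, χ⟩ x) else 0) = (Nat.totient q : ℂ) *
      (if χ = 1 then tq q χ⁻¹ * χ (a : ZMod q) * SXf X w ⟨q, χ⟩ x else 0) := by
    intro χ _
    split_ifs
    · rfl
    · rw [mul_zero]
  rw [sum_congr rfl e5, ← mul_sum]
  field_simp

end Pool.MP_dd84fd_nt.BY
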