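import Pool.Agent.Lib.MP_dd84fd_nt.BY.ArC

/-!
# BY-ArD: `ArcNar`, `ArcBY`, `ArcY` from `MeanY`, `ModY`, `SmlY`, `LightE` (helper45)
-/

set_option autoImplicit false

namespace Pool.MP_dd84fd_nt.BY

open Finset Pool.MP_67663b_nt.Odd Pool.MP_dd84fd_nt.En Pool.MP_dd84fd_nt.E2 Pool.MP_dd84fd_nt.LS
open Pool.MP_dd84fd_nt.GX Pool.MP_dd84fd_nt.HX Pool.MP_dd84fd_nt.IX
open Pool.MP_dd84fd_nt.PL (rr tp Fam)
open Pool.MP_dd84fd_nt.JX (Adm DecJ)
open Pool.MP_dd84fd_nt.LX (FFL)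
open Pool.MP_dd84fd_nt.HXP (cq)
open Pool.MP_dd84fd_nt.LXP (tq cS)
open Pool.MP_dd84fd_nt.BX (PC N2d Mn DiscH ar_ee_norm ar_ee_add ar_ee_cont ar_le N2d_tp N2d_add
  N2d_sub N2d_congr N2d_rad ar_tp_cont N2d_nonneg rr_card Mn_cont Bd Bd_cauchy Bd_add_left Bd_comm)

open Classical in
/-- the characters of conductor `> Z` -/
noncomputable def YC (Z : ℝ) (q : ℕ) : Finset (DirichletCharacter ℂ q) :=
  (allC q).filter (fun χ => Z < (χ.conductor : ℝ))

/-- the exponential sum in mean square on the discs -/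
theorem N2d_EXf (th e τ : ℝ) (hp : Adm th e τ) (K1 K2 : ℕ) : ∃ X0 : ℕ, ∀ X : ℕ, X0 ≤ X →
    ∀ (n : ℕ) (QQ : Finset ℕ) (N : ℝ) (ρ : ℕ → ℝ), DiscH e th K1 K2 X n QQ N ρ → ∀ w : ℕ → ℝ,
      N2d X ρ QQ (fun q a x => EXf X w ((a : ℝ) / q + x)) ≤ 2 * ∑ k ∈ Icc 1 X, w k ^ 2 := by
  obtain ⟨X1, hX1⟩ := ay_sizes th e τ hp K1 K2
  refine ⟨max X1 2, fun X hX n QQ N ρ hD w => ?_⟩
  have hXp : (0 : ℝ) < X := by exact_mod_cast (by omega : 0 < X)
  have hXr : (2 : ℝ) ≤ X := by exact_mod_cast (by omega : 2 ≤ X)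
  have hL : 0 < Real.log (X : ℝ) := Real.log_pos (by linarith)
  have hs : 0 ≤ ∑ k ∈ Icc 1 X, w k ^ 2 := sum_nonneg fun _ _ => sq_nonneg _
  rcases QQ.eq_empty_or_nonempty with h0 | hne
  · rw [h0]
    unfold N2d
    rw [sum_empty]
    positivity
  obtain ⟨f1, -, f3, f4, f5, f6⟩ := hX1 X (by omega) n QQ N ρ hD hne
  have h1 := N2d_tp X ρ (4 * (Real.log X) ^ K2) N QQ f5 (by positivity) f4 f1 X
    (fun k => ((w k : ℝ) : ℂ))
  have h2 : ∑ k ∈ Icc 1 X, ‖((w k : ℝ) : ℂ)‖ ^ 2 = ∑ k ∈ Icc 1 X, w k ^ 2 := by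
    refine sum_congr rfl fun k _ => ?_
    rw [Complex.norm_real, Real.norm_eq_abs, sq_abs]
  rw [h2] at h1
  have h3 : 2 * (4 * (Real.log X) ^ K2) * N / X + 1 ≤ 2 := by
    have h5 : 2 * (4 * (Real.log X) ^ K2) * N / X ≤ 1 := by
      rw [div_le_one hXp]
      exact f3
    linarith
  exact h1.trans (mul_le_mul_of_nonneg_right h3 hs)

/-- the part of any set of characters in mean square on the discs -/
theorem N2d_VQf (K0 : ℕ) (th e τ : ℝ) (hp : Adm th e τ) (B K1 K2 : ℕ) : ∃ X0 : ℕ, ∀ X : ℕ,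
    X0 ≤ X → ∀ (n : ℕ) (QQ : Finset ℕ) (N : ℝ) (ρ : ℕ → ℝ), DiscH e th K1 K2 X n QQ N ρ →
    ∀ w : ℕ → ℝ, (∀ n, |w n| ≤ K0 * rg (zI X) n) →
    ∀ Y : (q : ℕ) → Finset (DirichletCharacter ℂ q), (∀ q ∈ QQ, Y q ⊆ allC q) →
      N2d X ρ QQ (fun q a x => VQf X w q (Y q) a x) ≤
        4 * ∑ k ∈ Icc 1 X, w k ^ 2 + 2 * (X / (Real.log X) ^ B) := by
  obtain ⟨X1, hX1⟩ := N2d_EXf th e τ hp K1 K2
  obtain ⟨X2, hX2⟩ := ncY K0 th e τ hp B K1 K2
  refine ⟨max X1 X2, fun X hX n QQ N ρ hD w hw Y hY => ?_⟩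
  have h1 := hX1 X (by omega) n QQ N ρ hD w
  have h2 := hX2 X (by omega) w hw n QQ N ρ hD
  have hρ : ∀ q ∈ QQ, 0 ≤ ρ q := fun q hq => (hD.2.2.2.1 q hq).1
  have hq1 : ∀ q ∈ QQ, 1 ≤ q := fun q hq => (hD.2.2.1 q hq).1
  have hE : ∀ q a : ℕ, Continuous (fun x : ℝ => EXf X w ((a : ℝ) / q + x)) := by
    intro q a
    have := EXf_cont X w
    fun_prop
  have hV : ∀ q a : ℕ, Continuous (fun x : ℝ => VQf X w q (allC q) a x) :=
    fun q a => VQf_cont X w q _ a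
  refine (N2d_proj X ρ QQ hρ hq1 w Y (fun q => allC q) hY).trans ?_
  have e1 : N2d X ρ QQ (fun q a x => VQf X w q (allC q) a x) =
      N2d X ρ QQ (fun q a x => EXf X w ((a : ℝ) / q + x) -
        (EXf X w ((a : ℝ) / q + x) - VQf X w q (allC q) a x)) := by
    refine N2d_congr X ρ QQ _ _ fun q _ a _ x => ?_
    ring
  rw [e1]
  have h3 := N2d_sub X ρ QQ hρ (fun q a x => EXf X w ((a : ℝ) / q + x))
    (fun q a x => EXf X w ((a : ℝ) / q + x) - VQf X w q (allC q) a x) hE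
    (fun q a => (hE q a).sub (hV q a))
  linarith

/-- the identity behind `ArcNar` -/
theorem arc_id (X : ℕ) (w v fi : ℕ → ℝ) (T Z : ℝ) (A' : ℕ) (hZ1 : 1 ≤ Z) (W : ℝ → ℂ)
    (hWe : ∀ θ, W θ = EXf X w θ - EXf X fi θ) (q : ℕ) (hq : 1 ≤ q) (a : ℕ) (ha : a ∈ rr q) (x : ℝ) :
    W ((a : ℝ) / q + x) - VQf X v q (YQf X T Z A' v q) a x =
      Mn W q x + (((EXf X w ((a : ℝ) / q + x) - VQf X w q (allC q) a x) -
        (1 / (Nat.totient q : ℂ)) * ∑ b ∈ rr q, (EXf X w ((b : ℝ) / q + x) -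
          VQf X w q (allC q) b x)) + (VQf X w q (YS Z q) a x +
        (VQf X (fun m => w m - v m) q (YC Z q) a x + (VQf X v q (YL X T Z A' v q) a x -
          (EXf X fi ((a : ℝ) / q + x) - Mn (EXf X fi) q x))))) := by
  classical
  have hqz : NeZero q := ⟨by omega⟩
  obtain ⟨P, hP⟩ : ∃ P : ℂ, P = (1 / (Nat.totient q : ℂ)) * ∑ b ∈ rr q, VQf X w q (allC q) b x :=
    ⟨_, rfl⟩
  have hm1 := mean_vqf X w q hq a ha x
  rw [← hP] at hm1
  have i2 : Mn W q x = (1 / (Nat.totient q : ℂ)) * ∑ b ∈ rr q, (EXf X w ((b : ℝ) / q + x) -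
      VQf X w q (allC q) b x) + P - Mn (EXf X fi) q x := by
    rw [hP]
    unfold Mn
    rw [← mul_add, ← sum_add_distrib, ← mul_sub, ← sum_sub_distrib]
    congr 1
    refine sum_congr rfl fun b _ => ?_
    rw [hWe]
    ring
  have i3 : VQf X w q (allC q) a x = P +
      VQf X w q ((allC q).filter (fun χ => ¬ χ = 1)) a x := by
    have h1 := VQf_split X w q (allC q) (fun χ => χ = 1) a x
    rw [h1, hm1]
    congr!
  have i4 : VQf X w q ((allC q).filter (fun χ => ¬ χ = 1)) a x =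
      VQf X w q (YS Z q) a x + VQf X w q (YC Z q) a x := by
    have h1 := VQf_split X w q ((allC q).filter (fun χ => ¬ χ = 1))
      (fun χ => (χ.conductor : ℝ) ≤ Z) a x
    rw [h1]
    congr 2
    · unfold YS
      rw [filter_filter]
      ext χ
      simp only [mem_filter, ne_eq]
    · unfold YC
      ext χ
      simp only [mem_filter]
      constructor
      · rintro ⟨⟨h1, h2⟩, h3⟩
        exact ⟨h1, not_le.1 h3⟩
      · rintro ⟨h1, h2⟩
        refine ⟨⟨h1, ?_⟩, not_le.2 h2⟩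
        rintro rfl
        rw [DirichletCharacter.conductor_one, Nat.cast_one] at h2
        linarith
  have i5 : VQf X (fun m => w m - v m) q (YC Z q) a x =
      VQf X w q (YC Z q) a x - VQf X v q (YC Z q) a x := VQf_sub X _ _ q _ a x
  have i6 : VQf X v q (YC Z q) a x =
      VQf X v q (YQf X T Z A' v q) a x + VQf X v q (YL X T Z A' v q) a x := by
    have h1 := VQf_split X v q (YC Z q) (fun χ => 1 / (Real.log X) ^ A' < sNf X T v ⟨q, χ⟩) a x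
    rw [h1]
    congr 2
    · unfold YQf YC
      ext χ
      simp only [mem_filter, and_assoc]
    · unfold YL YC
      ext χ
      simp only [mem_filter, and_assoc]
  rw [hWe, i2, i5, i3, i4, i6]
  ring

/-- (ARC, narrow form) -/
theorem arcNar (hM : MeanY) (hF : ModY) (hS : SmlY) (hLt : DX.LightE) : ArcNar := by
  classical
  intro A
  obtain ⟨B1, hB1⟩ := light_part hLt (A + 8)
  refine ⟨max (B1 + 2) (A + 12), fun K0 C1 C2 th e τ hp hτ ww gg aa hw hd hm hc K1 K2 K' => ?_⟩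
  obtain ⟨A', hA'⟩ := hB1 K0 C1 C2 K1 K2 K' τ hτ
  have hda : DecJ B1 C2 th e τ aa := decJ_close _ B1 C2 K0 (le_max_left _ _) th e τ ww aa hd hc
  have hwa : W1 K0 C1 aa gg := w1_close K0 C1 _ ww gg aa hw hc
  obtain ⟨X1, hX1⟩ := hA' th e hp aa gg hwa hda
  obtain ⟨D1, hD1⟩ := hM K0 C1 th e τ hp ww gg hw hm (A + 8) K1 K2
  obtain ⟨D2, hD2⟩ := hF K0 C1 th e τ hp ww gg hw (A + 8) K1 K2
  obtain ⟨X4, hX4⟩ := hS K0 C1 th e τ hp ww gg hw hm (A + 8) K1 K2 K'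
  obtain ⟨X5, hX5⟩ := ncY K0 th e τ hp (A + 8) K1 K2
  obtain ⟨X6, hX6⟩ := N2d_VQf (2 * K0) th e τ hp (A + 12) K1 K2
  obtain ⟨Xc, hXc⟩ := hc
  obtain ⟨Xw, hXw⟩ := hw
  obtain ⟨X7, hX7⟩ := MP_log_large 2
  refine ⟨A', max D1 D2, fun D' hD' => ?_⟩
  obtain ⟨X2, hX2⟩ := hD1 D' (by omega)
  obtain ⟨X3, hX3⟩ := hD2 D' (by omega)
  refine ⟨max X1 (max X2 (max X3 (max X4 (max X5 (max X6 (max Xc (max Xw (max X7 2)))))))),
    fun X hX n QQ N ρ hD => ?_⟩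
  have hL := hX7 X (by omega)
  have hL0 : 0 < Real.log (X : ℝ) := by linarith
  have hXp : (0 : ℝ) < X := by exact_mod_cast (by omega : 0 < X)
  have hρ : ∀ q ∈ QQ, 0 ≤ ρ q := fun q hq => (hD.2.2.2.1 q hq).1
  have hq1 : ∀ q ∈ QQ, 1 ≤ q := fun q hq => (hD.2.2.1 q hq).1
  obtain ⟨c1, c2⟩ := hXc X (by omega)
  have w1 := (hXw X (by omega)).1
  have k1 := hX1 X (by omega) n QQ N ρ hD
  have k2 := hX2 X (by omega) n QQ N ρ hD
  have k3 := hX3 X (by omega) n QQ N ρ hD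
  have k4 := hX4 X (by omega) n QQ N ρ hD
  have k5 := hX5 X (by omega) (ww X) (fun k => (w1 k).1) n QQ N ρ hD
  set L := Real.log (X : ℝ) with hLd
  set T : ℝ := 4 * L ^ K2 with hT
  set Z : ℝ := L ^ K' with hZ
  have hZ1 : 1 ≤ Z := one_le_pow₀ (by linarith)
  -- the difference `ww - aa`
  have k6 := hX6 X (by omega) n QQ N ρ hD (fun m => ww X m - aa X m) (fun m => by
    have h1 := (w1 m).1
    have h2 := c1 m
    calc |ww X m - aa X m| ≤ |ww X m| + |aa X m| := abs_sub _ _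
      _ ≤ K0 * rg (zI X) m + K0 * rg (zI X) m := add_le_add h1 h2
      _ = ((2 * K0 : ℕ) : ℝ) * rg (zI X) m := by push_cast; ring)
    (fun q => YC Z q) (fun q _ => filter_subset _ _)
  have k6' : N2d X ρ QQ (fun q a x => VQf X (fun m => ww X m - aa X m) q
      (YC Z q) a x) ≤ X / L ^ (A + 8) := by
    refine k6.trans ?_
    have e1 : ∑ k ∈ Icc 1 X, (ww X k - aa X k) ^ 2 ≤ X / L ^ (A + 12) := by
      refine c2.trans ?_
      refine div_le_div_of_nonneg_left hXp.le (by positivity) ?_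
      exact pow_le_pow_right₀ (by linarith) (le_max_right _ _)
    have e2 : 4 * (X / L ^ (A + 12)) + 2 * (X / L ^ (A + 12)) ≤ X / L ^ (A + 8) := by
      rw [← add_mul, ← mul_div_assoc, div_le_div_iff₀ (by positivity) (by positivity)]
      have e3 : (16 : ℝ) ≤ L ^ 4 := by
        calc (16 : ℝ) = 2 ^ 4 := by norm_num
          _ ≤ L ^ 4 := pow_le_pow_left₀ (by norm_num) hL 4
      have e4 : L ^ (A + 12) = L ^ (A + 8) * L ^ 4 := by rw [← pow_add]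
      rw [e4]
      have e5 : 0 ≤ (X : ℝ) * L ^ (A + 8) := by positivity
      nlinarith
    linarith
  -- the model
  set Fm : ℝ → ℂ := EXf X (fI gg X (wX D' X)) with hFm
  set W : ℝ → ℂ := fun θ => WI ww gg (-1) (wX D' X) X θ with hW
  have hWe : ∀ θ, W θ = EXf X (ww X) θ - Fm θ := by
    intro θ
    rw [hW]
    simp only
    rw [WI_EXf]
    push_cast
    ring
  have hEc := EXf_cont X (ww X)
  have hFc : Continuous Fm := EXf_cont X _
  have hWc : Continuous W := by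
    have : W = fun θ => EXf X (ww X) θ - Fm θ := funext hWe
    rw [this]
    exact hEc.sub hFc
  -- the six parts
  set f1 : ℕ → ℕ → ℝ → ℂ := fun q _ x => Mn W q x with hf1
  set nc : ℕ → ℕ → ℝ → ℂ := fun q a x => EXf X (ww X) ((a : ℝ) / q + x) -
    VQf X (ww X) q (allC q) a x with hnc
  set f2 : ℕ → ℕ → ℝ → ℂ := fun q a x => nc q a x -
    (1 / (Nat.totient q : ℂ)) * ∑ b ∈ rr q, nc q b x with hf2
  set f3 : ℕ → ℕ → ℝ → ℂ := fun q a x => Fm ((a : ℝ) / q + x) - Mn Fm q x with hf3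
  set f4 : ℕ → ℕ → ℝ → ℂ := fun q a x => VQf X (ww X) q (YS Z q) a x with hf4
  set f5 : ℕ → ℕ → ℝ → ℂ := fun q a x => VQf X (fun m => ww X m - aa X m) q
      (YC Z q) a x with hf5
  set f6 : ℕ → ℕ → ℝ → ℂ := fun q a x => VQf X (aa X) q (YL X T Z A' (aa X) q) a x with hf6
  have c_nc : ∀ q a, Continuous (nc q a) := by
    intro q a
    have h1 := VQf_cont X (ww X) q (allC q) a
    rw [hnc]
    fun_prop
  have c1' : ∀ q a, Continuous (f1 q a) := fun q a => Mn_cont W hWc q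
  have c2' : ∀ q a, Continuous (f2 q a) := by
    intro q a
    have h1 := c_nc q
    rw [hf2]
    fun_prop
  have c3' : ∀ q a, Continuous (f3 q a) := by
    intro q a
    have h1 := Mn_cont Fm hFc q
    rw [hf3]
    fun_prop
  have c4' : ∀ q a, Continuous (f4 q a) := fun q a => VQf_cont X _ q _ a
  have c5' : ∀ q a, Continuous (f5 q a) := fun q a => VQf_cont X _ q _ a
  have c6' : ∀ q a, Continuous (f6 q a) := fun q a => VQf_cont X _ q _ a
  have hid : ∀ q ∈ QQ, ∀ a ∈ rr q, ∀ x : ℝ, WI ww gg (-1) (wX D' X) X ((a : ℝ) / q + x) -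
      VQf X (aa X) q (YQf X T Z A' (aa X) q) a x =
      f1 q a x + (f2 q a x + (f4 q a x + (f5 q a x + (f6 q a x - f3 q a x)))) :=
    fun q hq a ha x => arc_id X (ww X) (aa X) (fi := fI gg X (wX D' X)) T Z A' hZ1 W hWe q
      (hq1 q hq) a ha x
  rw [N2d_congr X ρ QQ _ _ hid]
  have n2 : N2d X ρ QQ f2 ≤ 4 * (X / L ^ (A + 8)) := by
    have h1 := N2d_sub X ρ QQ hρ nc (fun q _ x => (1 / (Nat.totient q : ℂ)) * ∑ b ∈ rr q, nc q b x)
      c_nc (by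
        intro q a
        have h1 := c_nc q
        fun_prop)
    have h2 := ay_mean X ρ QQ hρ nc c_nc
    have h3 : N2d X ρ QQ nc ≤ X / L ^ (A + 8) := k5
    have h4 : N2d X ρ QQ f2 ≤ 2 * N2d X ρ QQ nc + 2 * N2d X ρ QQ
      (fun q _ x => (1 / (Nat.totient q : ℂ)) * ∑ b ∈ rr q, nc q b x) := h1
    linarith
  have s6 := N2d_sub X ρ QQ hρ f6 f3 c6' c3'
  have s5 := N2d_add X ρ QQ hρ f5 (fun q a x => f6 q a x - f3 q a x) c5'
    (fun q a => (c6' q a).sub (c3' q a))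
  have s4 := N2d_add X ρ QQ hρ f4 (fun q a x => f5 q a x + (f6 q a x - f3 q a x)) c4'
    (fun q a => (c5' q a).add ((c6' q a).sub (c3' q a)))
  have s2 := N2d_add X ρ QQ hρ f2 (fun q a x => f4 q a x + (f5 q a x + (f6 q a x - f3 q a x))) c2'
    (fun q a => (c4' q a).add ((c5' q a).add ((c6' q a).sub (c3' q a))))
  have s1 := N2d_add X ρ QQ hρ f1
    (fun q a x => f2 q a x + (f4 q a x + (f5 q a x + (f6 q a x - f3 q a x)))) c1'
    (fun q a => (c2' q a).add ((c4' q a).add ((c5' q a).add ((c6' q a).sub (c3' q a)))))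
  have n1 : N2d X ρ QQ f1 ≤ X / L ^ (A + 8) := k2
  have n3 : N2d X ρ QQ f3 ≤ X / L ^ (A + 8) := k3
  have n4 : N2d X ρ QQ f4 ≤ X / L ^ (A + 8) := k4
  have n5 : N2d X ρ QQ f5 ≤ X / L ^ (A + 8) := k6'
  have n6 : N2d X ρ QQ f6 ≤ X / L ^ (A + 8) := k1
  have hfin : 256 * (X / L ^ (A + 8)) ≤ X / L ^ A := by
    rw [← mul_div_assoc, div_le_div_iff₀ (by positivity) (by positivity)]
    have e3 : (256 : ℝ) ≤ L ^ 8 := by
      calc (256 : ℝ) = 2 ^ 8 := by norm_num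
        _ ≤ L ^ 8 := pow_le_pow_left₀ (by norm_num) hL 8
    have e4 : L ^ (A + 8) = L ^ A * L ^ 8 := by rw [← pow_add]
    rw [e4]
    have e5 : 0 ≤ (X : ℝ) * L ^ A := by positivity
    nlinarith
  have hpos : 0 ≤ (X : ℝ) / L ^ (A + 8) := by positivity
  linarith

end Pool.MP_dd84fd_nt.BY
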