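import Pool.Agent.Lib.MP_dd84fd_nt.BY.Defs

/-!
# BY-AyDefs: interface of the assembly for two functions (helper3)

`v1 X`, `v2 X`: the weights which replace `ww1 X`, `ww2 X` (`wP X` or an exact form `AE X y c`).
`VQa`: all characters modulo `q` (for the first function), `VQf`: the characters in `Yq` (second
function), `YQf`: conductor `> Z` and norm `> L^(-A')`.
-/

set_option autoImplicit false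

namespace Pool.MP_dd84fd_nt.BY

open Finset Pool.MP_67663b_nt.Odd Pool.MP_dd84fd_nt.En Pool.MP_dd84fd_nt.E2 Pool.MP_dd84fd_nt.LS
open Pool.MP_dd84fd_nt.GX Pool.MP_dd84fd_nt.HX Pool.MP_dd84fd_nt.IX
open Pool.MP_dd84fd_nt.PL (rr)
open Pool.MP_dd84fd_nt.JX (wP gP DecJ)
open Pool.MP_dd84fd_nt.LX (FFL)
open Pool.MP_dd84fd_nt.LXP (tq)
open Pool.MP_dd84fd_nt.BX (PC pv IsPC PFam prc ind h0 cP cf)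

open Classical in
/-- the part of the exponential sum of `w` at `a/q + x` which belongs to the characters in `Yq` -/
noncomputable def VQf (X : ℕ) (w : ℕ → ℝ) (q : ℕ) (Yq : Finset (DirichletCharacter ℂ q)) (a : ℕ)
    (x : ℝ) : ℂ :=
  if h : q = 0 then 0 else
    haveI : NeZero q := ⟨h⟩
    (1 / (Nat.totient q : ℂ)) * ∑ χ ∈ Yq, tq q χ⁻¹ * χ (a : ZMod q) * SXf X w ⟨q, χ⟩ x

open Classical in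
/-- all characters modulo `q` -/
noncomputable def allC (q : ℕ) : Finset (DirichletCharacter ℂ q) :=
  if h : q = 0 then ∅ else
    haveI : NeZero q := ⟨h⟩
    univ

open Classical in
/-- the characters modulo `q` with conductor `> Z` and norm `> L^(-A')` -/
noncomputable def YQf (X : ℕ) (T Z : ℝ) (A' : ℕ) (w : ℕ → ℝ) (q : ℕ) :
    Finset (DirichletCharacter ℂ q) :=
  (allC q).filter (fun χ => Z < (χ.conductor : ℝ) ∧ 1 / (Real.log X) ^ A' < sNf X T w ⟨q, χ⟩)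

/-- (ARC) the discs for `ww1 (ww2 - gg2 f1)` reduce to the pairs of characters `(χ₁, χ₂)`, `χ₁`
arbitrary, `χ₂` of large conductor and large norm -/
def ArcY (th e : ℝ) (ww1 gg1 ww2 gg2 v1 v2 : ℕ → ℕ → ℝ) : Prop :=
  ∀ K1 K2 K' : ℕ, K1 < K' → ∃ A' D0 : ℕ, ∀ D' : ℕ, D0 ≤ D' → ∃ X0 : ℕ, ∀ X : ℕ, X0 ≤ X →
    ∀ n : ℕ, X < 2 * n → n ≤ X → ∀ (QQ : Finset ℕ) (N : ℝ) (ρ : ℕ → ℝ),
    (∀ q ∈ QQ, 1 ≤ q ∧ (q : ℝ) ≤ (Real.log X) ^ K1 * (Nat.gcd q n : ℝ)) →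
    (∀ q ∈ QQ, 0 ≤ ρ q ∧ ρ q ≤ 4 * (Real.log X) ^ K2) →
    (∀ q ∈ QQ, ∀ q' ∈ QQ, (Nat.lcm q q' : ℝ) ≤ N) → (QQ.card : ℝ) ≤ (X : ℝ) ^ (e / 2) →
    N ≤ (X : ℝ) ^ (1 - th + 3 / 2 * e) →
    ‖∑ q ∈ QQ, dsc (FFL ww1 gg1 0 ww2 gg2 (-1) (wX D' X) X n) X q (ρ q)‖ ≤
      (∑ q ∈ QQ, ‖∑ a ∈ rr q, ∫ x in (-(ρ q / X))..(ρ q / X),
        VQf X (v1 X) q (allC q) a x *
          VQf X (v2 X) q (YQf X (4 * (Real.log X) ^ K2) ((Real.log X) ^ K') A' (v2 X) q) a x *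
          ee (-((n : ℝ) * ((a : ℝ) / q + x)))‖) + X / (Real.log X) ^ 3

/-- `s ≤ M + E` on every level for the weights `v` -/
def SlV (th e : ℝ) (v : ℕ → ℕ → ℝ) : Prop := ∃ (C c : ℝ) (D : ℕ), 0 < C ∧ 0 < c ∧
  ∀ A1 B : ℕ, ∃ X0 : ℕ, ∀ X : ℕ, X0 ≤ X → ∀ T : ℝ, 1 ≤ T → T ≤ (Real.log X) ^ B →
    ∀ Y : Finset PC, PFam Y ((X : ℝ) ^ (1 - th + 3 / 2 * e)) → (∀ ψ ∈ Y, 2 ≤ ψ.1) →
    (Y.card : ℝ) ≤ (X : ℝ) ^ c →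
    ∀ J : ℕ, 1 ≤ J → (2 : ℝ) ^ J ≤ (Real.log X) ^ A1 → ∃ M E : PC → ℝ,
      (∀ ψ ∈ Y, 0 ≤ M ψ ∧ 0 ≤ E ψ ∧ sNf X T (v X) ψ ≤ M ψ + E ψ) ∧
      ∑ ψ ∈ Y, M ψ ≤ C * (J : ℝ) ^ D ∧ ∑ ψ ∈ Y, E ψ ^ 2 ≤ (1 / 4 : ℝ) ^ J

/-- the sum over the partners of one character -/
def RelV (th e : ℝ) (v : ℕ → ℕ → ℝ) : Prop := ∃ (C : ℝ) (D : ℕ), 0 < C ∧
  ∀ K B : ℕ, ∃ X0 : ℕ, ∀ X : ℕ, X0 ≤ X → ∀ T : ℝ, 1 ≤ T → T ≤ (Real.log X) ^ B →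
    ∀ ψ₂ : PC, IsPC ψ₂ → (ψ₂.1 : ℝ) ≤ (X : ℝ) ^ (1 - th + 3 / 2 * e) →
    ∀ k : ℕ, (2 : ℝ) ^ k ≤ (Real.log X) ^ K → ∀ Y : Finset PC,
    PFam Y ((X : ℝ) ^ (1 - th + 3 / 2 * e)) → (∀ ψ ∈ Y, 2 ≤ ψ.1 ∧ cP ψ ψ₂ ≤ 2 ^ (k + 1)) →
    (Y.card : ℝ) ≤ 4 * 4 ^ k → ∑ ψ ∈ Y, sNf X T (v X) ψ ≤ C * ((k : ℝ) + 1) ^ D

/-- bounded weights on rough numbers -/
def BdV (K0 : ℕ) (v : ℕ → ℕ → ℝ) : Prop := ∃ X0 : ℕ, ∀ X : ℕ, X0 ≤ X →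
  ∀ n, |v X n| ≤ K0 * rg (zI X) n

/-- a character with large norm has a large sum over primes -/
def ExV (v : ℕ → ℕ → ℝ) : Prop := ∀ (κ : ℝ) (B : ℕ), 0 < κ → ∃ (M' X0 : ℕ),
  ∀ X : ℕ, X0 ≤ X → ∀ T : ℝ, 1 ≤ T → T ≤ (Real.log X) ^ B → ∀ ψ : PC, κ ≤ sNf X T (v X) ψ →
    ∃ u : ℕ, (X : ℝ) ^ (1 / 11 : ℝ) ≤ u ∧ u ≤ X ∧
      (u : ℝ) / (Real.log X) ^ M' ≤ ‖∑ p ∈ (Icc 1 u).filter Nat.Prime, ψ.2 (p : ZMod ψ.1)‖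

end Pool.MP_dd84fd_nt.BY
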