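import Pool.Agent.Lib.MP_dd84fd_nt.BX.ArDefs
import Pool.Agent.Lib.MP_dd84fd_nt.BY.AyDefs
import Pool.Agent.Lib.MP_dd84fd_nt.DX.Defs

/-!
# BY-ArDefs: arcs and characters for two families (helper45)

`VQf`, `allC`, `YQf`: BY/AyDefs.  `YS`: conductor in `(1, Z]`.  `EXf`: exponential sum of `w`.
`Cls K0 B ww aa`: `aa` is bounded by `K0` on rough numbers and close to `ww` in mean square.
`ArcNar` (one narrow function, in `L²` on the discs), `ArcBY` (two functions, used by the assembly).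
The hypothesis on the discs is `BX.DiscH`, the norm is `BX.N2d`.
-/

set_option autoImplicit false

namespace Pool.MP_dd84fd_nt.BY

open Finset Pool.MP_67663b_nt.Odd Pool.MP_dd84fd_nt.En Pool.MP_dd84fd_nt.E2 Pool.MP_dd84fd_nt.LS
open Pool.MP_dd84fd_nt.GX Pool.MP_dd84fd_nt.HX Pool.MP_dd84fd_nt.IX
open Pool.MP_dd84fd_nt.PL (rr)
open Pool.MP_dd84fd_nt.JX (wP gP DecJ Adm)
open Pool.MP_dd84fd_nt.LX (FFL)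
open Pool.MP_dd84fd_nt.LXP (tq)
open Pool.MP_dd84fd_nt.BX (PC pv IsPC PFam prc ind h0 cP cf N2d Mn DiscH)

open Classical in
/-- the characters modulo `q` with conductor in `(1, Z]` -/
noncomputable def YS (Z : ℝ) (q : ℕ) : Finset (DirichletCharacter ℂ q) :=
  (allC q).filter (fun χ => χ ≠ 1 ∧ (χ.conductor : ℝ) ≤ Z)

/-- `∑_{n ≤ X} w(n) e(nθ)` -/
noncomputable def EXf (X : ℕ) (w : ℕ → ℝ) (θ : ℝ) : ℂ :=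
  ∑ n ∈ Icc 1 X, ((w n : ℝ) : ℂ) * ee ((n : ℝ) * θ)

/-- `aa` is bounded by `K0` on rough numbers and close to `ww` in mean square -/
def Cls (K0 B : ℕ) (ww aa : ℕ → ℕ → ℝ) : Prop := ∃ X0 : ℕ, ∀ X : ℕ, X0 ≤ X →
  (∀ n, |aa X n| ≤ K0 * rg (zI X) n) ∧
    ∑ n ∈ Icc 1 X, (ww X n - aa X n) ^ 2 ≤ X / (Real.log X) ^ B

/-- (A1) the numbers which are not coprime to `q` do not matter -/
def NcY : Prop := ∀ (K0 : ℕ) (th e τ : ℝ), Adm th e τ → ∀ B K1 K2 : ℕ, ∃ X0 : ℕ, ∀ X : ℕ, X0 ≤ X →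
  ∀ w : ℕ → ℝ, (∀ n, |w n| ≤ K0 * rg (zI X) n) →
  ∀ (n : ℕ) (QQ : Finset ℕ) (N : ℝ) (ρ : ℕ → ℝ), DiscH e th K1 K2 X n QQ N ρ →
    N2d X ρ QQ (fun q a x => EXf X w ((a : ℝ) / q + x) - VQf X w q (allC q) a x) ≤
      X / (Real.log X) ^ B

/-- (A2) the mean of `W_-` is small -/
def MeanY : Prop := ∀ (K0 C1 : ℕ) (th e τ : ℝ), Adm th e τ → ∀ ww gg : ℕ → ℕ → ℝ,
  W1 K0 C1 ww gg → MajI ww gg → ∀ B K1 K2 : ℕ, ∃ D0 : ℕ, ∀ D' : ℕ, D0 ≤ D' → ∃ X0 : ℕ, ∀ X : ℕ,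
  X0 ≤ X → ∀ (n : ℕ) (QQ : Finset ℕ) (N : ℝ) (ρ : ℕ → ℝ), DiscH e th K1 K2 X n QQ N ρ →
    N2d X ρ QQ (fun q _ x => Mn (WI ww gg (-1) (wX D' X) X) q x) ≤ X / (Real.log X) ^ B

/-- (A3) the model is constant on the reduced fractions with one denominator -/
def ModY : Prop := ∀ (K0 C1 : ℕ) (th e τ : ℝ), Adm th e τ → ∀ ww gg : ℕ → ℕ → ℝ,
  W1 K0 C1 ww gg → ∀ B K1 K2 : ℕ, ∃ D0 : ℕ, ∀ D' : ℕ, D0 ≤ D' → ∃ X0 : ℕ, ∀ X : ℕ,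
  X0 ≤ X → ∀ (n : ℕ) (QQ : Finset ℕ) (N : ℝ) (ρ : ℕ → ℝ), DiscH e th K1 K2 X n QQ N ρ →
    N2d X ρ QQ (fun q a x => EXf X (fI gg X (wX D' X)) ((a : ℝ) / q + x) -
      Mn (EXf X (fI gg X (wX D' X))) q x) ≤ X / (Real.log X) ^ B

/-- (A4) the characters of small conductor -/
def SmlY : Prop := ∀ (K0 C1 : ℕ) (th e τ : ℝ), Adm th e τ → ∀ ww gg : ℕ → ℕ → ℝ,
  W1 K0 C1 ww gg → MajI ww gg → ∀ B K1 K2 K' : ℕ, ∃ X0 : ℕ, ∀ X : ℕ,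
  X0 ≤ X → ∀ (n : ℕ) (QQ : Finset ℕ) (N : ℝ) (ρ : ℕ → ℝ), DiscH e th K1 K2 X n QQ N ρ →
    N2d X ρ QQ (fun q a x => VQf X (ww X) q (YS ((Real.log X) ^ K') q) a x) ≤
      X / (Real.log X) ^ B

/-- (ARC, narrow form) `W_-` is close, in `L²` on the discs, to its part at the characters of large
conductor and large norm -/
def ArcNar : Prop := ∀ A : ℕ, ∃ B : ℕ, ∀ (K0 C1 C2 : ℕ) (th e τ : ℝ), Adm th e τ → 0 < τ →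
  ∀ ww gg aa : ℕ → ℕ → ℝ, W1 K0 C1 ww gg → DecJ B C2 th e τ ww → MajI ww gg → Cls K0 B ww aa →
  ∀ K1 K2 K' : ℕ, ∃ A' D0 : ℕ, ∀ D' : ℕ, D0 ≤ D' → ∃ X0 : ℕ, ∀ X : ℕ, X0 ≤ X →
  ∀ (n : ℕ) (QQ : Finset ℕ) (N : ℝ) (ρ : ℕ → ℝ), DiscH e th K1 K2 X n QQ N ρ →
    N2d X ρ QQ (fun q a x => WI ww gg (-1) (wX D' X) X ((a : ℝ) / q + x) -
      VQf X (aa X) q (YQf X (4 * (Real.log X) ^ K2) ((Real.log X) ^ K') A' (aa X) q) a x) ≤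
      X / (Real.log X) ^ A

/-- (ARC, two functions) reduction of the discs to the characters of large conductor and large norm of
the second function -/
def ArcBY : Prop := ∀ A : ℕ, ∃ B : ℕ, ∀ (K0 C1 C2 : ℕ) (th e τ : ℝ), Adm th e τ → 0 < τ →
  ∀ ww1 gg1 aa1 ww2 gg2 aa2 : ℕ → ℕ → ℝ, W1 K0 C1 ww1 gg1 → Cls K0 B ww1 aa1 →
  W1 K0 C1 ww2 gg2 → DecJ B C2 th e τ ww2 → MajI ww2 gg2 → Cls K0 B ww2 aa2 →
  ∀ K1 K2 K' : ℕ, ∃ A' D0 : ℕ, ∀ D' : ℕ, D0 ≤ D' → ∃ X0 : ℕ, ∀ X : ℕ, X0 ≤ X →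
  ∀ (n : ℕ) (QQ : Finset ℕ) (N : ℝ) (ρ : ℕ → ℝ), DiscH e th K1 K2 X n QQ N ρ →
    ‖∑ q ∈ QQ, dsc (FFL ww1 gg1 0 ww2 gg2 (-1) (wX D' X) X n) X q (ρ q)‖ ≤
      (∑ q ∈ QQ, ‖∑ a ∈ rr q, ∫ x in (-(ρ q / X))..(ρ q / X),
        VQf X (aa1 X) q (allC q) a x *
          VQf X (aa2 X) q (YQf X (4 * (Real.log X) ^ K2) ((Real.log X) ^ K') A' (aa2 X) q) a x *
          ee (-((n : ℝ) * ((a : ℝ) / q + x)))‖) + X / (Real.log X) ^ A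

end Pool.MP_dd84fd_nt.BY
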