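import Pool.Agent.Lib.MP_dd84fd_nt.BY.ArD

/-!
# BY-ArE: `ArcBY` and `ArcY` (helper45)
-/

set_option autoImplicit false

namespace Pool.MP_dd84fd_nt.BY

open Finset Pool.MP_67663b_nt.Odd Pool.MP_dd84fd_nt.En Pool.MP_dd84fd_nt.E2 Pool.MP_dd84fd_nt.LS
open Pool.MP_dd84fd_nt.GX Pool.MP_dd84fd_nt.HX Pool.MP_dd84fd_nt.IX
open Pool.MP_dd84fd_nt.PL (rr tp Fam)
open Pool.MP_dd84fd_nt.JX (Adm DecJ)
open Pool.MP_dd84fd_nt.LX (FFL)
open Pool.MP_dd84fd_nt.BX (PC N2d Mn DiscH ar_ee_norm ar_ee_add ar_ee_cont ar_le N2d_tp N2d_add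
  N2d_sub N2d_congr N2d_rad ar_tp_cont N2d_nonneg rr_card Mn_cont Bd Bd_cauchy Bd_add_left Bd_comm)

/-- the sum of the squares of a bounded weight -/
theorem sum_sq_bd (K0 X : ℕ) (w : ℕ → ℝ) (hw : ∀ n, |w n| ≤ K0 * rg (zI X) n) :
    ∑ k ∈ Icc 1 X, w k ^ 2 ≤ (K0 : ℝ) ^ 2 * X := by
  have h1 : ∀ k ∈ Icc 1 X, w k ^ 2 ≤ (K0 : ℝ) ^ 2 := by
    intro k _
    have h2 := hw k
    have h3 : (K0 : ℝ) * rg (zI X) k ≤ K0 := by
      have := (rg_nonneg (zI X) k).2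
      have h4 : (0 : ℝ) ≤ K0 := Nat.cast_nonneg _
      nlinarith
    rw [← sq_abs]
    exact pow_le_pow_left₀ (abs_nonneg _) (h2.trans h3) 2
  refine (sum_le_sum h1).trans (le_of_eq ?_)
  rw [sum_const, Nat.card_Icc, Nat.add_sub_cancel, nsmul_eq_mul]
  ring

/-- the discs of the product as bilinear forms -/
theorem dsc_Bd (ww1 gg1 ww2 gg2 : ℕ → ℕ → ℝ) (w X n q : ℕ) (r : ℝ) :
    dsc (FFL ww1 gg1 0 ww2 gg2 (-1) w X n) X q r =
      Bd X r n q (fun a x => EXf X (ww1 X) ((a : ℝ) / q + x))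
        (fun a x => WI ww2 gg2 (-1) w X ((a : ℝ) / q + x)) := by
  unfold dsc Bd FFL
  refine sum_congr rfl fun a _ => ?_
  apply intervalIntegral.integral_congr
  intro x _
  simp only
  rw [WI_EXf ww1 gg1 0]
  simp

/-- the decomposition with a smaller exponent -/
theorem decJ_close_self (B0 B : ℕ) (hB : B0 ≤ B) (C2 : ℕ) (th e τ : ℝ) (ww : ℕ → ℕ → ℝ)
    (h : DecJ B C2 th e τ ww) : DecJ B0 C2 th e τ ww := by
  obtain ⟨X0, h⟩ := h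
  obtain ⟨X2, hX2⟩ := MP_log_large 1
  refine ⟨max X0 X2, fun X hX => ?_⟩
  obtain ⟨I, γ, α, M, K, a, c, err, h1, h2, h3, h4, h5, h6, h7, h8, h9⟩ := h X (by omega)
  have hL := hX2 X (by omega)
  refine ⟨I, γ, α, M, K, a, c, err, h1, h2, h3, h4, h5, h6, h7, h8, h9.trans ?_⟩
  refine div_le_div_of_nonneg_left (Nat.cast_nonneg X) (by positivity) ?_
  exact pow_le_pow_right₀ hL hB

/-- (ARC, two functions) -/
theorem arcBY (hN : ArcNar) : ArcBY := by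
  classical
  intro A
  obtain ⟨B1, hB1⟩ := hN (2 * A + 4)
  refine ⟨max B1 (2 * A + 8), fun K0 C1 C2 th e τ hp hτ ww1 gg1 aa1 ww2 gg2 aa2 hw1 hc1 hw2 hd2 hm2
    hc2 K1 K2 K' => ?_⟩
  have hcl : Cls K0 B1 ww2 aa2 := by
    obtain ⟨X0, h⟩ := hc2
    obtain ⟨X1, hX1⟩ := MP_log_large 1
    refine ⟨max X0 X1, fun X hX => ?_⟩
    obtain ⟨h1, h2⟩ := h X (by omega)
    have hL := hX1 X (by omega)
    refine ⟨h1, h2.trans ?_⟩
    refine div_le_div_of_nonneg_left (Nat.cast_nonneg X) (by positivity) ?_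
    exact pow_le_pow_right₀ hL (le_max_left _ _)
  have hdJ : DecJ B1 C2 th e τ ww2 := by
    have h1 := decJ_close_self B1 (max B1 (2 * A + 8)) (le_max_left _ _) C2 th e τ ww2 hd2
    exact h1
  obtain ⟨A', D0, hD0⟩ := hB1 K0 C1 C2 th e τ hp hτ ww2 gg2 aa2 hw2 hdJ hm2 hcl K1 K2 K'
  refine ⟨A', D0, fun D' hD' => ?_⟩
  obtain ⟨X1, hX1⟩ := hD0 D' hD'
  obtain ⟨X2, hX2⟩ := N2d_EXf th e τ hp K1 K2
  obtain ⟨X3, hX3⟩ := N2d_VQf K0 th e τ hp (2 * A + 8) K1 K2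
  obtain ⟨X4, hX4⟩ := ncY K0 th e τ hp (2 * A + 8) K1 K2
  obtain ⟨Xc, hXc⟩ := hc1
  obtain ⟨Xd, hXd⟩ := hc2
  obtain ⟨Xw, hXw⟩ := hw1
  obtain ⟨X5, hX5⟩ := MP_log_large (8 * ((K0 : ℝ) + 1))
  refine ⟨max X1 (max X2 (max X3 (max X4 (max Xc (max Xd (max Xw (max X5 2))))))),
    fun X hX n QQ N ρ hD => ?_⟩
  have hL := hX5 X (by omega)
  have hK0 : (0 : ℝ) ≤ K0 := Nat.cast_nonneg _
  have hL0 : 0 < Real.log (X : ℝ) := by linarith
  have hXp : (0 : ℝ) < X := by exact_mod_cast (by omega : 0 < X)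
  have hρ : ∀ q ∈ QQ, 0 ≤ ρ q := fun q hq => (hD.2.2.2.1 q hq).1
  obtain ⟨c1, c2⟩ := hXc X (by omega)
  obtain ⟨e1, -⟩ := hXd X (by omega)
  have w1 := (hXw X (by omega)).1
  have k1 := hX1 X (by omega) n QQ N ρ hD
  have k2 := hX2 X (by omega) n QQ N ρ hD
  have k4 := hX4 X (by omega) (aa1 X) c1 n QQ N ρ hD
  set L := Real.log (X : ℝ) with hLd
  set T : ℝ := 4 * L ^ K2 with hT
  set Z : ℝ := L ^ K' with hZ
  have k3 := hX3 X (by omega) n QQ N ρ hD (aa2 X) e1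
    (fun q => YQf X T Z A' (aa2 X) q) (fun q _ => filter_subset _ _)
  -- the functions
  set E1 : ℕ → ℕ → ℝ → ℂ := fun q a x => EXf X (ww1 X) ((a : ℝ) / q + x) with hE1
  set E2 : ℕ → ℕ → ℝ → ℂ := fun q a x => WI ww2 gg2 (-1) (wX D' X) X ((a : ℝ) / q + x) with hE2
  set V1 : ℕ → ℕ → ℝ → ℂ := fun q a x => VQf X (aa1 X) q (allC q) a x with hV1
  set V2 : ℕ → ℕ → ℝ → ℂ := fun q a x => VQf X (aa2 X) q (YQf X T Z A' (aa2 X) q) a x with hV2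
  have cE1 : ∀ q a, Continuous (E1 q a) := by
    intro q a
    have := EXf_cont X (ww1 X)
    rw [hE1]
    fun_prop
  have cE2 : ∀ q a, Continuous (E2 q a) := by
    intro q a
    have h1 : E2 q a = fun x => EXf X (ww2 X) ((a : ℝ) / q + x) +
        (((-1 : ℝ) : ℂ)) * EXf X (fI gg2 X (wX D' X)) ((a : ℝ) / q + x) := by
      funext x
      rw [hE2]
      simp only
      rw [WI_EXf]
    rw [h1]
    have h2 := EXf_cont X (ww2 X)
    have h3 := EXf_cont X (fI gg2 X (wX D' X))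
    fun_prop
  have cV1 : ∀ q a, Continuous (V1 q a) := fun q a => VQf_cont X _ q _ a
  have cV2 : ∀ q a, Continuous (V2 q a) := fun q a => VQf_cont X _ q _ a
  -- the norms
  have n1 : N2d X ρ QQ E1 ≤ 2 * ((K0 : ℝ) ^ 2 * X) := by
    refine (k2 (ww1 X)).trans ?_
    have := sum_sq_bd K0 X (ww1 X) (fun k => (w1 k).1)
    linarith
  have n2 : N2d X ρ QQ (fun q a x => E2 q a x - V2 q a x) ≤ X / L ^ (2 * A + 4) := k1
  have n3 : N2d X ρ QQ V2 ≤ 4 * ((K0 : ℝ) ^ 2 * X) + 2 * (X / L ^ (2 * A + 8)) := by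
    refine k3.trans ?_
    have := sum_sq_bd K0 X (aa2 X) e1
    linarith
  have n4 : N2d X ρ QQ (fun q a x => E1 q a x - V1 q a x) ≤ 6 * (X / L ^ (2 * A + 8)) := by
    have h1 : N2d X ρ QQ (fun q a x => E1 q a x - V1 q a x) =
        N2d X ρ QQ (fun q a x => EXf X (fun m => ww1 X m - aa1 X m) ((a : ℝ) / q + x) +
          (EXf X (aa1 X) ((a : ℝ) / q + x) - VQf X (aa1 X) q (allC q) a x)) := by
      refine N2d_congr X ρ QQ _ _ fun q _ a _ x => ?_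
      rw [EXf_sub]
      simp only [hE1, hV1]
      ring
    rw [h1]
    have h2 := N2d_add X ρ QQ hρ
      (fun q a x => EXf X (fun m => ww1 X m - aa1 X m) ((a : ℝ) / q + x))
      (fun q a x => EXf X (aa1 X) ((a : ℝ) / q + x) - VQf X (aa1 X) q (allC q) a x)
      (by
        intro q a
        have := EXf_cont X (fun m => ww1 X m - aa1 X m)
        fun_prop)
      (by
        intro q a
        have h3 := EXf_cont X (aa1 X)
        have h4 := VQf_cont X (aa1 X) q (allC q) a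
        fun_prop)
    have h3 := k2 (fun m => ww1 X m - aa1 X m)
    have h4 : ∑ k ∈ Icc 1 X, (ww1 X k - aa1 X k) ^ 2 ≤ X / L ^ (2 * A + 8) := by
      refine c2.trans ?_
      refine div_le_div_of_nonneg_left hXp.le (by positivity) ?_
      exact pow_le_pow_right₀ (by linarith) (le_max_right _ _)
    linarith
  -- the bilinear forms
  have b1 : ∀ q ∈ QQ, dsc (FFL ww1 gg1 0 ww2 gg2 (-1) (wX D' X) X n) X q (ρ q) =
      Bd X (ρ q) n q (V1 q) (V2 q) + Bd X (ρ q) n q (fun a x => E1 q a x - V1 q a x) (V2 q) +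
        Bd X (ρ q) n q (fun a x => E2 q a x - V2 q a x) (E1 q) := by
    intro q _
    rw [dsc_Bd]
    have c1 : Bd X (ρ q) n q (E1 q) (E2 q) = Bd X (ρ q) n q (E1 q) (V2 q) +
        Bd X (ρ q) n q (fun a x => E2 q a x - V2 q a x) (E1 q) := by
      rw [Bd_comm X (ρ q) n q (E1 q) (E2 q), Bd_comm X (ρ q) n q (E1 q) (V2 q)]
      rw [← Bd_add_left X (ρ q) n q (V2 q) (fun a x => E2 q a x - V2 q a x) (E1 q) (cV2 q)
        (fun a => (cE2 q a).sub (cV2 q a)) (cE1 q)]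
      congr 1
      funext a x
      ring
    have c2 : Bd X (ρ q) n q (E1 q) (V2 q) = Bd X (ρ q) n q (V1 q) (V2 q) +
        Bd X (ρ q) n q (fun a x => E1 q a x - V1 q a x) (V2 q) := by
      rw [← Bd_add_left X (ρ q) n q (V1 q) (fun a x => E1 q a x - V1 q a x) (V2 q) (cV1 q)
        (fun a => (cE1 q a).sub (cV1 q a)) (cV2 q)]
      congr 1
      funext a x
      ring
    show Bd X (ρ q) n q (E1 q) (E2 q) = _
    rw [c1, c2]
  have b2 : ‖∑ q ∈ QQ, dsc (FFL ww1 gg1 0 ww2 gg2 (-1) (wX D' X) X n) X q (ρ q)‖ ≤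
      ∑ q ∈ QQ, ‖Bd X (ρ q) n q (V1 q) (V2 q)‖ +
        ∑ q ∈ QQ, ‖Bd X (ρ q) n q (fun a x => E1 q a x - V1 q a x) (V2 q)‖ +
        ∑ q ∈ QQ, ‖Bd X (ρ q) n q (fun a x => E2 q a x - V2 q a x) (E1 q)‖ := by
    refine (norm_sum_le _ _).trans ?_
    rw [← sum_add_distrib, ← sum_add_distrib]
    refine sum_le_sum fun q hq => ?_
    rw [b1 q hq]
    exact norm_add₃_le
  have b3 := Bd_cauchy X ρ QQ hρ n (fun q a x => E1 q a x - V1 q a x) V2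
    (fun q a => (cE1 q a).sub (cV1 q a)) cV2
  have b4 := Bd_cauchy X ρ QQ hρ n (fun q a x => E2 q a x - V2 q a x) E1
    (fun q a => (cE2 q a).sub (cV2 q a)) cE1
  have hLA : 0 < L ^ (2 * A + 8) := by positivity
  have hr : (X : ℝ) / L ^ (2 * A + 8) ≤ X := by
    rw [div_le_iff₀ hLA]
    have : 1 ≤ L ^ (2 * A + 8) := one_le_pow₀ (by linarith)
    nlinarith
  have s1 : Real.sqrt (N2d X ρ QQ (fun q a x => E1 q a x - V1 q a x)) *
      Real.sqrt (N2d X ρ QQ V2) ≤ X / L ^ A / 2 := by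
    rw [← Real.sqrt_mul (N2d_nonneg X ρ QQ hρ _)]
    refine Real.sqrt_le_iff.2 ⟨by positivity, ?_⟩
    have h1 : N2d X ρ QQ (fun q a x => E1 q a x - V1 q a x) * N2d X ρ QQ V2 ≤
        (6 * (X / L ^ (2 * A + 8))) * ((4 * (K0 : ℝ) ^ 2 + 2) * X) := by
      refine mul_le_mul n4 ?_ (N2d_nonneg X ρ QQ hρ _) (by positivity)
      linarith
    refine h1.trans ?_
    have h2 : 24 * (4 * (K0 : ℝ) ^ 2 + 2) ≤ L ^ 8 := by
      have h3 : (8 * ((K0 : ℝ) + 1)) ^ 2 ≤ L ^ 2 := pow_le_pow_left₀ (by positivity) hL 2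
      have h4 : L ^ 2 ≤ L ^ 8 := pow_le_pow_right₀ (by linarith) (by norm_num)
      have h5 : (8 : ℝ) ^ 2 ≤ L ^ 2 := pow_le_pow_left₀ (by norm_num) (by linarith) 2
      have h6 : L ^ 2 * L ^ 2 ≤ L ^ 8 := by
        rw [← pow_add]
        exact pow_le_pow_right₀ (by linarith) (by norm_num)
      nlinarith
    have h7 : L ^ (2 * A + 8) = (L ^ A) ^ 2 * L ^ 8 := by
      rw [← pow_mul, ← pow_add]
      congr 1
      ring
    rw [h7]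
    have h8 : (X : ℝ) / L ^ A / 2 = X / (2 * L ^ A) := by
      rw [div_div, mul_comm]
    rw [h8, div_pow, mul_pow, le_div_iff₀ (by positivity)]
    have h9 : 6 * ((X : ℝ) / ((L ^ A) ^ 2 * L ^ 8)) * ((4 * (K0 : ℝ) ^ 2 + 2) * X) *
        (2 ^ 2 * (L ^ A) ^ 2) = (24 * (4 * (K0 : ℝ) ^ 2 + 2) / L ^ 8) * (X : ℝ) ^ 2 := by
      field_simp
      ring
    rw [h9]
    have h10 : 24 * (4 * (K0 : ℝ) ^ 2 + 2) / L ^ 8 ≤ 1 := by
      rw [div_le_one (by positivity)]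
      exact h2
    have h11 : 0 ≤ (X : ℝ) ^ 2 := by positivity
    nlinarith
  have s2 : Real.sqrt (N2d X ρ QQ (fun q a x => E2 q a x - V2 q a x)) *
      Real.sqrt (N2d X ρ QQ E1) ≤ X / L ^ A / 2 := by
    rw [← Real.sqrt_mul (N2d_nonneg X ρ QQ hρ _)]
    refine Real.sqrt_le_iff.2 ⟨by positivity, ?_⟩
    have h1 : N2d X ρ QQ (fun q a x => E2 q a x - V2 q a x) * N2d X ρ QQ E1 ≤
        (X / L ^ (2 * A + 4)) * (2 * ((K0 : ℝ) ^ 2 * X)) :=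
      mul_le_mul n2 n1 (N2d_nonneg X ρ QQ hρ _) (by positivity)
    refine h1.trans ?_
    have h2 : 8 * (K0 : ℝ) ^ 2 ≤ L ^ 4 := by
      have h3 : (8 * ((K0 : ℝ) + 1)) ^ 2 ≤ L ^ 2 := pow_le_pow_left₀ (by positivity) hL 2
      have h4 : L ^ 2 ≤ L ^ 4 := pow_le_pow_right₀ (by linarith) (by norm_num)
      nlinarith
    have h7 : L ^ (2 * A + 4) = (L ^ A) ^ 2 * L ^ 4 := by
      rw [← pow_mul, ← pow_add]
      congr 1
      ring
    rw [h7]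
    have h8 : (X : ℝ) / L ^ A / 2 = X / (2 * L ^ A) := by
      rw [div_div, mul_comm]
    rw [h8, div_pow, mul_pow, le_div_iff₀ (by positivity)]
    have h9 : (X : ℝ) / ((L ^ A) ^ 2 * L ^ 4) * (2 * ((K0 : ℝ) ^ 2 * X)) *
        (2 ^ 2 * (L ^ A) ^ 2) = (8 * (K0 : ℝ) ^ 2 / L ^ 4) * (X : ℝ) ^ 2 := by
      field_simp
      ring
    rw [h9]
    have h10 : 8 * (K0 : ℝ) ^ 2 / L ^ 4 ≤ 1 := by
      rw [div_le_one (by positivity)]
      exact h2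
    have h11 : 0 ≤ (X : ℝ) ^ 2 := by positivity
    nlinarith
  refine b2.trans ?_
  have e3 : ∑ q ∈ QQ, ‖Bd X (ρ q) n q (V1 q) (V2 q)‖ =
      ∑ q ∈ QQ, ‖∑ a ∈ rr q, ∫ x in (-(ρ q / X))..(ρ q / X),
        VQf X (aa1 X) q (allC q) a x * VQf X (aa2 X) q (YQf X T Z A' (aa2 X) q) a x *
          ee (-((n : ℝ) * ((a : ℝ) / q + x)))‖ := rfl
  rw [e3]
  linarith

/-- the form used by the assembly -/
theorem arcY (hA : ArcBY) : ∃ B : ℕ, ∀ (K0 C1 C2 : ℕ) (th e τ : ℝ), Adm th e τ → 0 < τ →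
    ∀ ww1 gg1 aa1 ww2 gg2 aa2 : ℕ → ℕ → ℝ, W1 K0 C1 ww1 gg1 → Cls K0 B ww1 aa1 →
    W1 K0 C1 ww2 gg2 → DecJ B C2 th e τ ww2 → MajI ww2 gg2 → Cls K0 B ww2 aa2 →
    ArcY th e ww1 gg1 ww2 gg2 aa1 aa2 := by
  obtain ⟨B, hB⟩ := hA 3
  refine ⟨B, fun K0 C1 C2 th e τ hp hτ ww1 gg1 aa1 ww2 gg2 aa2 hw1 hc1 hw2 hd2 hm2 hc2 K1 K2 K' _ =>
    ?_⟩
  obtain ⟨A', D0, h⟩ := hB K0 C1 C2 th e τ hp hτ ww1 gg1 aa1 ww2 gg2 aa2 hw1 hc1 hw2 hd2 hm2 hc2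
    K1 K2 K'
  refine ⟨A', D0, fun D' hD' => ?_⟩
  obtain ⟨X0, hX0⟩ := h D' hD'
  exact ⟨X0, fun X hX n h1 h2 QQ N ρ h3 h4 h5 h6 h7 =>
    hX0 X hX n QQ N ρ ⟨h1, h2, h3, h4, h5, h6, h7⟩⟩

end Pool.MP_dd84fd_nt.BY
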