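import Pool.Agent.Lib.MP_dd84fd_nt.BY.ArDefs
import Pool.Agent.Lib.MP_dd84fd_nt.BX.Ar1
import Pool.Agent.Lib.MP_dd84fd_nt.DX.MnE
import Pool.Agent.Lib.MP_dd84fd_nt.DX.ArF

/-!
# BY-ArMM: the mean of `W_-` and the model, from `DX.mn_e` and `DX.ar_f` (helper98)
-/

set_option autoImplicit false

namespace Pool.MP_dd84fd_nt.BY

open Finset Pool.MP_67663b_nt.Odd Pool.MP_dd84fd_nt.En Pool.MP_dd84fd_nt.E2 Pool.MP_dd84fd_nt.LS
open Pool.MP_dd84fd_nt.GX Pool.MP_dd84fd_nt.HX Pool.MP_dd84fd_nt.IX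
open Pool.MP_dd84fd_nt.PL (rr tp)
open Pool.MP_dd84fd_nt.JX (Adm)
open Pool.MP_dd84fd_nt.BX (N2d Mn Mn_cont DiscH N2d_rad rr_card ar_ee_cont ar_tp_cont)
open Pool.MP_dd84fd_nt.DX (Dsk mnM npM mnR mn_e ar_f)

/-- `DiscH` implies `Dsk` -/
theorem dsk_of_disc {e th : ℝ} {K1 K2 X n : ℕ} {QQ : Finset ℕ} {N : ℝ} {ρ : ℕ → ℝ}
    (hd : DiscH e th K1 K2 X n QQ N ρ) (hne : QQ.Nonempty) : Dsk th e X n K1 QQ N := by
  obtain ⟨d1, d2, d3, d4, d5, d6, d7⟩ := hd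
  obtain ⟨q0, hq0⟩ := hne
  refine ⟨d1, d2, d3, d5, d6, ?_, d7⟩
  have h1 := d5 q0 hq0 q0 hq0
  rw [Nat.lcm_self] at h1
  have h2 : (1 : ℝ) ≤ q0 := by exact_mod_cast (d3 q0 hq0).1
  linarith

/-- the mass of the means -/
theorem n2d_mn (X : ℕ) (ρ : ℕ → ℝ) (T : ℝ) (QQ : Finset ℕ) (hρ : ∀ q ∈ QQ, 0 ≤ ρ q ∧ ρ q ≤ T)
    (F : ℝ → ℂ) (hF : Continuous F) : N2d X ρ QQ (fun q _ x => Mn F q x) ≤ mnM X T QQ F := by
  refine (N2d_rad X ρ (fun _ => T) QQ (fun q hq => (hρ q hq).1) (fun q hq => (hρ q hq).2) _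
    (fun q _ => Mn_cont F hF q)).trans (le_of_eq ?_)
  unfold N2d mnM
  refine sum_congr rfl fun q _ => ?_
  rw [sum_const, nsmul_eq_mul, rr_card]
  rfl

/-- the mass of the part orthogonal to the constants -/
theorem n2d_np (X : ℕ) (ρ : ℕ → ℝ) (T : ℝ) (QQ : Finset ℕ) (hρ : ∀ q ∈ QQ, 0 ≤ ρ q ∧ ρ q ≤ T)
    (F : ℝ → ℂ) (hF : Continuous F) :
    N2d X ρ QQ (fun q a x => F ((a : ℝ) / q + x) - Mn F q x) ≤ npM X T QQ F := by
  refine (N2d_rad X ρ (fun _ => T) QQ (fun q hq => (hρ q hq).1) (fun q hq => (hρ q hq).2) _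
    (fun q a => ?_)).trans (le_of_eq ?_)
  · have h := Mn_cont F hF q
    fun_prop
  · unfold N2d npM
    rfl

/-- (A2) -/
theorem meanY : MeanY := by
  intro K0 C1 th e τ hA ww gg hW hM B K1 K2
  obtain ⟨D0, h⟩ := mn_e B K0 C1 K1 K2 ww gg hW hM
  refine ⟨D0, fun D' hD' => ?_⟩
  obtain ⟨X0, hX0⟩ := h D' hD' th e τ hA
  refine ⟨max X0 1, fun X hX n QQ N ρ hd => ?_⟩
  rcases QQ.eq_empty_or_nonempty with hQ | hne
  · unfold N2d
    rw [hQ, sum_empty]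
    have : 0 ≤ Real.log (X : ℝ) := Real.log_natCast_nonneg X
    positivity
  have hc : Continuous (WI ww gg (-1) (wX D' X) X) := by
    have h := ar_ee_cont
    unfold WI
    fun_prop
  exact (n2d_mn X ρ _ QQ hd.2.2.2.1 _ hc).trans
    (hX0 X ((le_max_left _ _).trans hX) n QQ N (dsk_of_disc hd hne))

/-- (A3) -/
theorem modY : ModY := by
  intro K0 C1 th e τ hA ww gg hW B K1 K2
  refine ⟨1, fun D' hD' => ?_⟩
  obtain ⟨X0, hX0⟩ := ar_f B K0 C1 K1 K2 th e τ hA ww gg hW D' hD'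
  refine ⟨max X0 1, fun X hX n QQ N ρ hd => ?_⟩
  rcases QQ.eq_empty_or_nonempty with hQ | hne
  · unfold N2d
    rw [hQ, sum_empty]
    have : 0 ≤ Real.log (X : ℝ) := Real.log_natCast_nonneg X
    positivity
  have hc : Continuous (EXf X (fI gg X (wX D' X))) := by
    have h := ar_ee_cont
    unfold EXf
    fun_prop
  exact (n2d_np X ρ _ QQ hd.2.2.2.1 _ hc).trans
    (hX0 X ((le_max_left _ _).trans hX) n QQ N (dsk_of_disc hd hne))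

end Pool.MP_dd84fd_nt.BY
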