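import Pool.Agent.Lib.MP_dd84fd_nt.BY.ArB
import Pool.Agent.Lib.MP_dd84fd_nt.En.Tot

/-!
# BY-ArS: the characters of small conductor (helper28)

`smlY : ModY → SmlY`.  For a primitive `ψ` modulo `r ≤ L^K'`, `r > 1`:
`τ(ψ̄) S_ψ(x) = ∑_a ψ̄(a) (W_- + F)(a/r + x)`; `W_-` is small pointwise (`MajI`), `F` is close to its mean in
`L²` (`ModY` for `QQ = {r}`), the mean cancels.  A character modulo `q` differs from the primitive
character only at the numbers which are not coprime to `q`.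
-/

set_option autoImplicit false

namespace Pool.MP_dd84fd_nt.BY

open Finset Pool.MP_67663b_nt.Odd Pool.MP_dd84fd_nt.En Pool.MP_dd84fd_nt.E2 Pool.MP_dd84fd_nt.LS
open Pool.MP_dd84fd_nt.GX Pool.MP_dd84fd_nt.HX Pool.MP_dd84fd_nt.IX
open Pool.MP_dd84fd_nt.PL (rr tp Fam)
open Pool.MP_dd84fd_nt.JX (Adm)
open Pool.MP_dd84fd_nt.LXP (tq cS)
open Pool.MP_dd84fd_nt.BX (PC pv prc N2d Mn Mn_cont DiscH ar_ee_norm ar_ee_add ar_ee_cont ar_le N2d_sup
  rr_card N2d_nonneg)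

/-! ### A character and its primitive character -/

private theorem as_pv_eq (q : ℕ) (χ : DirichletCharacter ℂ q) (n : ℕ) (h : Nat.Coprime n q) :
    pv ⟨q, χ⟩ n = pv (prc χ) n := by
  have hc : IsCoprime (n : ℤ) (q : ℤ) := Nat.isCoprime_iff_coprime.mpr h
  have e1 := DirichletCharacter.changeLevel_eq_cast_of_dvd' χ.primitiveCharacter
    χ.conductor_dvd_level hc
  rw [DirichletCharacter.changeLevel_primitiveCharacter, Int.cast_natCast, Int.cast_natCast] at e1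
  exact e1

private theorem as_pv_zero (q : ℕ) (χ : DirichletCharacter ℂ q) (n : ℕ) (h : ¬ Nat.Coprime n q) :
    pv ⟨q, χ⟩ n = 0 := by
  have hu : ¬ IsUnit ((n : ℕ) : ZMod q) := fun hh => h ((ZMod.isUnit_iff_coprime n q).1 hh)
  exact MulChar.map_nonunit _ hu

theorem sxf_prc (X q K0 : ℕ) (hX : 2 ≤ X) (hq : 1 ≤ q) (hqX : q ≤ X) (w : ℕ → ℝ)
    (hw : ∀ n, |w n| ≤ K0 * rg (zI X) n) (χ : DirichletCharacter ℂ q) (x : ℝ) :
    ‖SXf X w ⟨q, χ⟩ x - SXf X w (prc χ) x‖ ≤ 10 * K0 * (X : ℝ) ^ (9 / 10 : ℝ) := by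
  classical
  have hXr : (2 : ℝ) ≤ X := by exact_mod_cast hX
  have hX0 : (0 : ℝ) < X := by linarith
  obtain ⟨z, hz⟩ : ∃ z : ℕ, z = zI X := ⟨_, rfl⟩
  have hzX : (X : ℝ) ^ (1 / 10 : ℝ) ≤ z := by rw [hz]; exact Nat.le_ceil _
  have hz0 : (0 : ℝ) < z := lt_of_lt_of_le (by positivity) hzX
  have hz1 : 1 ≤ z := by
    have : 0 < z := by exact_mod_cast hz0
    omega
  unfold SXf
  rw [← sum_sub_distrib]
  refine (norm_sum_le _ _).trans ?_
  have h1 : ∀ n ∈ Icc 1 X, ‖((w n : ℝ) : ℂ) * pv ⟨q, χ⟩ n * ee ((n : ℝ) * x) -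
      ((w n : ℝ) : ℂ) * pv (prc χ) n * ee ((n : ℝ) * x)‖ ≤
      if ¬ Nat.Coprime n q ∧ Rgh z n then (K0 : ℝ) else 0 := by
    intro n _
    by_cases hc : Nat.Coprime n q
    · rw [as_pv_eq q χ n hc, sub_self, norm_zero, if_neg (by tauto)]
    · rw [as_pv_zero q χ n hc, mul_zero, zero_mul, zero_sub, norm_neg, norm_mul, norm_mul,
        ar_ee_norm, mul_one, Complex.norm_real, Real.norm_eq_abs]
      have h2 := hw n
      have h3 : ‖pv (prc χ) n‖ ≤ 1 := BX.pv_norm_le _ _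
      unfold rg at h2
      rw [← hz] at h2
      by_cases hr : Rgh z n
      · rw [if_pos hr, mul_one] at h2
        rw [if_pos ⟨hc, hr⟩]
        calc |w n| * ‖pv (prc χ) n‖ ≤ K0 * 1 := mul_le_mul h2 h3 (norm_nonneg _) (Nat.cast_nonneg _)
          _ = K0 := mul_one _
      · rw [if_neg hr, mul_zero] at h2
        rw [if_neg (by tauto), abs_nonpos_iff.1 h2, abs_zero, zero_mul]
  refine (sum_le_sum h1).trans ?_
  rw [← sum_filter, sum_const, nsmul_eq_mul]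
  have h2 := nc_count X q z hz1 hq
  have h3 : ((q.primeFactors.filter (fun p => z ≤ p)).card : ℝ) ≤ 10 := by
    exact_mod_cast nc_pf X q z hX hq hqX hzX
  have h4 : (X : ℝ) / z ≤ (X : ℝ) ^ (9 / 10 : ℝ) := by
    rw [div_le_iff₀ hz0]
    calc (X : ℝ) = (X : ℝ) ^ (9 / 10 : ℝ) * (X : ℝ) ^ (1 / 10 : ℝ) := by
          rw [← Real.rpow_add hX0]; norm_num
      _ ≤ _ := mul_le_mul_of_nonneg_left hzX (by positivity)
  calc ((((Icc 1 X).filter (fun k => ¬ Nat.Coprime k q ∧ Rgh z k)).card : ℕ) : ℝ) * K0 ≤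
        (((q.primeFactors.filter (fun p => z ≤ p)).card : ℝ) * (X / z)) * K0 :=
        mul_le_mul_of_nonneg_right h2 (Nat.cast_nonneg _)
    _ ≤ (10 * (X : ℝ) ^ (9 / 10 : ℝ)) * K0 := by
        apply mul_le_mul_of_nonneg_right _ (Nat.cast_nonneg _)
        exact mul_le_mul h3 h4 (by positivity) (by norm_num)
    _ = _ := by ring

/-! ### Primitive characters -/

private theorem as_sum (q : ℕ) [NeZero q] (f : ℕ → ℂ) :
    ∑ y ∈ range q, f y = ∑ y : ZMod q, f y.val := by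
  symm
  refine Finset.sum_nbij' (fun y => y.val) (fun y => (y : ZMod q)) ?_ ?_ ?_ ?_ ?_
  · intro y _
    exact Finset.mem_range.2 (ZMod.val_lt y)
  · intro y _
    exact Finset.mem_univ _
  · intro y _
    exact ZMod.natCast_zmod_val y
  · intro y hy
    exact ZMod.val_natCast_of_lt (Finset.mem_range.1 hy)
  · intro y _
    rfl

private theorem as_rr (q : ℕ) [NeZero q] (χ : DirichletCharacter ℂ q) (g : ℕ → ℂ) :
    ∑ a ∈ rr q, χ (a : ZMod q) * g a = ∑ y : ZMod q, χ y * g y.val := by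
  have h1 : ∑ a ∈ rr q, χ (a : ZMod q) * g a = ∑ a ∈ range q, χ (a : ZMod q) * g a := by
    unfold rr
    refine sum_subset (filter_subset _ _) ?_
    intro y hy hy'
    have h2 : ¬ Nat.Coprime y q := fun h => hy' (mem_filter.2 ⟨hy, h⟩)
    have h3 : χ ((y : ℕ) : ZMod q) = 0 := by
      apply MulChar.map_nonunit
      rw [ZMod.isUnit_iff_coprime]
      exact h2
    rw [h3, zero_mul]
  rw [h1, as_sum q (fun a => χ (a : ZMod q) * g a)]
  refine sum_congr rfl fun y _ => ?_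
  simp only [ZMod.natCast_zmod_val]

private theorem as_inv_prim (r : ℕ) (ψ : DirichletCharacter ℂ r) (h : ψ.IsPrimitive) :
    (ψ⁻¹).IsPrimitive := by
  rw [DirichletCharacter.isPrimitive_def, DirichletCharacter.conductor_inv]
  exact h

/-- the Gauss sum identity -/
theorem sxf_gauss (X : ℕ) (w : ℕ → ℝ) (r : ℕ) [NeZero r] (ψ : DirichletCharacter ℂ r)
    (hψ : ψ.IsPrimitive) (x : ℝ) :
    tq r ψ⁻¹ * SXf X w ⟨r, ψ⟩ x =
      ∑ a ∈ rr r, (ψ⁻¹ : DirichletCharacter ℂ r) (a : ZMod r) * EXf X w ((a : ℝ) / r + x) := by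
  have h1 : ∀ n : ℕ, ∑ a ∈ rr r, (ψ⁻¹ : DirichletCharacter ℂ r) (a : ZMod r) *
      ee ((n : ℝ) * ((a : ℝ) / r)) = ψ (n : ZMod r) * tq r ψ⁻¹ := by
    intro n
    rw [as_rr r ψ⁻¹ (fun a => ee ((n : ℝ) * ((a : ℝ) / r))),
      (Pool.MP_dd84fd_nt.LXP.gs_prim r ψ⁻¹ (as_inv_prim r ψ hψ)).2 n, conj_chi, inv_inv]
  unfold SXf EXf
  simp only [mul_sum]
  rw [sum_comm]
  refine sum_congr rfl fun n _ => ?_
  have h2 : ∑ a ∈ rr r, (ψ⁻¹ : DirichletCharacter ℂ r) (a : ZMod r) *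
      (((w n : ℝ) : ℂ) * ee ((n : ℝ) * ((a : ℝ) / r + x))) =
      ((w n : ℝ) : ℂ) * ee ((n : ℝ) * x) * ∑ a ∈ rr r, (ψ⁻¹ : DirichletCharacter ℂ r) (a : ZMod r) *
        ee ((n : ℝ) * ((a : ℝ) / r)) := by
    rw [mul_sum]
    refine sum_congr rfl fun a _ => ?_
    rw [mul_add, ar_ee_add]
    ring
  rw [h2, h1]
  show tq r ψ⁻¹ * (((w n : ℝ) : ℂ) * ψ (n : ZMod r) * ee ((n : ℝ) * x)) = _
  ring

/-- the pointwise inequality -/
theorem sxf_pt (X : ℕ) (ww gg : ℕ → ℕ → ℝ) (w : ℕ) (r : ℕ) [NeZero r] (ψ : DirichletCharacter ℂ r)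
    (hψ : ψ.IsPrimitive) (h1 : ψ ≠ 1) (x : ℝ) :
    ‖SXf X (ww X) ⟨r, ψ⟩ x‖ ^ 2 ≤ ∑ a ∈ rr r, (2 * ‖WI ww gg (-1) w X ((a : ℝ) / r + x)‖ ^ 2 +
      2 * ‖EXf X (fI gg X w) ((a : ℝ) / r + x) - Mn (EXf X (fI gg X w)) r x‖ ^ 2) := by
  have hr0 : (0 : ℝ) < r := by exact_mod_cast Nat.pos_of_ne_zero (NeZero.ne r)
  have hψ1 : (ψ⁻¹ : DirichletCharacter ℂ r) ≠ 1 := fun h => h1 (inv_eq_one.1 h)
  have hsum0 : ∑ a ∈ rr r, (ψ⁻¹ : DirichletCharacter ℂ r) (a : ZMod r) = 0 := by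
    have h2 := as_rr r ψ⁻¹ (fun _ => 1)
    simp only [mul_one] at h2
    rw [h2]
    exact MulChar.sum_eq_zero_of_ne_one hψ1
  have hkey : tq r ψ⁻¹ * SXf X (ww X) ⟨r, ψ⟩ x =
      ∑ a ∈ rr r, (ψ⁻¹ : DirichletCharacter ℂ r) (a : ZMod r) *
        (WI ww gg (-1) w X ((a : ℝ) / r + x) +
          (EXf X (fI gg X w) ((a : ℝ) / r + x) - Mn (EXf X (fI gg X w)) r x)) := by
    rw [sxf_gauss X (ww X) r ψ hψ x]
    have h3 : ∑ a ∈ rr r, (ψ⁻¹ : DirichletCharacter ℂ r) (a : ZMod r) * Mn (EXf X (fI gg X w)) r x =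
        0 := by
      rw [← sum_mul, hsum0, zero_mul]
    have h4 : ∀ a ∈ rr r, (ψ⁻¹ : DirichletCharacter ℂ r) (a : ZMod r) *
        (WI ww gg (-1) w X ((a : ℝ) / r + x) +
          (EXf X (fI gg X w) ((a : ℝ) / r + x) - Mn (EXf X (fI gg X w)) r x)) =
        (ψ⁻¹ : DirichletCharacter ℂ r) (a : ZMod r) * EXf X (ww X) ((a : ℝ) / r + x) -
        (ψ⁻¹ : DirichletCharacter ℂ r) (a : ZMod r) * Mn (EXf X (fI gg X w)) r x := by
      intro a _
      rw [WI_EXf]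
      push_cast
      ring
    rw [sum_congr rfl h4, sum_sub_distrib, h3, sub_zero]
  have hτ := (Pool.MP_dd84fd_nt.LXP.gs_prim r ψ⁻¹ (as_inv_prim r ψ hψ)).1
  have h5 : (r : ℝ) * ‖SXf X (ww X) ⟨r, ψ⟩ x‖ ^ 2 ≤
      (r : ℝ) * ∑ a ∈ rr r, (2 * ‖WI ww gg (-1) w X ((a : ℝ) / r + x)‖ ^ 2 +
      2 * ‖EXf X (fI gg X w) ((a : ℝ) / r + x) - Mn (EXf X (fI gg X w)) r x‖ ^ 2) := by
    rw [← hτ, ← mul_pow, ← norm_mul, hkey]
    have h6 : ‖∑ a ∈ rr r, (ψ⁻¹ : DirichletCharacter ℂ r) (a : ZMod r) *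
        (WI ww gg (-1) w X ((a : ℝ) / r + x) +
          (EXf X (fI gg X w) ((a : ℝ) / r + x) - Mn (EXf X (fI gg X w)) r x))‖ ≤
        ∑ a ∈ rr r, ‖WI ww gg (-1) w X ((a : ℝ) / r + x) +
          (EXf X (fI gg X w) ((a : ℝ) / r + x) - Mn (EXf X (fI gg X w)) r x)‖ := by
      refine (norm_sum_le _ _).trans (sum_le_sum fun a _ => ?_)
      rw [norm_mul]
      have := DirichletCharacter.norm_le_one ψ⁻¹ (a : ZMod r)
      calc _ ≤ 1 * ‖WI ww gg (-1) w X ((a : ℝ) / r + x) +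
          (EXf X (fI gg X w) ((a : ℝ) / r + x) - Mn (EXf X (fI gg X w)) r x)‖ :=
            mul_le_mul_of_nonneg_right this (norm_nonneg _)
        _ = _ := one_mul _
    refine (pow_le_pow_left₀ (norm_nonneg _) h6 2).trans ?_
    have h7 : (∑ a ∈ rr r, ‖WI ww gg (-1) w X ((a : ℝ) / r + x) +
          (EXf X (fI gg X w) ((a : ℝ) / r + x) - Mn (EXf X (fI gg X w)) r x)‖) ^ 2 ≤
        (rr r).card * ∑ a ∈ rr r, ‖WI ww gg (-1) w X ((a : ℝ) / r + x) +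
          (EXf X (fI gg X w) ((a : ℝ) / r + x) - Mn (EXf X (fI gg X w)) r x)‖ ^ 2 :=
      sq_sum_le_card_mul_sum_sq
    refine h7.trans ?_
    have h8 : (((rr r).card : ℕ) : ℝ) ≤ r := by
      rw [rr_card]
      exact_mod_cast Nat.totient_le r
    rw [hτ]
    refine mul_le_mul h8 (sum_le_sum fun a _ => ?_) (sum_nonneg fun a _ => by positivity) hr0.le
    refine (pow_le_pow_left₀ (norm_nonneg _) (norm_add_le _ _) 2).trans ?_
    nlinarith [sq_nonneg (‖WI ww gg (-1) w X ((a : ℝ) / r + x)‖ -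
      ‖EXf X (fI gg X w) ((a : ℝ) / r + x) - Mn (EXf X (fI gg X w)) r x‖)]
  exact le_of_mul_le_mul_left h5 hr0

/-- the mean square of a primitive character -/
theorem sxf_int (X : ℕ) (ww gg : ℕ → ℕ → ℝ) (w : ℕ) (T : ℝ) (hT : 0 ≤ T) (r : ℕ) [NeZero r]
    (ψ : DirichletCharacter ℂ r) (hψ : ψ.IsPrimitive) (h1 : ψ ≠ 1) :
    ∫ x in (-(T / X))..(T / X), ‖SXf X (ww X) ⟨r, ψ⟩ x‖ ^ 2 ≤
      2 * N2d X (fun _ => T) {r} (fun q a x => WI ww gg (-1) w X ((a : ℝ) / q + x)) +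
      2 * N2d X (fun _ => T) {r} (fun q a x => EXf X (fI gg X w) ((a : ℝ) / q + x) -
        Mn (EXf X (fI gg X w)) q x) := by
  have hE := EXf_cont X (fI gg X w)
  have hM := Mn_cont _ hE r
  have hW : Continuous (WI ww gg (-1) w X) := by
    have h := ar_ee_cont
    unfold WI
    fun_prop
  have hS := SXf_cont X (ww X) ⟨r, ψ⟩
  have h2 : ∫ x in (-(T / X))..(T / X), ‖SXf X (ww X) ⟨r, ψ⟩ x‖ ^ 2 ≤
      ∫ x in (-(T / X))..(T / X), ∑ a ∈ rr r, (2 * ‖WI ww gg (-1) w X ((a : ℝ) / r + x)‖ ^ 2 +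
      2 * ‖EXf X (fI gg X w) ((a : ℝ) / r + x) - Mn (EXf X (fI gg X w)) r x‖ ^ 2) := by
    refine intervalIntegral.integral_mono_on (ar_le X hT)
      (by apply Continuous.intervalIntegrable; fun_prop)
      (by apply Continuous.intervalIntegrable; fun_prop) fun x _ => ?_
    exact sxf_pt X ww gg w r ψ hψ h1 x
  refine h2.trans (le_of_eq ?_)
  rw [intervalIntegral.integral_finsetSum
    (fun a _ => by apply Continuous.intervalIntegrable; fun_prop)]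
  unfold N2d
  rw [sum_singleton, sum_singleton, mul_sum, mul_sum, ← sum_add_distrib]
  refine sum_congr rfl fun a _ => ?_
  rw [intervalIntegral.integral_add (by apply Continuous.intervalIntegrable; fun_prop)
    (by apply Continuous.intervalIntegrable; fun_prop), intervalIntegral.integral_const_mul,
    intervalIntegral.integral_const_mul]

/-! ### Counting -/

open Classical in
theorem mem_ys (Z : ℝ) (q : ℕ) (χ : DirichletCharacter ℂ q) :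
    χ ∈ YS Z q ↔ χ ∈ allC q ∧ χ ≠ 1 ∧ (χ.conductor : ℝ) ≤ Z := by
  unfold YS
  exact Finset.mem_filter

theorem ys_card (q R : ℕ) (hq : 1 ≤ q) (Z : ℝ) (hZ : Z < R + 1) : (YS Z q).card ≤ R ^ 2 := by
  classical
  have : NeZero q := ⟨by omega⟩
  obtain ⟨A, hA⟩ : ∃ A : ∀ _ : ℕ, Finset (DirichletCharacter ℂ q), A = fun h =>
      if hh : 1 ≤ h ∧ h ∣ q then
        (haveI : NeZero h := ⟨by omega⟩
         (univ : Finset (DirichletCharacter ℂ h)).image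
          (fun ξ => DirichletCharacter.changeLevel hh.2 ξ))
      else ∅ := ⟨_, rfl⟩
  have hcard : ∀ h ∈ Icc 1 R, (A h).card ≤ R := by
    intro h hh
    have hh' := Finset.mem_Icc.1 hh
    have : NeZero h := ⟨by omega⟩
    rw [hA]
    simp only
    split_ifs with hc
    · refine Finset.card_image_le.trans ?_
      rw [Finset.card_univ]
      have h3 : Fintype.card (DirichletCharacter ℂ h) = Nat.totient h := by
        rw [← Nat.card_eq_fintype_card]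
        exact DirichletCharacter.card_eq_totient_of_hasEnoughRootsOfUnity ℂ h
      exact (le_of_eq (by convert h3)).trans ((Nat.totient_le h).trans hh'.2)
    · rw [Finset.card_empty]
      exact Nat.zero_le _
  have hsub : YS Z q ⊆ (Icc 1 R).biUnion A := by
    intro χ hχ
    have hχ := (mem_ys Z q χ).1 hχ
    have hc0 : 0 < χ.conductor := Nat.pos_of_ne_zero (DirichletCharacter.conductor_ne_zero χ)
    have hcR : χ.conductor ≤ R := by
      have h1 : (χ.conductor : ℝ) < ((R + 1 : ℕ) : ℝ) := by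
        push_cast
        linarith [hχ.2.2]
      have h2 : χ.conductor < R + 1 := by exact_mod_cast h1
      omega
    rw [Finset.mem_biUnion]
    refine ⟨χ.conductor, Finset.mem_Icc.2 ⟨hc0, hcR⟩, ?_⟩
    rw [hA]
    simp only
    rw [dif_pos ⟨hc0, χ.conductor_dvd_level⟩, Finset.mem_image]
    exact ⟨χ.primitiveCharacter, Finset.mem_univ _, DirichletCharacter.changeLevel_primitiveCharacter χ⟩
  calc (YS Z q).card ≤ ((Icc 1 R).biUnion A).card := Finset.card_le_card hsub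
    _ ≤ ∑ h ∈ Icc 1 R, (A h).card := Finset.card_biUnion_le
    _ ≤ ∑ _h ∈ Icc 1 R, R := Finset.sum_le_sum hcard
    _ = R ^ 2 := by
        rw [Finset.sum_const, Nat.card_Icc, smul_eq_mul]
        simp only [Nat.add_sub_cancel]
        ring

theorem as_tot (X : ℕ) (hL : 1 ≤ Real.log X) (QQ : Finset ℕ) (hQ : ∀ q ∈ QQ, 1 ≤ q ∧ q ≤ X) :
    ∑ q ∈ QQ, 1 / (Nat.totient q : ℝ) ≤ 6 * (Real.log X) ^ 2 := by
  have h1 : ∀ q ∈ QQ, 1 / (Nat.totient q : ℝ) ≤ 3 * Real.log X * (1 / (q : ℝ)) := by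
    intro q hq
    obtain ⟨q1, q2⟩ := hQ q hq
    have hq0 : (0 : ℝ) < q := by exact_mod_cast q1
    have hφ : (0 : ℝ) < Nat.totient q := by exact_mod_cast Nat.totient_pos.2 q1
    have h2 := totient_ge q q1
    have h3 : Real.logb 2 q ≤ 2 * Real.log X := by
      unfold Real.logb
      have h4 : Real.log q ≤ Real.log X := Real.log_le_log hq0 (by exact_mod_cast q2)
      have h5 : (1 : ℝ) / 2 ≤ Real.log 2 := by linarith [Real.log_two_gt_d9]
      have h6 : 0 ≤ Real.log q := Real.log_natCast_nonneg q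
      rw [div_le_iff₀ (by linarith)]
      nlinarith
    rw [mul_one_div, div_le_div_iff₀ hφ hq0, one_mul]
    calc (q : ℝ) ≤ (Nat.totient q : ℝ) * (1 + Real.logb 2 q) := h2
      _ ≤ (Nat.totient q : ℝ) * (3 * Real.log X) :=
          mul_le_mul_of_nonneg_left (by linarith) hφ.le
      _ = _ := by ring
  refine (sum_le_sum h1).trans ?_
  rw [← mul_sum]
  have h2 : ∑ q ∈ QQ, 1 / (q : ℝ) ≤ ∑ q ∈ Icc 1 X, 1 / (q : ℝ) := by
    refine sum_le_sum_of_subset_of_nonneg ?_ fun q _ _ => by positivity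
    intro q hq
    exact mem_Icc.2 (hQ q hq)
  have h3 : ∑ q ∈ Icc 1 X, 1 / (q : ℝ) ≤ 1 + Real.log X := by
    have h := harmonic_le_one_add_log X
    rw [harmonic_eq_sum_Icc] at h
    push_cast at h
    simpa only [one_div] using h
  have h4 : ∑ q ∈ QQ, 1 / (q : ℝ) ≤ 2 * Real.log X := by linarith
  calc 3 * Real.log X * ∑ q ∈ QQ, 1 / (q : ℝ) ≤ 3 * Real.log X * (2 * Real.log X) :=
        mul_le_mul_of_nonneg_left h4 (by linarith)
    _ = _ := by ring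

/-! ### The theorem -/

/-- the mean square of one character -/
private theorem as_one (X n K0 K' K2 A B'' w : ℕ) (e th : ℝ) (ww gg : ℕ → ℕ → ℝ) (L Z T : ℝ)
    (hL : L = Real.log X) (hL5 : 5 ≤ L) (hZ : Z = L ^ K') (hT : T = 4 * L ^ K2) (hX : 2 ≤ X)
    (hn1 : X < 2 * n) (hn2 : n ≤ X) (he : 0 < e) (hZX : Z ≤ (X : ℝ) ^ (1 - th + 3 / 2 * e))
    (hw : ∀ m, |ww X m| ≤ K0 * rg (zI X) m)
    (hMaj : ∀ θ : ℝ, Ht (L ^ (K' + K2 + 1)) X θ → ‖WI ww gg (-1) w X θ‖ ≤ X / L ^ A)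
    (hMod : ∀ (QQ : Finset ℕ) (N : ℝ) (ρ : ℕ → ℝ), DiscH e th K' K2 X n QQ N ρ →
      N2d X ρ QQ (fun q a x => EXf X (fI gg X w) ((a : ℝ) / q + x) -
        Mn (EXf X (fI gg X w)) q x) ≤ X / L ^ B'')
    (q : ℕ) (hq1 : 1 ≤ q) (hqX : q ≤ X) (χ : DirichletCharacter ℂ q) (hχ1 : χ ≠ 1)
    (hχZ : (χ.conductor : ℝ) ≤ Z) (t : ℝ) (ht0 : 0 ≤ t) (htT : t ≤ T) :
    ∫ x in (-(t / X))..(t / X), ‖SXf X (ww X) ⟨q, χ⟩ x‖ ^ 2 ≤
      2 * (2 * (Z * (2 * (T / X) * (X / L ^ A) ^ 2)) + 2 * (X / L ^ B'')) +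
        2 * (2 * (T / X)) * (10 * K0 * (X : ℝ) ^ (9 / 10 : ℝ)) ^ 2 := by
  have : NeZero q := ⟨by omega⟩
  have hX0 : (0 : ℝ) < X := by exact_mod_cast (by omega : 0 < X)
  have hXR : (1 : ℝ) ≤ X := by exact_mod_cast (by omega : 1 ≤ X)
  have hL0 : 0 < L := by linarith
  have hT0 : 0 ≤ T := ht0.trans htT
  obtain ⟨r, hr⟩ : ∃ r, r = χ.conductor := ⟨_, rfl⟩
  have hr0 : χ.conductor ≠ 0 := DirichletCharacter.conductor_ne_zero χ
  have : NeZero χ.conductor := ⟨hr0⟩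
  have hr1 : 1 ≤ χ.conductor := Nat.one_le_iff_ne_zero.2 hr0
  have hprim : χ.primitiveCharacter.IsPrimitive := χ.primitiveCharacter_isPrimitive
  have hne : χ.primitiveCharacter ≠ 1 := by
    intro h
    apply hχ1
    have h1 := DirichletCharacter.changeLevel_primitiveCharacter χ
    rw [h, DirichletCharacter.changeLevel_one] at h1
    exact h1.symm
  -- the primitive character
  have h1 := sxf_int X ww gg w T hT0 χ.conductor χ.primitiveCharacter hprim hne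
  have hWc : Continuous (WI ww gg (-1) w X) := by
    have h := ar_ee_cont
    unfold WI
    fun_prop
  have h2 : N2d X (fun _ => T) {χ.conductor} (fun q a x => WI ww gg (-1) w X ((a : ℝ) / q + x)) ≤
      Z * (2 * (T / X) * (X / L ^ A) ^ 2) := by
    refine (N2d_sup X (fun _ => T) {χ.conductor} (fun _ _ => hT0) _
      (fun q a => by fun_prop) (fun _ => X / L ^ A) ?_).trans ?_
    · intro q' hq' a ha x hx
      rw [mem_singleton] at hq'
      subst hq'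
      apply hMaj
      unfold rr at ha
      rw [mem_filter] at ha
      refine ⟨χ.conductor, (a : ℤ), hr1, ?_, ?_⟩
      · rw [Int.gcd_natCast_natCast]
        exact ha.2
      · have h3 : (a : ℝ) / (χ.conductor : ℝ) + x - ((a : ℤ) : ℝ) / (χ.conductor : ℝ) = x := by
          push_cast
          ring
        rw [h3]
        have h4 : (X : ℝ) * |x| ≤ T := by
          rw [le_div_iff₀ hX0] at hx
          linarith
        have h5 : 1 ≤ L ^ K2 := one_le_pow₀ (by linarith)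
        have hZ0 : 0 ≤ Z := by rw [hZ]; positivity
        calc (χ.conductor : ℝ) * (1 + X * |x|) ≤ Z * (1 + T) :=
              mul_le_mul hχZ (by linarith) (by positivity) hZ0
          _ ≤ Z * (L * L ^ K2) := by
              apply mul_le_mul_of_nonneg_left _ hZ0
              rw [hT]
              nlinarith
          _ = L ^ (K' + K2 + 1) := by
              rw [hZ]
              ring
    · rw [sum_singleton]
      refine mul_le_mul_of_nonneg_right ?_ (by positivity)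
      refine le_trans ?_ hχZ
      exact_mod_cast Nat.totient_le _
  have h3 := hMod {χ.conductor} (χ.conductor : ℝ) (fun _ => T) (by
    refine ⟨hn1, hn2, ?_, ?_, ?_, ?_, ?_⟩
    · intro q' hq'
      rw [mem_singleton] at hq'
      subst hq'
      refine ⟨hr1, ?_⟩
      rw [← hL, ← hZ]
      have h4 : (1 : ℝ) ≤ (Nat.gcd χ.conductor n : ℝ) := by
        exact_mod_cast Nat.gcd_pos_of_pos_left n hr1
      have hZ0 : 0 ≤ Z := by rw [hZ]; positivity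
      calc (χ.conductor : ℝ) ≤ Z * 1 := by rw [mul_one]; exact hχZ
        _ ≤ Z * _ := mul_le_mul_of_nonneg_left h4 hZ0
    · intro q' _
      refine ⟨hT0, ?_⟩
      rw [hT, hL]
    · intro q' hq' q'' hq''
      rw [mem_singleton] at hq' hq''
      rw [hq', hq'', Nat.lcm_self]
    · rw [card_singleton, Nat.cast_one]
      exact Real.one_le_rpow hXR (by linarith)
    · exact hχZ.trans hZX)
  -- the character modulo `q`
  have hc1 := SXf_cont X (ww X) ⟨q, χ⟩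
  have hc2 := SXf_cont X (ww X) (prc χ)
  obtain ⟨c, hc⟩ : ∃ c : ℝ, c = 10 * K0 * (X : ℝ) ^ (9 / 10 : ℝ) := ⟨_, rfl⟩
  rw [← hc]
  have hpt : ∀ x, ‖SXf X (ww X) ⟨q, χ⟩ x‖ ^ 2 ≤ 2 * ‖SXf X (ww X) (prc χ) x‖ ^ 2 + 2 * c ^ 2 := by
    intro x
    have h4 := sxf_prc X q K0 hX hq1 hqX (ww X) hw χ x
    rw [← hc] at h4
    have h5 : ‖SXf X (ww X) ⟨q, χ⟩ x‖ ≤ ‖SXf X (ww X) (prc χ) x‖ + c := by
      have h6 := norm_add_le (SXf X (ww X) ⟨q, χ⟩ x - SXf X (ww X) (prc χ) x) (SXf X (ww X) (prc χ) x)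
      rw [sub_add_cancel] at h6
      linarith
    refine (pow_le_pow_left₀ (norm_nonneg _) h5 2).trans ?_
    nlinarith [sq_nonneg (‖SXf X (ww X) (prc χ) x‖ - c)]
  have htX : t / (X : ℝ) ≤ T / X := div_le_div_of_nonneg_right htT hX0.le
  have h4 : ∫ x in (-(t / X))..(t / X), ‖SXf X (ww X) ⟨q, χ⟩ x‖ ^ 2 ≤
      ∫ x in (-(T / X))..(T / X), ‖SXf X (ww X) ⟨q, χ⟩ x‖ ^ 2 := by
    refine intervalIntegral.integral_mono_interval (neg_le_neg htX) (ar_le X ht0) htX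
      (Filter.Eventually.of_forall fun x => by positivity)
      (by apply Continuous.intervalIntegrable; fun_prop)
  have h5 : ∫ x in (-(T / X))..(T / X), ‖SXf X (ww X) ⟨q, χ⟩ x‖ ^ 2 ≤
      ∫ x in (-(T / X))..(T / X), (2 * ‖SXf X (ww X) (prc χ) x‖ ^ 2 + 2 * c ^ 2) := by
    refine intervalIntegral.integral_mono_on (ar_le X hT0)
      (by apply Continuous.intervalIntegrable; fun_prop)
      (by apply Continuous.intervalIntegrable; fun_prop) fun x _ => hpt x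
  rw [intervalIntegral.integral_add (by apply Continuous.intervalIntegrable; fun_prop)
    (by apply Continuous.intervalIntegrable; fun_prop), intervalIntegral.integral_const_mul,
    intervalIntegral.integral_const, smul_eq_mul] at h5
  have h6 : ∫ x in (-(T / X))..(T / X), ‖SXf X (ww X) (prc χ) x‖ ^ 2 ≤
      2 * (Z * (2 * (T / X) * (X / L ^ A) ^ 2)) + 2 * (X / L ^ B'') := by
    refine h1.trans ?_
    linarith
  have h7 : (T / (X : ℝ) - -(T / X)) * (2 * c ^ 2) = 2 * (2 * (T / X)) * c ^ 2 := by ring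
  rw [h7] at h5
  linarith

/-- **(A4)** the characters of small conductor -/
theorem smlY (hMod : ModY) : SmlY := by
  intro K0 C1 th e τ hp ww gg hW hM B K1 K2 K'
  obtain ⟨A, hA⟩ : ∃ A : ℕ, A = B + 4 * K' + K2 + 6 := ⟨_, rfl⟩
  obtain ⟨B'', hB''⟩ : ∃ B'' : ℕ, B'' = B + 3 * K' + 6 := ⟨_, rfl⟩
  obtain ⟨D1, hD1⟩ := hM A (K' + K2 + 1)
  obtain ⟨D2, hD2⟩ := hMod K0 C1 th e τ hp ww gg hW B'' K' K2
  obtain ⟨X1, hX1⟩ := hD1 (max D1 D2) (le_max_left _ _)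
  obtain ⟨X2, hX2⟩ := hD2 (max D1 D2) (le_max_right _ _)
  obtain ⟨X3, hX3⟩ := hW
  obtain ⟨X4, hX4⟩ := ay_sizes th e τ hp K1 K2
  obtain ⟨X5, hX5⟩ := MP_log_large 16
  obtain ⟨X6, hX6⟩ := MP_log_pow (30000 * (K0 : ℝ) ^ 2) (B + 3 * K' + K2 + 2) (ε := 1 / 5)
    (by norm_num)
  obtain ⟨X7, hX7⟩ := MP_log_pow 1 K' (ε := 1 / 2) (by norm_num)
  obtain ⟨p1, p2, p3, p4, p5⟩ := hp
  refine ⟨X1 + X2 + X3 + X4 + X5 + X6 + X7 + 2, fun X hX n QQ N ρ hd => ?_⟩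
  have g1 := hX1 X (by omega)
  have g2 := hX2 X (by omega)
  have g3 := (hX3 X (by omega)).1
  have g4 := hX4 X (by omega) n QQ N ρ hd
  have g5 := hX5 X (by omega)
  have g6 := hX6 X (by omega)
  have g7 := hX7 X (by omega)
  have hX2' : 2 ≤ X := by omega
  have hXR : (1 : ℝ) ≤ X := by exact_mod_cast (by omega : 1 ≤ X)
  have hX0 : (0 : ℝ) < X := by linarith
  obtain ⟨L, hL⟩ : ∃ L : ℝ, L = Real.log X := ⟨_, rfl⟩
  rw [← hL] at g1 g2 g4 g5 g6 g7 ⊢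
  have hL0 : 0 < L := by linarith
  have hL1 : 1 ≤ L := by linarith
  obtain ⟨Z, hZ⟩ : ∃ Z : ℝ, Z = L ^ K' := ⟨_, rfl⟩
  obtain ⟨T, hT⟩ : ∃ T : ℝ, T = 4 * L ^ K2 := ⟨_, rfl⟩
  have hZ1 : 1 ≤ Z := by rw [hZ]; exact one_le_pow₀ hL1
  have hZ0 : 0 < Z := by linarith
  rw [one_mul, ← hZ] at g7
  rw [← hZ]
  rcases QQ.eq_empty_or_nonempty with hQ | hne
  · unfold N2d
    rw [hQ, sum_empty]
    positivity
  obtain ⟨-, -, -, -, s1, s2⟩ := g4 hne
  rw [← hT] at s1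
  have hZX : Z ≤ (X : ℝ) ^ (1 - th + 3 / 2 * e) :=
    g7.trans (Real.rpow_le_rpow_of_exponent_le hXR (by linarith))
  obtain ⟨I0, hI0⟩ : ∃ I0 : ℝ, I0 = 2 * (2 * (Z * (2 * (T / X) * (X / L ^ A) ^ 2)) +
      2 * (X / L ^ B'')) + 2 * (2 * (T / X)) * (10 * K0 * (X : ℝ) ^ (9 / 10 : ℝ)) ^ 2 := ⟨_, rfl⟩
  have hT0 : 0 ≤ T := by rw [hT]; positivity
  have hI00 : 0 ≤ I0 := by rw [hI0]; positivity
  have hone : ∀ q ∈ QQ, ∀ χ ∈ YS Z q,
      ∫ x in (-(ρ q / X))..(ρ q / X), ‖SXf X (ww X) ⟨q, χ⟩ x‖ ^ 2 ≤ I0 := by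
    intro q hq χ hχ
    rw [hI0]
    obtain ⟨-, c1, c2⟩ := (mem_ys Z q χ).1 hχ
    exact as_one X n K0 K' K2 A B'' (wX (max D1 D2) X) e th ww gg L Z T hL (by linarith) hZ hT hX2'
      hd.1 hd.2.1 p3 hZX (fun m => (g3 m).1) g1 (fun QQ' N' ρ' h => g2 n QQ' N' ρ' h) q (s2 q hq).1
      (s2 q hq).2.2 χ c1 c2 (ρ q) (s1 q hq).1 (s1 q hq).2
  rw [N2d_vqf X ρ QQ (fun q hq => (s2 q hq).1) (ww X) (fun q => YS Z q)]
  -- one modulus
  have hmod : ∀ q ∈ QQ, ∑ χ ∈ YS Z q, (if h : q = 0 then 0 else haveI : NeZero q := ⟨h⟩;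
      ‖tq q χ⁻¹‖ ^ 2) / (Nat.totient q : ℝ) *
        ∫ x in (-(ρ q / X))..(ρ q / X), ‖SXf X (ww X) ⟨q, χ⟩ x‖ ^ 2 ≤
      1 / (Nat.totient q : ℝ) * (Z ^ 3 * I0) := by
    intro q hq
    have hq1 := (s2 q hq).1
    have : NeZero q := ⟨by omega⟩
    have h1 : ∀ χ ∈ YS Z q, (if h : q = 0 then 0 else haveI : NeZero q := ⟨h⟩;
        ‖tq q χ⁻¹‖ ^ 2) / (Nat.totient q : ℝ) *
        ∫ x in (-(ρ q / X))..(ρ q / X), ‖SXf X (ww X) ⟨q, χ⟩ x‖ ^ 2 ≤
        Z / (Nat.totient q : ℝ) * I0 := by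
      intro χ hχ
      rw [dif_neg (NeZero.ne q)]
      have h2 : ‖tq q χ⁻¹‖ ^ 2 ≤ Z := by
        refine (Pool.MP_dd84fd_nt.LXP.gs_cond q χ⁻¹).trans ?_
        rw [DirichletCharacter.conductor_inv]
        exact ((mem_ys Z q χ).1 hχ).2.2
      have h3 : ‖tq q χ⁻¹‖ ^ 2 / (Nat.totient q : ℝ) ≤ Z / (Nat.totient q : ℝ) :=
        div_le_div_of_nonneg_right h2 (Nat.cast_nonneg _)
      refine mul_le_mul h3 (hone q hq χ hχ) ?_ (by positivity)
      exact intervalIntegral.integral_nonneg (ar_le X (s1 q hq).1) fun x _ => by positivity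
    refine (sum_le_sum h1).trans ?_
    rw [sum_const, nsmul_eq_mul]
    have h4 : ((YS Z q).card : ℝ) ≤ Z ^ 2 := by
      have h5 := ys_card q ⌊Z⌋₊ hq1 Z (Nat.lt_floor_add_one Z)
      calc ((YS Z q).card : ℝ) ≤ ((⌊Z⌋₊ ^ 2 : ℕ) : ℝ) := by exact_mod_cast h5
        _ = (⌊Z⌋₊ : ℝ) ^ 2 := by push_cast; ring
        _ ≤ Z ^ 2 := pow_le_pow_left₀ (Nat.cast_nonneg _) (Nat.floor_le hZ0.le) 2
    calc ((YS Z q).card : ℝ) * (Z / (Nat.totient q : ℝ) * I0) ≤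
          Z ^ 2 * (Z / (Nat.totient q : ℝ) * I0) := mul_le_mul_of_nonneg_right h4 (by positivity)
      _ = 1 / (Nat.totient q : ℝ) * (Z ^ 3 * I0) := by ring
  refine (sum_le_sum hmod).trans ?_
  rw [← sum_mul]
  have htot := as_tot X (by rw [← hL]; exact hL1) QQ (fun q hq => ⟨(s2 q hq).1, (s2 q hq).2.2⟩)
  rw [← hL] at htot
  refine (mul_le_mul_of_nonneg_right htot (by positivity)).trans ?_
  -- numerics
  obtain ⟨b, hb⟩ : ∃ b : ℝ, b = L ^ B := ⟨_, rfl⟩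
  obtain ⟨k, hk⟩ : ∃ k : ℝ, k = L ^ K2 := ⟨_, rfl⟩
  have hb1 : 1 ≤ b := by rw [hb]; exact one_le_pow₀ hL1
  have hk1 : 1 ≤ k := by rw [hk]; exact one_le_pow₀ hL1
  have hb0 : 0 < b := by linarith
  have hk0 : 0 < k := by linarith
  have eA : L ^ A = b * Z ^ 4 * k * L ^ 6 := by
    rw [hA, hb, hZ, hk]
    ring
  have eB : L ^ B'' = b * Z ^ 3 * L ^ 6 := by
    rw [hB'', hb, hZ]
    ring
  rw [← hb]
  have e6 : 30000 * (K0 : ℝ) ^ 2 * (b * Z ^ 3 * k * L ^ 2) ≤ (X : ℝ) ^ (1 / 5 : ℝ) := by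
    have : L ^ (B + 3 * K' + K2 + 2) = b * Z ^ 3 * k * L ^ 2 := by
      rw [hb, hZ, hk]
      ring
    rw [← this]
    exact g6
  have eX : ((X : ℝ) ^ (9 / 10 : ℝ)) ^ 2 = X * (X : ℝ) ^ (4 / 5 : ℝ) := by
    rw [← Real.rpow_natCast ((X : ℝ) ^ (9 / 10 : ℝ)) 2, ← Real.rpow_mul hX0.le]
    nth_rewrite 2 [← Real.rpow_one (X : ℝ)]
    rw [← Real.rpow_add hX0]
    norm_num
  have eX2 : (X : ℝ) ^ (4 / 5 : ℝ) * (X : ℝ) ^ (1 / 5 : ℝ) = X := by
    rw [← Real.rpow_add hX0]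
    norm_num
  obtain ⟨u, hu⟩ : ∃ u : ℝ, u = (X : ℝ) ^ (4 / 5 : ℝ) := ⟨_, rfl⟩
  have hu0 : 0 < u := by rw [hu]; positivity
  rw [← hu] at eX eX2
  have hbig : b * Z ^ 4 * k * L ^ 6 ≤ (b * Z ^ 4 * k * L ^ 6) ^ 2 := by
    have h1 : 1 ≤ b * Z ^ 4 * k * L ^ 6 := by
      rw [← eA]
      exact one_le_pow₀ hL1
    nlinarith
  have hL4 : (600 : ℝ) ≤ L ^ 4 := by
    have : (16 : ℝ) ^ 4 ≤ L ^ 4 := pow_le_pow_left₀ (by norm_num) g5 4
    linarith
  have eI : 6 * L ^ 2 * (Z ^ 3 * I0) =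
      6 * L ^ 2 * Z ^ 3 * (8 * Z * T * X / (b * Z ^ 4 * k * L ^ 6) ^ 2) +
      6 * L ^ 2 * Z ^ 3 * (4 * X / (b * Z ^ 3 * L ^ 6)) +
      6 * L ^ 2 * Z ^ 3 * (400 * T * K0 ^ 2 * u) := by
    rw [hI0, eA, eB, mul_pow (10 * (K0 : ℝ)), eX]
    field_simp
    ring
  rw [eI]
  have t1 : 6 * L ^ 2 * Z ^ 3 * (8 * Z * T * X / (b * Z ^ 4 * k * L ^ 6) ^ 2) ≤ X / b / 3 := by
    have h1 : 8 * Z * T * X / (b * Z ^ 4 * k * L ^ 6) ^ 2 ≤
        8 * Z * T * X / (b * Z ^ 4 * k * L ^ 6) :=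
      div_le_div_of_nonneg_left (by positivity) (by positivity) hbig
    have h2 : 6 * L ^ 2 * Z ^ 3 * (8 * Z * T * X / (b * Z ^ 4 * k * L ^ 6)) =
        192 / L ^ 4 * (X / b) := by
      rw [hT, ← hk]
      field_simp
      ring
    have h3 : 192 / L ^ 4 ≤ 1 / 3 := by
      rw [div_le_div_iff₀ (by positivity) (by norm_num)]
      linarith
    calc _ ≤ 6 * L ^ 2 * Z ^ 3 * (8 * Z * T * X / (b * Z ^ 4 * k * L ^ 6)) :=
          mul_le_mul_of_nonneg_left h1 (by positivity)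
      _ = 192 / L ^ 4 * (X / b) := h2
      _ ≤ 1 / 3 * (X / b) := mul_le_mul_of_nonneg_right h3 (by positivity)
      _ = _ := by ring
  have t2 : 6 * L ^ 2 * Z ^ 3 * (4 * X / (b * Z ^ 3 * L ^ 6)) ≤ X / b / 3 := by
    have h2 : 6 * L ^ 2 * Z ^ 3 * (4 * X / (b * Z ^ 3 * L ^ 6)) = 24 / L ^ 4 * (X / b) := by
      field_simp
      ring
    have h3 : 24 / L ^ 4 ≤ 1 / 3 := by
      rw [div_le_div_iff₀ (by positivity) (by norm_num)]
      linarith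
    rw [h2]
    calc _ ≤ 1 / 3 * (X / b) := mul_le_mul_of_nonneg_right h3 (by positivity)
      _ = _ := by ring
  have t3 : 6 * L ^ 2 * Z ^ 3 * (400 * T * K0 ^ 2 * u) ≤ X / b / 3 := by
    rw [div_div, le_div_iff₀ (by positivity), hT, ← hk]
    calc 6 * L ^ 2 * Z ^ 3 * (400 * (4 * k) * K0 ^ 2 * u) * (b * 3) =
          u * (28800 * (K0 : ℝ) ^ 2 * (b * Z ^ 3 * k * L ^ 2)) := by ring
      _ ≤ u * (30000 * (K0 : ℝ) ^ 2 * (b * Z ^ 3 * k * L ^ 2)) := by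
          apply mul_le_mul_of_nonneg_left _ hu0.le
          apply mul_le_mul_of_nonneg_right _ (by positivity)
          nlinarith [sq_nonneg (K0 : ℝ)]
      _ ≤ u * (X : ℝ) ^ (1 / 5 : ℝ) := mul_le_mul_of_nonneg_left e6 hu0.le
      _ = X := eX2
  linarith

end Pool.MP_dd84fd_nt.BY
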