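import Pool.Agent.Lib.MP_dd84fd_nt.BY.AyDefs
import Pool.Agent.Lib.MP_dd84fd_nt.BX.As3

/-!
# BY-Ay1: products of `VQf` and pairs of characters (copy of BX-As1, BX-As3 for two functions)
-/

set_option autoImplicit false

namespace Pool.MP_dd84fd_nt.BY

open Finset Pool.MP_67663b_nt.Odd Pool.MP_dd84fd_nt.En Pool.MP_dd84fd_nt.E2 Pool.MP_dd84fd_nt.LS
open Pool.MP_dd84fd_nt.GX Pool.MP_dd84fd_nt.HX Pool.MP_dd84fd_nt.IX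
open Pool.MP_dd84fd_nt.PL (rr)
open Pool.MP_dd84fd_nt.JX (wP gP DecJ)
open Pool.MP_dd84fd_nt.LXP (tq)
open Pool.MP_dd84fd_nt.BX (PC pv IsPC PFam prc ind h0 cP cf Rm as_ee_cont as_ee_norm as_ee_add as_cs
  ind_prc prc_inj isPC_prc cf_nonneg)

private theorem SXf_cont (X : ℕ) (w : ℕ → ℝ) (ψ : PC) : Continuous (SXf X w ψ) := by
  unfold SXf
  refine continuous_finsetSum _ fun n _ => ?_
  exact continuous_const.mul (as_ee_cont.comp (continuous_const.mul continuous_id))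

theorem sNf_nonneg (X : ℕ) (T : ℝ) (w : ℕ → ℝ) (ψ : PC) : 0 ≤ sNf X T w ψ := by
  unfold sNf
  have : 0 ≤ Real.log (X : ℝ) := Real.log_natCast_nonneg X
  positivity

/-- `sN` is the case of the primes -/
theorem sNf_wP (X : ℕ) (T : ℝ) (ψ : PC) : sNf X T (wP X) ψ = BX.sN X T ψ := rfl

/-- the integral of a product -/
theorem ay_int (X n : ℕ) (T ρ : ℝ) (hX : 2 ≤ X) (hρ0 : 0 ≤ ρ) (hρ : ρ ≤ T) (w₁ w₂ : ℕ → ℝ)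
    (ψ₁ ψ₂ : PC) :
    ‖∫ x in (-(ρ / X))..(ρ / X), SXf X w₁ ψ₁ x * SXf X w₂ ψ₂ x * ee (-((n : ℝ) * x))‖ ≤
      (X : ℝ) / (Real.log X) ^ 2 * (sNf X T w₁ ψ₁ * sNf X T w₂ ψ₂) := by
  have hX0 : (0 : ℝ) < X := by exact_mod_cast (by omega : 0 < X)
  have hL0 : 0 < Real.log (X : ℝ) := Real.log_pos (by exact_mod_cast (by omega : 1 < X))
  have hle : -(ρ / (X : ℝ)) ≤ ρ / X := by
    have : 0 ≤ ρ / (X : ℝ) := by positivity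
    linarith
  have hT0 : 0 ≤ T / (X : ℝ) := div_nonneg (hρ0.trans hρ) hX0.le
  have hleT : -(T / (X : ℝ)) ≤ T / X := by linarith
  have hmono : ρ / (X : ℝ) ≤ T / X := by gcongr
  set f : ℝ → ℝ := fun x => ‖SXf X w₁ ψ₁ x‖ with hf
  set g : ℝ → ℝ := fun x => ‖SXf X w₂ ψ₂ x‖ with hg
  have hfc : Continuous f := (SXf_cont X w₁ ψ₁).norm
  have hgc : Continuous g := (SXf_cont X w₂ ψ₂).norm
  have h1 : ‖∫ x in (-(ρ / X))..(ρ / X), SXf X w₁ ψ₁ x * SXf X w₂ ψ₂ x * ee (-((n : ℝ) * x))‖ ≤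
      ∫ x in (-(ρ / X))..(ρ / X), f x * g x := by
    refine (intervalIntegral.norm_integral_le_integral_norm hle).trans (le_of_eq ?_)
    congr 1
    funext x
    rw [norm_mul, norm_mul, as_ee_norm, mul_one]
  have h2 : ∫ x in (-(ρ / X))..(ρ / X), f x * g x ≤ ∫ x in (-(T / X))..(T / X), f x * g x := by
    refine intervalIntegral.integral_mono_interval (by linarith) hle (by linarith) ?_
      ((hfc.mul hgc).intervalIntegrable _ _)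
    exact Filter.Eventually.of_forall fun x => mul_nonneg (norm_nonneg _) (norm_nonneg _)
  have h3 := as_cs f g hfc hgc _ _ hleT
  refine (h1.trans (h2.trans h3)).trans (le_of_eq ?_)
  unfold sNf
  have hs : Real.sqrt (X : ℝ) * Real.sqrt X = X := Real.mul_self_sqrt hX0.le
  have hs0 : 0 < Real.sqrt (X : ℝ) := Real.sqrt_pos.2 hX0
  rw [show (X : ℝ) / Real.log X ^ 2 * (Real.log X / Real.sqrt X *
      Real.sqrt (∫ x in (-(T / X))..(T / X), ‖SXf X w₁ ψ₁ x‖ ^ 2) * (Real.log X / Real.sqrt X *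
      Real.sqrt (∫ x in (-(T / X))..(T / X), ‖SXf X w₂ ψ₂ x‖ ^ 2))) =
      (X / (Real.sqrt X * Real.sqrt X)) * (Real.log X ^ 2 / Real.log X ^ 2) *
      (Real.sqrt (∫ x in (-(T / X))..(T / X), ‖SXf X w₁ ψ₁ x‖ ^ 2) *
      Real.sqrt (∫ x in (-(T / X))..(T / X), ‖SXf X w₂ ψ₂ x‖ ^ 2)) by field_simp,
    hs, div_self hX0.ne', div_self (pow_ne_zero 2 hL0.ne'), one_mul, one_mul]

theorem vqf_pairs (X q n : ℕ) (T ρ : ℝ) (hX : 2 ≤ X) (hq : 1 ≤ q) (hρ0 : 0 ≤ ρ) (hρ : ρ ≤ T)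
    (w₁ w₂ : ℕ → ℝ) (Y₁ Y₂ : Finset (DirichletCharacter ℂ q)) :
    ‖∑ a ∈ rr q, ∫ x in (-(ρ / X))..(ρ / X), VQf X w₁ q Y₁ a x * VQf X w₂ q Y₂ a x *
        ee (-((n : ℝ) * ((a : ℝ) / q + x)))‖ ≤
      ∑ χ₁ ∈ Y₁, ∑ χ₂ ∈ Y₂, cf q n χ₁ χ₂ *
        ((X : ℝ) / (Real.log X) ^ 2 * (sNf X T w₁ ⟨q, χ₁⟩ * sNf X T w₂ ⟨q, χ₂⟩)) := by
  have hq0 : q ≠ 0 := by omega
  have : NeZero q := ⟨hq0⟩
  set c : DirichletCharacter ℂ q → ℂ := fun χ => tq q χ⁻¹ with hc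
  set S₁ : DirichletCharacter ℂ q → ℝ → ℂ := fun χ x => SXf X w₁ ⟨q, χ⟩ x with hS₁
  set S₂ : DirichletCharacter ℂ q → ℝ → ℂ := fun χ x => SXf X w₂ ⟨q, χ⟩ x with hS₂
  set φ : ℂ := (Nat.totient q : ℂ) with hφ
  have hV₁ : ∀ a x, VQf X w₁ q Y₁ a x = (1 / φ) * ∑ χ ∈ Y₁, c χ * χ (a : ZMod q) * S₁ χ x := by
    intro a x
    unfold VQf
    rw [dif_neg hq0]
  have hV₂ : ∀ a x, VQf X w₂ q Y₂ a x = (1 / φ) * ∑ χ ∈ Y₂, c χ * χ (a : ZMod q) * S₂ χ x := by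
    intro a x
    unfold VQf
    rw [dif_neg hq0]
  have hc₁ : ∀ χ, Continuous (S₁ χ) := fun χ => SXf_cont X w₁ _
  have hc₂ : ∀ χ, Continuous (S₂ χ) := fun χ => SXf_cont X w₂ _
  -- the integrand as a double sum
  have h1 : ∀ a ∈ rr q, ∫ x in (-(ρ / X))..(ρ / X), VQf X w₁ q Y₁ a x * VQf X w₂ q Y₂ a x *
        ee (-((n : ℝ) * ((a : ℝ) / q + x))) =
      ∑ χ₁ ∈ Y₁, ∑ χ₂ ∈ Y₂, (1 / φ) ^ 2 * (c χ₁ * c χ₂) *
        (((χ₁ * χ₂) (a : ZMod q)) * ee (-((n : ℝ) * ((a : ℝ) / q)))) *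
        ∫ x in (-(ρ / X))..(ρ / X), S₁ χ₁ x * S₂ χ₂ x * ee (-((n : ℝ) * x)) := by
    intro a _
    have e1 : ∀ x : ℝ, VQf X w₁ q Y₁ a x * VQf X w₂ q Y₂ a x *
        ee (-((n : ℝ) * ((a : ℝ) / q + x))) =
        ∑ χ₁ ∈ Y₁, ∑ χ₂ ∈ Y₂, (1 / φ) ^ 2 * (c χ₁ * c χ₂) *
          (((χ₁ * χ₂) (a : ZMod q)) * ee (-((n : ℝ) * ((a : ℝ) / q)))) *
          (S₁ χ₁ x * S₂ χ₂ x * ee (-((n : ℝ) * x))) := by
      intro x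
      have e2 : ee (-((n : ℝ) * ((a : ℝ) / q + x))) =
          ee (-((n : ℝ) * ((a : ℝ) / q))) * ee (-((n : ℝ) * x)) := by
        rw [← as_ee_add]
        congr 1
        ring
      have e3 : ∀ P₁ P₂ E : ℂ, 1 / φ * P₁ * (1 / φ * P₂) * E = (1 / φ) ^ 2 * (P₁ * P₂) * E := by
        intro P₁ P₂ E
        ring
      rw [hV₁, hV₂, e2, e3, sum_mul_sum, mul_sum, sum_mul]
      refine sum_congr rfl fun χ₁ _ => ?_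
      rw [mul_sum, sum_mul]
      refine sum_congr rfl fun χ₂ _ => ?_
      rw [MulChar.mul_apply]
      ring
    simp only [e1]
    have hcont : ∀ χ₁ χ₂ : DirichletCharacter ℂ q, Continuous (fun x : ℝ =>
        (1 / φ) ^ 2 * (c χ₁ * c χ₂) *
          (((χ₁ * χ₂) (a : ZMod q)) * ee (-((n : ℝ) * ((a : ℝ) / q)))) *
          (S₁ χ₁ x * S₂ χ₂ x * ee (-((n : ℝ) * x)))) := by
      intro χ₁ χ₂
      refine continuous_const.mul (((hc₁ χ₁).mul (hc₂ χ₂)).mul ?_)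
      exact as_ee_cont.comp (continuous_const.mul continuous_id).neg
    rw [intervalIntegral.integral_finsetSum]
    · refine sum_congr rfl fun χ₁ _ => ?_
      rw [intervalIntegral.integral_finsetSum]
      · refine sum_congr rfl fun χ₂ _ => ?_
        rw [intervalIntegral.integral_const_mul]
      · intro χ₂ _
        exact (hcont χ₁ χ₂).intervalIntegrable _ _
    · intro χ₁ _
      refine Continuous.intervalIntegrable ?_ _ _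
      exact continuous_finsetSum _ fun χ₂ _ => hcont χ₁ χ₂
  rw [sum_congr rfl h1, sum_comm]
  refine (norm_sum_le _ _).trans (sum_le_sum fun χ₁ _ => ?_)
  rw [sum_comm]
  refine (norm_sum_le _ _).trans (sum_le_sum fun χ₂ _ => ?_)
  rw [← sum_mul, ← mul_sum]
  have hcf : cf q n χ₁ χ₂ = ‖tq q χ₁⁻¹‖ * ‖tq q χ₂⁻¹‖ * ‖Rm q n (χ₁ * χ₂)‖ /
      (Nat.totient q : ℝ) ^ 2 := by
    unfold cf
    rw [dif_neg hq0]
  rw [norm_mul, hcf]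
  have h2 : ‖(1 / φ) ^ 2 * (c χ₁ * c χ₂) * ∑ a ∈ rr q, (χ₁ * χ₂) (a : ZMod q) *
      ee (-((n : ℝ) * ((a : ℝ) / q)))‖ =
      ‖tq q χ₁⁻¹‖ * ‖tq q χ₂⁻¹‖ * ‖Rm q n (χ₁ * χ₂)‖ / (Nat.totient q : ℝ) ^ 2 := by
    unfold Rm
    rw [norm_mul, norm_mul, norm_mul, norm_pow, norm_div, norm_one, hφ, Complex.norm_natCast, hc]
    ring
  rw [h2]
  refine mul_le_mul_of_nonneg_left (ay_int X n T ρ hX hρ0 hρ _ _ _ _) (by positivity)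

open Classical in
/-- the sum over the moduli and the pairs of characters: `Y₁` contains the primitive characters of
all `χ₁` which occur with some `χ₂` -/
theorem pairs_prim2 (QQ : Finset ℕ) (n : ℕ) (U V : (q : ℕ) → Finset (DirichletCharacter ℂ q))
    (Y₁ Y₂ : Finset PC)
    (hY₁ : ∀ q ∈ QQ, ∀ χ₁ ∈ U q, ∀ χ₂ ∈ V q, cf q n χ₁ χ₂ ≠ 0 → prc χ₁ ∈ Y₁)
    (hY₂ : ∀ q ∈ QQ, ∀ χ ∈ V q, prc χ ∈ Y₂) (s₁ s₂ : PC → ℝ) (hs₁ : ∀ ψ, 0 ≤ s₁ ψ)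
    (hs₂ : ∀ ψ, 0 ≤ s₂ ψ) (t₁ t₂ : (q : ℕ) → DirichletCharacter ℂ q → ℝ)
    (ht₁ : ∀ q ∈ QQ, ∀ χ ∈ U q, 0 ≤ t₁ q χ ∧ t₁ q χ ≤ s₁ (prc χ))
    (ht₂ : ∀ q ∈ QQ, ∀ χ ∈ V q, 0 ≤ t₂ q χ ∧ t₂ q χ ≤ s₂ (prc χ)) :
    ∑ q ∈ QQ, ∑ χ₁ ∈ U q, ∑ χ₂ ∈ V q, cf q n χ₁ χ₂ * (t₁ q χ₁ * t₂ q χ₂) ≤
      ∑ ψ₁ ∈ Y₁, ∑ ψ₂ ∈ Y₂, BX.Wt QQ n ψ₁ ψ₂ * (s₁ ψ₁ * s₂ ψ₂) := by
  have e1 : ∑ ψ₁ ∈ Y₁, ∑ ψ₂ ∈ Y₂, BX.Wt QQ n ψ₁ ψ₂ * (s₁ ψ₁ * s₂ ψ₂) =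
      ∑ q ∈ QQ, ∑ ψ₁ ∈ Y₁, ∑ ψ₂ ∈ Y₂, (if ψ₁.1 ∣ q ∧ ψ₂.1 ∣ q then
        cf q n (ind q ψ₁) (ind q ψ₂) * (s₁ ψ₁ * s₂ ψ₂) else 0) := by
    symm
    rw [sum_comm]
    refine sum_congr rfl fun ψ₁ _ => ?_
    rw [sum_comm]
    refine sum_congr rfl fun ψ₂ _ => ?_
    unfold BX.Wt
    rw [sum_filter, sum_mul]
    refine sum_congr rfl fun q _ => ?_
    split_ifs <;> simp
  rw [e1]
  refine sum_le_sum fun q hq => ?_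
  set g : PC → PC → ℝ := fun ψ₁ ψ₂ => if ψ₁.1 ∣ q ∧ ψ₂.1 ∣ q then
      cf q n (ind q ψ₁) (ind q ψ₂) * (s₁ ψ₁ * s₂ ψ₂) else 0 with hg
  have hnn : ∀ ψ₁ ψ₂ : PC, 0 ≤ g ψ₁ ψ₂ := by
    intro ψ₁ ψ₂
    simp only [hg]
    split_ifs
    · exact mul_nonneg (cf_nonneg _ _ _ _) (mul_nonneg (hs₁ _) (hs₂ _))
    · exact le_rfl
  set U' : Finset (DirichletCharacter ℂ q) := (U q).filter (fun χ => prc χ ∈ Y₁) with hU'
  have hsub₁ : U'.image prc ⊆ Y₁ := by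
    intro ψ hψ
    obtain ⟨χ, hχ, rfl⟩ := mem_image.1 hψ
    exact (mem_filter.1 hχ).2
  have hsub₂ : (V q).image prc ⊆ Y₂ := by
    intro ψ hψ
    obtain ⟨χ, hχ, rfl⟩ := mem_image.1 hψ
    exact hY₂ q hq χ hχ
  calc ∑ χ₁ ∈ U q, ∑ χ₂ ∈ V q, cf q n χ₁ χ₂ * (t₁ q χ₁ * t₂ q χ₂)
      = ∑ χ₁ ∈ U', ∑ χ₂ ∈ V q, cf q n χ₁ χ₂ * (t₁ q χ₁ * t₂ q χ₂) := by
        rw [hU', sum_filter]
        refine sum_congr rfl fun χ₁ h1 => ?_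
        split_ifs with hc
        · rfl
        · refine sum_eq_zero fun χ₂ h2 => ?_
          have : cf q n χ₁ χ₂ = 0 := by
            by_contra hne
            exact hc (hY₁ q hq χ₁ h1 χ₂ h2 hne)
          rw [this, zero_mul]
    _ ≤ ∑ χ₁ ∈ U', ∑ χ₂ ∈ V q, cf q n χ₁ χ₂ * (s₁ (prc χ₁) * s₂ (prc χ₂)) := by
        refine sum_le_sum fun χ₁ h1 => sum_le_sum fun χ₂ h2 => ?_
        refine mul_le_mul_of_nonneg_left ?_ (cf_nonneg _ _ _ _)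
        exact mul_le_mul (ht₁ q hq χ₁ (mem_filter.1 h1).1).2 (ht₂ q hq χ₂ h2).2
          (ht₂ q hq χ₂ h2).1 (hs₁ _)
    _ = ∑ ψ₁ ∈ U'.image prc, ∑ ψ₂ ∈ (V q).image prc, g ψ₁ ψ₂ := by
        rw [sum_image (fun χ _ χ' _ h => prc_inj h)]
        refine sum_congr rfl fun χ₁ _ => ?_
        rw [sum_image (fun χ _ χ' _ h => prc_inj h)]
        refine sum_congr rfl fun χ₂ _ => ?_
        simp only [hg]
        rw [if_pos ⟨χ₁.conductor_dvd_level, χ₂.conductor_dvd_level⟩, ind_prc, ind_prc]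
    _ ≤ ∑ ψ₁ ∈ Y₁, ∑ ψ₂ ∈ Y₂, g ψ₁ ψ₂ := by
        refine (sum_le_sum fun ψ₁ _ => sum_le_sum_of_subset_of_nonneg hsub₂
          fun ψ₂ _ _ => hnn ψ₁ ψ₂).trans ?_
        exact sum_le_sum_of_subset_of_nonneg hsub₁ fun ψ₁ _ _ =>
          sum_nonneg fun ψ₂ _ => hnn ψ₁ ψ₂

end Pool.MP_dd84fd_nt.BY
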