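import Pool.Agent.Lib.MP_dd84fd_nt.BY.Ay1

/-!
# BY-Ay2: the relative sums, small families
-/

set_option autoImplicit false

namespace Pool.MP_dd84fd_nt.BY

open Finset Pool.MP_67663b_nt.Odd Pool.MP_dd84fd_nt.En Pool.MP_dd84fd_nt.E2 Pool.MP_dd84fd_nt.LS
open Pool.MP_dd84fd_nt.GX Pool.MP_dd84fd_nt.HX Pool.MP_dd84fd_nt.IX
open Pool.MP_dd84fd_nt.PL (rr)
open Pool.MP_dd84fd_nt.JX (wP gP DecJ)
open Pool.MP_dd84fd_nt.LXP (tq)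
open Pool.MP_dd84fd_nt.BX (PC pv IsPC PFam prc ind h0 cP cf Rm as_ee_cont as_ee_norm as_ee_add as_cs
  ind_prc prc_inj isPC_prc cf_nonneg)

theorem ay_log (K : ℝ) : ∃ X0 : ℕ, ∀ X : ℕ, X0 ≤ X → K ≤ Real.log (X : ℝ) := by
  have h : Filter.Tendsto (fun n : ℕ => Real.log (n : ℝ)) Filter.atTop Filter.atTop :=
    Real.tendsto_log_atTop.comp tendsto_natCast_atTop_atTop
  exact Filter.eventually_atTop.1 (h.eventually_ge_atTop K)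

/-- a power of `X` beats a power of the logarithm -/
theorem ay_pow (C c : ℝ) (hc : 0 < c) (A : ℕ) :
    ∃ X0 : ℕ, ∀ X : ℕ, X0 ≤ X → C * (Real.log X) ^ A + 1 < (X : ℝ) ^ c := by
  have h1 : (fun x : ℝ => Real.log x ^ A) =o[Filter.atTop] fun x : ℝ => x ^ c := by
    have := isLittleO_log_rpow_rpow_atTop (A : ℝ) hc
    refine this.congr' ?_ Filter.EventuallyEq.rfl
    exact Filter.Eventually.of_forall fun x => Real.rpow_natCast _ _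
  have h2 : ∀ᶠ x : ℝ in Filter.atTop, ‖Real.log x ^ A‖ ≤ 1 / (2 * (|C| + 1)) * ‖x ^ c‖ :=
    h1.def (by positivity)
  have h3 : ∀ᶠ x : ℝ in Filter.atTop, 4 ≤ x ^ c :=
    (tendsto_rpow_atTop hc).eventually_ge_atTop 4
  have h4 := (h2.and (h3.and (Filter.eventually_ge_atTop (1 : ℝ))))
  obtain ⟨X0, hX0⟩ := Filter.eventually_atTop.1 (tendsto_natCast_atTop_atTop.eventually h4)
  refine ⟨X0, fun X hX => ?_⟩
  obtain ⟨h5, h6, h7⟩ := hX0 X hX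
  have hl : 0 ≤ Real.log (X : ℝ) := Real.log_nonneg h7
  have hp : 0 ≤ (X : ℝ) ^ c := by positivity
  rw [Real.norm_of_nonneg (by positivity), Real.norm_of_nonneg hp] at h5
  have h8 : C * Real.log (X : ℝ) ^ A ≤ |C| * (1 / (2 * (|C| + 1)) * (X : ℝ) ^ c) :=
    (mul_le_mul_of_nonneg_right (le_abs_self C) (by positivity)).trans
      (mul_le_mul_of_nonneg_left h5 (abs_nonneg C))
  have h9 : |C| * (1 / (2 * (|C| + 1)) * (X : ℝ) ^ c) ≤ 1 / 2 * (X : ℝ) ^ c := by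
    have h10 : |C| * (1 / (2 * (|C| + 1))) ≤ 1 / 2 := by
      rw [mul_one_div, div_le_div_iff₀ (by positivity) (by norm_num)]
      have := abs_nonneg C
      linarith
    calc |C| * (1 / (2 * (|C| + 1)) * (X : ℝ) ^ c) = |C| * (1 / (2 * (|C| + 1))) * (X : ℝ) ^ c := by
          ring
      _ ≤ 1 / 2 * (X : ℝ) ^ c := by gcongr
  linarith

theorem pfam_le {Y : Finset PC} {N : ℝ} (h : PFam Y N) {ψ : PC} (hψ : ψ ∈ Y) : (ψ.1 : ℝ) ≤ N := by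
  have := h.2 ψ hψ ψ hψ
  rwa [Nat.lcm_self] at this

/-- the primes -/
theorem relV_wP (th e : ℝ) (hth : 1 - th + 3 / 2 * e ≤ 19 / 20) (h : SlR) :
    RelV th e (fun X => wP X) := by
  obtain ⟨C, c, hC, hc, h⟩ := h (1 / 20) (by norm_num)
  refine ⟨C, 0, hC, fun K B => ?_⟩
  obtain ⟨X1, h⟩ := h (K + 1) B
  obtain ⟨X2, hlog⟩ := ay_log 2
  obtain ⟨X3, hpow⟩ := ay_pow 4 c hc (2 * K)
  refine ⟨max (max X1 X2) (max X3 1), fun X hX T hT1 hT2 ψ₂ hψ₂ hψ₂N k hk Y hY hY2 hYc => ?_⟩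
  have hX1 : X1 ≤ X := by omega
  have hX2 : X2 ≤ X := by omega
  have hX3 : X3 ≤ X := by omega
  have hX4 : 1 ≤ X := by omega
  have hXr : (1 : ℝ) ≤ X := by exact_mod_cast hX4
  have hL := hlog X hX2
  have hp := hpow X hX3
  have hN : (X : ℝ) ^ (1 - th + 3 / 2 * e) ≤ (X : ℝ) ^ (1 - 1 / 20 : ℝ) :=
    Real.rpow_le_rpow_of_exponent_le hXr (by linarith)
  have hres := h X hX1 T hT1 hT2 ψ₂ hψ₂ (hψ₂N.trans hN) Y (fun ψ hψ => ?_) ?_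
  · rw [pow_zero, mul_one]
    exact hres
  · refine ⟨hY.1 ψ hψ, (hY2 ψ hψ).1, (pfam_le hY hψ).trans hN, ?_⟩
    have h1 : (cP ψ ψ₂ : ℝ) ≤ 2 ^ (k + 1) := by exact_mod_cast (hY2 ψ hψ).2
    calc (cP ψ ψ₂ : ℝ) ≤ 2 ^ (k + 1) := h1
      _ = (2 : ℝ) ^ k * 2 := pow_succ _ _
      _ ≤ (Real.log X) ^ K * Real.log X := mul_le_mul hk hL (by norm_num) (by positivity)
      _ = (Real.log X) ^ (K + 1) := (pow_succ _ _).symm
  · have h2 : (4 : ℝ) ^ k ≤ (Real.log X) ^ (2 * K) := by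
      calc (4 : ℝ) ^ k = ((2 : ℝ) ^ k) ^ 2 := by
            rw [← pow_mul, mul_comm k 2, pow_mul]
            norm_num
        _ ≤ ((Real.log X) ^ K) ^ 2 := by gcongr
        _ = (Real.log X) ^ (2 * K) := by rw [← pow_mul, mul_comm K 2]
    linarith

/-- weights with `s ≤ M + E` -/
theorem relV_of_slV (th e : ℝ) (v : ℕ → ℕ → ℝ) (h : SlV th e v) : RelV th e v := by
  obtain ⟨C, c, D, hC, hc, h⟩ := h
  refine ⟨C * 3 ^ D + 1, D, by positivity, fun K B => ?_⟩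
  obtain ⟨X1, h⟩ := h (3 * K + 3) B
  obtain ⟨X2, hlog⟩ := ay_log 2
  obtain ⟨X3, hpow⟩ := ay_pow 4 c hc (2 * K)
  refine ⟨max (max X1 X2) (max X3 1), fun X hX T hT1 hT2 ψ₂ hψ₂ hψ₂N k hk Y hY hY2 hYc => ?_⟩
  have hX1 : X1 ≤ X := by omega
  have hX2 : X2 ≤ X := by omega
  have hX3 : X3 ≤ X := by omega
  have hL := hlog X hX2
  have hp := hpow X hX3
  have h4k : (4 : ℝ) ^ k = ((2 : ℝ) ^ k) ^ 2 := by
    rw [← pow_mul, mul_comm k 2, pow_mul]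
    norm_num
  have hcard : (Y.card : ℝ) ≤ (X : ℝ) ^ c := by
    have h2 : (4 : ℝ) ^ k ≤ (Real.log X) ^ (2 * K) := by
      calc (4 : ℝ) ^ k = ((2 : ℝ) ^ k) ^ 2 := h4k
        _ ≤ ((Real.log X) ^ K) ^ 2 := by gcongr
        _ = (Real.log X) ^ (2 * K) := by rw [← pow_mul, mul_comm K 2]
    linarith
  have hJ : (2 : ℝ) ^ (3 * k + 3) ≤ (Real.log X) ^ (3 * K + 3) := by
    calc (2 : ℝ) ^ (3 * k + 3) = ((2 : ℝ) ^ k) ^ 3 * 2 ^ 3 := by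
          rw [pow_add, ← pow_mul, mul_comm 3 k]
      _ ≤ ((Real.log X) ^ K) ^ 3 * (Real.log X) ^ 3 := by gcongr
      _ = (Real.log X) ^ (3 * K + 3) := by rw [pow_add, ← pow_mul, mul_comm 3 K]
  obtain ⟨M, E, hME, hM, hE⟩ := h X hX1 T hT1 hT2 Y hY (fun ψ hψ => (hY2 ψ hψ).1) hcard
    (3 * k + 3) (by omega) hJ
  have h1 : ∑ ψ ∈ Y, sNf X T (v X) ψ ≤ ∑ ψ ∈ Y, M ψ + ∑ ψ ∈ Y, E ψ := by
    rw [← sum_add_distrib]
    exact sum_le_sum fun ψ hψ => (hME ψ hψ).2.2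
  have h2 : (∑ ψ ∈ Y, E ψ) ^ 2 ≤ 1 := by
    have h3 : (∑ ψ ∈ Y, E ψ) ^ 2 ≤ (Y.card : ℝ) * ∑ ψ ∈ Y, E ψ ^ 2 := by
      have := sum_mul_sq_le_sq_mul_sq Y (fun _ => (1 : ℝ)) E
      simpa using this
    have h4 : (Y.card : ℝ) * ∑ ψ ∈ Y, E ψ ^ 2 ≤ (4 * 4 ^ k) * (1 / 4 : ℝ) ^ (3 * k + 3) :=
      mul_le_mul hYc hE (sum_nonneg fun _ _ => sq_nonneg _) (by positivity)
    have h5 : (4 * 4 ^ k) * (1 / 4 : ℝ) ^ (3 * k + 3) ≤ 1 := by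
      have e1 : (4 * 4 ^ k) * (1 / 4 : ℝ) ^ (3 * k + 3) = (1 / 4 : ℝ) ^ (2 * k + 2) := by
        have e2 : (1 / 4 : ℝ) ^ (3 * k + 3) = (1 / 4 : ℝ) ^ (k + 1) * (1 / 4) ^ (2 * k + 2) := by
          rw [← pow_add]
          congr 1
          omega
        have e3 : (4 * 4 ^ k : ℝ) * (1 / 4 : ℝ) ^ (k + 1) = 1 := by
          rw [show (4 * 4 ^ k : ℝ) = 4 ^ (k + 1) by rw [pow_succ]; ring, ← mul_pow]
          norm_num
        rw [e2, ← mul_assoc, e3, one_mul]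
      rw [e1]
      exact pow_le_one₀ (by norm_num) (by norm_num)
    linarith
  have h6 : ∑ ψ ∈ Y, E ψ ≤ 1 := by
    by_contra hc'
    push Not at hc'
    nlinarith
  have h7 : C * ((3 * k + 3 : ℕ) : ℝ) ^ D = C * 3 ^ D * ((k : ℝ) + 1) ^ D := by
    have : ((3 * k + 3 : ℕ) : ℝ) = 3 * ((k : ℝ) + 1) := by
      push_cast
      ring
    rw [this, mul_pow]
    ring
  rw [h7] at hM
  have h8 : (1 : ℝ) ≤ ((k : ℝ) + 1) ^ D := one_le_pow₀ (by have : (0 : ℝ) ≤ k := Nat.cast_nonneg k; linarith)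
  calc ∑ ψ ∈ Y, sNf X T (v X) ψ ≤ C * 3 ^ D * ((k : ℝ) + 1) ^ D + 1 := by linarith
    _ ≤ C * 3 ^ D * ((k : ℝ) + 1) ^ D + 1 * ((k : ℝ) + 1) ^ D := by linarith
    _ = (C * 3 ^ D + 1) * ((k : ℝ) + 1) ^ D := by ring

/-- the family of one set of moduli is small -/
theorem fam_card (C c : ℝ) (X : ℕ) (T δ : ℝ) (w : ℕ → ℝ) (R : ℝ) (hδ : 0 < δ)
    (hS : ∀ Y : Finset PC, (∀ ψ ∈ Y, IsPC ψ ∧ 2 ≤ ψ.1 ∧ (ψ.1 : ℝ) ≤ R) →
      (Y.card : ℝ) ≤ (X : ℝ) ^ c → ∑ ψ ∈ Y, sNf X T w ψ ^ 2 ≤ C)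
    (hbig : C / δ ^ 2 + 1 < (X : ℝ) ^ c) (Y : Finset PC)
    (hY : ∀ ψ ∈ Y, IsPC ψ ∧ 2 ≤ ψ.1 ∧ (ψ.1 : ℝ) ≤ R) (hδY : ∀ ψ ∈ Y, δ ≤ sNf X T w ψ) :
    (Y.card : ℝ) ≤ C / δ ^ 2 := by
  classical
  have key : ∀ Y' : Finset PC, Y' ⊆ Y → (Y'.card : ℝ) ≤ (X : ℝ) ^ c →
      (Y'.card : ℝ) ≤ C / δ ^ 2 := by
    intro Y' hsub hc'
    have h1 := hS Y' (fun ψ hψ => hY ψ (hsub hψ)) hc'
    have h2 : (Y'.card : ℝ) * δ ^ 2 ≤ ∑ ψ ∈ Y', sNf X T w ψ ^ 2 := by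
      rw [← nsmul_eq_mul]
      refine card_nsmul_le_sum _ _ _ fun ψ h => ?_
      exact pow_le_pow_left₀ hδ.le (hδY ψ (hsub h)) 2
    rw [le_div_iff₀ (by positivity)]
    linarith
  by_cases hcard : (Y.card : ℝ) ≤ (X : ℝ) ^ c
  · exact key Y subset_rfl hcard
  · exfalso
    push Not at hcard
    have hX0 : (0 : ℝ) ≤ (X : ℝ) ^ c := by positivity
    obtain ⟨Y', hY', hc'⟩ := exists_subset_card_eq
      (show ⌊(X : ℝ) ^ c⌋₊ ≤ Y.card from Nat.floor_le_of_le hcard.le)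
    have h3 : (Y'.card : ℝ) ≤ (X : ℝ) ^ c := by
      rw [hc']
      exact Nat.floor_le hX0
    have h4 := key Y' hY' h3
    have h5 : (X : ℝ) ^ c - 1 < (Y'.card : ℝ) := by
      rw [hc']
      exact Nat.sub_one_lt_floor _
    linarith

end Pool.MP_dd84fd_nt.BY
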