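import Mathlib

/-!
The sum over the pairs of characters in dyadic levels, abstract form (helper23). `w i j` is the weight of the pair,
`h i j` the number `h0`, `s i` and `t j` the norms of the two functions. On the level `2^k < h ≤ 2^(k+1)` the norm
`t` is at most `M k + E k` with `M k` bounded in `l¹` and `E k` small in `l²`; `s` is bounded in `l¹` over the
partners of each `j`. Pairs with `h ≤ 2^k0`: `t j` is at most `lam` (otherwise the pair is excluded).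
-/

set_option autoImplicit false

namespace Pool.MP_dd84fd_nt.BY

open Finset

open Classical in
/-- the indicator of a proposition -/
noncomputable def ii (p : Prop) : ℝ := if p then 1 else 0

theorem ii_pos {p : Prop} (h : p) : ii p = 1 := if_pos h

theorem ii_neg {p : Prop} (h : ¬ p) : ii p = 0 := if_neg h

theorem ii_nonneg (p : Prop) : 0 ≤ ii p := by
  unfold ii
  split_ifs <;> norm_num

open Classical in
/-- Cauchy-Schwarz over a set of pairs with at most `P` partners on both sides -/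
theorem schur_pairs {ι κ : Type*} (Y1 : Finset ι) (Y2 : Finset κ) (R : ι → κ → Prop)
    (s : ι → ℝ) (e : κ → ℝ) (P C3 Ce : ℝ) (hP : 0 ≤ P)
    (hsq : ∑ i ∈ Y1, s i ^ 2 ≤ C3) (heq : ∑ j ∈ Y2, e j ^ 2 ≤ Ce)
    (hp1 : ∀ i ∈ Y1, ((Y2.filter (fun j => R i j)).card : ℝ) ≤ P)
    (hp2 : ∀ j ∈ Y2, ((Y1.filter (fun i => R i j)).card : ℝ) ≤ P) :
    ∑ i ∈ Y1, ∑ j ∈ Y2, ii (R i j) * (s i * e j) ≤ P * Real.sqrt (C3 * Ce) := by
  set Q : Finset (ι × κ) := (Y1 ×ˢ Y2).filter (fun x => R x.1 x.2) with hQ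
  have e0 : ∑ i ∈ Y1, ∑ j ∈ Y2, ii (R i j) * (s i * e j) =
      ∑ x ∈ Q, s x.1 * e x.2 := by
    rw [hQ, sum_filter, sum_product]
    apply sum_congr rfl
    intro i _
    apply sum_congr rfl
    intro j _
    by_cases c : R i j
    · rw [ii_pos c, if_pos c, one_mul]
    · rw [ii_neg c, if_neg c, zero_mul]
  have e1 : ∑ x ∈ Q, s x.1 ^ 2 ≤ P * C3 := by
    rw [hQ, sum_filter, sum_product]
    calc ∑ i ∈ Y1, ∑ j ∈ Y2, (if R i j then s i ^ 2 else 0)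
        = ∑ i ∈ Y1, ((Y2.filter (fun j => R i j)).card : ℝ) * s i ^ 2 := by
          apply sum_congr rfl
          intro i _
          rw [← sum_filter, sum_const, nsmul_eq_mul]
      _ ≤ ∑ i ∈ Y1, P * s i ^ 2 := sum_le_sum fun i hi =>
          mul_le_mul_of_nonneg_right (hp1 i hi) (sq_nonneg _)
      _ = P * ∑ i ∈ Y1, s i ^ 2 := by rw [mul_sum]
      _ ≤ P * C3 := mul_le_mul_of_nonneg_left hsq hP
  have e2 : ∑ x ∈ Q, e x.2 ^ 2 ≤ P * Ce := by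
    calc ∑ x ∈ Q, e x.2 ^ 2 = ∑ j ∈ Y2, ((Y1.filter (fun i => R i j)).card : ℝ) * e j ^ 2 := by
          rw [hQ, sum_filter, sum_product_right]
          apply sum_congr rfl
          intro j _
          rw [← sum_filter]
          change ∑ _i ∈ Y1.filter (fun i => R i j), e j ^ 2 = _
          rw [sum_const, nsmul_eq_mul]
      _ ≤ ∑ j ∈ Y2, P * e j ^ 2 := sum_le_sum fun j hj =>
          mul_le_mul_of_nonneg_right (hp2 j hj) (sq_nonneg _)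
      _ = P * ∑ j ∈ Y2, e j ^ 2 := by rw [← mul_sum]
      _ ≤ P * Ce := mul_le_mul_of_nonneg_left heq hP
  rw [e0]
  have e3 := sum_mul_sq_le_sq_mul_sq Q (fun x => s x.1) (fun x => e x.2)
  have e4 : (∑ x ∈ Q, s x.1 * e x.2) ^ 2 ≤ P ^ 2 * (C3 * Ce) := by
    refine e3.trans ?_
    have h0 : 0 ≤ ∑ x ∈ Q, e x.2 ^ 2 := sum_nonneg fun _ _ => sq_nonneg _
    have h1 : 0 ≤ P * C3 := le_trans (sum_nonneg fun _ _ => sq_nonneg _) e1
    calc (∑ x ∈ Q, s x.1 ^ 2) * ∑ x ∈ Q, e x.2 ^ 2 ≤ (P * C3) * (P * Ce) := mul_le_mul e1 e2 h0 h1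
      _ = P ^ 2 * (C3 * Ce) := by ring
  calc ∑ x ∈ Q, s x.1 * e x.2 ≤ Real.sqrt (P ^ 2 * (C3 * Ce)) := Real.le_sqrt_of_sq_le e4
    _ = P * Real.sqrt (C3 * Ce) := by rw [Real.sqrt_mul (by positivity), Real.sqrt_sq hP]

open Classical in
/-- the sum over a set of pairs: `l¹` over the partners times `l¹` -/
theorem l1_pairs {ι κ : Type*} (Y1 : Finset ι) (Y2 : Finset κ) (R : ι → κ → Prop)
    (s : ι → ℝ) (m : κ → ℝ) (Cs Cm : ℝ) (hCs : 0 ≤ Cs) (hm : ∀ j ∈ Y2, 0 ≤ m j)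
    (hrel : ∀ j ∈ Y2, ∑ i ∈ Y1.filter (fun i => R i j), s i ≤ Cs) (hms : ∑ j ∈ Y2, m j ≤ Cm) :
    ∑ i ∈ Y1, ∑ j ∈ Y2, ii (R i j) * (s i * m j) ≤ Cs * Cm := by
  rw [sum_comm]
  calc ∑ j ∈ Y2, ∑ i ∈ Y1, ii (R i j) * (s i * m j)
        = ∑ j ∈ Y2, m j * ∑ i ∈ Y1.filter (fun i => R i j), s i := by
          apply sum_congr rfl
          intro j _
          rw [sum_filter, mul_sum]
          apply sum_congr rfl
          intro i _
          by_cases c : R i j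
          · rw [ii_pos c, if_pos c, one_mul, mul_comm]
          · rw [ii_neg c, if_neg c, zero_mul, mul_zero]
      _ ≤ ∑ j ∈ Y2, m j * Cs := sum_le_sum fun j hj => mul_le_mul_of_nonneg_left (hrel j hj) (hm j hj)
      _ = Cs * ∑ j ∈ Y2, m j := by rw [← sum_mul, mul_comm]
      _ ≤ Cs * Cm := mul_le_mul_of_nonneg_left hms hCs

open Classical in
theorem pairs_lev {ι κ : Type*} (Y1 : Finset ι) (Y2 : Finset κ) (w : ι → κ → ℝ) (h : ι → κ → ℕ)
    (s : ι → ℝ) (t : κ → ℝ) (A C3 Cl lam P0 : ℝ) (k0 k1 : ℕ) (M E : ℕ → κ → ℝ)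
    (Cs Cm Ce P : ℕ → ℝ) (hA : 0 ≤ A) (hP0 : 0 ≤ P0) (hs : ∀ i ∈ Y1, 0 ≤ s i) (ht : ∀ j ∈ Y2, 0 ≤ t j)
    (hw : ∀ i ∈ Y1, ∀ j ∈ Y2, w i j ≤ A * (h i j : ℝ) ^ (-(1 / 4 : ℝ)))
    (hh : ∀ i ∈ Y1, ∀ j ∈ Y2, w i j ≠ 0 → h i j ≤ 2 ^ (k1 + 1))
    (hP : ∀ k ∈ Icc k0 k1, 0 ≤ P k) (hCs : ∀ k ∈ Icc k0 k1, 0 ≤ Cs k)
    (hM : ∀ k ∈ Icc k0 k1, ∀ j ∈ Y2, 0 ≤ M k j)
    (hME : ∀ k ∈ Icc k0 k1, ∀ j ∈ Y2, t j ≤ M k j + E k j)
    (hMs : ∀ k ∈ Icc k0 k1, ∑ j ∈ Y2, M k j ≤ Cm k)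
    (hEs : ∀ k ∈ Icc k0 k1, ∑ j ∈ Y2, E k j ^ 2 ≤ Ce k)
    (hrel : ∀ k ∈ Icc k0 k1, ∀ j ∈ Y2,
      ∑ i ∈ Y1.filter (fun i => w i j ≠ 0 ∧ 2 ^ k < h i j ∧ h i j ≤ 2 ^ (k + 1)), s i ≤ Cs k)
    (hsq : ∑ i ∈ Y1, s i ^ 2 ≤ C3)
    (hp1 : ∀ k ∈ Icc k0 k1, ∀ i ∈ Y1,
      ((Y2.filter (fun j => w i j ≠ 0 ∧ 2 ^ k < h i j ∧ h i j ≤ 2 ^ (k + 1))).card : ℝ) ≤ P k)
    (hp2 : ∀ k ∈ Icc k0 k1, ∀ j ∈ Y2,
      ((Y1.filter (fun i => w i j ≠ 0 ∧ 2 ^ k < h i j ∧ h i j ≤ 2 ^ (k + 1))).card : ℝ) ≤ P k)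
    (hlight : ∀ i ∈ Y1, ∀ j ∈ Y2, w i j ≠ 0 → h i j ≤ 2 ^ k0 → t j ≤ lam)
    (hlt : ∑ j ∈ Y2.filter (fun j => t j ≤ lam), t j ^ 2 ≤ Cl)
    (hq1 : ∀ i ∈ Y1, ((Y2.filter (fun j => w i j ≠ 0 ∧ h i j ≤ 2 ^ k0)).card : ℝ) ≤ P0)
    (hq2 : ∀ j ∈ Y2, ((Y1.filter (fun i => w i j ≠ 0 ∧ h i j ≤ 2 ^ k0)).card : ℝ) ≤ P0) :
    ∑ i ∈ Y1, ∑ j ∈ Y2, w i j * (s i * t j) ≤
      A * (∑ k ∈ Icc k0 k1, (2 : ℝ) ^ (-((k : ℝ) / 4)) * (Cs k * Cm k + P k * Real.sqrt (C3 * Ce k)) +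
        P0 * Real.sqrt (C3 * Cl)) := by
  set R : ℕ → ι → κ → Prop := fun k i j => w i j ≠ 0 ∧ 2 ^ k < h i j ∧ h i j ≤ 2 ^ (k + 1) with hR
  set R0 : ι → κ → Prop := fun i j => w i j ≠ 0 ∧ h i j ≤ 2 ^ k0 with hR0
  -- pointwise
  have key : ∀ i ∈ Y1, ∀ j ∈ Y2, w i j ≤ A * (∑ k ∈ Icc k0 k1, (2 : ℝ) ^ (-((k : ℝ) / 4)) *
      ii (R k i j) + ii (R0 i j)) := by
    intro i hi j hj
    have hnn : ∀ k ∈ Icc k0 k1, 0 ≤ (2 : ℝ) ^ (-((k : ℝ) / 4)) * ii (R k i j) :=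
      fun k _ => mul_nonneg (by positivity) (ii_nonneg _)
    have hnn0 : (0 : ℝ) ≤ ii (R0 i j) := ii_nonneg _
    by_cases c1 : w i j = 0
    · have h0 := mul_nonneg hA (add_nonneg (sum_nonneg hnn) hnn0)
      linarith
    · have h2 := hw i hi j hj
      refine h2.trans (mul_le_mul_of_nonneg_left ?_ hA)
      by_cases c2 : h i j ≤ 2 ^ k0
      · have h3 : R0 i j := ⟨c1, c2⟩
        rw [ii_pos h3]
        have h1 : (h i j : ℝ) ^ (-(1 / 4 : ℝ)) ≤ 1 := by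
          rcases Nat.eq_zero_or_pos (h i j) with h0 | h0
          · rw [h0, Nat.cast_zero, Real.zero_rpow (by norm_num)]
            norm_num
          · exact Real.rpow_le_one_of_one_le_of_nonpos (by exact_mod_cast h0) (by norm_num)
        linarith [sum_nonneg hnn]
      · push Not at c2
        have h3 := hh i hi j hj c1
        -- the level
        obtain ⟨k, hk1, hk2⟩ : ∃ k, 2 ^ k < h i j ∧ h i j ≤ 2 ^ (k + 1) := by
          have hex : ∃ m, h i j ≤ 2 ^ m := ⟨k1 + 1, h3⟩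
          have hm := Nat.find_spec hex
          have hm0 : Nat.find hex ≠ 0 := by
            intro h0
            rw [h0] at hm
            have : 1 ≤ 2 ^ k0 := Nat.one_le_two_pow
            omega
          refine ⟨Nat.find hex - 1, ?_, ?_⟩
          · exact not_le.1 (Nat.find_min hex (by omega))
          · rw [Nat.sub_add_cancel (by omega)]
            exact hm
        have hk0 : k0 ≤ k := by
          by_contra hc
          push Not at hc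
          have : 2 ^ (k + 1) ≤ 2 ^ k0 := Nat.pow_le_pow_right (by norm_num) hc
          omega
        have hkk : k ≤ k1 := by
          by_contra hc
          push Not at hc
          have : 2 ^ (k1 + 1) ≤ 2 ^ k := Nat.pow_le_pow_right (by norm_num) hc
          omega
        have hkm : k ∈ Icc k0 k1 := mem_Icc.2 ⟨hk0, hkk⟩
        have h4 := single_le_sum hnn hkm
        have h5 : R k i j := ⟨c1, hk1, hk2⟩
        rw [ii_pos h5, mul_one] at h4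
        have h6 : (h i j : ℝ) ^ (-(1 / 4 : ℝ)) ≤ (2 : ℝ) ^ (-((k : ℝ) / 4)) := by
          have h7 : (2 : ℝ) ^ (-((k : ℝ) / 4)) = ((2 : ℝ) ^ k) ^ (-(1 / 4 : ℝ)) := by
            rw [← Real.rpow_natCast 2 k, ← Real.rpow_mul (by norm_num)]
            congr 1
            ring
          rw [h7]
          exact Real.rpow_le_rpow_of_nonpos (by positivity) (by exact_mod_cast hk1.le) (by norm_num)
        linarith
  -- one level
  have lev : ∀ k ∈ Icc k0 k1, ∑ i ∈ Y1, ∑ j ∈ Y2, ii (R k i j) * (s i * t j) ≤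
      Cs k * Cm k + P k * Real.sqrt (C3 * Ce k) := by
    intro k hk
    have a1 := l1_pairs Y1 Y2 (R k) s (M k) (Cs k) (Cm k) (hCs k hk) (hM k hk)
      (fun j hj => by simpa only [hR] using hrel k hk j hj) (hMs k hk)
    have a2 := schur_pairs Y1 Y2 (R k) s (E k) (P k) C3 (Ce k) (hP k hk) hsq (hEs k hk)
      (fun i hi => by simpa only [hR] using hp1 k hk i hi)
      (fun j hj => by simpa only [hR] using hp2 k hk j hj)
    have a3 : ∑ i ∈ Y1, ∑ j ∈ Y2, ii (R k i j) * (s i * t j) ≤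
        ∑ i ∈ Y1, ∑ j ∈ Y2, ii (R k i j) * (s i * M k j) +
        ∑ i ∈ Y1, ∑ j ∈ Y2, ii (R k i j) * (s i * E k j) := by
      rw [← sum_add_distrib]
      refine sum_le_sum fun i hi => ?_
      rw [← sum_add_distrib]
      refine sum_le_sum fun j hj => ?_
      have b1 := mul_le_mul_of_nonneg_left (hME k hk j hj) (hs i hi)
      have b2 : (0 : ℝ) ≤ ii (R k i j) := ii_nonneg _
      rw [← mul_add, ← mul_add]
      exact mul_le_mul_of_nonneg_left b1 b2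
    linarith
  -- the low part
  have low : ∑ i ∈ Y1, ∑ j ∈ Y2, ii (R0 i j) * (s i * t j) ≤
      P0 * Real.sqrt (C3 * Cl) := by
    have a1 : ∑ i ∈ Y1, ∑ j ∈ Y2, ii (R0 i j) * (s i * t j) =
        ∑ i ∈ Y1, ∑ j ∈ Y2, ii (R0 i j) *
          (s i * (if t j ≤ lam then t j else 0)) := by
      refine sum_congr rfl fun i hi => sum_congr rfl fun j hj => ?_
      by_cases c : R0 i j
      · rw [if_pos (hlight i hi j hj c.1 c.2)]
      · rw [ii_neg c, zero_mul, zero_mul]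
    rw [a1]
    refine schur_pairs Y1 Y2 R0 s _ P0 C3 Cl hP0 hsq ?_
      (fun i hi => by simpa only [hR0] using hq1 i hi)
      (fun j hj => by simpa only [hR0] using hq2 j hj)
    refine le_trans (le_of_eq ?_) hlt
    rw [sum_filter]
    refine sum_congr rfl fun j _ => ?_
    split_ifs <;> simp
  calc ∑ i ∈ Y1, ∑ j ∈ Y2, w i j * (s i * t j)
      ≤ ∑ i ∈ Y1, ∑ j ∈ Y2, A * (∑ k ∈ Icc k0 k1, (2 : ℝ) ^ (-((k : ℝ) / 4)) *
          ii (R k i j) + ii (R0 i j)) * (s i * t j) :=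
        sum_le_sum fun i hi => sum_le_sum fun j hj =>
          mul_le_mul_of_nonneg_right (key i hi j hj) (mul_nonneg (hs i hi) (ht j hj))
    _ = A * (∑ k ∈ Icc k0 k1, (2 : ℝ) ^ (-((k : ℝ) / 4)) *
          (∑ i ∈ Y1, ∑ j ∈ Y2, ii (R k i j) * (s i * t j)) +
          ∑ i ∈ Y1, ∑ j ∈ Y2, ii (R0 i j) * (s i * t j)) := by
        have b1 : ∀ k : ℕ, (2 : ℝ) ^ (-((k : ℝ) / 4)) *
            (∑ i ∈ Y1, ∑ j ∈ Y2, ii (R k i j) * (s i * t j)) =
            ∑ i ∈ Y1, ∑ j ∈ Y2, (2 : ℝ) ^ (-((k : ℝ) / 4)) *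
              ii (R k i j) * (s i * t j) := by
          intro k
          rw [mul_sum]
          refine sum_congr rfl fun i _ => ?_
          rw [mul_sum]
          exact sum_congr rfl fun j _ => by ring
        have b2 : ∑ k ∈ Icc k0 k1, (2 : ℝ) ^ (-((k : ℝ) / 4)) *
            (∑ i ∈ Y1, ∑ j ∈ Y2, ii (R k i j) * (s i * t j)) =
            ∑ i ∈ Y1, ∑ j ∈ Y2, (∑ k ∈ Icc k0 k1, (2 : ℝ) ^ (-((k : ℝ) / 4)) *
              ii (R k i j)) * (s i * t j) := by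
          simp_rw [b1]
          rw [sum_comm]
          refine sum_congr rfl fun i _ => ?_
          rw [sum_comm]
          exact sum_congr rfl fun j _ => by rw [sum_mul]
        rw [b2, ← sum_add_distrib, mul_sum]
        refine sum_congr rfl fun i _ => ?_
        rw [← sum_add_distrib, mul_sum]
        exact sum_congr rfl fun j _ => by ring
    _ ≤ A * (∑ k ∈ Icc k0 k1, (2 : ℝ) ^ (-((k : ℝ) / 4)) *
          (Cs k * Cm k + P k * Real.sqrt (C3 * Ce k)) + P0 * Real.sqrt (C3 * Cl)) := by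
        refine mul_le_mul_of_nonneg_left (add_le_add (sum_le_sum fun k hk => ?_) low) hA
        exact mul_le_mul_of_nonneg_left (lev k hk) (by positivity)

/-- the light part: `∑_{t ≤ lam} t² ≤ lam ∑ M + (∑ t²)^(1/2) (∑ E²)^(1/2)` -/
theorem light_sq {κ : Type*} (Y : Finset κ) (t M E : κ → ℝ) (lam CM Ct CE : ℝ)
    (ht : ∀ j ∈ Y, 0 ≤ t j) (hM : ∀ j ∈ Y, 0 ≤ M j) (hME : ∀ j ∈ Y, t j ≤ M j + E j)
    (hlam : 0 ≤ lam) (hMs : ∑ j ∈ Y, M j ≤ CM) (hts : ∑ j ∈ Y, t j ^ 2 ≤ Ct)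
    (hEs : ∑ j ∈ Y, E j ^ 2 ≤ CE) :
    ∑ j ∈ Y.filter (fun j => t j ≤ lam), t j ^ 2 ≤ lam * CM + Real.sqrt (Ct * CE) := by
  have hsub : Y.filter (fun j => t j ≤ lam) ⊆ Y := filter_subset _ _
  have h1 : ∑ j ∈ Y.filter (fun j => t j ≤ lam), t j ^ 2 ≤
      ∑ j ∈ Y.filter (fun j => t j ≤ lam), (lam * M j + t j * E j) := by
    refine sum_le_sum fun j hj => ?_
    rw [mem_filter] at hj
    have h2 := hME j hj.1
    have h3 := ht j hj.1
    have h4 := hM j hj.1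
    nlinarith [mul_le_mul_of_nonneg_right hj.2 h4, mul_le_mul_of_nonneg_left h2 h3]
  refine h1.trans ?_
  rw [sum_add_distrib, ← mul_sum]
  refine add_le_add ?_ ?_
  · refine mul_le_mul_of_nonneg_left (le_trans ?_ hMs) hlam
    exact sum_le_sum_of_subset_of_nonneg hsub fun j hj _ => hM j hj
  · have h5 := sum_mul_sq_le_sq_mul_sq (Y.filter (fun j => t j ≤ lam)) t E
    have h6 : ∑ j ∈ Y.filter (fun j => t j ≤ lam), t j ^ 2 ≤ Ct :=
      le_trans (sum_le_sum_of_subset_of_nonneg hsub fun j _ _ => sq_nonneg _) hts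
    have h7 : ∑ j ∈ Y.filter (fun j => t j ≤ lam), E j ^ 2 ≤ CE :=
      le_trans (sum_le_sum_of_subset_of_nonneg hsub fun j _ _ => sq_nonneg _) hEs
    refine Real.le_sqrt_of_sq_le (h5.trans ?_)
    exact mul_le_mul h6 h7 (sum_nonneg fun _ _ => sq_nonneg _)
      (le_trans (sum_nonneg fun _ _ => sq_nonneg _) h6)

/-- the sum over the levels for `Cs k * Cm k = C1 (k+1)^a`, `P k = 4 * 4^k`, `Ce k = 64^(-k)` -/
theorem lev_sum (a : ℕ) (C1 C3 : ℝ) (hC1 : 0 ≤ C1) :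
    ∃ C' : ℝ, 0 < C' ∧ ∀ k0 k1 : ℕ, ∑ k ∈ Icc k0 k1, (2 : ℝ) ^ (-((k : ℝ) / 4)) *
      (C1 * ((k : ℝ) + 1) ^ a + 4 * 4 ^ k * Real.sqrt (C3 * (1 / 64) ^ k)) ≤
        C' * (2 : ℝ) ^ (-((k0 : ℝ) / 8)) := by
  set r : ℝ := (2 : ℝ) ^ (1 / 8 : ℝ) with hr
  have hr1 : 1 < r := Real.one_lt_rpow (by norm_num) (by norm_num)
  have hr0 : 0 < r := by linarith
  have hrk : ∀ k : ℕ, (2 : ℝ) ^ (-((k : ℝ) / 8)) = (1 / r) ^ k := by
    intro k
    rw [one_div, inv_pow, hr, ← Real.rpow_natCast, ← Real.rpow_mul (by norm_num),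
      ← Real.rpow_neg (by norm_num)]
    congr 1
    ring
  have htend := tendsto_pow_const_div_const_pow_of_one_lt a hr1
  obtain ⟨K, hK⟩ := htend.bddAbove_range
  have hK' : ∀ n : ℕ, ((n : ℝ)) ^ a ≤ K * r ^ n := by
    intro n
    have h1 : ((n : ℝ)) ^ a / r ^ n ≤ K := hK ⟨n, rfl⟩
    rwa [div_le_iff₀ (by positivity)] at h1
  have hK0 : 0 ≤ K := by
    have h1 := hK' 1
    rw [Nat.cast_one, one_pow, pow_one] at h1
    by_contra hc
    push Not at hc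
    nlinarith
  set D : ℝ := (C1 + 4 * Real.sqrt C3) * (K * r) with hD
  have hD0 : 0 ≤ D := by positivity
  have hx : 1 / r < 1 := (div_lt_one hr0).2 hr1
  refine ⟨D * (1 - 1 / r)⁻¹ + 1, by
    have : 0 < 1 - 1 / r := by linarith
    positivity, fun k0 k1 => ?_⟩
  have hterm : ∀ k ∈ Icc k0 k1, (2 : ℝ) ^ (-((k : ℝ) / 4)) *
      (C1 * ((k : ℝ) + 1) ^ a + 4 * 4 ^ k * Real.sqrt (C3 * (1 / 64) ^ k)) ≤ D * (1 / r) ^ k := by
    intro k _
    have h1 : 4 * (4 : ℝ) ^ k * Real.sqrt (C3 * (1 / 64) ^ k) ≤ 4 * Real.sqrt C3 := by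
      have h2 : Real.sqrt (C3 * (1 / 64) ^ k) = Real.sqrt C3 * (1 / 8) ^ k := by
        rw [Real.sqrt_mul' _ (by positivity)]
        congr 1
        rw [show (1 / 64 : ℝ) ^ k = ((1 / 8 : ℝ) ^ k) ^ 2 by rw [← pow_mul, mul_comm, pow_mul]; norm_num]
        exact Real.sqrt_sq (by positivity)
      rw [h2]
      have h3 : 4 * (4 : ℝ) ^ k * (Real.sqrt C3 * (1 / 8) ^ k) =
          4 * Real.sqrt C3 * (1 / 2) ^ k := by
        rw [show (1 / 2 : ℝ) ^ k = 4 ^ k * (1 / 8) ^ k by rw [← mul_pow]; norm_num]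
        ring
      rw [h3]
      have h4 : (1 / 2 : ℝ) ^ k ≤ 1 := pow_le_one₀ (by norm_num) (by norm_num)
      have h5 : 0 ≤ 4 * Real.sqrt C3 := by positivity
      nlinarith
    have h6 : (1 : ℝ) ≤ ((k : ℝ) + 1) ^ a := one_le_pow₀ (by linarith [Nat.cast_nonneg (α := ℝ) k])
    have h7 : C1 * ((k : ℝ) + 1) ^ a + 4 * 4 ^ k * Real.sqrt (C3 * (1 / 64) ^ k) ≤
        (C1 + 4 * Real.sqrt C3) * ((k : ℝ) + 1) ^ a := by
      have h8 : 4 * Real.sqrt C3 ≤ 4 * Real.sqrt C3 * ((k : ℝ) + 1) ^ a :=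
        le_mul_of_one_le_right (by positivity) h6
      linarith
    have h9 : ((k : ℝ) + 1) ^ a ≤ K * r * r ^ k := by
      have := hK' (k + 1)
      push_cast at this
      rw [pow_succ] at this
      linarith
    have h10 : (2 : ℝ) ^ (-((k : ℝ) / 4)) = (1 / r) ^ k * (1 / r) ^ k := by
      rw [← hrk k, ← Real.rpow_add (by norm_num)]
      congr 1
      ring
    calc (2 : ℝ) ^ (-((k : ℝ) / 4)) *
          (C1 * ((k : ℝ) + 1) ^ a + 4 * 4 ^ k * Real.sqrt (C3 * (1 / 64) ^ k))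
        ≤ (1 / r) ^ k * (1 / r) ^ k * ((C1 + 4 * Real.sqrt C3) * (K * r * r ^ k)) := by
          rw [h10]
          refine mul_le_mul_of_nonneg_left (h7.trans ?_) (by positivity)
          exact mul_le_mul_of_nonneg_left h9 (by positivity)
      _ = D * (1 / r) ^ k * ((1 / r) ^ k * r ^ k) := by rw [hD]; ring
      _ = D * (1 / r) ^ k := by
          rw [← mul_pow, one_div, inv_mul_cancel₀ hr0.ne', one_pow, mul_one]
  refine (sum_le_sum hterm).trans ?_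
  rw [← mul_sum, hrk k0]
  have hgeo : ∑ k ∈ Icc k0 k1, (1 / r) ^ k ≤ (1 / r) ^ k0 * (1 - 1 / r)⁻¹ := by
    have h1 : ∑ k ∈ Icc k0 k1, (1 / r) ^ k ≤ ∑ m ∈ range (k1 + 1), (1 / r) ^ (k0 + m) := by
      have h2 : ∑ m ∈ range (k1 + 1), (1 / r) ^ (k0 + m) =
          ∑ k ∈ (range (k1 + 1)).map (addLeftEmbedding k0), (1 / r) ^ k := by
        rw [sum_map]
        rfl
      rw [h2]
      refine sum_le_sum_of_subset_of_nonneg ?_ fun _ _ _ => by positivity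
      intro k hk
      rw [mem_Icc] at hk
      rw [mem_map]
      refine ⟨k - k0, mem_range.2 (by omega), ?_⟩
      simp only [addLeftEmbedding_apply]
      omega
    refine h1.trans ?_
    have h3 : ∑ m ∈ range (k1 + 1), (1 / r) ^ (k0 + m) =
        (1 / r) ^ k0 * ∑ m ∈ range (k1 + 1), (1 / r) ^ m := by
      rw [mul_sum]
      exact sum_congr rfl fun m _ => pow_add _ _ _
    rw [h3]
    refine mul_le_mul_of_nonneg_left ?_ (by positivity)
    have h4 := hasSum_geometric_of_lt_one (by positivity : (0 : ℝ) ≤ 1 / r) hx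
    exact sum_le_hasSum _ (fun _ _ => by positivity) h4
  calc D * ∑ k ∈ Icc k0 k1, (1 / r) ^ k ≤ D * ((1 / r) ^ k0 * (1 - 1 / r)⁻¹) :=
        mul_le_mul_of_nonneg_left hgeo hD0
    _ ≤ (D * (1 - 1 / r)⁻¹ + 1) * (1 / r) ^ k0 := by
        have : 0 ≤ (1 / r) ^ k0 := by positivity
        nlinarith

end Pool.MP_dd84fd_nt.BY
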