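import Pool.Agent.Lib.MP_dd84fd_nt.BY.Ay2
import Pool.Agent.Lib.MP_dd84fd_nt.BY.PairsLev
import Pool.Agent.Lib.MP_dd84fd_nt.BX.As6

/-!
# BY-Ay3: the sum over the pairs of primitive characters for two functions
-/

set_option autoImplicit false

namespace Pool.MP_dd84fd_nt.BY

open Finset Pool.MP_67663b_nt.Odd Pool.MP_dd84fd_nt.En Pool.MP_dd84fd_nt.E2 Pool.MP_dd84fd_nt.LS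
open Pool.MP_dd84fd_nt.GX Pool.MP_dd84fd_nt.HX Pool.MP_dd84fd_nt.IX
open Pool.MP_dd84fd_nt.PL (rr)
open Pool.MP_dd84fd_nt.JX (wP gP DecJ)
open Pool.MP_dd84fd_nt.LXP (tq)
open Pool.MP_dd84fd_nt.BX (PC pv IsPC PFam prc ind h0 cP cf Rm as_ee_cont as_ee_norm as_ee_add as_cs
  ind_prc prc_inj isPC_prc cf_nonneg ParBD h0_comm cP_comm as_h0_pos div_gcd_dvd div_h0)

/-- the hypothesis on the Gauss sums with its constant -/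
def GauC (C4 : ℝ) : Prop := ∀ n : ℕ, 1 ≤ n → ∀ ψ₁ ψ₂ : PC, IsPC ψ₁ → IsPC ψ₂ →
  ∀ QQ : Finset ℕ, (∀ q ∈ QQ, 1 ≤ q ∧ ψ₁.1 ∣ q ∧ ψ₂.1 ∣ q) →
    ∑ q ∈ QQ, cf q n (ind q ψ₁) (ind q ψ₂) ≤
      C4 * ((n : ℝ) / (Nat.totient n : ℝ)) * (h0 n ψ₁ ψ₂ : ℝ) ^ (-(1 / 4 : ℝ)) ∧
    (¬ cP ψ₁ ψ₂ ∣ h0 n ψ₁ ψ₂ → ∀ q ∈ QQ, cf q n (ind q ψ₁) (ind q ψ₂) = 0)

/-- the conductor of the product with the trivial character -/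
theorem cP_one (ψ₁ ψ₂ : PC) (h1 : ψ₁.1 = 1) (h2 : IsPC ψ₂) : cP ψ₁ ψ₂ = ψ₂.1 := by
  obtain ⟨r₁, χ₁⟩ := ψ₁
  obtain ⟨r₂, χ₂⟩ := ψ₂
  simp only at h1
  subst h1
  have hχ : χ₁ = 1 := Subsingleton.elim _ _
  subst hχ
  unfold BX.cP
  have hl : Nat.lcm 1 r₂ = r₂ := Nat.lcm_one_left r₂
  have e1 : ∀ m : ℕ, ind m ⟨1, (1 : DirichletCharacter ℂ 1)⟩ = 1 := by
    intro m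
    unfold BX.ind
    rw [dif_pos (one_dvd m)]
    exact map_one _
  simp only [e1, one_mul]
  rw [hl]
  unfold BX.ind
  rw [dif_pos (dvd_refl r₂), DirichletCharacter.changeLevel_self]
  exact h2.2

/-- `h₀` divides `q / (q, n)` -/
theorem h0_dvd (n q : ℕ) (hn : 1 ≤ n) (ψ₁ ψ₂ : PC) (h1 : ψ₁.1 ∣ q) (h2 : ψ₂.1 ∣ q) :
    h0 n ψ₁ ψ₂ ∣ q / Nat.gcd q n :=
  div_gcd_dvd _ _ n hn (Nat.lcm_dvd h1 h2)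

/-- `h₀ ≤ L^K1` -/
theorem h0_le (n q : ℕ) (hn : 1 ≤ n) (hq : 1 ≤ q) (B : ℝ) (hqB : (q : ℝ) ≤ B * (Nat.gcd q n : ℝ))
    (ψ₁ ψ₂ : PC) (h1 : ψ₁.1 ∣ q) (h2 : ψ₂.1 ∣ q) : (h0 n ψ₁ ψ₂ : ℝ) ≤ B := by
  have hg : 0 < Nat.gcd q n := Nat.gcd_pos_of_pos_left _ hq
  have hgr : (0 : ℝ) < (Nat.gcd q n : ℝ) := by exact_mod_cast hg
  have h3 : 0 < q / Nat.gcd q n := Nat.div_pos (Nat.le_of_dvd hq (Nat.gcd_dvd_left _ _)) hg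
  have h4 : h0 n ψ₁ ψ₂ ≤ q / Nat.gcd q n := Nat.le_of_dvd h3 (h0_dvd n q hn ψ₁ ψ₂ h1 h2)
  have h5 : ((q / Nat.gcd q n : ℕ) : ℝ) * (Nat.gcd q n : ℝ) = q := by
    exact_mod_cast Nat.div_mul_cancel (Nat.gcd_dvd_left q n)
  have h6 : ((q / Nat.gcd q n : ℕ) : ℝ) ≤ B := by
    by_contra hc
    push Not at hc
    have := mul_lt_mul_of_pos_right hc hgr
    rw [h5] at this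
    linarith
  have h7 : (h0 n ψ₁ ψ₂ : ℝ) ≤ ((q / Nat.gcd q n : ℕ) : ℝ) := by exact_mod_cast h4
  linarith

theorem wt_dvd {C4 : ℝ} (hG : GauC C4) (n : ℕ) (hn : 1 ≤ n) (QQ : Finset ℕ)
    (hQ : ∀ q ∈ QQ, 1 ≤ q) (ψ₁ ψ₂ : PC) (h1 : IsPC ψ₁) (h2 : IsPC ψ₂)
    (hne : BX.Wt QQ n ψ₁ ψ₂ ≠ 0) :
    cP ψ₁ ψ₂ ∣ h0 n ψ₁ ψ₂ ∧ ∃ q ∈ QQ, ψ₁.1 ∣ q ∧ ψ₂.1 ∣ q := by
  classical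
  have hfil : ∀ q ∈ QQ.filter (fun q => ψ₁.1 ∣ q ∧ ψ₂.1 ∣ q), 1 ≤ q ∧ ψ₁.1 ∣ q ∧ ψ₂.1 ∣ q := by
    intro q hq
    rw [mem_filter] at hq
    exact ⟨hQ q hq.1, hq.2.1, hq.2.2⟩
  constructor
  · by_contra hcon
    apply hne
    unfold BX.Wt
    exact sum_eq_zero ((hG n hn ψ₁ ψ₂ h1 h2 _ hfil).2 hcon)
  · by_contra hcon
    push Not at hcon
    apply hne
    unfold BX.Wt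
    rw [filter_eq_empty_iff.2, sum_empty]
    intro q hq hd
    exact hcon q hq hd.1 hd.2

theorem cf_dvd {C4 : ℝ} (hG : GauC C4) (n : ℕ) (hn : 1 ≤ n) (q : ℕ) (hq : 1 ≤ q)
    (χ₁ χ₂ : DirichletCharacter ℂ q) (hne : cf q n χ₁ χ₂ ≠ 0) :
    cP (prc χ₁) (prc χ₂) ∣ h0 n (prc χ₁) (prc χ₂) := by
  by_contra hcon
  apply hne
  have h := (hG n hn (prc χ₁) (prc χ₂) (isPC_prc hq χ₁) (isPC_prc hq χ₂) {q} (by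
    intro q' hq'
    rw [mem_singleton] at hq'
    subst hq'
    exact ⟨hq, χ₁.conductor_dvd_level, χ₂.conductor_dvd_level⟩)).2 hcon q (mem_singleton_self q)
  rwa [ind_prc, ind_prc] at h

open Classical in
/-- the abstract pairs bound -/
theorem pairs_lev2 (hP : ParBD) {C4 : ℝ} (hC4 : 0 < C4) (hG : GauC C4) (n : ℕ) (hn : 1 ≤ n)
    (QQ : Finset ℕ) (hQ : ∀ q ∈ QQ, 1 ≤ q) (B : ℝ)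
    (hQB : ∀ q ∈ QQ, (q : ℝ) ≤ B * (Nat.gcd q n : ℝ)) (k0 k1 : ℕ) (hk1 : B ≤ 2 ^ (k1 + 1))
    (hk1' : (2 : ℝ) ^ k1 ≤ B) (Y₁ Y₂ : Finset PC)
    (hY₁ : ∀ ψ ∈ Y₁, IsPC ψ) (hY₂ : ∀ ψ ∈ Y₂, IsPC ψ) (s t : PC → ℝ) (hs : ∀ ψ ∈ Y₁, 0 ≤ s ψ)
    (ht : ∀ ψ ∈ Y₂, 0 ≤ t ψ) (C3 Cl lam Ca Cb : ℝ) (Da Db : ℕ) (hCa : 0 ≤ Ca)
    (hME : ∀ k : ℕ, (2 : ℝ) ^ k ≤ B → ∃ M E : PC → ℝ,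
      (∀ ψ ∈ Y₂, 0 ≤ M ψ ∧ 0 ≤ E ψ ∧ t ψ ≤ M ψ + E ψ) ∧
      ∑ ψ ∈ Y₂, M ψ ≤ Cb * ((k : ℝ) + 1) ^ Db ∧ ∑ ψ ∈ Y₂, E ψ ^ 2 ≤ (1 / 64 : ℝ) ^ k)
    (hrel : ∀ k : ℕ, (2 : ℝ) ^ k ≤ B → ∀ ψ₂ ∈ Y₂, ∀ Y ⊆ Y₁,
      (∀ ψ ∈ Y, cP ψ ψ₂ ≤ 2 ^ (k + 1)) → (Y.card : ℝ) ≤ 4 * 4 ^ k →
      ∑ ψ ∈ Y, s ψ ≤ Ca * ((k : ℝ) + 1) ^ Da)
    (hsq : ∑ ψ ∈ Y₁, s ψ ^ 2 ≤ C3)
    (hlight : ∀ ψ₁ ∈ Y₁, ∀ ψ₂ ∈ Y₂, cP ψ₁ ψ₂ ∣ h0 n ψ₁ ψ₂ → h0 n ψ₁ ψ₂ ≤ 2 ^ k0 → t ψ₂ ≤ lam)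
    (hlt : ∑ ψ ∈ Y₂.filter (fun ψ => t ψ ≤ lam), t ψ ^ 2 ≤ Cl) :
    ∑ ψ₁ ∈ Y₁, ∑ ψ₂ ∈ Y₂, BX.Wt QQ n ψ₁ ψ₂ * (s ψ₁ * t ψ₂) ≤
      C4 * ((n : ℝ) / (Nat.totient n : ℝ)) *
        (∑ k ∈ Icc k0 k1, (2 : ℝ) ^ (-((k : ℝ) / 4)) *
          (Ca * Cb * ((k : ℝ) + 1) ^ (Da + Db) + 4 * 4 ^ k * Real.sqrt (C3 * (1 / 64) ^ k)) +
        4 ^ k0 * Real.sqrt (C3 * Cl)) := by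
  have hfil : ∀ ψ₁ ψ₂ : PC, ∀ q ∈ QQ.filter (fun q => ψ₁.1 ∣ q ∧ ψ₂.1 ∣ q),
      1 ≤ q ∧ ψ₁.1 ∣ q ∧ ψ₂.1 ∣ q := by
    intro ψ₁ ψ₂ q hq
    rw [mem_filter] at hq
    exact ⟨hQ q hq.1, hq.2.1, hq.2.2⟩
  have hkB : ∀ k ∈ Icc k0 k1, (2 : ℝ) ^ k ≤ B := by
    intro k hk
    rw [mem_Icc] at hk
    exact (pow_le_pow_right₀ (by norm_num) hk.2).trans hk1'
  choose! M E hME using hME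
  have hpar : ∀ (H : ℕ), ∀ ψ₂ ∈ Y₂, ∀ p : PC → Prop, (∀ ψ ∈ Y₁, p ψ → BX.Wt QQ n ψ ψ₂ ≠ 0 ∧
      h0 n ψ ψ₂ ≤ H) → (Y₁.filter p).card ≤ H ^ 2 := by
    intro H ψ₂ h2 p hp
    refine hP n H ψ₂ (hY₂ _ h2) _ fun ψ₁ h1 => ?_
    rw [mem_filter] at h1
    obtain ⟨g1, g2⟩ := hp ψ₁ h1.1 h1.2
    exact ⟨hY₁ _ h1.1, as_h0_pos n _ _ (hY₁ _ h1.1).1 (hY₂ _ h2).1,
      (wt_dvd hG n hn QQ hQ ψ₁ ψ₂ (hY₁ _ h1.1) (hY₂ _ h2) g1).1, g2⟩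
  have hpar' : ∀ (H : ℕ), ∀ ψ₁ ∈ Y₁, ∀ p : PC → Prop, (∀ ψ ∈ Y₂, p ψ → BX.Wt QQ n ψ₁ ψ ≠ 0 ∧
      h0 n ψ₁ ψ ≤ H) → (Y₂.filter p).card ≤ H ^ 2 := by
    intro H ψ₁ h1 p hp
    refine hP n H ψ₁ (hY₁ _ h1) _ fun ψ₂ h2 => ?_
    rw [mem_filter] at h2
    obtain ⟨g1, g2⟩ := hp ψ₂ h2.1 h2.2
    rw [h0_comm n ψ₂ ψ₁, cP_comm ψ₂ ψ₁]
    exact ⟨hY₂ _ h2.1, as_h0_pos n _ _ (hY₁ _ h1).1 (hY₂ _ h2.1).1,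
      (wt_dvd hG n hn QQ hQ ψ₁ ψ₂ (hY₁ _ h1) (hY₂ _ h2.1) g1).1, g2⟩
  have hpow : ∀ k : ℕ, (((2 ^ (k + 1)) ^ 2 : ℕ) : ℝ) = 4 * 4 ^ k := by
    intro k
    push_cast
    rw [← pow_mul, mul_comm (k + 1) 2, pow_mul]
    norm_num
    rw [pow_succ]
    ring
  have hpow0 : (((2 ^ k0) ^ 2 : ℕ) : ℝ) = 4 ^ k0 := by
    push_cast
    rw [← pow_mul, mul_comm k0 2, pow_mul]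
    norm_num
  have hA : ∀ k : ℕ, ∀ ψ₂ ∈ Y₂, ((Y₁.filter (fun i => BX.Wt QQ n i ψ₂ ≠ 0 ∧
      2 ^ k < h0 n i ψ₂ ∧ h0 n i ψ₂ ≤ 2 ^ (k + 1))).card : ℝ) ≤ 4 * 4 ^ k := by
    intro k ψ₂ h2
    have h3 := hpar (2 ^ (k + 1)) ψ₂ h2 (fun i => BX.Wt QQ n i ψ₂ ≠ 0 ∧
      2 ^ k < h0 n i ψ₂ ∧ h0 n i ψ₂ ≤ 2 ^ (k + 1)) (fun ψ _ hp => ⟨hp.1, hp.2.2⟩)
    rw [← hpow k]
    refine Nat.cast_le.2 ?_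
    convert h3
  have hB : ∀ k : ℕ, ∀ ψ₁ ∈ Y₁, ((Y₂.filter (fun j => BX.Wt QQ n ψ₁ j ≠ 0 ∧
      2 ^ k < h0 n ψ₁ j ∧ h0 n ψ₁ j ≤ 2 ^ (k + 1))).card : ℝ) ≤ 4 * 4 ^ k := by
    intro k ψ₁ h1
    have h3 := hpar' (2 ^ (k + 1)) ψ₁ h1 (fun j => BX.Wt QQ n ψ₁ j ≠ 0 ∧
      2 ^ k < h0 n ψ₁ j ∧ h0 n ψ₁ j ≤ 2 ^ (k + 1)) (fun ψ _ hp => ⟨hp.1, hp.2.2⟩)
    rw [← hpow k]
    refine Nat.cast_le.2 ?_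
    convert h3
  have hA0 : ∀ ψ₂ ∈ Y₂, ((Y₁.filter (fun i => BX.Wt QQ n i ψ₂ ≠ 0 ∧
      h0 n i ψ₂ ≤ 2 ^ k0)).card : ℝ) ≤ 4 ^ k0 := by
    intro ψ₂ h2
    have h3 := hpar (2 ^ k0) ψ₂ h2 (fun i => BX.Wt QQ n i ψ₂ ≠ 0 ∧ h0 n i ψ₂ ≤ 2 ^ k0)
      (fun ψ _ hp => hp)
    rw [← hpow0]
    refine Nat.cast_le.2 ?_
    convert h3
  have hB0 : ∀ ψ₁ ∈ Y₁, ((Y₂.filter (fun j => BX.Wt QQ n ψ₁ j ≠ 0 ∧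
      h0 n ψ₁ j ≤ 2 ^ k0)).card : ℝ) ≤ 4 ^ k0 := by
    intro ψ₁ h1
    have h3 := hpar' (2 ^ k0) ψ₁ h1 (fun j => BX.Wt QQ n ψ₁ j ≠ 0 ∧ h0 n ψ₁ j ≤ 2 ^ k0)
      (fun ψ _ hp => hp)
    rw [← hpow0]
    refine Nat.cast_le.2 ?_
    convert h3
  have main := pairs_lev Y₁ Y₂ (BX.Wt QQ n) (h0 n) s t
    (C4 * ((n : ℝ) / (Nat.totient n : ℝ))) C3 Cl lam (4 ^ k0) k0 k1 M E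
    (fun k => Ca * ((k : ℝ) + 1) ^ Da) (fun k => Cb * ((k : ℝ) + 1) ^ Db)
    (fun k => (1 / 64 : ℝ) ^ k) (fun k => 4 * 4 ^ k) (by positivity) (by positivity) hs ht
    (fun ψ₁ h1 ψ₂ h2 => (hG n hn ψ₁ ψ₂ (hY₁ _ h1) (hY₂ _ h2) _ (hfil ψ₁ ψ₂)).1)
    (fun ψ₁ h1 ψ₂ h2 hne => by
      obtain ⟨q, hq, hq1, hq2⟩ := (wt_dvd hG n hn QQ hQ ψ₁ ψ₂ (hY₁ _ h1) (hY₂ _ h2) hne).2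
      have h3 := (h0_le n q hn (hQ q hq) B (hQB q hq) ψ₁ ψ₂ hq1 hq2).trans hk1
      exact_mod_cast h3)
    (fun k _ => by positivity) (fun k _ => by positivity)
    (fun k hk ψ hψ => ((hME k (hkB k hk)).1 ψ hψ).1)
    (fun k hk ψ hψ => ((hME k (hkB k hk)).1 ψ hψ).2.2)
    (fun k hk => (hME k (hkB k hk)).2.1) (fun k hk => (hME k (hkB k hk)).2.2)
    (fun k hk ψ₂ h2 => by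
      refine hrel k (hkB k hk) ψ₂ h2 _ (filter_subset _ _) ?_ ?_
      · intro ψ hψ
        rw [mem_filter] at hψ
        have h3 := (wt_dvd hG n hn QQ hQ ψ ψ₂ (hY₁ _ hψ.1) (hY₂ _ h2) hψ.2.1).1
        exact (Nat.le_of_dvd (as_h0_pos n _ _ (hY₁ _ hψ.1).1 (hY₂ _ h2).1) h3).trans hψ.2.2.2
      · exact hA k ψ₂ h2)
    hsq
    (fun k _ ψ₁ h1 => hB k ψ₁ h1)
    (fun k _ ψ₂ h2 => hA k ψ₂ h2)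
    (fun ψ₁ h1 ψ₂ h2 hne hle =>
      hlight ψ₁ h1 ψ₂ h2 (wt_dvd hG n hn QQ hQ ψ₁ ψ₂ (hY₁ _ h1) (hY₂ _ h2) hne).1 hle)
    hlt
    hB0 hA0
  refine main.trans (le_of_eq ?_)
  congr 2
  refine sum_congr rfl fun k _ => ?_
  congr 1
  rw [pow_add]
  ring

end Pool.MP_dd84fd_nt.BY
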