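import Pool.Agent.Lib.MP_dd84fd_nt.BY.Ay3

/-!
# BY-Ay4: one `n` and one family of moduli, two functions
-/

set_option autoImplicit false

namespace Pool.MP_dd84fd_nt.BY

open Finset Pool.MP_67663b_nt.Odd Pool.MP_dd84fd_nt.En Pool.MP_dd84fd_nt.E2 Pool.MP_dd84fd_nt.LS
open Pool.MP_dd84fd_nt.GX Pool.MP_dd84fd_nt.HX Pool.MP_dd84fd_nt.IX
open Pool.MP_dd84fd_nt.PL (rr)
open Pool.MP_dd84fd_nt.JX (wP gP DecJ)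
open Pool.MP_dd84fd_nt.LXP (tq)
open Pool.MP_dd84fd_nt.BX (PC pv IsPC PFam prc ind h0 cP cf Rm as_ee_cont as_ee_norm as_ee_add as_cs
  ind_prc prc_inj isPC_prc cf_nonneg ParBD h0_comm cP_comm as_h0_pos div_gcd_dvd div_h0 PR mem_PR DD'
  mem_DD' card_DD')

open Classical in
/-- the heavy primitive characters with conductor in `(Z, R]` -/
noncomputable def Hvf (X : ℕ) (T : ℝ) (w : ℕ → ℝ) (Z R κ : ℝ) : Finset PC :=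
  (PR ⌊R⌋₊).filter (fun ψ => Z < (ψ.1 : ℝ) ∧ (ψ.1 : ℝ) ≤ R ∧ κ ≤ sNf X T w ψ)

theorem mem_Hvf {X : ℕ} {T : ℝ} {w : ℕ → ℝ} {Z R κ : ℝ} {ψ : PC} :
    ψ ∈ Hvf X T w Z R κ ↔ IsPC ψ ∧ Z < (ψ.1 : ℝ) ∧ (ψ.1 : ℝ) ≤ R ∧ κ ≤ sNf X T w ψ := by
  classical
  unfold Hvf
  rw [mem_filter, mem_PR]
  constructor
  · rintro ⟨⟨_, h2⟩, h3, h4, h5⟩
    exact ⟨h2, h3, h4, h5⟩
  · rintro ⟨h2, h3, h4, h5⟩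
    exact ⟨⟨Nat.le_floor h4, h2⟩, h3, h4, h5⟩

open Classical in
/-- the primitive characters of the second function -/
noncomputable def Fam2 (X : ℕ) (T Z : ℝ) (A' : ℕ) (w₂ : ℕ → ℝ) (QQ : Finset ℕ) : Finset PC :=
  QQ.biUnion (fun q => (YQf X T Z A' w₂ q).image prc)

open Classical in
/-- the primitive characters of the first function -/
noncomputable def Fam1 (X n : ℕ) (T Z : ℝ) (A' : ℕ) (w₂ : ℕ → ℝ) (QQ : Finset ℕ) : Finset PC :=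
  QQ.biUnion (fun q => ((allC q).filter
    (fun χ₁ => ∃ χ₂ ∈ YQf X T Z A' w₂ q, cf q n χ₁ χ₂ ≠ 0)).image prc)

theorem mem_Fam2 {X : ℕ} {T Z : ℝ} {A' : ℕ} {w₂ : ℕ → ℝ} {QQ : Finset ℕ} {ψ : PC} :
    ψ ∈ Fam2 X T Z A' w₂ QQ ↔ ∃ q ∈ QQ, ∃ χ ∈ YQf X T Z A' w₂ q, prc χ = ψ := by
  classical
  unfold Fam2
  rw [mem_biUnion]
  constructor
  · rintro ⟨q, hq, h⟩
    obtain ⟨χ, hχ, rfl⟩ := mem_image.1 h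
    exact ⟨q, hq, χ, hχ, rfl⟩
  · rintro ⟨q, hq, χ, hχ, rfl⟩
    exact ⟨q, hq, mem_image_of_mem _ hχ⟩

theorem mem_Fam1 {X n : ℕ} {T Z : ℝ} {A' : ℕ} {w₂ : ℕ → ℝ} {QQ : Finset ℕ} {ψ : PC} :
    ψ ∈ Fam1 X n T Z A' w₂ QQ ↔ ∃ q ∈ QQ, ∃ χ₁ ∈ allC q, (∃ χ₂ ∈ YQf X T Z A' w₂ q,
      cf q n χ₁ χ₂ ≠ 0) ∧ prc χ₁ = ψ := by
  classical
  unfold Fam1
  rw [mem_biUnion]
  constructor
  · rintro ⟨q, hq, h⟩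
    obtain ⟨χ, hχ, rfl⟩ := mem_image.1 h
    rw [mem_filter] at hχ
    exact ⟨q, hq, χ, hχ.1, hχ.2, rfl⟩
  · rintro ⟨q, hq, χ, hχ, h2, rfl⟩
    refine ⟨q, hq, mem_image_of_mem _ ?_⟩
    rw [mem_filter]
    exact ⟨hχ, h2⟩

theorem mem_YQf {X : ℕ} {T Z : ℝ} {A' : ℕ} {w : ℕ → ℝ} {q : ℕ} {χ : DirichletCharacter ℂ q} :
    χ ∈ YQf X T Z A' w q ↔ χ ∈ allC q ∧ Z < (χ.conductor : ℝ) ∧
      1 / (Real.log X) ^ A' < sNf X T w ⟨q, χ⟩ := by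
  classical
  unfold YQf
  rw [mem_filter]

/-- facts about the two families -/
theorem fam_facts {C4 : ℝ} (hP : ParBD) (hG : GauC C4) (X n K1 A' : ℕ) (hn : 1 ≤ n) (T Z R : ℝ)
    (hK1 : 0 < (Real.log X) ^ K1) (hZ : (Real.log X) ^ K1 ≤ Z) (hZ1 : 1 ≤ Z) (w₂ : ℕ → ℝ)
    (QQ : Finset ℕ) (N : ℝ)
    (hQ : ∀ q ∈ QQ, 1 ≤ q ∧ (q : ℝ) ≤ (Real.log X) ^ K1 * (Nat.gcd q n : ℝ))
    (hN : ∀ q ∈ QQ, ∀ q' ∈ QQ, (Nat.lcm q q' : ℝ) ≤ N) (hNR : N ≤ R) :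
    (PFam (Fam2 X T Z A' w₂ QQ) R ∧ (∀ ψ ∈ Fam2 X T Z A' w₂ QQ, Z < (ψ.1 : ℝ))) ∧
    (PFam (Fam1 X n T Z A' w₂ QQ) R ∧ (∀ ψ ∈ Fam1 X n T Z A' w₂ QQ, 2 ≤ ψ.1)) ∧
    ((Fam1 X n T Z A' w₂ QQ).card : ℝ) ≤
      (Fam2 X T Z A' w₂ QQ).card * ((Real.log X) ^ K1) ^ 2 := by
  classical
  have hlcm : ∀ (r r' q q' : ℕ), q ∈ QQ → q' ∈ QQ → r ∣ q → r' ∣ q' → (Nat.lcm r r' : ℝ) ≤ R := by
    intro r r' q q' hq hq' h1 h1'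
    have h2 : Nat.lcm r r' ∣ Nat.lcm q q' :=
      Nat.lcm_dvd (h1.trans (Nat.dvd_lcm_left _ _)) (h1'.trans (Nat.dvd_lcm_right _ _))
    have h3 : 0 < Nat.lcm q q' := Nat.lcm_pos (hQ q hq).1 (hQ q' hq').1
    have h4 : Nat.lcm r r' ≤ Nat.lcm q q' := Nat.le_of_dvd h3 h2
    have h5 : (Nat.lcm r r' : ℝ) ≤ (Nat.lcm q q' : ℝ) := by exact_mod_cast h4
    exact h5.trans ((hN q hq q' hq').trans hNR)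
  have f2 : ∀ ψ ∈ Fam2 X T Z A' w₂ QQ, IsPC ψ ∧ Z < (ψ.1 : ℝ) ∧ ∃ q ∈ QQ, ψ.1 ∣ q := by
    intro ψ hψ
    obtain ⟨q, hq, χ, hχ, rfl⟩ := mem_Fam2.1 hψ
    exact ⟨isPC_prc (hQ q hq).1 χ, (mem_YQf.1 hχ).2.1, q, hq, χ.conductor_dvd_level⟩
  have f1 : ∀ ψ ∈ Fam1 X n T Z A' w₂ QQ, IsPC ψ ∧ (∃ q ∈ QQ, ψ.1 ∣ q) ∧
      ∃ ψ₂ ∈ Fam2 X T Z A' w₂ QQ, cP ψ ψ₂ ∣ h0 n ψ ψ₂ ∧
        (h0 n ψ ψ₂ : ℝ) ≤ (Real.log X) ^ K1 := by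
    intro ψ hψ
    obtain ⟨q, hq, χ₁, _, ⟨χ₂, hχ₂, hne⟩, rfl⟩ := mem_Fam1.1 hψ
    refine ⟨isPC_prc (hQ q hq).1 χ₁, ⟨q, hq, χ₁.conductor_dvd_level⟩, prc χ₂,
      mem_Fam2.2 ⟨q, hq, χ₂, hχ₂, rfl⟩, cf_dvd hG n hn q (hQ q hq).1 χ₁ χ₂ hne, ?_⟩
    exact h0_le n q hn (hQ q hq).1 _ (hQ q hq).2 _ _ χ₁.conductor_dvd_level
      χ₂.conductor_dvd_level
  refine ⟨⟨⟨fun ψ hψ => (f2 ψ hψ).1, fun ψ hψ ψ' hψ' => ?_⟩, fun ψ hψ => (f2 ψ hψ).2.1⟩,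
    ⟨⟨fun ψ hψ => (f1 ψ hψ).1, fun ψ hψ ψ' hψ' => ?_⟩, fun ψ hψ => ?_⟩, ?_⟩
  · obtain ⟨q, hq, h1⟩ := (f2 ψ hψ).2.2
    obtain ⟨q', hq', h1'⟩ := (f2 ψ' hψ').2.2
    exact hlcm _ _ q q' hq hq' h1 h1'
  · obtain ⟨q, hq, h1⟩ := (f1 ψ hψ).2.1
    obtain ⟨q', hq', h1'⟩ := (f1 ψ' hψ').2.1
    exact hlcm _ _ q q' hq hq' h1 h1'
  · obtain ⟨g1, _, ψ₂, hψ₂, g2, g3⟩ := f1 ψ hψ
    by_contra hcon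
    have h1 : ψ.1 = 1 := by
      have := g1.1
      omega
    have hpc2 := (f2 ψ₂ hψ₂).1
    rw [cP_one ψ ψ₂ h1 hpc2] at g2
    have h2 : ψ₂.1 ≤ h0 n ψ ψ₂ := Nat.le_of_dvd (as_h0_pos n _ _ g1.1 hpc2.1) g2
    have h3 : (ψ₂.1 : ℝ) ≤ (h0 n ψ ψ₂ : ℝ) := by exact_mod_cast h2
    have h4 := (f2 ψ₂ hψ₂).2.1
    linarith
  · obtain ⟨HK, hHK⟩ : ∃ HK : ℕ, HK = ⌊(Real.log X) ^ K1⌋₊ := ⟨_, rfl⟩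
    have hHK' : (HK : ℝ) ≤ (Real.log X) ^ K1 := by
      rw [hHK]
      exact Nat.floor_le hK1.le
    have hsub : Fam1 X n T Z A' w₂ QQ ⊆ (Fam2 X T Z A' w₂ QQ).biUnion
        (fun ψ₂ => (Fam1 X n T Z A' w₂ QQ).filter
          (fun ψ => cP ψ ψ₂ ∣ h0 n ψ ψ₂ ∧ h0 n ψ ψ₂ ≤ HK)) := by
      intro ψ hψ
      obtain ⟨_, _, ψ₂, hψ₂, g2, g3⟩ := f1 ψ hψ
      rw [mem_biUnion]
      refine ⟨ψ₂, hψ₂, ?_⟩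
      rw [mem_filter]
      refine ⟨hψ, g2, ?_⟩
      rw [hHK]
      exact Nat.le_floor g3
    have hcard : (Fam1 X n T Z A' w₂ QQ).card ≤ (Fam2 X T Z A' w₂ QQ).card * HK ^ 2 := by
      refine (card_le_card hsub).trans (card_biUnion_le_card_mul _ _ _ fun ψ₂ h2 => ?_)
      refine hP n HK ψ₂ (f2 ψ₂ h2).1 _ fun ψ h1 => ?_
      rw [mem_filter] at h1
      exact ⟨(f1 ψ h1.1).1, as_h0_pos n _ _ (f1 ψ h1.1).1.1 (f2 ψ₂ h2).1.1, h1.2.1, h1.2.2⟩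
    calc ((Fam1 X n T Z A' w₂ QQ).card : ℝ)
        ≤ (((Fam2 X T Z A' w₂ QQ).card * HK ^ 2 : ℕ) : ℝ) := by exact_mod_cast hcard
      _ = (Fam2 X T Z A' w₂ QQ).card * (HK : ℝ) ^ 2 := by push_cast; ring
      _ ≤ (Fam2 X T Z A' w₂ QQ).card * ((Real.log X) ^ K1) ^ 2 := by gcongr

end Pool.MP_dd84fd_nt.BY
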