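import Pool.Agent.Lib.MP_dd84fd_nt.BY.Ay4

/-!
# BY-Ay5: one `n` and one family of moduli, two functions: the bound
-/

set_option autoImplicit false

namespace Pool.MP_dd84fd_nt.BY

open Finset Pool.MP_67663b_nt.Odd Pool.MP_dd84fd_nt.En Pool.MP_dd84fd_nt.E2 Pool.MP_dd84fd_nt.LS
open Pool.MP_dd84fd_nt.GX Pool.MP_dd84fd_nt.HX Pool.MP_dd84fd_nt.IX
open Pool.MP_dd84fd_nt.PL (rr)
open Pool.MP_dd84fd_nt.JX (wP gP DecJ)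
open Pool.MP_dd84fd_nt.LXP (tq)
open Pool.MP_dd84fd_nt.BX (PC pv IsPC PFam prc ind h0 cP cf Rm as_ee_cont as_ee_norm as_ee_add as_cs
  ind_prc prc_inj isPC_prc cf_nonneg ParBD h0_comm cP_comm as_h0_pos div_gcd_dvd div_h0 PR mem_PR DD'
  mem_DD' card_DD')

/-- the hypotheses on the norms at one scale -/
structure NormY (X : ℕ) (T R c : ℝ) (K1 A' A2 : ℕ) (w₁ w₂ : ℕ → ℝ) (Cm Cr Cq : ℝ) (Dm Dr : ℕ) :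
    Prop where
  sl : ∀ Y : Finset PC, PFam Y R → (∀ ψ ∈ Y, 2 ≤ ψ.1) → (Y.card : ℝ) ≤ (X : ℝ) ^ c →
    ∀ J : ℕ, 1 ≤ J → (2 : ℝ) ^ J ≤ (Real.log X) ^ (3 * K1 + 3) → ∃ M E : PC → ℝ,
      (∀ ψ ∈ Y, 0 ≤ M ψ ∧ 0 ≤ E ψ ∧ sNf X T w₂ ψ ≤ M ψ + E ψ) ∧
      ∑ ψ ∈ Y, M ψ ≤ Cm * (J : ℝ) ^ Dm ∧ ∑ ψ ∈ Y, E ψ ^ 2 ≤ (1 / 4 : ℝ) ^ J
  rel : ∀ ψ₂ : PC, IsPC ψ₂ → (ψ₂.1 : ℝ) ≤ R → ∀ k : ℕ, (2 : ℝ) ^ k ≤ (Real.log X) ^ K1 →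
    ∀ Y : Finset PC, PFam Y R → (∀ ψ ∈ Y, 2 ≤ ψ.1 ∧ cP ψ ψ₂ ≤ 2 ^ (k + 1)) →
    (Y.card : ℝ) ≤ 4 * 4 ^ k → ∑ ψ ∈ Y, sNf X T w₁ ψ ≤ Cr * ((k : ℝ) + 1) ^ Dr
  sq1 : ∀ Y : Finset PC, (∀ ψ ∈ Y, IsPC ψ ∧ 2 ≤ ψ.1 ∧ (ψ.1 : ℝ) ≤ R) →
    (Y.card : ℝ) ≤ (X : ℝ) ^ c → ∑ ψ ∈ Y, sNf X T w₁ ψ ^ 2 ≤ Cq
  sq2 : ∀ Y : Finset PC, (∀ ψ ∈ Y, IsPC ψ ∧ 2 ≤ ψ.1 ∧ (ψ.1 : ℝ) ≤ R) →
    (Y.card : ℝ) ≤ (X : ℝ) ^ c → ∑ ψ ∈ Y, sNf X T w₂ ψ ^ 2 ≤ Cq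
  pr1 : ∀ q : ℕ, 1 ≤ q → q ≤ X → ∀ χ : DirichletCharacter ℂ q,
    sNf X T w₁ ⟨q, χ⟩ ≤ sNf X T w₁ (prc χ) + 1 / (Real.log X) ^ A2
  pr2 : ∀ q : ℕ, 1 ≤ q → q ≤ X → ∀ χ : DirichletCharacter ℂ q,
    sNf X T w₂ ⟨q, χ⟩ ≤ sNf X T w₂ (prc χ) + 1 / (Real.log X) ^ (A' + 1)
  big1 : Cq / (1 / (2 * (Real.log X) ^ A')) ^ 2 + 1 < (X : ℝ) ^ c
  big2 : Cq / (1 / (2 * (Real.log X) ^ A')) ^ 2 * ((Real.log X) ^ K1) ^ 2 ≤ (X : ℝ) ^ c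
  big3 : Cq / (1 / (2 * (Real.log X) ^ A')) ^ 2 * ((Real.log X) ^ K1) ^ 2 ≤ (Real.log X) ^ A2

/-- the constant of the light characters -/
noncomputable def Cl0 (κ Cm Cq : ℝ) (Dm J0 : ℕ) : ℝ :=
  2 * κ * (2 * (Cm * (J0 : ℝ) ^ Dm)) + Real.sqrt (4 * Cq * (4 * (1 / 4 : ℝ) ^ J0))

open Classical in
/-- one `n` and one family of moduli -/
theorem one_famY (hP : ParBD) {C4 : ℝ} (hC4 : 0 < C4) (hG : GauC C4)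
    (X n K1 A' A2 k0 k1 J0 : ℕ) (hX : 2 ≤ X) (hn : 1 ≤ n) (T Z R c κ : ℝ) (w₁ w₂ : ℕ → ℝ)
    (Cm Cr Cq : ℝ) (Dm Dr : ℕ) (hCr : 0 ≤ Cr) (hκ : 0 < κ)
    (hL2 : 2 ≤ Real.log (X : ℝ))
    (hZ : (Real.log X) ^ K1 ≤ Z) (hZ1 : 1 ≤ Z)
    (hk1 : (Real.log X) ^ K1 ≤ 2 ^ (k1 + 1)) (hk1' : (2 : ℝ) ^ k1 ≤ (Real.log X) ^ K1)
    (hJ0 : 1 ≤ J0) (hJ0' : (2 : ℝ) ^ J0 ≤ (Real.log X) ^ (3 * K1 + 3))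
    (hNm : NormY X T R c K1 A' A2 w₁ w₂ Cm Cr Cq Dm Dr) (hRX : R ≤ X)
    (hD : ∀ d ∈ DD' (Hvf X T w₂ Z R κ) (2 ^ k0), ¬ d ∣ n)
    (QQ : Finset ℕ) (N : ℝ)
    (hQ : ∀ q ∈ QQ, 1 ≤ q ∧ (q : ℝ) ≤ (Real.log X) ^ K1 * (Nat.gcd q n : ℝ))
    (hN : ∀ q ∈ QQ, ∀ q' ∈ QQ, (Nat.lcm q q' : ℝ) ≤ N) (hNR : N ≤ R)
    (ρ : ℕ → ℝ) (hρ : ∀ q ∈ QQ, 0 ≤ ρ q ∧ ρ q ≤ T) :
    ∑ q ∈ QQ, ‖∑ a ∈ rr q, ∫ x in (-(ρ q / X))..(ρ q / X),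
        VQf X w₁ q (allC q) a x * VQf X w₂ q (YQf X T Z A' w₂ q) a x *
          ee (-((n : ℝ) * ((a : ℝ) / q + x)))‖ ≤
      (X : ℝ) / (Real.log X) ^ 2 * (C4 * ((n : ℝ) / (Nat.totient n : ℝ)) *
        (∑ k ∈ Icc k0 k1, (2 : ℝ) ^ (-((k : ℝ) / 4)) *
          ((Cr + 1) * (2 * Cm * 3 ^ Dm) * ((k : ℝ) + 1) ^ (Dr + Dm) +
            4 * 4 ^ k * Real.sqrt ((2 * Cq + 2) * (1 / 64) ^ k)) +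
          4 ^ k0 * Real.sqrt ((2 * Cq + 2) * Cl0 κ Cm Cq Dm J0))) := by
  have hL0 : 0 < Real.log (X : ℝ) := by linarith
  obtain ⟨L, hLdef⟩ : ∃ L : ℝ, L = Real.log (X : ℝ) := ⟨_, rfl⟩
  have hX0 : (0 : ℝ) < X := by exact_mod_cast (by omega : 0 < X)
  obtain ⟨h_sl, h_rel, h_sq1, h_sq2, h_pr1, h_pr2, h_big1, h_big2, h_big3⟩ := hNm
  have hfac := fam_facts hP hG X n K1 A' hn T Z R (by positivity) hZ hZ1 w₂ QQ N hQ hN hNR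
  rw [← hLdef] at hL2 hL0 hZ hk1 hk1' hJ0' hQ h_sl h_rel h_pr1 h_pr2 h_big1 h_big2 h_big3 hfac ⊢
  obtain ⟨Y₁, hY₁⟩ : ∃ Y₁ : Finset PC, Y₁ = Fam1 X n T Z A' w₂ QQ := ⟨_, rfl⟩
  obtain ⟨Y₂, hY₂⟩ : ∃ Y₂ : Finset PC, Y₂ = Fam2 X T Z A' w₂ QQ := ⟨_, rfl⟩
  rw [← hY₁, ← hY₂] at hfac
  obtain ⟨⟨hf2, hf2Z⟩, ⟨hf1, hf1Z⟩, hcard12⟩ := hfac
  -- facts about the moduli
  have hqR : ∀ q ∈ QQ, (q : ℝ) ≤ R := by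
    intro q hq
    have := hN q hq q hq
    rw [Nat.lcm_self] at this
    exact this.trans hNR
  have hqX : ∀ q ∈ QQ, q ≤ X := by
    intro q hq
    exact_mod_cast (hqR q hq).trans hRX
  have hYQ : ∀ q ∈ QQ, ∀ χ ∈ YQf X T Z A' w₂ q, Z < (χ.conductor : ℝ) ∧
      1 / L ^ A' < sNf X T w₂ ⟨q, χ⟩ := by
    intro q hq χ hχ
    have := (mem_YQf.1 hχ).2
    rw [← hLdef] at this
    exact this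
  have hdouble : ∀ q ∈ QQ, ∀ χ ∈ YQf X T Z A' w₂ q,
      sNf X T w₂ ⟨q, χ⟩ ≤ 2 * sNf X T w₂ (prc χ) := by
    intro q hq χ hχ
    have h1 := h_pr2 q (hQ q hq).1 (hqX q hq) χ
    have h2 := (hYQ q hq χ hχ).2
    have h3 : 1 / L ^ (A' + 1) ≤ (1 / L ^ A') / 2 := by
      rw [pow_succ, ← one_div_mul_one_div, div_eq_mul_one_div (1 / L ^ A') 2]
      refine mul_le_mul_of_nonneg_left ?_ (by positivity)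
      exact one_div_le_one_div_of_le (by norm_num) hL2
    linarith
  have hY₂2 : ∀ ψ ∈ Y₂, IsPC ψ ∧ 2 ≤ ψ.1 ∧ (ψ.1 : ℝ) ≤ R := by
    intro ψ hψ
    refine ⟨hf2.1 ψ hψ, ?_, pfam_le hf2 hψ⟩
    have h1 : (1 : ℝ) < ψ.1 := lt_of_le_of_lt hZ1 (hf2Z ψ hψ)
    exact_mod_cast h1
  have hY₁2 : ∀ ψ ∈ Y₁, IsPC ψ ∧ 2 ≤ ψ.1 ∧ (ψ.1 : ℝ) ≤ R := fun ψ hψ =>
    ⟨hf1.1 ψ hψ, hf1Z ψ hψ, pfam_le hf1 hψ⟩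
  have hYδ : ∀ ψ ∈ Y₂, 1 / (2 * L ^ A') ≤ sNf X T w₂ ψ := by
    intro ψ hψ
    rw [hY₂] at hψ
    obtain ⟨q, hq, χ, hχ, rfl⟩ := mem_Fam2.1 hψ
    have h1 := hdouble q hq χ hχ
    have h2 := (hYQ q hq χ hχ).2
    have h3 : 1 / (2 * L ^ A') = (1 / L ^ A') / 2 := by field_simp
    rw [h3]
    linarith
  have hc2 : (Y₂.card : ℝ) ≤ Cq / (1 / (2 * L ^ A')) ^ 2 :=
    fam_card Cq c X T (1 / (2 * L ^ A')) w₂ R (by positivity) h_sq2 h_big1 Y₂ hY₂2 hYδ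
  have hc2' : (Y₂.card : ℝ) ≤ (X : ℝ) ^ c := by linarith
  have hc1 : (Y₁.card : ℝ) ≤ Cq / (1 / (2 * L ^ A')) ^ 2 * (L ^ K1) ^ 2 :=
    hcard12.trans (mul_le_mul_of_nonneg_right hc2 (by positivity))
  have hc1' : (Y₁.card : ℝ) ≤ (X : ℝ) ^ c := hc1.trans h_big2
  obtain ⟨δ, hδ⟩ : ∃ δ : ℝ, δ = 1 / L ^ A2 := ⟨_, rfl⟩
  have hδ0 : 0 ≤ δ := by rw [hδ]; positivity
  have hδ1 : δ ≤ 1 := by
    rw [hδ]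
    have h1 : (1 : ℝ) ≤ L ^ A2 := one_le_pow₀ (by linarith)
    rw [div_le_one (by positivity)]
    exact h1
  have hcδ : (Y₁.card : ℝ) * δ ≤ 1 := by
    rw [hδ, mul_one_div, div_le_one (by positivity)]
    exact hc1.trans h_big3
  have hs0 : ∀ (w : ℕ → ℝ) (ψ : PC), 0 ≤ sNf X T w ψ := fun w ψ => sNf_nonneg X T w ψ
  -- first step: pairs of characters modulo q
  have step1 : ∑ q ∈ QQ, ‖∑ a ∈ rr q, ∫ x in (-(ρ q / X))..(ρ q / X),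
        VQf X w₁ q (allC q) a x * VQf X w₂ q (YQf X T Z A' w₂ q) a x *
          ee (-((n : ℝ) * ((a : ℝ) / q + x)))‖ ≤
      (X : ℝ) / L ^ 2 * ∑ q ∈ QQ, ∑ χ₁ ∈ allC q, ∑ χ₂ ∈ YQf X T Z A' w₂ q,
        cf q n χ₁ χ₂ * (sNf X T w₁ ⟨q, χ₁⟩ * sNf X T w₂ ⟨q, χ₂⟩) := by
    rw [mul_sum]
    refine sum_le_sum fun q hq => ?_
    refine (vqf_pairs X q n T (ρ q) hX (hQ q hq).1 (hρ q hq).1 (hρ q hq).2 w₁ w₂ _ _).trans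
      (le_of_eq ?_)
    rw [mul_sum]
    refine sum_congr rfl fun χ₁ _ => ?_
    rw [mul_sum]
    refine sum_congr rfl fun χ₂ _ => ?_
    rw [← hLdef]
    ring
  refine step1.trans (mul_le_mul_of_nonneg_left ?_ (by positivity))
  -- second step: primitive characters
  have step2 := pairs_prim2 QQ n (fun q => allC q) (fun q => YQf X T Z A' w₂ q) Y₁ Y₂
    (fun q hq χ₁ h1 χ₂ h2 hne => by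
      rw [hY₁]
      exact mem_Fam1.2 ⟨q, hq, χ₁, h1, ⟨χ₂, h2, hne⟩, rfl⟩)
    (fun q hq χ hχ => by
      rw [hY₂]
      exact mem_Fam2.2 ⟨q, hq, χ, hχ, rfl⟩)
    (fun ψ => sNf X T w₁ ψ + δ) (fun ψ => 2 * sNf X T w₂ ψ)
    (fun ψ => add_nonneg (hs0 _ _) hδ0) (fun ψ => mul_nonneg (by norm_num) (hs0 _ _))
    (fun q χ => sNf X T w₁ ⟨q, χ⟩) (fun q χ => sNf X T w₂ ⟨q, χ⟩)
    (fun q hq χ _ => ⟨hs0 _ _, by rw [hδ]; exact h_pr1 q (hQ q hq).1 (hqX q hq) χ⟩)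
    (fun q hq χ hχ => ⟨hs0 _ _, hdouble q hq χ hχ⟩)
  refine step2.trans ?_
  refine pairs_lev2 hP hC4 hG n hn QQ (fun q hq => (hQ q hq).1) (L ^ K1)
    (fun q hq => (hQ q hq).2) k0 k1 hk1 hk1' Y₁ Y₂ (fun ψ h => (hY₁2 ψ h).1)
    (fun ψ h => (hY₂2 ψ h).1) (fun ψ => sNf X T w₁ ψ + δ) (fun ψ => 2 * sNf X T w₂ ψ)
    (fun ψ _ => add_nonneg (hs0 _ _) hδ0) (fun ψ _ => mul_nonneg (by norm_num) (hs0 _ _))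
    (2 * Cq + 2) (Cl0 κ Cm Cq Dm J0) (2 * κ) (Cr + 1) (2 * Cm * 3 ^ Dm) Dr Dm (by linarith)
    ?_ ?_ ?_ ?_ ?_
  · -- levels
    intro k hk
    have hJ : (2 : ℝ) ^ (3 * k + 3) ≤ L ^ (3 * K1 + 3) := by
      calc (2 : ℝ) ^ (3 * k + 3) = ((2 : ℝ) ^ k) ^ 3 * 2 ^ 3 := by
            rw [pow_add, ← pow_mul, mul_comm 3 k]
        _ ≤ (L ^ K1) ^ 3 * L ^ 3 := by gcongr
        _ = L ^ (3 * K1 + 3) := by rw [pow_add, ← pow_mul, mul_comm 3 K1]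
    obtain ⟨M, E, hME, hM, hE⟩ := h_sl Y₂ hf2 (fun ψ hψ => (hY₂2 ψ hψ).2.1) hc2'
      (3 * k + 3) (by omega) hJ
    refine ⟨fun ψ => 2 * M ψ, fun ψ => 2 * E ψ, fun ψ hψ => ?_, ?_, ?_⟩
    · obtain ⟨g1, g2, g3⟩ := hME ψ hψ
      exact ⟨by linarith, by linarith, by linarith⟩
    · rw [← mul_sum]
      have h7 : Cm * ((3 * k + 3 : ℕ) : ℝ) ^ Dm = Cm * 3 ^ Dm * ((k : ℝ) + 1) ^ Dm := by
        have : ((3 * k + 3 : ℕ) : ℝ) = 3 * ((k : ℝ) + 1) := by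
          push_cast
          ring
        rw [this, mul_pow]
        ring
      rw [h7] at hM
      linarith
    · have e1 : ∑ ψ ∈ Y₂, (2 * E ψ) ^ 2 = 4 * ∑ ψ ∈ Y₂, E ψ ^ 2 := by
        rw [mul_sum]
        refine sum_congr rfl fun ψ _ => ?_
        ring
      rw [e1]
      have e2 : (1 / 4 : ℝ) ^ (3 * k + 3) = (1 / 64) ^ k * (1 / 64) := by
        rw [pow_add, pow_mul]
        norm_num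
      rw [e2] at hE
      have e3 : (0 : ℝ) ≤ (1 / 64) ^ k := by positivity
      linarith
  · -- partners
    intro k hk ψ₂ h2 Y hYsub hYc hYcard
    rw [sum_add_distrib, sum_const, nsmul_eq_mul]
    have h3 := h_rel ψ₂ (hY₂2 ψ₂ h2).1 (hY₂2 ψ₂ h2).2.2 k hk Y
      ⟨fun ψ hψ => hf1.1 ψ (hYsub hψ), fun ψ hψ ψ' hψ' => hf1.2 ψ (hYsub hψ) ψ' (hYsub hψ')⟩
      (fun ψ hψ => ⟨(hY₁2 ψ (hYsub hψ)).2.1, hYc ψ hψ⟩) hYcard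
    have h4 : (Y.card : ℝ) * δ ≤ 1 := by
      have : (Y.card : ℝ) ≤ Y₁.card := by exact_mod_cast card_le_card hYsub
      exact (mul_le_mul_of_nonneg_right this hδ0).trans hcδ
    have h8 : (1 : ℝ) ≤ ((k : ℝ) + 1) ^ Dr :=
      one_le_pow₀ (by have : (0 : ℝ) ≤ k := Nat.cast_nonneg k; linarith)
    have h9 : (Cr + 1) * ((k : ℝ) + 1) ^ Dr = Cr * ((k : ℝ) + 1) ^ Dr + ((k : ℝ) + 1) ^ Dr := by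
      ring
    rw [h9]
    linarith
  · -- squares
    have h1 := h_sq1 Y₁ hY₁2 hc1'
    calc ∑ ψ ∈ Y₁, (sNf X T w₁ ψ + δ) ^ 2 ≤ ∑ ψ ∈ Y₁, (2 * sNf X T w₁ ψ ^ 2 + 2 * δ) := by
          refine sum_le_sum fun ψ _ => ?_
          have h2 : δ ^ 2 ≤ δ := by nlinarith
          nlinarith [sq_nonneg (sNf X T w₁ ψ - δ)]
      _ = 2 * ∑ ψ ∈ Y₁, sNf X T w₁ ψ ^ 2 + 2 * ((Y₁.card : ℝ) * δ) := by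
          rw [sum_add_distrib, ← mul_sum, sum_const, nsmul_eq_mul]
          ring
      _ ≤ 2 * Cq + 2 := by linarith
  · -- light pairs
    intro ψ₁ h1 ψ₂ h2 _ hle
    by_contra hcon
    push Not at hcon
    have hheavy : ψ₂ ∈ Hvf X T w₂ Z R κ :=
      mem_Hvf.2 ⟨(hY₂2 ψ₂ h2).1, hf2Z ψ₂ h2, (hY₂2 ψ₂ h2).2.2, by linarith⟩
    have hr : 1 ≤ ψ₂.1 := (hY₂2 ψ₂ h2).1.1
    have hg : 0 < Nat.gcd ψ₂.1 n := Nat.gcd_pos_of_pos_left _ hr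
    have hdiv := div_h0 n hn ψ₁ ψ₂
    have hh0 : 0 < h0 n ψ₁ ψ₂ := as_h0_pos n ψ₁ ψ₂ (hY₁2 ψ₁ h1).1.1 hr
    have hh1 : ψ₂.1 / Nat.gcd ψ₂.1 n ≤ 2 ^ k0 := (Nat.le_of_dvd hh0 hdiv).trans hle
    have hh2 : 1 ≤ ψ₂.1 / Nat.gcd ψ₂.1 n :=
      Nat.div_pos (Nat.le_of_dvd hr (Nat.gcd_dvd_left _ _)) hg
    have hd1 : ψ₂.1 / Nat.gcd ψ₂.1 n ∣ ψ₂.1 := Nat.div_dvd_of_dvd (Nat.gcd_dvd_left _ _)
    have hd2 : ψ₂.1 / (ψ₂.1 / Nat.gcd ψ₂.1 n) = Nat.gcd ψ₂.1 n :=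
      Nat.div_div_self (Nat.gcd_dvd_left _ _) (by omega)
    exact hD (Nat.gcd ψ₂.1 n) (mem_DD'.2 ⟨ψ₂, hheavy, _, hh2, hh1, hd1, hd2.symm⟩)
      (Nat.gcd_dvd_right _ _)
  · -- the light characters
    obtain ⟨M, E, hME, hM, hE⟩ := h_sl Y₂ hf2 (fun ψ hψ => (hY₂2 ψ hψ).2.1) hc2'
      J0 hJ0 hJ0'
    have h1 := h_sq2 Y₂ hY₂2 hc2'
    exact light_sq Y₂ (fun ψ => 2 * sNf X T w₂ ψ) (fun ψ => 2 * M ψ) (fun ψ => 2 * E ψ)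
      (2 * κ) (2 * (Cm * (J0 : ℝ) ^ Dm)) (4 * Cq) (4 * (1 / 4 : ℝ) ^ J0)
      (fun ψ _ => mul_nonneg (by norm_num) (hs0 _ _))
      (fun ψ hψ => by have := (hME ψ hψ).1; positivity)
      (fun ψ hψ => by have := (hME ψ hψ).2.2; linarith)
      (by positivity)
      (by rw [← mul_sum]; linarith)
      (by
        have e1 : ∑ ψ ∈ Y₂, (2 * sNf X T w₂ ψ) ^ 2 = 4 * ∑ ψ ∈ Y₂, sNf X T w₂ ψ ^ 2 := by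
          rw [mul_sum]
          refine sum_congr rfl fun ψ _ => ?_
          ring
        rw [e1]
        linarith)
      (by
        have e1 : ∑ ψ ∈ Y₂, (2 * E ψ) ^ 2 = 4 * ∑ ψ ∈ Y₂, E ψ ^ 2 := by
          rw [mul_sum]
          refine sum_congr rfl fun ψ _ => ?_
          ring
        rw [e1]
        linarith)

end Pool.MP_dd84fd_nt.BY
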