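import Pool.Agent.Lib.MP_dd84fd_nt.BY.Ay5

/-!
# BY-Ay6: `GreedyBY` from its parts
-/

set_option autoImplicit false

namespace Pool.MP_dd84fd_nt.BY

open Finset Pool.MP_67663b_nt.Odd Pool.MP_dd84fd_nt.En Pool.MP_dd84fd_nt.E2 Pool.MP_dd84fd_nt.LS
open Pool.MP_dd84fd_nt.GX Pool.MP_dd84fd_nt.HX Pool.MP_dd84fd_nt.IX
open Pool.MP_dd84fd_nt.PL (rr)
open Pool.MP_dd84fd_nt.JX (wP gP DecJ)
open Pool.MP_dd84fd_nt.LX (FFL)
open Pool.MP_dd84fd_nt.LXP (tq)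
open Pool.MP_dd84fd_nt.BX (PC pv IsPC PFam prc ind h0 cP cf Rm as_ee_cont as_ee_norm as_ee_add as_cs
  ind_prc prc_inj isPC_prc cf_nonneg ParBD GauBD h0_comm cP_comm as_h0_pos div_gcd_dvd div_h0 PR mem_PR
  DD' mem_DD' card_DD')

/-- the choice of `k0` -/
private theorem a6_k0 (a ε : ℝ) (ha : 0 < a) (hε : 0 < ε) :
    ∃ k0 : ℕ, a * (2 : ℝ) ^ (-((k0 : ℝ) / 8)) ≤ ε := by
  obtain ⟨r, hr⟩ : ∃ r : ℝ, r = (2 : ℝ) ^ (-(1 / 8 : ℝ)) := ⟨_, rfl⟩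
  have hr0 : 0 ≤ r := by rw [hr]; positivity
  have hr1 : r < 1 := by
    rw [hr]
    exact Real.rpow_lt_one_of_one_lt_of_neg (by norm_num) (by norm_num)
  obtain ⟨k, hk⟩ := exists_pow_lt_of_lt_one (show 0 < ε / a by positivity) hr1
  refine ⟨k, ?_⟩
  have e1 : (2 : ℝ) ^ (-((k : ℝ) / 8)) = r ^ k := by
    rw [hr, ← Real.rpow_natCast, ← Real.rpow_mul (by norm_num)]
    congr 1
    ring
  rw [e1]
  have := hk.le
  rw [le_div_iff₀ ha] at this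
  linarith

/-- the choice of `J0` and `κ` -/
private theorem a6_Jκ (Cm Cq ε : ℝ) (Dm : ℕ) (hCm : 0 < Cm) (hCq : 0 < Cq) (hε : 0 < ε) :
    ∃ (J0 : ℕ) (κ : ℝ), 1 ≤ J0 ∧ 0 < κ ∧ Cl0 κ Cm Cq Dm J0 ≤ ε := by
  obtain ⟨k, hk⟩ := exists_pow_lt_of_lt_one (show 0 < (ε / 2) ^ 2 / (16 * Cq) by positivity)
    (show (1 / 4 : ℝ) < 1 by norm_num)
  have hJ : (1 : ℝ) ≤ ((k + 1 : ℕ) : ℝ) ^ Dm := one_le_pow₀ (by push_cast; have : (0 : ℝ) ≤ k := Nat.cast_nonneg k; linarith)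
  refine ⟨k + 1, ε / (8 * (Cm * ((k + 1 : ℕ) : ℝ) ^ Dm)), by omega, by positivity, ?_⟩
  unfold Cl0
  have h1 : 2 * (ε / (8 * (Cm * ((k + 1 : ℕ) : ℝ) ^ Dm))) * (2 * (Cm * ((k + 1 : ℕ) : ℝ) ^ Dm)) =
      ε / 2 := by
    have : Cm * ((k + 1 : ℕ) : ℝ) ^ Dm ≠ 0 := by positivity
    field_simp
    norm_num
  have h2 : Real.sqrt (4 * Cq * (4 * (1 / 4 : ℝ) ^ (k + 1))) ≤ ε / 2 := by
    rw [Real.sqrt_le_left (by positivity)]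
    have h3 : (1 / 4 : ℝ) ^ (k + 1) ≤ (1 / 4) ^ k := by
      rw [pow_succ]
      have : (0 : ℝ) ≤ (1 / 4) ^ k := by positivity
      linarith
    have h4 := hk.le
    rw [le_div_iff₀ (by positivity)] at h4
    calc 4 * Cq * (4 * (1 / 4 : ℝ) ^ (k + 1)) ≤ 4 * Cq * (4 * (1 / 4 : ℝ) ^ k) := by gcongr
      _ = (1 / 4) ^ k * (16 * Cq) := by ring
      _ ≤ (ε / 2) ^ 2 := h4
  rw [h1]
  linarith

private theorem a6_k1 (B : ℝ) (hB : 1 ≤ B) :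
    ∃ k1 : ℕ, B ≤ 2 ^ (k1 + 1) ∧ (2 : ℝ) ^ k1 ≤ B := by
  have hf : ⌊B⌋₊ ≠ 0 := by
    have : 0 < ⌊B⌋₊ := Nat.floor_pos.2 hB
    omega
  refine ⟨Nat.log 2 ⌊B⌋₊, ?_, ?_⟩
  · have h1 : ⌊B⌋₊ < 2 ^ (Nat.log 2 ⌊B⌋₊ + 1) := Nat.lt_pow_succ_log_self (by norm_num) _
    have h2 : ((⌊B⌋₊ + 1 : ℕ) : ℝ) ≤ ((2 ^ (Nat.log 2 ⌊B⌋₊ + 1) : ℕ) : ℝ) := by
      exact_mod_cast h1
    have h3 := Nat.lt_floor_add_one B
    push_cast at h2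
    linarith
  · have h1 : 2 ^ Nat.log 2 ⌊B⌋₊ ≤ ⌊B⌋₊ := Nat.pow_log_le_self 2 hf
    have h2 : ((2 ^ Nat.log 2 ⌊B⌋₊ : ℕ) : ℝ) ≤ (⌊B⌋₊ : ℝ) := by exact_mod_cast h1
    have h3 := Nat.floor_le (show 0 ≤ B by linarith)
    push_cast at h2
    linarith

/-- `GreedyBY` from its parts -/
theorem greedyY (th e : ℝ) (K0 : ℕ) (ww1 gg1 ww2 gg2 v1 v2 : ℕ → ℕ → ℝ) (he : 0 < e)
    (hth : 1 - th + 3 / 2 * e ≤ 1 - 1 / 10) (hA : ArcY th e ww1 gg1 ww2 gg2 v1 v2)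
    (hG : GauBD) (hP : ParBD) (hS : SlV th e v2) (hR : RelV th e v1) (hB1 : BdV K0 v1)
    (hB2 : BdV K0 v2) (hE : ExV v2) (hSq : SqY) (hHv : HvY) (hPr : PrY) :
    GreedyBY th e ww1 gg1 ww2 gg2 := by
  intro η hη K1 K2
  obtain ⟨C4, hC4, hG⟩ := hG
  have hG : GauC C4 := hG
  obtain ⟨Cm, c1, Dm, hCm, hc1, hS⟩ := hS
  obtain ⟨Cr, Dr, hCr, hR⟩ := hR
  obtain ⟨Cq, c2, hCq, hc2, hSq⟩ := hSq (1 / 10) K0 (by norm_num)
  obtain ⟨C', hC', hlev⟩ := lev_sum (Dr + Dm) ((Cr + 1) * (2 * Cm * 3 ^ Dm)) (2 * Cq + 2)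
    (by positivity)
  -- the choice of `k0`, `J0`, `κ`
  obtain ⟨k0, hk0⟩ := a6_k0 (C4 * C') (η / 4) (by positivity) (by positivity)
  obtain ⟨ε1, hε1⟩ : ∃ ε1 : ℝ, ε1 = (η / (4 * C4 * 4 ^ k0)) ^ 2 / (2 * Cq + 2) := ⟨_, rfl⟩
  have hε10 : 0 < ε1 := by rw [hε1]; positivity
  obtain ⟨J0, κ, hJ0, hκ, hCl⟩ := a6_Jκ Cm Cq ε1 Dm hCm hCq hε10
  have hκ1 : C4 * (4 ^ k0 * Real.sqrt ((2 * Cq + 2) * Cl0 κ Cm Cq Dm J0)) ≤ η / 4 := by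
    have e1 : (2 * Cq + 2) * Cl0 κ Cm Cq Dm J0 ≤ (η / (4 * C4 * 4 ^ k0)) ^ 2 := by
      have h1 : (2 * Cq + 2) * Cl0 κ Cm Cq Dm J0 ≤ (2 * Cq + 2) * ε1 :=
        mul_le_mul_of_nonneg_left hCl (by positivity)
      refine h1.trans (le_of_eq ?_)
      rw [hε1]
      field_simp
    have e2 : Real.sqrt ((2 * Cq + 2) * Cl0 κ Cm Cq Dm J0) ≤ η / (4 * C4 * 4 ^ k0) := by
      rw [Real.sqrt_le_left (by positivity)]
      exact e1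
    calc C4 * (4 ^ k0 * Real.sqrt ((2 * Cq + 2) * Cl0 κ Cm Cq Dm J0))
        ≤ C4 * (4 ^ k0 * (η / (4 * C4 * 4 ^ k0))) := by gcongr
      _ = η / 4 := by field_simp
  obtain ⟨M0, hHv⟩ := hHv (1 / 10) κ K0 (by norm_num) hκ
  obtain ⟨M', X1, hE⟩ := hE κ (K2 + 2) hκ
  obtain ⟨M, hM⟩ : ∃ M : ℕ, M = max (max (M0 * 2 ^ k0) (2 ^ k0)) M' := ⟨_, rfl⟩
  have hM1 : M0 * 2 ^ k0 ≤ M := by rw [hM]; exact (le_max_left _ _).trans (le_max_left _ _)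
  have hM2 : 2 ^ k0 ≤ M := by rw [hM]; exact (le_max_right _ _).trans (le_max_left _ _)
  have hM3 : M' ≤ M := by rw [hM]; exact le_max_right _ _
  refine ⟨M, fun K => ?_⟩
  obtain ⟨A', D0, hA⟩ := hA K1 K2 (K + K1 + 1) (by omega)
  refine ⟨D0, fun D' hD' => ?_⟩
  obtain ⟨A2, hA2⟩ : ∃ A2 : ℕ, A2 = 2 * A' + 2 * K1 + 1 := ⟨_, rfl⟩
  obtain ⟨X2, hA⟩ := hA D' hD'
  obtain ⟨X3, hS⟩ := hS (3 * K1 + 3) (K2 + 2)
  obtain ⟨X4, hR⟩ := hR K1 (K2 + 2)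
  obtain ⟨X5, hSq⟩ := hSq (K2 + 2)
  obtain ⟨X6, hHv⟩ := hHv (K2 + 2)
  obtain ⟨X7, hPr1⟩ := hPr K0 A2 (K2 + 2)
  obtain ⟨X8, hPr2⟩ := hPr K0 (A' + 1) (K2 + 2)
  obtain ⟨X9, hB1⟩ := hB1
  obtain ⟨X10, hB2⟩ := hB2
  obtain ⟨X11, hlog⟩ := ay_log (max (max 4 ((2 : ℝ) ^ k0)) (max (4 / η) (max (4 * Cq) (2 ^ J0))))
  obtain ⟨c, hc⟩ : ∃ c : ℝ, c = min c1 c2 := ⟨_, rfl⟩
  have hc0 : 0 < c := by rw [hc]; exact lt_min hc1 hc2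
  obtain ⟨X12, hpow⟩ := ay_pow (4 * Cq) c hc0 (2 * A' + 2 * K1)
  refine ⟨max (max (max X1 X2) (max X3 X4)) (max (max (max X5 X6) (max X7 X8))
    (max (max X9 X10) (max X11 (max X12 2)))), fun X hX => ?_⟩
  simp only [max_le_iff] at hX
  obtain ⟨⟨⟨hX1, hX2⟩, hX3, hX4⟩, ⟨⟨hX5, hX6⟩, hX7, hX8⟩, ⟨hX9, hX10⟩, hX11, hX12, hX13⟩ := hX
  have hlog' := hlog X hX11
  have hpow' := hpow X hX12
  have hX0 : (0 : ℝ) < X := by exact_mod_cast (by omega : 0 < X)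
  have hXr1 : (1 : ℝ) ≤ X := by exact_mod_cast (by omega : 1 ≤ X)
  have hA := hA X hX2
  have hE := hE X hX1
  have hS := hS X hX3
  have hR := hR X hX4
  have hSq := hSq X hX5
  have hHv := hHv X hX6
  have hPr1 := hPr1 X hX7
  have hPr2 := hPr2 X hX8
  have hB1 := hB1 X hX9
  have hB2 := hB2 X hX10
  obtain ⟨L, hL⟩ : ∃ L : ℝ, L = Real.log (X : ℝ) := ⟨_, rfl⟩
  rw [← hL] at hlog' hpow' hA hE hS hR hSq hHv hPr1 hPr2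
  have hL4 : 4 ≤ L := (le_max_left _ _).trans ((le_max_left _ _).trans hlog')
  have hLk : (2 : ℝ) ^ k0 ≤ L := (le_max_right _ _).trans ((le_max_left _ _).trans hlog')
  have hLη : 4 / η ≤ L := (le_max_left _ _).trans ((le_max_right _ _).trans hlog')
  have hLq : 4 * Cq ≤ L :=
    (le_max_left _ _).trans ((le_max_right _ _).trans ((le_max_right _ _).trans hlog'))
  have hLJ : (2 : ℝ) ^ J0 ≤ L :=
    (le_max_right _ _).trans ((le_max_right _ _).trans ((le_max_right _ _).trans hlog'))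
  have hL0 : 0 < L := by linarith
  have hL1 : 1 ≤ L := by linarith
  obtain ⟨T, hT⟩ : ∃ T : ℝ, T = 4 * L ^ K2 := ⟨_, rfl⟩
  have hT1 : 1 ≤ T := by
    have : (1 : ℝ) ≤ L ^ K2 := one_le_pow₀ hL1
    rw [hT]
    linarith
  have hT2 : T ≤ L ^ (K2 + 2) := by
    rw [hT, pow_add, mul_comm]
    refine mul_le_mul_of_nonneg_left ?_ (by positivity)
    nlinarith
  obtain ⟨Z, hZ⟩ : ∃ Z : ℝ, Z = L ^ (K + K1 + 1) := ⟨_, rfl⟩
  have hZ1 : 1 ≤ Z := by rw [hZ]; exact one_le_pow₀ hL1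
  have hZK : L ^ K1 ≤ Z := by
    rw [hZ]
    exact pow_le_pow_right₀ hL1 (by omega)
  obtain ⟨R, hRd⟩ : ∃ R : ℝ, R = (X : ℝ) ^ (1 - th + 3 / 2 * e) := ⟨_, rfl⟩
  have hR1 : R ≤ (X : ℝ) ^ (1 - 1 / 10 : ℝ) := by
    rw [hRd]
    exact Real.rpow_le_rpow_of_exponent_le hXr1 hth
  have hR2 : R ≤ (X : ℝ) ^ (1 - th + 3 * e) := by
    rw [hRd]
    exact Real.rpow_le_rpow_of_exponent_le hXr1 (by linarith)
  have hR3 : R ≤ X := by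
    refine hR1.trans ?_
    calc (X : ℝ) ^ (1 - 1 / 10 : ℝ) ≤ (X : ℝ) ^ (1 : ℝ) :=
          Real.rpow_le_rpow_of_exponent_le hXr1 (by norm_num)
      _ = X := Real.rpow_one _
  have hXc1 : (X : ℝ) ^ c ≤ (X : ℝ) ^ c1 :=
    Real.rpow_le_rpow_of_exponent_le hXr1 (by rw [hc]; exact min_le_left _ _)
  have hXc2 : (X : ℝ) ^ c ≤ (X : ℝ) ^ c2 :=
    Real.rpow_le_rpow_of_exponent_le hXr1 (by rw [hc]; exact min_le_right _ _)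
  rw [← hRd] at hS hR
  -- the hypotheses on the norms
  have e1 : Cq / (1 / (2 * L ^ A')) ^ 2 = 4 * Cq * L ^ (2 * A') := by
    rw [mul_comm 2 A', pow_mul]
    field_simp
    ring
  have e2 : Cq / (1 / (2 * L ^ A')) ^ 2 * (L ^ K1) ^ 2 = 4 * Cq * L ^ (2 * A' + 2 * K1) := by
    rw [e1, pow_add, mul_comm 2 K1, pow_mul]
    ring
  have hNm : NormY X T R c K1 A' A2 (v1 X) (v2 X) Cm Cr Cq Dm Dr := by
    refine ⟨?_, ?_, ?_, ?_, ?_, ?_, ?_, ?_, ?_⟩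
    · intro Y hY hY2 hYc J hJ hJ'
      rw [← hL] at hJ'
      exact hS T hT1 hT2 Y hY hY2 (hYc.trans hXc1) J hJ hJ'
    · intro ψ₂ h2 h2' k hk Y hY hY2 hYc
      rw [← hL] at hk
      exact hR T hT1 hT2 ψ₂ h2 h2' k hk Y hY hY2 hYc
    · intro Y hY hYc
      exact hSq T hT1 hT2 (v1 X) hB1 Y (fun ψ hψ => ⟨(hY ψ hψ).1, (hY ψ hψ).2.1,
        (hY ψ hψ).2.2.trans hR1⟩) (hYc.trans hXc2)
    · intro Y hY hYc
      exact hSq T hT1 hT2 (v2 X) hB2 Y (fun ψ hψ => ⟨(hY ψ hψ).1, (hY ψ hψ).2.1,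
        (hY ψ hψ).2.2.trans hR1⟩) (hYc.trans hXc2)
    · intro q hq1 hq2 χ
      rw [← hL]
      exact hPr1 T hT1 hT2 (v1 X) hB1 q hq1 hq2 χ
    · intro q hq1 hq2 χ
      rw [← hL]
      exact hPr2 T hT1 hT2 (v2 X) hB2 q hq1 hq2 χ
    · rw [← hL, e1]
      have h1 : L ^ (2 * A') ≤ L ^ (2 * A' + 2 * K1) := pow_le_pow_right₀ hL1 (by omega)
      have h2 : 4 * Cq * L ^ (2 * A') ≤ 4 * Cq * L ^ (2 * A' + 2 * K1) :=
        mul_le_mul_of_nonneg_left h1 (by positivity)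
      linarith
    · rw [← hL, e2]
      linarith
    · rw [← hL, e2, hA2, pow_succ, mul_comm]
      exact mul_le_mul_of_nonneg_left hLq (by positivity)
  -- the heavy characters
  have hHvc : (Hvf X T (v2 X) Z R κ).card ≤ M0 := by
    refine hHv T hT1 hT2 (v2 X) hB2 _ fun ψ hψ => ?_
    obtain ⟨h1, h2, h3, h4⟩ := mem_Hvf.1 hψ
    refine ⟨h1, ?_, h3.trans hR1, h4⟩
    have h5 : (1 : ℝ) < ψ.1 := lt_of_le_of_lt hZ1 h2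
    exact_mod_cast h5
  obtain ⟨k1, hk1, hk1'⟩ := a6_k1 (L ^ K1) (one_le_pow₀ hL1)
  refine ⟨DD' (Hvf X T (v2 X) Z R κ) (2 ^ k0), ?_, ?_, ?_⟩
  · exact (card_DD' _ _).trans ((Nat.mul_le_mul_right _ hHvc).trans hM1)
  · intro d hd
    obtain ⟨ψ, hψ, h, h1, h2, h3, rfl⟩ := mem_DD'.1 hd
    obtain ⟨g1, g2, g3, g4⟩ := mem_Hvf.1 hψ
    have hmul : ψ.1 / h * h = ψ.1 := Nat.div_mul_cancel h3
    have hmulr : ((ψ.1 / h : ℕ) : ℝ) * h = ψ.1 := by exact_mod_cast hmul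
    have hhr : (1 : ℝ) ≤ h := by exact_mod_cast h1
    have hhH : (h : ℝ) ≤ 2 ^ k0 := by exact_mod_cast h2
    refine ⟨?_, ?_, ?_⟩
    · rw [← hL]
      have h5 : L ^ K * h ≤ ((ψ.1 / h : ℕ) : ℝ) * h := by
        rw [hmulr]
        refine le_trans ?_ g2.le
        rw [hZ, show K + K1 + 1 = K + (K1 + 1) by ring, pow_add]
        refine mul_le_mul_of_nonneg_left ((hhH.trans hLk).trans ?_) (by positivity)
        rw [pow_succ]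
        exact le_mul_of_one_le_left hL0.le (one_le_pow₀ hL1)
      exact le_of_mul_le_mul_right h5 (by linarith)
    · have h6 : ((ψ.1 / h : ℕ) : ℝ) ≤ ψ.1 := by exact_mod_cast Nat.div_le_self _ _
      exact h6.trans (g3.trans hR2)
    · obtain ⟨u, hu1, hu2, hu3⟩ := hE T hT1 hT2 ψ g4
      refine ⟨ψ.1, h, ψ.2, g1.2, h1, h2.trans hM2, hmul, u, hu1, hu2, ?_⟩
      rw [← hL]
      refine le_trans ?_ hu3
      exact div_le_div_of_nonneg_left (by positivity) (by positivity)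
        (pow_le_pow_right₀ hL1 hM3)
  · intro n hn1 hn2 hDn QQ N ρ hQ hρ hN hcard hNle
    rw [← hL] at hQ hρ
    rw [← hL]
    have hn0 : 1 ≤ n := by omega
    have hmain := hA n hn1 hn2 QQ N ρ hQ hρ hN hcard hNle
    have hfam := one_famY hP hC4 hG X n K1 A' A2 k0 k1 J0 hX13 hn0 T Z R c κ (v1 X) (v2 X)
      Cm Cr Cq Dm Dr hCr.le hκ (by rw [← hL]; linarith) (by rw [← hL]; exact hZK) hZ1
      (by rw [← hL]; exact hk1) (by rw [← hL]; exact hk1') hJ0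
      (by
        rw [← hL]
        refine hLJ.trans ?_
        calc L = L ^ 1 := (pow_one L).symm
          _ ≤ L ^ (3 * K1 + 3) := pow_le_pow_right₀ hL1 (by omega))
      hNm hR3 hDn QQ N (by rw [← hL]; exact hQ) hN (by rw [hRd]; exact hNle) ρ
      (fun q hq => by rw [hT]; exact hρ q hq)
    rw [← hL, hT, hZ] at hfam
    refine hmain.trans ?_
    have hφ : (1 : ℝ) ≤ (n : ℝ) / (Nat.totient n : ℝ) := by
      have h1 : 0 < Nat.totient n := Nat.totient_pos.2 (by omega)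
      rw [le_div_iff₀ (by exact_mod_cast h1), one_mul]
      exact_mod_cast Nat.totient_le n
    obtain ⟨Φ, hΦ⟩ : ∃ Φ : ℝ, Φ = (n : ℝ) / (Nat.totient n : ℝ) := ⟨_, rfl⟩
    rw [← hΦ] at hfam hφ ⊢
    have hΦ0 : 0 ≤ Φ := by linarith
    have hXL : 0 ≤ (X : ℝ) / L ^ 2 := by positivity
    have hlv := hlev k0 k1
    obtain ⟨S, hSd⟩ : ∃ S : ℝ, S = ∑ k ∈ Icc k0 k1, (2 : ℝ) ^ (-((k : ℝ) / 4)) *
          ((Cr + 1) * (2 * Cm * 3 ^ Dm) * ((k : ℝ) + 1) ^ (Dr + Dm) +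
            4 * 4 ^ k * Real.sqrt ((2 * Cq + 2) * (1 / 64) ^ k)) := ⟨_, rfl⟩
    rw [← hSd] at hlv hfam
    have b1 : (X : ℝ) / L ^ 2 * (C4 * Φ * (S +
        4 ^ k0 * Real.sqrt ((2 * Cq + 2) * Cl0 κ Cm Cq Dm J0))) ≤
        (X : ℝ) / L ^ 2 * (Φ * (η / 2)) := by
      refine mul_le_mul_of_nonneg_left ?_ hXL
      have h1 : C4 * S ≤ η / 4 := by
        have := mul_le_mul_of_nonneg_left hlv hC4.le
        linarith
      calc C4 * Φ * (S + 4 ^ k0 * Real.sqrt ((2 * Cq + 2) * Cl0 κ Cm Cq Dm J0))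
          = Φ * (C4 * S + C4 * (4 ^ k0 * Real.sqrt ((2 * Cq + 2) * Cl0 κ Cm Cq Dm J0))) := by
            ring
        _ ≤ Φ * (η / 4 + η / 4) := mul_le_mul_of_nonneg_left (add_le_add h1 hκ1) hΦ0
        _ = Φ * (η / 2) := by ring
    have b2 : (X : ℝ) / L ^ 3 ≤ X / L ^ 2 * (Φ * (η / 2)) := by
      have h1 : (X : ℝ) / L ^ 3 = X / L ^ 2 * (1 / L) := by
        rw [pow_succ]
        field_simp
      rw [h1]
      refine mul_le_mul_of_nonneg_left ?_ hXL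
      have h2 : 1 / L ≤ η / 4 := by
        rw [div_le_iff₀ hη] at hLη
        rw [div_le_div_iff₀ hL0 (by norm_num)]
        linarith
      have h3 : η / 2 ≤ Φ * (η / 2) := by
        have : 0 ≤ η / 2 := by positivity
        nlinarith
      linarith
    calc _ ≤ (X : ℝ) / L ^ 2 * (Φ * (η / 2)) + X / L ^ 2 * (Φ * (η / 2)) :=
          add_le_add (hfam.trans b1) b2
      _ = η * Φ * (X / L ^ 2) := by ring

end Pool.MP_dd84fd_nt.BY
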