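import Pool.Agent.Lib.MP_dd84fd_nt.BY.Defs
import Pool.Agent.Lib.MP_dd84fd_nt.DX.Defs

/-!
# BY-VDefs: from the greedy statement to the theorems: interface (helper65)

`wF B' W`, `gF B' W`: the function given by the type function `W` and its density.  `FmY`: a sieve
family.  `GrY`: the greedy statement for all families (input of part V).  `PfAvg`: the function minus
its model in progressions, on average; `SecY`: the second term `(ww1 - gg1 f1) * (gg2 f1)`; `ConY`: the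
conclusion for one pair; `ScY`: one scale.
-/

set_option autoImplicit false

namespace Pool.MP_dd84fd_nt.BY

open Finset Pool.MP_67663b_nt.Odd Pool.MP_dd84fd_nt.En Pool.MP_dd84fd_nt.E2 Pool.MP_dd84fd_nt.LS
open Pool.MP_dd84fd_nt.GX Pool.MP_dd84fd_nt.HX Pool.MP_dd84fd_nt.IX
open Pool.MP_dd84fd_nt.JX (wP gP DecJ Adm)
open Pool.MP_dd84fd_nt.LX (DecW)

/-- the function given by the type function `W` -/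
noncomputable def wF (B' : ℕ) (W : ℕ → Finset ℕ → ℝ) (X n : ℕ) : ℝ := IY.wty (IY.kp B' X) X (W X) n

/-- its density -/
noncomputable def gF (B' : ℕ) (W : ℕ → Finset ℕ → ℝ) (X n : ℕ) : ℝ := IY.gty (IY.kp B' X) X (W X) n

/-- a sieve family -/
structure FmY (B K0 C1 C2 B' : ℕ) (th e τ : ℝ) (W : ℕ → Finset ℕ → ℝ) : Prop where
  wad : WAdm th e τ B' W
  w1 : W1 K0 C1 (wF B' W) (gF B' W)
  dec : DecJ B C2 th e τ (wF B' W)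
  maj : MajI (wF B' W) (gF B' W)

/-- (GREEDY) for all families -/
def GrY : Prop := ∃ B : ℕ, ∀ (B' K0 C1 C2 : ℕ) (th e τ : ℝ), B ≤ B' → AdmY th e τ →
  Adm th e τ → W1 K0 C1 wP gP → ∀ Wa Wb : ℕ → Finset ℕ → ℝ,
  FmY B K0 C1 C2 B' th e τ Wa → FmY B K0 C1 C2 B' th e τ Wb →
    GreedyBY th e wP gP (wF B' Wb) (gF B' Wb) ∧
    GreedyBY th e (wF B' Wa) (gF B' Wa) (wF B' Wb) (gF B' Wb)

/-- `ww - gg f1` in progressions, on average over the moduli `≤ X^η` -/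
def PfAvg (A : ℕ) (ww gg : ℕ → ℕ → ℝ) : Prop := ∃ D0 : ℕ, ∀ D' : ℕ, D0 ≤ D' →
  ∃ η : ℝ, 0 < η ∧ η ≤ 1 / 20 ∧ ∃ X0 : ℕ, ∀ X : ℕ, X0 ≤ X → ∀ a t : ℕ, t ≤ X →
    ∑ k ∈ (Icc 1 X).filter (fun k : ℕ => (k : ℝ) ≤ (X : ℝ) ^ η ∧ Nat.Coprime a k),
      |∑ n ∈ (Icc 1 t).filter (fun n => n ≡ a [MOD k]), uI ww gg X (wX D' X) n| ≤
      X / Real.log X ^ A

/-- (V2a) for the functions given by types -/
def PfT : Prop := ∀ (A B' K0 : ℕ) (W : ℕ → Finset ℕ → ℝ), (∃ X1 : ℕ, ∀ X : ℕ, X1 ≤ X →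
  ∀ T, |W X T| ≤ K0) → PfAvg A (wF B' W) (gF B' W)

/-- `(ww1 - gg1 f1) * (gg2 f1)` is small for every `n` -/
def SecY (A : ℕ) (ww1 gg1 gg2 : ℕ → ℕ → ℝ) : Prop := ∃ D0 : ℕ, ∀ D' : ℕ, D0 ≤ D' →
  ∃ X0 : ℕ, ∀ X : ℕ, X0 ≤ X → ∀ n : ℕ, n ≤ X →
    |cvv (uI ww1 gg1 X (wX D' X)) (fI gg2 X (wX D' X)) n| ≤ X / (Real.log X) ^ A

/-- (V2b) from `PfAvg` -/
def SecG : Prop := ∀ (A K0 C1 : ℕ) (ww gg gg2 : ℕ → ℕ → ℝ), W1 K0 C1 ww gg →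
  (∀ A1 : ℕ, PfAvg A1 ww gg) → (∃ X1 : ℕ, ∀ X : ℕ, X1 ≤ X → (∀ n, |gg2 X n| ≤ K0) ∧
    ∑ n ∈ Ico 1 X, |gg2 X (n + 1) - gg2 X n| ≤ (Real.log X) ^ C1) → SecY A ww gg gg2

/-- the conclusion for one pair -/
def ConY (A : ℕ) (th e : ℝ) (ww1 gg1 ww2 gg2 : ℕ → ℕ → ℝ) : Prop := ∀ η : ℝ, 0 < η →
  ∃ M : ℕ, ∀ K : ℕ, ∃ D0 : ℕ, ∀ D' : ℕ, D0 ≤ D' → ∃ X0 : ℕ, ∀ X : ℕ, X0 ≤ X →
  ∃ D Ex : Finset ℕ, D.card ≤ M ∧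
    (∀ d ∈ D, (Real.log X) ^ K ≤ (d : ℝ) ∧ (d : ℝ) ≤ (X : ℝ) ^ (1 - th + 3 * e) ∧
      ExplY M X d) ∧
    (Ex.card : ℝ) ≤ (X : ℝ) ^ (th - e / 4) ∧
    ∀ n : ℕ, X < 2 * n → n ≤ X → n ∉ Ex → (∀ d ∈ D, ¬ d ∣ n) →
      |cvv (ww1 X) (ww2 X) n - cvv (fI gg1 X (wX D' X)) (fI gg2 X (wX D' X)) n| ≤
        X / (Real.log X) ^ A + η * ((n : ℝ) / (Nat.totient n : ℝ)) * (X / (Real.log X) ^ 2)

open Classical in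
/-- one scale -/
def ScY (Bad : ℕ → Prop) (M : ℕ) (θ : ℝ) : Prop := ∀ K : ℕ, ∃ X0 : ℕ, ∀ X : ℕ, X0 ≤ X →
  ∃ D : Finset ℕ, D.card ≤ M ∧ (∀ d ∈ D, (Real.log X) ^ K ≤ (d : ℝ) ∧ ExplY M X d) ∧
    (((Icc 1 X).filter (fun n => X < 2 * n ∧ Even n ∧ (∀ d ∈ D, ¬ d ∣ n) ∧
      Bad n)).card : ℝ) ≤ (X : ℝ) ^ θ

end Pool.MP_dd84fd_nt.BY
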