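import Pool.Agent.Lib.MP_dd84fd_nt.BY.Ay6
import Pool.Agent.Lib.MP_dd84fd_nt.BY.ArDefs
import Pool.Agent.Lib.MP_dd84fd_nt.BY.VDefs
import Pool.Agent.Lib.MP_dd84fd_nt.LX.LScale
import Pool.Agent.Lib.MP_dd84fd_nt.JX.JF1

/-!
# BY-Ay7: the greedy statement for the sieve families
-/

set_option autoImplicit false

namespace Pool.MP_dd84fd_nt.BY

open Finset Pool.MP_67663b_nt.Odd Pool.MP_dd84fd_nt.En Pool.MP_dd84fd_nt.E2 Pool.MP_dd84fd_nt.LS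
open Pool.MP_dd84fd_nt.GX Pool.MP_dd84fd_nt.HX Pool.MP_dd84fd_nt.IX
open Pool.MP_dd84fd_nt.PL (rr)
open Pool.MP_dd84fd_nt.JX (wP gP DecJ Adm)
open Pool.MP_dd84fd_nt.LX (FFL w1_monoL)
open Pool.MP_dd84fd_nt.LXP (tq)
open Pool.MP_dd84fd_nt.BX (PC pv IsPC PFam prc ind h0 cP cf DiscH GauBD ParBD)

/-! ### Bounds for the exact forms (as in BY/SSl) -/

private theorem a7_div {X y n : ℕ} (hX : 2 ≤ X) (hy : (X : ℝ) ^ (1 / 9 : ℝ) ≤ y) (hn : n ≤ X)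
    (hr : Rgh y n) : n.divisors.card ≤ 2 ^ 9 := by
  have hn0 : n ≠ 0 := hr.1
  have hX1 : (1 : ℝ) < (X : ℝ) := by exact_mod_cast hX
  have hX0 : (0 : ℝ) ≤ (X : ℝ) := by linarith
  have hroot : (1 : ℝ) < (X : ℝ) ^ (1 / 9 : ℝ) := Real.one_lt_rpow hX1 (by norm_num)
  have hz2 : 2 ≤ y := by
    have : (1 : ℝ) < y := hroot.trans_le hy
    have : 1 < y := by exact_mod_cast this
    omega
  have hzX : X ≤ y ^ 9 := by
    have h1 : (X : ℝ) ≤ ((y : ℕ) : ℝ) ^ 9 := by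
      calc (X : ℝ) = ((X : ℝ) ^ (1 / 9 : ℝ)) ^ (9 : ℕ) := by
            rw [← Real.rpow_natCast, ← Real.rpow_mul hX0]
            norm_num
        _ ≤ ((y : ℕ) : ℝ) ^ 9 := pow_le_pow_left₀ (by linarith) hy 9
    exact_mod_cast h1
  have h3 : y ^ ArithmeticFunction.cardFactors n ≤ n := by
    rw [ArithmeticFunction.cardFactors_apply]
    calc y ^ n.primeFactorsList.length ≤ n.primeFactorsList.prod := by
          refine List.pow_card_le_prod _ _ fun p hp => ?_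
          exact hr.2 p (by rwa [Nat.mem_primeFactors_iff_mem_primeFactorsList])
      _ = n := Nat.prod_primeFactorsList hn0
  have h4 : ArithmeticFunction.cardFactors n ≤ 9 := by
    have : y ^ ArithmeticFunction.cardFactors n ≤ y ^ 9 := h3.trans (hn.trans hzX)
    exact (Nat.pow_le_pow_iff_right (by omega)).1 this
  exact (Pool.MP_dd84fd_nt.HX.card_divisors_le_two_pow n hn0).trans
    (Nat.pow_le_pow_right (by norm_num) h4)

private theorem a7_const (C : ℝ) {ε : ℝ} (hε : 0 < ε) :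
    ∃ X0 : ℕ, ∀ X : ℕ, X0 ≤ X → C ≤ (X : ℝ) ^ ε := by
  have h := ((tendsto_rpow_atTop hε).comp
    (tendsto_natCast_atTop_atTop (R := ℝ))).eventually_ge_atTop C
  obtain ⟨X0, h1⟩ := Filter.eventually_atTop.1 h
  exact ⟨X0, fun X hX => h1 X hX⟩

private theorem a7_ae (th e τ : ℝ) (hA : AdmY th e τ) : ∃ X0 : ℕ, ∀ X : ℕ, X0 ≤ X → ∀ (y : ℕ)
    (c : ℕ → ℝ), ExF th e τ X y c → ∀ n, |AE X y c n| ≤ ((2 ^ 22 : ℕ) : ℝ) * rg (zI X) n := by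
  obtain ⟨a1, a2, a3, a4, a5, a6, a7⟩ := hA
  obtain ⟨X1, hX1⟩ := a7_const 2 (show (0 : ℝ) < 1 / 90 by norm_num)
  refine ⟨max X1 2, fun X hX y c hE n => ?_⟩
  have hXX1 : X1 ≤ X := (le_max_left _ _).trans hX
  have hX2 : 2 ≤ X := (le_max_right _ _).trans hX
  have hXr : (1 : ℝ) ≤ X := by exact_mod_cast (by omega : 1 ≤ X)
  have hX0 : (0 : ℝ) < X := by linarith
  have hy9 : (X : ℝ) ^ (1 / 9 : ℝ) ≤ y :=
    (Real.rpow_le_rpow_of_exponent_le hXr (by linarith)).trans hE.ylo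
  have hzy : zI X ≤ y := by
    have h1 : ((zI X : ℕ) : ℝ) ≤ (X : ℝ) ^ (1 / 10 : ℝ) + 1 := by
      unfold zI
      exact (Nat.ceil_lt_add_one (by positivity)).le
    have h2 : (1 : ℝ) ≤ (X : ℝ) ^ (1 / 10 : ℝ) := Real.one_le_rpow hXr (by norm_num)
    have h3 : (X : ℝ) ^ (1 / 9 : ℝ) = (X : ℝ) ^ (1 / 10 : ℝ) * (X : ℝ) ^ (1 / 90 : ℝ) := by
      rw [← Real.rpow_add hX0]
      norm_num
    have h4 := hX1 X hXX1
    have h5 : ((zI X : ℕ) : ℝ) ≤ y := by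
      refine h1.trans (le_trans ?_ hy9)
      rw [h3]
      nlinarith
    exact_mod_cast h5
  have hrz : rg y n ≤ rg (zI X) n := by
    unfold rg
    by_cases h1 : Rgh y n
    · have h2 : Rgh (zI X) n := ⟨h1.1, fun p hp' => hzy.trans (h1.2 p hp')⟩
      rw [if_pos h1, if_pos h2]
    · rw [if_neg h1]
      split_ifs
      · exact zero_le_one
      · exact le_rfl
  have hrn := (rg_nonneg (zI X) n).1
  have hcast : (((2 ^ 22 : ℕ)) : ℝ) = 2 ^ 22 := by norm_num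
  rw [hcast]
  unfold AE
  split_ifs with hc
  · rw [abs_mul, abs_of_nonneg (rg_nonneg y n).1]
    by_cases hr : Rgh y n
    · have h1 : rg y n = 1 := by unfold rg; rw [if_pos hr]
      have h2 : |∑ l ∈ n.divisors, c l| ≤ 2 ^ 22 := by
        refine (abs_sum_le_sum_abs _ _).trans ?_
        refine (sum_le_sum fun l _ => hE.cbd l).trans ?_
        rw [sum_const, nsmul_eq_mul]
        have h3 := a7_div hX2 hy9 hc.2 hr
        have h4 : (n.divisors.card : ℝ) ≤ 2 ^ 9 := by exact_mod_cast h3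
        calc (n.divisors.card : ℝ) * 2 ^ 13 ≤ 2 ^ 9 * 2 ^ 13 :=
              mul_le_mul_of_nonneg_right h4 (by norm_num)
          _ = 2 ^ 22 := by norm_num
      rw [h1] at hrz ⊢
      rw [one_mul]
      calc |∑ l ∈ n.divisors, c l| ≤ 2 ^ 22 := h2
        _ = 2 ^ 22 * 1 := by ring
        _ ≤ 2 ^ 22 * rg (zI X) n := mul_le_mul_of_nonneg_left hrz (by norm_num)
    · have h1 : rg y n = 0 := by unfold rg; rw [if_neg hr]
      rw [h1, zero_mul]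
      positivity
  · rw [abs_zero]
    positivity

/-! ### The weights of a family -/

theorem decJ_monoB {B B0 C2 : ℕ} (hB : B0 ≤ B) {th e τ : ℝ} {ww : ℕ → ℕ → ℝ}
    (h : DecJ B C2 th e τ ww) : DecJ B0 C2 th e τ ww := by
  obtain ⟨X0, h⟩ := h
  obtain ⟨X1, hX1⟩ := ay_log 1
  refine ⟨max X0 X1, fun X hX => ?_⟩
  obtain ⟨I, γ, α, M, K, a, c, err, h1, h2, h3, h4, h5, h6, h7, h8, h9⟩ := h X (by omega)
  have hL := hX1 X (by omega)
  refine ⟨I, γ, α, M, K, a, c, err, h1, h2, h3, h4, h5, h6, h7, h8, h9.trans ?_⟩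
  exact div_le_div_of_nonneg_left (Nat.cast_nonneg X) (by positivity) (pow_le_pow_right₀ hL hB)

theorem cls_mono {K K0 B : ℕ} (hK : K ≤ K0) {ww aa : ℕ → ℕ → ℝ} (h : Cls K B ww aa) :
    Cls K0 B ww aa := by
  obtain ⟨X0, h⟩ := h
  refine ⟨X0, fun X hX => ⟨fun n => ((h X hX).1 n).trans ?_, (h X hX).2⟩⟩
  have h1 : (K : ℝ) ≤ K0 := by exact_mod_cast hK
  exact mul_le_mul_of_nonneg_right h1 (rg_nonneg (zI X) n).1

theorem cls_self {K0 C1 B : ℕ} {ww gg : ℕ → ℕ → ℝ} (h : W1 K0 C1 ww gg) : Cls K0 B ww ww := by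
  obtain ⟨X0, h⟩ := h
  refine ⟨X0, fun X hX => ⟨fun n => ((h X hX).1 n).1, ?_⟩⟩
  simp only [sub_self, ne_eq, OfNat.ofNat_ne_zero, not_false_eq_true, zero_pow, sum_const_zero]
  exact div_nonneg (Nat.cast_nonneg _) (pow_nonneg (Real.log_natCast_nonneg _) _)

/-- exact forms for a family -/
theorem cls_fam (hF : FamY) (th e τ : ℝ) (hA : AdmY th e τ) (B B' : ℕ) (hB : B + 3 ≤ B')
    (W : ℕ → Finset ℕ → ℝ) (hW : WAdm th e τ B' W) :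
    ∃ (y : ℕ → ℕ) (c : ℕ → ℕ → ℝ), (∃ X0 : ℕ, ∀ X : ℕ, X0 ≤ X → ExF th e τ X (y X) (c X)) ∧
      Cls (2 ^ 22) B (wF B' W) (fun X => AE X (y X) (c X)) := by
  obtain ⟨X0, h⟩ := hF th e τ hA B' (by omega) W hW
  choose! y c h using h
  obtain ⟨X1, hae⟩ := a7_ae th e τ hA
  obtain ⟨X2, hX2⟩ := ay_log 1
  refine ⟨y, c, ⟨X0, fun X hX => (h X hX).1⟩, max X0 (max X1 X2), fun X hX => ?_⟩
  obtain ⟨g1, g2⟩ := h X (by omega)
  have hL := hX2 X (by omega)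
  refine ⟨hae X (by omega) (y X) (c X) g1, ?_⟩
  refine (le_of_eq ?_).trans (g2.trans ?_)
  · rfl
  · have h1 : (Real.log X) ^ B ≤ (Real.log X) ^ ((B' : ℝ) - 3) := by
      rw [← Real.rpow_natCast]
      refine Real.rpow_le_rpow_of_exponent_le hL ?_
      have : ((B + 3 : ℕ) : ℝ) ≤ B' := by exact_mod_cast hB
      push_cast at this
      linarith
    exact div_le_div_of_nonneg_left (Nat.cast_nonneg X) (by positivity) h1

theorem slV_fam (h : SlA) {th e τ : ℝ} (hA : AdmY th e τ) {y : ℕ → ℕ} {c : ℕ → ℕ → ℝ}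
    (hE : ∃ X0 : ℕ, ∀ X : ℕ, X0 ≤ X → ExF th e τ X (y X) (c X)) :
    SlV th e (fun X => AE X (y X) (c X)) := by
  obtain ⟨C, c0, D, hC, hc, h⟩ := h th e τ hA
  obtain ⟨X1, hE⟩ := hE
  refine ⟨C, c0, D, hC, hc, fun A1 B => ?_⟩
  obtain ⟨X0, h⟩ := h A1 B
  refine ⟨max X0 X1, fun X hX T hT1 hT2 Y hY hY2 hYc J hJ hJ' => ?_⟩
  exact h X (by omega) T hT1 hT2 (y X) (c X) (hE X (by omega)) Y hY hY2 hYc J hJ hJ'

theorem exV_fam (h : ExY) {th e τ : ℝ} (hA : AdmY th e τ) {y : ℕ → ℕ} {c : ℕ → ℕ → ℝ}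
    (hE : ∃ X0 : ℕ, ∀ X : ℕ, X0 ≤ X → ExF th e τ X (y X) (c X)) :
    ExV (fun X => AE X (y X) (c X)) := by
  intro κ B hκ
  obtain ⟨M', X0, h⟩ := h th e τ hA κ B hκ
  obtain ⟨X1, hE⟩ := hE
  refine ⟨M', max X0 X1, fun X hX T hT1 hT2 ψ hψ => ?_⟩
  exact h X (by omega) T hT1 hT2 (y X) (c X) (hE X (by omega)) ψ hψ

theorem bdV_cls {K0 B : ℕ} {ww aa : ℕ → ℕ → ℝ} (h : Cls K0 B ww aa) : BdV K0 aa := by
  obtain ⟨X0, h⟩ := h
  exact ⟨X0, fun X hX => (h X hX).1⟩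

/-- the form of (ARC) used by the assembly -/
theorem arcY_of (th e : ℝ) (ww1 gg1 aa1 ww2 gg2 aa2 : ℕ → ℕ → ℝ)
    (h : ∀ K1 K2 K' : ℕ, ∃ A' D0 : ℕ, ∀ D' : ℕ, D0 ≤ D' → ∃ X0 : ℕ, ∀ X : ℕ, X0 ≤ X →
      ∀ (n : ℕ) (QQ : Finset ℕ) (N : ℝ) (ρ : ℕ → ℝ), DiscH e th K1 K2 X n QQ N ρ →
      ‖∑ q ∈ QQ, dsc (FFL ww1 gg1 0 ww2 gg2 (-1) (wX D' X) X n) X q (ρ q)‖ ≤
        (∑ q ∈ QQ, ‖∑ a ∈ rr q, ∫ x in (-(ρ q / X))..(ρ q / X),
          VQf X (aa1 X) q (allC q) a x *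
            VQf X (aa2 X) q (YQf X (4 * (Real.log X) ^ K2) ((Real.log X) ^ K') A' (aa2 X) q) a x *
            ee (-((n : ℝ) * ((a : ℝ) / q + x)))‖) + X / (Real.log X) ^ 3) :
    ArcY th e ww1 gg1 ww2 gg2 aa1 aa2 := by
  intro K1 K2 K' _
  obtain ⟨A', D0, h⟩ := h K1 K2 K'
  refine ⟨A', D0, fun D' hD' => ?_⟩
  obtain ⟨X0, h⟩ := h D' hD'
  refine ⟨X0, fun X hX n hn1 hn2 QQ N ρ hQ hρ hN hc hNle => ?_⟩
  exact h X hX n QQ N ρ ⟨hn1, hn2, hQ, hρ, hN, hc, hNle⟩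

/-- the greedy statement for all families -/
theorem grY_of (hArc : ArcBY) (hFam : FamY) (hSlA : SlA) (hSlR : SlR) (hEx : ExY) (hSq : SqY)
    (hHv : HvY) (hPr : PrY) (hG : GauBD) (hP : ParBD) : GrY := by
  obtain ⟨B, hB⟩ := hArc 3
  refine ⟨B + 3, fun B' K0 C1 C2 th e τ hB' hAY hA hwP Wa Wb ha hb => ?_⟩
  have hAY' := hAY
  obtain ⟨a1, a2, a3, a4, a5, a6, a7⟩ := hAY'
  have hτ : 0 < τ := by linarith
  obtain ⟨Km, hKm⟩ : ∃ Km : ℕ, Km = max K0 (2 ^ 22) := ⟨_, rfl⟩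
  have hK1 : K0 ≤ Km := by rw [hKm]; exact le_max_left _ _
  have hK2 : 2 ^ 22 ≤ Km := by rw [hKm]; exact le_max_right _ _
  obtain ⟨ya, ca, hEa, hCa⟩ := cls_fam hFam th e τ hAY B B' hB' Wa ha.wad
  obtain ⟨yb, cb, hEb, hCb⟩ := cls_fam hFam th e τ hAY B B' hB' Wb hb.wad
  have hCa' := cls_mono hK2 hCa
  have hCb' := cls_mono hK2 hCb
  have hwP' : W1 Km C1 wP gP := w1_monoL hK1 le_rfl hwP
  have hwa : W1 Km C1 (wF B' Wa) (gF B' Wa) := w1_monoL hK1 le_rfl ha.w1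
  have hwb : W1 Km C1 (wF B' Wb) (gF B' Wb) := w1_monoL hK1 le_rfl hb.w1
  have hdb : DecJ B C2 th e τ (wF B' Wb) := decJ_monoB (by omega) hb.dec
  have hsl := slV_fam hSlA hAY hEb
  have hth1 : 1 - th + 3 / 2 * e ≤ 1 - 1 / 10 := by linarith
  have hth2 : 1 - th + 3 / 2 * e ≤ 19 / 20 := by linarith
  constructor
  · have harc := arcY_of th e wP gP wP (wF B' Wb) (gF B' Wb)
      (fun X => AE X (yb X) (cb X)) (hB Km C1 C2 th e τ hA hτ wP gP wP (wF B' Wb) (gF B' Wb)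
      (fun X => AE X (yb X) (cb X)) hwP' (cls_self hwP') hwb hdb hb.maj hCb')
    exact greedyY th e Km wP gP (wF B' Wb) (gF B' Wb) wP (fun X => AE X (yb X) (cb X)) a3 hth1
      harc hG hP hsl (relV_wP th e hth2 hSlR) (bdV_cls (cls_self (B := B) hwP')) (bdV_cls hCb')
      (exV_fam hEx hAY hEb) hSq hHv hPr
  · have harc := arcY_of th e (wF B' Wa) (gF B' Wa) (fun X => AE X (ya X) (ca X))
      (wF B' Wb) (gF B' Wb) (fun X => AE X (yb X) (cb X)) (hB Km C1 C2 th e τ hA hτ (wF B' Wa)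
      (gF B' Wa) (fun X => AE X (ya X) (ca X)) (wF B' Wb) (gF B' Wb)
      (fun X => AE X (yb X) (cb X)) hwa hCa' hwb hdb hb.maj hCb')
    exact greedyY th e Km (wF B' Wa) (gF B' Wa) (wF B' Wb) (gF B' Wb)
      (fun X => AE X (ya X) (ca X)) (fun X => AE X (yb X) (cb X)) a3 hth1
      harc hG hP hsl (relV_of_slV th e _ (slV_fam hSlA hAY hEa)) (bdV_cls hCa') (bdV_cls hCb')
      (exV_fam hEx hAY hEb) hSq hHv hPr

end Pool.MP_dd84fd_nt.BY
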