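import Pool.Agent.Lib.MP_dd84fd_nt.BX.AsDefs
import Pool.Agent.Lib.MP_dd84fd_nt.BX.CDefs
import Pool.Agent.Lib.MP_dd84fd_nt.MX.SvDefs
import Pool.Agent.Lib.MP_dd84fd_nt.LX.Defs

/-!
# BY: boundedly many explicit moduli for the exponents `1/7`, `1/5`: definitions (helper18)

`SXf X w ψ x`: exponential sum of the weight `w` twisted by `ψ`; `sNf`: its normalised `L²` norm on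
`|x| ≤ T/X` (BX: `SX`, `sN` are the case `w = wP X`).  `AE X y c`: the exact form
`[X5 < n ≤ X] rg y n ∑_{l ∣ n} c l` of the sieve families; `ExF`: its admissible data.
`GreedyBY`: what the plug-in uses, for two families.
-/

set_option autoImplicit false

namespace Pool.MP_dd84fd_nt.BY

open Finset Pool.MP_67663b_nt.Odd Pool.MP_dd84fd_nt.En Pool.MP_dd84fd_nt.E2 Pool.MP_dd84fd_nt.LS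
open Pool.MP_dd84fd_nt.GX Pool.MP_dd84fd_nt.HX Pool.MP_dd84fd_nt.IX
open Pool.MP_dd84fd_nt.PL (rr)
open Pool.MP_dd84fd_nt.JX (wP gP DecJ)
open Pool.MP_dd84fd_nt.KX (lK)
open Pool.MP_dd84fd_nt.LX (FFL)
open Pool.MP_dd84fd_nt.BX (PC pv IsPC PFam prc ind h0 cP cf)

/-- `∑_{n ≤ X} w(n) ψ(n) e(nx)` -/
noncomputable def SXf (X : ℕ) (w : ℕ → ℝ) (ψ : PC) (x : ℝ) : ℂ :=
  ∑ n ∈ Icc 1 X, ((w n : ℝ) : ℂ) * pv ψ n * ee ((n : ℝ) * x)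

/-- `(L / √X) ‖SXf X w ψ‖` in `L²(|x| ≤ T/X)` -/
noncomputable def sNf (X : ℕ) (T : ℝ) (w : ℕ → ℝ) (ψ : PC) : ℝ :=
  Real.log X / Real.sqrt X * Real.sqrt (∫ x in (-(T / X))..(T / X), ‖SXf X w ψ x‖ ^ 2)

open Classical in
/-- the exact form of the sieve families -/
noncomputable def AE (X y : ℕ) (c : ℕ → ℝ) (n : ℕ) : ℝ :=
  if IY.X5 X < (n : ℝ) ∧ n ≤ X then rg y n * ∑ l ∈ n.divisors, c l else 0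

/-- admissible parameters (`AdmM` and `AdmX` imply it) -/
def AdmY (th e τ : ℝ) : Prop := 1 / 8 < th ∧ th < 1 / 3 ∧ 0 < e ∧ 1000 * e ≤ τ ∧
  1000 * τ ≤ 1 ∧ 16 * τ ≤ 1 / 3 - th ∧ 16 * τ ≤ th - 1 / 8

/-- admissible data of an exact form at scale `X` -/
structure ExF (th e τ : ℝ) (X y : ℕ) (c : ℕ → ℝ) : Prop where
  ylo : (X : ℝ) ^ (th - 4 * e) ≤ y
  yhi : (y : ℝ) ≤ (X : ℝ) ^ (th - 299 / 100 * e)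
  cbd : ∀ l, |c l| ≤ 2 ^ 13
  crg : ∀ l, c l ≠ 0 → Rgh y l
  csu : ∀ l, c l ≠ 0 → (l : ℝ) ≤ (X : ℝ) ^ ((1 + th) / 2 - τ)

/-- the type functions of the families: at most three boxes in the weights, level `X^ℓ` -/
def WAdm (th e τ : ℝ) (B' : ℕ) (W : ℕ → Finset ℕ → ℝ) : Prop := ∃ X0 : ℕ, ∀ X : ℕ, X0 ≤ X →
  ∃ lam : Finset ℕ → ℝ, (∀ S, |lam S| ≤ 2 ^ 13) ∧
    (∀ S, lam S ≠ 0 → S.card ≤ 3 ∧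
      IY.sg (IY.vlog (IY.kp B' X) (IY.zt X)) S ≤ lK th τ * Real.log X) ∧
    W X = IY.Wl τ (IY.bI th e) (IY.kp B' X) X lam

/-- (T1) the families are exact forms up to a small error in mean square -/
def FamY : Prop := ∀ (th e τ : ℝ), AdmY th e τ → ∀ B' : ℕ, 1 ≤ B' → ∀ W : ℕ → Finset ℕ → ℝ,
  WAdm th e τ B' W → ∃ X0 : ℕ, ∀ X : ℕ, X0 ≤ X → ∃ (y : ℕ) (c : ℕ → ℝ), ExF th e τ X y c ∧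
    ∑ n ∈ Icc 1 X, (IY.wty (IY.kp B' X) X (W X) n - AE X y c n) ^ 2 ≤
      X / (Real.log X) ^ ((B' : ℝ) - 3)

/-- (T2) the sieve families: `s ≤ M + E`, `M` in `l¹`, `E` small in `l²`, on every level `J` -/
def SlA : Prop := ∀ (th e τ : ℝ), AdmY th e τ → ∃ (C c : ℝ) (D : ℕ), 0 < C ∧ 0 < c ∧
  ∀ A1 B : ℕ, ∃ X0 : ℕ, ∀ X : ℕ, X0 ≤ X → ∀ T : ℝ, 1 ≤ T → T ≤ (Real.log X) ^ B →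
    ∀ (y : ℕ) (cc : ℕ → ℝ), ExF th e τ X y cc → ∀ Y : Finset PC,
    PFam Y ((X : ℝ) ^ (1 - th + 3 / 2 * e)) → (∀ ψ ∈ Y, 2 ≤ ψ.1) → (Y.card : ℝ) ≤ (X : ℝ) ^ c →
    ∀ J : ℕ, 1 ≤ J → (2 : ℝ) ^ J ≤ (Real.log X) ^ A1 → ∃ M E : PC → ℝ,
      (∀ ψ ∈ Y, 0 ≤ M ψ ∧ 0 ≤ E ψ ∧ sNf X T (AE X y cc) ψ ≤ M ψ + E ψ) ∧
      ∑ ψ ∈ Y, M ψ ≤ C * (J : ℝ) ^ D ∧ ∑ ψ ∈ Y, E ψ ^ 2 ≤ (1 / 4 : ℝ) ^ J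

/-- (T3) the primes, relative: the partners of one character -/
def SlR : Prop := ∀ ν : ℝ, 0 < ν → ∃ C c : ℝ, 0 < C ∧ 0 < c ∧ ∀ K B : ℕ, ∃ X0 : ℕ, ∀ X : ℕ,
  X0 ≤ X → ∀ T : ℝ, 1 ≤ T → T ≤ (Real.log X) ^ B → ∀ ψ₂ : PC, IsPC ψ₂ →
    (ψ₂.1 : ℝ) ≤ (X : ℝ) ^ (1 - ν) → ∀ Y : Finset PC,
    (∀ ψ ∈ Y, IsPC ψ ∧ 2 ≤ ψ.1 ∧ (ψ.1 : ℝ) ≤ (X : ℝ) ^ (1 - ν) ∧
      (cP ψ ψ₂ : ℝ) ≤ (Real.log X) ^ K) → (Y.card : ℝ) ≤ (X : ℝ) ^ c →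
    ∑ ψ ∈ Y, BX.sN X T ψ ≤ C

/-- (T4) bounded weights on rough numbers: mean square over any small family -/
def SqY : Prop := ∀ (ε : ℝ) (K0 : ℕ), 0 < ε → ∃ C c : ℝ, 0 < C ∧ 0 < c ∧ ∀ B : ℕ, ∃ X0 : ℕ,
  ∀ X : ℕ, X0 ≤ X → ∀ T : ℝ, 1 ≤ T → T ≤ (Real.log X) ^ B → ∀ w : ℕ → ℝ,
    (∀ n, |w n| ≤ K0 * rg (zI X) n) → ∀ Y : Finset PC,
    (∀ ψ ∈ Y, IsPC ψ ∧ 2 ≤ ψ.1 ∧ (ψ.1 : ℝ) ≤ (X : ℝ) ^ (1 - ε)) → (Y.card : ℝ) ≤ (X : ℝ) ^ c →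
    ∑ ψ ∈ Y, sNf X T w ψ ^ 2 ≤ C

/-- (T4') the number of heavy characters -/
def HvY : Prop := ∀ (ε κ : ℝ) (K0 : ℕ), 0 < ε → 0 < κ → ∃ M : ℕ, ∀ B : ℕ, ∃ X0 : ℕ,
  ∀ X : ℕ, X0 ≤ X → ∀ T : ℝ, 1 ≤ T → T ≤ (Real.log X) ^ B → ∀ w : ℕ → ℝ,
    (∀ n, |w n| ≤ K0 * rg (zI X) n) → ∀ Y : Finset PC,
    (∀ ψ ∈ Y, IsPC ψ ∧ 2 ≤ ψ.1 ∧ (ψ.1 : ℝ) ≤ (X : ℝ) ^ (1 - ε) ∧ κ ≤ sNf X T w ψ) → Y.card ≤ M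

/-- (T5) a character with large norm for an exact form has a large sum over primes -/
def ExY : Prop := ∀ (th e τ : ℝ), AdmY th e τ → ∀ (κ : ℝ) (B : ℕ), 0 < κ → ∃ (M' X0 : ℕ),
  ∀ X : ℕ, X0 ≤ X → ∀ T : ℝ, 1 ≤ T → T ≤ (Real.log X) ^ B → ∀ (y : ℕ) (cc : ℕ → ℝ),
    ExF th e τ X y cc → ∀ ψ : PC, κ ≤ sNf X T (AE X y cc) ψ →
    ∃ u : ℕ, (X : ℝ) ^ (1 / 11 : ℝ) ≤ u ∧ u ≤ X ∧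
      (u : ℝ) / (Real.log X) ^ M' ≤ ‖∑ p ∈ (Icc 1 u).filter Nat.Prime, ψ.2 (p : ZMod ψ.1)‖

/-- (T6) a character and the primitive character which induces it -/
def PrY : Prop := ∀ (K0 A' B : ℕ), ∃ X0 : ℕ, ∀ X : ℕ, X0 ≤ X → ∀ T : ℝ, 1 ≤ T →
  T ≤ (Real.log X) ^ B → ∀ w : ℕ → ℝ, (∀ n, |w n| ≤ K0 * rg (zI X) n) →
    ∀ q : ℕ, 1 ≤ q → q ≤ X → ∀ χ : DirichletCharacter ℂ q,
      sNf X T w ⟨q, χ⟩ ≤ sNf X T w (prc χ) + 1 / (Real.log X) ^ A'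

/-! ### The interface with the plug-in -/

/-- `d = r/h`, `h ≤ M`, `r` the conductor of a primitive character with a large sum over primes -/
def ExplY (M X d : ℕ) : Prop :=
  ∃ (r h : ℕ) (χ : DirichletCharacter ℂ r), χ.IsPrimitive ∧ 1 ≤ h ∧ h ≤ M ∧ d * h = r ∧
    ∃ u : ℕ, (X : ℝ) ^ (1 / 11 : ℝ) ≤ u ∧ u ≤ X ∧
      (u : ℝ) / (Real.log X) ^ M ≤ ‖∑ p ∈ (Icc 1 u).filter Nat.Prime, χ (p : ZMod r)‖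

/-- the discs with `q ≤ L^K1 (q,n)`, radii `≤ 4 L^K2 / X`, for `ww1 (ww2 - gg2 f1)`: total `≤ R` -/
def GoodY (th e : ℝ) (ww1 gg1 ww2 gg2 : ℕ → ℕ → ℝ) (w X n K1 K2 : ℕ) (R : ℝ) : Prop :=
  ∀ (QQ : Finset ℕ) (N : ℝ) (ρ : ℕ → ℝ),
    (∀ q ∈ QQ, 1 ≤ q ∧ (q : ℝ) ≤ (Real.log X) ^ K1 * (Nat.gcd q n : ℝ)) →
    (∀ q ∈ QQ, 0 ≤ ρ q ∧ ρ q ≤ 4 * (Real.log X) ^ K2) →
    (∀ q ∈ QQ, ∀ q' ∈ QQ, (Nat.lcm q q' : ℝ) ≤ N) → (QQ.card : ℝ) ≤ (X : ℝ) ^ (e / 2) →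
    N ≤ (X : ℝ) ^ (1 - th + 3 / 2 * e) →
    ‖∑ q ∈ QQ, dsc (FFL ww1 gg1 0 ww2 gg2 (-1) w X n) X q (ρ q)‖ ≤ R

/-- boundedly many moduli for two families at one exponent -/
def GreedyBY (th e : ℝ) (ww1 gg1 ww2 gg2 : ℕ → ℕ → ℝ) : Prop := ∀ η : ℝ, 0 < η → ∀ K1 K2 : ℕ,
  ∃ M : ℕ, ∀ K : ℕ, ∃ D0 : ℕ, ∀ D' : ℕ, D0 ≤ D' → ∃ X0 : ℕ, ∀ X : ℕ, X0 ≤ X →
    ∃ D : Finset ℕ, D.card ≤ M ∧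
      (∀ d ∈ D, (Real.log X) ^ K ≤ (d : ℝ) ∧ (d : ℝ) ≤ (X : ℝ) ^ (1 - th + 3 * e) ∧
        ExplY M X d) ∧
      ∀ n : ℕ, X < 2 * n → n ≤ X → (∀ d ∈ D, ¬ d ∣ n) →
        GoodY th e ww1 gg1 ww2 gg2 (wX D' X) X n K1 K2
          (η * ((n : ℝ) / (Nat.totient n : ℝ)) * (X / (Real.log X) ^ 2))

end Pool.MP_dd84fd_nt.BY
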