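import Pool.Agent.Lib.MP_dd84fd_nt.BY.Defs
import Pool.Agent.Lib.MP_dd84fd_nt.HX.DcEE
import Pool.Agent.Lib.MP_dd84fd_nt.HX.DcRg
import Pool.Agent.Lib.MP_dd84fd_nt.E2.MinorP

/-!
# BY-ExA (T5): a character with large norm for an exact form has a large sum over primes

Let `|∑_(p ≤ u) ψ(p)| < u/L^M'` for all `u ∈ [X^(1/11), X]`.  Largest prime factor: for the `y`-rough `k = m p`, `p = P^+(k)`, the inner sum runs over the
primes in `[max(y, P^+(m)), V/m]`: `|∑_(k ≤ V) rg y k ψ(k)| ≤ 1 + 2 δ V (1 + log V)`, `δ = L^-M'` (`ex_rough`).  The exact form is `c * rg y`: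
`|∑_(n ≤ t) AE(n) ψ(n)| ≤ 2^13 ∑_(l ≤ X^(2/3)) (2 + 4 δ (X/l) (1 + L))` (`ex_AE`).  Partial summation in `n` and the trivial bound of the integral as in `BX/Ex.lean`.
-/

set_option autoImplicit false

namespace Pool.MP_dd84fd_nt.BY

open Finset MeasureTheory Pool.MP_67663b_nt.Odd Pool.MP_dd84fd_nt.En Pool.MP_dd84fd_nt.E2
open Pool.MP_dd84fd_nt.LS Pool.MP_dd84fd_nt.GX Pool.MP_dd84fd_nt.HX Pool.MP_dd84fd_nt.IX
open Pool.MP_dd84fd_nt.BX (PC pv pv_mul pv_norm_le)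

/-- the largest prime factor -/
private def ePp (k : ℕ) : ℕ := k.primeFactors.sup id

private theorem ePp_mem {k : ℕ} (hk : 2 ≤ k) : ePp k ∈ k.primeFactors := by
  have h : k.primeFactors.Nonempty := Nat.nonempty_primeFactors.2 (by omega)
  obtain ⟨p, hp, hpe⟩ := Finset.exists_mem_eq_sup k.primeFactors h id
  unfold ePp
  rw [hpe]
  exact hp

private theorem ePp_le {k r : ℕ} (hr : r ∈ k.primeFactors) : r ≤ ePp k := Finset.le_sup (f := id) hr

private theorem ePp_mul {m p : ℕ} (hm : m ≠ 0) (hp : p.Prime) (h : ePp m ≤ p) : ePp (m * p) = p := by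
  unfold ePp at *
  rw [Nat.primeFactors_mul hm hp.ne_zero, hp.primeFactors, sup_union, sup_singleton]
  exact sup_eq_right.2 h

/-- the sum over rough numbers, decomposed by the largest prime factor -/
private theorem ex_dec (ψ : PC) (y V : ℕ) :
    ∑ k ∈ (Icc 2 V).filter (fun k => Rgh y k), pv ψ k =
      ∑ m ∈ (Icc 1 V).filter (fun m => Rgh y m),
        ∑ p ∈ (Icc 1 (V / m)).filter (fun p => p.Prime ∧ y ≤ p ∧ ePp m ≤ p), pv ψ m * pv ψ p := by
  rw [sum_sigma']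
  refine sum_nbij' (fun k => ⟨k / ePp k, ePp k⟩) (fun x => x.1 * x.2) ?_ ?_ ?_ ?_ ?_
  · intro k hk
    rw [mem_filter, mem_Icc] at hk
    obtain ⟨⟨hk2, hkV⟩, hr⟩ := hk
    have hP := ePp_mem hk2
    have hPp := Nat.prime_of_mem_primeFactors hP
    have hPd := Nat.dvd_of_mem_primeFactors hP
    have hd : k / ePp k * ePp k = k := Nat.div_mul_cancel hPd
    have hm1 : 1 ≤ k / ePp k := Nat.div_pos (Nat.le_of_dvd (by omega) hPd) hPp.pos
    have hmd : k / ePp k ∣ k := Nat.div_dvd_of_dvd hPd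
    rw [mem_sigma, mem_filter, mem_filter, mem_Icc, mem_Icc]
    refine ⟨⟨⟨hm1, (Nat.div_le_self _ _).trans hkV⟩, Nat.one_le_iff_ne_zero.1 hm1, fun q hq => hr.2 q ?_⟩, ⟨hPp.one_le, ?_⟩,
      hPp, hr.2 _ hP, ?_⟩
    · exact Nat.primeFactors_mono hmd (by omega) hq
    · rw [Nat.le_div_iff_mul_le hm1, mul_comm, hd]
      exact hkV
    · unfold ePp
      exact Finset.sup_mono (Nat.primeFactors_mono hmd (by omega))
  · rintro ⟨m, p⟩ hx
    rw [mem_sigma, mem_filter, mem_filter, mem_Icc, mem_Icc] at hx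
    obtain ⟨⟨⟨hm1, hmV⟩, hr⟩, ⟨hp1, hpU⟩, hpp, hyp, hmp⟩ := hx
    simp only at hm1 hmV hr hp1 hpU hpp hyp hmp ⊢
    rw [mem_filter, mem_Icc]
    have h1 : p * m ≤ V := (Nat.le_div_iff_mul_le hm1).1 hpU
    refine ⟨⟨?_, by rw [mul_comm]; exact h1⟩, ?_, ?_⟩
    · have := hpp.two_le
      calc 2 ≤ p := this
        _ ≤ m * p := Nat.le_mul_of_pos_left p hm1
    · exact Nat.mul_ne_zero (by omega) hpp.ne_zero
    · intro q hq
      rw [Nat.primeFactors_mul (by omega) hpp.ne_zero, hpp.primeFactors, mem_union, mem_singleton] at hq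
      rcases hq with hq | hq
      · exact hr.2 q hq
      · rw [hq]
        exact hyp
  · intro k hk
    rw [mem_filter, mem_Icc] at hk
    exact Nat.div_mul_cancel (Nat.dvd_of_mem_primeFactors (ePp_mem hk.1.1))
  · rintro ⟨m, p⟩ hx
    rw [mem_sigma, mem_filter, mem_filter, mem_Icc, mem_Icc] at hx
    obtain ⟨⟨⟨hm1, hmV⟩, hr⟩, ⟨hp1, hpU⟩, hpp, hyp, hmp⟩ := hx
    simp only at hm1 hmV hr hp1 hpU hpp hyp hmp ⊢
    have h1 := ePp_mul (by omega : m ≠ 0) hpp hmp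
    rw [h1, Nat.mul_div_cancel _ hpp.pos]
  · intro k hk
    rw [mem_filter, mem_Icc] at hk
    simp only
    rw [← pv_mul, Nat.div_mul_cancel (Nat.dvd_of_mem_primeFactors (ePp_mem hk.1.1))]

/-- the sums over rough numbers -/
private theorem ex_rough (ψ : PC) (y V : ℕ) (hy : 2 ≤ y) (δ : ℝ) (hδ : 0 ≤ δ)
    (hS : ∀ u : ℕ, y ≤ u + 1 → u ≤ V → ‖∑ p ∈ (Icc 1 u).filter Nat.Prime, pv ψ p‖ ≤ δ * u) :
    ‖∑ k ∈ Icc 1 V, (rg y k : ℂ) * pv ψ k‖ ≤ 1 + 2 * δ * V * (1 + Real.log V) := by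
  classical
  have h1 : ∑ k ∈ Icc 1 V, (rg y k : ℂ) * pv ψ k = ∑ k ∈ (Icc 1 V).filter (fun k => Rgh y k), pv ψ k := by
    rw [sum_filter]
    refine sum_congr rfl fun k _ => ?_
    unfold rg
    split_ifs <;> simp
  have h2 : (Icc 1 V).filter (fun k => Rgh y k) ⊆ insert 1 ((Icc 2 V).filter (fun k => Rgh y k)) := by
    intro k hk
    rw [mem_filter, mem_Icc] at hk
    rw [mem_insert, mem_filter, mem_Icc]
    by_cases h : k = 1
    · exact Or.inl h
    · exact Or.inr ⟨⟨by omega, hk.1.2⟩, hk.2⟩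
  have h3 : ‖∑ k ∈ (Icc 1 V).filter (fun k => Rgh y k), pv ψ k‖ ≤
      1 + ‖∑ k ∈ (Icc 2 V).filter (fun k => Rgh y k), pv ψ k‖ := by
    rcases Nat.eq_zero_or_pos V with hV | hV
    · rw [hV]
      simp
    · have h4 : (Icc 1 V).filter (fun k => Rgh y k) = insert 1 ((Icc 2 V).filter (fun k => Rgh y k)) := by
        refine Subset.antisymm h2 ?_
        intro k hk
        rw [mem_insert, mem_filter, mem_Icc] at hk
        rw [mem_filter, mem_Icc]
        rcases hk with h | h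
        · rw [h]
          refine ⟨⟨le_rfl, hV⟩, one_ne_zero, ?_⟩
          simp
        · exact ⟨⟨by omega, h.1.2⟩, h.2⟩
      rw [h4, sum_insert (by rw [mem_filter, mem_Icc]; omega)]
      exact (norm_add_le _ _).trans (add_le_add (pv_norm_le ψ 1) le_rfl)
  rw [h1]
  refine h3.trans (add_le_add le_rfl ?_)
  rw [ex_dec]
  have h5 : ∀ m ∈ (Icc 1 V).filter (fun m => Rgh y m),
      ‖∑ p ∈ (Icc 1 (V / m)).filter (fun p => p.Prime ∧ y ≤ p ∧ ePp m ≤ p), pv ψ m * pv ψ p‖ ≤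
        2 * δ * V * (1 / (m : ℝ)) := by
    intro m hm
    rw [mem_filter, mem_Icc] at hm
    obtain ⟨⟨hm1, hmV⟩, -⟩ := hm
    have hm0 : (0 : ℝ) < m := by exact_mod_cast hm1
    obtain ⟨U, hU⟩ : ∃ U, U = V / m := ⟨_, rfl⟩
    have hUV : U ≤ V := by
      rw [hU]
      exact Nat.div_le_self _ _
    have hUr : (U : ℝ) ≤ V / m := by
      rw [hU]
      exact Nat.cast_div_le
    obtain ⟨a, ha⟩ : ∃ a, a = max y (ePp m) := ⟨_, rfl⟩
    rw [← mul_sum, norm_mul, ← hU]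
    have h6 : (Icc 1 U).filter (fun p => p.Prime ∧ y ≤ p ∧ ePp m ≤ p) =
        ((Icc 1 U).filter Nat.Prime).filter (fun p => a ≤ p) := by
      rw [filter_filter]
      refine filter_congr fun p _ => ?_
      rw [ha, max_le_iff]
    have h7 : ‖∑ p ∈ (Icc 1 U).filter (fun p => p.Prime ∧ y ≤ p ∧ ePp m ≤ p), pv ψ p‖ ≤ 2 * δ * U := by
      rw [h6]
      have hU0 : (0 : ℝ) ≤ U := Nat.cast_nonneg U
      by_cases haU : a ≤ U
      · have h8 : ∑ p ∈ ((Icc 1 U).filter Nat.Prime).filter (fun p => a ≤ p), pv ψ p =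
            ∑ p ∈ (Icc 1 U).filter Nat.Prime, pv ψ p - ∑ p ∈ (Icc 1 (a - 1)).filter Nat.Prime, pv ψ p := by
          rw [eq_sub_iff_add_eq, ← sum_filter_add_sum_filter_not ((Icc 1 U).filter Nat.Prime) (fun p => a ≤ p)]
          congr 1
          refine sum_congr ?_ fun _ _ => rfl
          ext p
          rw [mem_filter, mem_filter, mem_filter, mem_Icc, mem_Icc]
          constructor
          · rintro ⟨⟨h9, h10⟩, h11⟩
            exact ⟨⟨⟨h9, by omega⟩, h11⟩, by omega⟩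
          · rintro ⟨⟨⟨h9, h10⟩, h11⟩, h12⟩
            exact ⟨⟨h9, by omega⟩, h11⟩
        rw [h8]
        have hya : y ≤ a := by
          rw [ha]
          exact le_max_left _ _
        have h9 := hS U (by omega) hUV
        have h10 := hS (a - 1) (by omega) (by omega)
        have h11 : ((a - 1 : ℕ) : ℝ) ≤ U := by exact_mod_cast (by omega : a - 1 ≤ U)
        have h12 := mul_le_mul_of_nonneg_left h11 hδ
        refine (norm_sub_le _ _).trans ?_
        linarith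
      · have h8 : ((Icc 1 U).filter Nat.Prime).filter (fun p => a ≤ p) = ∅ := by
          rw [filter_eq_empty_iff]
          intro p hp
          rw [mem_filter, mem_Icc] at hp
          omega
        rw [h8, sum_empty, norm_zero]
        positivity
    calc ‖pv ψ m‖ * ‖∑ p ∈ (Icc 1 U).filter (fun p => p.Prime ∧ y ≤ p ∧ ePp m ≤ p), pv ψ p‖
        ≤ 1 * (2 * δ * U) := mul_le_mul (pv_norm_le ψ m) h7 (norm_nonneg _) zero_le_one
      _ ≤ 2 * δ * (V / m) := by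
          rw [one_mul]
          exact mul_le_mul_of_nonneg_left hUr (by positivity)
      _ = 2 * δ * V * (1 / (m : ℝ)) := by ring
  refine (norm_sum_le _ _).trans ((sum_le_sum h5).trans ?_)
  have h6 : ∑ m ∈ (Icc 1 V).filter (fun m => Rgh y m), 2 * δ * V * (1 / (m : ℝ)) ≤
      ∑ m ∈ Icc 1 V, 2 * δ * V * (1 / (m : ℝ)) :=
    sum_le_sum_of_subset_of_nonneg (filter_subset _ _) fun _ _ _ => by positivity
  refine h6.trans ?_
  rw [← mul_sum]
  exact mul_le_mul_of_nonneg_left (sum_inv_Icc V) (by positivity)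

/-- interchange of the summations -/
private theorem ex_swap (G : ℕ → ℕ → ℂ) (t : ℕ) :
    ∑ n ∈ Icc 1 t, ∑ l ∈ n.divisors, G l (n / l) = ∑ l ∈ Icc 1 t, ∑ k ∈ Icc 1 (t / l), G l k := by
  rw [sum_sigma', sum_sigma']
  refine sum_nbij' (fun x => ⟨x.2, x.1 / x.2⟩) (fun x => ⟨x.1 * x.2, x.1⟩) ?_ ?_ ?_ ?_ ?_
  · rintro ⟨n, l⟩ hx
    rw [mem_sigma, mem_Icc, Nat.mem_divisors] at hx
    obtain ⟨⟨hn1, hnt⟩, hln, -⟩ := hx
    simp only at hn1 hnt hln ⊢
    have hl1 : 1 ≤ l := Nat.pos_of_dvd_of_pos hln hn1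
    have hll : l ≤ n := Nat.le_of_dvd hn1 hln
    rw [mem_sigma, mem_Icc, mem_Icc]
    exact ⟨⟨hl1, hll.trans hnt⟩, Nat.div_pos hll hl1, Nat.div_le_div_right hnt⟩
  · rintro ⟨l, k⟩ hx
    rw [mem_sigma, mem_Icc, mem_Icc] at hx
    obtain ⟨⟨hl1, hlt⟩, hk1, hkt⟩ := hx
    simp only at hl1 hlt hk1 hkt ⊢
    rw [mem_sigma, mem_Icc, Nat.mem_divisors]
    refine ⟨⟨Nat.mul_pos hl1 hk1, ?_⟩, Dvd.intro _ rfl, (Nat.mul_pos hl1 hk1).ne'⟩
    have h1 := (Nat.le_div_iff_mul_le hl1).1 hkt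
    rw [mul_comm]
    exact h1
  · rintro ⟨n, l⟩ hx
    rw [mem_sigma, mem_Icc, Nat.mem_divisors] at hx
    simp only
    rw [Nat.mul_div_cancel' hx.2.1]
  · rintro ⟨l, k⟩ hx
    rw [mem_sigma, mem_Icc, mem_Icc] at hx
    obtain ⟨⟨hl1, hlt⟩, hk1, hkt⟩ := hx
    simp only at hl1 ⊢
    rw [Nat.mul_div_cancel_left _ hl1]
  · rintro ⟨n, l⟩ hx
    rfl

/-- the sums of the exact form -/
private theorem ex_AE {th e τ : ℝ} {X y : ℕ} {c : ℕ → ℝ} (h : ExF th e τ X y c) (hy : 2 ≤ y) (hX : 1 ≤ X)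
    (hexp : (1 + th) / 2 - τ ≤ 2 / 3) (ψ : PC) (δ : ℝ) (hδ : 0 ≤ δ)
    (hS : ∀ u : ℕ, y ≤ u + 1 → u ≤ X → ‖∑ p ∈ (Icc 1 u).filter Nat.Prime, pv ψ p‖ ≤ δ * u) (t : ℕ) (ht : t ≤ X) :
    ‖∑ n ∈ Icc 1 t, ((AE X y c n : ℝ) : ℂ) * pv ψ n‖ ≤
      2 ^ 13 * (2 * (X : ℝ) ^ (2 / 3 : ℝ) + 4 * δ * X * (1 + Real.log X) ^ 2) := by
  classical
  have hXr : (1 : ℝ) ≤ X := by exact_mod_cast hX
  have hL0 : 0 ≤ Real.log (X : ℝ) := Real.log_nonneg hXr
  obtain ⟨w, hw⟩ : ∃ w, w = ⌊IY.X5 X⌋₊ := ⟨_, rfl⟩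
  have h5 : 0 ≤ IY.X5 X := by
    unfold IY.X5
    positivity
  have hw1 : ∀ n : ℕ, IY.X5 X < (n : ℝ) ↔ w < n := by
    intro n
    rw [hw, Nat.floor_lt h5]
  -- the exact form as a convolution
  have h1 : ∑ n ∈ Icc 1 t, ((AE X y c n : ℝ) : ℂ) * pv ψ n =
      ∑ n ∈ Icc 1 t, ∑ l ∈ n.divisors, (fun l k : ℕ =>
        (if w < l * k then ((c l : ℝ) : ℂ) * pv ψ l * ((rg y k : ℂ) * pv ψ k) else 0)) l (n / l) := by
    refine sum_congr rfl fun n hn => ?_
    rw [mem_Icc] at hn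
    have e1 : ∀ l ∈ n.divisors, (fun l k : ℕ =>
        (if w < l * k then ((c l : ℝ) : ℂ) * pv ψ l * ((rg y k : ℂ) * pv ψ k) else 0)) l (n / l) =
        if w < n then ((c l : ℝ) : ℂ) * (rg y n : ℂ) * pv ψ n else 0 := by
      intro l hl
      have hln := Nat.dvd_of_mem_divisors hl
      simp only
      rw [Nat.mul_div_cancel' hln]
      split_ifs with h6
      · by_cases hc : c l = 0
        · rw [hc]
          simp
        · have hr := h.crg l hc
          have e2 : rg y (n / l) = rg y n := by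
            have e3 : n = l * (n / l) := (Nat.mul_div_cancel' hln).symm
            have e4 : Rgh y n ↔ Rgh y (n / l) := by
              conv_lhs => rw [e3]
              rw [rgh_mul_iff]
              exact ⟨fun h => h.2, fun h => ⟨hr, h⟩⟩
            unfold rg
            by_cases h7 : Rgh y n
            · rw [if_pos h7, if_pos (e4.1 h7)]
            · rw [if_neg h7, if_neg (fun h => h7 (e4.2 h))]
          rw [e2]
          have e5 : pv ψ n = pv ψ l * pv ψ (n / l) := by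
            rw [← pv_mul, Nat.mul_div_cancel' hln]
          rw [e5]
          ring
      · rfl
    rw [sum_congr rfl e1]
    unfold AE
    by_cases h6 : w < n
    · rw [if_pos ⟨(hw1 n).2 h6, hn.2.trans ht⟩]
      simp only [if_pos h6]
      push_cast
      rw [mul_sum, sum_mul]
      refine sum_congr rfl fun l _ => ?_
      ring
    · rw [if_neg (fun h => h6 ((hw1 n).1 h.1))]
      simp only [if_neg h6]
      simp
  rw [h1, ex_swap (fun l k : ℕ =>
        (if w < l * k then ((c l : ℝ) : ℂ) * pv ψ l * ((rg y k : ℂ) * pv ψ k) else 0)) t]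
  have h2 : ∀ l ∈ Icc 1 t, ‖∑ k ∈ Icc 1 (t / l), (fun l k : ℕ =>
        (if w < l * k then ((c l : ℝ) : ℂ) * pv ψ l * ((rg y k : ℂ) * pv ψ k) else 0)) l k‖ ≤
      if (l : ℝ) ≤ (X : ℝ) ^ (2 / 3 : ℝ) then 2 ^ 13 * (2 + 4 * δ * X * (1 + Real.log X) * (1 / (l : ℝ))) else 0 := by
    intro l hl
    rw [mem_Icc] at hl
    have hl0 : (0 : ℝ) < l := by exact_mod_cast hl.1
    by_cases hc : c l = 0
    · have e1 : ∑ k ∈ Icc 1 (t / l), (fun l k : ℕ =>
        (if w < l * k then ((c l : ℝ) : ℂ) * pv ψ l * ((rg y k : ℂ) * pv ψ k) else 0)) l k = 0 := by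
        refine sum_eq_zero fun k _ => ?_
        simp only
        rw [hc]
        simp
      rw [e1, norm_zero]
      split_ifs
      · positivity
      · exact le_rfl
    · have hlX : (l : ℝ) ≤ (X : ℝ) ^ (2 / 3 : ℝ) :=
        (h.csu l hc).trans (Real.rpow_le_rpow_of_exponent_le hXr hexp)
      rw [if_pos hlX]
      -- two rough sums
      obtain ⟨R, hR⟩ : ∃ R : ℕ → ℂ, R = fun V => ∑ k ∈ Icc 1 V, (rg y k : ℂ) * pv ψ k := ⟨_, rfl⟩
      have hRb : ∀ V : ℕ, V ≤ X / l → ‖R V‖ ≤ 1 + 2 * δ * X * (1 + Real.log X) * (1 / (l : ℝ)) := by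
        intro V hV
        rw [hR]
        have hVX : V ≤ X := hV.trans (Nat.div_le_self _ _)
        refine (ex_rough ψ y V hy δ hδ fun u hu1 hu2 => hS u hu1 (hu2.trans hVX)).trans ?_
        have e1 : (V : ℝ) ≤ X / l := by
          have e2 : (V : ℝ) ≤ ((X / l : ℕ) : ℝ) := by exact_mod_cast hV
          exact e2.trans Nat.cast_div_le
        have e3 : Real.log (V : ℝ) ≤ Real.log X := by
          rcases Nat.eq_zero_or_pos V with hV0 | hV0
          · rw [hV0, Nat.cast_zero, Real.log_zero]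
            exact hL0
          · exact Real.log_le_log (by exact_mod_cast hV0) (by exact_mod_cast hVX)
        have e4 : (0 : ℝ) ≤ Real.log V := Real.log_natCast_nonneg V
        have e5 : 2 * δ * V * (1 + Real.log V) ≤ 2 * δ * (X / l) * (1 + Real.log X) := by
          gcongr
        calc 1 + 2 * δ * V * (1 + Real.log V) ≤ 1 + 2 * δ * (X / l) * (1 + Real.log X) := by linarith
          _ = _ := by ring
      have e1 : ∑ k ∈ Icc 1 (t / l), (fun l k : ℕ =>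
        (if w < l * k then ((c l : ℝ) : ℂ) * pv ψ l * ((rg y k : ℂ) * pv ψ k) else 0)) l k =
          ((c l : ℝ) : ℂ) * pv ψ l * ∑ k ∈ (Icc 1 (t / l)).filter (fun k => w < l * k), (rg y k : ℂ) * pv ψ k := by
        rw [sum_filter, mul_sum]
        refine sum_congr rfl fun k _ => ?_
        simp only
        split_ifs <;> simp
      have e2 : ‖∑ k ∈ (Icc 1 (t / l)).filter (fun k => w < l * k), (rg y k : ℂ) * pv ψ k‖ ≤
          2 * (1 + 2 * δ * X * (1 + Real.log X) * (1 / (l : ℝ))) := by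
        have hnn : 0 ≤ 2 * (1 + 2 * δ * X * (1 + Real.log X) * (1 / (l : ℝ))) := by positivity
        by_cases htw : w / l ≤ t / l
        · have e3 : ∑ k ∈ (Icc 1 (t / l)).filter (fun k => w < l * k), (rg y k : ℂ) * pv ψ k =
              R (t / l) - R (w / l) := by
            rw [hR]
            simp only
            rw [eq_sub_iff_add_eq, ← sum_filter_add_sum_filter_not (Icc 1 (t / l)) (fun k => w < l * k)]
            congr 1
            refine sum_congr ?_ fun _ _ => rfl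
            ext k
            rw [mem_filter, mem_Icc, mem_Icc, Nat.le_div_iff_mul_le hl.1, not_lt, mul_comm l k]
            constructor
            · rintro ⟨h6, h7⟩
              exact ⟨⟨h6, ((Nat.le_div_iff_mul_le hl.1).2 h7).trans htw⟩, h7⟩
            · rintro ⟨⟨h6, -⟩, h7⟩
              exact ⟨h6, h7⟩
          rw [e3]
          have e4 := hRb (t / l) (Nat.div_le_div_right ht)
          have e5 := hRb (w / l) (htw.trans (Nat.div_le_div_right ht))
          refine (norm_sub_le _ _).trans ?_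
          linarith
        · have e3 : (Icc 1 (t / l)).filter (fun k => w < l * k) = ∅ := by
            rw [filter_eq_empty_iff]
            intro k hk
            rw [mem_Icc] at hk
            rw [not_lt, mul_comm, ← Nat.le_div_iff_mul_le hl.1]
            omega
          rw [e3, sum_empty, norm_zero]
          exact hnn
      rw [e1, norm_mul, norm_mul]
      have e6 : ‖((c l : ℝ) : ℂ)‖ ≤ 2 ^ 13 := by
        rw [Complex.norm_real, Real.norm_eq_abs]
        exact h.cbd l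
      calc ‖((c l : ℝ) : ℂ)‖ * ‖pv ψ l‖ *
            ‖∑ k ∈ (Icc 1 (t / l)).filter (fun k => w < l * k), (rg y k : ℂ) * pv ψ k‖
          ≤ 2 ^ 13 * 1 * (2 * (1 + 2 * δ * X * (1 + Real.log X) * (1 / (l : ℝ)))) := by
            refine mul_le_mul (mul_le_mul e6 (pv_norm_le ψ l) (norm_nonneg _) (by positivity)) e2
              (norm_nonneg _) (by positivity)
        _ = 2 ^ 13 * (2 + 4 * δ * X * (1 + Real.log X) * (1 / (l : ℝ))) := by ring
  refine (norm_sum_le _ _).trans ((sum_le_sum h2).trans ?_)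
  rw [← sum_filter, ← mul_sum, sum_add_distrib, sum_const, nsmul_eq_mul]
  refine mul_le_mul_of_nonneg_left (add_le_add ?_ ?_) (by positivity)
  · have e1 : (Icc 1 t).filter (fun l : ℕ => (l : ℝ) ≤ (X : ℝ) ^ (2 / 3 : ℝ)) ⊆
        Icc 1 ⌊(X : ℝ) ^ (2 / 3 : ℝ)⌋₊ := by
      intro l hl
      rw [mem_filter, mem_Icc] at hl
      rw [mem_Icc]
      exact ⟨hl.1.1, Nat.le_floor hl.2⟩
    have e2 := card_le_card e1
    rw [Nat.card_Icc, Nat.add_sub_cancel] at e2
    have e3 : (((Icc 1 t).filter (fun l : ℕ => (l : ℝ) ≤ (X : ℝ) ^ (2 / 3 : ℝ))).card : ℝ) ≤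
        (X : ℝ) ^ (2 / 3 : ℝ) :=
      le_trans (by exact_mod_cast e2) (Nat.floor_le (by positivity))
    linarith
  · rw [← mul_sum]
    have e1 : ∑ l ∈ (Icc 1 t).filter (fun l : ℕ => (l : ℝ) ≤ (X : ℝ) ^ (2 / 3 : ℝ)), 1 / (l : ℝ) ≤
        1 + Real.log X := by
      refine le_trans ?_ (sum_inv_Icc X)
      refine sum_le_sum_of_subset_of_nonneg ?_ fun _ _ _ => by positivity
      intro l hl
      rw [mem_filter, mem_Icc] at hl
      rw [mem_Icc]
      exact ⟨hl.1.1, hl.1.2.trans ht⟩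
    calc 4 * δ * X * (1 + Real.log X) * ∑ l ∈ (Icc 1 t).filter (fun l : ℕ => (l : ℝ) ≤ (X : ℝ) ^ (2 / 3 : ℝ)),
          1 / (l : ℝ) ≤ 4 * δ * X * (1 + Real.log X) * (1 + Real.log X) :=
          mul_le_mul_of_nonneg_left e1 (by positivity)
      _ = 4 * δ * X * (1 + Real.log X) ^ 2 := by ring

/-- partial summation -/
private theorem ex_abel (a b : ℕ → ℂ) (N : ℕ) :
    ∑ n ∈ Icc 1 N, a n * b n =
      (∑ n ∈ Icc 1 N, a n) * b N - ∑ m ∈ range N, (∑ n ∈ Icc 1 m, a n) * (b (m + 1) - b m) := by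
  induction N with
  | zero => simp
  | succ N ih =>
    rw [Finset.sum_Icc_succ_top (by omega), ih, Finset.sum_Icc_succ_top (by omega), sum_range_succ]
    ring

private theorem ex_part (a : ℕ → ℂ) (N : ℕ) (M x : ℝ) (hM : ∀ y ≤ N, ‖∑ n ∈ Icc 1 y, a n‖ ≤ M) :
    ‖∑ n ∈ Icc 1 N, a n * ee ((n : ℝ) * x)‖ ≤ M * (1 + N * (2 * Real.pi * |x|)) := by
  rw [ex_abel a (fun n => ee ((n : ℝ) * x)) N]
  refine (norm_sub_le _ _).trans ?_
  rw [mul_add, mul_one]
  refine add_le_add ?_ ?_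
  · rw [norm_mul, norm_ee, mul_one]
    exact hM N le_rfl
  · refine (norm_sum_le _ _).trans ?_
    have h : ∀ m ∈ range N, ‖(∑ n ∈ Icc 1 m, a n) *
        (ee (((m + 1 : ℕ) : ℝ) * x) - ee ((m : ℝ) * x))‖ ≤ M * (2 * Real.pi * |x|) := by
      intro m hm
      rw [norm_mul]
      have h1 := norm_ee_sub_ee_le (((m + 1 : ℕ) : ℝ) * x) ((m : ℝ) * x)
      have e : ((m + 1 : ℕ) : ℝ) * x - (m : ℝ) * x = x := by push_cast; ring
      rw [e] at h1
      have h2 := hM m (mem_range.1 hm).le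
      exact mul_le_mul h2 h1 (norm_nonneg _) ((norm_nonneg _).trans h2)
    refine (sum_le_sum h).trans ?_
    rw [sum_const, card_range, nsmul_eq_mul]
    exact le_of_eq (by ring)

private theorem ex_cont (X : ℕ) (w : ℕ → ℝ) (ψ : PC) : Continuous (SXf X w ψ) := by
  have h : Continuous ee := by
    unfold ee
    fun_prop
  unfold SXf
  refine continuous_finsetSum _ fun n _ => ?_
  exact continuous_const.mul (h.comp (continuous_const.mul continuous_id))

/-- from the sums to the norm -/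
private theorem ex_norm (X : ℕ) (w : ℕ → ℝ) (ψ : PC) (T M : ℝ) (hX : 2 ≤ X) (hT1 : 1 ≤ T) (hM0 : 0 ≤ M)
    (hM : ∀ t ≤ X, ‖∑ n ∈ Icc 1 t, ((w n : ℝ) : ℂ) * pv ψ n‖ ≤ M) :
    sNf X T w ψ ≤ 16 * Real.log X * T ^ 2 * M / X := by
  have hXr : (0 : ℝ) < X := by exact_mod_cast (by omega : 0 < X)
  have hX1r : (1 : ℝ) ≤ X := by exact_mod_cast (by omega : 1 ≤ X)
  have hL0 : 0 ≤ Real.log (X : ℝ) := Real.log_nonneg hX1r
  have hb : ∀ x ∈ Set.Icc (-(T / X)) (T / X), ‖SXf X w ψ x‖ ^ 2 ≤ (8 * T * M) ^ 2 := by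
    intro x hx
    refine pow_le_pow_left₀ (norm_nonneg _) ?_ 2
    unfold SXf
    refine (ex_part (fun n => ((w n : ℝ) : ℂ) * pv ψ n) X M x hM).trans ?_
    have hx1 : |x| ≤ T / X := abs_le.2 hx
    have h3 : (X : ℝ) * (2 * Real.pi * |x|) ≤ 2 * Real.pi * T := by
      calc (X : ℝ) * (2 * Real.pi * |x|) ≤ X * (2 * Real.pi * (T / X)) := by gcongr
        _ = 2 * Real.pi * T := by field_simp
    have h4 : 2 * Real.pi * T ≤ 7 * T := by
      have := Real.pi_lt_d2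
      nlinarith
    calc M * (1 + X * (2 * Real.pi * |x|)) ≤ M * (8 * T) :=
          mul_le_mul_of_nonneg_left (by linarith) hM0
      _ = 8 * T * M := by ring
  have hTX : 0 < T / X := div_pos (by linarith) hXr
  have hint : ∫ x in (-(T / X))..(T / X), ‖SXf X w ψ x‖ ^ 2 ≤ (8 * T * M) ^ 2 * (2 * (T / X)) := by
    have h3 : ∫ x in (-(T / X))..(T / X), ‖SXf X w ψ x‖ ^ 2 ≤
        ∫ _x in (-(T / X))..(T / X), (8 * T * M) ^ 2 :=
      intervalIntegral.integral_mono_on (by linarith)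
        (((ex_cont X w ψ).norm.pow 2).intervalIntegrable _ _)
        (continuous_const.intervalIntegrable _ _) hb
    rw [intervalIntegral.integral_const, smul_eq_mul] at h3
    refine h3.trans (le_of_eq ?_)
    ring
  have hs : Real.sqrt (∫ x in (-(T / X))..(T / X), ‖SXf X w ψ x‖ ^ 2) ≤
      8 * T * M * (2 * T / Real.sqrt X) := by
    refine (Real.sqrt_le_sqrt hint).trans ?_
    rw [Real.sqrt_mul (by positivity), Real.sqrt_sq (by positivity)]
    refine mul_le_mul_of_nonneg_left ?_ (by positivity)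
    have e : 2 * (T / (X : ℝ)) = (2 * T) / X := by ring
    rw [e, Real.sqrt_div (by linarith)]
    refine div_le_div_of_nonneg_right ?_ (by positivity)
    rw [Real.sqrt_le_left (by linarith)]
    nlinarith
  unfold sNf
  refine (mul_le_mul_of_nonneg_left hs (by positivity)).trans (le_of_eq ?_)
  have hq := Real.mul_self_sqrt hXr.le
  have hs0 : Real.sqrt X ≠ 0 := (Real.sqrt_pos.2 hXr).ne'
  field_simp
  rw [sq (Real.sqrt X), hq]
  ring

theorem exY : ExY := by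
  intro th e τ hadm κ B hκ
  obtain ⟨h1, h2, h3, h4, h5, h6, h7⟩ := hadm
  obtain ⟨X1, hX1⟩ := Pool.MP_dd84fd_nt.E2.MP_log_large (2 ^ 22 / κ + 2)
  obtain ⟨X2, hX2⟩ := Pool.MP_dd84fd_nt.E2.MP_log_pow 1 (2 * B + 4) (ε := 1 / 3) (by norm_num)
  obtain ⟨X3, hX3⟩ := Pool.MP_dd84fd_nt.E2.MP_log_pow 4 0 (ε := 1 / 100) (by norm_num)
  refine ⟨2 * B + 6, max (max X1 X2) (max X3 2), fun X hX T hT1 hTB y cc hE ψ hψ => ?_⟩
  simp only [max_le_iff] at hX
  obtain ⟨⟨g1, g2⟩, g3, g4⟩ := hX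
  have hLl := hX1 X g1
  have hP := hX2 X g2
  have h4X := hX3 X g3
  rw [pow_zero, mul_one] at h4X
  rw [one_mul] at hP
  have hXr : (0 : ℝ) < X := by exact_mod_cast (by omega : 0 < X)
  have hX1r : (1 : ℝ) ≤ X := by exact_mod_cast (by omega : 1 ≤ X)
  obtain ⟨L, hL⟩ : ∃ L, L = Real.log X := ⟨_, rfl⟩
  rw [← hL] at hLl hP hTB ⊢
  have hk : 0 < 2 ^ 22 / κ := by positivity
  have hL2 : 2 ≤ L := by linarith
  have hL0 : 0 < L := by linarith
  have hyr : 4 * (X : ℝ) ^ (1 / 11 : ℝ) ≤ y := by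
    refine le_trans ?_ hE.ylo
    calc 4 * (X : ℝ) ^ (1 / 11 : ℝ) ≤ (X : ℝ) ^ (1 / 100 : ℝ) * (X : ℝ) ^ (1 / 11 : ℝ) :=
          mul_le_mul_of_nonneg_right h4X (by positivity)
      _ = (X : ℝ) ^ (1 / 100 + 1 / 11 : ℝ) := by rw [← Real.rpow_add hXr]
      _ ≤ (X : ℝ) ^ (th - 4 * e) := Real.rpow_le_rpow_of_exponent_le hX1r (by linarith)
  have h11 : (1 : ℝ) ≤ (X : ℝ) ^ (1 / 11 : ℝ) := Real.one_le_rpow hX1r (by norm_num)
  have hy2 : 2 ≤ y := by
    have : (2 : ℝ) ≤ y := by linarith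
    exact_mod_cast this
  by_contra hcon
  push Not at hcon
  obtain ⟨δ, hδ⟩ : ∃ δ, δ = 1 / L ^ (2 * B + 6) := ⟨_, rfl⟩
  have hδ0 : 0 < δ := by rw [hδ]; positivity
  have hS : ∀ u : ℕ, y ≤ u + 1 → u ≤ X → ‖∑ p ∈ (Icc 1 u).filter Nat.Prime, pv ψ p‖ ≤ δ * u := by
    intro u hu1 hu2
    have hu : (X : ℝ) ^ (1 / 11 : ℝ) ≤ u := by
      have : (y : ℝ) ≤ u + 1 := by exact_mod_cast hu1
      linarith
    have := hcon u hu hu2
    rw [hδ]
    have e1 : 1 / L ^ (2 * B + 6) * (u : ℝ) = u / L ^ (2 * B + 6) := by ring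
    rw [e1]
    exact this.le
  obtain ⟨M, hMd⟩ : ∃ M, M = 2 ^ 13 * (2 * (X : ℝ) ^ (2 / 3 : ℝ) + 4 * δ * X * (1 + L) ^ 2) := ⟨_, rfl⟩
  have hM0 : 0 ≤ M := by rw [hMd]; positivity
  have hM : ∀ t ≤ X, ‖∑ n ∈ Icc 1 t, ((AE X y cc n : ℝ) : ℂ) * pv ψ n‖ ≤ M := by
    intro t ht
    have := ex_AE hE hy2 (by omega) (by linarith) ψ δ hδ0.le hS t ht
    rw [← hL, ← hMd] at this
    exact this
  have hn := ex_norm X (AE X y cc) ψ T M g4 hT1 hM0 hM
  rw [← hL] at hn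
  have hT2 : T ^ 2 ≤ (L ^ B) ^ 2 := pow_le_pow_left₀ (by linarith) hTB 2
  have hMb : M ≤ 2 ^ 18 * (X : ℝ) / L ^ (2 * B + 4) := by
    have e1 : (X : ℝ) ^ (2 / 3 : ℝ) ≤ X / L ^ (2 * B + 4) := by
      rw [le_div_iff₀ (by positivity)]
      calc (X : ℝ) ^ (2 / 3 : ℝ) * L ^ (2 * B + 4) ≤ (X : ℝ) ^ (2 / 3 : ℝ) * (X : ℝ) ^ (1 / 3 : ℝ) :=
            mul_le_mul_of_nonneg_left hP (by positivity)
        _ = X := by
            rw [← Real.rpow_add hXr]
            norm_num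
    have e2 : 4 * δ * X * (1 + L) ^ 2 ≤ 16 * (X / L ^ (2 * B + 4)) := by
      have e3 : (1 + L) ^ 2 ≤ 4 * L ^ 2 := by nlinarith
      calc 4 * δ * X * (1 + L) ^ 2 ≤ 4 * δ * X * (4 * L ^ 2) := by gcongr
        _ = 16 * (X / L ^ (2 * B + 4)) := by
            rw [hδ, show 2 * B + 6 = (2 * B + 4) + 2 by ring, pow_add L (2 * B + 4) 2]
            field_simp
            norm_num
    have e4 : 0 ≤ (X : ℝ) / L ^ (2 * B + 4) := by positivity
    calc M ≤ 2 ^ 13 * (2 * (X / L ^ (2 * B + 4)) + 16 * (X / L ^ (2 * B + 4))) := by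
          rw [hMd]
          gcongr
      _ ≤ 2 ^ 18 * (X / L ^ (2 * B + 4)) := by
          have : (2 : ℝ) ^ 18 = 2 ^ 13 * 32 := by norm_num
          rw [this]
          nlinarith
      _ = 2 ^ 18 * (X : ℝ) / L ^ (2 * B + 4) := by ring
  have hfin : sNf X T (AE X y cc) ψ ≤ 2 ^ 22 / L ^ 3 := by
    refine hn.trans ?_
    calc 16 * L * T ^ 2 * M / X ≤ 16 * L * (L ^ B) ^ 2 * (2 ^ 18 * (X : ℝ) / L ^ (2 * B + 4)) / X := by
          gcongr
      _ = 2 ^ 22 / L ^ 3 := by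
          rw [← pow_mul, mul_comm B 2, pow_add L (2 * B) 4]
          field_simp
          norm_num
  have h8 : 2 ^ 22 / L ^ 3 < κ := by
    rw [div_lt_iff₀ (by positivity)]
    have e1 : κ * (2 ^ 22 / κ) = 2 ^ 22 := by field_simp
    have e2 : 2 ^ 22 < κ * L := by nlinarith
    have e3 : κ * L ≤ κ * L ^ 3 := by
      refine mul_le_mul_of_nonneg_left ?_ hκ.le
      calc L = L ^ 1 := (pow_one L).symm
        _ ≤ L ^ 3 := pow_le_pow_right₀ (by linarith) (by norm_num)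
    linarith
  linarith

end Pool.MP_dd84fd_nt.BY
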