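import Pool.Agent.Lib.MP_dd84fd_nt.BY.Defs
import Pool.Agent.Lib.MP_dd84fd_nt.IY.BF
import Pool.Agent.Lib.MP_dd84fd_nt.IY.BTy2
import Pool.Agent.Lib.MP_dd84fd_nt.IY.BTy3
import Pool.Agent.Lib.MP_dd84fd_nt.IY.BPar
import Pool.Agent.Lib.MP_dd84fd_nt.HX.DcEE
import Pool.Agent.Lib.MP_dd84fd_nt.E2.MinorP

/-!
# BY-FamY (T1): the sieve families are exact forms up to a small error in mean square

`κ = kp B' X`, `z = zt X`, `b = bI th e`, `ξ = (b x - 11 κ - log z) / κ`, `J = ⌊ξ⌋ + 1` the least box with `v J + 11 κ > b x`,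
`y = ⌈ub κ z J⌉`.  For a prime `p ≥ z`: `p ≥ y ↔ bx p ≥ J`.  A simple number with a box `j < J` has the window set `{j}`
(`v j ≥ log z ≥ x/10 > τ x`); a simple `y`-rough number has no window set, and its divisors correspond to the subsets of its type.
On the `y`-rough numbers which are not simple the exact form is at most `2^23`; there are at most `4 κ X (1 + L) + 2 X/z` of them.
-/

set_option autoImplicit false

namespace Pool.MP_dd84fd_nt.BY

open Finset Pool.MP_dd84fd_nt.HX Pool.MP_dd84fd_nt.IY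
open Pool.MP_dd84fd_nt.KX (lK)

private def FY_P (κ : ℝ) (n : ℕ) : Prop :=
  ∃ p : ℕ, p ∈ n.primeFactors ∧ ∃ q : ℕ, q ∈ n.primeFactors ∧ q < p ∧ (p : ℝ) < q * Real.exp κ

open Classical in
private theorem FY_near (κ : ℝ) (X : ℕ) (h0 : 0 < κ) (h1 : κ ≤ 1) :
    (((Icc 1 X).filter (fun n => FY_P κ n)).card : ℝ) ≤ 4 * κ * X * (1 + Real.log X) := by
  have hsub : (Icc 1 X).filter (fun n => FY_P κ n) ⊆
      (Icc 1 X).biUnion fun q => ((Ioc q X).filter (fun p : ℕ => (p : ℝ) < q * Real.exp κ)).biUnion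
        fun p => (Ioc 0 X).filter (fun n => p * q ∣ n) := by
    intro n hn
    rw [mem_filter, mem_Icc] at hn
    obtain ⟨⟨hn1, hnX⟩, p, hp, q, hq, hqp, hcl⟩ := hn
    have hpp := Nat.prime_of_mem_primeFactors hp
    have hqq := Nat.prime_of_mem_primeFactors hq
    have hpn := Nat.dvd_of_mem_primeFactors hp
    have hqn := Nat.dvd_of_mem_primeFactors hq
    have hpX : p ≤ X := (Nat.le_of_dvd (by omega) hpn).trans hnX
    rw [mem_biUnion]
    refine ⟨q, mem_Icc.2 ⟨hqq.one_le, by omega⟩, ?_⟩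
    rw [mem_biUnion]
    refine ⟨p, ?_, ?_⟩
    · rw [mem_filter, mem_Ioc]
      exact ⟨⟨hqp, hpX⟩, hcl⟩
    · rw [mem_filter, mem_Ioc]
      refine ⟨⟨by omega, hnX⟩, ?_⟩
      exact Nat.Coprime.mul_dvd_of_dvd_of_dvd ((Nat.coprime_primes hpp hqq).2 (by omega)) hpn hqn
  have hmul : ∀ p q : ℕ, (((Ioc 0 X).filter (fun n => p * q ∣ n)).card : ℝ) ≤
      X / ((p : ℝ) * q) := by
    intro p q
    rw [Nat.Ioc_filter_dvd_card_eq_div]
    refine Nat.cast_div_le.trans ?_
    push_cast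
    exact le_refl _
  have hX0 : (0 : ℝ) ≤ X := Nat.cast_nonneg X
  have h3 : (((Icc 1 X).filter (fun n => FY_P κ n)).card : ℝ) ≤
      ∑ q ∈ Icc 1 X, ∑ p ∈ (Ioc q X).filter (fun p : ℕ => (p : ℝ) < q * Real.exp κ),
        X / ((p : ℝ) * q) := by
    have h4 := (card_le_card hsub).trans card_biUnion_le
    have h5 : (((Icc 1 X).filter (fun n => FY_P κ n)).card : ℝ) ≤
        ∑ q ∈ Icc 1 X, ((((Ioc q X).filter (fun p : ℕ => (p : ℝ) < q * Real.exp κ)).biUnion
        fun p => (Ioc 0 X).filter (fun n => p * q ∣ n)).card : ℝ) := by exact_mod_cast h4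
    refine h5.trans (sum_le_sum fun q _ => ?_)
    have h6 : ((((Ioc q X).filter (fun p : ℕ => (p : ℝ) < q * Real.exp κ)).biUnion
        fun p => (Ioc 0 X).filter (fun n => p * q ∣ n)).card : ℝ) ≤
        ∑ p ∈ (Ioc q X).filter (fun p : ℕ => (p : ℝ) < q * Real.exp κ),
          (((Ioc 0 X).filter (fun n => p * q ∣ n)).card : ℝ) := by exact_mod_cast card_biUnion_le
    exact h6.trans (sum_le_sum fun p _ => hmul p q)
  refine h3.trans ?_
  have h7 : ∀ q ∈ Icc 1 X, ∑ p ∈ (Ioc q X).filter (fun p : ℕ => (p : ℝ) < q * Real.exp κ),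
      X / ((p : ℝ) * q) ≤ 2 * κ * X * (1 / (q : ℝ)) := by
    intro q hq
    have hq1 : 1 ≤ q := (mem_Icc.1 hq).1
    have hq0 : (0 : ℝ) < q := by exact_mod_cast hq1
    calc ∑ p ∈ (Ioc q X).filter (fun p : ℕ => (p : ℝ) < q * Real.exp κ), X / ((p : ℝ) * q)
        ≤ ∑ p ∈ (Ioc q X).filter (fun p : ℕ => (p : ℝ) < q * Real.exp κ), X / ((q : ℝ) * q) := by
          refine sum_le_sum fun p hp => ?_
          rw [mem_filter, mem_Ioc] at hp
          have : (q : ℝ) ≤ p := by exact_mod_cast hp.1.1.le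
          gcongr
      _ = (((Ioc q X).filter (fun p : ℕ => (p : ℝ) < q * Real.exp κ)).card : ℝ) *
          (X / ((q : ℝ) * q)) := by rw [sum_const, nsmul_eq_mul]
      _ ≤ (2 * κ * q) * (X / ((q : ℝ) * q)) := by
          gcongr
          exact cnt_near κ h0 h1 q X
      _ = 2 * κ * X * (1 / (q : ℝ)) := by field_simp
  refine (sum_le_sum h7).trans ?_
  rw [← mul_sum]
  have h8 := sum_inv_Icc X
  have h9 : 0 ≤ ∑ q ∈ Icc 1 X, (1 : ℝ) / q := sum_nonneg fun _ _ => by positivity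
  have h10 : 0 ≤ 2 * κ * (X : ℝ) := by positivity
  calc 2 * κ * (X : ℝ) * ∑ q ∈ Icc 1 X, (1 : ℝ) / q ≤ 2 * κ * X * (1 + Real.log X) := by gcongr
    _ ≤ 4 * κ * X * (1 + Real.log X) := by
        have h11 : 0 ≤ 1 + Real.log (X : ℝ) := by
          have := Real.log_natCast_nonneg X
          linarith
        nlinarith [mul_nonneg h10 h11]

open Classical in
private theorem FY_sq (z X : ℕ) (hz : 1 ≤ z) :
    (((Icc 1 X).filter (fun n => ∃ p, z ≤ p ∧ p * p ∣ n)).card : ℝ) ≤ X * (2 / z) := by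
  have hsub : (Icc 1 X).filter (fun n => ∃ p, z ≤ p ∧ p * p ∣ n) ⊆
      (Ioo (z - 1) (X + 1)).biUnion fun p => (Ioc 0 X).filter (fun n => p * p ∣ n) := by
    intro n hn
    rw [mem_filter, mem_Icc] at hn
    obtain ⟨⟨hn1, hnX⟩, p, hp, hpn⟩ := hn
    have h1 : p * p ≤ n := Nat.le_of_dvd (by omega) hpn
    have h2 : p ≤ p * p := Nat.le_mul_self p
    rw [mem_biUnion]
    refine ⟨p, mem_Ioo.2 ⟨by omega, by omega⟩, ?_⟩
    rw [mem_filter, mem_Ioc]
    exact ⟨⟨by omega, hnX⟩, hpn⟩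
  have h1 := (card_le_card hsub).trans card_biUnion_le
  have h2 : (((Icc 1 X).filter (fun n => ∃ p, z ≤ p ∧ p * p ∣ n)).card : ℝ) ≤
      ∑ p ∈ Ioo (z - 1) (X + 1), (((Ioc 0 X).filter (fun n => p * p ∣ n)).card : ℝ) := by
    exact_mod_cast h1
  refine h2.trans ?_
  have h3 : ∀ p ∈ Ioo (z - 1) (X + 1), (((Ioc 0 X).filter (fun n => p * p ∣ n)).card : ℝ) ≤
      X * ((p : ℝ) ^ 2)⁻¹ := by
    intro p _
    rw [Nat.Ioc_filter_dvd_card_eq_div]
    refine Nat.cast_div_le.trans ?_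
    push_cast
    rw [pow_two, div_eq_mul_inv]
  refine (sum_le_sum h3).trans ?_
  rw [← mul_sum]
  have h4 := sum_Ioo_inv_sq_le (α := ℝ) (z - 1) (X + 1)
  have h5 : (((z - 1 : ℕ) : ℝ) + 1) = z := by
    rw [Nat.cast_sub hz]
    push_cast
    ring
  rw [h5] at h4
  exact mul_le_mul_of_nonneg_left h4 (Nat.cast_nonneg X)

/-- a rough number which is not simple -/
private theorem FY_mem {κ : ℝ} {z X n : ℕ} (hκ : 0 < κ) (hz1 : 1 ≤ z) (hn : n ∈ Icc 1 X) (h : Rgh z n)
    (hs : ¬ Simp κ z n) : FY_P κ n ∨ ∃ p, z ≤ p ∧ p * p ∣ n := by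
  by_cases hsq : Squarefree n
  · left
    have h2 : ¬ ∀ p ∈ n.primeFactors, ∀ q ∈ n.primeFactors,
        bx κ z p = bx κ z q → p = q := fun h3 => hs ⟨h, hsq, h3⟩
    push Not at h2
    obtain ⟨p, hp, q, hq, hpq, hne⟩ := h2
    have key : ∀ p ∈ n.primeFactors, ∀ q ∈ n.primeFactors, bx κ z p = bx κ z q →
        (p : ℝ) < q * Real.exp κ := by
      intro p hp q hq hpq
      have hpz : (z : ℝ) ≤ p := by exact_mod_cast h.2 p hp
      have hqz : (z : ℝ) ≤ q := by exact_mod_cast h.2 q hq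
      have a1 := (vlog_bx hκ hz1 hpz).2
      have a2 := (vlog_bx hκ hz1 hqz).1
      rw [hpq] at a1
      have a3 : Real.log p < Real.log q + κ := by linarith
      have hz0 : (1 : ℝ) ≤ z := by exact_mod_cast hz1
      have hp0 : (0 : ℝ) < p := by linarith
      have hq0 : (0 : ℝ) < q := by linarith
      calc (p : ℝ) = Real.exp (Real.log p) := (Real.exp_log hp0).symm
        _ < Real.exp (Real.log q + κ) := Real.exp_lt_exp.2 a3
        _ = q * Real.exp κ := by rw [Real.exp_add, Real.exp_log hq0]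
    rcases lt_or_gt_of_ne hne with h4 | h4
    · exact ⟨q, hq, p, hp, h4, key q hq p hp hpq.symm⟩
    · exact ⟨p, hp, q, hq, h4, key p hp q hq hpq⟩
  · right
    rw [Nat.squarefree_iff_prime_squarefree] at hsq
    push Not at hsq
    obtain ⟨p, hp, hpn⟩ := hsq
    refine ⟨p, ?_, hpn⟩
    refine h.2 p ?_
    rw [Nat.mem_primeFactors]
    exact ⟨hp, dvd_of_mul_left_dvd hpn, h.1⟩

/-- the primes in the boxes `≥ J` -/
private theorem FY_box {κ : ℝ} {z J p : ℕ} (hκ : 0 < κ) (hz : 1 ≤ z) (hp : z ≤ p) :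
    ⌈ub κ z J⌉₊ ≤ p ↔ J ≤ bx κ z p := by
  have hz0 : (0 : ℝ) < z := by exact_mod_cast hz
  have hp1 : (z : ℝ) ≤ p := by exact_mod_cast hp
  have hmz : (0 : ℝ) < (p : ℝ) / z := div_pos (hz0.trans_le hp1) hz0
  have h1 : 1 ≤ (p : ℝ) / z := by rwa [le_div_iff₀ hz0, one_mul]
  have ha : 0 ≤ Real.log ((p : ℝ) / z) / κ := div_nonneg (Real.log_nonneg h1) hκ.le
  unfold bx
  rw [Nat.le_floor_iff ha, Nat.ceil_le, le_div_iff₀ hκ, Real.le_log_iff_exp_le hmz, le_div_iff₀ hz0]
  unfold ub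
  rw [mul_comm (z : ℝ) (Real.exp _), mul_comm (J : ℝ) κ]

private theorem FY_vlog (κ : ℝ) {z : ℕ} (hz : 1 ≤ z) (j : ℕ) : vlog κ z j = Real.log z + κ * j := by
  have hz0 : (0 : ℝ) < z := by exact_mod_cast hz
  unfold vlog ub
  rw [Real.log_mul hz0.ne' (Real.exp_ne_zero _), Real.log_exp]

open Classical in
/-- the coefficients of the exact form -/
private noncomputable def FYc (κ : ℝ) (z y : ℕ) (lam : Finset ℕ → ℝ) (l : ℕ) : ℝ :=
  if Rgh y l ∧ Simp κ z l then lam (ty κ z l) else 0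

private theorem FY_rgh_dvd {z n m : ℕ} (h : Rgh z n) (hm : m ∣ n) : Rgh z m := by
  obtain ⟨k, rfl⟩ := hm
  exact ((rgh_mul_iff z m k).1 h).1

/-- simple numbers -/
private theorem FY_simple {κ τ b x : ℝ} {z X n J : ℕ} {lam : Finset ℕ → ℝ} (hκ : 0 < κ) (hz : 1 ≤ z)
    (hzX : z = zt X) (hx : x = Real.log X) (hτ : 0 ≤ τ) (hlz : τ * x < Real.log z)
    (hJ1 : ∀ j < J, vlog κ z j + 11 * κ ≤ b * x) (hJ2 : b * x < vlog κ z J + 11 * κ) (hx0 : 0 ≤ x)
    (hX : (X : ℝ) < (z : ℝ) ^ 11) (hn : n ≤ X) (hs : Simp κ z n) :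
    Wl τ b κ X lam (ty κ z n) = rg ⌈ub κ z J⌉₊ n * ∑ l ∈ n.divisors, FYc κ z ⌈ub κ z J⌉₊ lam l := by
  classical
  have hv : ∀ j, 0 ≤ vlog κ z j := by
    intro j
    rw [FY_vlog κ hz]
    have h1 : 0 ≤ Real.log (z : ℝ) := Real.log_natCast_nonneg z
    positivity
  by_cases hr : Rgh ⌈ub κ z J⌉₊ n
  · have hcard : (ty κ z n).card ≤ 10 := by
      have h1 := sum_div_ty hs (fun _ => (1 : ℝ))
      rw [sum_const, sum_const, nsmul_eq_mul, nsmul_eq_mul, mul_one, mul_one, card_powerset] at h1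
      have h2 := card_div hz hs.1 hn hX
      have h3 : 2 ^ (ty κ z n).card ≤ 2 ^ 10 := by
        have h4 : ((2 ^ (ty κ z n).card : ℕ) : ℝ) = (n.divisors.card : ℝ) := h1.symm
        have h5 : 2 ^ (ty κ z n).card = n.divisors.card := by exact_mod_cast h4
        omega
      exact (Nat.pow_le_pow_iff_right (by norm_num)).1 h3
    have hno : ¬ gdT (vlog κ (zt X)) κ (τ * Real.log X) (b * Real.log X) (ty κ z n) := by
      rintro ⟨S, hS, hS1, hS2⟩
      rw [← hzX, ← hx] at hS1 hS2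
      have hne : S.Nonempty := by
        rw [nonempty_iff_ne_empty]
        rintro rfl
        unfold sg at hS1
        rw [sum_empty] at hS1
        have := mul_nonneg hτ hx0
        linarith
      obtain ⟨j, hj⟩ := hne
      obtain ⟨p, hp, hpj⟩ := mem_image.1 (hS hj)
      have h1 : J ≤ j := by
        rw [← hpj]
        exact (FY_box hκ hz (hs.1.2 p hp)).1 (hr.2 p hp)
      have h2 : vlog κ z J ≤ vlog κ z j := by
        rw [FY_vlog κ hz, FY_vlog κ hz]
        have h3 : (J : ℝ) ≤ j := by exact_mod_cast h1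
        have := mul_le_mul_of_nonneg_left h3 hκ.le
        linarith
      have h4 : vlog κ z j ≤ sg (vlog κ z) S := by
        unfold sg
        exact single_le_sum (f := vlog κ z) (fun i _ => hv i) hj
      linarith
    have h1 : Wl τ b κ X lam (ty κ z n) = ∑ S ∈ (ty κ z n).powerset, lam S := by
      unfold Wl wT
      rw [if_pos hcard, if_neg hno]
    rw [h1, ← sum_div_ty hs lam]
    unfold rg
    rw [if_pos hr, one_mul]
    refine sum_congr rfl fun m hm => ?_
    have hmn := Nat.dvd_of_mem_divisors hm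
    unfold FYc
    rw [if_pos ⟨FY_rgh_dvd hr hmn, simp_dvd hs hmn⟩]
  · have h1 : ∃ p ∈ n.primeFactors, p < ⌈ub κ z J⌉₊ := by
      by_contra hcon
      push Not at hcon
      exact hr ⟨hs.1.1, hcon⟩
    obtain ⟨p, hp, hpy⟩ := h1
    have hpz : z ≤ p := hs.1.2 p hp
    have h2 : bx κ z p < J := by
      by_contra hcon
      push Not at hcon
      have := (FY_box hκ hz hpz).2 hcon
      omega
    have hgd : gdT (vlog κ (zt X)) κ (τ * Real.log X) (b * Real.log X) (ty κ z n) := by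
      refine ⟨{bx κ z p}, ?_, ?_, ?_⟩
      · rw [singleton_subset_iff]
        exact mem_image_of_mem _ hp
      · rw [← hzX, ← hx]
        unfold sg
        rw [sum_singleton, FY_vlog κ hz]
        have : 0 ≤ κ * ((bx κ z p : ℕ) : ℝ) := by positivity
        linarith
      · rw [← hzX, ← hx]
        unfold sg
        rw [sum_singleton]
        exact hJ1 _ h2
    unfold Wl wT rg
    rw [if_pos hgd, if_neg hr, zero_mul]
    split_ifs <;> rfl

/-- the size of a simple number with few prime factors -/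
private theorem FY_size {κ : ℝ} {z l : ℕ} (hκ : 0 < κ) (hz : 1 ≤ z) (hs : Simp κ z l) :
    Real.log l ≤ sg (vlog κ z) (ty κ z l) + κ * (ty κ z l).card := by
  have h1 : Real.log (l : ℝ) = ∑ p ∈ l.primeFactors, Real.log (p : ℝ) := by
    have h2 : ((∏ p ∈ l.primeFactors, p : ℕ) : ℝ) = l := by
      rw [Nat.prod_primeFactors_of_squarefree hs.2.1]
    rw [← h2, Nat.cast_prod, Real.log_prod]
    intro p hp
    have := (Nat.prime_of_mem_primeFactors hp).pos
    positivity
  have hinj : Set.InjOn (fun p : ℕ => bx κ z (p : ℝ)) (l.primeFactors : Set ℕ) := by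
    intro p hp q hq h
    exact hs.2.2 p hp q hq h
  have h3 : sg (vlog κ z) (ty κ z l) + κ * (ty κ z l).card =
      ∑ p ∈ l.primeFactors, (vlog κ z (bx κ z p) + κ) := by
    unfold sg ty
    rw [sum_image hinj, card_image_of_injOn hinj, sum_add_distrib, sum_const, nsmul_eq_mul]
    ring
  rw [h1, h3]
  refine sum_le_sum fun p hp => ?_
  have hpz : (z : ℝ) ≤ p := by exact_mod_cast hs.1.2 p hp
  exact (vlog_bx hκ hz hpz).2.le

theorem famY : FamY := by
  intro th e τ hadm B' hB' W hW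
  obtain ⟨h1, h2, h3, h4, h5, h6, h7⟩ := hadm
  obtain ⟨X1, hW⟩ := hW
  obtain ⟨X2, hX2⟩ := b_par (1 / 8) (3 / 8) (by norm_num) (by norm_num) (by norm_num) 0
  obtain ⟨X3, hX3⟩ := Pool.MP_dd84fd_nt.E2.MP_log_large (max (2 ^ 26) (max (11 / e) (3 / τ)))
  obtain ⟨X4, hX4⟩ := Pool.MP_dd84fd_nt.E2.MP_log_pow (2 ^ 48) B' (ε := 1 / 10) (by norm_num)
  obtain ⟨X5', hX5'⟩ := Pool.MP_dd84fd_nt.E2.MP_log_pow 2 0 (ε := e / 100) (by positivity)
  refine ⟨max (max X1 X2) (max (max X3 X4) (max X5' 2)), fun X hX => ?_⟩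
  simp only [max_le_iff] at hX
  obtain ⟨⟨g1, g2⟩, ⟨g3, g4⟩, g5, g6⟩ := hX
  obtain ⟨lam, hlam, hlam2, hWX⟩ := hW X g1
  obtain ⟨hX1', -, -, hz2, hz8, -, hz9, -⟩ := hX2 X g2
  have hL' := hX3 X g3
  simp only [max_le_iff] at hL'
  obtain ⟨hL, hLe, hLτ⟩ := hL'
  have hP := hX4 X g4
  have h2e := hX5' X g5
  rw [pow_zero, mul_one] at h2e
  set L := Real.log (X : ℝ) with hLdef
  have hL0 : 0 < L := lt_of_lt_of_le (by norm_num) hL
  have hL1 : 1 ≤ L := le_trans (by norm_num) hL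
  have hX0 : (0 : ℝ) < X := by exact_mod_cast hX1'
  obtain ⟨κ, hκdef⟩ : ∃ κ, κ = kp B' X := ⟨_, rfl⟩
  obtain ⟨z, hzdef⟩ : ∃ z, z = zt X := ⟨_, rfl⟩
  rw [← hzdef] at hz2 hz8 hz9
  have hκ : 0 < κ := by
    rw [hκdef]
    unfold kp
    positivity
  have hκ1 : κ ≤ 1 := by
    rw [hκdef]
    unfold kp
    rw [div_le_one (by positivity)]
    exact one_le_pow₀ hL1
  have hz1 : 1 ≤ z := by omega
  have hz0 : (0 : ℝ) < z := by exact_mod_cast hz1
  have hτ0 : 0 < τ := by linarith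
  have hlz10 : L / 10 ≤ Real.log z := by
    have h := Real.log_le_log (by positivity) hz8
    rw [Real.log_rpow hX0] at h
    rw [hLdef]
    linarith
  have hlz : τ * L < Real.log z := by
    refine lt_of_lt_of_le ?_ hlz10
    nlinarith
  have hlz2 : Real.log z ≤ L / 10 + 1 := by
    have h8 : (z : ℝ) ≤ (X : ℝ) ^ (1 / 10 : ℝ) + 1 := by
      rw [hzdef]
      exact (Nat.ceil_lt_add_one (by positivity)).le
    have h9 : (1 : ℝ) ≤ (X : ℝ) ^ (1 / 10 : ℝ) := Real.one_le_rpow (by exact_mod_cast hX1') (by norm_num)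
    have h10 : (z : ℝ) ≤ 2 * (X : ℝ) ^ (1 / 10 : ℝ) := by linarith
    have h11 := Real.log_le_log hz0 h10
    rw [Real.log_mul (by norm_num) (by positivity), Real.log_rpow hX0] at h11
    have h12 := Real.log_two_lt_d9
    rw [hLdef]
    linarith
  obtain ⟨b, hb⟩ : ∃ b, b = bI th e := ⟨_, rfl⟩
  have hb2 : b = th - 3 * e := by rw [hb]; rfl
  have hb8 : 1 / 8 ≤ b := by
    rw [hb2]
    linarith
  -- the first box above the window
  obtain ⟨ξ, hξ⟩ : ∃ ξ, ξ = (b * L - 11 * κ - Real.log z) / κ := ⟨_, rfl⟩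
  have hξ0 : 0 ≤ ξ := by
    rw [hξ]
    refine div_nonneg ?_ hκ.le
    have : L / 8 ≤ b * L := by
      have := mul_le_mul_of_nonneg_right hb8 hL0.le
      linarith
    have : (2 : ℝ) ^ 26 = 67108864 := by norm_num
    linarith
  have hκξ : κ * ξ = b * L - 11 * κ - Real.log z := by
    rw [hξ]
    field_simp
  obtain ⟨J, hJ⟩ : ∃ J, J = ⌊ξ⌋₊ + 1 := ⟨_, rfl⟩
  have hJa : (J : ℝ) ≤ ξ + 1 := by
    rw [hJ]
    push_cast
    have := Nat.floor_le hξ0
    linarith
  have hJb : ξ < J := by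
    rw [hJ]
    push_cast
    exact Nat.lt_floor_add_one ξ
  have hJ1 : ∀ j < J, vlog κ z j + 11 * κ ≤ b * L := by
    intro j hj
    rw [FY_vlog κ hz1]
    have h8 : (j : ℝ) ≤ ξ := by
      have h9 : j ≤ ⌊ξ⌋₊ := by omega
      exact (Nat.le_floor_iff hξ0).1 h9
    have h10 := mul_le_mul_of_nonneg_left h8 hκ.le
    linarith
  have hJ2 : b * L < vlog κ z J + 11 * κ := by
    rw [FY_vlog κ hz1]
    have h10 := mul_lt_mul_of_pos_left hJb hκ
    linarith
  have hub : Real.log (ub κ z J) = Real.log z + κ * J := FY_vlog κ hz1 J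
  have hub0 : 0 < ub κ z J := by
    unfold ub
    positivity
  obtain ⟨y, hy⟩ : ∃ y, y = ⌈ub κ z J⌉₊ := ⟨_, rfl⟩
  have hyub : ub κ z J ≤ y := by
    rw [hy]
    exact Nat.le_ceil _
  have hzy : z ≤ y := by
    have h8 : (z : ℝ) ≤ ub κ z J := by
      unfold ub
      have : 1 ≤ Real.exp (κ * J) := Real.one_le_exp (by positivity)
      nlinarith
    exact_mod_cast h8.trans hyub
  have hb0 : (X : ℝ) ^ b = Real.exp (b * L) := by
    rw [Real.rpow_def_of_pos hX0, mul_comm]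
  have hyhi : (y : ℝ) ≤ (X : ℝ) ^ (th - 299 / 100 * e) := by
    have h8 : ub κ z J ≤ (X : ℝ) ^ b := by
      rw [hb0, ← Real.exp_log hub0, hub]
      refine Real.exp_le_exp.2 ?_
      have h10 := mul_le_mul_of_nonneg_left hJa hκ.le
      nlinarith
    have h9 : (y : ℝ) ≤ ub κ z J + 1 := by
      rw [hy]
      exact (Nat.ceil_lt_add_one hub0.le).le
    have h10 : (1 : ℝ) ≤ (X : ℝ) ^ b := Real.one_le_rpow (by exact_mod_cast hX1') (by linarith)
    calc (y : ℝ) ≤ 2 * (X : ℝ) ^ b := by linarith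
      _ ≤ (X : ℝ) ^ (e / 100) * (X : ℝ) ^ b := mul_le_mul_of_nonneg_right h2e (by positivity)
      _ = (X : ℝ) ^ (th - 299 / 100 * e) := by
          rw [← Real.rpow_add hX0, hb2]
          congr 1
          ring
  have hylo : (X : ℝ) ^ (th - 4 * e) ≤ y := by
    refine le_trans ?_ hyub
    rw [Real.rpow_def_of_pos hX0, ← Real.exp_log hub0, hub]
    refine Real.exp_le_exp.2 ?_
    have h10 := mul_le_mul_of_nonneg_left hJb.le hκ.le
    have h11 : 11 ≤ e * L := by
      rw [div_le_iff₀ h3] at hLe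
      linarith
    rw [← hLdef]
    have h12 : L * (th - 4 * e) = b * L - e * L := by
      rw [hb2]
      ring
    rw [h12]
    nlinarith
  refine ⟨y, FYc κ z y lam, ⟨hylo, hyhi, ?_, ?_, ?_⟩, ?_⟩
  · intro l
    unfold FYc
    split_ifs
    · exact hlam _
    · rw [abs_zero]
      norm_num
  · intro l hl
    unfold FYc at hl
    split_ifs at hl with h
    · exact h.1
    · exact absurd rfl hl
  · intro l hl
    unfold FYc at hl
    split_ifs at hl with h
    · obtain ⟨hc, hs⟩ := hlam2 _ hl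
      rw [← hκdef, ← hzdef] at hs
      have h8 := FY_size hκ hz1 h.2
      have hl0 : (0 : ℝ) < l := by
        have := h.1.1
        exact_mod_cast Nat.pos_of_ne_zero this
      rw [Real.rpow_def_of_pos hX0, ← Real.exp_log hl0]
      refine Real.exp_le_exp.2 (h8.trans ?_)
      have h9 : κ * ((ty κ z l).card : ℝ) ≤ 3 := by
        have h10 : ((ty κ z l).card : ℝ) ≤ 3 := by exact_mod_cast hc
        have h11 : (0 : ℝ) ≤ ((ty κ z l).card : ℝ) := Nat.cast_nonneg _
        nlinarith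
      have h12 : 3 ≤ τ * L := by
        rw [div_le_iff₀ hτ0] at hLτ
        linarith
      unfold lK at hs
      rw [← hLdef]
      have e1 : L * ((1 + th) / 2 - τ) = ((1 + th) / 2 - 2 * τ) * L + τ * L := by ring
      rw [e1]
      linarith
    · exact absurd rfl hl
  · classical
    set Sa := (Icc 1 X).filter (fun n => FY_P κ n) with hSa
    set Sb := (Icc 1 X).filter (fun n => ∃ p, z ≤ p ∧ p * p ∣ n) with hSb
    have hpt : ∀ n ∈ Icc 1 X, (wty (kp B' X) X (W X) n - AE X y (FYc κ z y lam) n) ^ 2 ≤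
        if n ∈ Sa ∪ Sb then (2 : ℝ) ^ 46 else 0 := by
      intro n hn
      have hnX : n ≤ X := (mem_Icc.1 hn).2
      have hnn : (0 : ℝ) ≤ if n ∈ Sa ∪ Sb then (2 : ℝ) ^ 46 else 0 := by
        split_ifs <;> norm_num
      unfold wty AE
      rw [← hκdef, ← hzdef]
      by_cases h5n : X5 X < n
      · by_cases hs : Simp κ z n
        · rw [if_pos ⟨h5n, hnX, hs⟩, if_pos ⟨h5n, hnX⟩, hWX, ← hκdef, ← hb, hy,
            FY_simple hκ hz1 hzdef hLdef hτ0.le hlz hJ1 hJ2 hL0.le hz9 hnX hs, sub_self]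
          simpa using hnn
        · rw [if_neg (fun h => hs h.2.2), if_pos ⟨h5n, hnX⟩, zero_sub, neg_sq]
          by_cases hr : Rgh y n
          · have hrz : Rgh z n := ⟨hr.1, fun p hp => hzy.trans (hr.2 p hp)⟩
            have hmem : n ∈ Sa ∪ Sb := by
              rw [mem_union, hSa, hSb, mem_filter, mem_filter]
              rcases FY_mem hκ hz1 hn hrz hs with h | h
              · exact Or.inl ⟨hn, h⟩
              · exact Or.inr ⟨hn, h⟩
            rw [if_pos hmem]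
            have b3 : |rg y n * ∑ l ∈ n.divisors, FYc κ z y lam l| ≤ 2 ^ 23 := by
              unfold rg
              rw [if_pos hr, one_mul]
              refine (abs_sum_le_sum_abs _ _).trans ?_
              have b1 : ∀ l ∈ n.divisors, |FYc κ z y lam l| ≤ (2 : ℝ) ^ 13 := by
                intro l _
                unfold FYc
                split_ifs
                · exact hlam _
                · rw [abs_zero]
                  norm_num
              refine (sum_le_card_nsmul _ _ _ b1).trans ?_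
              rw [nsmul_eq_mul]
              have b2 := card_div hz1 hrz hnX hz9
              have b4 : (n.divisors.card : ℝ) ≤ 2 ^ 10 := by exact_mod_cast b2
              calc (n.divisors.card : ℝ) * 2 ^ 13 ≤ 2 ^ 10 * 2 ^ 13 := by gcongr
                _ = 2 ^ 23 := by norm_num
            calc (rg y n * ∑ l ∈ n.divisors, FYc κ z y lam l) ^ 2
                = |rg y n * ∑ l ∈ n.divisors, FYc κ z y lam l| ^ 2 := (sq_abs _).symm
              _ ≤ (2 ^ 23) ^ 2 := by gcongr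
              _ = 2 ^ 46 := by norm_num
          · have h0 : rg y n = 0 := by
              unfold rg
              rw [if_neg hr]
            rw [h0, zero_mul]
            simpa using hnn
      · rw [if_neg (fun h => h5n h.1), if_neg (fun h => h5n h.1), sub_zero]
        simpa using hnn
    have hsum : ∑ n ∈ Icc 1 X, (wty (kp B' X) X (W X) n - AE X y (FYc κ z y lam) n) ^ 2 ≤
        2 ^ 46 * ((Sa.card : ℝ) + Sb.card) := by
      refine (sum_le_sum hpt).trans ?_
      rw [← sum_filter, sum_const, nsmul_eq_mul, mul_comm]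
      have c1 : ((Icc 1 X).filter (fun n => n ∈ Sa ∪ Sb)).card ≤ Sa.card + Sb.card := by
        refine (card_le_card ?_).trans (card_union_le _ _)
        intro n hn
        exact (mem_filter.1 hn).2
      have c2 : (((Icc 1 X).filter (fun n => n ∈ Sa ∪ Sb)).card : ℝ) ≤ (Sa.card : ℝ) + Sb.card := by
        exact_mod_cast c1
      gcongr
    refine hsum.trans ?_
    have hA := FY_near κ X hκ hκ1
    have hB := FY_sq z X hz1
    rw [← hSa, ← hLdef] at hA
    rw [← hSb] at hB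
    have hLB : 0 < L ^ B' := pow_pos hL0 _
    have hgoal : (X : ℝ) / L ^ ((B' : ℝ) - 3) = X * L ^ 3 / L ^ B' := by
      rw [Real.rpow_sub hL0, Real.rpow_natCast]
      have h8 : L ^ (3 : ℝ) = L ^ 3 := by
        rw [← Real.rpow_natCast]
        norm_num
      rw [h8]
      field_simp
    rw [hgoal]
    -- the two parts
    have p1 : 2 ^ 46 * (4 * κ * X * (1 + L)) ≤ X * L ^ 3 / L ^ B' / 2 := by
      have q1 : κ = 1 / L ^ B' := by
        rw [hκdef]
        unfold kp
        rw [← hLdef]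
      have q2 : 1 + L ≤ 2 * L := by linarith
      have q3 : (2 : ℝ) ^ 50 ≤ L ^ 2 := by
        calc (2 : ℝ) ^ 50 ≤ (2 ^ 26) ^ 2 := by norm_num
          _ ≤ L ^ 2 := pow_le_pow_left₀ (by norm_num) hL 2
      rw [q1]
      calc 2 ^ 46 * (4 * (1 / L ^ B') * X * (1 + L)) ≤ 2 ^ 46 * (4 * (1 / L ^ B') * X * (2 * L)) := by
            gcongr
        _ = X * L / L ^ B' / 2 * 2 ^ 50 := by
            field_simp
            norm_num
        _ ≤ X * L / L ^ B' / 2 * L ^ 2 := mul_le_mul_of_nonneg_left q3 (by positivity)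
        _ = X * L ^ 3 / L ^ B' / 2 := by
            ring
    have p2 : 2 ^ 46 * (X * (2 / (z : ℝ))) ≤ X * L ^ 3 / L ^ B' / 2 := by
      have q1 : 2 ^ 48 * L ^ B' ≤ z := hP.trans hz8
      have q2 : 1 / (z : ℝ) ≤ 1 / (2 ^ 48 * L ^ B') :=
        one_div_le_one_div_of_le (by positivity) q1
      have q3 : (1 : ℝ) ≤ L ^ 3 := one_le_pow₀ hL1
      calc 2 ^ 46 * (X * (2 / (z : ℝ))) = 2 ^ 47 * X * (1 / z) := by ring
        _ ≤ 2 ^ 47 * X * (1 / (2 ^ 48 * L ^ B')) := by gcongr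
        _ = X * 1 / L ^ B' / 2 := by
            field_simp
        _ ≤ X * L ^ 3 / L ^ B' / 2 := by gcongr
    calc 2 ^ 46 * ((Sa.card : ℝ) + Sb.card) ≤ 2 ^ 46 * (4 * κ * X * (1 + L) + X * (2 / (z : ℝ))) := by
          gcongr
      _ = 2 ^ 46 * (4 * κ * X * (1 + L)) + 2 ^ 46 * (X * (2 / (z : ℝ))) := by ring
      _ ≤ X * L ^ 3 / L ^ B' := by linarith

end Pool.MP_dd84fd_nt.BY
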