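import Pool.Agent.Lib.MP_dd84fd_nt.BY.Defs

/-!
# BY-Pr: a character and the primitive character which induces it, bounded weights on rough
numbers (helper39; after helper94's BX-As2)

`prY : PrY` (T6).  For `χ` modulo `q ≤ X` the two sums differ only in the rough `n ≤ X` which have
a common prime factor `p ≥ X^(1/10)` with `q`: at most `10 X^(9/10)` numbers.
-/

set_option autoImplicit false

namespace Pool.MP_dd84fd_nt.BY

open Finset MeasureTheory Pool.MP_67663b_nt.Odd Pool.MP_dd84fd_nt.En Pool.MP_dd84fd_nt.E2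
open Pool.MP_dd84fd_nt.LS Pool.MP_dd84fd_nt.GX Pool.MP_dd84fd_nt.HX Pool.MP_dd84fd_nt.IX
open Pool.MP_dd84fd_nt.BX (PC pv IsPC PFam prc pv_norm_le)

private theorem a2_ee_cont : Continuous ee := by
  unfold ee
  fun_prop

private theorem a2_SX_cont (X : ℕ) (w : ℕ → ℝ) (ψ : PC) : Continuous (SXf X w ψ) := by
  unfold SXf
  refine continuous_finsetSum _ fun n _ => ?_
  exact continuous_const.mul (a2_ee_cont.comp (continuous_const.mul continuous_id))

/-- Minkowski -/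
private theorem a2_mink {f g : ℝ → ℂ} {a b c : ℝ} (hab : a < b) (hf : Continuous f)
    (hg : Continuous g) (hc : 0 ≤ c) (h : ∀ x, ‖f x‖ ≤ ‖g x‖ + c) :
    Real.sqrt (∫ x in a..b, ‖f x‖ ^ 2) ≤
      Real.sqrt (∫ x in a..b, ‖g x‖ ^ 2) + c * Real.sqrt (b - a) := by
  have hl : 0 < b - a := by linarith
  have cg : Continuous fun x => ‖g x‖ := hg.norm
  have cg2 : Continuous fun x => ‖g x‖ ^ 2 := cg.pow 2
  have cf2 : Continuous fun x => ‖f x‖ ^ 2 := hf.norm.pow 2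
  obtain ⟨I, hI⟩ : ∃ I, I = ∫ x in a..b, ‖g x‖ ^ 2 := ⟨_, rfl⟩
  obtain ⟨J, hJ⟩ : ∃ J, J = ∫ x in a..b, ‖g x‖ := ⟨_, rfl⟩
  have hI0 : 0 ≤ I := by
    rw [hI]
    exact intervalIntegral.integral_nonneg hab.le fun x _ => by positivity
  have e1 : ∀ t : ℝ, ∫ x in a..b, (‖g x‖ + t) ^ 2 = I + 2 * t * J + t ^ 2 * (b - a) := by
    intro t
    have e2 : ∀ x, (‖g x‖ + t) ^ 2 = ‖g x‖ ^ 2 + (2 * t) * ‖g x‖ + t ^ 2 := fun x => by ring
    have i1 : IntervalIntegrable (fun x => ‖g x‖ ^ 2) volume a b := cg2.intervalIntegrable _ _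
    have i2 : IntervalIntegrable (fun x => (2 * t) * ‖g x‖) volume a b :=
      (continuous_const.mul cg).intervalIntegrable _ _
    have i3 : IntervalIntegrable (fun _ : ℝ => t ^ 2) volume a b :=
      continuous_const.intervalIntegrable _ _
    have i4 : IntervalIntegrable (fun x => ‖g x‖ ^ 2 + (2 * t) * ‖g x‖) volume a b := i1.add i2
    rw [intervalIntegral.integral_congr (fun x _ => e2 x), intervalIntegral.integral_add i4 i3,
      intervalIntegral.integral_add i1 i2, intervalIntegral.integral_const_mul,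
      intervalIntegral.integral_const, ← hI, ← hJ, smul_eq_mul]
    ring
  have hcs : J ^ 2 ≤ (b - a) * I := by
    have h1 : 0 ≤ ∫ x in a..b, (‖g x‖ + (-(J / (b - a)))) ^ 2 :=
      intervalIntegral.integral_nonneg hab.le fun x _ => by positivity
    rw [e1] at h1
    have h2 : I + 2 * (-(J / (b - a))) * J + (-(J / (b - a))) ^ 2 * (b - a) =
        (I * (b - a) - J ^ 2) / (b - a) := by
      field_simp
      ring
    rw [h2, div_nonneg_iff] at h1
    rcases h1 with h1 | h1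
    · linarith [h1.1]
    · linarith [h1.2]
  have hJ1 : J ≤ Real.sqrt (b - a) * Real.sqrt I := by
    rw [← Real.sqrt_mul hl.le]
    exact Real.le_sqrt_of_sq_le hcs
  have h3 : ∫ x in a..b, ‖f x‖ ^ 2 ≤ ∫ x in a..b, (‖g x‖ + c) ^ 2 := by
    refine intervalIntegral.integral_mono_on hab.le (cf2.intervalIntegrable _ _)
      (((cg.add continuous_const).pow 2).intervalIntegrable _ _) fun x _ => ?_
    exact pow_le_pow_left₀ (norm_nonneg _) (h x) 2
  rw [e1] at h3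
  rw [← hI]
  refine Real.sqrt_le_iff.2 ⟨by positivity, h3.trans ?_⟩
  have s1 := Real.sq_sqrt hI0
  have s2 := Real.sq_sqrt hl.le
  have h4 : 2 * c * J ≤ 2 * c * (Real.sqrt (b - a) * Real.sqrt I) :=
    mul_le_mul_of_nonneg_left hJ1 (by positivity)
  nlinarith [h4, s1, s2]

private theorem a2_pv_eq (q : ℕ) (χ : DirichletCharacter ℂ q) (n : ℕ) (h : Nat.Coprime n q) :
    pv ⟨q, χ⟩ n = pv (prc χ) n := by
  have hc : IsCoprime (n : ℤ) (q : ℤ) := Nat.isCoprime_iff_coprime.mpr h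
  have e1 := DirichletCharacter.changeLevel_eq_cast_of_dvd' χ.primitiveCharacter
    χ.conductor_dvd_level hc
  rw [DirichletCharacter.changeLevel_primitiveCharacter, Int.cast_natCast, Int.cast_natCast] at e1
  exact e1

private theorem a2_pv_zero (q : ℕ) (χ : DirichletCharacter ℂ q) (n : ℕ) (h : ¬ Nat.Coprime n q) :
    pv ⟨q, χ⟩ n = 0 := by
  have hu : ¬ IsUnit ((n : ℕ) : ZMod q) := fun hh => h ((ZMod.isUnit_iff_coprime n q).1 hh)
  exact MulChar.map_nonunit _ hu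

/-- at most ten large prime factors -/
private theorem a2_card (X q : ℕ) (hX : 2 ≤ X) (hq1 : 1 ≤ q) (hq : q ≤ X) :
    (((q.primeFactors).filter (fun p => zI X ≤ p)).card : ℝ) ≤ 10 := by
  obtain ⟨S, hS⟩ : ∃ S, S = (q.primeFactors).filter (fun p => zI X ≤ p) := ⟨_, rfl⟩
  rw [← hS]
  have hXr : (1 : ℝ) < X := by exact_mod_cast (by omega : 1 < X)
  have h1 : ∏ p ∈ S, p ∣ q := by
    refine dvd_trans ?_ (Nat.prod_primeFactors_dvd q)
    rw [hS]
    exact Finset.prod_dvd_prod_of_subset _ _ _ (filter_subset _ _)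
  have h2 : (∏ p ∈ S, (p : ℝ)) ≤ X := by
    have := (Nat.le_of_dvd (by omega) h1).trans hq
    have h : ((∏ p ∈ S, p : ℕ) : ℝ) ≤ X := by exact_mod_cast this
    rwa [Nat.cast_prod] at h
  have h3 : ((X : ℝ) ^ (1 / 10 : ℝ)) ^ S.card ≤ ∏ p ∈ S, (p : ℝ) := by
    rw [← prod_const]
    refine prod_le_prod (fun _ _ => by positivity) fun p hp => ?_
    rw [hS, mem_filter] at hp
    have : (zI X : ℝ) ≤ p := by exact_mod_cast hp.2
    exact (Nat.le_ceil _).trans this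
  by_contra hcon
  rw [not_le] at hcon
  have h4 : 11 ≤ S.card := by
    have : 10 < S.card := by exact_mod_cast hcon
    omega
  have h5 : ((X : ℝ) ^ (1 / 10 : ℝ)) ^ S.card = (X : ℝ) ^ ((1 / 10 : ℝ) * S.card) := by
    rw [Real.rpow_mul (by positivity), Real.rpow_natCast]
  have h6 : (X : ℝ) < (X : ℝ) ^ ((1 / 10 : ℝ) * S.card) := by
    conv_lhs => rw [← Real.rpow_one (X : ℝ)]
    refine Real.rpow_lt_rpow_of_exponent_lt hXr ?_
    linarith
  rw [h5] at h3
  linarith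

/-- the numbers with a large common prime factor with `q` -/
private theorem a2_bad (X q : ℕ) (hX : 2 ≤ X) (hq1 : 1 ≤ q) (hq : q ≤ X) :
    (((Icc 1 X).filter (fun n => ∃ p ∈ (q.primeFactors).filter (fun p => zI X ≤ p), p ∣ n)).card : ℝ) ≤
      10 * (X : ℝ) ^ (9 / 10 : ℝ) := by
  have hX0 : (0 : ℝ) < X := by exact_mod_cast (by omega : 0 < X)
  obtain ⟨S, hS⟩ : ∃ S, S = (q.primeFactors).filter (fun p => zI X ≤ p) := ⟨_, rfl⟩
  have hc := a2_card X q hX hq1 hq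
  rw [← hS] at hc ⊢
  have hsub : (Icc 1 X).filter (fun n => ∃ p ∈ S, p ∣ n) ⊆
      S.biUnion fun p => (Ioc 0 X).filter (fun n => p ∣ n) := by
    intro n hn
    rw [mem_filter, mem_Icc] at hn
    obtain ⟨⟨h1, h2⟩, p, hp, hpn⟩ := hn
    rw [mem_biUnion]
    exact ⟨p, hp, by rw [mem_filter, mem_Ioc]; exact ⟨⟨by omega, h2⟩, hpn⟩⟩
  have h1 : (((Icc 1 X).filter (fun n => ∃ p ∈ S, p ∣ n)).card : ℝ) ≤
      ∑ p ∈ S, (((Ioc 0 X).filter (fun n => p ∣ n)).card : ℝ) := by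
    exact_mod_cast (card_le_card hsub).trans card_biUnion_le
  have h2 : ∀ p ∈ S, (((Ioc 0 X).filter (fun n => p ∣ n)).card : ℝ) ≤ (X : ℝ) ^ (9 / 10 : ℝ) := by
    intro p hp
    rw [hS, mem_filter] at hp
    rw [Nat.Ioc_filter_dvd_card_eq_div]
    have hp1 : (X : ℝ) ^ (1 / 10 : ℝ) ≤ p := by
      have h3 : (X : ℝ) ^ (1 / 10 : ℝ) ≤ (zI X : ℕ) := by unfold zI; exact Nat.le_ceil _
      have h4 : ((zI X : ℕ) : ℝ) ≤ p := by exact_mod_cast hp.2
      linarith
    have hp0 : (0 : ℝ) < p := lt_of_lt_of_le (by positivity) hp1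
    refine Nat.cast_div_le.trans ?_
    rw [div_le_iff₀ hp0]
    calc (X : ℝ) = (X : ℝ) ^ (9 / 10 : ℝ) * (X : ℝ) ^ (1 / 10 : ℝ) := by
          rw [← Real.rpow_add hX0]; norm_num
      _ ≤ (X : ℝ) ^ (9 / 10 : ℝ) * p := mul_le_mul_of_nonneg_left hp1 (by positivity)
  calc _ ≤ ∑ p ∈ S, (((Ioc 0 X).filter (fun n => p ∣ n)).card : ℝ) := h1
    _ ≤ ∑ p ∈ S, (X : ℝ) ^ (9 / 10 : ℝ) := sum_le_sum h2
    _ = (S.card : ℝ) * (X : ℝ) ^ (9 / 10 : ℝ) := by rw [sum_const, nsmul_eq_mul]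
    _ ≤ 10 * (X : ℝ) ^ (9 / 10 : ℝ) := mul_le_mul_of_nonneg_right hc (by positivity)

private theorem a2_diff (X q K0 : ℕ) (w : ℕ → ℝ) (hw : ∀ n, |w n| ≤ K0 * rg (zI X) n) (hX : 2 ≤ X)
    (hq1 : 1 ≤ q) (hq : q ≤ X) (χ : DirichletCharacter ℂ q) (x : ℝ) :
    ‖SXf X w ⟨q, χ⟩ x‖ ≤ ‖SXf X w (prc χ) x‖ + K0 * (10 * (X : ℝ) ^ (9 / 10 : ℝ)) := by
  have h1 : ‖SXf X w ⟨q, χ⟩ x - SXf X w (prc χ) x‖ ≤ K0 * (10 * (X : ℝ) ^ (9 / 10 : ℝ)) := by
    unfold SXf
    rw [← sum_sub_distrib]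
    refine (norm_sum_le _ _).trans ?_
    have h2 : ∀ n ∈ Icc 1 X, ‖((w n : ℝ) : ℂ) * pv ⟨q, χ⟩ n * ee ((n : ℝ) * x) -
        ((w n : ℝ) : ℂ) * pv (prc χ) n * ee ((n : ℝ) * x)‖ ≤
        if ∃ p ∈ (q.primeFactors).filter (fun p => zI X ≤ p), p ∣ n then (K0 : ℝ) else 0 := by
      intro n hn
      rw [mem_Icc] at hn
      have e0 : ((w n : ℝ) : ℂ) * pv ⟨q, χ⟩ n * ee ((n : ℝ) * x) -
          ((w n : ℝ) : ℂ) * pv (prc χ) n * ee ((n : ℝ) * x) =
          ((w n : ℝ) : ℂ) * (pv ⟨q, χ⟩ n - pv (prc χ) n) * ee ((n : ℝ) * x) := by ring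
      rw [e0, norm_mul, norm_mul, norm_ee, mul_one]
      by_cases hc : Nat.Coprime n q
      · rw [a2_pv_eq q χ n hc, sub_self, norm_zero, mul_zero]
        split_ifs
        · exact Nat.cast_nonneg _
        · exact le_rfl
      · rw [a2_pv_zero q χ n hc, zero_sub, norm_neg, Complex.norm_real, Real.norm_eq_abs]
        have hwn := hw n
        by_cases hr : Rgh (zI X) n
        · have hm : ∃ p ∈ (q.primeFactors).filter (fun p => zI X ≤ p), p ∣ n := by
            rw [Nat.Prime.not_coprime_iff_dvd] at hc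
            obtain ⟨p, hp, hpn, hpq⟩ := hc
            refine ⟨p, ?_, hpn⟩
            rw [mem_filter, Nat.mem_primeFactors]
            exact ⟨⟨hp, hpq, by omega⟩, hr.2 p (Nat.mem_primeFactors.2 ⟨hp, hpn, hr.1⟩)⟩
          rw [if_pos hm]
          unfold rg at hwn
          rw [if_pos hr, mul_one] at hwn
          have h3 := pv_norm_le (prc χ) n
          have h4 := norm_nonneg (pv (prc χ) n)
          nlinarith [abs_nonneg (w n)]
        · unfold rg at hwn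
          rw [if_neg hr, mul_zero] at hwn
          have h3 : |w n| = 0 := le_antisymm hwn (abs_nonneg _)
          rw [h3, zero_mul]
          split_ifs
          · exact Nat.cast_nonneg _
          · exact le_rfl
    refine (sum_le_sum h2).trans ?_
    rw [← sum_filter, sum_const, nsmul_eq_mul, mul_comm]
    exact mul_le_mul_of_nonneg_left (a2_bad X q hX hq1 hq) (Nat.cast_nonneg _)
  have h2 : ‖SXf X w ⟨q, χ⟩ x‖ ≤ ‖SXf X w (prc χ) x‖ +
      ‖SXf X w ⟨q, χ⟩ x - SXf X w (prc χ) x‖ := by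
    have := norm_add_le (SXf X w (prc χ) x) (SXf X w ⟨q, χ⟩ x - SXf X w (prc χ) x)
    rwa [add_sub_cancel] at this
  linarith

private theorem a2_log (K0 k : ℕ) : ∃ X0 : ℕ, ∀ X : ℕ, X0 ≤ X →
    20 * K0 * (Real.log X) ^ k ≤ (X : ℝ) ^ (1 / 10 : ℝ) ∧ 1 ≤ Real.log X := by
  have h1 : (fun x : ℝ => Real.log x ^ (k : ℝ)) =o[Filter.atTop] fun x => x ^ (1 / 10 : ℝ) :=
    isLittleO_log_rpow_rpow_atTop _ (by norm_num)
  have h2 := (h1.bound (c := 1 / (20 * K0 + 1)) (by positivity))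
  have h3 := tendsto_natCast_atTop_atTop (R := ℝ) |>.eventually h2
  have h4 : ∀ᶠ X : ℕ in Filter.atTop, 1 ≤ Real.log (X : ℝ) :=
    (Real.tendsto_log_atTop.comp tendsto_natCast_atTop_atTop).eventually_ge_atTop 1
  obtain ⟨X0, hX0⟩ := Filter.eventually_atTop.1 (h3.and h4)
  refine ⟨X0, fun X hX => ?_⟩
  obtain ⟨h5, h6⟩ := hX0 X hX
  rw [Real.rpow_natCast, Real.norm_of_nonneg (by positivity),
    Real.norm_of_nonneg (by positivity)] at h5
  refine ⟨?_, h6⟩
  have h7 : 0 ≤ (Real.log X) ^ k := by positivity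
  rw [one_div_mul_eq_div, le_div_iff₀ (by positivity)] at h5
  nlinarith

theorem prY : PrY := by
  intro K0 A' B
  obtain ⟨X1, hX1⟩ := a2_log K0 (1 + B + A')
  refine ⟨max X1 2, fun X hX T hT1 hTB w hw q hq1 hq χ => ?_⟩
  have hX2 : 2 ≤ X := le_trans (le_max_right _ _) hX
  obtain ⟨h1, h2⟩ := hX1 X (le_trans (le_max_left _ _) hX)
  have hXr : (0 : ℝ) < X := by exact_mod_cast (by omega : 0 < X)
  have hTX : 0 < T / X := div_pos (by linarith) hXr
  obtain ⟨c, hc⟩ : ∃ c : ℝ, c = K0 * (10 * (X : ℝ) ^ (9 / 10 : ℝ)) := ⟨_, rfl⟩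
  have hc0 : 0 ≤ c := by rw [hc]; positivity
  have h3 := a2_mink (a := -(T / X)) (b := T / X) (c := c) (by linarith)
    (a2_SX_cont X w ⟨q, χ⟩) (a2_SX_cont X w (prc χ)) hc0
    (fun x => by rw [hc]; exact a2_diff X q K0 w hw hX2 hq1 hq χ x)
  unfold sNf
  have h4 : 0 ≤ Real.log X / Real.sqrt X := by positivity
  refine (mul_le_mul_of_nonneg_left h3 h4).trans ?_
  rw [mul_add]
  refine add_le_add le_rfl ?_
  have e1 : T / X - -(T / X) = (2 * T) / X := by ring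
  rw [e1, Real.sqrt_div (by linarith)]
  have h5 : Real.sqrt (2 * T) ≤ 2 * T := by
    rw [Real.sqrt_le_left (by linarith)]
    nlinarith
  have h6 : Real.log X / Real.sqrt X * (c * (Real.sqrt (2 * T) / Real.sqrt X)) =
      c * Real.log X * Real.sqrt (2 * T) / X := by
    have hs := Real.mul_self_sqrt hXr.le
    have hs0 : Real.sqrt X ≠ 0 := (Real.sqrt_pos.2 hXr).ne'
    field_simp
    rw [sq, hs]
    ring
  rw [h6, div_le_div_iff₀ hXr (by positivity), one_mul]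
  have h7 : c * Real.log X * Real.sqrt (2 * T) ≤ c * Real.log X * (2 * (Real.log X) ^ B) := by
    refine mul_le_mul_of_nonneg_left (h5.trans (by linarith)) (by positivity)
  calc c * Real.log X * Real.sqrt (2 * T) * Real.log X ^ A' ≤
      c * Real.log X * (2 * (Real.log X) ^ B) * Real.log X ^ A' :=
        mul_le_mul_of_nonneg_right h7 (by positivity)
    _ = (X : ℝ) ^ (9 / 10 : ℝ) * (20 * K0 * (Real.log X) ^ (1 + B + A')) := by
        rw [hc, pow_add, pow_add, pow_one]; ring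
    _ ≤ (X : ℝ) ^ (9 / 10 : ℝ) * (X : ℝ) ^ (1 / 10 : ℝ) :=
        mul_le_mul_of_nonneg_left h1 (by positivity)
    _ = X := by rw [← Real.rpow_add hXr]; norm_num

end Pool.MP_dd84fd_nt.BY
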