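import Pool.Agent.Lib.MP_dd84fd_nt.BX.CDefs
import Pool.Agent.Lib.MP_dd84fd_nt.HX.DcDefs

/-!
# BY, part (S): definitions (helper18)

`SvIn CS`: the sieve input with variable level `b` (Brun-Hooley weight `s` and majorant `θ` of its
deficiency).  `gam`, `ga`: the coefficients of the identity.  `cg`: classes of primes on the
logarithmic scale.  `PW`, `PY`: the parameters and their inequalities.
-/

set_option autoImplicit false

namespace Pool.MP_dd84fd_nt.BY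

open Finset
open Pool.MP_dd84fd_nt.HX (rg Rgh ro sm mr Smo)
open Pool.MP_dd84fd_nt.BX (ChF nt Cells Bil)

/-- the sieve of level `b`: `rg z ≤ ∑ s ≤ rg z + ∑ θ` (divisor form, coefficients at most `1`, level
`z^(4b+12)`), `∑ s ≤ CS H / log z + level`, `∑ θ ≤ CS e^(-b) H / log z + level` over the intervals of
length `H` -/
structure SvD (CS : ℝ) (b z : ℕ) (s θ : ℕ → ℝ) : Prop where
  bs : ∀ e, |s e| ≤ 1
  bt : ∀ e, |θ e| ≤ 1
  ss : ∀ e, s e ≠ 0 → 1 ≤ e ∧ (e : ℝ) ≤ (z : ℝ) ^ (4 * b + 12)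
  st : ∀ e, θ e ≠ 0 → 1 ≤ e ∧ (e : ℝ) ≤ (z : ℝ) ^ (4 * b + 12)
  lo : ∀ n, 1 ≤ n → rg z n ≤ ∑ e ∈ n.divisors, s e
  up : ∀ n, 1 ≤ n → ∑ e ∈ n.divisors, s e - rg z n ≤ ∑ e ∈ n.divisors, θ e
  ms : ∀ u v : ℕ, u ≤ v → ∑ n ∈ Ioc u v, ∑ e ∈ n.divisors, s e ≤
    CS * ((v : ℝ) - u) / Real.log z + (z : ℝ) ^ (4 * b + 12)
  mt : ∀ u v : ℕ, u ≤ v → ∑ n ∈ Ioc u v, ∑ e ∈ n.divisors, θ e ≤
    CS * Real.exp (-b) * ((v : ℝ) - u) / Real.log z + (z : ℝ) ^ (4 * b + 12)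

/-- the sieve exists for all levels -/
def SvIn (CS : ℝ) : Prop := ∀ b z : ℕ, 2 ≤ z → ∃ s θ : ℕ → ℝ, SvD CS b z s θ

/-- reciprocals of the rough numbers -/
def RecIn (CR : ℝ) : Prop := ∀ z X : ℕ, 2 ≤ z → z ≤ X →
  ∑ m ∈ Icc 1 X, rg z m / m ≤ CR * (Real.log X / Real.log z)

/-- `c(rough part) μ(smooth part)` -/
noncomputable def gam (y : ℕ) (c : ℕ → ℝ) (m : ℕ) : ℝ := c (ro y m) * mr (sm y m)

open Classical in
/-- the same for `a / P^-(smooth part of a) < U + 1` -/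
noncomputable def ga (y U : ℕ) (c : ℕ → ℝ) (a : ℕ) : ℝ :=
  if (a : ℝ) < ((U : ℝ) + 1) * ((sm y a).minFac : ℝ) then gam y c a else 0

/-- coefficient of the type I part -/
noncomputable def cA1 (z y U : ℕ) (c : ℕ → ℝ) (m : ℕ) : ℝ :=
  if m ≤ U then rg z m * gam y c m else 0

/-- coefficient of the type II part with the cross condition -/
noncomputable def cA2 (z y U : ℕ) (c : ℕ → ℝ) (a : ℕ) : ℝ := rg z a * ga y U c a

open Classical in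
/-- kernel of the type II part: `P^-(k) ≥ P^-(smooth part of a)` -/
noncomputable def kB2 (z y a k : ℕ) : ℝ :=
  if (∀ p ∈ k.primeFactors, (sm y a).minFac ≤ p) then rg z k else 0

/-- the bilinear form with a kernel in one cell -/
noncomputable def BilK (A : ℕ → ℂ) (B : ℕ → ℕ → ℂ) (U V : ℕ) (f : ℕ → ℂ) (α β : ℕ) : ℂ :=
  ∑ a ∈ Ioc U V, A a * f a * ∑ k ∈ Ioc (α / a) (β / a), B a k * f k

/-- the class of the prime `p` -/
noncomputable def cg (G X p : ℕ) : ℕ := ⌊(G : ℝ) * Real.log p / Real.log X⌋₊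

open Classical in
/-- rough numbers with least prime factor in one class -/
def ClsIn (CP : ℝ) : Prop := ∀ (X z G W : ℕ) (H : ℝ), 2 ≤ z → z ≤ X → 1 ≤ Real.log X → 1 ≤ G →
  (G : ℝ) ≤ (z : ℝ) ^ (1 / 4 : ℝ) → (W : ℝ) * (X : ℝ) ^ (1 / (G : ℝ)) * z ≤ H →
  ∀ γ u v : ℕ, (v : ℝ) - u ≤ H →
    (((Ioc u v).filter (fun k => rg z k = 1 ∧ k.minFac ≤ W ∧ cg G X k.minFac = γ)).card : ℝ) ≤
      CP * H * (Real.log X / G) / (Real.log z) ^ 2

/-- parameters of the window lemma; `N` bounds the size of the family, `q ≥ log X / log z` -/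
structure PW (CS : ℝ) (X h z U V : ℕ) (q δ P N : ℝ) : Prop where
  z2 : 2 ≤ z
  zX : z ≤ X
  lX : 1 ≤ Real.log X
  CS1 : 1 ≤ CS
  q1 : 1 ≤ q
  Xz : Real.log X ≤ q * Real.log z
  N1 : 1 ≤ N
  P1 : 1 ≤ P
  U1 : 1 ≤ U
  UV : U ≤ V
  Vh : V ≤ h
  hX : h ≤ X
  d0 : 0 < δ
  d1 : δ ≤ 1
  dU : 1 ≤ δ * U
  aU : 2 * N * (z : ℝ) ^ (16 : ℕ) * P ≤ CS * (δ * U) / Real.log z
  bV : 2 * N * (z : ℝ) ^ (16 : ℕ) * P ≤ CS * (h / V) / Real.log z
  er : 2 * N * (δ * X * Real.log X + V) * Real.log X ≤ h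

/-- all parameters: `U < a ≤ V` in (II1), `U < l ≤ V2` in (II2), `W` bounds the least prime factors
in the near-diagonal part, `G` classes, sieve level `b` in (I) -/
structure PY (CS : ℝ) (X h z y U V V2 W G b : ℕ) (q δ P N : ℝ) : Prop where
  w1 : PW CS X h z U V q δ P N
  w2 : PW CS X h z U V2 q δ P N
  zy : z ≤ y
  yX : y ≤ X
  Vy : (U + 1) * y ≤ V
  G1 : 1 ≤ G
  Gz : (G : ℝ) ≤ (z : ℝ) ^ (1 / 4 : ℝ)
  yW : (y : ℝ) * (X : ℝ) ^ (1 / (G : ℝ)) ≤ W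
  WG : (W : ℝ) * (X : ℝ) ^ (1 / (G : ℝ)) * z ≤ h / V
  bU : 2 * N * (z : ℝ) ^ (4 * b + 12) * P ≤ CS * Real.exp (-b) * (h / U) / Real.log z
  eI : N * U * P * (z : ℝ) ^ (4 * b + 12) * Real.log X ≤ h * Real.exp (-b)

end Pool.MP_dd84fd_nt.BY
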