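import Pool.Agent.Lib.MP_dd84fd_nt.BX.BrB
import Pool.Agent.Lib.MP_dd84fd_nt.BY.SDefs

/-!
# BY/SBrT (helper33, helper81): the Brun-Hooley sieve with variable level

`s = ` coefficients of `Sv b z` (BX/BrA: `Sv b z n = ∏_j S_j`, `ES b z`),
`Θ = ∑_i (fr_i(r_i) - fr_i(r_i + 1)) ∏_{j ≠ i} S_j`, `r_j = 2 (b + j)`.  By Bonferroni
`S_i - [om_i = 0] ≤ fr_i(r_i) - fr_i(r_i + 1)`, and `∏ S_i - ∏ [om_i = 0] ≤
∑_i (S_i - [om_i = 0]) ∏_{j ≠ i} S_j`.  The sets `T` of `Θ` are those with `r_i + 1` primes in exactly one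
block `i` and at most `r_j` in the others (`EJ`): the coefficients of `Θ` are `-μ(e)` or `0`.  Level
`4 b + 5`.  Main term of `Θ`: `fr_i(r_i) - fr_i(r_i+1) ≤ 9 * 8^(r_i+1)/(r_i+1)!`, and
`∏_{j ≠ i} fr_j ≤ e^16 CB / log z`.
-/

set_option autoImplicit false

namespace Pool.MP_dd84fd_nt.BY

open Finset
open Pool.MP_dd84fd_nt.HX (rg Rgh)
open Pool.MP_dd84fd_nt.BX (fr Ef JJ blk ES Sv CB bz)

/-- truncations: one more in the block `i` -/
def rJ (b i j : ℕ) : ℕ := if j = i then 2 * (b + j) + 1 else 2 * (b + j)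

/-- sets with `2 (b + i) + 1` primes in the block `i` and at most `2 (b + j)` in the others -/
noncomputable def EJ (b : ℕ) (z : ℝ) (i : ℕ) : Finset (Finset ℕ) :=
  Ef (JJ z) (blk z) (rJ b i) \ Ef (JJ z) (blk z) (fun j => 2 * (b + j))

/-- their union -/
noncomputable def ET (b : ℕ) (z : ℝ) : Finset (Finset ℕ) := (range (JJ z)).biUnion (EJ b z)

open Classical in
/-- the support of `Θ` -/
noncomputable def ETi (b : ℕ) (z : ℝ) : Finset ℕ := (ET b z).image (fun T => ∏ p ∈ T, p)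

open Classical in
/-- the coefficients of `Θ` -/
noncomputable def thc (b : ℕ) (z : ℝ) (e : ℕ) : ℝ :=
  if e ∈ ETi b z then -((ArithmeticFunction.moebius e : ℤ) : ℝ) else 0

theorem mem_EJ {b : ℕ} {z : ℝ} {i : ℕ} {T : Finset ℕ} (h : T ∈ EJ b z i) :
    T ⊆ (range (JJ z)).biUnion (blk z) ∧ (∀ j ∈ range (JJ z), (T ∩ blk z j).card ≤ rJ b i j) ∧
      (T ∩ blk z i).card = 2 * (b + i) + 1 := by
  unfold EJ at h
  rw [mem_sdiff, BX.mem_Ef, BX.mem_Ef] at h
  obtain ⟨⟨h1, h2⟩, h3⟩ := h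
  refine ⟨h1, h2, ?_⟩
  push Not at h3
  obtain ⟨j, hj, hj2⟩ := h3 h1
  have h4 := h2 j hj
  unfold rJ at h4
  split_ifs at h4 with h5
  · subst h5
    omega
  · omega

theorem EJ_disj {b : ℕ} {z : ℝ} {i j : ℕ} (hi : i ∈ range (JJ z)) (hij : i ≠ j) :
    Disjoint (EJ b z i) (EJ b z j) := by
  rw [disjoint_left]
  intro T h1 h2
  have h3 := (mem_EJ h1).2.2
  have h4 := (mem_EJ h2).2.1 i hi
  unfold rJ at h4
  rw [if_neg hij] at h4
  omega

theorem ET_prime {b : ℕ} {z : ℝ} {T : Finset ℕ} (hT : T ∈ ET b z) : ∀ p ∈ T, p.Prime := by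
  unfold ET at hT
  rw [mem_biUnion] at hT
  obtain ⟨i, -, hi⟩ := hT
  intro p hp
  have h1 := (mem_EJ hi).1 hp
  rw [mem_biUnion] at h1
  obtain ⟨j, -, hj⟩ := h1
  exact (BX.mem_blk.1 hj).1

theorem ET_inj (b : ℕ) (z : ℝ) : Set.InjOn (fun T : Finset ℕ => ∏ p ∈ T, p) (ET b z) := by
  intro S hS T hT h
  rw [mem_coe] at hS hT
  have h1 := Nat.primeFactors_prod (ET_prime hS)
  have h2 := Nat.primeFactors_prod (ET_prime hT)
  rw [← h1, ← h2]
  exact congrArg Nat.primeFactors h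

/-- the level -/
theorem EJ_le {b : ℕ} {z : ℝ} (hz : 1 ≤ z) {i : ℕ} {T : Finset ℕ}
    (hT : T ∈ EJ b z i) : ((∏ p ∈ T, p : ℕ) : ℝ) ≤ z ^ (4 * b + 5) := by
  classical
  obtain ⟨hT1, hT2, -⟩ := mem_EJ hT
  have h1 : ((∏ p ∈ T, p : ℕ) : ℝ) =
      ∏ j ∈ range (JJ z), ∏ p ∈ T ∩ blk z j, (p : ℝ) := by
    push_cast
    rw [← prod_biUnion]
    · refine prod_congr ?_ fun _ _ => rfl
      ext p
      rw [mem_biUnion]
      constructor
      · intro hp
        have h2 := hT1 hp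
        rw [mem_biUnion] at h2
        obtain ⟨j, hj, hp'⟩ := h2
        exact ⟨j, hj, mem_inter.2 ⟨hp, hp'⟩⟩
      · rintro ⟨j, -, hp⟩
        exact (mem_inter.1 hp).1
    · intro i _ j _ hij
      refine disjoint_of_subset_left inter_subset_right
        (disjoint_of_subset_right inter_subset_right (BX.blk_disj hz hij))
  rw [h1]
  have h2 : ∀ j ∈ range (JJ z), ∏ p ∈ T ∩ blk z j, (p : ℝ) ≤
      z ^ ((1 / 2 : ℝ) ^ j * (rJ b i j : ℕ)) := by
    intro j hj
    calc ∏ p ∈ T ∩ blk z j, (p : ℝ) ≤ ∏ p ∈ T ∩ blk z j, bz z j := by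
          refine prod_le_prod (fun p _ => Nat.cast_nonneg _) fun p hp => ?_
          exact (BX.mem_blk.1 (mem_inter.1 hp).2).2.2.le
      _ = bz z j ^ (T ∩ blk z j).card := by rw [prod_const]
      _ ≤ bz z j ^ (rJ b i j) := pow_le_pow_right₀ (BX.one_le_bz hz j) (hT2 j hj)
      _ = z ^ ((1 / 2 : ℝ) ^ j * (rJ b i j : ℕ)) := by
          unfold bz
          rw [← Real.rpow_natCast, ← Real.rpow_mul (by linarith)]
  have h3 : ∏ j ∈ range (JJ z), ∏ p ∈ T ∩ blk z j, (p : ℝ) ≤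
      ∏ j ∈ range (JJ z), z ^ ((1 / 2 : ℝ) ^ j * (rJ b i j : ℕ)) :=
    prod_le_prod (fun j _ => prod_nonneg fun p _ => Nat.cast_nonneg _) h2
  refine h3.trans ?_
  rw [← Real.rpow_sum_of_pos (by linarith), ← Real.rpow_natCast]
  refine Real.rpow_le_rpow_of_exponent_le hz ?_
  have h4 : ∀ N : ℕ, ∑ j ∈ range N, (1 / 2 : ℝ) ^ j * ((2 * (b + j) : ℕ) : ℝ) =
      4 * b + 4 - (4 * b + 4 + 4 * N) * (1 / 2) ^ N := by
    intro N
    induction N with
    | zero => simp
    | succ N ih =>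
      rw [sum_range_succ, ih, pow_succ]
      push_cast
      ring
  have h5 : ∑ j ∈ range (JJ z), (1 / 2 : ℝ) ^ j * (rJ b i j : ℕ) ≤
      ∑ j ∈ range (JJ z), (1 / 2 : ℝ) ^ j * ((2 * (b + j) : ℕ) : ℝ) + 1 := by
    have h6 : ∀ j ∈ range (JJ z), (1 / 2 : ℝ) ^ j * (rJ b i j : ℕ) =
        (1 / 2 : ℝ) ^ j * ((2 * (b + j) : ℕ) : ℝ) + if j = i then (1 / 2 : ℝ) ^ j else 0 := by
      intro j _
      unfold rJ
      split_ifs
      · push_cast
        ring
      · ring
    rw [sum_congr rfl h6, sum_add_distrib, sum_ite_eq']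
    have h7 : (if i ∈ range (JJ z) then (1 / 2 : ℝ) ^ i else 0) ≤ 1 := by
      split_ifs
      · exact pow_le_one₀ (by norm_num) (by norm_num)
      · norm_num
    linarith
  rw [h4] at h5
  have h8 : (0 : ℝ) ≤ (4 * b + 4 + 4 * (JJ z : ℝ)) * (1 / 2) ^ (JJ z) := by positivity
  push_cast
  linarith

theorem ETi_bd {b : ℕ} {z : ℝ} (hz : 1 ≤ z) {e : ℕ} (he : e ∈ ETi b z) :
    1 ≤ e ∧ (e : ℝ) ≤ z ^ (4 * b + 5) := by
  classical
  unfold ETi at he
  rw [mem_image] at he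
  obtain ⟨T, hT, rfl⟩ := he
  refine ⟨Nat.pos_of_ne_zero (BX.prod_primes_sqf T (ET_prime hT)).ne_zero, ?_⟩
  unfold ET at hT
  rw [mem_biUnion] at hT
  obtain ⟨i, -, hi⟩ := hT
  exact EJ_le hz hi

/-- the expansion of `Θ` at the variables `x` -/
theorem ET_sum (b : ℕ) {z : ℝ} (hz : 1 ≤ z) (x : ℕ → ℝ) :
    ∑ T ∈ ET b z, -∏ p ∈ T, (-x p) =
      ∑ i ∈ range (JJ z), (fr (blk z i) x (2 * (b + i)) - fr (blk z i) x (2 * (b + i) + 1)) *
        ∏ j ∈ (range (JJ z)).erase i, fr (blk z j) x (2 * (b + j)) := by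
  classical
  unfold ET
  rw [sum_biUnion (fun i hi j _ hij => EJ_disj hi hij)]
  refine sum_congr rfl fun i hi => ?_
  have hsub : Ef (JJ z) (blk z) (fun j => 2 * (b + j)) ⊆ Ef (JJ z) (blk z) (rJ b i) := by
    intro T hT
    rw [BX.mem_Ef] at hT ⊢
    refine ⟨hT.1, fun j hj => (hT.2 j hj).trans ?_⟩
    unfold rJ
    split_ifs
    · omega
    · exact le_rfl
  have h1 := sum_sdiff (f := fun T : Finset ℕ => ∏ p ∈ T, (-x p)) hsub
  have h2 := BX.ef_prod (JJ z) (blk z) (rJ b i) x (fun i _ j _ h => BX.blk_disj hz h)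
  have h3 := BX.ef_prod (JJ z) (blk z) (fun j => 2 * (b + j)) x
    (fun i _ j _ h => BX.blk_disj hz h)
  rw [← h2, ← h3] at h1
  rw [sum_neg_distrib]
  have h4 : ∑ T ∈ EJ b z i, ∏ p ∈ T, (-x p) =
      ∏ j ∈ range (JJ z), fr (blk z j) x (rJ b i j) -
        ∏ j ∈ range (JJ z), fr (blk z j) x (2 * (b + j)) := by
    unfold EJ
    linarith
  rw [h4, ← mul_prod_erase _ _ hi, ← mul_prod_erase _ _ hi]
  have h5 : ∏ j ∈ (range (JJ z)).erase i, fr (blk z j) x (rJ b i j) =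
      ∏ j ∈ (range (JJ z)).erase i, fr (blk z j) x (2 * (b + j)) := by
    refine prod_congr rfl fun j hj => ?_
    unfold rJ
    rw [if_neg (mem_erase.1 hj).1]
  have h6 : rJ b i i = 2 * (b + i) + 1 := by
    unfold rJ
    rw [if_pos rfl]
  rw [h5, h6]
  ring

/-- divisor form -/
theorem thc_sum (b : ℕ) {z : ℝ} {n : ℕ} (hn : n ≠ 0) :
    ∑ e ∈ n.divisors, thc b z e =
      ∑ T ∈ ET b z, -∏ p ∈ T, (-(if p ∣ n then (1 : ℝ) else 0)) := by
  classical
  have h1 : ∑ e ∈ n.divisors, thc b z e =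
      ∑ e ∈ ETi b z, if e ∣ n then -((ArithmeticFunction.moebius e : ℤ) : ℝ) else 0 := by
    unfold thc
    rw [← sum_filter, ← sum_filter]
    refine sum_congr ?_ fun _ _ => rfl
    ext e
    rw [mem_filter, mem_filter, Nat.mem_divisors]
    constructor
    · rintro ⟨⟨h3, -⟩, h4⟩
      exact ⟨h4, h3⟩
    · rintro ⟨h3, h4⟩
      exact ⟨⟨h4, hn⟩, h3⟩
  rw [h1]
  unfold ETi
  rw [sum_image (ET_inj b z)]
  refine sum_congr rfl fun T hT => ?_
  have hp := ET_prime hT
  by_cases h : ∀ p ∈ T, p ∣ n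
  · rw [if_pos ((BX.prod_dvd_iff T hp n).2 h), BX.moebius_prod_primes T hp]
    push_cast
    rw [← prod_const]
    congr 1
    refine prod_congr rfl fun p hp => ?_
    rw [if_pos (h p hp)]
  · rw [if_neg (fun h' => h ((BX.prod_dvd_iff T hp n).1 h'))]
    push Not at h
    obtain ⟨p, hp, hpn⟩ := h
    rw [prod_eq_zero hp (by rw [if_neg hpn, neg_zero]), neg_zero]

/-- the mean value of a divisor sum -/
theorem mean_le (E : Finset ℕ) (c : ℕ → ℝ) (hc : ∀ e, |c e| ≤ 1) (hE : ∀ e ∈ E, 1 ≤ e)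
    (hs : ∀ e, e ∉ E → c e = 0) (u v : ℕ) (huv : u ≤ v) :
    ∑ n ∈ Ioc u v, ∑ e ∈ n.divisors, c e ≤ ((v : ℝ) - u) * ∑ e ∈ E, c e / e + E.card := by
  classical
  have h0 : ∀ n ∈ Ioc u v, ∑ e ∈ n.divisors, c e = ∑ e ∈ E, if e ∣ n then c e else 0 := by
    intro n hn
    have hn0 : n ≠ 0 := by rw [mem_Ioc] at hn; omega
    rw [← sum_filter]
    symm
    apply sum_subset_zero_on_sdiff
    · intro e he
      rw [mem_filter] at he
      exact Nat.mem_divisors.2 ⟨he.2, hn0⟩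
    · intro e he
      rw [mem_sdiff, mem_filter, Nat.mem_divisors] at he
      refine hs e fun hcon => he.2 ⟨hcon, he.1.1⟩
    · intro e _
      rfl
  rw [sum_congr rfl h0, sum_comm, mul_sum]
  have h2 : ∀ e ∈ E, ∑ n ∈ Ioc u v, (if e ∣ n then c e else 0) ≤
      ((v : ℝ) - u) * (c e / e) + 1 := by
    intro e he
    have h3 := BX.card_mult u v e huv (hE e he)
    rw [← sum_filter, sum_const, nsmul_eq_mul]
    set k := (((Ioc u v).filter (fun n => e ∣ n)).card : ℝ)
    have h5 : |c e * (k - ((v : ℝ) - u) / e)| ≤ 1 := by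
      rw [abs_mul]
      calc _ ≤ 1 * (1 : ℝ) := mul_le_mul (hc e) h3 (abs_nonneg _) zero_le_one
        _ = 1 := one_mul 1
    have h6 := (le_abs_self _).trans h5
    have h4 : k * c e - ((v : ℝ) - u) * (c e / e) = c e * (k - ((v : ℝ) - u) / e) := by ring
    linarith
  refine (sum_le_sum h2).trans ?_
  rw [sum_add_distrib, sum_const, nsmul_eq_mul, mul_one]

/-- telescoping for products -/
theorem prod_sub_le (s : Finset ℕ) (S w g : ℕ → ℝ) (hw : ∀ j ∈ s, 0 ≤ w j)
    (hS : ∀ j ∈ s, w j ≤ S j) (hg : ∀ j ∈ s, S j - w j ≤ g j) :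
    ∏ j ∈ s, S j - ∏ j ∈ s, w j ≤ ∑ i ∈ s, g i * ∏ j ∈ s.erase i, S j := by
  classical
  induction s using Finset.induction_on with
  | empty => simp
  | insert a s ha ih =>
    have ih' := ih (fun j hj => hw j (mem_insert_of_mem hj))
      (fun j hj => hS j (mem_insert_of_mem hj)) (fun j hj => hg j (mem_insert_of_mem hj))
    have hwa := hw a (mem_insert_self a s)
    have hSa := hS a (mem_insert_self a s)
    have hga := hg a (mem_insert_self a s)
    have hP0 : 0 ≤ ∏ j ∈ s, S j := prod_nonneg fun j hj =>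
      (hw j (mem_insert_of_mem hj)).trans (hS j (mem_insert_of_mem hj))
    have hPw : ∏ j ∈ s, w j ≤ ∏ j ∈ s, S j :=
      prod_le_prod (fun j hj => hw j (mem_insert_of_mem hj))
        fun j hj => hS j (mem_insert_of_mem hj)
    rw [prod_insert ha, prod_insert ha, sum_insert ha, erase_insert ha]
    have h1 : ∑ i ∈ s, g i * ∏ j ∈ (insert a s).erase i, S j =
        S a * ∑ i ∈ s, g i * ∏ j ∈ s.erase i, S j := by
      rw [mul_sum]
      refine sum_congr rfl fun i hi => ?_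
      have hia : i ≠ a := fun h => ha (h ▸ hi)
      rw [erase_insert_of_ne (Ne.symm hia), prod_insert (fun h => ha (mem_of_mem_erase h))]
      ring
    rw [h1]
    have h2 : S a * (∏ j ∈ s, S j - ∏ j ∈ s, w j) ≤
        S a * ∑ i ∈ s, g i * ∏ j ∈ s.erase i, S j :=
      mul_le_mul_of_nonneg_left ih' (hwa.trans hSa)
    have h3 : w a * (∏ j ∈ s, S j - ∏ j ∈ s, w j) ≤ S a * (∏ j ∈ s, S j - ∏ j ∈ s, w j) :=
      mul_le_mul_of_nonneg_right hSa (by linarith)
    have h4 : (S a - w a) * ∏ j ∈ s, S j ≤ g a * ∏ j ∈ s, S j :=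
      mul_le_mul_of_nonneg_right hga hP0
    calc S a * ∏ j ∈ s, S j - w a * ∏ j ∈ s, w j
        = (S a - w a) * ∏ j ∈ s, S j + w a * (∏ j ∈ s, S j - ∏ j ∈ s, w j) := by ring
      _ ≤ _ := by linarith

/-- one block: `fr(r) - ∏ (1 - x) ≤ fr(r) - fr(r+1)`, and the size of the latter -/
theorem fr_dif (B : Finset ℕ) (x : ℕ → ℝ) (h0 : ∀ p ∈ B, 0 ≤ x p) (h1 : ∀ p ∈ B, x p ≤ 1)
    (m : ℕ) (hs : ∑ p ∈ B, x p ≤ 8) :
    fr B x (2 * m) - fr B x (2 * m + 1) ≤
      9 * ((8 : ℝ) ^ (2 * m + 1) / (Nat.factorial (2 * m + 1) : ℝ)) := by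
  obtain ⟨a1, a2⟩ := BX.bonf_aux B x h0 h1 (2 * m)
  obtain ⟨b1, b2⟩ := BX.bonf_aux B x h0 h1 (2 * m + 1)
  have e1 : (-1 : ℝ) ^ (2 * m) = 1 := by rw [pow_mul, neg_one_sq, one_pow]
  have e2 : (-1 : ℝ) ^ (2 * m + 1) = -1 := by rw [pow_succ, e1, one_mul]
  rw [e1, one_mul] at a1 a2
  rw [e2] at b1 b2
  have hs0 : 0 ≤ ∑ p ∈ B, x p := sum_nonneg h0
  have c1 : (∑ p ∈ B, x p) ^ (2 * m + 1) / (Nat.factorial (2 * m + 1) : ℝ) ≤
      (8 : ℝ) ^ (2 * m + 1) / (Nat.factorial (2 * m + 1) : ℝ) :=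
    div_le_div_of_nonneg_right (pow_le_pow_left₀ hs0 hs _) (by positivity)
  have c2 : (∑ p ∈ B, x p) ^ (2 * m + 1 + 1) / (Nat.factorial (2 * m + 1 + 1) : ℝ) ≤
      8 * ((8 : ℝ) ^ (2 * m + 1) / (Nat.factorial (2 * m + 1) : ℝ)) := by
    calc (∑ p ∈ B, x p) ^ (2 * m + 1 + 1) / (Nat.factorial (2 * m + 1 + 1) : ℝ)
        ≤ (8 : ℝ) ^ (2 * m + 1 + 1) / (Nat.factorial (2 * m + 1 + 1) : ℝ) :=
          div_le_div_of_nonneg_right (pow_le_pow_left₀ hs0 hs _) (by positivity)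
      _ ≤ (8 : ℝ) ^ (2 * m + 1 + 1) / (Nat.factorial (2 * m + 1) : ℝ) := by
          refine div_le_div_of_nonneg_left (by positivity) (by positivity) ?_
          exact_mod_cast Nat.factorial_le (Nat.le_succ _)
      _ = _ := by
          rw [pow_succ]
          ring
  linarith

theorem svIn : ∃ CS : ℝ, 1 ≤ CS ∧ SvIn CS := by
  classical
  set K : ℝ := 9 * Real.exp 16 * Real.exp (8 * Real.exp 1) with hK
  have hK1 : 1 ≤ K := by
    have h1 : 1 ≤ Real.exp 16 := Real.one_le_exp (by norm_num)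
    have h2 : 1 ≤ Real.exp (8 * Real.exp 1) := Real.one_le_exp (by positivity)
    have h3 : 1 ≤ Real.exp 16 * Real.exp (8 * Real.exp 1) :=
      one_le_mul_of_one_le_of_one_le h1 h2
    rw [hK]
    linarith
  have hCB : 1 ≤ CB := by
    unfold CB
    exact Real.one_le_exp (by positivity)
  have hmu : ∀ e : ℕ, |((ArithmeticFunction.moebius e : ℤ) : ℝ)| ≤ 1 := by
    intro e
    have := ArithmeticFunction.abs_moebius_le_one (n := e)
    exact_mod_cast this
  refine ⟨CB * K, one_le_mul_of_one_le_of_one_le hCB hK1, ?_⟩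
  intro b z hz
  have hzr : (2 : ℝ) ≤ z := by exact_mod_cast hz
  have hz1 : (1 : ℝ) ≤ z := by linarith
  have hlz : 0 < Real.log z := Real.log_pos (by linarith)
  set s : ℕ → ℝ := fun e => if e ∈ ES b z then ((ArithmeticFunction.moebius e : ℤ) : ℝ) else 0
    with hs
  have hsum : ∀ n : ℕ, n ≠ 0 → ∑ e ∈ n.divisors, s e = Sv b z n := by
    intro n hn
    rw [BX.Sv_eq b hz1 n, hs, ← sum_filter]
    refine sum_congr ?_ fun _ _ => rfl
    ext e
    rw [mem_filter, mem_filter, Nat.mem_divisors]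
    constructor
    · rintro ⟨⟨h3, -⟩, h4⟩
      exact ⟨h4, h3⟩
    · rintro ⟨h3, h4⟩
      exact ⟨⟨h4, hn⟩, h3⟩
  -- the indicator function as a product over the blocks
  have hrg : ∀ n : ℕ, n ≠ 0 → rg z n =
      ∏ j ∈ range (JJ z), ∏ p ∈ blk z j, (1 - (if p ∣ n then (1 : ℝ) else 0)) := by
    intro n hn
    rw [← prod_biUnion (fun i _ j _ hij => BX.blk_disj hz1 hij), BX.blk_union hzr]
    unfold rg
    split_ifs with h
    · symm
      refine prod_eq_one fun p hp => ?_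
      rw [Pool.MP_67663b_nt.Odd.mem_pr] at hp
      rw [if_neg, sub_zero]
      intro hpn
      have h1 := h.2 p (Nat.mem_primeFactors.2 ⟨hp.1, hpn, hn⟩)
      have h2 : (z : ℝ) ≤ p := by exact_mod_cast h1
      linarith [hp.2.2]
    · unfold Rgh at h
      push Not at h
      obtain ⟨p, hp, hpz⟩ := h hn
      rw [Nat.mem_primeFactors] at hp
      symm
      refine prod_eq_zero (i := p) ?_ ?_
      · rw [Pool.MP_67663b_nt.Odd.mem_pr]
        exact ⟨hp.1, Nat.cast_nonneg p, by exact_mod_cast hpz⟩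
      · rw [if_pos hp.2.1, sub_self]
  have hx0 : ∀ n p : ℕ, (0 : ℝ) ≤ (if p ∣ n then (1 : ℝ) else 0) := by
    intro n p
    split_ifs <;> norm_num
  have hx1 : ∀ n p : ℕ, (if p ∣ n then (1 : ℝ) else 0) ≤ 1 := by
    intro n p
    split_ifs <;> norm_num
  refine ⟨s, thc b z, ?_, ?_, ?_, ?_, ?_, ?_, ?_, ?_⟩
  · intro e
    rw [hs]
    dsimp only
    split_ifs
    · exact hmu e
    · rw [abs_zero]; exact zero_le_one
  · intro e
    unfold thc
    split_ifs
    · rw [abs_neg]; exact hmu e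
    · rw [abs_zero]; exact zero_le_one
  · intro e he
    have h1 : e ∈ ES b z := by
      by_contra hc
      apply he
      rw [hs]
      dsimp only
      rw [if_neg hc]
    exact ⟨BX.ES_pos h1, (BX.ES_le hz1 h1).trans (pow_le_pow_right₀ hz1 (by omega))⟩
  · intro e he
    have h1 : e ∈ ETi b z := by
      by_contra hc
      apply he
      unfold thc
      rw [if_neg hc]
    obtain ⟨h2, h3⟩ := ETi_bd hz1 h1
    exact ⟨h2, h3.trans (pow_le_pow_right₀ hz1 (by omega))⟩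
  · -- lo
    intro n hn
    rw [hsum n (by omega)]
    unfold rg
    split_ifs with h
    · refine (BX.Sv_rough b hz1 ?_).ge
      intro p hp hpn
      have h1 := h.2 p (Nat.mem_primeFactors.2 ⟨hp, hpn, by omega⟩)
      exact_mod_cast h1
    · exact BX.Sv_nonneg b z n
  · -- up
    intro n hn
    have hn0 : n ≠ 0 := by omega
    rw [hsum n hn0, hrg n hn0, thc_sum b hn0, ET_sum b hz1]
    unfold Sv
    refine prod_sub_le (range (JJ z)) _ _ _ ?_ ?_ ?_
    · intro j _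
      refine prod_nonneg fun p _ => ?_
      linarith [hx1 n p]
    · intro j _
      exact (BX.bonf (blk z j) _ (fun p _ => hx0 n p) (fun p _ => hx1 n p) (b + j)).1
    · intro j _
      have h1 := (BX.bonf_aux (blk z j) (fun p => if p ∣ n then (1 : ℝ) else 0)
        (fun p _ => hx0 n p) (fun p _ => hx1 n p) (2 * (b + j) + 1)).1
      have e1 : (-1 : ℝ) ^ (2 * (b + j) + 1) = -1 := by
        rw [pow_succ, pow_mul, neg_one_sq, one_pow, one_mul]
      rw [e1] at h1
      linarith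
  · -- ms
    intro u v huv
    have h1 : ∑ n ∈ Ioc u v, ∑ e ∈ n.divisors, s e = ∑ n ∈ Ioc u v, Sv b z n :=
      sum_congr rfl fun n hn => hsum n (by rw [mem_Ioc] at hn; omega)
    rw [h1]
    refine (BX.sum_Sv b hzr u v huv).trans (add_le_add ?_ (pow_le_pow_right₀ hz1 (by omega)))
    have huv' : (0 : ℝ) ≤ (v : ℝ) - u := by
      have : (u : ℝ) ≤ v := by exact_mod_cast huv
      linarith
    apply div_le_div_of_nonneg_right _ hlz.le
    refine mul_le_mul_of_nonneg_right ?_ huv'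
    nlinarith
  · -- mt
    intro u v huv
    have huv' : (0 : ℝ) ≤ (v : ℝ) - u := by
      have : (u : ℝ) ≤ v := by exact_mod_cast huv
      linarith
    have hE1 : ∀ e ∈ ETi b z, 1 ≤ e := fun e he => (ETi_bd hz1 he).1
    have h1 := mean_le (ETi b z) (thc b z) (fun e => by
      unfold thc
      split_ifs
      · rw [abs_neg]; exact hmu e
      · rw [abs_zero]; exact zero_le_one) hE1 (fun e he => by
      unfold thc
      rw [if_neg he]) u v huv
    have hcard : ((ETi b z).card : ℝ) ≤ (z : ℝ) ^ (4 * b + 12) := by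
      have h2 : ETi b z ⊆ Icc 1 ⌊(z : ℝ) ^ (4 * b + 5)⌋₊ := by
        intro e he
        rw [mem_Icc]
        exact ⟨(ETi_bd hz1 he).1, Nat.le_floor (ETi_bd hz1 he).2⟩
      have h3 := card_le_card h2
      rw [Nat.card_Icc, Nat.add_sub_cancel] at h3
      calc ((ETi b z).card : ℝ) ≤ (⌊(z : ℝ) ^ (4 * b + 5)⌋₊ : ℝ) := by exact_mod_cast h3
        _ ≤ (z : ℝ) ^ (4 * b + 5) := Nat.floor_le (by positivity)
        _ ≤ (z : ℝ) ^ (4 * b + 12) := pow_le_pow_right₀ hz1 (by omega)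
    have hmain : ∑ e ∈ ETi b z, thc b z e / e =
        ∑ T ∈ ET b z, -∏ p ∈ T, (-(1 / (p : ℝ))) := by
      have h2 : ∀ e ∈ ETi b z, thc b z e / e =
          -((ArithmeticFunction.moebius e : ℤ) : ℝ) / e := by
        intro e he
        unfold thc
        rw [if_pos he]
      rw [sum_congr rfl h2]
      unfold ETi
      rw [sum_image (ET_inj b z)]
      refine sum_congr rfl fun T hT => ?_
      rw [BX.moebius_prod_primes T (ET_prime hT)]
      push_cast
      rw [← prod_const, neg_div, ← prod_div_distrib]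
      congr 1
      refine prod_congr rfl fun p _ => ?_
      ring
    have hy0 : ∀ j, ∀ p ∈ blk z j, (0 : ℝ) ≤ 1 / (p : ℝ) := fun j p _ => by positivity
    have hy1 : ∀ j, ∀ p ∈ blk z j, 1 / (p : ℝ) ≤ 1 := by
      intro j p hp
      have h2 : (1 : ℝ) ≤ p := by exact_mod_cast (BX.mem_blk.1 hp).1.one_lt.le
      rw [div_le_one (by linarith)]
      exact h2
    have hfr : ∀ j, Real.exp (-16) ≤ fr (blk z j) (fun p => 1 / (p : ℝ)) (2 * (b + j)) :=
      fun j => (BX.blk_prod hz1 j).trans (BX.bonf (blk z j) _ (hy0 j) (hy1 j) (b + j)).1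
    have hfr0 : ∀ j, 0 < fr (blk z j) (fun p => 1 / (p : ℝ)) (2 * (b + j)) := fun j =>
      (Real.exp_pos _).trans_le (hfr j)
    have hall : ∏ j ∈ range (JJ z), fr (blk z j) (fun p => 1 / (p : ℝ)) (2 * (b + j)) ≤
        CB / Real.log z := by
      have := BX.sum_ES b hzr
      rwa [BX.sum_ES_eq b hz1] at this
    have hbd : ∑ e ∈ ETi b z, thc b z e / e ≤ CB * K * Real.exp (-b) / Real.log z := by
      rw [hmain, ET_sum b hz1]
      have h2 : ∀ i ∈ range (JJ z),
          (fr (blk z i) (fun p => 1 / (p : ℝ)) (2 * (b + i)) -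
            fr (blk z i) (fun p => 1 / (p : ℝ)) (2 * (b + i) + 1)) *
          ∏ j ∈ (range (JJ z)).erase i, fr (blk z j) (fun p => 1 / (p : ℝ)) (2 * (b + j)) ≤
          9 * Real.exp (-b) * ((8 * Real.exp 1) ^ (2 * (b + i) + 1) /
            (Nat.factorial (2 * (b + i) + 1) : ℝ)) * (Real.exp 16 * (CB / Real.log z)) := by
        intro i hi
        have h3 := fr_dif (blk z i) _ (hy0 i) (hy1 i) (b + i) (BX.blk_sum hz1 i)
        have h4 : ∏ j ∈ (range (JJ z)).erase i,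
            fr (blk z j) (fun p => 1 / (p : ℝ)) (2 * (b + j)) ≤
            Real.exp 16 * (CB / Real.log z) := by
          have h5 := mul_prod_erase (range (JJ z))
            (fun j => fr (blk z j) (fun p => 1 / (p : ℝ)) (2 * (b + j))) hi
          have h6 : 0 ≤ ∏ j ∈ (range (JJ z)).erase i,
            fr (blk z j) (fun p => 1 / (p : ℝ)) (2 * (b + j)) := prod_nonneg fun j _ =>
              (hfr0 j).le
          have h7 : Real.exp (-16) * ∏ j ∈ (range (JJ z)).erase i,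
              fr (blk z j) (fun p => 1 / (p : ℝ)) (2 * (b + j)) ≤ CB / Real.log z := by
            refine le_trans (mul_le_mul_of_nonneg_right (hfr i) h6) ?_
            rw [h5]
            exact hall
          calc ∏ j ∈ (range (JJ z)).erase i, fr (blk z j) (fun p => 1 / (p : ℝ)) (2 * (b + j))
              = Real.exp 16 * (Real.exp (-16) * ∏ j ∈ (range (JJ z)).erase i,
                fr (blk z j) (fun p => 1 / (p : ℝ)) (2 * (b + j))) := by
                rw [← mul_assoc, ← Real.exp_add]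
                norm_num
            _ ≤ _ := mul_le_mul_of_nonneg_left h7 (Real.exp_pos _).le
        have h8 : (8 : ℝ) ^ (2 * (b + i) + 1) / (Nat.factorial (2 * (b + i) + 1) : ℝ) ≤
            Real.exp (-b) * ((8 * Real.exp 1) ^ (2 * (b + i) + 1) /
              (Nat.factorial (2 * (b + i) + 1) : ℝ)) := by
          rw [← mul_div_assoc]
          apply div_le_div_of_nonneg_right _ (by positivity)
          rw [mul_pow, ← mul_assoc, mul_comm (Real.exp (-b)), mul_assoc]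
          have h9 : 1 ≤ Real.exp (-b) * Real.exp 1 ^ (2 * (b + i) + 1) := by
            rw [← Real.exp_nat_mul, ← Real.exp_add]
            apply Real.one_le_exp
            push_cast
            have : (0 : ℝ) ≤ b := Nat.cast_nonneg b
            have : (0 : ℝ) ≤ i := Nat.cast_nonneg i
            linarith
          calc (8 : ℝ) ^ (2 * (b + i) + 1) = 8 ^ (2 * (b + i) + 1) * 1 := (mul_one _).symm
            _ ≤ _ := mul_le_mul_of_nonneg_left h9 (by positivity)
        have h10 : 0 ≤ ∏ j ∈ (range (JJ z)).erase i,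
            fr (blk z j) (fun p => 1 / (p : ℝ)) (2 * (b + j)) := prod_nonneg fun j _ => (hfr0 j).le
        have h11 : (0 : ℝ) ≤ 9 * Real.exp (-b) * ((8 * Real.exp 1) ^ (2 * (b + i) + 1) /
            (Nat.factorial (2 * (b + i) + 1) : ℝ)) := by positivity
        refine mul_le_mul ?_ h4 h10 h11
        calc _ ≤ _ := h3
          _ ≤ 9 * (Real.exp (-b) * ((8 * Real.exp 1) ^ (2 * (b + i) + 1) /
              (Nat.factorial (2 * (b + i) + 1) : ℝ))) := mul_le_mul_of_nonneg_left h8 (by norm_num)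
          _ = _ := by ring
      refine (sum_le_sum h2).trans ?_
      rw [← sum_mul, ← mul_sum]
      have h3 := BX.sum_fact (8 * Real.exp 1) (by positivity) b (JJ z)
      have h4 : 0 ≤ Real.exp 16 * (CB / Real.log z) := by
        have := BX.CB_pos
        positivity
      calc _ ≤ 9 * Real.exp (-b) * Real.exp (8 * Real.exp 1) *
            (Real.exp 16 * (CB / Real.log z)) :=
            mul_le_mul_of_nonneg_right (mul_le_mul_of_nonneg_left h3 (by positivity)) h4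
        _ = CB * K * Real.exp (-b) / Real.log z := by
            rw [hK]
            ring
    calc _ ≤ _ := h1
      _ ≤ ((v : ℝ) - u) * (CB * K * Real.exp (-b) / Real.log z) + (z : ℝ) ^ (4 * b + 12) :=
          add_le_add (mul_le_mul_of_nonneg_left hbd huv') hcard
      _ = _ := by ring

end Pool.MP_dd84fd_nt.BY
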