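import Pool.Agent.Lib.MP_dd84fd_nt.BX.DgA
import Pool.Agent.Lib.MP_dd84fd_nt.BY.SDefs

/-!
# BY/SCnt (0.6 h): least prime factor in one class; reciprocals of rough numbers (helper18; from helper39's BX/DgA)

`clsIn`: from `BX.card_cls` (DgA) with `y = H`.  If the class is empty nothing is to be shown.  Otherwise
`X^(γ/G) ≤ minFac k ≤ W` for some `k`, `minFac k ≥ z`: put `α = max z (X^(γ/G))`, `β = α X^(1/G)`; all the
`minFac k` are in `[α, β)` (`cg G X p = γ` iff `γ ≤ G log p / log X < γ + 1`).  `α ≤ W` (or `z ≤ minFac k ≤ W`),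
so `β √z ≤ W X^(1/G) z ≤ H`.  `α + √α ≤ β`: `X^(1/G) ≥ 1 + log X / G ≥ 1 + 1/G` and
`1/G ≥ z^(-1/4) ≥ α^(-1/2)`.  `log (β/α) = log X / G`, `log α ≥ log z`.
`recIn`: `BX.rough_inv`, `rg z m = 1` iff `Rough (z : ℝ) m` (`m ≥ 1`).
-/

set_option autoImplicit false

namespace Pool.MP_dd84fd_nt.BY

open Finset
open Pool.MP_dd84fd_nt.HX (rg Rgh)

theorem rg_rough (z n : ℕ) (hn : 1 ≤ n) : rg z n = 1 ↔ Pool.MP_dd84fd_nt.En.Rough (z : ℝ) n := by
  have h1 : rg z n = 1 ↔ Rgh z n := by
    unfold rg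
    split_ifs with h
    · exact ⟨fun _ => h, fun _ => rfl⟩
    · exact ⟨fun h2 => absurd h2 (by norm_num), fun h2 => absurd h2 h⟩
  rw [h1]
  unfold Rgh Pool.MP_dd84fd_nt.En.Rough
  constructor
  · rintro ⟨_, h2⟩ p hp hpn
    exact_mod_cast h2 p (Nat.mem_primeFactors.2 ⟨hp, hpn, by omega⟩)
  · intro h2
    refine ⟨by omega, fun p hp => ?_⟩
    have h3 := Nat.mem_primeFactors.1 hp
    exact_mod_cast h2 p h3.1 h3.2.1

private theorem scnt_log (z : ℝ) (hz : 2 ≤ z) : Real.log z ≤ 4 / 3 * z ^ (3 / 4 : ℝ) := by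
  have h1 : Real.log z = 4 / 3 * Real.log (z ^ (3 / 4 : ℝ)) := by
    rw [Real.log_rpow (by linarith)]
    ring
  rw [h1]
  have h2 : 0 < z ^ (3 / 4 : ℝ) := by positivity
  have h3 := Real.log_le_sub_one_of_pos h2
  linarith

theorem clsIn : ∃ CP : ℝ, 1 ≤ CP ∧ ClsIn CP := by
  classical
  obtain ⟨C, hC, hcls⟩ := Pool.MP_dd84fd_nt.BX.card_cls
  refine ⟨C + 4, by linarith, ?_⟩
  intro X z G W H hz hzX hlX hG hGz hWH γ u v huv
  have hzr : (2 : ℝ) ≤ z := by exact_mod_cast hz
  have hz0 : (0 : ℝ) < z := by linarith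
  have hXr : (z : ℝ) ≤ X := by exact_mod_cast hzX
  have hX0 : (0 : ℝ) < X := by linarith
  have hX1 : (1 : ℝ) ≤ X := by linarith
  have hGr : (1 : ℝ) ≤ G := by exact_mod_cast hG
  have hG0 : (0 : ℝ) < G := by linarith
  have hlz : 0 < Real.log z := Real.log_pos (by linarith)
  have hlzX : Real.log z ≤ Real.log X := Real.log_le_log hz0 hXr
  have hlX0 : 0 < Real.log X := by linarith
  have hlG : 0 < Real.log X / G := by positivity
  have hxG : 1 + Real.log X / G ≤ (X : ℝ) ^ (1 / (G : ℝ)) := by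
    rw [Real.rpow_def_of_pos hX0]
    have h1 := Real.add_one_le_exp (Real.log X * (1 / (G : ℝ)))
    have e : Real.log X * (1 / (G : ℝ)) = Real.log X / G := by ring
    rw [e] at h1 ⊢
    linarith
  obtain ⟨S, hS⟩ : ∃ S, S = (Ioc u v).filter
    (fun k => rg z k = 1 ∧ k.minFac ≤ W ∧ cg G X k.minFac = γ) := ⟨_, rfl⟩
  rw [← hS]
  have hsplit : (S.card : ℝ) ≤ ((S.filter (fun k => k = 1)).card : ℝ) +
      ((S.filter (fun k => ¬ k = 1)).card : ℝ) := by
    rw [← Nat.cast_add, Finset.card_filter_add_card_filter_not]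
  -- the element 1
  have hone : ((S.filter (fun k => k = 1)).card : ℝ) ≤ 4 * H * (Real.log X / G) / (Real.log z) ^ 2 := by
    rcases Finset.eq_empty_or_nonempty (S.filter (fun k => k = 1)) with h | ⟨k, hk⟩
    · rw [h, card_empty, Nat.cast_zero]
      have hW0 : (0 : ℝ) ≤ W := Nat.cast_nonneg _
      have hH0 : 0 ≤ H := le_trans (by positivity) hWH
      positivity
    · have hW1 : 1 ≤ W := by
        rw [mem_filter, hS, mem_filter] at hk
        obtain ⟨⟨_, _, hk2, _⟩, hk3⟩ := hk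
        rw [hk3, Nat.minFac_one] at hk2
        exact hk2
      have hW1r : (1 : ℝ) ≤ W := by exact_mod_cast hW1
      have hHz : (z : ℝ) ≤ H := by
        refine le_trans ?_ hWH
        have h1 : (1 : ℝ) ≤ (X : ℝ) ^ (1 / (G : ℝ)) := by linarith
        have h2 : (1 : ℝ) ≤ W * (X : ℝ) ^ (1 / (G : ℝ)) := by nlinarith
        nlinarith
      have hcard : ((S.filter (fun k => k = 1)).card : ℝ) ≤ 1 := by
        have : (S.filter (fun k => k = 1)) ⊆ {1} := fun x hx => mem_singleton.2 (mem_filter.1 hx).2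
        have h1 := card_le_card this
        rw [card_singleton] at h1
        exact_mod_cast h1
      refine hcard.trans ?_
      rw [le_div_iff₀ (by positivity), one_mul]
      have h1 := scnt_log z hzr
      have h2 : (z : ℝ) ^ (3 / 4 : ℝ) * (z : ℝ) ^ (1 / 4 : ℝ) = z := by
        rw [← Real.rpow_add hz0]
        norm_num
      have h3 : Real.log z * Real.log z ≤ 4 / 3 * (z : ℝ) ^ (3 / 4 : ℝ) * Real.log X :=
        mul_le_mul h1 hlzX hlz.le (by positivity)
      have h4 : (z : ℝ) ^ (3 / 4 : ℝ) * G ≤ z := by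
        calc (z : ℝ) ^ (3 / 4 : ℝ) * G ≤ (z : ℝ) ^ (3 / 4 : ℝ) * (z : ℝ) ^ (1 / 4 : ℝ) := by gcongr
          _ = z := h2
      have h5 : (z : ℝ) ^ (3 / 4 : ℝ) ≤ z / G := by
        rw [le_div_iff₀ hG0]
        exact h4
      calc (Real.log z) ^ 2 = Real.log z * Real.log z := by ring
        _ ≤ 4 / 3 * (z : ℝ) ^ (3 / 4 : ℝ) * Real.log X := h3
        _ ≤ 4 / 3 * (z / G) * Real.log X := by gcongr
        _ ≤ 4 * (H / G) * Real.log X := by gcongr; norm_num
        _ = 4 * H * (Real.log X / G) := by ring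
  have hrest : ((S.filter (fun k => ¬ k = 1)).card : ℝ) ≤
      C * H * (Real.log X / G) / (Real.log z) ^ 2 := by
    rcases Finset.eq_empty_or_nonempty (S.filter (fun k => ¬ k = 1)) with h | ⟨k0, hk0⟩
    · rw [h, card_empty, Nat.cast_zero]
      have hW0 : (0 : ℝ) ≤ W := Nat.cast_nonneg _
      have hH0 : 0 ≤ H := le_trans (by positivity) hWH
      positivity
    · obtain ⟨α, hα⟩ : ∃ α : ℝ, α = max (z : ℝ) ((X : ℝ) ^ ((γ : ℝ) / G)) := ⟨_, rfl⟩
      obtain ⟨β, hβ⟩ : ∃ β : ℝ, β = α * (X : ℝ) ^ (1 / (G : ℝ)) := ⟨_, rfl⟩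
      have hzα : (z : ℝ) ≤ α := by rw [hα]; exact le_max_left _ _
      have hα0 : 0 < α := by linarith
      have hmem : ∀ k ∈ S.filter (fun k => ¬ k = 1), Pool.MP_dd84fd_nt.En.Rough (z : ℝ) k ∧
          α ≤ (k.minFac : ℝ) ∧ (k.minFac : ℝ) < β ∧ k.minFac ≤ W := by
        intro k hk
        rw [mem_filter, hS, mem_filter, mem_Ioc] at hk
        obtain ⟨⟨⟨hk1, _⟩, hk2, hk3, hk4⟩, hk5⟩ := hk
        have hkr := (rg_rough z k (by omega)).1 hk2
        have hp := Nat.minFac_prime hk5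
        have hzp := hkr _ hp (Nat.minFac_dvd k)
        have hp0 : (0 : ℝ) < k.minFac := by exact_mod_cast hp.pos
        unfold cg at hk4
        have hnn : 0 ≤ (G : ℝ) * Real.log k.minFac / Real.log X := by
          have : 0 ≤ Real.log (k.minFac : ℝ) := Real.log_natCast_nonneg _
          positivity
        have h1 : (γ : ℝ) ≤ (G : ℝ) * Real.log k.minFac / Real.log X := by
          rw [← hk4]
          exact Nat.floor_le hnn
        have h2 : (G : ℝ) * Real.log k.minFac / Real.log X < γ + 1 := by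
          rw [← hk4]
          exact Nat.lt_floor_add_one _
        rw [le_div_iff₀ hlX0] at h1
        rw [div_lt_iff₀ hlX0] at h2
        have h3 : (X : ℝ) ^ ((γ : ℝ) / G) ≤ k.minFac := by
          rw [Real.rpow_def_of_pos hX0, ← Real.le_log_iff_exp_le hp0]
          have e : Real.log X * ((γ : ℝ) / G) = (γ * Real.log X) / G := by ring
          rw [e, div_le_iff₀ hG0]
          linarith
        have h4 : (k.minFac : ℝ) < (X : ℝ) ^ ((γ : ℝ) / G) * (X : ℝ) ^ (1 / (G : ℝ)) := by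
          rw [← Real.rpow_add hX0, Real.rpow_def_of_pos hX0, ← Real.log_lt_iff_lt_exp hp0]
          have e : Real.log X * ((γ : ℝ) / G + 1 / G) = ((γ + 1) * Real.log X) / G := by ring
          rw [e, lt_div_iff₀ hG0]
          linarith
        have h5 : (X : ℝ) ^ ((γ : ℝ) / G) ≤ α := by rw [hα]; exact le_max_right _ _
        refine ⟨hkr, ?_, ?_, hk3⟩
        · rw [hα]
          exact max_le hzp h3
        · rw [hβ]
          exact lt_of_lt_of_le h4 (mul_le_mul_of_nonneg_right h5 (by positivity))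
      obtain ⟨_, hk1, _, hk3⟩ := hmem k0 hk0
      have hαW : α ≤ W := hk1.trans (by exact_mod_cast hk3)
      have hsz : Real.sqrt z ≤ z := by
        rw [Real.sqrt_le_left hz0.le]
        nlinarith
      have hβy : β * Real.sqrt z ≤ H := by
        refine le_trans ?_ hWH
        rw [hβ]
        gcongr
      have hαβ : α + Real.sqrt α ≤ β := by
        have h1 : Real.sqrt α ≤ α / G := by
          rw [le_div_iff₀ hG0]
          have h2 : (G : ℝ) ≤ Real.sqrt α := by
            refine hGz.trans ?_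
            rw [Real.sqrt_eq_rpow]
            calc (z : ℝ) ^ (1 / 4 : ℝ) ≤ (z : ℝ) ^ (1 / 2 : ℝ) :=
                  Real.rpow_le_rpow_of_exponent_le (by linarith) (by norm_num)
              _ ≤ α ^ (1 / 2 : ℝ) := Real.rpow_le_rpow hz0.le hzα (by norm_num)
          calc Real.sqrt α * G ≤ Real.sqrt α * Real.sqrt α := by gcongr
            _ = α := Real.mul_self_sqrt hα0.le
        have h3 : α / G ≤ α * (Real.log X / G) := by
          rw [← mul_div_assoc]
          gcongr
          nlinarith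
        rw [hβ]
        nlinarith
      have h1 := hcls z α β H hzr hzα hαβ hβy u v (by linarith)
      have h2 : (S.filter (fun k => ¬ k = 1)) ⊆ Pool.MP_dd84fd_nt.BX.cls z α β u v := by
        intro k hk
        obtain ⟨g1, g2, g3, _⟩ := hmem k hk
        unfold Pool.MP_dd84fd_nt.BX.cls
        rw [mem_filter]
        refine ⟨?_, g1, g2, g3⟩
        rw [mem_filter, hS, mem_filter] at hk
        exact hk.1.1
      have h3 : ((S.filter (fun k => ¬ k = 1)).card : ℝ) ≤
          ((Pool.MP_dd84fd_nt.BX.cls z α β u v).card : ℝ) := by exact_mod_cast card_le_card h2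
      refine (h3.trans h1).trans ?_
      have h4 : Real.log (β / α) = Real.log X / G := by
        rw [hβ, mul_div_cancel_left₀ _ hα0.ne', Real.log_rpow hX0]
        ring
      rw [h4]
      have hH0 : 0 ≤ H := by
        refine le_trans ?_ hβy
        have : 0 < β := by rw [hβ]; positivity
        positivity
      have h5 : Real.log z ≤ Real.log α := Real.log_le_log hz0 hzα
      rw [sq]
      gcongr
  refine hsplit.trans ((add_le_add hone hrest).trans (le_of_eq ?_))
  ring

theorem recIn : ∃ CR : ℝ, 1 ≤ CR ∧ RecIn CR := by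
  classical
  obtain ⟨C, hC, h⟩ := Pool.MP_dd84fd_nt.BX.rough_inv
  refine ⟨C + 1, by linarith, ?_⟩
  intro z X hz hzX
  have hzr : (2 : ℝ) ≤ z := by exact_mod_cast hz
  have hXr : (z : ℝ) ≤ X := by exact_mod_cast hzX
  have hlz : 0 < Real.log z := Real.log_pos (by linarith)
  have hlX : 0 < Real.log X := Real.log_pos (by linarith)
  have h1 := h z hzr X hXr
  have h2 : ∑ m ∈ Icc 1 X, rg z m / m =
      ∑ n ∈ (Icc 1 X).filter (Pool.MP_dd84fd_nt.En.Rough (z : ℝ)), 1 / (n : ℝ) := by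
    rw [sum_filter]
    refine sum_congr rfl fun n hn => ?_
    have hn1 := (mem_Icc.1 hn).1
    by_cases hr : Pool.MP_dd84fd_nt.En.Rough (z : ℝ) n
    · rw [if_pos hr, (rg_rough z n hn1).2 hr]
    · rw [if_neg hr]
      have h3 : ¬ rg z n = 1 := fun h4 => hr ((rg_rough z n hn1).1 h4)
      unfold rg at h3 ⊢
      split_ifs at h3 ⊢ with h5
      · exact absurd rfl h3
      · simp
  rw [h2]
  refine h1.trans ?_
  rw [mul_div_assoc]
  have : 0 ≤ Real.log X / Real.log z := by positivity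
  nlinarith

end Pool.MP_dd84fd_nt.BY
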