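import Pool.Agent.Lib.MP_dd84fd_nt.BY.SDefs

/-!
# BY/SPar (1.5 h): the choice of the parameters (helper18)

`κ = ν / (400 (b0 + 3))`, `z = ⌈X^(κ/J)⌉`, `U = ⌊X^u⌋`, `V = (U + 1) y`, `V2 = ⌊X^s⌋`, `G = G0 256^J`, `b = b0 J`,
`W = ⌈y X^(1/G)⌉`, `q = J/κ`, `δ = X^(-ν/8)`, `P = X^p`, `N = X^(ν/64)`, `h ≥ X^(1-ν/64)`, `X^ν ≤ y ≤ X^b1`.
`J ≤ A1 log₂ log X`, so: `z ≥ exp (κ log X / J)` is larger than every power of `log X` (`Gz`, `z2`),
`z ≤ 2 X^κ`, `z^(4b+12) ≤ 2^(4 b0 J + 12) X^(κ (4 b0 + 12)) ≤ (log X)^C X^(ν/50)`, `e^(b) ≤ (log X)^C`,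
`G ≤ G0 (log X)^(8 A1)`, `1/G ≤ ν/8`.  Exponents (every inequality has the slack `≥ ν/16`):
* `dU`: `u - ν/8 > 0`; `aU`: `ν/64 + 16 κ + p < u - ν/8` (`p + ν ≤ u`);
* `bV` (`V ≤ 2 X^(u+b1)`): `ν/64 + 16 κ + p < 1 - ν/64 - u - b1`; for `V2`: `s + p + ν ≤ 1`;
* `er`: `ν/64 + 1 - ν/8 < 1 - ν/64`, `u + b1 + ν/64 < 1 - ν/64`, `s + ν/64 < 1 - ν/64`;
* `UV`: for `w2`: `u ≤ s`; `Vh`: `u + b1 < 1 - ν/64`, `s < 1 - ν/64`;
* `zy`: `z ≤ 2 X^κ ≤ X^ν ≤ y`; `WG`: `W ≤ 2 X^(b1 + ν/8) + 1`, `b1 + ν/8 + ν/8 + κ < 1 - ν/64 - u - b1`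
  (`u + 2 b1 + ν ≤ 1`); `bU`: `ν/64 + ν/50 + p < 1 - ν/64 - u`;
* `eI`: `ν/64 + u + p + ν/50 < 1 - ν/64` (`u + p + ν ≤ 1`).
`Xz`: `log X = (J/κ) log X^(κ/J) ≤ q log z`.
-/

set_option autoImplicit false

namespace Pool.MP_dd84fd_nt.BY

open Finset

/-- absorbing a constant into a power -/
private theorem SPar_abs {x ν c a b : ℝ} (hx : 1 ≤ x) (hc : c ≤ x ^ (ν / 64))
    (hab : ν / 64 + a ≤ b) : c * x ^ a ≤ x ^ b := by
  have hx0 : 0 < x := by linarith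
  calc c * x ^ a ≤ x ^ (ν / 64) * x ^ a :=
        mul_le_mul_of_nonneg_right hc (Real.rpow_nonneg hx0.le _)
    _ = x ^ (ν / 64 + a) := (Real.rpow_add hx0 _ _).symm
    _ ≤ x ^ b := Real.rpow_le_rpow_of_exponent_le hx hab

private theorem SPar_ev (ν κ : ℝ) (hν : 0 < ν) (hκ : 0 < κ) (b0 A1 G0 : ℕ) :
    ∃ X0 : ℕ, 3 ≤ X0 ∧ ∀ X : ℕ, X0 ≤ X → 1 ≤ Real.log X ∧
      2 ^ 20 * (((Real.log X) ^ (b0 * A1)) ^ 6 * (Real.log X) ^ 2) ≤ (X : ℝ) ^ (ν / 64) ∧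
      4 * (2 * A1 * Real.log (Real.log X)) * (Real.log G0 + 8 * A1 * Real.log (Real.log X)) ≤
        κ * Real.log X := by
  have e1 : ∀ᶠ x : ℝ in Filter.atTop, 1 ≤ Real.log x :=
    Real.tendsto_log_atTop.eventually_ge_atTop 1
  have e2 : ∀ᶠ x : ℝ in Filter.atTop,
      2 ^ 20 * (((Real.log x) ^ (b0 * A1)) ^ 6 * (Real.log x) ^ 2) ≤ x ^ (ν / 64) := by
    have h1 := isLittleO_log_rpow_rpow_atTop (s := ν / 64) (((b0 * A1 * 6 + 2 : ℕ) : ℝ))
      (by positivity)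
    have h2 := h1.def (c := 1 / 2 ^ 20) (by positivity)
    filter_upwards [h2, e1, Filter.eventually_ge_atTop 1] with x hx hl hx1
    rw [Real.rpow_natCast, Real.norm_of_nonneg (by positivity),
      Real.norm_of_nonneg (by positivity)] at hx
    rw [← pow_mul, ← pow_add]
    calc 2 ^ 20 * Real.log x ^ (b0 * A1 * 6 + 2)
        ≤ 2 ^ 20 * (1 / 2 ^ 20 * x ^ (ν / 64)) := by gcongr
      _ = x ^ (ν / 64) := by ring
  have e3 : ∀ᶠ x : ℝ in Filter.atTop,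
      4 * (2 * A1 * Real.log (Real.log x)) * (Real.log G0 + 8 * A1 * Real.log (Real.log x)) ≤
        κ * Real.log x := by
    have h1 : (fun L : ℝ => (8 * A1 * Real.log G0) * Real.log L +
        (64 * (A1 : ℝ) ^ 2) * (Real.log L) ^ 2) =o[Filter.atTop] (id : ℝ → ℝ) :=
      (Real.isLittleO_log_id_atTop.const_mul_left _).add
        ((Real.isLittleO_pow_log_id_atTop (n := 2)).const_mul_left _)
    have h2 := Real.tendsto_log_atTop.eventually (h1.def hκ)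
    filter_upwards [h2, e1] with x hx hl
    rw [id, Real.norm_of_nonneg (by linarith : (0 : ℝ) ≤ Real.log x)] at hx
    refine le_trans (le_of_eq ?_) ((Real.le_norm_self _).trans hx)
    ring
  obtain ⟨x1, hx1⟩ := Filter.eventually_atTop.1 (e1.and (e2.and e3))
  refine ⟨max 3 ⌈x1⌉₊, le_max_left _ _, fun X hX => ?_⟩
  have h1 : x1 ≤ (X : ℝ) :=
    (Nat.le_ceil x1).trans (by exact_mod_cast (le_max_right 3 ⌈x1⌉₊).trans hX)
  exact hx1 X h1

theorem par (p u b1 s ν CS : ℝ) (hν : 0 < ν) (hν1 : ν ≤ 1) (hp : 0 ≤ p) (h1 : p + ν ≤ u)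
    (h2 : u + p + ν ≤ 1) (h3 : u + b1 + p + ν ≤ 1) (h4 : s + p + ν ≤ 1) (h5 : u + 2 * b1 + ν ≤ 1)
    (hb : ν ≤ b1) (hus : u ≤ s) (hCS : 1 ≤ CS) (b0 G0 : ℕ) (hb0 : 1 ≤ b0)
    (hG0 : 8 / ν ≤ G0) (A1 : ℕ) : ∃ X0 : ℕ, ∀ X : ℕ, X0 ≤ X → ∀ J : ℕ, 1 ≤ J →
      (2 : ℝ) ^ J ≤ (Real.log X) ^ A1 → ∀ y h : ℕ, (X : ℝ) ^ ν ≤ y → (y : ℝ) ≤ (X : ℝ) ^ b1 →
      (X : ℝ) ^ (1 - ν / 64) ≤ h → h ≤ X → ∃ z W : ℕ,
        PY CS X h z y ⌊(X : ℝ) ^ u⌋₊ ((⌊(X : ℝ) ^ u⌋₊ + 1) * y) ⌊(X : ℝ) ^ s⌋₊ W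
          (G0 * 256 ^ J) (b0 * J) (J * (400 * (b0 + 3) / ν)) ((X : ℝ) ^ (-(ν / 8)))
          ((X : ℝ) ^ p) ((X : ℝ) ^ (ν / 64)) := by
  obtain ⟨κ, hκ⟩ : ∃ κ : ℝ, κ = ν / (400 * (b0 + 3)) := ⟨_, rfl⟩
  have hb0r : (1 : ℝ) ≤ b0 := by exact_mod_cast hb0
  have hκ0 : 0 < κ := by rw [hκ]; positivity
  have hκb : κ * (4 * b0 + 12) = ν / 100 := by
    rw [hκ]
    field_simp
    ring
  have hκ16 : 16 * κ ≤ ν / 64 := by nlinarith only [hκb, hb0r, hκ0, hν]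
  obtain ⟨X0, hX03, hX0⟩ := SPar_ev ν κ hν hκ0 b0 A1 G0
  refine ⟨X0, fun X hX J hJ hJA y h hy1 hy2 hh1 hh2 => ?_⟩
  obtain ⟨c1, c2, c3⟩ := hX0 X hX
  obtain ⟨x, hx⟩ : ∃ x : ℝ, x = (X : ℝ) := ⟨_, rfl⟩
  obtain ⟨L, hL⟩ : ∃ L : ℝ, L = Real.log X := ⟨_, rfl⟩
  obtain ⟨M, hM⟩ : ∃ M : ℝ, M = L ^ (b0 * A1) := ⟨_, rfl⟩
  obtain ⟨T, hT⟩ : ∃ T : ℝ, T = x ^ (ν / 64) := ⟨_, rfl⟩
  have hX3 : 3 ≤ X := hX03.trans hX
  have hx3 : (3 : ℝ) ≤ x := by rw [hx]; exact_mod_cast hX3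
  have hx1 : (1 : ℝ) ≤ x := by linarith
  have hx0 : (0 : ℝ) < x := by linarith
  rw [← hL] at c1 c2 c3 hJA
  rw [← hM] at c2
  rw [← hx] at c2 hy1 hy2 hh1
  rw [← hT] at c2
  have hLx : Real.log x = L := by rw [hx, hL]
  have hJr : (1 : ℝ) ≤ J := by exact_mod_cast hJ
  have hL0 : 0 < L := by linarith
  have hM1 : 1 ≤ M := by rw [hM]; exact one_le_pow₀ c1
  have hT1 : 2 ^ 20 ≤ T := by
    have : (1 : ℝ) ≤ M ^ 6 * L ^ 2 := one_le_mul_of_one_le_of_one_le (one_le_pow₀ hM1) (one_le_pow₀ c1)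
    linarith
  have hT0 : 0 < T := by linarith [show (0 : ℝ) < 2 ^ 20 by norm_num]
  -- powers of 2
  have hJM : ((2 : ℝ) ^ J) ^ b0 ≤ M := by
    rw [hM, mul_comm b0 A1, pow_mul]
    exact pow_le_pow_left₀ (by positivity) hJA _
  have hexp : Real.exp (((b0 * J : ℕ) : ℝ)) ≤ M ^ 2 := by
    have e1 : Real.exp (((b0 * J : ℕ) : ℝ)) = Real.exp 1 ^ (b0 * J) := by
      rw [← Real.exp_nat_mul, mul_one]
    have e2 : Real.exp 1 ≤ 4 := by
      have := Real.exp_one_lt_d9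
      linarith
    rw [e1]
    calc Real.exp 1 ^ (b0 * J) ≤ 4 ^ (b0 * J) := pow_le_pow_left₀ (Real.exp_nonneg _) e2 _
      _ = (((2 : ℝ) ^ J) ^ b0) ^ 2 := by
          rw [← pow_mul, ← pow_mul, show (4 : ℝ) = 2 ^ 2 by norm_num, ← pow_mul]
          congr 1
          ring
      _ ≤ M ^ 2 := pow_le_pow_left₀ (by positivity) hJM _
  have hexp' : 1 ≤ Real.exp (-((b0 * J : ℕ) : ℝ)) * M ^ 2 := by
    rw [Real.exp_neg]
    have := Real.exp_pos (((b0 * J : ℕ) : ℝ))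
    rw [inv_mul_eq_div, le_div_iff₀ this, one_mul]
    exact hexp
  -- z
  obtain ⟨Z, hZ⟩ : ∃ Z : ℝ, Z = x ^ (κ / J) := ⟨_, rfl⟩
  have hκJ : 0 < κ / J := by positivity
  have hZ1 : 1 < Z := by rw [hZ]; exact Real.one_lt_rpow (by linarith) hκJ
  obtain ⟨z, hz⟩ : ∃ z : ℕ, z = ⌈Z⌉₊ := ⟨_, rfl⟩
  have hzZ : Z ≤ z := by rw [hz]; exact Nat.le_ceil Z
  have hz2 : 2 ≤ z := by
    rw [hz]
    exact Nat.lt_ceil.2 (by exact_mod_cast hZ1)
  have hz0 : (0 : ℝ) < z := by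
    have : (2 : ℝ) ≤ z := by exact_mod_cast hz2
    linarith
  have hz2Z : (z : ℝ) ≤ 2 * Z := by
    have := Nat.ceil_lt_add_one (show 0 ≤ Z by linarith)
    rw [← hz] at this
    linarith
  have hZκ : Z ≤ x ^ κ := by
    rw [hZ]
    exact Real.rpow_le_rpow_of_exponent_le hx1 (div_le_self hκ0.le hJr)
  have hzκ : (z : ℝ) ≤ 2 * x ^ κ := by linarith
  have hzT : (z : ℝ) ^ (16 : ℕ) ≤ 2 ^ 16 * T := by
    calc (z : ℝ) ^ (16 : ℕ) ≤ (2 * x ^ κ) ^ 16 := pow_le_pow_left₀ hz0.le hzκ _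
      _ = 2 ^ 16 * x ^ (κ * (16 : ℕ)) := by
          rw [mul_pow, Real.rpow_mul hx0.le, Real.rpow_natCast]
      _ ≤ 2 ^ 16 * T := by
          rw [hT]
          refine mul_le_mul_of_nonneg_left ?_ (by norm_num)
          apply Real.rpow_le_rpow_of_exponent_le hx1
          push_cast
          linarith
  have hzb : (z : ℝ) ^ (4 * (b0 * J) + 12) ≤ 2 ^ 12 * M ^ 4 * T := by
    calc (z : ℝ) ^ (4 * (b0 * J) + 12) ≤ (2 * Z) ^ (4 * (b0 * J) + 12) :=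
          pow_le_pow_left₀ hz0.le hz2Z _
      _ = 2 ^ 12 * (((2 : ℝ) ^ J) ^ b0) ^ 4 * Z ^ (4 * (b0 * J) + 12) := by
          rw [mul_pow, ← pow_mul, ← pow_mul, ← pow_add]
          congr 2
          ring
      _ ≤ 2 ^ 12 * M ^ 4 * T := by
          apply mul_le_mul
          · exact mul_le_mul_of_nonneg_left (pow_le_pow_left₀ (by positivity) hJM _) (by norm_num)
          · rw [hZ, hT, ← Real.rpow_natCast, ← Real.rpow_mul hx0.le]
            apply Real.rpow_le_rpow_of_exponent_le hx1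
            have e1 : κ / J * ((4 * (b0 * J) + 12 : ℕ) : ℝ) = κ * (4 * b0) + κ * 12 / J := by
              push_cast
              field_simp
            have e2 : κ * 12 / J ≤ κ * 12 := div_le_self (by positivity) hJr
            rw [e1]
            linarith
          · positivity
          · positivity
  have hzX : z ≤ X := by
    have e1 : (z : ℝ) ≤ x := by
      refine hzκ.trans ?_
      have := SPar_abs (ν := ν) (c := 2) (a := κ) (b := 1) hx1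
        (by rw [← hT]; linarith only [hT1]) (by linarith only [hκ16, hκ0, hν, hν1])
      rwa [Real.rpow_one] at this
    rw [hx] at e1
    exact_mod_cast e1
  have hlz : Real.log z ≤ L := by
    rw [hL]
    exact Real.log_le_log hz0 (by exact_mod_cast hzX)
  have hlz0 : 0 < Real.log z := Real.log_pos (by
    have : (2 : ℝ) ≤ z := by exact_mod_cast hz2
    linarith)
  have hXz : L ≤ (J : ℝ) * (400 * (b0 + 3) / ν) * Real.log z := by
    have e1 : κ / J * L ≤ Real.log z := by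
      rw [← hLx, ← Real.log_rpow hx0, ← hZ]
      exact Real.log_le_log (by linarith) hzZ
    have e2 : (J : ℝ) * (400 * (b0 + 3) / ν) * (κ / J * L) = L := by
      rw [hκ]
      field_simp
    calc L = (J : ℝ) * (400 * (b0 + 3) / ν) * (κ / J * L) := e2.symm
      _ ≤ _ := by gcongr
  -- U
  obtain ⟨U, hU⟩ : ∃ U : ℕ, U = ⌊x ^ u⌋₊ := ⟨_, rfl⟩
  have hu0 : 0 < u := by linarith
  have hxu1 : 1 ≤ x ^ u := Real.one_le_rpow hx1 hu0.le
  have hU1 : 1 ≤ U := by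
    rw [hU]
    exact Nat.le_floor (by exact_mod_cast hxu1)
  have hUx : (U : ℝ) ≤ x ^ u := by rw [hU]; exact Nat.floor_le (by positivity)
  have hxU : x ^ u ≤ 2 * U := by
    have e1 := Nat.lt_floor_add_one (x ^ u)
    rw [← hU] at e1
    have e2 : (1 : ℝ) ≤ U := by exact_mod_cast hU1
    linarith
  have hy0 : (1 : ℝ) ≤ y := (Real.one_le_rpow hx1 hν.le).trans hy1
  have hyn : 1 ≤ y := by exact_mod_cast hy0
  have hxp0 : 0 < x ^ p := Real.rpow_pos_of_pos hx0 _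
  have hP1 : 1 ≤ x ^ p := Real.one_le_rpow hx1 hp
  have hh0 : (0 : ℝ) < h := lt_of_lt_of_le (Real.rpow_pos_of_pos hx0 _) hh1
  have hTx : ∀ a : ℝ, T * x ^ a = x ^ (ν / 64 + a) := fun a => by
    rw [hT, ← Real.rpow_add hx0]
  have hML : 1 ≤ M ^ 6 * L ^ 2 :=
    one_le_mul_of_one_le_of_one_le (one_le_pow₀ hM1) (one_le_pow₀ c1)
  have hLL : L ≤ L ^ 2 := by nlinarith only [c1]
  have hM6 : 1 ≤ M ^ 6 := one_le_pow₀ hM1
  have hL2 : 2 ^ 20 * L ^ 2 ≤ T := by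
    have f1 : L ^ 2 ≤ M ^ 6 * L ^ 2 := le_mul_of_one_le_left (sq_nonneg L) hM6
    linarith only [f1, c2]
  have hL1 : 2 ^ 20 * L ≤ T := by linarith only [hL2, hLL]
  have hTe : T ≤ x ^ (ν / 64) := hT.le
  have k2 : (2 : ℝ) ≤ x ^ (ν / 64) := by linarith only [hT1, hTe]
  have k8 : (8 : ℝ) ≤ x ^ (ν / 64) := by linarith only [hT1, hTe]
  have kL17 : 2 * (2 ^ 17 * L) ≤ x ^ (ν / 64) := by linarith only [hL1, hTe, hL0]
  have kL18 : 2 ^ 18 * L ≤ x ^ (ν / 64) := by linarith only [hL1, hTe, hL0]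
  have kL4 : 2 * (4 * L) ≤ x ^ (ν / 64) := by linarith only [hL1, hTe, hL0]
  have kL2 : 2 * (2 * L ^ 2) ≤ x ^ (ν / 64) := by linarith only [hL2, hTe, hLL, hL0]
  have kM13 : 2 ^ 13 * (M ^ 6 * L ^ 2) ≤ x ^ (ν / 64) := by linarith only [c2, hTe, hML]
  have kM12 : 2 ^ 12 * (M ^ 6 * L ^ 2) ≤ x ^ (ν / 64) := by linarith only [c2, hTe, hML]
  -- the window parameters
  have hPW : ∀ (V : ℕ) (a : ℝ), a + p + ν ≤ 1 → (V : ℝ) ≤ 2 * x ^ a → U ≤ V →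
      PW CS X h z U V (J * (400 * (b0 + 3) / ν)) (x ^ (-(ν / 8))) (x ^ p) T := by
    intro V a ha hVa hUV
    have hV0 : (0 : ℝ) < V := by
      have : (1 : ℝ) ≤ V := by exact_mod_cast hU1.trans hUV
      linarith
    have hVh : (V : ℝ) ≤ h := by
      refine hVa.trans (le_trans ?_ hh1)
      exact SPar_abs (ν := ν) hx1 k2 (by linarith only [ha, hp, hν])
    refine { z2 := hz2, zX := hzX, lX := by rw [← hL]; exact c1, CS1 := hCS, q1 := ?_,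
             Xz := by rw [← hL]; exact hXz, N1 := by linarith, P1 := hP1, U1 := hU1, UV := hUV,
             Vh := by exact_mod_cast hVh, hX := hh2, d0 := Real.rpow_pos_of_pos hx0 _,
             d1 := ?_, dU := ?_, aU := ?_, bV := ?_, er := ?_ }
    · have e1 : 1 ≤ 400 * ((b0 : ℝ) + 3) / ν := by
        rw [le_div_iff₀ hν]
        linarith
      exact one_le_mul_of_one_le_of_one_le hJr e1
    · exact Real.rpow_le_one_of_one_le_of_nonpos hx1 (by linarith only [hν])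
    · have e1 : x ^ (ν / 8) ≤ U := by
        have e2 := SPar_abs (ν := ν) (c := 2) (a := ν / 8) (b := u) hx1
          k2 (by linarith only [h1, hp, hν])
        linarith only [e2, hxU]
      have e3 : x ^ (-(ν / 8)) * x ^ (ν / 8) = 1 := by
        rw [← Real.rpow_add hx0]
        simp
      calc (1 : ℝ) = x ^ (-(ν / 8)) * x ^ (ν / 8) := e3.symm
        _ ≤ x ^ (-(ν / 8)) * U := mul_le_mul_of_nonneg_left e1 (Real.rpow_nonneg hx0.le _)
    · rw [le_div_iff₀ hlz0]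
      have hzn : (0 : ℝ) ≤ z := hz0.le
      have e1 : 2 * T * (z : ℝ) ^ (16 : ℕ) * x ^ p * Real.log z ≤
          2 * T * (2 ^ 16 * T) * x ^ p * L := by gcongr
      have e2 : 2 * T * (2 ^ 16 * T) * x ^ p * L =
          (2 ^ 17 * L) * x ^ (ν / 64 + (ν / 64 + p)) := by
        rw [← hTx, ← hTx]
        ring
      have e3 : (2 * (2 ^ 17 * L)) * x ^ (ν / 64 + (ν / 64 + p)) ≤ x ^ (-(ν / 8) + u) :=
        SPar_abs (ν := ν) hx1 kL17 (by linarith only [h1, hν])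
      have e4 : x ^ (-(ν / 8) + u) ≤ x ^ (-(ν / 8)) * (2 * U) := by
        rw [Real.rpow_add hx0]
        exact mul_le_mul_of_nonneg_left hxU (Real.rpow_nonneg hx0.le _)
      have e5 : x ^ (-(ν / 8)) * U ≤ CS * (x ^ (-(ν / 8)) * U) :=
        le_mul_of_one_le_left (mul_nonneg (Real.rpow_nonneg hx0.le _) (Nat.cast_nonneg _)) hCS
      linarith only [e1, e2, e3, e4, e5]
    · rw [le_div_iff₀ hlz0]
      have e0 : (h : ℝ) / V ≤ CS * (h / V) :=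
        le_mul_of_one_le_left (div_nonneg hh0.le hV0.le) hCS
      refine le_trans ?_ e0
      rw [le_div_iff₀ hV0]
      have e1 : 2 * T * (z : ℝ) ^ (16 : ℕ) * x ^ p * Real.log z * V ≤
          2 * T * (2 ^ 16 * T) * x ^ p * L * (2 * x ^ a) := by gcongr
      have e2 : 2 * T * (2 ^ 16 * T) * x ^ p * L * (2 * x ^ a) =
          (2 ^ 18 * L) * x ^ (ν / 64 + (ν / 64 + (p + a))) := by
        rw [← hTx, ← hTx, Real.rpow_add hx0]
        ring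
      have e3 : (2 ^ 18 * L) * x ^ (ν / 64 + (ν / 64 + (p + a))) ≤ x ^ (1 - ν / 64) :=
        SPar_abs (ν := ν) hx1 kL18 (by linarith only [ha, hν])
      linarith only [e1, e2, e3, hh1]
    · rw [← hL, ← hx]
      have e1 : 2 * T * (x ^ (-(ν / 8)) * x * L + V) * L ≤
          2 * T * (x ^ (-(ν / 8)) * x * L + 2 * x ^ a) * L := by gcongr
      have e2 : 2 * T * (x ^ (-(ν / 8)) * x * L + 2 * x ^ a) * L =
          (2 * L ^ 2) * x ^ (ν / 64 + (-(ν / 8) + 1)) + (4 * L) * x ^ (ν / 64 + a) := by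
        rw [← hTx, ← hTx, Real.rpow_add hx0, Real.rpow_one]
        ring
      have e3 : (2 * (2 * L ^ 2)) * x ^ (ν / 64 + (-(ν / 8) + 1)) ≤ x ^ (1 - ν / 64) :=
        SPar_abs (ν := ν) hx1 kL2 (by linarith only [hν])
      have e4 : (2 * (4 * L)) * x ^ (ν / 64 + a) ≤ x ^ (1 - ν / 64) :=
        SPar_abs (ν := ν) hx1 kL4 (by linarith only [ha, hp, hν])
      linarith only [e1, e2, e3, e4, hh1]
  -- G
  obtain ⟨G, hG⟩ : ∃ G : ℕ, G = G0 * 256 ^ J := ⟨_, rfl⟩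
  have hG08 : (8 : ℝ) ≤ G0 := by
    refine le_trans ?_ hG0
    rw [le_div_iff₀ hν]
    linarith
  have hG0G : (G0 : ℝ) ≤ G := by
    rw [hG]
    push_cast
    exact le_mul_of_one_le_right (by linarith) (one_le_pow₀ (by norm_num))
  have hGr : (0 : ℝ) < G := by linarith
  have hG1 : 1 ≤ G := by
    have : (1 : ℝ) ≤ G := by linarith
    exact_mod_cast this
  have hGi : 1 / (G : ℝ) ≤ ν / 8 := by
    rw [div_le_iff₀ hGr]
    have e1 : 8 / ν ≤ G := hG0.trans hG0G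
    rw [div_le_iff₀ hν] at e1
    linarith
  have hGi0 : 0 < 1 / (G : ℝ) := by positivity
  have hGz : (G : ℝ) ≤ (z : ℝ) ^ (1 / 4 : ℝ) := by
    have l0 : 0 ≤ Real.log L := Real.log_nonneg c1
    have lG0 : 0 ≤ Real.log G0 := Real.log_nonneg (by linarith)
    have hA0 : (0 : ℝ) ≤ A1 := Nat.cast_nonneg _
    have e1 : (J : ℝ) ≤ 2 * A1 * Real.log L := by
      have f1 : (J : ℝ) * Real.log 2 ≤ A1 * Real.log L := by
        have := Real.log_le_log (by positivity) hJA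
        rwa [Real.log_pow, Real.log_pow] at this
      have f2 := Real.log_two_gt_d9
      have f3 : (J : ℝ) * (1 / 2) ≤ J * Real.log 2 :=
        mul_le_mul_of_nonneg_left (by linarith only [f2]) (Nat.cast_nonneg _)
      linarith only [f1, f3]
    have e2 : Real.log G ≤ Real.log G0 + 8 * A1 * Real.log L := by
      have f1 : (G : ℝ) = G0 * ((2 : ℝ) ^ J) ^ 8 := by
        rw [hG]
        push_cast
        rw [← pow_mul, mul_comm J 8, pow_mul]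
        norm_num
      rw [f1, Real.log_mul (by linarith) (by positivity), Real.log_pow]
      have f2 := Real.log_le_log (by positivity) hJA
      rw [Real.log_pow (n := A1)] at f2
      push_cast
      linarith
    have e3 : Real.log G ≤ κ / J * L * (1 / 4) := by
      have f1 : (J : ℝ) * Real.log G ≤ (2 * A1 * Real.log L) *
          (Real.log G0 + 8 * A1 * Real.log L) :=
        mul_le_mul e1 e2 (Real.log_nonneg (by linarith)) (by positivity)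
      have f2 : (J : ℝ) * Real.log G ≤ κ * L * (1 / 4) := by linarith
      have f3 : κ / J * L * (1 / 4) = (κ * L * (1 / 4)) / J := by ring
      rw [f3, le_div_iff₀ (by linarith)]
      linarith
    have e4 : (G : ℝ) ≤ Z ^ (1 / 4 : ℝ) := by
      rw [← Real.log_le_log_iff hGr (Real.rpow_pos_of_pos (by linarith) _),
        Real.log_rpow (by linarith), hZ, Real.log_rpow hx0, hLx]
      linarith
    exact e4.trans (Real.rpow_le_rpow (by linarith) hzZ (by norm_num))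
  -- W
  obtain ⟨F, hF⟩ : ∃ F : ℝ, F = x ^ (1 / (G : ℝ)) := ⟨_, rfl⟩
  have hF1 : 1 ≤ F := by rw [hF]; exact Real.one_le_rpow hx1 hGi0.le
  have hFν : F ≤ x ^ (ν / 8) := by
    rw [hF]
    exact Real.rpow_le_rpow_of_exponent_le hx1 hGi
  obtain ⟨W, hW⟩ : ∃ W : ℕ, W = ⌈(y : ℝ) * F⌉₊ := ⟨_, rfl⟩
  have hyF : 1 ≤ (y : ℝ) * F := one_le_mul_of_one_le_of_one_le hy0 hF1
  have hWy : (y : ℝ) * F ≤ W := by rw [hW]; exact Nat.le_ceil _
  have hW2 : (W : ℝ) ≤ 2 * (y * F) := by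
    have := Nat.ceil_lt_add_one (show 0 ≤ (y : ℝ) * F by linarith)
    rw [← hW] at this
    linarith
  -- V
  obtain ⟨V, hV⟩ : ∃ V : ℕ, V = (U + 1) * y := ⟨_, rfl⟩
  have hVx : (V : ℝ) ≤ 2 * x ^ (u + b1) := by
    rw [hV]
    push_cast
    rw [Real.rpow_add hx0, ← mul_assoc]
    apply mul_le_mul _ hy2 (by linarith) (by positivity)
    linarith
  have hUV : U ≤ V := by
    rw [hV]
    calc U ≤ U + 1 := Nat.le_succ U
      _ ≤ (U + 1) * y := Nat.le_mul_of_pos_right _ hyn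
  have hV0 : (0 : ℝ) < V := by
    have : (1 : ℝ) ≤ V := by exact_mod_cast hU1.trans hUV
    linarith
  have hU0 : (0 : ℝ) < U := by
    have : (1 : ℝ) ≤ U := by exact_mod_cast hU1
    linarith
  have hU2 : U ≤ ⌊x ^ s⌋₊ := by
    rw [hU]
    exact Nat.floor_le_floor (Real.rpow_le_rpow_of_exponent_le hx1 hus)
  refine ⟨z, W, ?_⟩
  rw [← hx, ← hU, ← hV, ← hG, ← hT]
  refine { w1 := hPW V (u + b1) (by linarith) hVx hUV,
           w2 := hPW ⌊x ^ s⌋₊ s h4 ?_ hU2, zy := ?_, yX := ?_, Vy := ?_, G1 := hG1, Gz := hGz,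
           yW := ?_, WG := ?_, bU := ?_, eI := ?_ }
  · have e1 : ((⌊x ^ s⌋₊ : ℕ) : ℝ) ≤ x ^ s := Nat.floor_le (Real.rpow_nonneg hx0.le _)
    have e2 : 0 ≤ x ^ s := Real.rpow_nonneg hx0.le _
    linarith
  · have e1 : (z : ℝ) ≤ y := by
      refine (hzκ.trans ?_).trans hy1
      exact SPar_abs (ν := ν) hx1 k2 (by linarith only [hκ16, hκ0, hν])
    exact_mod_cast e1
  · have e1 : (y : ℝ) ≤ X := by
      refine hy2.trans ?_
      rw [← hx]
      calc x ^ b1 ≤ x ^ (1 : ℝ) := Real.rpow_le_rpow_of_exponent_le hx1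
            (by linarith only [h3, hp, hν, hu0])
        _ = x := Real.rpow_one x
    exact_mod_cast e1
  · rw [hV]
  · rw [← hx, ← hF]
    exact hWy
  · rw [← hx, ← hF, le_div_iff₀ hV0]
    have e1 : (W : ℝ) * F * z * V ≤
        (2 * (x ^ b1 * x ^ (ν / 8))) * x ^ (ν / 8) * (2 * x ^ κ) * (2 * x ^ (u + b1)) := by
      have f1 : (W : ℝ) ≤ 2 * (x ^ b1 * x ^ (ν / 8)) := by
        refine hW2.trans ?_
        have : (y : ℝ) * F ≤ x ^ b1 * x ^ (ν / 8) :=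
          mul_le_mul hy2 hFν (by linarith) (Real.rpow_nonneg hx0.le _)
        linarith
      have f0 : (0 : ℝ) ≤ W := Nat.cast_nonneg _
      have f2 : (0 : ℝ) < x ^ b1 := Real.rpow_pos_of_pos hx0 _
      have f3 : (0 : ℝ) < x ^ (ν / 8) := Real.rpow_pos_of_pos hx0 _
      have f4 : (0 : ℝ) < x ^ κ := Real.rpow_pos_of_pos hx0 _
      have f5 : 0 ≤ F := by linarith
      gcongr
    have e2 : (2 * (x ^ b1 * x ^ (ν / 8))) * x ^ (ν / 8) * (2 * x ^ κ) * (2 * x ^ (u + b1)) =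
        8 * x ^ (b1 + ν / 8 + ν / 8 + κ + (u + b1)) := by
      rw [Real.rpow_add hx0 (b1 + ν / 8 + ν / 8 + κ), Real.rpow_add hx0 (b1 + ν / 8 + ν / 8),
        Real.rpow_add hx0 (b1 + ν / 8), Real.rpow_add hx0 b1]
      ring
    have e3 : 8 * x ^ (b1 + ν / 8 + ν / 8 + κ + (u + b1)) ≤ x ^ (1 - ν / 64) :=
      SPar_abs (ν := ν) hx1 k8 (by linarith only [h5, hκ16, hκ0, hν])
    linarith only [e1, e2, e3, hh1]
  · rw [le_div_iff₀ hlz0]
    have hE0 := Real.exp_pos (-((b0 * J : ℕ) : ℝ))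
    have e0 : Real.exp (-((b0 * J : ℕ) : ℝ)) * (h / U) ≤
        CS * Real.exp (-((b0 * J : ℕ) : ℝ)) * (h / U) := by
      rw [mul_assoc]
      exact le_mul_of_one_le_left (mul_nonneg hE0.le (div_nonneg hh0.le hU0.le)) hCS
    refine le_trans ?_ e0
    rw [← mul_div_assoc, le_div_iff₀ hU0]
    have e1 : 2 * T * (z : ℝ) ^ (4 * (b0 * J) + 12) * x ^ p * Real.log z * U ≤
        2 * T * (2 ^ 12 * M ^ 4 * T) * x ^ p * L * x ^ u := by
      have : 0 ≤ M := by linarith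
      gcongr
    have e2 : 2 * T * (2 ^ 12 * M ^ 4 * T) * x ^ p * L * x ^ u ≤
        Real.exp (-((b0 * J : ℕ) : ℝ)) * ((2 ^ 13 * (M ^ 6 * L ^ 2)) *
          x ^ (ν / 64 + (ν / 64 + (p + u)))) := by
      have f1 : 2 * T * (2 ^ 12 * M ^ 4 * T) * x ^ p * L * x ^ u =
          2 ^ 13 * M ^ 4 * L * x ^ (ν / 64 + (ν / 64 + (p + u))) := by
        rw [← hTx, ← hTx, Real.rpow_add hx0]
        ring
      have f2 : 0 < x ^ (ν / 64 + (ν / 64 + (p + u))) := Real.rpow_pos_of_pos hx0 _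
      have f3 : Real.exp (-((b0 * J : ℕ) : ℝ)) * ((2 ^ 13 * (M ^ 6 * L ^ 2)) *
          x ^ (ν / 64 + (ν / 64 + (p + u)))) =
          (Real.exp (-((b0 * J : ℕ) : ℝ)) * M ^ 2) * (2 ^ 13 * M ^ 4 * L ^ 2 *
            x ^ (ν / 64 + (ν / 64 + (p + u)))) := by ring
      rw [f1, f3]
      have f4 : 2 ^ 13 * M ^ 4 * L * x ^ (ν / 64 + (ν / 64 + (p + u))) ≤
          2 ^ 13 * M ^ 4 * L ^ 2 * x ^ (ν / 64 + (ν / 64 + (p + u))) := by
        have : 0 ≤ M := by linarith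
        gcongr
      refine f4.trans (le_mul_of_one_le_left ?_ hexp')
      positivity
    have e3 : (2 ^ 13 * (M ^ 6 * L ^ 2)) * x ^ (ν / 64 + (ν / 64 + (p + u))) ≤
        x ^ (1 - ν / 64) :=
      SPar_abs (ν := ν) hx1 kM13 (by linarith only [h2, hν])
    calc 2 * T * (z : ℝ) ^ (4 * (b0 * J) + 12) * x ^ p * Real.log z * U
        ≤ Real.exp (-((b0 * J : ℕ) : ℝ)) * ((2 ^ 13 * (M ^ 6 * L ^ 2)) *
          x ^ (ν / 64 + (ν / 64 + (p + u)))) := e1.trans e2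
      _ ≤ Real.exp (-((b0 * J : ℕ) : ℝ)) * h :=
          mul_le_mul_of_nonneg_left (e3.trans hh1) hE0.le
  · rw [← hL]
    have hE0 := Real.exp_pos (-((b0 * J : ℕ) : ℝ))
    have e1 : T * U * x ^ p * (z : ℝ) ^ (4 * (b0 * J) + 12) * L ≤
        T * x ^ u * x ^ p * (2 ^ 12 * M ^ 4 * T) * L := by
      have : 0 ≤ M := by linarith
      gcongr
    have e2 : T * x ^ u * x ^ p * (2 ^ 12 * M ^ 4 * T) * L ≤
        ((2 ^ 12 * (M ^ 6 * L ^ 2)) *
          x ^ (ν / 64 + (ν / 64 + (p + u)))) * Real.exp (-((b0 * J : ℕ) : ℝ)) := by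
      have f1 : T * x ^ u * x ^ p * (2 ^ 12 * M ^ 4 * T) * L =
          2 ^ 12 * M ^ 4 * L * x ^ (ν / 64 + (ν / 64 + (p + u))) := by
        rw [← hTx, ← hTx, Real.rpow_add hx0]
        ring
      have f2 : 0 < x ^ (ν / 64 + (ν / 64 + (p + u))) := Real.rpow_pos_of_pos hx0 _
      have f3 : ((2 ^ 12 * (M ^ 6 * L ^ 2)) *
          x ^ (ν / 64 + (ν / 64 + (p + u)))) * Real.exp (-((b0 * J : ℕ) : ℝ)) =
          (Real.exp (-((b0 * J : ℕ) : ℝ)) * M ^ 2) * (2 ^ 12 * M ^ 4 * L ^ 2 *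
            x ^ (ν / 64 + (ν / 64 + (p + u)))) := by ring
      rw [f1, f3]
      have f4 : 2 ^ 12 * M ^ 4 * L * x ^ (ν / 64 + (ν / 64 + (p + u))) ≤
          2 ^ 12 * M ^ 4 * L ^ 2 * x ^ (ν / 64 + (ν / 64 + (p + u))) := by
        have : 0 ≤ M := by linarith
        gcongr
      refine f4.trans (le_mul_of_one_le_left ?_ hexp')
      positivity
    have e3 : (2 ^ 12 * (M ^ 6 * L ^ 2)) * x ^ (ν / 64 + (ν / 64 + (p + u))) ≤
        x ^ (1 - ν / 64) :=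
      SPar_abs (ν := ν) hx1 kM12 (by linarith only [h2, hν])
    exact (e1.trans e2).trans (mul_le_mul_of_nonneg_right (e3.trans hh1) hE0.le)

end Pool.MP_dd84fd_nt.BY
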