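import Pool.Agent.Lib.MP_dd84fd_nt.BY.SLev
import Pool.Agent.Lib.MP_dd84fd_nt.BY.SPar
import Pool.Agent.Lib.MP_dd84fd_nt.BY.SCnt
import Pool.Agent.Lib.MP_dd84fd_nt.BY.SBrT

/-!
# BY/SFin (1 h): the abstract theorem (helper18)

`svIn`, `recIn`, `clsIn` give `CS`, `CR`, `CP`.  With `q = J κ'`, `κ' = 400 (b0 + 3) / ν`, `G = G0 256^J`, `b = b0 J`,
`K = 40 CS² CP CR² Gc²`: `E`: `K (J^5 κ'^5 / (G0 256^J) + J^4 κ'^4 e^(-2 b0 J)) ≤ 4^(-J)`: first `b0` so large that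
`K J^4 κ'^4 e^(-2 b0 J) ≤ 4^(-J)/2` for all `J ≥ 1` (`J^4 ≤ 24 e^J`, `4 ≤ e^(3/2)`: enough
`K 24 (400 (b0+3)/ν)^4 e^(-(2 b0 - 5/2)) ≤ 1/2`), then `G0 ≥ 8/ν` with `K J^5 κ'^5 / (G0 256^J) ≤ 4^(-J)/2`
(`J^5 ≤ 64^J`: `G0 ≥ 2 K κ'^5`).  `M`: `28 CS² J² κ'² Gc (3 + log (G0 256^J + 1)) ≤ C J³`.
Then `par` and `level` (`P = X^p`, `N = X^(ν/64)`, `c = ν/64`).
-/

set_option autoImplicit false

namespace Pool.MP_dd84fd_nt.BY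

open Finset
open Pool.MP_dd84fd_nt.HX (rg Rgh)
open Pool.MP_dd84fd_nt.BX (ChF nt Cells Bil)

private theorem sf_quarter (J : ℕ) : Real.exp (-(3 / 2 * (J : ℝ))) ≤ (1 / 4 : ℝ) ^ J := by
  have h1 : (1 / 4 : ℝ) ^ J = Real.exp (-((J : ℝ) * Real.log 4)) := by
    rw [Real.exp_neg, Real.exp_nat_mul, Real.exp_log (by norm_num), one_div, inv_pow]
  rw [h1]
  apply Real.exp_le_exp.2
  have h2 : Real.log 4 ≤ 3 / 2 := by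
    have h3 : (4 : ℝ) = 2 ^ 2 := by norm_num
    rw [h3, Real.log_pow]
    have := Real.log_two_lt_d9
    push_cast
    linarith
  have h4 : (0 : ℝ) ≤ J := Nat.cast_nonneg J
  nlinarith

private theorem sf_b0 (K ν : ℝ) (hK : 0 ≤ K) (hν : 0 < ν) : ∃ b0 : ℕ, 1 ≤ b0 ∧ ∀ J : ℕ, 1 ≤ J →
    K * (((J : ℝ) * (400 * ((b0 : ℝ) + 3) / ν)) ^ 4 * Real.exp (-((b0 * J : ℕ) : ℝ)) ^ 2) ≤
      (1 / 4 : ℝ) ^ J / 2 := by
  obtain ⟨c, hc⟩ : ∃ c, c = 48 * K * (400 / ν) ^ 4 := ⟨_, rfl⟩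
  have hc0 : 0 ≤ c := by
    rw [hc]
    positivity
  have ht := (Real.tendsto_pow_mul_exp_neg_atTop_nhds_zero 4).const_mul c
  rw [mul_zero] at ht
  have ht2 : Filter.Tendsto (fun n : ℕ => (n : ℝ) + 3) Filter.atTop Filter.atTop :=
    Filter.tendsto_atTop_add_const_right _ _ tendsto_natCast_atTop_atTop
  have ht3 := (ht.comp ht2).eventually (ge_mem_nhds (show (0 : ℝ) < 1 by norm_num))
  obtain ⟨n0, hn0⟩ := Filter.eventually_atTop.1 ht3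
  refine ⟨max n0 6, (by norm_num : 1 ≤ 6).trans (le_max_right _ _), fun J hJ => ?_⟩
  have h1 := hn0 (max n0 6) (le_max_left _ _)
  have h6 : 6 ≤ max n0 6 := le_max_right _ _
  obtain ⟨b, hb⟩ : ∃ b, b = max n0 6 := ⟨_, rfl⟩
  rw [← hb] at h1 h6 ⊢
  simp only [Function.comp_apply] at h1
  have hbr : (6 : ℝ) ≤ b := by exact_mod_cast h6
  have hJr : (1 : ℝ) ≤ J := by exact_mod_cast hJ
  have h2 : c * ((b : ℝ) + 3) ^ 4 ≤ Real.exp ((b : ℝ) + 3) := by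
    have h3 : 0 < Real.exp ((b : ℝ) + 3) := Real.exp_pos _
    have h4 : c * ((b : ℝ) + 3) ^ 4 = c * (((b : ℝ) + 3) ^ 4 * Real.exp (-((b : ℝ) + 3))) *
        Real.exp ((b : ℝ) + 3) := by
      rw [Real.exp_neg]
      field_simp
    rw [h4]
    calc c * (((b : ℝ) + 3) ^ 4 * Real.exp (-((b : ℝ) + 3))) * Real.exp ((b : ℝ) + 3)
        ≤ 1 * Real.exp ((b : ℝ) + 3) := mul_le_mul_of_nonneg_right h1 h3.le
      _ = _ := one_mul _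
  have h5 : (J : ℝ) ^ 4 ≤ 24 * Real.exp J := by
    have h := Real.pow_div_factorial_le_exp (J : ℝ) (Nat.cast_nonneg J) 4
    have h7 : ((Nat.factorial 4 : ℕ) : ℝ) = 24 := by norm_num [Nat.factorial]
    rw [h7, div_le_iff₀ (by norm_num)] at h
    linarith
  have h8 : Real.exp (-((b * J : ℕ) : ℝ)) ^ 2 = Real.exp (-(2 * b * J)) := by
    rw [← Real.exp_nat_mul]
    congr 1
    push_cast
    ring
  rw [h8]
  have h9 : K * (((J : ℝ) * (400 * ((b : ℝ) + 3) / ν)) ^ 4 * Real.exp (-(2 * b * J))) =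
      c * ((b : ℝ) + 3) ^ 4 * ((J : ℝ) ^ 4 / 48) * Real.exp (-(2 * b * J)) := by
    rw [hc]
    ring
  rw [h9]
  have h10 : c * ((b : ℝ) + 3) ^ 4 * ((J : ℝ) ^ 4 / 48) * Real.exp (-(2 * b * J)) ≤
      Real.exp ((b : ℝ) + 3) * (Real.exp J / 2) * Real.exp (-(2 * b * J)) := by
    refine mul_le_mul_of_nonneg_right ?_ (Real.exp_pos _).le
    refine mul_le_mul h2 ?_ (by positivity) (Real.exp_pos _).le
    linarith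
  refine h10.trans ?_
  have h11 : Real.exp ((b : ℝ) + 3) * (Real.exp J / 2) * Real.exp (-(2 * b * J)) =
      Real.exp ((b : ℝ) + 3 + J + -(2 * b * J)) / 2 := by
    rw [Real.exp_add ((b : ℝ) + 3 + J), Real.exp_add ((b : ℝ) + 3) (J : ℝ)]
    ring
  rw [h11]
  refine div_le_div_of_nonneg_right (le_trans (Real.exp_le_exp.2 ?_) (sf_quarter J)) (by norm_num)
  nlinarith

private theorem sf_G0 (K ν κ' : ℝ) (hK : 0 ≤ K) (hκ : 0 ≤ κ') : ∃ G0 : ℕ, 1 ≤ G0 ∧ 8 / ν ≤ G0 ∧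
    ∀ J : ℕ, 1 ≤ J →
    K * (((J : ℝ) * κ') ^ 5 / ((G0 * 256 ^ J : ℕ) : ℝ)) ≤ (1 / 4 : ℝ) ^ J / 2 := by
  obtain ⟨G1, hG1⟩ := exists_nat_ge (8 / ν)
  obtain ⟨G2, hG2⟩ := exists_nat_ge (2 * K * κ' ^ 5)
  refine ⟨G1 + G2 + 1, by omega, ?_, fun J hJ => ?_⟩
  · push_cast
    have : (0 : ℝ) ≤ G2 := Nat.cast_nonneg _
    linarith
  · have hG : 2 * K * κ' ^ 5 ≤ ((G1 + G2 + 1 : ℕ) : ℝ) := by
      push_cast
      have : (0 : ℝ) ≤ G1 := Nat.cast_nonneg _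
      linarith
    have hGp : (0 : ℝ) < ((G1 + G2 + 1 : ℕ) : ℝ) := by positivity
    obtain ⟨g, hg⟩ : ∃ g, g = G1 + G2 + 1 := ⟨_, rfl⟩
    rw [← hg] at hG hGp ⊢
    have hJ5 : (J : ℝ) ^ 5 ≤ 64 ^ J := by
      have h1 : (J : ℝ) ≤ 2 ^ J := by exact_mod_cast (Nat.lt_two_pow_self (n := J)).le
      calc (J : ℝ) ^ 5 ≤ (2 ^ J) ^ 5 := pow_le_pow_left₀ (Nat.cast_nonneg _) h1 5
        _ = 32 ^ J := by rw [← pow_mul, mul_comm, pow_mul]; norm_num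
        _ ≤ 64 ^ J := pow_le_pow_left₀ (by norm_num) (by norm_num) J
    push_cast
    have h256 : (256 : ℝ) ^ J = 64 ^ J * 4 ^ J := by rw [← mul_pow]; norm_num
    have h4 : (1 / 4 : ℝ) ^ J = 1 / 4 ^ J := by rw [one_div, inv_pow, one_div]
    rw [h256, h4]
    have h64 : (0 : ℝ) < 64 ^ J := by positivity
    have h44 : (0 : ℝ) < 4 ^ J := by positivity
    have e1 : K * (((J : ℝ) * κ') ^ 5 / ((g : ℝ) * (64 ^ J * 4 ^ J))) =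
        (2 * K * κ' ^ 5 / g) * ((J : ℝ) ^ 5 / 64 ^ J) * (1 / 4 ^ J / 2) := by
      field_simp
    rw [e1]
    have h5 : 2 * K * κ' ^ 5 / g ≤ 1 := (div_le_one hGp).2 hG
    have h6 : (J : ℝ) ^ 5 / 64 ^ J ≤ 1 := (div_le_one h64).2 hJ5
    have h7 : (2 * K * κ' ^ 5 / g) * ((J : ℝ) ^ 5 / 64 ^ J) ≤ 1 :=
      mul_le_one₀ h5 (by positivity) h6
    calc (2 * K * κ' ^ 5 / g) * ((J : ℝ) ^ 5 / 64 ^ J) * (1 / 4 ^ J / 2)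
        ≤ 1 * (1 / 4 ^ J / 2) := mul_le_mul_of_nonneg_right h7 (by positivity)
      _ = _ := one_mul _

theorem sla (p u b1 s ν : ℝ) (hν : 0 < ν) (hν1 : ν ≤ 1) (hp : 0 ≤ p) (h1 : p + ν ≤ u)
    (h2 : u + p + ν ≤ 1) (h3 : u + b1 + p + ν ≤ 1) (h4 : s + p + ν ≤ 1) (h5 : u + 2 * b1 + ν ≤ 1)
    (hb : ν ≤ b1) (hus : u ≤ s) (Gc : ℝ) (hGc : 1 ≤ Gc) : ∃ C : ℝ, 0 < C ∧ ∀ A1 : ℕ, ∃ X0 : ℕ,
      ∀ X : ℕ, X0 ≤ X → ∀ (y h : ℕ), (X : ℝ) ^ ν ≤ y → (y : ℝ) ≤ (X : ℝ) ^ b1 →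
      (X : ℝ) ^ (1 - ν / 64) ≤ h → h ≤ X → ∀ c : ℕ → ℝ, (∀ l, |c l| ≤ Gc) →
      (∀ l, c l ≠ 0 → Rgh y l) → (∀ l, c l ≠ 0 → (l : ℝ) ≤ (X : ℝ) ^ s) →
      ∀ (ι : Type) (Y : Finset ι) (f : ι → ℕ → ℂ), ChF Y f ((X : ℝ) ^ p) ((X : ℝ) ^ p) →
      (Y.card : ℝ) ≤ (X : ℝ) ^ (ν / 64) → ∀ T : ℕ, 1 ≤ T → ∀ α β : ℕ → ℕ, Cells X h T α β →
      ∀ J : ℕ, 1 ≤ J → (2 : ℝ) ^ J ≤ (Real.log X) ^ A1 → ∃ M E : ι → ℝ,
        (∀ i ∈ Y, 0 ≤ M i ∧ 0 ≤ E i ∧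
          nt T (fun t => ∑ n ∈ Ioc (α t) (β t),
            ((rg y n * ∑ l ∈ n.divisors, c l : ℝ) : ℂ) * f i n) ≤
            (M i + E i) * (Real.sqrt T * h / Real.log X)) ∧
        ∑ i ∈ Y, M i ≤ C * (J : ℝ) ^ 3 ∧ ∑ i ∈ Y, E i ^ 2 ≤ (1 / 4 : ℝ) ^ J := by
  obtain ⟨CS, hCS1, hCS⟩ := svIn
  obtain ⟨CR, hCR1, hCR⟩ := recIn
  obtain ⟨CP, hCP1, hCP⟩ := clsIn
  have hGc0 : 0 ≤ Gc := by linarith
  obtain ⟨K, hK⟩ : ∃ K, K = 40 * CS ^ 2 * CP * CR ^ 2 * Gc ^ 2 := ⟨_, rfl⟩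
  have hK0 : 0 ≤ K := by
    rw [hK]
    positivity
  obtain ⟨b0, hb0, hb0J⟩ := sf_b0 K ν hK0 hν
  obtain ⟨κ', hκ'⟩ : ∃ κ' : ℝ, κ' = 400 * ((b0 : ℝ) + 3) / ν := ⟨_, rfl⟩
  have hκ0 : 0 < κ' := by
    rw [hκ']
    positivity
  obtain ⟨G0, hG01, hG0, hG0J⟩ := sf_G0 K ν κ' hK0 hκ0.le
  have hG0r : (1 : ℝ) ≤ G0 := by exact_mod_cast hG01
  obtain ⟨D, hD⟩ : ∃ D : ℝ, D = 3 + Real.log (2 * G0) + Real.log 256 := ⟨_, rfl⟩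
  have hl1 : 0 ≤ Real.log (2 * (G0 : ℝ)) := Real.log_nonneg (by linarith)
  have hl2 : 0 ≤ Real.log (256 : ℝ) := Real.log_nonneg (by norm_num)
  have hD0 : 0 < D := by
    rw [hD]
    linarith
  refine ⟨28 * CS ^ 2 * κ' ^ 2 * Gc * D, by positivity, fun A1 => ?_⟩
  obtain ⟨X0, hX0⟩ := par p u b1 s ν CS hν hν1 hp h1 h2 h3 h4 h5 hb hus hCS1 b0 G0 hb0 hG0 A1
  refine ⟨X0, fun X hX y h hy1 hy2 hh1 hh2 c hcG hcr hcs ι Y f hF hY T hT α β hc J hJ hJX => ?_⟩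
  obtain ⟨z, W, hpy⟩ := hX0 X hX J hJ hJX y h hy1 hy2 hh1 hh2
  obtain ⟨M, E, hME, hM, hE⟩ := level hCS hCP hCP1 hCR hCR1 hpy hF hY T hT α β hc c Gc hcG hcr
    (fun l hl => Nat.le_floor (hcs l hl))
  refine ⟨M, E, hME, hM.trans ?_, hE.trans ?_⟩
  · rw [← hκ']
    have hJr : (1 : ℝ) ≤ J := by exact_mod_cast hJ
    have hlog : 3 + Real.log (((G0 * 256 ^ J : ℕ) : ℝ) + 1) ≤ J * D := by
      have e1 : Real.log (((G0 * 256 ^ J : ℕ) : ℝ) + 1) ≤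
          Real.log (2 * G0) + J * Real.log 256 := by
        rw [← Real.log_pow, ← Real.log_mul (by positivity) (by positivity)]
        apply Real.log_le_log (by positivity)
        push_cast
        have h256 : (1 : ℝ) ≤ 256 ^ J := one_le_pow₀ (by norm_num)
        nlinarith
      rw [hD]
      nlinarith
    calc 28 * CS ^ 2 * ((J : ℝ) * κ') ^ 2 * Gc * (3 + Real.log (((G0 * 256 ^ J : ℕ) : ℝ) + 1))
        ≤ 28 * CS ^ 2 * ((J : ℝ) * κ') ^ 2 * Gc * (J * D) :=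
          mul_le_mul_of_nonneg_left hlog (by positivity)
      _ = 28 * CS ^ 2 * κ' ^ 2 * Gc * D * (J : ℝ) ^ 3 := by ring
  · have a1 := hb0J J hJ
    have a2 := hG0J J hJ
    rw [← hκ'] at a1 ⊢
    rw [← hK, mul_add]
    linarith

end Pool.MP_dd84fd_nt.BY
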