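import Pool.Agent.Lib.MP_dd84fd_nt.BY.SCel
import Pool.Agent.Lib.MP_dd84fd_nt.BY.SFin
import Pool.Agent.Lib.MP_dd84fd_nt.BX.LsB
import Pool.Agent.Lib.MP_dd84fd_nt.DivBound

/-!
# BY/SSl: (T2) from the abstract theorem (helper18)

`sla` with `p = (1-th)/2 + 4/5 e`, `u = (1-th)/2 + 2 e`, `b1 = th - 299/100 e`, `s = (1+th)/2 - τ`,
`ν = e/10`, `Gc = 2^13`; `fam_chF`: Pólya–Vinogradov for the families; `h = ⌈X^(1-ν/64)⌉`; the cells are
cut at `X5 X`; `sNf_cells` replaces the exponential sum by the cells.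
-/

set_option autoImplicit false

namespace Pool.MP_dd84fd_nt.BY

open Finset Pool.MP_67663b_nt.Odd
open Pool.MP_dd84fd_nt.HX (rg Rgh rg_nonneg)
open Pool.MP_dd84fd_nt.IX (zI)
open Pool.MP_dd84fd_nt.BX (PC pv IsPC PFam ChF nt Cells pv_mul pv_norm_le pc_pv_one pc_pv_fam
  nt_congr nt_nonneg)

theorem ssl_log_pow (C : ℝ) (K : ℕ) {ε : ℝ} (hε : 0 < ε) : ∃ X0 : ℕ, ∀ X : ℕ, X0 ≤ X →
    C * (Real.log X) ^ K ≤ (X : ℝ) ^ ε := by
  have h1 := (isLittleO_log_rpow_rpow_atTop (K : ℝ) hε).bound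
    (show (0 : ℝ) < 1 / (|C| + 1) by positivity)
  have h2 := tendsto_natCast_atTop_atTop (R := ℝ) |>.eventually h1
  obtain ⟨X0, hX0⟩ := Filter.eventually_atTop.mp h2
  refine ⟨max X0 1, fun X hX => ?_⟩
  have h3 := hX0 X ((le_max_left _ _).trans hX)
  have hX1 : (1 : ℝ) ≤ X := by exact_mod_cast (le_max_right _ _).trans hX
  have hl : 0 ≤ Real.log X := Real.log_nonneg hX1
  rw [Real.norm_of_nonneg (by positivity), Real.norm_of_nonneg (by positivity),
    Real.rpow_natCast] at h3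
  have h4 : C * (Real.log X) ^ K ≤ (|C| + 1) * (Real.log X) ^ K := by
    refine mul_le_mul_of_nonneg_right ?_ (by positivity)
    linarith [le_abs_self C]
  have h5 : (|C| + 1) * (Real.log X) ^ K ≤ (|C| + 1) * (1 / (|C| + 1) * (X : ℝ) ^ ε) :=
    mul_le_mul_of_nonneg_left h3 (by positivity)
  refine h4.trans (h5.trans (le_of_eq ?_))
  have : |C| + 1 ≠ 0 := by positivity
  field_simp

/-- a large constant is below a power -/
theorem ssl_const (C : ℝ) {ε : ℝ} (hε : 0 < ε) : ∃ X0 : ℕ, ∀ X : ℕ, X0 ≤ X → C ≤ (X : ℝ) ^ ε := by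
  obtain ⟨X0, h⟩ := ssl_log_pow C 0 hε
  exact ⟨X0, fun X hX => by simpa using h X hX⟩

/-- the families of characters are abstract families -/
theorem fam_chF (a p : ℝ) (ha : 0 ≤ a) (ha1 : a ≤ 1) (hp : a / 2 < p) : ∃ X0 : ℕ, ∀ X : ℕ,
    X0 ≤ X → ∀ Y : Finset PC, PFam Y ((X : ℝ) ^ a) → (∀ ψ ∈ Y, 2 ≤ ψ.1) →
      ChF Y pv ((X : ℝ) ^ p) ((X : ℝ) ^ p) := by
  obtain ⟨d, hd⟩ : ∃ d : ℝ, d = (p - a / 2) / 2 := ⟨_, rfl⟩
  have hd0 : 0 < d := by rw [hd]; linarith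
  obtain ⟨k, hk⟩ := exists_nat_gt (2 / d)
  have hk0 : 0 < k := by
    rcases Nat.eq_zero_or_pos k with h | h
    · rw [h] at hk
      have : 0 < 2 / d := by positivity
      rw [Nat.cast_zero] at hk
      linarith
    · exact h
  obtain ⟨C, hC1, hC⟩ := Pool.Agent.Lib.MP_dd84fd_nt.DivBound.div_bound k
  obtain ⟨X1, hX1⟩ := ssl_log_pow 2 1 hd0
  refine ⟨max (max X1 C) 3, fun X hX Y hY h2 => ?_⟩
  have hXX1 : X1 ≤ X := le_trans (le_trans (le_max_left _ _) (le_max_left _ _)) hX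
  have hXC : C ≤ X := le_trans (le_trans (le_max_right _ _) (le_max_left _ _)) hX
  have hX3 : 3 ≤ X := le_trans (le_max_right _ _) hX
  have hXr : (1 : ℝ) ≤ X := by exact_mod_cast (by omega : 1 ≤ X)
  have hX0 : (0 : ℝ) < X := by linarith
  have hlog1 : 1 ≤ Real.log X := by
    rw [Real.le_log_iff_exp_le hX0]
    have h3 : (3 : ℝ) ≤ X := by exact_mod_cast hX3
    linarith [Real.exp_one_lt_d9]
  set N : ℝ := (X : ℝ) ^ a with hN
  have hNX : N ≤ X := by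
    rw [hN]
    calc (X : ℝ) ^ a ≤ (X : ℝ) ^ (1 : ℝ) := Real.rpow_le_rpow_of_exponent_le hXr ha1
      _ = X := Real.rpow_one _
  have hN1 : 1 ≤ N := Real.one_le_rpow hXr ha
  have hDv : ∀ m : ℕ, 1 ≤ m → (m : ℝ) ≤ N → (m.divisors.card : ℝ) ≤ (X : ℝ) ^ d := by
    intro m hm hmN
    have h3 := hC m (by omega)
    have h4 : ((m.divisors.card : ℝ)) ^ k ≤ C * m := by exact_mod_cast h3
    have h5 : (C : ℝ) * m ≤ X ^ (2 : ℕ) := by
      rw [pow_two]
      exact mul_le_mul (by exact_mod_cast hXC) (hmN.trans hNX) (Nat.cast_nonneg _) hX0.le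
    have h6 : (X : ℝ) ^ (2 : ℕ) ≤ ((X : ℝ) ^ d) ^ k := by
      rw [← Real.rpow_natCast ((X : ℝ) ^ d) k, ← Real.rpow_mul hX0.le,
        ← Real.rpow_natCast (X : ℝ) 2]
      refine Real.rpow_le_rpow_of_exponent_le hXr ?_
      rw [div_lt_iff₀ hd0] at hk
      push_cast
      linarith
    exact le_of_pow_le_pow_left₀ (by omega) (by positivity) (h4.trans (h5.trans h6))
  have hlogN : 1 + Real.log N ≤ (X : ℝ) ^ d := by
    have h3 := hX1 X hXX1
    rw [pow_one] at h3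
    have h4 : Real.log N ≤ Real.log X := Real.log_le_log (by linarith) hNX
    linarith
  have hlogN0 : 0 ≤ Real.log N := Real.log_nonneg hN1
  have hsqrt : Real.sqrt N = (X : ℝ) ^ (a / 2) := by
    rw [hN, Real.sqrt_eq_rpow, ← Real.rpow_mul hX0.le]
    congr 1
    ring
  have hfin : (X : ℝ) ^ d * Real.sqrt N * (1 + Real.log N) ≤ (X : ℝ) ^ p := by
    rw [hsqrt]
    calc (X : ℝ) ^ d * (X : ℝ) ^ (a / 2) * (1 + Real.log N)
        ≤ (X : ℝ) ^ d * (X : ℝ) ^ (a / 2) * (X : ℝ) ^ d :=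
          mul_le_mul_of_nonneg_left hlogN (by positivity)
      _ = (X : ℝ) ^ p := by
          rw [← Real.rpow_add hX0, ← Real.rpow_add hX0]
          congr 1
          rw [hd]
          ring
  refine ⟨fun ψ _ m n => pv_mul ψ m n, fun ψ _ n => pv_norm_le ψ n, ?_, ?_⟩
  · intro ψ hψ a' b'
    have h3 := pc_pv_one ψ (hY.1 ψ hψ) (h2 ψ hψ) 1 a' b'
    simp only [one_mul] at h3
    refine h3.trans (le_trans ?_ hfin)
    have h4 : (ψ.1 : ℝ) ≤ N := by
      have := hY.2 ψ hψ ψ hψ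
      rwa [Nat.lcm_self] at this
    have h5 : 1 ≤ ψ.1 := (hY.1 ψ hψ).1
    have h6 : (1 : ℝ) ≤ ψ.1 := by exact_mod_cast h5
    have h7 : Real.log ψ.1 ≤ Real.log N := Real.log_le_log (by linarith) h4
    have h8 : 0 ≤ Real.log ψ.1 := Real.log_nonneg h6
    exact mul_le_mul (mul_le_mul (hDv _ h5 h4) (Real.sqrt_le_sqrt h4) (Real.sqrt_nonneg _)
      (by positivity)) (by linarith) (by linarith) (by positivity)
  · intro ψ hψ ψ' hψ' hne a' b'
    have h3 := pc_pv_fam hY hDv hψ hψ' hne 1 a' b'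
    simp only [one_mul] at h3
    exact h3.trans hfin

/-- `y`-rough numbers `n ≤ X`, `y ≥ X^(1/9)`, have at most `2^9` divisors -/
theorem div_rough {X y n : ℕ} (hX : 2 ≤ X) (hy : (X : ℝ) ^ (1 / 9 : ℝ) ≤ y) (hn : n ≤ X)
    (hr : Rgh y n) : n.divisors.card ≤ 2 ^ 9 := by
  have hn0 : n ≠ 0 := hr.1
  have hX1 : (1 : ℝ) < (X : ℝ) := by exact_mod_cast hX
  have hX0 : (0 : ℝ) ≤ (X : ℝ) := by linarith
  have hroot : (1 : ℝ) < (X : ℝ) ^ (1 / 9 : ℝ) := Real.one_lt_rpow hX1 (by norm_num)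
  have hz2 : 2 ≤ y := by
    have : (1 : ℝ) < y := hroot.trans_le hy
    have : 1 < y := by exact_mod_cast this
    omega
  have hzX : X ≤ y ^ 9 := by
    have h1 : (X : ℝ) ≤ ((y : ℕ) : ℝ) ^ 9 := by
      calc (X : ℝ) = ((X : ℝ) ^ (1 / 9 : ℝ)) ^ (9 : ℕ) := by
            rw [← Real.rpow_natCast, ← Real.rpow_mul hX0]
            norm_num
        _ ≤ ((y : ℕ) : ℝ) ^ 9 := pow_le_pow_left₀ (by linarith) hy 9
    exact_mod_cast h1
  have h3 : y ^ ArithmeticFunction.cardFactors n ≤ n := by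
    rw [ArithmeticFunction.cardFactors_apply]
    calc y ^ n.primeFactorsList.length ≤ n.primeFactorsList.prod := by
          refine List.pow_card_le_prod _ _ fun p hp => ?_
          exact hr.2 p (by rwa [Nat.mem_primeFactors_iff_mem_primeFactorsList])
      _ = n := Nat.prod_primeFactorsList hn0
  have h4 : ArithmeticFunction.cardFactors n ≤ 9 := by
    have : y ^ ArithmeticFunction.cardFactors n ≤ y ^ 9 := h3.trans (hn.trans hzX)
    exact (Nat.pow_le_pow_iff_right (by omega)).1 this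
  exact (Pool.MP_dd84fd_nt.HX.card_divisors_le_two_pow n hn0).trans
    (Nat.pow_le_pow_right (by norm_num) h4)

/-- bounds for the exact forms -/
theorem ae_bd (th e τ : ℝ) (hA : AdmY th e τ) : ∃ X0 : ℕ, ∀ X : ℕ, X0 ≤ X → ∀ (y : ℕ)
    (c : ℕ → ℝ), ExF th e τ X y c → ∀ n, |AE X y c n| ≤ 2 ^ 22 * rg (zI X) n := by
  obtain ⟨a1, a2, a3, a4, a5, a6, a7⟩ := hA
  obtain ⟨X1, hX1⟩ := ssl_const 2 (show (0 : ℝ) < 1 / 90 by norm_num)
  refine ⟨max X1 2, fun X hX y c hE n => ?_⟩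
  have hXX1 : X1 ≤ X := (le_max_left _ _).trans hX
  have hX2 : 2 ≤ X := (le_max_right _ _).trans hX
  have hXr : (1 : ℝ) ≤ X := by exact_mod_cast (by omega : 1 ≤ X)
  have hX0 : (0 : ℝ) < X := by linarith
  have hy9 : (X : ℝ) ^ (1 / 9 : ℝ) ≤ y :=
    (Real.rpow_le_rpow_of_exponent_le hXr (by linarith)).trans hE.ylo
  have hzy : zI X ≤ y := by
    have h1 : ((zI X : ℕ) : ℝ) ≤ (X : ℝ) ^ (1 / 10 : ℝ) + 1 := by
      unfold zI
      exact (Nat.ceil_lt_add_one (by positivity)).le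
    have h2 : (1 : ℝ) ≤ (X : ℝ) ^ (1 / 10 : ℝ) := Real.one_le_rpow hXr (by norm_num)
    have h3 : (X : ℝ) ^ (1 / 9 : ℝ) = (X : ℝ) ^ (1 / 10 : ℝ) * (X : ℝ) ^ (1 / 90 : ℝ) := by
      rw [← Real.rpow_add hX0]
      norm_num
    have h4 := hX1 X hXX1
    have h5 : ((zI X : ℕ) : ℝ) ≤ y := by
      refine h1.trans (le_trans ?_ hy9)
      rw [h3]
      nlinarith
    exact_mod_cast h5
  have hrz : rg y n ≤ rg (zI X) n := by
    unfold rg
    by_cases h1 : Rgh y n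
    · have h2 : Rgh (zI X) n := ⟨h1.1, fun p hp' => hzy.trans (h1.2 p hp')⟩
      rw [if_pos h1, if_pos h2]
    · rw [if_neg h1]
      split_ifs
      · exact zero_le_one
      · exact le_rfl
  have hrn := (rg_nonneg (zI X) n).1
  unfold AE
  split_ifs with hc
  · rw [abs_mul, abs_of_nonneg (rg_nonneg y n).1]
    by_cases hr : Rgh y n
    · have h1 : rg y n = 1 := by unfold rg; rw [if_pos hr]
      have h2 : |∑ l ∈ n.divisors, c l| ≤ 2 ^ 22 := by
        refine (abs_sum_le_sum_abs _ _).trans ?_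
        refine (sum_le_sum fun l _ => hE.cbd l).trans ?_
        rw [sum_const, nsmul_eq_mul]
        have h3 := div_rough hX2 hy9 hc.2 hr
        have h4 : (n.divisors.card : ℝ) ≤ 2 ^ 9 := by exact_mod_cast h3
        calc (n.divisors.card : ℝ) * 2 ^ 13 ≤ 2 ^ 9 * 2 ^ 13 :=
              mul_le_mul_of_nonneg_right h4 (by norm_num)
          _ = 2 ^ 22 := by norm_num
      rw [h1] at hrz ⊢
      rw [one_mul]
      calc |∑ l ∈ n.divisors, c l| ≤ 2 ^ 22 := h2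
        _ = 2 ^ 22 * 1 := by ring
        _ ≤ 2 ^ 22 * rg (zI X) n := mul_le_mul_of_nonneg_left hrz (by norm_num)
    · have h1 : rg y n = 0 := by unfold rg; rw [if_neg hr]
      rw [h1, zero_mul]
      positivity
  · rw [abs_zero]
    positivity

theorem slA : SlA := by
  intro th e τ hA
  have hA' := hA
  obtain ⟨a1, a2, a3, a4, a5, a6, a7⟩ := hA
  obtain ⟨ν, hν⟩ : ∃ ν : ℝ, ν = e / 10 := ⟨_, rfl⟩
  have hν0 : 0 < ν := by rw [hν]; positivity
  obtain ⟨p, hp⟩ : ∃ p : ℝ, p = (1 - th) / 2 + 4 / 5 * e := ⟨_, rfl⟩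
  obtain ⟨s, hs⟩ : ∃ s : ℝ, s = (1 + th) / 2 - τ := ⟨_, rfl⟩
  obtain ⟨C, hC, hsl⟩ := sla p ((1 - th) / 2 + 2 * e) (th - 299 / 100 * e) s ν hν0
    (by rw [hν]; linarith) (by rw [hp]; linarith) (by rw [hp, hν]; linarith)
    (by rw [hp, hν]; linarith) (by rw [hp, hν]; linarith) (by rw [hp, hν, hs]; linarith)
    (by rw [hν]; linarith) (by rw [hν]; linarith) (by rw [hs]; linarith) (2 ^ 13) (by norm_num)
  refine ⟨128 * C, ν / 128, 3, by positivity, by positivity, fun A1 B => ?_⟩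
  obtain ⟨X1, hX1⟩ := hsl (A1 + 1)
  obtain ⟨X2, hX2⟩ := fam_chF (1 - th + 3 / 2 * e) p (by linarith) (by linarith)
    (by rw [hp]; linarith)
  obtain ⟨X3, hX3⟩ := ae_bd th e τ hA'
  obtain ⟨X4, hX4⟩ := ssl_log_pow (2 ^ 30) (2 * B + 1) (show (0 : ℝ) < ν / 128 by positivity)
  obtain ⟨X5', hX5⟩ := ssl_log_pow 4 (2 * A1) (show (0 : ℝ) < ν / 128 by positivity)
  obtain ⟨X6, hX6⟩ := ssl_log_pow 4 B (show (0 : ℝ) < ν / 64 by positivity)
  obtain ⟨X7, hX7⟩ : ∃ X7 : ℕ, ∀ X : ℕ, X7 ≤ X → (8 : ℝ) ≤ Real.log X := by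
    have h : Filter.Tendsto (fun n : ℕ => Real.log (n : ℝ)) Filter.atTop Filter.atTop :=
      Real.tendsto_log_atTop.comp tendsto_natCast_atTop_atTop
    exact Filter.eventually_atTop.1 (h.eventually_ge_atTop 8)
  refine ⟨max (max (max X1 X2) (max X3 X4)) (max (max X5' X6) (max X7 3)), fun X hX T hT hTB y cc hE
    Y hY h2 hcard J hJ hJ2 => ?_⟩
  simp only [max_le_iff] at hX
  obtain ⟨⟨⟨x1, x2⟩, x3, x4⟩, ⟨x5, x6⟩, x7, x8⟩ := hX
  have hXr : (1 : ℝ) ≤ X := by exact_mod_cast (by omega : 1 ≤ X)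
  have hX0 : (0 : ℝ) < X := by linarith
  have hL8 : (8 : ℝ) ≤ Real.log X := hX7 X x7
  have hL0 : 0 < Real.log (X : ℝ) := by linarith
  have e4 := hX4 X x4
  have e5 := hX5 X x5
  have e6 := hX6 X x6
  -- the length of the cells
  set h : ℕ := ⌈(X : ℝ) ^ (1 - ν / 64)⌉₊ with hh
  have hpow1 : (1 : ℝ) ≤ (X : ℝ) ^ (1 - ν / 64) := Real.one_le_rpow hXr (by rw [hν]; linarith)
  have hle : (X : ℝ) ^ (1 - ν / 64) ≤ h := Nat.le_ceil _
  have hle2 : (h : ℝ) ≤ 2 * (X : ℝ) ^ (1 - ν / 64) := by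
    have := Nat.ceil_lt_add_one (by linarith : (0 : ℝ) ≤ (X : ℝ) ^ (1 - ν / 64))
    linarith
  have hh1 : 1 ≤ h := by
    have : (1 : ℝ) ≤ h := hpow1.trans hle
    exact_mod_cast this
  have hmul : (X : ℝ) ^ (1 - ν / 64) * (X : ℝ) ^ (ν / 64) = X := by
    rw [← Real.rpow_add hX0]
    simp
  have hhT : 2 * (h : ℝ) * T ≤ X := by
    calc 2 * (h : ℝ) * T ≤ 2 * (2 * (X : ℝ) ^ (1 - ν / 64)) * (Real.log X) ^ B :=
          mul_le_mul (by linarith) hTB (by linarith) (by positivity)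
      _ = (X : ℝ) ^ (1 - ν / 64) * (4 * (Real.log X) ^ B) := by ring
      _ ≤ (X : ℝ) ^ (1 - ν / 64) * (X : ℝ) ^ (ν / 64) :=
          mul_le_mul_of_nonneg_left e6 (by positivity)
      _ = X := hmul
  have hhX : h ≤ X := by
    have h3 : (h : ℝ) ≤ 2 * h * T := by
      have : (0 : ℝ) ≤ h := Nat.cast_nonneg _
      nlinarith
    exact_mod_cast h3.trans hhT
  have hTn : 1 ≤ X / h := (Nat.one_le_div_iff (by omega)).2 hhX
  -- the cells, cut at `X5`
  set β : ℕ → ℕ := fun t => min ((t + 1) * h) X with hβ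
  set α : ℕ → ℕ := fun t => min (max (t * h) ⌊IY.X5 X⌋₊) (β t) with hα
  have hth : ∀ t ∈ Icc 1 (X / h), 1 ≤ t ∧ t * h ≤ X := by
    intro t ht
    rw [mem_Icc] at ht
    exact ⟨ht.1, (Nat.mul_le_mul_right h ht.2).trans (Nat.div_mul_le_self X h)⟩
  have hcells : Cells X h (X / h) α β := by
    intro t ht
    obtain ⟨t1, t2⟩ := hth t ht
    have t3 : h ≤ t * h := Nat.le_mul_of_pos_left h t1
    have t4 : (t + 1) * h = t * h + h := by ring
    have t5 : t * h ≤ β t := by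
      rw [hβ]
      simp only
      exact le_min (by omega) t2
    refine ⟨?_, min_le_right _ _, ?_, min_le_right _ _⟩
    · rw [hα]
      simp only
      exact le_min (t3.trans (le_max_left _ _)) (t3.trans t5)
    · have t6 : t * h ≤ α t := by
        rw [hα]
        simp only
        exact le_min (le_max_left _ _) t5
      have t7 : β t ≤ (t + 1) * h := by
        rw [hβ]
        simp only
        exact min_le_left _ _
      omega
  have hAE : ∀ (ψ : PC), ∀ t ∈ Icc 1 (X / h),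
      ∑ n ∈ Ioc (t * h) (min ((t + 1) * h) X), ((AE X y cc n : ℝ) : ℂ) * pv ψ n =
      ∑ n ∈ Ioc (α t) (β t), ((rg y n * ∑ l ∈ n.divisors, cc l : ℝ) : ℂ) * pv ψ n := by
    intro ψ t ht
    obtain ⟨t1, t2⟩ := hth t ht
    have t5 : t * h ≤ β t := by
      rw [hβ]
      simp only
      exact le_min (Nat.mul_le_mul_right h (Nat.le_succ t)) t2
    have t6 : t * h ≤ α t := by
      rw [hα]
      simp only
      exact le_min (le_max_left _ _) t5
    have hsub : Ioc (α t) (β t) ⊆ Ioc (t * h) (min ((t + 1) * h) X) := by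
      intro n hn
      rw [mem_Ioc] at hn ⊢
      exact ⟨lt_of_le_of_lt t6 hn.1, hn.2⟩
    have hX5 : 0 ≤ IY.X5 X := by
      unfold IY.X5
      exact div_nonneg hX0.le (pow_nonneg hL0.le 5)
    rw [← sum_subset hsub (fun n hn hn' => by
      rw [mem_Ioc] at hn hn'
      have h3 : ¬ α t < n := fun h4 => hn' ⟨h4, hn.2⟩
      have h5 : ¬ (IY.X5 X < (n : ℝ) ∧ n ≤ X) := by
        rintro ⟨h6, -⟩
        apply h3
        have h7 : ⌊IY.X5 X⌋₊ < n := (Nat.floor_lt hX5).2 h6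
        have h8 : max (t * h) ⌊IY.X5 X⌋₊ < n := max_lt hn.1 h7
        exact lt_of_le_of_lt (min_le_left _ _) h8
      unfold AE
      rw [if_neg h5]
      simp)]
    refine sum_congr rfl fun n hn => ?_
    rw [mem_Ioc] at hn
    have h3 : IY.X5 X < (n : ℝ) ∧ n ≤ X := by
      have h4 : n ≤ X := hn.2.trans (min_le_right _ _)
      refine ⟨?_, h4⟩
      have h5 : ⌊IY.X5 X⌋₊ < n := by
        have h6 : α t < n := hn.1
        rw [hα] at h6
        simp only at h6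
        rw [min_lt_iff] at h6
        rcases h6 with h6 | h6
        · exact lt_of_le_of_lt (le_max_right _ _) h6
        · exact absurd hn.2 (not_le.2 h6)
      exact (Nat.floor_lt hX5).1 h5
    unfold AE
    rw [if_pos h3]
  -- the abstract theorem
  have hJ3 : (2 : ℝ) ^ (J + 3) ≤ (Real.log X) ^ (A1 + 1) := by
    have h3 : (2 : ℝ) ^ 3 ≤ Real.log X := by norm_num; linarith
    calc (2 : ℝ) ^ (J + 3) = 2 ^ J * 2 ^ 3 := pow_add _ _ _
      _ ≤ (Real.log X) ^ A1 * Real.log X :=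
          mul_le_mul hJ2 h3 (by positivity) (pow_nonneg hL0.le A1)
      _ = (Real.log X) ^ (A1 + 1) := (pow_succ _ _).symm
  have hyν : (X : ℝ) ^ ν ≤ y :=
    (Real.rpow_le_rpow_of_exponent_le hXr (by rw [hν]; linarith)).trans hE.ylo
  obtain ⟨M', E', k1, k2, k3⟩ := hX1 X x1 y h hyν hE.yhi hle hhX cc
    (fun l => hE.cbd l) hE.crg (fun l hl => by rw [hs]; exact hE.csu l hl) PC Y pv
    (hX2 X x2 Y hY h2)
    (hcard.trans (Real.rpow_le_rpow_of_exponent_le hXr (by linarith))) (X / h) hTn α β hcells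
    (J + 3) (by omega) hJ3
  -- the error of the cells
  obtain ⟨er, her⟩ : ∃ er : ℝ, er = 64 * (2 ^ 22 : ℝ) * Real.log X * T ^ 2 * (h / X) := ⟨_, rfl⟩
  have her0 : 0 ≤ er := by rw [her]; positivity
  have her1 : er ≤ (X : ℝ) ^ (-(ν / 128)) := by
    have h5 : T ^ 2 ≤ (Real.log X) ^ (2 * B) := by
      rw [pow_mul']
      exact pow_le_pow_left₀ (by linarith) hTB 2
    have h6 : (h : ℝ) / X ≤ 2 * (X : ℝ) ^ (-(ν / 64)) := by
      rw [div_le_iff₀ hX0, mul_assoc]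
      refine hle2.trans (le_of_eq ?_)
      congr 1
      nth_rewrite 3 [← Real.rpow_one (X : ℝ)]
      rw [← Real.rpow_add hX0]
      congr 1
      ring
    have h7 : (X : ℝ) ^ (-(ν / 64)) = (X : ℝ) ^ (-(ν / 128)) * (X : ℝ) ^ (-(ν / 128)) := by
      rw [← Real.rpow_add hX0]
      congr 1
      ring
    have h8 : (X : ℝ) ^ (-(ν / 128)) * (X : ℝ) ^ (ν / 128) = 1 := by
      rw [← Real.rpow_add hX0]
      simp
    calc er ≤ 64 * (2 ^ 22 : ℝ) * Real.log X * (Real.log X) ^ (2 * B) *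
          (2 * (X : ℝ) ^ (-(ν / 64))) := by
          rw [her]
          exact mul_le_mul (mul_le_mul_of_nonneg_left h5 (by positivity)) h6 (by positivity)
            (by positivity)
      _ = (X : ℝ) ^ (-(ν / 128)) * ((X : ℝ) ^ (-(ν / 128)) *
          (2 ^ 29 * (Real.log X) ^ (2 * B + 1))) := by
          rw [h7, pow_succ]
          ring
      _ ≤ (X : ℝ) ^ (-(ν / 128)) * ((X : ℝ) ^ (-(ν / 128)) * (X : ℝ) ^ (ν / 128)) := by
          refine mul_le_mul_of_nonneg_left (mul_le_mul_of_nonneg_left (le_trans ?_ e4)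
            (by positivity)) (by positivity)
          exact mul_le_mul_of_nonneg_right (by norm_num) (by positivity)
      _ = (X : ℝ) ^ (-(ν / 128)) := by rw [h8, mul_one]
  have herY : 4 * (Y.card * er ^ 2) ≤ (1 / 4 : ℝ) ^ J := by
    have h3 : er ^ 2 ≤ (X : ℝ) ^ (-(ν / 64)) := by
      calc er ^ 2 ≤ ((X : ℝ) ^ (-(ν / 128))) ^ 2 := pow_le_pow_left₀ her0 her1 2
        _ = (X : ℝ) ^ (-(ν / 64)) := by
          rw [← Real.rpow_natCast, ← Real.rpow_mul hX0.le]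
          congr 1
          push_cast
          ring
    have h4 : (Y.card : ℝ) * er ^ 2 ≤ (X : ℝ) ^ (ν / 128) * (X : ℝ) ^ (-(ν / 64)) :=
      mul_le_mul hcard h3 (by positivity) (by positivity)
    have h5 : (X : ℝ) ^ (ν / 128) * (X : ℝ) ^ (-(ν / 64)) = (X : ℝ) ^ (-(ν / 128)) := by
      rw [← Real.rpow_add hX0]
      congr 1
      ring
    have h6 : 4 * (X : ℝ) ^ (-(ν / 128)) ≤ 1 / (Real.log X) ^ (2 * A1) := by
      rw [le_div_iff₀ (by positivity)]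
      have h8 : (X : ℝ) ^ (-(ν / 128)) * (X : ℝ) ^ (ν / 128) = 1 := by
        rw [← Real.rpow_add hX0]
        simp
      calc 4 * (X : ℝ) ^ (-(ν / 128)) * (Real.log X) ^ (2 * A1) =
          (X : ℝ) ^ (-(ν / 128)) * (4 * (Real.log X) ^ (2 * A1)) := by ring
        _ ≤ (X : ℝ) ^ (-(ν / 128)) * (X : ℝ) ^ (ν / 128) :=
          mul_le_mul_of_nonneg_left e5 (by positivity)
        _ = 1 := h8
    have h7 : 1 / (Real.log X) ^ (2 * A1) ≤ (1 / 4 : ℝ) ^ J := by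
      have h9 : (4 : ℝ) ^ J ≤ (Real.log X) ^ (2 * A1) := by
        calc (4 : ℝ) ^ J = ((2 : ℝ) ^ J) ^ 2 := by
              rw [← pow_mul, mul_comm, pow_mul]
              norm_num
          _ ≤ ((Real.log X) ^ A1) ^ 2 := pow_le_pow_left₀ (by positivity) hJ2 2
          _ = (Real.log X) ^ (2 * A1) := by rw [← pow_mul, mul_comm]
      rw [one_div_pow]
      exact one_div_le_one_div_of_le (by positivity) h9
    calc 4 * (Y.card * er ^ 2) ≤ 4 * (X : ℝ) ^ (-(ν / 128)) := by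
          rw [← h5]
          exact mul_le_mul_of_nonneg_left h4 (by norm_num)
      _ ≤ _ := h6.trans h7
  refine ⟨fun ψ => 2 * M' ψ, fun ψ => 2 * E' ψ + er, ?_, ?_, ?_⟩
  · intro ψ hψ
    obtain ⟨m1, m2, m3⟩ := k1 ψ hψ
    refine ⟨mul_nonneg (by norm_num) m1, add_nonneg (mul_nonneg (by norm_num) m2) her0, ?_⟩
    have c1 := sNf_cells X h T hT (by omega) hh1 hhT (AE X y cc) (2 ^ 22) (fun n => by
      refine (hX3 X x3 y cc hE n).trans ?_
      have := (rg_nonneg (zI X) n).2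
      nlinarith) ψ
    rw [nt_congr (X / h) _ _ (hAE ψ)] at c1
    have hsq : 0 < Real.sqrt ((X : ℝ) * h) := Real.sqrt_pos.2 (by positivity)
    have c2 : Real.sqrt ((X / h : ℕ) : ℝ) * h ≤ Real.sqrt ((X : ℝ) * h) := by
      have h3 : Real.sqrt ((X / h : ℕ) : ℝ) * h = Real.sqrt (((X / h : ℕ) : ℝ) * h ^ 2) := by
        rw [Real.sqrt_mul (Nat.cast_nonneg _), Real.sqrt_sq (Nat.cast_nonneg _)]
      rw [h3]
      refine Real.sqrt_le_sqrt ?_
      have h4 : ((X / h : ℕ) : ℝ) * h ≤ X := by exact_mod_cast Nat.div_mul_le_self X h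
      rw [pow_two, ← mul_assoc]
      exact mul_le_mul_of_nonneg_right h4 (Nat.cast_nonneg _)
    have c3 : Real.log X / Real.sqrt ((X : ℝ) * h) * nt (X / h) (fun t =>
        ∑ n ∈ Ioc (α t) (β t), ((rg y n * ∑ l ∈ n.divisors, cc l : ℝ) : ℂ) * pv ψ n) ≤
        M' ψ + E' ψ := by
      refine (mul_le_mul_of_nonneg_left m3 (by positivity)).trans ?_
      have h3 : Real.log X / Real.sqrt ((X : ℝ) * h) * ((M' ψ + E' ψ) *
          (Real.sqrt ((X / h : ℕ) : ℝ) * h / Real.log X)) =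
          (M' ψ + E' ψ) * ((Real.sqrt ((X / h : ℕ) : ℝ) * h) / Real.sqrt ((X : ℝ) * h)) := by
        field_simp
      rw [h3]
      have h4 : (Real.sqrt ((X / h : ℕ) : ℝ) * h) / Real.sqrt ((X : ℝ) * h) ≤ 1 :=
        (div_le_one hsq).2 c2
      exact mul_le_of_le_one_right (add_nonneg m1 m2) h4
    rw [← her] at c1
    linarith
  · rw [← mul_sum]
    have h3 : ((J + 3 : ℕ) : ℝ) ^ 3 ≤ 64 * (J : ℝ) ^ 3 := by
      have h4 : ((J + 3 : ℕ) : ℝ) ≤ 4 * J := by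
        have : (1 : ℝ) ≤ J := by exact_mod_cast hJ
        push_cast
        linarith
      calc ((J + 3 : ℕ) : ℝ) ^ 3 ≤ (4 * (J : ℝ)) ^ 3 := pow_le_pow_left₀ (Nat.cast_nonneg _) h4 3
        _ = 64 * (J : ℝ) ^ 3 := by ring
    calc 2 * ∑ i ∈ Y, M' i ≤ 2 * (C * ((J + 3 : ℕ) : ℝ) ^ 3) := by linarith
      _ ≤ 2 * (C * (64 * (J : ℝ) ^ 3)) := by
        have := mul_le_mul_of_nonneg_left h3 hC.le
        linarith
      _ = 128 * C * (J : ℝ) ^ 3 := by ring
  · have h3 : ∀ ψ : PC, (2 * E' ψ + er) ^ 2 ≤ 8 * E' ψ ^ 2 + 2 * er ^ 2 := by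
      intro ψ
      nlinarith [sq_nonneg (2 * E' ψ - er)]
    refine (sum_le_sum fun ψ _ => h3 ψ).trans ?_
    rw [sum_add_distrib, ← mul_sum, sum_const, nsmul_eq_mul]
    have h4 : (1 / 4 : ℝ) ^ (J + 3) = (1 / 4 : ℝ) ^ J * (1 / 64) := by
      rw [pow_add]
      norm_num
    rw [h4] at k3
    have h5 : (0 : ℝ) ≤ (1 / 4 : ℝ) ^ J := by positivity
    linarith

end Pool.MP_dd84fd_nt.BY
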