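import Pool.Agent.Lib.MP_dd84fd_nt.BX.LsA
import Pool.Agent.Lib.MP_dd84fd_nt.BX.AsDefs

/-!
# BY-PvR: the relative Polya-Vinogradov inequality (helper28)

`pv_cond`: a nonprincipal character modulo `q` of conductor `≤ R`: every interval sum is `≤ τ(q) R³`.
`rel_cond`: the conductor of `ψ conj ψ'` divides `[cond (ψ ψ₂), cond (ψ' ψ₂)]`.
`pc_rel`: two different primitive characters `ψ, ψ'` with `cond (ψ ψ₂), cond (ψ' ψ₂) ≤ K`:
`|∑_{u < m ≤ v} ψ(m) conj ψ'(m)| ≤ τ([r, r']) K⁶`.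
-/

set_option autoImplicit false

namespace Pool.MP_dd84fd_nt.BY

open Finset Pool.MP_dd84fd_nt.L2G
open Pool.MP_dd84fd_nt.BX (PC pv IsPC PFam prc ind h0 cP cf)

/-- the Möbius indicator -/
private theorem pr_ind (q n : ℕ) (hq : q ≠ 0) :
    (∑ d ∈ q.divisors, if d ∣ n then ((ArithmeticFunction.moebius d : ℤ) : ℂ) else 0) =
      if Nat.Coprime q n then 1 else 0 := by
  rw [← Finset.sum_filter]
  have h1 : q.divisors.filter (fun d => d ∣ n) = (Nat.gcd q n).divisors := by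
    ext d
    simp only [Finset.mem_filter, Nat.mem_divisors, Nat.dvd_gcd_iff]
    have : Nat.gcd q n ≠ 0 := Nat.gcd_ne_zero_left hq
    tauto
  rw [h1]
  have h2 : ∑ d ∈ (Nat.gcd q n).divisors, (ArithmeticFunction.moebius d : ℤ) =
      if Nat.gcd q n = 1 then 1 else 0 := by
    have h3 := congrArg (fun f : ArithmeticFunction ℤ => f (Nat.gcd q n))
      ArithmeticFunction.moebius_mul_coe_zeta
    rw [ArithmeticFunction.coe_mul_zeta_apply, ArithmeticFunction.one_apply] at h3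
    exact h3
  rw [← Int.cast_sum, h2]
  unfold Nat.Coprime
  split_ifs <;> simp

/-- ceiling division -/
private theorem pr_ceil (A d m : ℕ) (hd : 0 < d) : (A + d - 1) / d ≤ m ↔ A ≤ d * m := by
  rw [Nat.div_le_iff_le_mul_add_pred hd]
  omega

/-- multiples of `d` in an interval -/
private theorem pr_mult (A B d : ℕ) (hd : 0 < d) (F : ℕ → ℂ) :
    ∑ n ∈ (Ico A B).filter (fun n => d ∣ n), F n =
      ∑ m ∈ Ico ((A + d - 1) / d) ((B + d - 1) / d), F (d * m) := by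
  symm
  have hmem : ∀ m, m ∈ Ico ((A + d - 1) / d) ((B + d - 1) / d) ↔ A ≤ d * m ∧ d * m < B := by
    intro m
    rw [Finset.mem_Ico, pr_ceil A d m hd, ← not_le, pr_ceil B d m hd, not_le]
  refine Finset.sum_bij (fun m _ => d * m) ?_ ?_ ?_ ?_
  · intro m hm
    rw [hmem] at hm
    rw [Finset.mem_filter, Finset.mem_Ico]
    exact ⟨hm, dvd_mul_right d m⟩
  · intro m _ m' _ h
    exact Nat.eq_of_mul_eq_mul_left hd h
  · intro n hn
    rw [Finset.mem_filter, Finset.mem_Ico] at hn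
    obtain ⟨⟨h1, h2⟩, m, rfl⟩ := hn
    exact ⟨m, (hmem m).2 ⟨h1, h2⟩, rfl⟩
  · intro m _
    rfl

private theorem pr_f (f : ℕ) (R : ℝ) (hf : 1 ≤ f) (hR : (f : ℝ) ≤ R) :
    (f.divisors.card : ℝ) * Real.sqrt f * (1 + Real.log f) ≤ R ^ 3 := by
  have hf1 : (1 : ℝ) ≤ f := by exact_mod_cast hf
  have h1 : (f.divisors.card : ℝ) ≤ f := by exact_mod_cast Nat.card_divisors_le_self f
  have h2 : Real.sqrt f ≤ f := by
    rw [Real.sqrt_le_left (by linarith)]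
    nlinarith
  have h3 : 1 + Real.log f ≤ f := by
    have := Real.log_le_sub_one_of_pos (by linarith : (0 : ℝ) < f)
    linarith
  have h4 : 0 ≤ Real.log f := Real.log_nonneg hf1
  calc (f.divisors.card : ℝ) * Real.sqrt f * (1 + Real.log f) ≤ f * f * f :=
        mul_le_mul (mul_le_mul h1 h2 (Real.sqrt_nonneg _) (by linarith)) h3 (by linarith)
          (by nlinarith)
    _ = (f : ℝ) ^ 3 := by ring
    _ ≤ R ^ 3 := pow_le_pow_left₀ (by linarith) hR 3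

/-- Polya-Vinogradov with the conductor -/
theorem pv_cond (q : ℕ) [NeZero q] (χ : DirichletCharacter ℂ q) (hχ : χ ≠ 1) (R : ℝ)
    (hR : (χ.conductor : ℝ) ≤ R) (A B : ℕ) :
    ‖∑ n ∈ Ico A B, χ n‖ ≤ (q.divisors.card : ℝ) * R ^ 3 := by
  have hq : q ≠ 0 := NeZero.ne q
  have hf0 : χ.conductor ≠ 0 := DirichletCharacter.conductor_ne_zero χ
  have : NeZero χ.conductor := ⟨hf0⟩
  have hprim : χ.primitiveCharacter ≠ 1 := by
    intro h
    apply hχ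
    have h1 := DirichletCharacter.changeLevel_primitiveCharacter χ
    rw [h, DirichletCharacter.changeLevel_one] at h1
    exact h1.symm
  have hval : ∀ n : ℕ, χ n = ∑ d ∈ q.divisors, if d ∣ n then
      ((ArithmeticFunction.moebius d : ℤ) : ℂ) * χ.primitiveCharacter n else 0 := by
    intro n
    have h1 : ∑ d ∈ q.divisors, (if d ∣ n then
        ((ArithmeticFunction.moebius d : ℤ) : ℂ) * χ.primitiveCharacter n else 0) =
        (∑ d ∈ q.divisors, if d ∣ n then ((ArithmeticFunction.moebius d : ℤ) : ℂ) else 0) *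
          χ.primitiveCharacter n := by
      rw [Finset.sum_mul]
      refine Finset.sum_congr rfl fun d _ => ?_
      split_ifs <;> simp
    rw [h1, pr_ind q n hq]
    split_ifs with h
    · have h2 : IsCoprime ((n : ℤ)) (q : ℤ) := Nat.isCoprime_iff_coprime.mpr h.symm
      have h3 := DirichletCharacter.primitiveCharacter_apply_of_isCoprime χ h2
      rw [one_mul]
      exact_mod_cast h3.symm
    · rw [zero_mul]
      refine MulChar.map_nonunit χ ?_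
      rw [ZMod.isUnit_iff_coprime]
      exact fun h' => h h'.symm
  have hsum : ∑ n ∈ Ico A B, χ n = ∑ d ∈ q.divisors, ((ArithmeticFunction.moebius d : ℤ) : ℂ) *
      ∑ n ∈ (Ico A B).filter (fun n => d ∣ n), χ.primitiveCharacter n := by
    rw [Finset.sum_congr rfl fun n _ => hval n, Finset.sum_comm]
    refine Finset.sum_congr rfl fun d _ => ?_
    rw [Finset.mul_sum, Finset.sum_filter]
  rw [hsum]
  have hterm : ∀ d ∈ q.divisors, ‖((ArithmeticFunction.moebius d : ℤ) : ℂ) *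
      ∑ n ∈ (Ico A B).filter (fun n => d ∣ n), χ.primitiveCharacter n‖ ≤ R ^ 3 := by
    intro d hd
    have hd0 : 0 < d := Nat.pos_of_mem_divisors hd
    rw [norm_mul, pr_mult A B d hd0 (fun n => χ.primitiveCharacter n)]
    have h1 : ‖((ArithmeticFunction.moebius d : ℤ) : ℂ)‖ ≤ 1 := by
      rw [Complex.norm_intCast]
      have := ArithmeticFunction.abs_moebius_le_one (n := d)
      exact_mod_cast this
    have h2 : ∑ m ∈ Ico ((A + d - 1) / d) ((B + d - 1) / d),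
        χ.primitiveCharacter ((d * m : ℕ) : ZMod χ.conductor) =
        χ.primitiveCharacter d * ∑ m ∈ Ico ((A + d - 1) / d) ((B + d - 1) / d),
          χ.primitiveCharacter m := by
      rw [Finset.mul_sum]
      refine Finset.sum_congr rfl fun m _ => ?_
      push_cast
      rw [map_mul]
    rw [h2, norm_mul]
    have h3 := DirichletCharacter.norm_le_one χ.primitiveCharacter (d : ZMod χ.conductor)
    have h4 := (PV_all χ.conductor χ.primitiveCharacter hprim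
      ((A + d - 1) / d) ((B + d - 1) / d)).trans (pr_f χ.conductor R (by omega) hR)
    have hR3 : 0 ≤ R ^ 3 := (norm_nonneg _).trans h4
    calc _ ≤ 1 * (1 * R ^ 3) := by
          refine mul_le_mul h1 (mul_le_mul h3 h4 (norm_nonneg _) zero_le_one)
            (by positivity) zero_le_one
      _ = R ^ 3 := by ring
  refine (norm_sum_le _ _).trans ((Finset.sum_le_sum hterm).trans (le_of_eq ?_))
  rw [Finset.sum_const, nsmul_eq_mul]

/-- lifting of the induced character -/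
private theorem pr_lift (q Q : ℕ) (hQ : q ∣ Q) (ψ : PC) (h : ψ.1 ∣ q) :
    DirichletCharacter.changeLevel hQ (ind q ψ) = ind Q ψ := by
  unfold ind
  have h' : ψ.1 ∣ Q := h.trans hQ
  simp only [dif_pos h, dif_pos h']
  exact (DirichletCharacter.changeLevel_trans ψ.2 h hQ).symm

/-- the conductor of `ψ conj ψ'` -/
theorem rel_cond (ψ ψ' ψ₂ : PC) (h1 : IsPC ψ) (h2 : IsPC ψ') (h3 : IsPC ψ₂) :
    (ind (Nat.lcm ψ.1 ψ'.1) ψ * (ind (Nat.lcm ψ.1 ψ'.1) ψ')⁻¹).conductor ∣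
      Nat.lcm (cP ψ ψ₂) (cP ψ' ψ₂) := by
  obtain ⟨q, hq⟩ : ∃ q, q = Nat.lcm ψ.1 ψ'.1 := ⟨_, rfl⟩
  obtain ⟨Q, hQ⟩ : ∃ Q, Q = Nat.lcm q ψ₂.1 := ⟨_, rfl⟩
  have hQ0 : 0 < Q := by
    rw [hQ, hq]
    exact Nat.lcm_pos (Nat.lcm_pos h1.1 h2.1) h3.1
  have : NeZero Q := ⟨hQ0.ne'⟩
  have d1 : ψ.1 ∣ q := by rw [hq]; exact Nat.dvd_lcm_left _ _
  have d2 : ψ'.1 ∣ q := by rw [hq]; exact Nat.dvd_lcm_right _ _
  have dQ : q ∣ Q := by rw [hQ]; exact Nat.dvd_lcm_left _ _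
  have d3 : ψ₂.1 ∣ Q := by rw [hQ]; exact Nat.dvd_lcm_right _ _
  rw [← hq, ← DirichletCharacter.conductor_changeLevel _ dQ, map_mul, map_inv,
    pr_lift q Q dQ ψ d1, pr_lift q Q dQ ψ' d2]
  have e1 : ind Q ψ * (ind Q ψ')⁻¹ = (ind Q ψ * ind Q ψ₂) * (ind Q ψ' * ind Q ψ₂)⁻¹ := by
    rw [mul_inv, mul_assoc, mul_comm (ind Q ψ')⁻¹, ← mul_assoc (ind Q ψ₂), mul_inv_cancel, one_mul]
  have e2 : ∀ φ : PC, φ.1 ∣ Q → (ind Q φ * ind Q ψ₂).conductor = cP φ ψ₂ := by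
    intro φ hφ
    unfold cP
    have hl : Nat.lcm φ.1 ψ₂.1 ∣ Q := Nat.lcm_dvd hφ d3
    rw [← DirichletCharacter.conductor_changeLevel _ hl, map_mul,
      pr_lift _ Q hl φ (Nat.dvd_lcm_left _ _), pr_lift _ Q hl ψ₂ (Nat.dvd_lcm_right _ _)]
  rw [e1]
  have h4 := DirichletCharacter.conductor_mul_dvd_lcm_conductor (ind Q ψ * ind Q ψ₂)
    ((ind Q ψ' * ind Q ψ₂)⁻¹)
  rw [DirichletCharacter.conductor_inv, e2 ψ (d1.trans dQ), e2 ψ' (d2.trans dQ)] at h4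
  exact h4

/-- the relative Polya-Vinogradov inequality -/
theorem pc_rel (ψ ψ' ψ₂ : PC) (h1 : IsPC ψ) (h2 : IsPC ψ') (h3 : IsPC ψ₂) (hne : ψ ≠ ψ')
    (K : ℝ) (hK : (cP ψ ψ₂ : ℝ) ≤ K) (hK' : (cP ψ' ψ₂ : ℝ) ≤ K) (u v : ℕ) :
    ‖∑ m ∈ Ioc u v, pv ψ m * (starRingEnd ℂ) (pv ψ' m)‖ ≤
      ((Nat.lcm ψ.1 ψ'.1).divisors.card : ℝ) * K ^ 6 := by
  obtain ⟨Q, hQ⟩ : ∃ Q, Q = Nat.lcm ψ.1 ψ'.1 := ⟨_, rfl⟩
  have hQ0 : Q ≠ 0 := by rw [hQ]; exact (Nat.lcm_pos h1.1 h2.1).ne'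
  have : NeZero Q := ⟨hQ0⟩
  have hd : ψ.1 ∣ Q := hQ ▸ Nat.dvd_lcm_left _ _
  have hd' : ψ'.1 ∣ Q := hQ ▸ Nat.dvd_lcm_right _ _
  have hpr : ∀ p : ℕ, p.Prime → p ∣ Q → p ∣ ψ.1 ∨ p ∣ ψ'.1 := by
    intro p hp hpQ
    rw [hQ] at hpQ
    exact (Nat.Prime.dvd_mul hp).1 (hpQ.trans (Nat.lcm_dvd_mul _ _))
  have hcond := rel_cond ψ ψ' ψ₂ h1 h2 h3
  rw [← hQ] at hcond ⊢
  have hc0 : ∀ φ : PC, IsPC φ → 0 < cP φ ψ₂ := by
    intro φ hφ
    unfold cP
    have : NeZero (Nat.lcm φ.1 ψ₂.1) := ⟨(Nat.lcm_pos hφ.1 h3.1).ne'⟩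
    exact Nat.pos_of_ne_zero (DirichletCharacter.conductor_ne_zero _)
  have hi : ind Q ψ = DirichletCharacter.changeLevel hd ψ.2 := by
    unfold ind
    simp only [dif_pos hd]
  have hi' : ind Q ψ' = DirichletCharacter.changeLevel hd' ψ'.2 := by
    unfold ind
    simp only [dif_pos hd']
  rw [hi, hi'] at hcond
  set Ξ : DirichletCharacter ℂ Q := DirichletCharacter.changeLevel hd ψ.2 *
    (DirichletCharacter.changeLevel hd' ψ'.2)⁻¹ with hΞ
  have hle : (Ξ.conductor : ℝ) ≤ K ^ 2 := by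
    have e1 : Ξ.conductor ≤ cP ψ ψ₂ * cP ψ' ψ₂ :=
      (Nat.le_of_dvd (Nat.lcm_pos (hc0 ψ h1) (hc0 ψ' h2)) hcond).trans
        (Nat.le_of_dvd (Nat.mul_pos (hc0 ψ h1) (hc0 ψ' h2)) (Nat.lcm_dvd_mul _ _))
    calc (Ξ.conductor : ℝ) ≤ ((cP ψ ψ₂ * cP ψ' ψ₂ : ℕ) : ℝ) := by exact_mod_cast e1
      _ = (cP ψ ψ₂ : ℝ) * cP ψ' ψ₂ := by push_cast; ring
      _ ≤ K * K := mul_le_mul hK hK' (Nat.cast_nonneg _) ((Nat.cast_nonneg _).trans hK)
      _ = K ^ 2 := by ring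
  have h4 : ∀ m ∈ Ioc u v, pv ψ m * (starRingEnd ℂ) (pv ψ' m) = Ξ (m : ZMod Q) :=
    fun m _ => BX.pv_conj_eq ψ ψ' Q hd hd' hpr m
  rw [sum_congr rfl h4]
  have h5 : Ioc u v = Ico (u + 1) (v + 1) := by
    ext n; simp only [mem_Ioc, mem_Ico]; omega
  rw [h5]
  refine (pv_cond Q Ξ (BX.pc_ne ψ ψ' h1 h2 hne Q hd hd') (K ^ 2) hle (u + 1) (v + 1)).trans
    (le_of_eq ?_)
  rw [← pow_mul]

end Pool.MP_dd84fd_nt.BY
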