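import Pool.Agent.Lib.MP_dd84fd_nt.BX.Sl
import Pool.Agent.Lib.MP_dd84fd_nt.BY.PvR
import Pool.Agent.Lib.MP_dd84fd_nt.BY.Defs

/-!
# BY-SlR: the `l¹` bound for the primes and the partners of one character (helper28)

`sl_gen`: `∑ sN ≤ C` for every family which satisfies `ChF` with `P1 P2² ≤ X^(1-ν)` (from `L1P ν`).
`slR : SlR` from `L1P`: the relative Polya-Vinogradov inequality `pc_rel`, `P1 = X^(3/5)`, `P2 = X^(1/10)`.
-/

set_option autoImplicit false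

namespace Pool.MP_dd84fd_nt.BY

open Finset Pool.MP_67663b_nt.Odd Pool.MP_dd84fd_nt.IX Pool.MP_dd84fd_nt.JX Filter
open Pool.MP_dd84fd_nt.BX (PC pv IsPC PFam prc ind h0 cP cf ChF CellsT L1P Fc nt sN)

private theorem sr_log_pow (C : ℝ) (K : ℕ) {ε : ℝ} (hε : 0 < ε) : ∃ X0 : ℕ, ∀ X : ℕ, X0 ≤ X →
    C * (Real.log X) ^ K ≤ (X : ℝ) ^ ε := by
  have h1 := (isLittleO_log_rpow_rpow_atTop (K : ℝ) hε).bound
    (show (0 : ℝ) < 1 / (|C| + 1) by positivity)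
  have h2 := tendsto_natCast_atTop_atTop (R := ℝ) |>.eventually h1
  obtain ⟨X0, hX0⟩ := Filter.eventually_atTop.mp h2
  refine ⟨max X0 1, fun X hX => ?_⟩
  have h3 := hX0 X ((le_max_left _ _).trans hX)
  have hX1 : (1 : ℝ) ≤ X := by exact_mod_cast (le_max_right _ _).trans hX
  have hl : 0 ≤ Real.log X := Real.log_nonneg hX1
  rw [Real.norm_of_nonneg (by positivity), Real.norm_of_nonneg (by positivity),
    Real.rpow_natCast] at h3
  have h4 : C * (Real.log X) ^ K ≤ (|C| + 1) * (Real.log X) ^ K := by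
    apply mul_le_mul_of_nonneg_right _ (by positivity)
    linarith [le_abs_self C]
  refine h4.trans ?_
  have h5 : (|C| + 1) * (Real.log X) ^ K ≤ (|C| + 1) * (1 / (|C| + 1) * (X : ℝ) ^ ε) :=
    mul_le_mul_of_nonneg_left h3 (by positivity)
  refine h5.trans (le_of_eq ?_)
  have : |C| + 1 ≠ 0 := by positivity
  field_simp

/-- the `l¹` bound for the norms of an abstract family of characters -/
theorem sl_gen (ν : ℝ) (hL : L1P ν) : ∃ C c : ℝ, 0 < C ∧ 0 < c ∧ ∀ B : ℕ, ∃ X0 : ℕ,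
    ∀ X : ℕ, X0 ≤ X → ∀ T : ℝ, 1 ≤ T → T ≤ (Real.log X) ^ B → ∀ (Y : Finset PC) (P1 P2 : ℝ),
      ChF Y pv P1 P2 → 1 ≤ P2 → P2 ≤ P1 → P1 * P2 ^ 2 ≤ (X : ℝ) ^ (1 - ν) →
      (Y.card : ℝ) ≤ (X : ℝ) ^ c → ∑ ψ ∈ Y, sN X T ψ ≤ C := by
  obtain ⟨C1, c1, hC1, hc1, X1, H1⟩ := hL
  set c0 : ℝ := min c1 (1 / 20) with hc0
  have hc0p : 0 < c0 := lt_min hc1 (by norm_num)
  have hc0c : c0 ≤ c1 := min_le_left _ _
  have hc0h : c0 ≤ 1 / 20 := min_le_right _ _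
  refine ⟨2 * C1 + 1, c0 / 2, by positivity, by positivity, fun B => ?_⟩
  obtain ⟨X3, hX3⟩ := sr_log_pow 64 (2 * B + 1) (show (0 : ℝ) < c0 / 2 by positivity)
  obtain ⟨X4, hX4⟩ := sr_log_pow 4 B hc0p
  refine ⟨max X1 (max (max X3 X4) 3), fun X hX T hT hTB Y P1 P2 hfam hP21 hP12 hP hcard => ?_⟩
  have hXX1 : X1 ≤ X := le_trans (le_max_left _ _) hX
  have hXX3 : X3 ≤ X := le_trans (le_trans (le_trans (le_max_left _ _) (le_max_left _ _))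
    (le_max_right _ _)) hX
  have hXX4 : X4 ≤ X := le_trans (le_trans (le_trans (le_max_right _ _) (le_max_left _ _))
    (le_max_right _ _)) hX
  have hX3' : 3 ≤ X := le_trans (le_trans (le_max_right _ _) (le_max_right _ _)) hX
  have hXr : (1 : ℝ) ≤ X := by exact_mod_cast (by omega : 1 ≤ X)
  have hX0 : (0 : ℝ) < X := by linarith
  have hL0 : 0 < Real.log X := Real.log_pos (by exact_mod_cast (by omega : 1 < X))
  have e3 := hX3 X hXX3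
  have e4 := hX4 X hXX4
  -- the length of the cells
  set h : ℕ := ⌈(X : ℝ) ^ (1 - c0)⌉₊ with hh
  have hpow1 : (1 : ℝ) ≤ (X : ℝ) ^ (1 - c0) := Real.one_le_rpow hXr (by linarith)
  have hle : (X : ℝ) ^ (1 - c0) ≤ h := Nat.le_ceil _
  have hle2 : (h : ℝ) ≤ 2 * (X : ℝ) ^ (1 - c0) := by
    have := Nat.ceil_lt_add_one (by linarith : (0 : ℝ) ≤ (X : ℝ) ^ (1 - c0))
    linarith
  have hh1 : 1 ≤ h := by
    have : (1 : ℝ) ≤ h := hpow1.trans hle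
    exact_mod_cast this
  have hmul : (X : ℝ) ^ (1 - c0) * (X : ℝ) ^ c0 = X := by
    rw [← Real.rpow_add hX0]
    simp
  have hhT : 2 * (h : ℝ) * T ≤ X := by
    calc 2 * (h : ℝ) * T ≤ 2 * (2 * (X : ℝ) ^ (1 - c0)) * (Real.log X) ^ B :=
          mul_le_mul (by linarith) hTB (by linarith) (by positivity)
      _ = (X : ℝ) ^ (1 - c0) * (4 * (Real.log X) ^ B) := by ring
      _ ≤ (X : ℝ) ^ (1 - c0) * (X : ℝ) ^ c0 := mul_le_mul_of_nonneg_left e4 (by positivity)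
      _ = X := hmul
  have hhX : h ≤ X := by
    have h3 : (h : ℝ) ≤ 2 * h * T := by
      have : (0 : ℝ) ≤ h := Nat.cast_nonneg _
      nlinarith
    exact_mod_cast h3.trans hhT
  have hz : zI X ≤ h := Nat.ceil_le_ceil
    (Real.rpow_le_rpow_of_exponent_le hXr (by linarith : (1 / 10 : ℝ) ≤ 1 - c0))
  have hcells : CellsT X h (fun t => t * h) (fun t => min ((t + 1) * h) X) := by
    intro t ht
    rw [mem_Icc] at ht
    have h3 : t * h ≤ X := le_trans (Nat.mul_le_mul_right h ht.2) (Nat.div_mul_le_self X h)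
    refine ⟨le_rfl, le_min (Nat.mul_le_mul_right h (Nat.le_succ t)) h3, min_le_left _ _, min_le_right _ _⟩
  have hmain := H1 X hXX1 h (le_trans (Real.rpow_le_rpow_of_exponent_le hXr (by linarith)) hle) hhX
    Y _ _ hfam hP21 hP12 hP
    (hcard.trans (Real.rpow_le_rpow_of_exponent_le hXr (by linarith))) _ _ hcells
  have hsum : ∑ ψ ∈ Y, sN X T ψ ≤ ∑ ψ ∈ Y, (2 * (Real.log X / Real.sqrt ((X : ℝ) * h) *
      nt (X / h) (Fc X h ψ)) + 32 * Real.log X * T ^ 2 * (h / X)) :=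
    sum_le_sum fun ψ _ => BX.sl_norm X h T hT hX3' hh1 hz hhT ψ
  refine hsum.trans ?_
  rw [sum_add_distrib, sum_const, nsmul_eq_mul, ← mul_sum, ← mul_sum]
  have hsqpos : 0 < Real.sqrt ((X : ℝ) * h) := Real.sqrt_pos.2 (by positivity)
  have p1 : 2 * (Real.log X / Real.sqrt ((X : ℝ) * h) * ∑ ψ ∈ Y, nt (X / h) (Fc X h ψ)) ≤
      2 * C1 := by
    have h5 : Real.log X / Real.sqrt ((X : ℝ) * h) * ∑ ψ ∈ Y, nt (X / h) (Fc X h ψ) ≤
        Real.log X / Real.sqrt ((X : ℝ) * h) * (C1 * Real.sqrt ((X : ℝ) * h) / Real.log X) :=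
      mul_le_mul_of_nonneg_left hmain (by positivity)
    have h6 : Real.log X / Real.sqrt ((X : ℝ) * h) * (C1 * Real.sqrt ((X : ℝ) * h) / Real.log X) =
        C1 := by field_simp
    linarith
  have p2 : (Y.card : ℝ) * (32 * Real.log X * T ^ 2 * (h / X)) ≤ 1 := by
    have h5 : T ^ 2 ≤ (Real.log X) ^ (2 * B) := by
      rw [pow_mul']
      exact pow_le_pow_left₀ (by linarith) hTB 2
    have h6 : (h : ℝ) / X ≤ 2 * (X : ℝ) ^ (-c0) := by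
      rw [div_le_iff₀ hX0, mul_assoc]
      refine hle2.trans (le_of_eq ?_)
      rw [show (X : ℝ) ^ (-c0) * (X : ℝ) = (X : ℝ) ^ (1 - c0) by
        nth_rewrite 2 [← Real.rpow_one (X : ℝ)]
        rw [← Real.rpow_add hX0]
        congr 1
        ring]
    have h7 : 32 * Real.log X * T ^ 2 * (h / X) ≤
        32 * Real.log X * (Real.log X) ^ (2 * B) * (2 * (X : ℝ) ^ (-c0)) := by
      refine mul_le_mul (mul_le_mul_of_nonneg_left h5 (by positivity)) h6 (by positivity) (by positivity)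
    calc (Y.card : ℝ) * (32 * Real.log X * T ^ 2 * (h / X))
        ≤ (X : ℝ) ^ (c0 / 2) * (32 * Real.log X * (Real.log X) ^ (2 * B) * (2 * (X : ℝ) ^ (-c0))) :=
          mul_le_mul hcard h7 (by positivity) (by positivity)
      _ = (X : ℝ) ^ (c0 / 2) * (X : ℝ) ^ (-c0) * (64 * (Real.log X) ^ (2 * B + 1)) := by ring
      _ ≤ (X : ℝ) ^ (c0 / 2) * (X : ℝ) ^ (-c0) * (X : ℝ) ^ (c0 / 2) :=
          mul_le_mul_of_nonneg_left e3 (by positivity)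
      _ = 1 := by
          rw [← Real.rpow_add hX0, ← Real.rpow_add hX0]
          rw [show c0 / 2 + -c0 + c0 / 2 = 0 by ring, Real.rpow_zero]
  linarith

/-- the number of divisors of the integers up to `X²` -/
private theorem sr_div : ∃ X0 : ℕ, ∀ X : ℕ, X0 ≤ X → ∀ m : ℕ, 1 ≤ m → (m : ℝ) ≤ (X : ℝ) ^ 2 →
    (m.divisors.card : ℝ) ≤ (X : ℝ) ^ (1 / 20 : ℝ) := by
  obtain ⟨C, hC1, hC⟩ := Pool.Agent.Lib.MP_dd84fd_nt.DivBound.div_bound 60
  refine ⟨max C 1, fun X hX m hm hmX => ?_⟩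
  have hXC : C ≤ X := le_trans (le_max_left _ _) hX
  have hXr : (1 : ℝ) ≤ X := by exact_mod_cast le_trans (le_max_right _ _) hX
  have hX0 : (0 : ℝ) < X := by linarith
  have h3 := hC m (by omega)
  have h4 : ((m.divisors.card : ℝ)) ^ 60 ≤ C * m := by exact_mod_cast h3
  have h5 : (C : ℝ) * m ≤ X ^ (3 : ℕ) := by
    calc (C : ℝ) * m ≤ X * X ^ 2 :=
          mul_le_mul (by exact_mod_cast hXC) hmX (Nat.cast_nonneg _) hX0.le
      _ = X ^ (3 : ℕ) := by ring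
  have h6 : (X : ℝ) ^ (3 : ℕ) = ((X : ℝ) ^ (1 / 20 : ℝ)) ^ 60 := by
    rw [← Real.rpow_natCast ((X : ℝ) ^ (1 / 20 : ℝ)) 60, ← Real.rpow_mul hX0.le,
      ← Real.rpow_natCast (X : ℝ) 3]
    norm_num
  exact le_of_pow_le_pow_left₀ (by omega) (by positivity) (h4.trans (h5.trans_eq h6))

/-- the partners of one character satisfy the conditions of the abstract families -/
theorem sr_fam (K : ℕ) : ∃ X0 : ℕ, ∀ X : ℕ, X0 ≤ X → ∀ ψ₂ : PC, IsPC ψ₂ → ∀ Y : Finset PC,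
    (∀ ψ ∈ Y, IsPC ψ ∧ 2 ≤ ψ.1 ∧ (ψ.1 : ℝ) ≤ X ∧ (cP ψ ψ₂ : ℝ) ≤ (Real.log X) ^ K) →
      ChF Y pv ((X : ℝ) ^ (3 / 5 : ℝ)) ((X : ℝ) ^ (1 / 10 : ℝ)) := by
  obtain ⟨X1, hX1⟩ := sr_div
  obtain ⟨X2, hX2⟩ := sr_log_pow 2 1 (show (0 : ℝ) < 1 / 20 by norm_num)
  obtain ⟨X3, hX3⟩ := sr_log_pow 1 (6 * K) (show (0 : ℝ) < 1 / 20 by norm_num)
  refine ⟨max (max X1 X2) (max X3 3), fun X hX ψ₂ h2 Y hY => ?_⟩
  have hXX1 : X1 ≤ X := le_trans (le_trans (le_max_left _ _) (le_max_left _ _)) hX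
  have hXX2 : X2 ≤ X := le_trans (le_trans (le_max_right _ _) (le_max_left _ _)) hX
  have hXX3 : X3 ≤ X := le_trans (le_trans (le_max_left _ _) (le_max_right _ _)) hX
  have hX3' : 3 ≤ X := le_trans (le_trans (le_max_right _ _) (le_max_right _ _)) hX
  have hXr : (1 : ℝ) ≤ X := by exact_mod_cast (by omega : 1 ≤ X)
  have hX0 : (0 : ℝ) < X := by linarith
  have hL1 : 1 ≤ Real.log X := by
    rw [Real.le_log_iff_exp_le hX0]
    have h3 : (3 : ℝ) ≤ X := by exact_mod_cast hX3'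
    linarith [Real.exp_one_lt_d9]
  have hdiv := hX1 X hXX1
  have hlog := hX2 X hXX2
  have hpow := hX3 X hXX3
  refine ⟨fun ψ _ m n => BX.pv_mul ψ m n, fun ψ _ n => BX.pv_norm_le ψ n, ?_, ?_⟩
  · intro ψ hψ a b
    obtain ⟨p1, p2, p3, -⟩ := hY ψ hψ
    have h3 := BX.pc_pv_one ψ p1 p2 1 a b
    simp only [one_mul] at h3
    refine h3.trans ?_
    have h5 : 1 ≤ ψ.1 := p1.1
    have h6 : (1 : ℝ) ≤ ψ.1 := by exact_mod_cast h5
    have h7 : Real.log ψ.1 ≤ Real.log X := Real.log_le_log (by linarith) p3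
    have h8 : 0 ≤ Real.log ψ.1 := Real.log_nonneg h6
    have h9 : (ψ.1 : ℝ) ≤ (X : ℝ) ^ 2 := p3.trans (by nlinarith)
    have h10 : 1 + Real.log ψ.1 ≤ (X : ℝ) ^ (1 / 20 : ℝ) := by
      rw [pow_one] at hlog
      linarith
    have h11 : Real.sqrt ψ.1 ≤ (X : ℝ) ^ (1 / 2 : ℝ) := by
      rw [← Real.sqrt_eq_rpow]
      exact Real.sqrt_le_sqrt p3
    calc (ψ.1.divisors.card : ℝ) * Real.sqrt ψ.1 * (1 + Real.log ψ.1) ≤
          (X : ℝ) ^ (1 / 20 : ℝ) * (X : ℝ) ^ (1 / 2 : ℝ) * (X : ℝ) ^ (1 / 20 : ℝ) :=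
          mul_le_mul (mul_le_mul (hdiv _ h5 h9) h11 (Real.sqrt_nonneg _) (by positivity)) h10
            (by linarith) (by positivity)
      _ = (X : ℝ) ^ (3 / 5 : ℝ) := by
          rw [← Real.rpow_add hX0, ← Real.rpow_add hX0]
          norm_num
  · intro ψ hψ ψ' hψ' hne a b
    obtain ⟨p1, p2, p3, p4⟩ := hY ψ hψ
    obtain ⟨p1', p2', p3', p4'⟩ := hY ψ' hψ'
    refine (pc_rel ψ ψ' ψ₂ p1 p1' h2 hne _ p4 p4' a b).trans ?_
    have hl : 1 ≤ Nat.lcm ψ.1 ψ'.1 := Nat.lcm_pos p1.1 p1'.1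
    have hl2 : ((Nat.lcm ψ.1 ψ'.1 : ℕ) : ℝ) ≤ (X : ℝ) ^ 2 := by
      have e1 : Nat.lcm ψ.1 ψ'.1 ≤ ψ.1 * ψ'.1 :=
        Nat.le_of_dvd (Nat.mul_pos p1.1 p1'.1) (Nat.lcm_dvd_mul _ _)
      calc ((Nat.lcm ψ.1 ψ'.1 : ℕ) : ℝ) ≤ ((ψ.1 * ψ'.1 : ℕ) : ℝ) := by exact_mod_cast e1
        _ = (ψ.1 : ℝ) * ψ'.1 := by push_cast; ring
        _ ≤ X * X := mul_le_mul p3 p3' (Nat.cast_nonneg _) hX0.le
        _ = (X : ℝ) ^ 2 := by ring
    have h3 : ((Real.log X) ^ K) ^ 6 ≤ (X : ℝ) ^ (1 / 20 : ℝ) := by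
      rw [← pow_mul, mul_comm K 6]
      linarith
    calc ((Nat.lcm ψ.1 ψ'.1).divisors.card : ℝ) * ((Real.log X) ^ K) ^ 6 ≤
          (X : ℝ) ^ (1 / 20 : ℝ) * (X : ℝ) ^ (1 / 20 : ℝ) :=
          mul_le_mul (hdiv _ hl hl2) h3 (by positivity) (by positivity)
      _ = (X : ℝ) ^ (1 / 10 : ℝ) := by
          rw [← Real.rpow_add hX0]
          norm_num

/-- **(T3)** from the `l¹` bound for abstract families -/
theorem slR (hL : ∀ ν : ℝ, 0 < ν → ν ≤ 1 / 20 → L1P ν) : SlR := by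
  intro ν hν
  obtain ⟨C, c, hC, hc, H⟩ := sl_gen (1 / 20) (hL (1 / 20) (by norm_num) le_rfl)
  refine ⟨C, c, hC, hc, fun K B => ?_⟩
  obtain ⟨X1, H1⟩ := H B
  obtain ⟨X2, H2⟩ := sr_fam K
  refine ⟨max (max X1 X2) 1, fun X hX T hT hTB ψ₂ h2 _ Y hY hcard => ?_⟩
  have hXX1 : X1 ≤ X := le_trans (le_trans (le_max_left _ _) (le_max_left _ _)) hX
  have hXX2 : X2 ≤ X := le_trans (le_trans (le_max_right _ _) (le_max_left _ _)) hX
  have hXr : (1 : ℝ) ≤ X := by exact_mod_cast le_trans (le_max_right _ _) hX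
  have hX0 : (0 : ℝ) < X := by linarith
  have hfam := H2 X hXX2 ψ₂ h2 Y (by
    intro ψ hψ
    obtain ⟨p1, p2, p3, p4⟩ := hY ψ hψ
    refine ⟨p1, p2, p3.trans ?_, p4⟩
    calc (X : ℝ) ^ (1 - ν) ≤ (X : ℝ) ^ (1 : ℝ) :=
          Real.rpow_le_rpow_of_exponent_le hXr (by linarith)
      _ = X := Real.rpow_one _)
  refine H1 X hXX1 T hT hTB Y _ _ hfam (Real.one_le_rpow hXr (by norm_num))
    (Real.rpow_le_rpow_of_exponent_le hXr (by norm_num)) ?_ hcard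
  rw [← Real.rpow_natCast ((X : ℝ) ^ (1 / 10 : ℝ)) 2, ← Real.rpow_mul hX0.le, ← Real.rpow_add hX0]
  exact Real.rpow_le_rpow_of_exponent_le hXr (by norm_num)

end Pool.MP_dd84fd_nt.BY
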