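import Pool.Agent.Lib.MP_dd84fd_nt.BX.LsG
import Pool.Agent.Lib.MP_dd84fd_nt.BY.Defs

/-!
# BY-SqHv: the mean square of the norms of bounded weights on rough numbers (helper39)

`sqY : SqY`, `hvY : HvY` (T4, T4').
-/

set_option autoImplicit false

namespace Pool.MP_dd84fd_nt.BY

open Finset Pool.MP_67663b_nt.Odd Pool.MP_dd84fd_nt.En Pool.MP_dd84fd_nt.E2 Pool.MP_dd84fd_nt.LS
open Pool.MP_dd84fd_nt.GX Pool.MP_dd84fd_nt.HX Pool.MP_dd84fd_nt.IX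
open Pool.MP_dd84fd_nt.BX (PC pv IsPC PFam sNw)

theorem sNw_real (w : ℕ → ℝ) (X : ℕ) (T : ℝ) (ψ : PC) :
    sNw (fun n => ((w n : ℝ) : ℂ)) X T ψ = sNf X T w ψ := rfl

/-- the weight is supported on `X^(ε/2000)`-rough numbers -/
private theorem sh_supp {X : ℕ} (hX : 1 ≤ X) {K0 : ℕ} {w : ℕ → ℝ}
    (hw : ∀ n, |w n| ≤ K0 * rg (zI X) n) {ε : ℝ} (hε1 : ε ≤ 1) :
    (∀ n ∈ Icc 1 X, ((w n : ℝ) : ℂ) ≠ 0 → En.Rough ((X : ℝ) ^ (ε / 2000)) n) ∧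
      ∀ n ∈ Icc 1 X, ‖((w n : ℝ) : ℂ)‖ ≤ K0 := by
  have hXr : (1 : ℝ) ≤ X := by exact_mod_cast hX
  refine ⟨fun n _ hn0 => ?_, fun n _ => ?_⟩
  · have h1 : w n ≠ 0 := by
      intro h
      exact hn0 (by rw [h]; simp)
    have h2 : Rgh (zI X) n := by
      by_contra hc
      have h3 := hw n
      unfold rg at h3
      rw [if_neg hc, mul_zero] at h3
      exact h1 (abs_eq_zero.1 (le_antisymm h3 (abs_nonneg _)))
    intro p hp hpn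
    have h3 := h2.2 p (Nat.mem_primeFactors.2 ⟨hp, hpn, h2.1⟩)
    have h4 : (X : ℝ) ^ (1 / 10 : ℝ) ≤ (zI X : ℕ) := by unfold zI; exact Nat.le_ceil _
    have h5 : ((zI X : ℕ) : ℝ) ≤ p := by exact_mod_cast h3
    have h6 : (X : ℝ) ^ (ε / 2000) ≤ (X : ℝ) ^ (1 / 10 : ℝ) :=
      Real.rpow_le_rpow_of_exponent_le hXr (by linarith)
    linarith
  · rw [Complex.norm_real, Real.norm_eq_abs]
    refine (hw n).trans ?_
    have h1 : rg (zI X) n ≤ 1 := by unfold rg; split_ifs <;> norm_num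
    have h0 : (0 : ℝ) ≤ K0 := Nat.cast_nonneg _
    nlinarith

theorem sqY : SqY := by
  intro ε K0 hε
  rcases le_or_gt ε 1 with hε1 | hε1
  · refine ⟨5 * (K0 * (2000 / ε * BX.CB + 1)) ^ 2 + 1, ε / 10, by positivity, by positivity,
      fun B => ?_⟩
    obtain ⟨X0, hX0⟩ := BX.sum_sNw_rough ε hε hε1 B
    refine ⟨max X0 1, fun X hX T hT1 hT2 w hw Y hY hYc => ?_⟩
    have hX1 : 1 ≤ X := (le_max_right _ _).trans hX
    obtain ⟨h1, h2⟩ := sh_supp hX1 hw hε1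
    have h3 := hX0 X ((le_max_left _ _).trans hX) T hT1 hT2 Y
      (BX.pfam_sq hX1 (fun ψ hψ => ⟨(hY ψ hψ).1, (hY ψ hψ).2.2⟩)) hYc
      (fun n => ((w n : ℝ) : ℂ)) K0 h1 h2
    have h4 : ∑ ψ ∈ Y, sNf X T w ψ ^ 2 = ∑ ψ ∈ Y, sNw (fun n => ((w n : ℝ) : ℂ)) X T ψ ^ 2 := rfl
    rw [h4]
    linarith
  · refine ⟨1, 1, one_pos, one_pos, fun B => ⟨1, fun X hX T _ _ w _ Y hY _ => ?_⟩⟩
    have hXr : (1 : ℝ) ≤ X := by exact_mod_cast hX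
    have hem : Y = ∅ := by
      rw [eq_empty_iff_forall_notMem]
      intro ψ hψ
      obtain ⟨-, h2, h3⟩ := hY ψ hψ
      have h4 : (X : ℝ) ^ (1 - ε) ≤ 1 := Real.rpow_le_one_of_one_le_of_nonpos hXr (by linarith)
      have h5 : (2 : ℝ) ≤ ψ.1 := by exact_mod_cast h2
      linarith
    rw [hem, sum_empty]
    exact zero_le_one

theorem hvY : HvY := by
  intro ε κ K0 hε hκ
  rcases le_or_gt ε 1 with hε1 | hε1
  · obtain ⟨M, hM⟩ := BX.hv_rough ε κ K0 hε hε1 hκ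
    refine ⟨M, fun B => ?_⟩
    obtain ⟨X0, hX0⟩ := hM B
    refine ⟨max X0 1, fun X hX T hT1 hT2 w hw Y hY => ?_⟩
    have hX1 : 1 ≤ X := (le_max_right _ _).trans hX
    obtain ⟨h1, h2⟩ := sh_supp hX1 hw hε1
    exact hX0 X ((le_max_left _ _).trans hX) T hT1 hT2 (fun n => ((w n : ℝ) : ℂ)) h1 h2 Y
      (fun ψ hψ => ⟨(hY ψ hψ).1, (hY ψ hψ).2.2.1, (hY ψ hψ).2.2.2⟩)
  · refine ⟨0, fun B => ⟨1, fun X hX T _ _ w _ Y hY => ?_⟩⟩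
    have hXr : (1 : ℝ) ≤ X := by exact_mod_cast hX
    rw [Nat.le_zero, card_eq_zero, eq_empty_iff_forall_notMem]
    intro ψ hψ
    obtain ⟨-, h2, h3, -⟩ := hY ψ hψ
    have h4 : (X : ℝ) ^ (1 - ε) ≤ 1 := Real.rpow_le_one_of_one_le_of_nonpos hXr (by linarith)
    have h5 : (2 : ℝ) ≤ ψ.1 := by exact_mod_cast h2
    linarith

end Pool.MP_dd84fd_nt.BY
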