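import Pool.Agent.Lib.MP_dd84fd_nt.BY.VDefs
import Pool.Agent.Lib.MP_dd84fd_nt.EM.RoC
import Pool.Agent.Lib.BV.BVTheta
import Pool.Agent.Lib.BV.Tot
import Pool.Agent.Lib.MP_dd84fd_nt.IY.CCw
import Pool.Agent.Lib.MP_dd84fd_nt.IY.CCg
import Pool.Agent.Lib.MP_dd84fd_nt.IY.CTV
import Pool.Agent.Lib.MP_dd84fd_nt.IY.CSup
import Pool.Agent.Lib.MP_dd84fd_nt.HX.GrBV

/-!
# BY-VPfA: the type functions minus their models in progressions, on average (helper98)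

`wty` in a class mod `q`: `n = k p`, `k` simple, `p` in an interval; `Pool.BV.bv_pi` at `X/k` for every
`k` and box.  `gty f1`: `EM.rough_any` and Abel summation.  `q = 1`: `IY.cw_class`, `IY.cg_class`.
-/

set_option autoImplicit false

namespace Pool.MP_dd84fd_nt.BY

open Finset Pool.MP_67663b_nt.Odd Pool.MP_dd84fd_nt.En Pool.MP_dd84fd_nt.E2 Pool.MP_dd84fd_nt.LS
open Pool.MP_dd84fd_nt.HX Pool.MP_dd84fd_nt.IX Pool.MP_dd84fd_nt.EM
open Pool.MP_dd84fd_nt.IY (kp zt X5 ub vj vty wty gty mt NJ Simp ty zt_ge zt_log X5_ge vty_eq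
  wty_sum cw_class cg_class gty_var gty_sup)

/-! ### Reduction to the primes -/

private theorem vp_swap (X t q c : ℕ) (ht : t ≤ X) (s : ℝ) (F : ℕ → ℕ → ℝ) :
    ∑ n ∈ (Icc 1 t).filter (fun n => n ≡ c [MOD q]), (if s < (n : ℝ) then
      ∑ k ∈ n.divisors.filter (fun k => (n / k).Prime), F (n / k) k else 0) =
    ∑ k ∈ Icc 1 X, ∑ p ∈ (Icc 1 (t / k)).filter (fun p => p.Prime ∧ k * p ≡ c [MOD q] ∧
      s < ((k * p : ℕ) : ℝ)), F p k := by
  classical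
  rw [← sum_filter, filter_filter]
  rw [sum_comm' (t' := Icc 1 X) (s' := fun k => (Icc 1 t).filter (fun n => n ≡ c [MOD q] ∧
    s < (n : ℝ) ∧ k ∣ n ∧ (n / k).Prime))]
  · refine sum_congr rfl fun k hk => ?_
    rw [mem_Icc] at hk
    refine sum_nbij' (fun n => n / k) (fun p => k * p) ?_ ?_ ?_ ?_ ?_
    · intro n hn
      simp only [mem_filter, mem_Icc] at hn ⊢
      obtain ⟨⟨h1, h2⟩, h3, h4, h5, h6⟩ := hn
      have h7 : k * (n / k) = n := Nat.mul_div_cancel' h5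
      rw [h7]
      exact ⟨⟨h6.one_lt.le, Nat.div_le_div_right h2⟩, h6, h3, h4⟩
    · intro p hp
      simp only [mem_filter, mem_Icc] at hp ⊢
      obtain ⟨⟨h1, h2⟩, h3, h4, h5⟩ := hp
      have h6 : k * p ≤ t := by
        have h7 := (Nat.le_div_iff_mul_le (by omega)).1 h2
        rw [mul_comm]; exact h7
      refine ⟨⟨Nat.mul_pos (by omega) (by omega), h6⟩, h4, h5, dvd_mul_right _ _, ?_⟩
      rw [Nat.mul_div_cancel_left _ (by omega)]
      exact h3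
    · intro n hn
      simp only [mem_filter, mem_Icc] at hn
      exact Nat.mul_div_cancel' hn.2.2.2.1
    · intro p hp
      exact Nat.mul_div_cancel_left _ (by omega)
    · intro n hn
      rfl
  · intro n k
    simp only [mem_filter, mem_Icc, Nat.mem_divisors]
    constructor
    · rintro ⟨⟨⟨h1, h2⟩, h3, h4⟩, ⟨h5, h6⟩, h7⟩
      have h8 := Nat.le_of_dvd (by omega) h5
      have h9 := Nat.pos_of_dvd_of_pos h5 (by omega)
      exact ⟨⟨⟨h1, h2⟩, h3, h4, h5, h7⟩, by omega, by omega⟩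
    · rintro ⟨⟨⟨h1, h2⟩, h3, h4, h5, h7⟩, h8⟩
      exact ⟨⟨⟨h1, h2⟩, h3, h4⟩, ⟨h5, by omega⟩, h7⟩

private theorem vp_inv {q k c : ℕ} (hq : 1 ≤ q) (hk : Nat.Coprime k q) (hc : Nat.Coprime c q) :
    ∃ c' : ℕ, Nat.Coprime c' q ∧ ∀ p : ℕ, (k * p ≡ c [MOD q] ↔ p ≡ c' [MOD q]) := by
  have : NeZero q := ⟨by omega⟩
  have h1 : IsUnit (k : ZMod q) := (ZMod.isUnit_iff_coprime k q).2 hk
  obtain ⟨u, hu⟩ := h1
  set c' : ℕ := (((u⁻¹ : (ZMod q)ˣ) : ZMod q) * (c : ZMod q)).val with hc'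
  have h2 : ((c' : ℕ) : ZMod q) = ((u⁻¹ : (ZMod q)ˣ) : ZMod q) * (c : ZMod q) := by
    rw [hc', ZMod.natCast_val, ZMod.cast_id', id]
  have h3 : ((k * c' : ℕ) : ZMod q) = (c : ZMod q) := by
    rw [Nat.cast_mul, h2, ← hu, ← mul_assoc, Units.mul_inv, one_mul]
  have h4 : k * c' ≡ c [MOD q] := (ZMod.natCast_eq_natCast_iff _ _ _).1 h3
  have h5 : Nat.Coprime (k * c') q := by
    have h6 := h4.gcd_eq
    rw [Nat.Coprime, h6]; exact hc
  refine ⟨c', Nat.Coprime.coprime_mul_left h5, fun p => ⟨fun h => ?_, fun h => ?_⟩⟩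
  · have h6 : k * p ≡ k * c' [MOD q] := h.trans h4.symm
    exact Nat.ModEq.cancel_left_of_coprime (by rw [Nat.gcd_comm]; exact hk) h6
  · exact (h.mul_left k).trans h4

private theorem vp_harm (X : ℕ) : ∑ k ∈ Icc 1 X, 1 / (k : ℝ) ≤ 1 + Real.log X := by
  have h1 := harmonic_le_one_add_log X
  rw [harmonic_eq_sum_Icc] at h1
  push_cast at h1
  simpa [one_div] using h1

private theorem vp_ind (S : Finset ℕ) (P : ℕ → Prop) [DecidablePred P] :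
    ∑ i ∈ S, ind (P i) = ((S.filter P).card : ℝ) := by
  rw [card_filter]
  push_cast
  refine sum_congr rfl fun i _ => ?_
  unfold ind
  by_cases h : P i
  · rw [if_pos h, if_pos h]
  · rw [if_neg h, if_neg h]

/-- the largest prime in box `j`, at most `t/k` -/
private noncomputable def bt (κ : ℝ) (X t k j : ℕ) : ℕ :=
  min (t / k) (⌈ub κ (zt X) (j + 1)⌉₊ - 1)

/-- the lower end -/
private noncomputable def al (κ : ℝ) (X t k j : ℕ) : ℕ :=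
  min (bt κ X t k j) (max ⌊X5 X / k⌋₊ (⌈ub κ (zt X) j⌉₊ - 1))

/-- primes in an interval and a class, as a difference -/
private theorem vp_int (a b q c : ℕ) (hab : a ≤ b) :
    (((Icc 1 b).filter (fun p : ℕ => p.Prime ∧ p ≡ c [MOD q] ∧ a < p)).card : ℝ) =
      (((Icc 1 b).filter (fun p : ℕ => p.Prime ∧ p ≡ c [MOD q])).card : ℝ) -
      (((Icc 1 a).filter (fun p : ℕ => p.Prime ∧ p ≡ c [MOD q])).card : ℝ) := by
  have h1 : (Icc 1 b).filter (fun p : ℕ => p.Prime ∧ p ≡ c [MOD q]) =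
      (Icc 1 b).filter (fun p : ℕ => p.Prime ∧ p ≡ c [MOD q] ∧ a < p) ∪
      (Icc 1 a).filter (fun p : ℕ => p.Prime ∧ p ≡ c [MOD q]) := by
    ext p
    simp only [mem_union, mem_filter, mem_Icc]
    constructor
    · rintro ⟨⟨h1, h2⟩, h3, h4⟩
      rcases Nat.lt_or_ge a p with h | h
      · exact Or.inl ⟨⟨h1, h2⟩, h3, h4, h⟩
      · exact Or.inr ⟨⟨h1, h⟩, h3, h4⟩
    · rintro (⟨⟨h1, h2⟩, h3, h4, h5⟩ | ⟨⟨h1, h2⟩, h3, h4⟩)
      · exact ⟨⟨h1, h2⟩, h3, h4⟩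
      · exact ⟨⟨h1, by omega⟩, h3, h4⟩
  have h2 : Disjoint ((Icc 1 b).filter (fun p : ℕ => p.Prime ∧ p ≡ c [MOD q] ∧ a < p))
      ((Icc 1 a).filter (fun p : ℕ => p.Prime ∧ p ≡ c [MOD q])) := by
    rw [disjoint_left]
    intro p hp hp'
    rw [mem_filter, mem_Icc] at hp hp'
    omega
  rw [h1, card_union_of_disjoint h2]
  push_cast
  ring

/-- the count for one cofactor and one box -/
private theorem vp_count (κ : ℝ) (hκ : 0 < κ) (X t k j q c c' : ℕ) (hk : 1 ≤ k) (hz : 1 ≤ zt X)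
    (hX5 : 0 ≤ X5 X) (hc' : ∀ p : ℕ, (k * p ≡ c [MOD q] ↔ p ≡ c' [MOD q])) :
    (((Icc 1 (t / k)).filter (fun p : ℕ => p.Prime ∧ k * p ≡ c [MOD q] ∧
      X5 X < ((k * p : ℕ) : ℝ) ∧ ub κ (zt X) j ≤ (p : ℝ) ∧
        (p : ℝ) < ub κ (zt X) (j + 1))).card : ℝ) =
      (((Icc 1 (bt κ X t k j)).filter (fun p : ℕ => p.Prime ∧ p ≡ c' [MOD q])).card : ℝ) -
      (((Icc 1 (al κ X t k j)).filter (fun p : ℕ => p.Prime ∧ p ≡ c' [MOD q])).card : ℝ) := by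
  have hk0 : (0 : ℝ) < k := by exact_mod_cast hk
  have hub : ∀ i : ℕ, 0 < ub κ (zt X) i := by
    intro i
    unfold ub
    have : (0 : ℝ) < zt X := by exact_mod_cast hz
    positivity
  have hub1 : ∀ i : ℕ, 1 ≤ ⌈ub κ (zt X) i⌉₊ := fun i => Nat.one_le_ceil_iff.2 (hub i)
  rw [← vp_int (al κ X t k j) (bt κ X t k j) q c' (min_le_left _ _)]
  congr 2
  ext p
  simp only [mem_filter, mem_Icc]
  have e1 : X5 X < ((k * p : ℕ) : ℝ) ↔ ⌊X5 X / k⌋₊ < p := by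
    rw [Nat.floor_lt (div_nonneg hX5 hk0.le), div_lt_iff₀ hk0]
    push_cast
    rw [mul_comm]
  have e2 : ub κ (zt X) j ≤ (p : ℝ) ↔ ⌈ub κ (zt X) j⌉₊ - 1 < p := by
    rw [← Nat.ceil_le]
    have := hub1 j
    omega
  have e3 : (p : ℝ) < ub κ (zt X) (j + 1) ↔ p ≤ ⌈ub κ (zt X) (j + 1)⌉₊ - 1 := by
    rw [← Nat.lt_ceil]
    have := hub1 (j + 1)
    omega
  rw [e1, e2, e3, hc' p]
  unfold al bt
  constructor
  · rintro ⟨⟨h1, h2⟩, h3, h4, h5, h6, h7⟩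
    refine ⟨⟨h1, le_min h2 h7⟩, h3, h4, ?_⟩
    exact lt_of_le_of_lt (min_le_right _ _) (max_lt h5 h6)
  · rintro ⟨⟨h1, h2⟩, h3, h4, h5⟩
    have h6 := le_min_iff.1 h2
    have h7 : max ⌊X5 X / k⌋₊ (⌈ub κ (zt X) j⌉₊ - 1) < p := by
      rcases min_lt_iff.1 h5 with h | h
      · omega
      · exact h
    have h8 := max_lt_iff.1 h7
    exact ⟨⟨h1, h6.1⟩, h3, h4, h8.1, h8.2, h6.2⟩

/-- the sum of `wty` over a class, through the primes -/
private theorem vp_w (B' : ℕ) : ∃ X0 : ℕ, ∀ X : ℕ, X0 ≤ X → ∀ W : Finset ℕ → ℝ,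
    ∀ q c t : ℕ, t ≤ X →
    ∑ n ∈ (Icc 1 t).filter (fun n => n ≡ c [MOD q]), wty (kp B' X) X W n =
      ∑ k ∈ Icc 1 X, ∑ j ∈ range (NJ B' X), vj (kp B' X) (zt X) W j k *
        (((Icc 1 (t / k)).filter (fun p : ℕ => p.Prime ∧ k * p ≡ c [MOD q] ∧
          X5 X < ((k * p : ℕ) : ℝ) ∧ ub (kp B' X) (zt X) j ≤ (p : ℝ) ∧
            (p : ℝ) < ub (kp B' X) (zt X) (j + 1))).card : ℝ) := by
  classical
  obtain ⟨X5', hX5⟩ := wty_sum
  obtain ⟨X6, hX6⟩ := vty_eq B'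
  obtain ⟨X4, hX4⟩ := MP_log_large 1
  refine ⟨max X4 (max X5' X6), fun X hX W q c t ht => ?_⟩
  have hL2 := hX4 X ((le_max_left _ _).trans hX)
  have hws := hX5 X (((le_max_left _ _).trans (le_max_right _ _)).trans hX)
  have hve := hX6 X (((le_max_right _ _).trans (le_max_right _ _)).trans hX)
  have hLpos : 0 < Real.log (X : ℝ) := by linarith
  have hκ : 0 < kp B' X := by unfold kp; positivity
  -- step 1
  have s1 : ∑ n ∈ (Icc 1 t).filter (fun n => n ≡ c [MOD q]), wty (kp B' X) X W n =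
      ∑ k ∈ Icc 1 X, ∑ p ∈ (Icc 1 (t / k)).filter (fun p => p.Prime ∧ k * p ≡ c [MOD q] ∧
        X5 X < ((k * p : ℕ) : ℝ)), vty (kp B' X) (zt X) W (p : ℝ) k := by
    rw [← vp_swap X t q c ht (X5 X) (fun p k => vty (kp B' X) (zt X) W (p : ℝ) k)]
    refine sum_congr rfl fun n hn => ?_
    rw [mem_filter, mem_Icc] at hn
    split_ifs with h
    · exact hws (kp B' X) hκ W n (mem_Icc.2 ⟨hn.1.1, hn.1.2.trans ht⟩) h
    · unfold wty
      rw [if_neg (fun h' => h h'.1)]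
  rw [s1]
  refine sum_congr rfl fun k hk => ?_
  rw [mem_Icc] at hk
  have h1 : ∀ p ∈ (Icc 1 (t / k)).filter (fun p => p.Prime ∧
      k * p ≡ c [MOD q] ∧ X5 X < ((k * p : ℕ) : ℝ)), vty (kp B' X) (zt X) W (p : ℝ) k =
      ∑ j ∈ range (NJ B' X), vj (kp B' X) (zt X) W j k *
        ind (ub (kp B' X) (zt X) j ≤ (p : ℝ) ∧ (p : ℝ) < ub (kp B' X) (zt X) (j + 1)) := by
    intro p hp
    rw [mem_filter, mem_Icc] at hp
    refine hve W p k ?_
    have h2 : p ≤ X := (hp.1.2.trans (Nat.div_le_self _ _)).trans ht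
    exact_mod_cast h2
  rw [sum_congr rfl h1, sum_comm]
  refine sum_congr rfl fun j _ => ?_
  rw [← mul_sum]
  congr 1
  rw [vp_ind, filter_filter]
  congr 2
  ext p
  simp only [mem_filter, and_assoc]

/-- Bombieri-Vinogradov for one cofactor -/
private theorem vp_bv (A2 : ℕ) : ∃ X0 : ℕ, ∀ X : ℕ, X0 ≤ X → ∀ k : ℕ, 1 ≤ k → zt X ≤ X / k →
    ∀ c y : ℕ → ℕ, (∀ q, (c q).Coprime q) → (∀ q, y q ≤ X / k) → ∀ S : Finset ℕ,
    (∀ q ∈ S, 1 ≤ q ∧ (q : ℝ) ≤ (X : ℝ) ^ (1 / 40 : ℝ)) →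
    ∑ q ∈ S, |Pool.BV.Ep (y q) q (c q)| ≤ (10 : ℝ) ^ A2 * (X / k) / (Real.log X) ^ A2 := by
  obtain ⟨B, X1, h1⟩ := Pool.BV.bv_pi A2
  obtain ⟨X2, hX2⟩ := MP_log_pow (X1 : ℝ) 0 (ε := 1 / 10) (by norm_num)
  obtain ⟨X3, hX3⟩ := MP_log_pow 1 B (ε := 1 / 40) (by norm_num)
  obtain ⟨X4, hX4⟩ := MP_log_large 1
  obtain ⟨X5', hX5⟩ := zt_log
  refine ⟨max (max X2 X3) (max X4 (max X5' 1)), fun X hX k hk hzk c y hc hy S hS => ?_⟩
  simp only [max_le_iff] at hX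
  obtain ⟨⟨g2, g3⟩, g4, g5, g6⟩ := hX
  have h2 := hX2 X g2
  have h3 := hX3 X g3
  have h4 := hX4 X g4
  obtain ⟨h5, h6⟩ := hX5 X g5
  rw [pow_zero, mul_one] at h2
  rw [one_mul] at h3
  have hXR : (1 : ℝ) ≤ X := by exact_mod_cast g6
  have hX0 : (0 : ℝ) < X := by linarith
  have hzt := zt_ge X
  have hXk : (zt X : ℝ) ≤ ((X / k : ℕ) : ℝ) := by exact_mod_cast hzk
  have hXkX : ((X / k : ℕ) : ℝ) ≤ X / k := Nat.cast_div_le
  have hk1 : (1 : ℝ) ≤ k := by exact_mod_cast hk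
  have hXkX' : ((X / k : ℕ) : ℝ) ≤ X := hXkX.trans (div_le_self hX0.le hk1)
  have hbig : X1 ≤ X / k := by
    have : (X1 : ℝ) ≤ ((X / k : ℕ) : ℝ) := by linarith
    exact_mod_cast this
  have hpos : (0 : ℝ) < ((X / k : ℕ) : ℝ) := by
    have : (2 : ℝ) ≤ (zt X : ℝ) := by exact_mod_cast h5
    linarith
  have hlog1 : Real.log X / 10 ≤ Real.log ((X / k : ℕ) : ℝ) := by
    refine h6.trans (Real.log_le_log ?_ hXk)
    have : (2 : ℝ) ≤ (zt X : ℝ) := by exact_mod_cast h5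
    linarith
  have hlog2 : Real.log ((X / k : ℕ) : ℝ) ≤ Real.log X := Real.log_le_log hpos hXkX'
  have hlog0 : 0 < Real.log ((X / k : ℕ) : ℝ) := by linarith
  have hQ : ((⌊(X : ℝ) ^ (1 / 40 : ℝ)⌋₊ : ℕ) : ℝ) ≤
      Real.sqrt ((X / k : ℕ) : ℝ) / Real.log ((X / k : ℕ) : ℝ) ^ B := by
    rw [le_div_iff₀ (by positivity)]
    have e1 : ((⌊(X : ℝ) ^ (1 / 40 : ℝ)⌋₊ : ℕ) : ℝ) ≤ (X : ℝ) ^ (1 / 40 : ℝ) :=
      Nat.floor_le (by positivity)
    have e2 : Real.log ((X / k : ℕ) : ℝ) ^ B ≤ (X : ℝ) ^ (1 / 40 : ℝ) :=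
      (pow_le_pow_left₀ hlog0.le hlog2 B).trans h3
    have e3 : (X : ℝ) ^ (1 / 20 : ℝ) ≤ Real.sqrt ((X / k : ℕ) : ℝ) := by
      have e4 : (X : ℝ) ^ (1 / 20 : ℝ) = Real.sqrt ((X : ℝ) ^ (1 / 10 : ℝ)) := by
        rw [Real.sqrt_eq_rpow, ← Real.rpow_mul hX0.le]
        norm_num
      rw [e4]
      exact Real.sqrt_le_sqrt (hzt.trans hXk)
    calc ((⌊(X : ℝ) ^ (1 / 40 : ℝ)⌋₊ : ℕ) : ℝ) * Real.log ((X / k : ℕ) : ℝ) ^ B ≤
        (X : ℝ) ^ (1 / 40 : ℝ) * (X : ℝ) ^ (1 / 40 : ℝ) :=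
          mul_le_mul e1 e2 (by positivity) (by positivity)
      _ = (X : ℝ) ^ (1 / 20 : ℝ) := by
          rw [← Real.rpow_add hX0]
          norm_num
      _ ≤ _ := e3
  have hbv := h1 (X / k) ⌊(X : ℝ) ^ (1 / 40 : ℝ)⌋₊ hbig hQ c y hc hy
  have hsub : S ⊆ Icc 1 ⌊(X : ℝ) ^ (1 / 40 : ℝ)⌋₊ := by
    intro q hq
    rw [mem_Icc]
    exact ⟨(hS q hq).1, Nat.le_floor (hS q hq).2⟩
  refine (sum_le_sum_of_subset_of_nonneg hsub fun _ _ _ => abs_nonneg _).trans (hbv.trans ?_)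
  have hp : (Real.log X) ^ A2 ≤ (10 : ℝ) ^ A2 * Real.log ((X / k : ℕ) : ℝ) ^ A2 := by
    rw [← mul_pow]
    exact pow_le_pow_left₀ (by linarith) (by linarith) A2
  rw [div_le_div_iff₀ (by positivity) (by positivity)]
  calc ((X / k : ℕ) : ℝ) * (Real.log X) ^ A2 ≤
      (X / k) * ((10 : ℝ) ^ A2 * Real.log ((X / k : ℕ) : ℝ) ^ A2) :=
        mul_le_mul hXkX hp (by positivity) (by positivity)
    _ = _ := by ring

/-- the sum over a class minus the expected value, on average -/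
private theorem vp_w_avg (A B' : ℕ) (K0 : ℝ) : ∃ X0 : ℕ, ∀ X : ℕ, X0 ≤ X →
    ∀ W : Finset ℕ → ℝ, (∀ T, |W T| ≤ K0) → ∀ a t : ℕ, t ≤ X → ∀ S : Finset ℕ,
    (∀ q ∈ S, 1 ≤ q ∧ (q : ℝ) ≤ (X : ℝ) ^ (1 / 40 : ℝ) ∧ Nat.Coprime a q) →
    ∑ q ∈ S, |∑ n ∈ (Icc 1 t).filter (fun n => n ≡ a [MOD q]), wty (kp B' X) X W n -
      (∑ n ∈ Icc 1 t, wty (kp B' X) X W n) / (Nat.totient q : ℝ)| ≤ X / (Real.log X) ^ A := by
  classical
  obtain ⟨A2, hA2⟩ : ∃ A2 : ℕ, A2 = A + B' + 3 := ⟨_, rfl⟩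
  obtain ⟨X1, hX1⟩ := vp_w B'
  obtain ⟨X2, hX2⟩ := vp_bv A2
  obtain ⟨X3, hX3⟩ := zt_log
  obtain ⟨X4, hX4⟩ := MP_log_large (max 1 (8 * |K0| * 10 ^ A2))
  refine ⟨max (max X1 X2) (max (max X3 X4) 2), fun X hX W hW a t ht S hS => ?_⟩
  simp only [max_le_iff] at hX
  obtain ⟨⟨g1, g2⟩, ⟨g3, g4⟩, g5⟩ := hX
  have h1 := hX1 X g1
  have h2 := hX2 X g2
  obtain ⟨hz2, -⟩ := hX3 X g3
  have h4 := hX4 X g4
  have hL1 : 1 ≤ Real.log (X : ℝ) := (le_max_left _ _).trans h4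
  have hLK : 8 * |K0| * 10 ^ A2 ≤ Real.log (X : ℝ) := (le_max_right _ _).trans h4
  set L := Real.log (X : ℝ) with hL
  have hL0 : 0 < L := by linarith
  have hK0 : 0 ≤ K0 := (abs_nonneg _).trans (hW ∅)
  rw [abs_of_nonneg hK0] at hLK
  have hX0 : (0 : ℝ) ≤ X := Nat.cast_nonneg _
  have hXR : (1 : ℝ) < X := by exact_mod_cast (by omega : 1 < X)
  have hκ : 0 < kp B' X := by unfold kp; positivity
  have hX5 : 0 ≤ X5 X := by
    unfold X5
    positivity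
  have hzt := zt_ge X
  -- the classes
  obtain ⟨cc, hcc⟩ : ∃ cc : ℕ → ℕ → ℕ, ∀ k q : ℕ, (cc k q).Coprime q ∧
      (1 ≤ q → Nat.Coprime k q → Nat.Coprime a q → ∀ p : ℕ,
        (k * p ≡ a [MOD q] ↔ p ≡ cc k q [MOD q])) := by
    have h : ∀ k q : ℕ, ∃ c : ℕ, c.Coprime q ∧
        (1 ≤ q → Nat.Coprime k q → Nat.Coprime a q → ∀ p : ℕ,
          (k * p ≡ a [MOD q] ↔ p ≡ c [MOD q])) := by
      intro k q
      by_cases h : 1 ≤ q ∧ Nat.Coprime k q ∧ Nat.Coprime a q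
      · obtain ⟨c', h5, h6⟩ := vp_inv h.1 h.2.1 h.2.2
        exact ⟨c', h5, fun _ _ _ => h6⟩
      · exact ⟨1, Nat.coprime_one_left q, fun h5 h6 h7 => absurd ⟨h5, h6, h7⟩ h⟩
    choose cc hcc using h
    exact ⟨cc, hcc⟩
  -- one modulus
  have s1 : ∀ q ∈ S, |∑ n ∈ (Icc 1 t).filter (fun n => n ≡ a [MOD q]), wty (kp B' X) X W n -
      (∑ n ∈ Icc 1 t, wty (kp B' X) X W n) / (Nat.totient q : ℝ)| ≤
      ∑ k ∈ Icc 1 X, ∑ j ∈ range (NJ B' X), K0 *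
        |Pool.BV.Ep (bt (kp B' X) X t k j) q (cc k q) -
          Pool.BV.Ep (al (kp B' X) X t k j) q (cc k q)| := by
    intro q hq
    obtain ⟨q1, q2, q3⟩ := hS q hq
    have e1 : ∑ n ∈ Icc 1 t, wty (kp B' X) X W n =
        ∑ n ∈ (Icc 1 t).filter (fun n => n ≡ a [MOD 1]), wty (kp B' X) X W n := by
      refine sum_congr ?_ fun _ _ => rfl
      ext n
      simp [Nat.modEq_one]
    rw [e1, h1 W q a t ht, h1 W 1 a t ht, sum_div, ← sum_sub_distrib]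
    refine (abs_sum_le_sum_abs _ _).trans (sum_le_sum fun k hk => ?_)
    rw [mem_Icc] at hk
    rw [sum_div, ← sum_sub_distrib]
    refine (abs_sum_le_sum_abs _ _).trans (sum_le_sum fun j _ => ?_)
    rw [mul_div_assoc, ← mul_sub, abs_mul]
    by_cases hv : vj (kp B' X) (zt X) W j k = 0
    · rw [hv, abs_zero, zero_mul]
      positivity
    have hs : Simp (kp B' X) (zt X) k := by
      by_contra hs
      apply hv
      unfold vj
      rw [if_neg (fun h => hs h.1)]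
    have hv1 : |vj (kp B' X) (zt X) W j k| ≤ K0 := by
      unfold vj
      split_ifs
      · exact hW _
      · rw [abs_zero]; exact hK0
    have hcop : Nat.Coprime k q := by
      refine Nat.coprime_of_dvd fun p hp hpk hpq => ?_
      have h1 : zt X ≤ p := hs.1.2 p (Nat.mem_primeFactors.2 ⟨hp, hpk, by omega⟩)
      have h2 : p ≤ q := Nat.le_of_dvd (by omega) hpq
      have h3 : (zt X : ℝ) ≤ q := by exact_mod_cast h1.trans h2
      have h4 : (X : ℝ) ^ (1 / 40 : ℝ) < (X : ℝ) ^ (1 / 10 : ℝ) :=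
        Real.rpow_lt_rpow_of_exponent_lt hXR (by norm_num)
      linarith
    have hc1 := vp_count (kp B' X) hκ X t k j q a (cc k q) hk.1 (by omega) hX5
      ((hcc k q).2 q1 hcop q3)
    have hc2 := vp_count (kp B' X) hκ X t k j 1 a 0 hk.1 (by omega) hX5
      (fun p => by simp [Nat.modEq_one])
    rw [hc1, hc2]
    have hone : ∀ y : ℕ, (((Icc 1 y).filter (fun p : ℕ => p.Prime ∧ p ≡ 0 [MOD 1])).card : ℝ) =
        (((Icc 1 y).filter (fun p : ℕ => p.Prime)).card : ℝ) := by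
      intro y
      congr 2
      ext p
      simp [Nat.modEq_one]
    rw [hone, hone]
    have hE : (((Icc 1 (bt (kp B' X) X t k j)).filter
          (fun p : ℕ => p.Prime ∧ p ≡ cc k q [MOD q])).card : ℝ) -
        (((Icc 1 (al (kp B' X) X t k j)).filter
          (fun p : ℕ => p.Prime ∧ p ≡ cc k q [MOD q])).card : ℝ) -
        ((((Icc 1 (bt (kp B' X) X t k j)).filter (fun p : ℕ => p.Prime)).card : ℝ) -
          (((Icc 1 (al (kp B' X) X t k j)).filter (fun p : ℕ => p.Prime)).card : ℝ)) /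
            (Nat.totient q : ℝ) =
        Pool.BV.Ep (bt (kp B' X) X t k j) q (cc k q) -
          Pool.BV.Ep (al (kp B' X) X t k j) q (cc k q) := by
      unfold Pool.BV.Ep
      ring
    rw [hE]
    exact mul_le_mul_of_nonneg_right hv1 (abs_nonneg _)
  refine (sum_le_sum s1).trans ?_
  rw [sum_comm]
  -- one cofactor, one box
  have s2 : ∀ k ∈ Icc 1 X, ∑ q ∈ S, ∑ j ∈ range (NJ B' X), K0 *
        |Pool.BV.Ep (bt (kp B' X) X t k j) q (cc k q) -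
          Pool.BV.Ep (al (kp B' X) X t k j) q (cc k q)| ≤
      (NJ B' X : ℝ) * (K0 * (2 * ((10 : ℝ) ^ A2 * (X / k) / L ^ A2))) := by
    intro k hk
    rw [mem_Icc] at hk
    rw [sum_comm]
    have hj : ∀ j ∈ range (NJ B' X), ∑ q ∈ S, K0 *
        |Pool.BV.Ep (bt (kp B' X) X t k j) q (cc k q) -
          Pool.BV.Ep (al (kp B' X) X t k j) q (cc k q)| ≤
        K0 * (2 * ((10 : ℝ) ^ A2 * (X / k) / L ^ A2)) := ?_
    · refine (sum_le_sum hj).trans ?_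
      rw [sum_const, card_range, nsmul_eq_mul]
    intro j _
    rw [← mul_sum]
    apply mul_le_mul_of_nonneg_left _ hK0
    have hbt : bt (kp B' X) X t k j ≤ X / k :=
      (min_le_left _ _).trans (Nat.div_le_div_right ht)
    have hal : al (kp B' X) X t k j ≤ X / k := (min_le_left _ _).trans hbt
    by_cases hzk : zt X ≤ X / k
    · have e1 := h2 k hk.1 hzk (cc k) (fun _ => bt (kp B' X) X t k j) (fun q => (hcc k q).1)
        (fun _ => hbt) S (fun q hq => ⟨(hS q hq).1, (hS q hq).2.1⟩)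
      have e2 := h2 k hk.1 hzk (cc k) (fun _ => al (kp B' X) X t k j) (fun q => (hcc k q).1)
        (fun _ => hal) S (fun q hq => ⟨(hS q hq).1, (hS q hq).2.1⟩)
      have e3 : ∑ q ∈ S, |Pool.BV.Ep (bt (kp B' X) X t k j) q (cc k q) -
          Pool.BV.Ep (al (kp B' X) X t k j) q (cc k q)| ≤
          ∑ q ∈ S, |Pool.BV.Ep (bt (kp B' X) X t k j) q (cc k q)| +
          ∑ q ∈ S, |Pool.BV.Ep (al (kp B' X) X t k j) q (cc k q)| := by
        rw [← sum_add_distrib]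
        refine sum_le_sum fun q _ => ?_
        exact abs_sub _ _
      linarith
    · have hab : al (kp B' X) X t k j = bt (kp B' X) X t k j := by
        unfold al
        apply min_eq_left
        refine le_trans ?_ (le_max_right _ _)
        have hub : (zt X : ℝ) ≤ ub (kp B' X) (zt X) j := by
          unfold ub
          have h1 : 1 ≤ Real.exp (kp B' X * j) := Real.one_le_exp (by positivity)
          have h2 : (0 : ℝ) ≤ zt X := Nat.cast_nonneg _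
          nlinarith
        have hub' : zt X ≤ ⌈ub (kp B' X) (zt X) j⌉₊ := by
          have := hub.trans (Nat.le_ceil _)
          exact_mod_cast this
        omega
      rw [hab]
      have e4 : ∑ q ∈ S, |Pool.BV.Ep (bt (kp B' X) X t k j) q (cc k q) -
          Pool.BV.Ep (bt (kp B' X) X t k j) q (cc k q)| = 0 :=
        sum_eq_zero fun q _ => by rw [sub_self, abs_zero]
      rw [e4]
      positivity
  refine (sum_le_sum s2).trans ?_
  have s6 : ∑ k ∈ Icc 1 X, (NJ B' X : ℝ) * (K0 * (2 * ((10 : ℝ) ^ A2 * (X / k) / L ^ A2))) =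
      (NJ B' X : ℝ) * (2 * K0 * 10 ^ A2 * X / L ^ A2) * ∑ k ∈ Icc 1 X, 1 / (k : ℝ) := by
    rw [mul_sum]
    refine sum_congr rfl fun k _ => ?_
    ring
  rw [s6]
  have hNJ : (NJ B' X : ℝ) ≤ 2 * L ^ (B' + 1) := by
    unfold NJ
    push_cast
    have h1 := Nat.floor_le (show 0 ≤ (Real.log (X : ℝ)) ^ (B' + 1) by positivity)
    have h2 : 1 ≤ L ^ (B' + 1) := one_le_pow₀ hL1
    linarith
  have hh : ∑ k ∈ Icc 1 X, 1 / (k : ℝ) ≤ 2 * L := by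
    have := vp_harm X
    linarith
  have hh0 : 0 ≤ ∑ k ∈ Icc 1 X, 1 / (k : ℝ) := sum_nonneg fun k _ => by positivity
  calc (NJ B' X : ℝ) * (2 * K0 * 10 ^ A2 * X / L ^ A2) * ∑ k ∈ Icc 1 X, 1 / (k : ℝ)
      ≤ (2 * L ^ (B' + 1)) * (2 * K0 * 10 ^ A2 * X / L ^ A2) * (2 * L) := by gcongr
    _ = (8 * K0 * 10 ^ A2) * X / L ^ (A + 1) := by
      rw [eq_div_iff (by positivity)]
      have h1 : L ^ A2 = L ^ (B' + 1) * L * L ^ (A + 1) := by
        rw [hA2]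
        ring
      rw [h1]
      field_simp
      ring
    _ ≤ X / L ^ A := by
      rw [div_le_div_iff₀ (by positivity) (by positivity), pow_succ L A]
      have h1 : X * L ^ A * (8 * K0 * 10 ^ A2) ≤ X * L ^ A * L :=
        mul_le_mul_of_nonneg_left hLK (by positivity)
      nlinarith

/-! ### The models -/

/-- the model in a class minus the expected value -/
private theorem vp_g (B' D' : ℕ) (hD : 1 ≤ D') (K0 : ℝ) : ∃ η : ℝ, 0 < η ∧ η ≤ 1 / 4 ∧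
    ∃ X0 : ℕ, ∀ X : ℕ, X0 ≤ X → ∀ W : Finset ℕ → ℝ, (∀ T, |W T| ≤ K0) → ∀ a t : ℕ, t ≤ X →
    ∀ q : ℕ, 1 ≤ q → q ≤ X → Nat.Coprime a q →
    |∑ n ∈ (Icc 1 t).filter (fun n => n ≡ a [MOD q]),
        gty (kp B' X) X W n * f1 (wX D' X) n -
      (∑ n ∈ Icc 1 t, gty (kp B' X) X W n * f1 (wX D' X) n) / (Nat.totient q : ℝ)| ≤
      2 * (Real.log X) ^ (B' + 3) * (2 * (X : ℝ) ^ (1 - η) +
        1 / (Nat.totient q : ℝ) * (4 * X * Real.log X / (Real.log X) ^ D')) := by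
  classical
  obtain ⟨η, hη0, hη1, X1, h1⟩ := rough_any D' hD
  obtain ⟨C, X2, hC, hX2⟩ := gty_sup B' K0
  obtain ⟨X3, hX3⟩ := gty_var B' K0
  obtain ⟨X4, hX4⟩ := MP_log_large (max 1 C)
  refine ⟨η, hη0, hη1, max (max X1 X2) (max (max X3 X4) 1),
    fun X hX W hW a t ht q hq hqX hc => ?_⟩
  simp only [max_le_iff] at hX
  obtain ⟨⟨g1, g2⟩, ⟨g3, g4⟩, g5⟩ := hX
  have h1 := h1 X g1
  have h2 := hX2 X g2 W hW
  have h3 := hX3 X g3 W hW
  have h4 := hX4 X g4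
  have hL1 : 1 ≤ Real.log (X : ℝ) := (le_max_left _ _).trans h4
  have hLC : C ≤ Real.log (X : ℝ) := (le_max_right _ _).trans h4
  set L := Real.log (X : ℝ) with hL
  have hL0 : 0 < L := by linarith
  have hX0 : (0 : ℝ) ≤ X := Nat.cast_nonneg _
  have hφ : (0 : ℝ) < (Nat.totient q : ℝ) := by exact_mod_cast Nat.totient_pos.mpr hq
  have hφ1 : (1 : ℝ) ≤ (Nat.totient q : ℝ) := by exact_mod_cast Nat.totient_pos.mpr hq
  obtain ⟨w, hw⟩ : ∃ w, w = wX D' X := ⟨_, rfl⟩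
  rw [← hw] at h1 ⊢
  obtain ⟨g, hg⟩ : ∃ g : ℕ → ℝ, g = gty (kp B' X) X W := ⟨_, rfl⟩
  rw [← hg] at h2 h3 ⊢
  obtain ⟨d, hd⟩ : ∃ d : ℕ → ℝ, d = fun n => (if n ≡ a [MOD q] then f1 w n else 0) -
    f1 w n / (Nat.totient q : ℝ) := ⟨_, rfl⟩
  obtain ⟨M, hM⟩ : ∃ M : ℝ, M = 2 * (X : ℝ) ^ (1 - η) +
        1 / (Nat.totient q : ℝ) * (4 * X * L / L ^ D') := ⟨_, rfl⟩
  rw [← hM]
  have hS : ∀ s ≤ t, ‖∑ i ∈ Icc 1 s, ((d i : ℝ) : ℂ)‖ ≤ M := by
    intro s hs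
    have hsX : s ≤ X := hs.trans ht
    rw [← Complex.ofReal_sum, Complex.norm_real, Real.norm_eq_abs]
    have e1 : ∑ i ∈ Icc 1 s, d i =
        (∑ n ∈ (Icc 1 s).filter (fun n => n ≡ a [MOD q]), f1 w n -
          (s : ℝ) / (Nat.totient q : ℝ)) -
        (∑ n ∈ (Icc 1 s).filter (fun n => n ≡ 0 [MOD 1]), f1 w n -
          (s : ℝ) / (Nat.totient 1 : ℝ)) / (Nat.totient q : ℝ) := by
      have e2 : (Icc 1 s).filter (fun n => n ≡ 0 [MOD 1]) = Icc 1 s := by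
        ext n
        simp [Nat.modEq_one]
      rw [hd, Finset.sum_sub_distrib, ← Finset.sum_div, ← Finset.sum_filter, e2,
        Nat.totient_one, Nat.cast_one]
      ring
    have e2 := h1 q hq hqX a hc s hsX
    have e3 := h1 1 le_rfl g5 0 (by simp) s hsX
    rw [Nat.totient_one, Nat.cast_one] at e3
    have hsr : (s : ℝ) ≤ X := by exact_mod_cast hsX
    have e5 : (s : ℝ) / (Nat.totient q : ℝ) * (2 * L / L ^ D') ≤
        (X : ℝ) / (Nat.totient q : ℝ) * (2 * L / L ^ D') := by gcongr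
    have e6 : (s : ℝ) / 1 * (2 * L / L ^ D') ≤ (X : ℝ) * (2 * L / L ^ D') := by
      rw [div_one]
      gcongr
    have hXη : 0 ≤ (X : ℝ) ^ (1 - η) := by positivity
    rw [e1, Nat.totient_one, Nat.cast_one]
    refine (abs_sub _ _).trans ?_
    rw [abs_div, abs_of_pos hφ]
    have e7 : |∑ n ∈ (Icc 1 s).filter (fun n => n ≡ 0 [MOD 1]), f1 w n - (s : ℝ) / 1| /
        (Nat.totient q : ℝ) ≤ ((X : ℝ) ^ (1 - η) + (X : ℝ) * (2 * L / L ^ D')) /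
          (Nat.totient q : ℝ) :=
      div_le_div_of_nonneg_right (e3.trans (add_le_add le_rfl e6)) hφ.le
    have e8 : (X : ℝ) ^ (1 - η) / (Nat.totient q : ℝ) ≤ (X : ℝ) ^ (1 - η) :=
      div_le_self hXη hφ1
    calc _ ≤ ((X : ℝ) ^ (1 - η) + (X : ℝ) / (Nat.totient q : ℝ) * (2 * L / L ^ D')) +
          ((X : ℝ) ^ (1 - η) + (X : ℝ) * (2 * L / L ^ D')) / (Nat.totient q : ℝ) :=
          add_le_add (e2.trans (add_le_add le_rfl e5)) e7
      _ = (X : ℝ) ^ (1 - η) + (X : ℝ) ^ (1 - η) / (Nat.totient q : ℝ) +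
          1 / (Nat.totient q : ℝ) * (4 * X * L / L ^ D') := by ring
      _ ≤ M := by
          rw [hM]
          linarith
  have hT : |g t| + ∑ k ∈ Ico 1 t, |g (k + 1) - g k| ≤ 2 * L ^ (B' + 3) := by
    have e1 : |g t| ≤ 1 := (h2 t).trans ((div_le_one hL0).2 hLC)
    have e2 : ∑ k ∈ Ico 1 t, |g (k + 1) - g k| ≤ L ^ (B' + 3) := by
      refine le_trans ?_ h3
      exact sum_le_sum_of_subset_of_nonneg (Ico_subset_Ico le_rfl ht) fun _ _ _ => abs_nonneg _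
    have e3 : 1 ≤ L ^ (B' + 3) := one_le_pow₀ hL1
    linarith
  have hab := bv_abel t g (fun n => ((d n : ℝ) : ℂ)) M _ hS hT
  have e9 : ∑ k ∈ Icc 1 t, (g k : ℂ) * ((d k : ℝ) : ℂ) =
      ((∑ n ∈ (Icc 1 t).filter (fun n => n ≡ a [MOD q]), g n * f1 w n -
        (∑ n ∈ Icc 1 t, g n * f1 w n) / (Nat.totient q : ℝ) : ℝ) : ℂ) := by
    rw [sum_filter, sum_div, ← sum_sub_distrib, Complex.ofReal_sum]
    refine sum_congr rfl fun n _ => ?_
    rw [hd]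
    simp only
    split_ifs
    · push_cast
      ring
    · push_cast
      ring
  rw [e9, Complex.norm_real, Real.norm_eq_abs] at hab
  exact hab

/-- (V2a) -/
theorem pfT : PfT := by
  classical
  intro A B' K0 W hW
  obtain ⟨Xw, hXw⟩ := hW
  refine ⟨A + B' + 10, fun D' hD' => ?_⟩
  obtain ⟨η0, hη0, hη1, Xg, hg⟩ := vp_g B' D' (by omega) (K0 : ℝ)
  obtain ⟨Xa, ha⟩ := vp_w_avg (A + 1) B' (K0 : ℝ)
  obtain ⟨Xb, hb⟩ := cw_class (A + 3) 1 B' (K0 : ℝ)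
  obtain ⟨Xc, hc⟩ := cg_class (A + 3) 1 B' D' (by omega) (by omega) (K0 : ℝ)
  obtain ⟨η, hη⟩ : ∃ η : ℝ, η = min (1 / 40) (η0 / 2) := ⟨_, rfl⟩
  have hηp : 0 < η := by rw [hη]; positivity
  have hηa : η ≤ 1 / 40 := by rw [hη]; exact min_le_left _ _
  have hηb : η ≤ η0 / 2 := by rw [hη]; exact min_le_right _ _
  obtain ⟨Xd, hd⟩ := MP_log_pow 16 (A + B' + 3) (ε := η0 / 2) (by positivity)
  obtain ⟨Xe, he⟩ := MP_log_large 1000
  refine ⟨η, hηp, by linarith, max (max (max Xw Xg) (max Xa Xb)) (max (max Xc Xd) (max Xe 1)),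
    fun X hX a t ht => ?_⟩
  simp only [max_le_iff] at hX
  obtain ⟨⟨⟨g1, g2⟩, g3, g4⟩, ⟨g5, g6⟩, g7, g8⟩ := hX
  have hWX := hXw X g1
  have hg := hg X g2 (W X) hWX a t ht
  have hL1000 := he X g7
  have h6 := hd X g6
  obtain ⟨S, hS⟩ : ∃ S, S = (Icc 1 X).filter
    (fun k : ℕ => (k : ℝ) ≤ (X : ℝ) ^ η ∧ Nat.Coprime a k) := ⟨_, rfl⟩
  rw [← hS]
  have hXR : (1 : ℝ) ≤ X := by exact_mod_cast g8
  have hX0 : (0 : ℝ) < X := by linarith
  have hSm : ∀ k ∈ S, 1 ≤ k ∧ k ≤ X ∧ (k : ℝ) ≤ (X : ℝ) ^ η ∧ Nat.Coprime a k := by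
    intro k hk
    rw [hS, mem_filter, mem_Icc] at hk
    exact ⟨hk.1.1, hk.1.2, hk.2.1, hk.2.2⟩
  have ha := ha X g3 (W X) hWX a t ht S (fun q hq => ⟨(hSm q hq).1,
    (hSm q hq).2.2.1.trans (Real.rpow_le_rpow_of_exponent_le hXR hηa), (hSm q hq).2.2.2⟩)
  have hL1 : 1 ≤ Real.log (X : ℝ) := by linarith
  have hb := hb X g4 (W X) hWX 1 0 t le_rfl (by rw [Nat.cast_one, pow_one]; exact hL1)
    (by simp) ht
  have hc := hc X g5 (W X) hWX 1 0 t le_rfl (by rw [Nat.cast_one, pow_one]; exact hL1)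
    (by simp) ht
  have hfil : (Icc 1 t).filter (fun n => n ≡ 0 [MOD 1]) = Icc 1 t := by
    ext n
    simp [Nat.modEq_one]
  rw [hfil, Nat.totient_one, Nat.cast_one, div_one] at hb hc
  set L := Real.log (X : ℝ) with hL
  have hL0 : 0 < L := by linarith
  obtain ⟨w, hw⟩ : ∃ w, w = wX D' X := ⟨_, rfl⟩
  rw [← hw] at hg hc ⊢
  obtain ⟨sw, hsw⟩ : ∃ sw : ℝ, sw = ∑ n ∈ Icc 1 t, wty (kp B' X) X (W X) n := ⟨_, rfl⟩
  obtain ⟨sg, hsg⟩ : ∃ sg : ℝ, sg = ∑ n ∈ Icc 1 t, gty (kp B' X) X (W X) n * f1 w n := ⟨_, rfl⟩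
  rw [← hsw] at ha hb
  rw [← hsg] at hg hc
  have hsws : |sw - sg| ≤ 2 * (X / L ^ (A + 3)) := by
    have e1 : sw - sg = (sw - mt B' X (W X) t) - (sg - mt B' X (W X) t) := by ring
    rw [e1]
    refine (abs_sub _ _).trans ?_
    linarith
  -- one modulus
  have hone : ∀ q ∈ S, |∑ n ∈ (Icc 1 t).filter (fun n => n ≡ a [MOD q]),
      uI (wF B' W) (gF B' W) X w n| ≤
      |∑ n ∈ (Icc 1 t).filter (fun n => n ≡ a [MOD q]), wty (kp B' X) X (W X) n -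
        sw / (Nat.totient q : ℝ)| +
      (4 * L ^ (B' + 3) * (X : ℝ) ^ (1 - η0) + 1 / (Nat.totient q : ℝ) *
        (8 * L ^ (B' + 3) * (X * L / L ^ D') + 2 * (X / L ^ (A + 3)))) := by
    intro q hq
    obtain ⟨q1, q2, q3, q4⟩ := hSm q hq
    have hφ : (0 : ℝ) < (Nat.totient q : ℝ) := by exact_mod_cast Nat.totient_pos.mpr q1
    have e1 := hg q q1 q2 q4
    have e2 : ∑ n ∈ (Icc 1 t).filter (fun n => n ≡ a [MOD q]),
        uI (wF B' W) (gF B' W) X w n =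
        (∑ n ∈ (Icc 1 t).filter (fun n => n ≡ a [MOD q]), wty (kp B' X) X (W X) n -
          sw / (Nat.totient q : ℝ)) -
        (∑ n ∈ (Icc 1 t).filter (fun n => n ≡ a [MOD q]),
          gty (kp B' X) X (W X) n * f1 w n - sg / (Nat.totient q : ℝ)) +
        (sw - sg) / (Nat.totient q : ℝ) := by
      have e3 : ∑ n ∈ (Icc 1 t).filter (fun n => n ≡ a [MOD q]),
          uI (wF B' W) (gF B' W) X w n =
          ∑ n ∈ (Icc 1 t).filter (fun n => n ≡ a [MOD q]), wty (kp B' X) X (W X) n -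
          ∑ n ∈ (Icc 1 t).filter (fun n => n ≡ a [MOD q]),
            gty (kp B' X) X (W X) n * f1 w n := by
        rw [← sum_sub_distrib]
        rfl
      rw [e3]
      ring
    rw [e2]
    refine (abs_add_le _ _).trans ?_
    have e4 : |(sw - sg) / (Nat.totient q : ℝ)| ≤
        1 / (Nat.totient q : ℝ) * (2 * (X / L ^ (A + 3))) := by
      rw [abs_div, abs_of_pos hφ, div_mul_eq_mul_div, one_mul]
      exact div_le_div_of_nonneg_right hsws hφ.le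
    refine (add_le_add (abs_sub _ _) e4).trans ?_
    have e5 : 2 * L ^ (B' + 3) * (2 * (X : ℝ) ^ (1 - η0) +
        1 / (Nat.totient q : ℝ) * (4 * X * L / L ^ D')) =
        4 * L ^ (B' + 3) * (X : ℝ) ^ (1 - η0) + 1 / (Nat.totient q : ℝ) *
          (8 * L ^ (B' + 3) * (X * L / L ^ D')) := by ring
    rw [e5] at e1
    rw [mul_add]
    linarith
  refine (sum_le_sum hone).trans ?_
  rw [sum_add_distrib, sum_add_distrib, sum_const, nsmul_eq_mul, ← sum_mul]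
  have hcard : (S.card : ℝ) ≤ (X : ℝ) ^ η := by
    have h1 : S ⊆ Icc 1 ⌊(X : ℝ) ^ η⌋₊ := by
      intro k hk
      exact mem_Icc.2 ⟨(hSm k hk).1, Nat.le_floor (hSm k hk).2.2.1⟩
    have h2 := card_le_card h1
    rw [Nat.card_Icc, Nat.add_sub_cancel] at h2
    calc (S.card : ℝ) ≤ (⌊(X : ℝ) ^ η⌋₊ : ℝ) := by exact_mod_cast h2
      _ ≤ (X : ℝ) ^ η := Nat.floor_le (by positivity)
  have htot : ∑ k ∈ S, 1 / (Nat.totient k : ℝ) ≤ 12 * L ^ 2 := by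
    have e1 : ∑ k ∈ S, 1 / (Nat.totient k : ℝ) ≤ ∑ k ∈ Icc 1 X, 1 / (Nat.totient k : ℝ) := by
      refine Finset.sum_le_sum_of_subset_of_nonneg ?_ fun _ _ _ => by positivity
      intro k hk
      obtain ⟨hk3, hk4, _⟩ := hSm k hk
      exact mem_Icc.2 ⟨hk3, hk4⟩
    have e2 := Pool.BV.tot_sum X g8
    rw [← hL] at e2
    have e3 : (1 + L) ^ 2 ≤ (2 * L) ^ 2 := pow_le_pow_left₀ (by linarith) (by linarith) _
    nlinarith
  have hT0 : 0 < (X : ℝ) / L ^ A := by positivity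
  have p1 : X / L ^ (A + 1) ≤ 1 / 1000 * (X / L ^ A) := by
    rw [pow_succ, ← div_div, div_le_iff₀ hL0]
    nlinarith
  have p2 : (S.card : ℝ) * (4 * L ^ (B' + 3) * (X : ℝ) ^ (1 - η0)) ≤ 1 / 4 * (X / L ^ A) := by
    have hLA : 0 < L ^ A := by positivity
    rw [← mul_div_assoc, le_div_iff₀ hLA]
    have e1 : (X : ℝ) ^ (η0 / 2) * (X : ℝ) ^ (1 - η0) * (X : ℝ) ^ (η0 / 2) = X := by
      rw [← Real.rpow_add hX0, ← Real.rpow_add hX0]
      have : η0 / 2 + (1 - η0) + η0 / 2 = 1 := by ring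
      rw [this, Real.rpow_one]
    have e2 : (S.card : ℝ) ≤ (X : ℝ) ^ (η0 / 2) :=
      hcard.trans (Real.rpow_le_rpow_of_exponent_le hXR hηb)
    calc (S.card : ℝ) * (4 * L ^ (B' + 3) * (X : ℝ) ^ (1 - η0)) * L ^ A ≤
        (X : ℝ) ^ (η0 / 2) * (4 * L ^ (B' + 3) * (X : ℝ) ^ (1 - η0)) * L ^ A := by gcongr
      _ = 1 / 4 * ((X : ℝ) ^ (η0 / 2) * (X : ℝ) ^ (1 - η0)) * (16 * L ^ (A + B' + 3)) := by
          rw [show A + B' + 3 = A + (B' + 3) by omega, pow_add L A (B' + 3)]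
          ring
      _ ≤ 1 / 4 * ((X : ℝ) ^ (η0 / 2) * (X : ℝ) ^ (1 - η0)) * (X : ℝ) ^ (η0 / 2) := by gcongr
      _ = 1 / 4 * X := by rw [mul_assoc, e1]
  have p3 : (∑ k ∈ S, 1 / (Nat.totient k : ℝ)) *
      (8 * L ^ (B' + 3) * (X * L / L ^ D') + 2 * (X / L ^ (A + 3))) ≤
      1 / 4 * (X / L ^ A) := by
    have e1 : L ^ (B' + 3) * (X * L / L ^ D') ≤ X / L ^ (A + 3) := by
      rw [mul_div_assoc', div_le_div_iff₀ (by positivity) (by positivity)]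
      have e2 : L ^ (B' + 3) * L * L ^ (A + 3) ≤ L ^ D' := by
        rw [← pow_succ, ← pow_add]
        exact pow_le_pow_right₀ hL1 (by omega)
      calc L ^ (B' + 3) * (X * L) * L ^ (A + 3) = X * (L ^ (B' + 3) * L * L ^ (A + 3)) := by ring
        _ ≤ X * L ^ D' := mul_le_mul_of_nonneg_left e2 hX0.le
    have e3 : 8 * L ^ (B' + 3) * (X * L / L ^ D') + 2 * (X / L ^ (A + 3)) ≤
        10 * (X / L ^ (A + 3)) := by linarith
    have e4 : 0 ≤ 8 * L ^ (B' + 3) * (X * L / L ^ D') + 2 * (X / L ^ (A + 3)) := by positivity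
    have e5 : L ^ 2 * (X / L ^ (A + 3)) = X / L ^ (A + 1) := by
      rw [show A + 3 = 2 + (A + 1) by omega, pow_add L 2 (A + 1)]
      field_simp
    calc (∑ k ∈ S, 1 / (Nat.totient k : ℝ)) *
        (8 * L ^ (B' + 3) * (X * L / L ^ D') + 2 * (X / L ^ (A + 3))) ≤
        (12 * L ^ 2) * (10 * (X / L ^ (A + 3))) :=
          mul_le_mul htot e3 e4 (by positivity)
      _ = 120 * (X / L ^ (A + 1)) := by rw [← e5]; ring
      _ ≤ 1 / 4 * (X / L ^ A) := by linarith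
  linarith

end Pool.MP_dd84fd_nt.BY
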