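import Pool.Agent.Lib.MP_dd84fd_nt.BY.VFin
import Pool.Agent.Lib.MP_dd84fd_nt.BY.VPfA
import Pool.Agent.Lib.MP_dd84fd_nt.XP.TwoP

/-!
# BY-VRes: the two statements, from `GrY`

The clause on `n = 2p` is the landed one (`MX.fin_m`, `LX.fin_l` with `XP.two_p`).
-/

set_option autoImplicit false

namespace Pool.MP_dd84fd_nt.BY

open Finset Pool.MP_dd84fd_nt.En Pool.MP_dd84fd_nt.E2
open Pool.MP_dd84fd_nt.LX Pool.MP_dd84fd_nt.MX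

open Classical in
/-- exponent 1/7 -/
theorem res_m (hG : GrY) : ∀ ε : ℝ, 0 < ε → ∃ M : ℕ, ∀ θ : ℝ, 1 / 7 ≤ θ → θ ≤ 1 → ∀ K : ℕ,
    ∃ X₀ : ℕ, ∀ X : ℕ, X₀ ≤ X →
      (((Icc 1 X).filter (fun p : ℕ => p.Prime ∧ BadM (1 / 40) 2 (2 * p))).card : ℝ) ≤
        (X : ℝ) ^ (θ + ε) ∧
      ∃ D : Finset ℕ, D.card ≤ M ∧
        (∀ d ∈ D, Real.log X ^ K ≤ (d : ℝ) ∧ (d : ℝ) ≤ (X : ℝ) ^ (1 - θ) ∧ ExplY M X d) ∧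
        (((Icc 1 X).filter (fun n : ℕ => X < 2 * n ∧ Even n ∧ (∀ d ∈ D, ¬ d ∣ n) ∧
          BadM (1 / 40) 2 n)).card : ℝ) ≤ (X : ℝ) ^ (θ + ε) := by
  intro ε hε
  obtain ⟨M, hM⟩ := fin_my hG pfT ε hε
  obtain ⟨C, hC⟩ := Pool.MP_dd84fd_nt.MX.fin_m
  refine ⟨M, fun θ h1 h2 K => ?_⟩
  obtain ⟨X1, hX1⟩ := Pool.MP_dd84fd_nt.XP.two_p (P := BadM (1 / 40) 2) (θ := θ) (ε := ε)
    h1 hε (by
      obtain ⟨Y, hY⟩ := hC θ (ε / 2) h1 h2 (by linarith) 1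
      refine ⟨Y, fun X hX => ?_⟩
      obtain ⟨D, d1, d2, d3⟩ := hY X hX
      exact ⟨D, fun d hd => (d2 d hd).1, d3 _ _ fun n hn => hn⟩)
  obtain ⟨X0, hX0⟩ := hM θ h1 K
  refine ⟨max X0 X1, fun X hX => ⟨hX1 X (le_trans (le_max_right _ _) hX), ?_⟩⟩
  obtain ⟨D, d1, d2, d3⟩ := hX0 X (le_trans (le_max_left _ _) hX)
  exact ⟨D, d1, d2, d3 _ _ fun n hn => hn⟩

open Classical in
/-- exponent 1/5 -/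
theorem res_l (hG : GrY) : ∀ θ ε : ℝ, 1 / 5 ≤ θ → θ < 1 / 3 → 0 < ε → ∃ M : ℕ, ∀ K : ℕ,
    ∃ X₀ : ℕ, ∀ X : ℕ, X₀ ≤ X →
      (((Icc 1 X).filter (fun p : ℕ => p.Prime ∧ BadL 4 θ (2 * p))).card : ℝ) ≤
        (X : ℝ) ^ (θ + ε) ∧
      ∃ D : Finset ℕ, D.card ≤ M ∧
        (∀ d ∈ D, Real.log X ^ K ≤ (d : ℝ) ∧ (d : ℝ) ≤ (X : ℝ) ^ (1 - θ) ∧ ExplY M X d) ∧
        (((Icc 1 X).filter (fun n : ℕ => X < 2 * n ∧ Even n ∧ (∀ d ∈ D, ¬ d ∣ n) ∧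
          BadL 4 θ n)).card : ℝ) ≤ (X : ℝ) ^ (θ + ε) := by
  intro θ ε h1 h2 hε
  obtain ⟨M, hM⟩ := fin_ly hG pfT θ ε h1 h2 hε
  obtain ⟨C, hC⟩ := Pool.MP_dd84fd_nt.LX.fin_l
  refine ⟨M, fun K => ?_⟩
  obtain ⟨X1, hX1⟩ := Pool.MP_dd84fd_nt.XP.two_p (P := BadL 4 θ) (θ := θ) (ε := ε)
    (by linarith) hε (by
      obtain ⟨Y, hY⟩ := hC θ (ε / 2) h1 h2 (by linarith) 1
      refine ⟨Y, fun X hX => ?_⟩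
      obtain ⟨D, d1, d2, d3⟩ := hY X hX
      exact ⟨D, fun d hd => (d2 d hd).1, d3 _ _ fun n hn => hn⟩)
  obtain ⟨X0, hX0⟩ := hM K
  refine ⟨max X0 X1, fun X hX => ⟨hX1 X (le_trans (le_max_right _ _) hX), ?_⟩⟩
  obtain ⟨D, d1, d2, d3⟩ := hX0 X (le_trans (le_max_left _ _) hX)
  exact ⟨D, d1, d2, d3 _ _ fun n hn => hn⟩

end Pool.MP_dd84fd_nt.BY
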