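import Pool.Agent.Lib.MP_dd84fd_nt.BY.Ay7
import Pool.Agent.Lib.MP_dd84fd_nt.BY.SSl
import Pool.Agent.Lib.MP_dd84fd_nt.BY.ArE
import Pool.Agent.Lib.MP_dd84fd_nt.BY.ArS
import Pool.Agent.Lib.MP_dd84fd_nt.BY.ArMM
import Pool.Agent.Lib.MP_dd84fd_nt.BY.FamY
import Pool.Agent.Lib.MP_dd84fd_nt.BY.SlR
import Pool.Agent.Lib.MP_dd84fd_nt.BY.ExA
import Pool.Agent.Lib.MP_dd84fd_nt.BY.SqHv
import Pool.Agent.Lib.MP_dd84fd_nt.BY.Pr
import Pool.Agent.Lib.MP_dd84fd_nt.BX.Gau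
import Pool.Agent.Lib.MP_dd84fd_nt.BX.CSl
import Pool.Agent.Lib.MP_dd84fd_nt.DX.LtMain
import Pool.Agent.Lib.MP_dd84fd_nt.BY.VRes

/-!
# BY-Main: the greedy statement for all families
-/

set_option autoImplicit false

namespace Pool.MP_dd84fd_nt.BY

theorem grY : GrY :=
  grY_of (arcBY (arcNar meanY modY (smlY modY) DX.lightE)) famY slA (slR BX.l1P) exY sqY hvY prY
    BX.gauBD BX.parBD

end Pool.MP_dd84fd_nt.BY
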