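import Pool.Agent.Lib.MP_dd84fd_nt.BY.SDefs
import Pool.Agent.Lib.MP_dd84fd_nt.BX.CNt

/-!
# BY/SBil (0.8 h): cells and bilinear forms, Minkowski in `l²(Y × t)` (helper18)

`bilK_sum`: exchange; for fixed `a ∈ (U, V]`, `n = a k`, `α < a k ≤ β` iff `α / a < k ≤ β / a`
(`Nat.div_lt_iff_lt_mul`, `Nat.le_div_iff_mul_le`); `f (a k) = f a f k`; the divisors `a` of `n` with
`U < a`, `A a ≠ 0` satisfy `a ≤ V`.
`mink`: `∑_i nt(∑_a g a i)² = ‖∑_a G a‖²` in `l²(Y × [1, T])`; triangle inequality: induction on `s` with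
`√(∑_i (x_i + y_i)²) ≤ √(∑ x_i²) + √(∑ y_i²)` (e.g. `Real.Lp_add_le`, or
`norm_add_le` in `EuclideanSpace`) and `nt_add`.
-/

set_option autoImplicit false

namespace Pool.MP_dd84fd_nt.BY

open Finset
open Pool.MP_dd84fd_nt.BX (ChF nt Cells Bil)

theorem bilK_sum (A : ℕ → ℂ) (B : ℕ → ℕ → ℂ) (U V : ℕ) (f : ℕ → ℂ)
    (hm : ∀ m n, f (m * n) = f m * f n) (hA : ∀ a, U < a → A a ≠ 0 → a ≤ V) (α β : ℕ) :
    ∑ n ∈ Ioc α β, (∑ a ∈ n.divisors.filter (fun a => U < a), A a * B a (n / a)) * f n =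
      BilK A B U V f α β := by
  unfold BilK
  have h1 : ∀ n ∈ Ioc α β, (∑ a ∈ n.divisors.filter (fun a => U < a), A a * B a (n / a)) * f n =
      ∑ a ∈ Ioc U V, if a ∣ n then A a * B a (n / a) * f n else 0 := by
    intro n hn
    have hn0 : n ≠ 0 := by
      have := (mem_Ioc.1 hn).1
      omega
    rw [sum_mul, ← sum_filter]
    symm
    refine sum_subset ?_ ?_
    · intro a ha
      obtain ⟨ha1, ha2⟩ := mem_filter.1 ha
      exact mem_filter.2 ⟨Nat.mem_divisors.2 ⟨ha2, hn0⟩, (mem_Ioc.1 ha1).1⟩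
    · intro a ha ha'
      obtain ⟨ha1, ha2⟩ := mem_filter.1 ha
      have h2 : A a = 0 := by
        by_contra h3
        exact ha' (mem_filter.2 ⟨mem_Ioc.2 ⟨ha2, hA a ha2 h3⟩, (Nat.mem_divisors.1 ha1).1⟩)
      rw [h2, zero_mul, zero_mul]
  rw [sum_congr rfl h1, sum_comm]
  refine sum_congr rfl fun a ha => ?_
  have ha0 : 0 < a := by
    have := (mem_Ioc.1 ha).1
    omega
  rw [← sum_filter, mul_sum]
  symm
  refine sum_bij (fun k _ => a * k) ?_ ?_ ?_ ?_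
  · intro k hk
    obtain ⟨hk1, hk2⟩ := mem_Ioc.1 hk
    refine mem_filter.2 ⟨mem_Ioc.2 ⟨?_, ?_⟩, Dvd.intro k rfl⟩
    · rw [mul_comm]
      exact (Nat.div_lt_iff_lt_mul ha0).1 hk1
    · rw [mul_comm]
      exact (Nat.le_div_iff_mul_le ha0).1 hk2
  · intro k _ l _ h
    exact Nat.eq_of_mul_eq_mul_left ha0 h
  · intro n hn
    obtain ⟨hn1, k, rfl⟩ := mem_filter.1 hn
    obtain ⟨hn2, hn3⟩ := mem_Ioc.1 hn1
    refine ⟨k, mem_Ioc.2 ⟨?_, ?_⟩, rfl⟩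
    · refine (Nat.div_lt_iff_lt_mul ha0).2 ?_
      rw [mul_comm]
      exact hn2
    · refine (Nat.le_div_iff_mul_le ha0).2 ?_
      rw [mul_comm]
      exact hn3
  · intro k _
    rw [Nat.mul_div_cancel_left k ha0, hm]
    ring

theorem bilK_bil (A B : ℕ → ℂ) (U V : ℕ) (f : ℕ → ℂ) (α β : ℕ) :
    BilK A (fun _ k => B k) U V f α β = Bil A B U V f α β := rfl

private theorem SBil_cauchy {ι : Type} (Y : Finset ι) (a b : ι → ℝ) (A B : ℝ) (hA : 0 ≤ A)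
    (hB : 0 ≤ B) (h1 : ∑ t ∈ Y, a t ^ 2 ≤ A ^ 2) (h2 : ∑ t ∈ Y, b t ^ 2 ≤ B ^ 2) :
    ∑ t ∈ Y, a t * b t ≤ A * B := by
  have h3 := sum_mul_sq_le_sq_mul_sq Y a b
  have h4 : (∑ t ∈ Y, a t * b t) ^ 2 ≤ (A * B) ^ 2 := by
    calc (∑ t ∈ Y, a t * b t) ^ 2 ≤ (∑ t ∈ Y, a t ^ 2) * ∑ t ∈ Y, b t ^ 2 := h3
      _ ≤ A ^ 2 * B ^ 2 := mul_le_mul h1 h2 (sum_nonneg fun _ _ => by positivity) (by positivity)
      _ = (A * B) ^ 2 := by ring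
  exact (abs_le_of_sq_le_sq' h4 (by positivity)).2

theorem mink {ι κ : Type} (Y : Finset ι) (T : ℕ) (s : Finset κ) (g : κ → ι → ℕ → ℂ) (K : κ → ℝ)
    (hK : ∀ a ∈ s, 0 ≤ K a) (h : ∀ a ∈ s, ∑ i ∈ Y, nt T (g a i) ^ 2 ≤ K a ^ 2) :
    ∑ i ∈ Y, nt T (fun t => ∑ a ∈ s, g a i t) ^ 2 ≤ (∑ a ∈ s, K a) ^ 2 := by
  calc ∑ i ∈ Y, nt T (fun t => ∑ a ∈ s, g a i t) ^ 2
      ≤ ∑ i ∈ Y, (∑ a ∈ s, nt T (g a i)) ^ 2 :=
        sum_le_sum fun i _ => pow_le_pow_left₀ (BX.nt_nonneg T _)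
          (BX.nt_sum T s (fun a => g a i)) 2
    _ = ∑ i ∈ Y, ∑ a ∈ s, ∑ b ∈ s, nt T (g a i) * nt T (g b i) :=
        sum_congr rfl fun i _ => by rw [pow_two, sum_mul_sum]
    _ = ∑ a ∈ s, ∑ b ∈ s, ∑ i ∈ Y, nt T (g a i) * nt T (g b i) := by
        rw [sum_comm]
        exact sum_congr rfl fun a _ => sum_comm
    _ ≤ ∑ a ∈ s, ∑ b ∈ s, K a * K b :=
        sum_le_sum fun a ha => sum_le_sum fun b hb =>
          SBil_cauchy Y (fun i => nt T (g a i)) (fun i => nt T (g b i)) (K a) (K b) (hK a ha)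
            (hK b hb) (h a ha) (h b hb)
    _ = (∑ a ∈ s, K a) ^ 2 := by rw [pow_two, sum_mul_sum]

/-- the terms `g a = coefficient times inner sum` -/
theorem mink_cells {ι : Type} (Y : Finset ι) (T : ℕ) (s : Finset ℕ) (A : ℕ → ℂ)
    (f : ι → ℕ → ℂ) (hf : ∀ i ∈ Y, ∀ n, ‖f i n‖ ≤ 1) (g : ℕ → ι → ℕ → ℂ) (K : ℕ → ℝ)
    (hK : ∀ a ∈ s, 0 ≤ K a)
    (h : ∀ a ∈ s, A a ≠ 0 → ∀ t ∈ Icc 1 T, ∑ i ∈ Y, ‖g a i t‖ ^ 2 ≤ K a ^ 2) :
    ∑ i ∈ Y, nt T (fun t => ∑ a ∈ s, A a * f i a * g a i t) ^ 2 ≤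
      (Real.sqrt T * ∑ a ∈ s, ‖A a‖ * K a) ^ 2 := by
  rw [mul_sum]
  refine mink Y T s (fun a i t => A a * f i a * g a i t)
    (fun a => Real.sqrt T * (‖A a‖ * K a)) ?_ ?_
  · intro a ha
    have := hK a ha
    positivity
  · intro a ha
    have hKa := hK a ha
    have h1 : ∑ i ∈ Y, nt T (fun t => A a * f i a * g a i t) ^ 2 =
        ∑ t ∈ Icc 1 T, ∑ i ∈ Y, ‖A a * f i a * g a i t‖ ^ 2 := by
      rw [sum_comm]
      exact sum_congr rfl fun i _ => BX.nt_sq T _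
    have h2 : ∀ t ∈ Icc 1 T, ∑ i ∈ Y, ‖A a * f i a * g a i t‖ ^ 2 ≤ (‖A a‖ * K a) ^ 2 := by
      intro t ht
      by_cases hA0 : A a = 0
      · have h3 : ∑ i ∈ Y, ‖A a * f i a * g a i t‖ ^ 2 = 0 := by
          refine sum_eq_zero fun i _ => ?_
          rw [hA0, zero_mul, zero_mul, norm_zero, zero_pow two_ne_zero]
        rw [h3]
        positivity
      · calc ∑ i ∈ Y, ‖A a * f i a * g a i t‖ ^ 2 ≤ ∑ i ∈ Y, ‖A a‖ ^ 2 * ‖g a i t‖ ^ 2 := by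
              refine sum_le_sum fun i hi => ?_
              rw [norm_mul, norm_mul, mul_pow, mul_pow]
              have h4 : ‖f i a‖ ^ 2 ≤ 1 := pow_le_one₀ (norm_nonneg _) (hf i hi a)
              have h5 : ‖A a‖ ^ 2 * ‖f i a‖ ^ 2 ≤ ‖A a‖ ^ 2 * 1 :=
                mul_le_mul_of_nonneg_left h4 (by positivity)
              rw [mul_one] at h5
              exact mul_le_mul_of_nonneg_right h5 (by positivity)
          _ = ‖A a‖ ^ 2 * ∑ i ∈ Y, ‖g a i t‖ ^ 2 := by rw [mul_sum]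
          _ ≤ ‖A a‖ ^ 2 * K a ^ 2 :=
              mul_le_mul_of_nonneg_left (h a ha hA0 t ht) (by positivity)
          _ = (‖A a‖ * K a) ^ 2 := by ring
    rw [h1]
    calc ∑ t ∈ Icc 1 T, ∑ i ∈ Y, ‖A a * f i a * g a i t‖ ^ 2
        ≤ ∑ _t ∈ Icc 1 T, (‖A a‖ * K a) ^ 2 := sum_le_sum h2
      _ = (Real.sqrt T * (‖A a‖ * K a)) ^ 2 := by
          rw [sum_const, Nat.card_Icc, nsmul_eq_mul, mul_pow (Real.sqrt T),
            Real.sq_sqrt (Nat.cast_nonneg _)]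
          simp

end Pool.MP_dd84fd_nt.BY
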