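import Pool.Agent.Lib.MP_dd84fd_nt.BX.Gal
import Pool.Agent.Lib.MP_dd84fd_nt.BY.Defs

/-!
# BY/SCel (0.8 h): from the exponential sum to the cells (helper23's `BX.sl_norm` for a general weight)

As helper23's /team-store/BX_mod_Sl.lean (`sl_main`, `sl_err`, `sl_pars`, `sl_norm`: copy, do not import) with `w`, `|w n| ≤ K0`, in place of
`wP X`: `n ≤ h` contributes `≤ K0 h`, `|e(nx) - e(thx)| ≤ 2 π h |x|` on the cells (`K0 X` terms).
-/

set_option autoImplicit false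

namespace Pool.MP_dd84fd_nt.BY

open Finset Pool.MP_67663b_nt.Odd
open Pool.MP_dd84fd_nt.BX (PC pv nt)

private theorem sc_cont (X : ℕ) (w : ℕ → ℝ) (ψ : PC) : Continuous fun x : ℝ => SXf X w ψ x := by
  unfold SXf
  refine continuous_finsetSum _ (fun n _ => ?_)
  refine continuous_const.mul ?_
  unfold ee
  fun_prop

private theorem sc_contA (X h : ℕ) (G : ℕ → ℂ) :
    Continuous fun x : ℝ => ∑ t ∈ Icc 1 (X / h), G t * ee ((t : ℝ) * (h * x)) := by
  refine continuous_finsetSum _ (fun n _ => ?_)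
  refine continuous_const.mul ?_
  unfold ee
  fun_prop

private noncomputable def sc_G (X h : ℕ) (w : ℕ → ℝ) (ψ : PC) (t : ℕ) : ℂ :=
  ∑ n ∈ Ioc (t * h) (min ((t + 1) * h) X), ((w n : ℝ) : ℂ) * pv ψ n

private theorem sc_w_le (w : ℕ → ℝ) (K0 : ℝ) (hw : ∀ n, |w n| ≤ K0) (n : ℕ) :
    ‖((w n : ℝ) : ℂ)‖ ≤ K0 := by
  rw [Complex.norm_real, Real.norm_eq_abs]
  exact hw n

private theorem sc_pv_le (ψ : PC) (n : ℕ) : ‖pv ψ n‖ ≤ 1 := by
  unfold pv
  exact DirichletCharacter.norm_le_one _ _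

private theorem sc_main (X h : ℕ) (hh : 1 ≤ h) (w : ℕ → ℝ) (ψ : PC) (x : ℝ) :
    ∑ n ∈ Ioc h X, ((w n : ℝ) : ℂ) * pv ψ n * ee ((((n - 1) / h : ℕ) : ℝ) * (h * x)) =
      ∑ t ∈ Icc 1 (X / h), sc_G X h w ψ t * ee ((t : ℝ) * (h * x)) := by
  have hmaps : ∀ n ∈ Ioc h X, (n - 1) / h ∈ Icc 1 (X / h) := by
    intro n hn
    rw [mem_Ioc] at hn
    rw [mem_Icc]
    refine ⟨(Nat.le_div_iff_mul_le (by omega)).2 (by omega), Nat.div_le_div_right (by omega)⟩
  rw [← sum_fiberwise_of_maps_to hmaps]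
  refine sum_congr rfl fun t ht => ?_
  rw [mem_Icc] at ht
  have hfib : (Ioc h X).filter (fun n => (n - 1) / h = t) = Ioc (t * h) (min ((t + 1) * h) X) := by
    ext n
    rw [mem_filter, mem_Ioc, mem_Ioc, Nat.div_eq_iff (by omega : 0 < h), le_min_iff]
    have h1 : h ≤ t * h := Nat.le_mul_of_pos_left h (by omega)
    have h2 : (t + 1) * h = t * h + h := by ring
    constructor
    · rintro ⟨⟨h3, h4⟩, h5, h6⟩
      omega
    · rintro ⟨h3, h4, h5⟩
      omega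
  rw [hfib, sc_G, sum_mul]
  refine sum_congr rfl fun n hn => ?_
  have hn' : n ∈ (Ioc h X).filter (fun n => (n - 1) / h = t) := by rw [hfib]; exact hn
  rw [mem_filter, mem_Ioc] at hn'
  rw [hn'.2]

private theorem sc_err (X h : ℕ) (T : ℝ) (hT : 1 ≤ T) (hX : 1 ≤ X) (hh : 1 ≤ h) (hhX : h ≤ X)
    (w : ℕ → ℝ) (K0 : ℝ) (hw : ∀ n, |w n| ≤ K0) (ψ : PC) (x : ℝ) (hx : |x| ≤ T / X) :
    ‖SXf X w ψ x - ∑ t ∈ Icc 1 (X / h), sc_G X h w ψ t * ee ((t : ℝ) * (h * x))‖ ≤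
      K0 * (8 * h * T) := by
  have hK0 : 0 ≤ K0 := (abs_nonneg _).trans (hw 0)
  have hX0 : (0 : ℝ) < X := by exact_mod_cast hX
  have hh0 : (0 : ℝ) < h := by exact_mod_cast hh
  rw [← sc_main X h hh w ψ x]
  have hsplit : SXf X w ψ x = ∑ n ∈ Icc 1 h, ((w n : ℝ) : ℂ) * pv ψ n * ee ((n : ℝ) * x) +
      ∑ n ∈ Ioc h X, ((w n : ℝ) : ℂ) * pv ψ n * ee ((n : ℝ) * x) := by
    unfold SXf
    have h1 : Icc 1 X = Icc 1 h ∪ Ioc h X := by
      ext n
      simp only [mem_union, mem_Icc, mem_Ioc]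
      omega
    rw [h1, sum_union]
    rw [Finset.disjoint_left]
    intro n h2 h3
    rw [mem_Icc] at h2
    rw [mem_Ioc] at h3
    omega
  rw [hsplit, add_sub_assoc, ← sum_sub_distrib]
  have e1 : ‖∑ n ∈ Icc 1 h, ((w n : ℝ) : ℂ) * pv ψ n * ee ((n : ℝ) * x)‖ ≤ h * K0 := by
    refine (norm_sum_le _ _).trans ?_
    calc ∑ n ∈ Icc 1 h, ‖((w n : ℝ) : ℂ) * pv ψ n * ee ((n : ℝ) * x)‖
        ≤ ∑ n ∈ Icc 1 h, K0 := by
          refine sum_le_sum fun n _ => ?_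
          rw [norm_mul, norm_mul, norm_ee, mul_one]
          calc ‖((w n : ℝ) : ℂ)‖ * ‖pv ψ n‖ ≤ K0 * 1 :=
                mul_le_mul (sc_w_le w K0 hw n) (sc_pv_le ψ n) (norm_nonneg _) hK0
            _ = K0 := mul_one _
      _ = h * K0 := by simp
  have e2 : ‖∑ n ∈ Ioc h X, (((w n : ℝ) : ℂ) * pv ψ n * ee ((n : ℝ) * x) -
      ((w n : ℝ) : ℂ) * pv ψ n * ee ((((n - 1) / h : ℕ) : ℝ) * (h * x)))‖ ≤
      K0 * (2 * Real.pi * h * T) := by
    refine (norm_sum_le _ _).trans ?_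
    calc ∑ n ∈ Ioc h X, ‖((w n : ℝ) : ℂ) * pv ψ n * ee ((n : ℝ) * x) -
          ((w n : ℝ) : ℂ) * pv ψ n * ee ((((n - 1) / h : ℕ) : ℝ) * (h * x))‖
        ≤ ∑ n ∈ Ioc h X, (K0 * (2 * Real.pi * (h * (T / X)))) := by
          refine sum_le_sum fun n hn => ?_
          rw [mem_Ioc] at hn
          rw [← mul_sub, norm_mul, norm_mul]
          have h1 := norm_ee_sub_ee_le ((n : ℝ) * x) ((((n - 1) / h : ℕ) : ℝ) * (h * x))
          have h2 : |(n : ℝ) * x - (((n - 1) / h : ℕ) : ℝ) * (h * x)| ≤ h * (T / X) := by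
            have h3 : (n : ℝ) * x - (((n - 1) / h : ℕ) : ℝ) * (h * x) =
                ((n : ℝ) - (((n - 1) / h * h : ℕ) : ℝ)) * x := by push_cast; ring
            rw [h3, abs_mul]
            refine mul_le_mul ?_ hx (abs_nonneg _) hh0.le
            have h4 := Nat.div_add_mod (n - 1) h
            have h5 := Nat.mod_lt (n - 1) (by omega : 0 < h)
            have h6 : (n - 1) / h * h = h * ((n - 1) / h) := Nat.mul_comm _ _
            have h7 : (n - 1) / h * h ≤ n := by omega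
            have h8 : n - (n - 1) / h * h ≤ h := by omega
            rw [abs_of_nonneg (by
              have : (((n - 1) / h * h : ℕ) : ℝ) ≤ n := by exact_mod_cast h7
              linarith)]
            have h9 : (n : ℝ) ≤ h + (((n - 1) / h * h : ℕ) : ℝ) := by
              exact_mod_cast (by omega : n ≤ h + (n - 1) / h * h)
            linarith
          calc ‖((w n : ℝ) : ℂ)‖ * ‖pv ψ n‖ *
                ‖ee ((n : ℝ) * x) - ee ((((n - 1) / h : ℕ) : ℝ) * (h * x))‖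
              ≤ K0 * 1 * (2 * Real.pi * |(n : ℝ) * x - (((n - 1) / h : ℕ) : ℝ) * (h * x)|) := by
                refine mul_le_mul (mul_le_mul (sc_w_le w K0 hw n) (sc_pv_le ψ n) (norm_nonneg _)
                  hK0) h1 (norm_nonneg _) (by rw [mul_one]; exact hK0)
            _ ≤ K0 * (2 * Real.pi * (h * (T / X))) := by
                rw [mul_one]
                exact mul_le_mul_of_nonneg_left (mul_le_mul_of_nonneg_left h2 (by positivity)) hK0
      _ = ((X - h : ℕ) : ℝ) * (K0 * (2 * Real.pi * (h * (T / X)))) := by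
          rw [sum_const, Nat.card_Ioc, nsmul_eq_mul]
      _ ≤ X * (K0 * (2 * Real.pi * (h * (T / X)))) := by
          refine mul_le_mul_of_nonneg_right ?_ (by positivity)
          exact_mod_cast Nat.sub_le X h
      _ = K0 * (2 * Real.pi * h * T) := by field_simp
  refine (norm_add_le _ _).trans ?_
  have hpi := Real.pi_lt_d2
  have h10 : (h : ℝ) ≤ h * T := by nlinarith
  have h11 : 2 * Real.pi * h * T ≤ 6.3 * (h * T) := by
    have : 0 ≤ (h : ℝ) * T := by positivity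
    nlinarith
  have h12 : (h : ℝ) + 2 * Real.pi * h * T ≤ 8 * h * T := by linarith
  calc _ ≤ h * K0 + K0 * (2 * Real.pi * h * T) := add_le_add e1 e2
    _ = K0 * ((h : ℝ) + 2 * Real.pi * h * T) := by ring
    _ ≤ K0 * (8 * h * T) := mul_le_mul_of_nonneg_left h12 hK0

/-- Parseval for the main part -/
private theorem sc_pars (X h : ℕ) (hh : 1 ≤ h) (G : ℕ → ℂ) :
    ∫ x in (-(1 / (2 * h : ℝ)))..(1 / (2 * h : ℝ)),
      ‖∑ t ∈ Icc 1 (X / h), G t * ee ((t : ℝ) * (h * x))‖ ^ 2 =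
      1 / h * ∑ t ∈ Icc 1 (X / h), ‖G t‖ ^ 2 := by
  have hh0 : (0 : ℝ) < h := by exact_mod_cast hh
  have h1 := intervalIntegral.integral_comp_mul_left (a := -(1 / (2 * h : ℝ))) (b := 1 / (2 * h : ℝ))
    (fun y : ℝ => ‖∑ t ∈ Icc 1 (X / h), G t * ee ((t : ℝ) * y)‖ ^ 2) (c := (h : ℝ)) hh0.ne'
  rw [h1]
  have e1 : (h : ℝ) * -(1 / (2 * h : ℝ)) = -(1 / 2) := by field_simp
  have e2 : (h : ℝ) * (1 / (2 * h : ℝ)) = 1 / 2 := by field_simp
  rw [e1, e2, BX.ga_parseval, smul_eq_mul, one_div]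

theorem sNf_cells (X h : ℕ) (T : ℝ) (hT : 1 ≤ T) (hX : 3 ≤ X) (hh : 1 ≤ h)
    (hhT : 2 * h * T ≤ X) (w : ℕ → ℝ) (K0 : ℝ) (hw : ∀ n, |w n| ≤ K0) (ψ : PC) :
    sNf X T w ψ ≤ 2 * (Real.log X / Real.sqrt ((X : ℝ) * h) * nt (X / h) (fun t =>
        ∑ n ∈ Ioc (t * h) (min ((t + 1) * h) X), ((w n : ℝ) : ℂ) * pv ψ n)) +
      64 * K0 * Real.log X * T ^ 2 * (h / X) := by
  have hK0 : 0 ≤ K0 := (abs_nonneg _).trans (hw 0)
  have hX0 : (0 : ℝ) < X := by exact_mod_cast (by omega : 0 < X)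
  have hh0 : (0 : ℝ) < h := by exact_mod_cast hh
  have hhX : h ≤ X := by
    have : (h : ℝ) ≤ X := by nlinarith
    exact_mod_cast this
  have hL : 0 ≤ Real.log X := Real.log_natCast_nonneg X
  change sNf X T w ψ ≤ 2 * (Real.log X / Real.sqrt ((X : ℝ) * h) * nt (X / h) (sc_G X h w ψ)) +
      64 * K0 * Real.log X * T ^ 2 * (h / X)
  obtain ⟨G, hG⟩ : ∃ G, G = sc_G X h w ψ := ⟨_, rfl⟩
  have herr := fun x hx => sc_err X h T hT (by omega) hh hhX w K0 hw ψ x hx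
  rw [← hG]
  rw [← hG] at herr
  set A : ℝ → ℂ := fun x => ∑ t ∈ Icc 1 (X / h), G t * ee ((t : ℝ) * (h * x)) with hA
  have hTX : 0 ≤ T / X := by positivity
  have hTh : T / X ≤ 1 / (2 * h) := by
    rw [div_le_div_iff₀ hX0 (by positivity)]
    linarith
  have hcA : Continuous fun x => ‖A x‖ ^ 2 := (sc_contA X h G).norm.pow 2
  have hcS : Continuous fun x => ‖SXf X w ψ x‖ ^ 2 := (sc_cont X w ψ).norm.pow 2
  -- the integral
  have hint : ∫ x in (-(T / X))..(T / X), ‖SXf X w ψ x‖ ^ 2 ≤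
      2 * (1 / h * ∑ t ∈ Icc 1 (X / h), ‖G t‖ ^ 2) + 4 * (T / X) * (K0 * (8 * h * T)) ^ 2 := by
    have h1 : ∫ x in (-(T / X))..(T / X), ‖SXf X w ψ x‖ ^ 2 ≤
        ∫ x in (-(T / X))..(T / X), (2 * ‖A x‖ ^ 2 + 2 * (K0 * (8 * h * T)) ^ 2) := by
      refine intervalIntegral.integral_mono_on (by linarith) (hcS.intervalIntegrable _ _)
        (((hcA.const_mul 2).add continuous_const).intervalIntegrable _ _) fun x hx => ?_
      have hx' : |x| ≤ T / X := abs_le.2 ⟨hx.1, hx.2⟩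
      have h2 := herr x hx'
      have h3 : ‖SXf X w ψ x‖ ≤ ‖A x‖ + K0 * (8 * h * T) := by
        have h4 : SXf X w ψ x = A x + (SXf X w ψ x - A x) := by ring
        rw [h4]
        exact (norm_add_le _ _).trans (add_le_add le_rfl h2)
      have h5 : ‖SXf X w ψ x‖ ^ 2 ≤ (‖A x‖ + K0 * (8 * h * T)) ^ 2 :=
        pow_le_pow_left₀ (norm_nonneg _) h3 2
      nlinarith [sq_nonneg (‖A x‖ - K0 * (8 * h * T))]
    refine h1.trans ?_
    rw [intervalIntegral.integral_add ((hcA.const_mul 2).intervalIntegrable _ _)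
      (continuous_const.intervalIntegrable _ _), intervalIntegral.integral_const,
      intervalIntegral.integral_const_mul]
    have h6 : ∫ x in (-(T / X))..(T / X), ‖A x‖ ^ 2 ≤
        ∫ x in (-(1 / (2 * h : ℝ)))..(1 / (2 * h : ℝ)), ‖A x‖ ^ 2 := by
      refine intervalIntegral.integral_mono_interval (by linarith) (by linarith) hTh ?_
        (hcA.intervalIntegrable _ _)
      exact Filter.Eventually.of_forall fun x => sq_nonneg _
    rw [sc_pars X h hh G] at h6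
    have h7 : (T / X - -(T / X)) • (2 * (K0 * (8 * (h : ℝ) * T)) ^ 2) =
        4 * (T / X) * (K0 * (8 * h * T)) ^ 2 := by
      rw [smul_eq_mul]
      ring
    rw [h7]
    linarith
  -- square roots
  have hS0 : 0 ≤ ∑ t ∈ Icc 1 (X / h), ‖G t‖ ^ 2 := sum_nonneg fun _ _ => sq_nonneg _
  have hsq : Real.sqrt (∫ x in (-(T / X))..(T / X), ‖SXf X w ψ x‖ ^ 2) ≤
      2 * (1 / Real.sqrt h * nt (X / h) G) + K0 * (32 * T ^ 2 * (h / Real.sqrt X)) := by
    rw [Real.sqrt_le_left (by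
      have : 0 ≤ nt (X / h) G := Real.sqrt_nonneg _
      positivity)]
    refine hint.trans ?_
    have e1 : (1 / Real.sqrt h * nt (X / h) G) ^ 2 =
        1 / h * ∑ t ∈ Icc 1 (X / h), ‖G t‖ ^ 2 := by
      unfold nt
      rw [mul_pow, div_pow, one_pow, Real.sq_sqrt hh0.le, Real.sq_sqrt hS0]
    have e2 : (K0 * (32 * T ^ 2 * (h / Real.sqrt X))) ^ 2 = K0 ^ 2 * (1024 * T ^ 4 * h ^ 2 / X) := by
      rw [mul_pow, mul_pow, mul_pow, div_pow, Real.sq_sqrt hX0.le]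
      ring
    have e3 : 4 * (T / X) * (K0 * (8 * h * T)) ^ 2 ≤ K0 ^ 2 * (1024 * T ^ 4 * h ^ 2 / X) := by
      have h8 : 4 * (T / X) * (K0 * (8 * h * T)) ^ 2 = K0 ^ 2 * (256 * T ^ 3 * h ^ 2 / X) := by ring
      rw [h8]
      refine mul_le_mul_of_nonneg_left (div_le_div_of_nonneg_right ?_ hX0.le) (sq_nonneg _)
      have h9 : T ^ 3 ≤ T ^ 4 := pow_le_pow_right₀ hT (by norm_num)
      have h10 : 0 ≤ T ^ 4 := by positivity
      have h11 : (256 : ℝ) * T ^ 3 ≤ 1024 * T ^ 4 := by linarith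
      exact mul_le_mul_of_nonneg_right h11 (sq_nonneg _)
    have hn0 : 0 ≤ 1 / Real.sqrt h * nt (X / h) G := by
      have : 0 ≤ nt (X / h) G := Real.sqrt_nonneg _
      positivity
    have hm0 : 0 ≤ K0 * (32 * T ^ 2 * (h / Real.sqrt X)) := by positivity
    have h12 : 0 ≤ 1 / (h : ℝ) * ∑ t ∈ Icc 1 (X / h), ‖G t‖ ^ 2 := by positivity
    calc 2 * (1 / (h : ℝ) * ∑ t ∈ Icc 1 (X / h), ‖G t‖ ^ 2) + 4 * (T / X) * (K0 * (8 * h * T)) ^ 2
        ≤ 4 * (1 / (h : ℝ) * ∑ t ∈ Icc 1 (X / h), ‖G t‖ ^ 2) +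
            K0 ^ 2 * (1024 * T ^ 4 * h ^ 2 / X) := by
          linarith
      _ = (2 * (1 / Real.sqrt h * nt (X / h) G)) ^ 2 +
            (K0 * (32 * T ^ 2 * (h / Real.sqrt X))) ^ 2 := by
          rw [mul_pow, e1, e2]
          ring
      _ ≤ _ := by nlinarith [mul_nonneg hn0 hm0]
  have hLX : 0 ≤ Real.log X / Real.sqrt X := by positivity
  have hfin : sNf X T w ψ ≤ 2 * (Real.log X / Real.sqrt ((X : ℝ) * h) * nt (X / h) G) +
      32 * K0 * Real.log X * T ^ 2 * (h / X) := by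
    calc sNf X T w ψ = Real.log X / Real.sqrt X *
          Real.sqrt (∫ x in (-(T / X))..(T / X), ‖SXf X w ψ x‖ ^ 2) := rfl
      _ ≤ Real.log X / Real.sqrt X *
          (2 * (1 / Real.sqrt h * nt (X / h) G) + K0 * (32 * T ^ 2 * (h / Real.sqrt X))) :=
          mul_le_mul_of_nonneg_left hsq hLX
      _ = _ := by
          rw [Real.sqrt_mul hX0.le]
          have h13 : Real.sqrt X * Real.sqrt X = X := Real.mul_self_sqrt hX0.le
          have h14 : 0 < Real.sqrt X := Real.sqrt_pos.2 hX0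
          have h15 : 0 < Real.sqrt h := Real.sqrt_pos.2 hh0
          rw [mul_add]
          congr 1
          · field_simp
          · rw [show Real.log X / Real.sqrt X * (K0 * (32 * T ^ 2 * (h / Real.sqrt X))) =
              32 * K0 * Real.log X * T ^ 2 * (h / (Real.sqrt X * Real.sqrt X)) by field_simp, h13]
  refine hfin.trans ?_
  have h16 : 0 ≤ K0 * Real.log X * T ^ 2 * (h / X) := by positivity
  linarith

end Pool.MP_dd84fd_nt.BY
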