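import Pool.Agent.Lib.MP_dd84fd_nt.BY.SRg
import Pool.Agent.Lib.MP_dd84fd_nt.BY.SBil

/-!
# BY/SDiag (1.3 h): the near-diagonal part (helper18; helper39)

`mink_cells` with `s = Ioc U V`, `K a = √(6 CS CP (h/a)² (log X/G) / (log z)³)`.  For `a ∈ (U, V]`, `u = α t / a`,
`v = β t / a`: `v - u ≤ h/a + 1 ≤ 2 h/a` (`a ≤ V ≤ h`).  `rg_ls` with the coefficient `B a k` (supported on
rough `k` of the class `γ a`, `k > 0`): `≤ (2 CS (h/a) / log z + (1 + N P) z^16) · #supp`, `(1 + N P) z^16 ≤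
2 N P z^16 ≤ CS (h/V) / log z ≤ CS (h/a) / log z` (`bV`), `#supp ≤ CP (2 h/a) (log X/G) / (log z)²` (`ClsIn`,
`H = 2 h/a ≥ h/V`, `WG`).  `∑_a ‖A a‖ K a ≤ Ga √(..) h ∑_{a ≤ X} rg z a / a ≤ Ga √(..) h CR log X / log z` (`RecIn`,
`V ≤ h ≤ X`).  Total: `T h² Ga² 6 CS CP CR² (log X)³ / (G (log z)^5) =
(√T h / log X)² Ga² 6 CS CP CR² (log X / log z)^5 / G`.
-/

set_option autoImplicit false

namespace Pool.MP_dd84fd_nt.BY

open Finset
open Pool.MP_dd84fd_nt.HX (rg Rgh)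
open Pool.MP_dd84fd_nt.BX (ChF nt Cells Bil)

private theorem sdg_rg_pos {z n : ℕ} (h : rg z n ≠ 0) : rg z n = 1 := by
  unfold rg at h ⊢
  split_ifs at h ⊢ with h1
  · rfl
  · exact absurd rfl h

private theorem sdg_rg_le (z n : ℕ) : rg z n ≤ 1 := by
  unfold rg
  split_ifs
  · exact le_rfl
  · exact zero_le_one

private theorem sdg_rg_nn (z n : ℕ) : 0 ≤ rg z n := by
  unfold rg
  split_ifs
  · exact zero_le_one
  · exact le_rfl

/-- the length of the window -/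
private theorem sdg_len {α β a h : ℕ} (h2 : β ≤ α + h) (ha : 0 < a) (hah : a ≤ h) :
    ((β / a : ℕ) : ℝ) - ((α / a : ℕ) : ℝ) ≤ 2 * ((h : ℝ) / a) := by
  have ha' : (0 : ℝ) < a := by exact_mod_cast ha
  have e1 : ((β / a : ℕ) : ℝ) ≤ (β : ℝ) / a := Nat.cast_div_le
  have e2 : (α : ℝ) / a < ((α / a : ℕ) : ℝ) + 1 := by
    rw [div_lt_iff₀ ha']
    have := Nat.lt_div_mul_add (a := α) ha
    have h3 : α < (α / a + 1) * a := by
      rw [add_mul, one_mul]
      exact this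
    exact_mod_cast h3
  have e3 : (β : ℝ) ≤ α + h := by exact_mod_cast h2
  have e4 : (1 : ℝ) ≤ (h : ℝ) / a := by
    rw [le_div_iff₀ ha', one_mul]
    exact_mod_cast hah
  have e5 : (β : ℝ) / a ≤ (α : ℝ) / a + (h : ℝ) / a := by
    rw [← add_div]
    exact div_le_div_of_nonneg_right e3 ha'.le
  linarith

theorem diag {CS CP CR : ℝ} (hS : SvIn CS) (hCl : ClsIn CP) (hCP : 1 ≤ CP) (hR : RecIn CR)
    {X h z y U V V2 W G b : ℕ} {q δ P N : ℝ} (hp : PY CS X h z y U V V2 W G b q δ P N)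
    {ι : Type} {Y : Finset ι} {f : ι → ℕ → ℂ} (hF : ChF Y f P P) (hY : (Y.card : ℝ) ≤ N) (T : ℕ)
    (α β : ℕ → ℕ) (hc : Cells X h T α β) (A : ℕ → ℂ) (B : ℕ → ℕ → ℂ) (γ : ℕ → ℕ) (Ga : ℝ)
    (hGa : 0 ≤ Ga) (hA : ∀ a, ‖A a‖ ≤ Ga * rg z a) (hB : ∀ a k, ‖B a k‖ ≤ rg z k)
    (hB2 : ∀ a, U < a → a ≤ V → A a ≠ 0 → ∀ k, 0 < k → B a k ≠ 0 →
      k.minFac ≤ W ∧ cg G X k.minFac = γ a) :
    ∑ i ∈ Y, nt T (fun t => BilK A B U V (f i) (α t) (β t)) ^ 2 ≤
      6 * CS * CP * CR ^ 2 * (q ^ 5 / G) * Ga ^ 2 * (Real.sqrt T * h / Real.log X) ^ 2 := by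
  classical
  have w1 := hp.w1
  have hz2 := w1.z2
  have hz2' : (2 : ℝ) ≤ z := by exact_mod_cast hz2
  have hlz : 0 < Real.log z := Real.log_pos (by linarith)
  have hlX : 0 < Real.log X := lt_of_lt_of_le one_pos w1.lX
  have hCS : 0 < CS := lt_of_lt_of_le one_pos w1.CS1
  have hCP0 : 0 < CP := lt_of_lt_of_le one_pos hCP
  have hG0 : (0 : ℝ) < G := by
    have := hp.G1
    exact_mod_cast this
  have hh0 : (0 : ℝ) ≤ h := Nat.cast_nonneg h
  have hNP : 1 ≤ N * P := one_le_mul_of_one_le_of_one_le w1.N1 w1.P1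
  have hP0 : 0 ≤ P := le_trans zero_le_one w1.P1
  set D : ℝ := 6 * CS * CP * (Real.log X / G) / Real.log z ^ 3 with hD
  have hD0 : 0 ≤ D := by positivity
  have hmain := mink_cells Y T (Ioc U V) A f hF.bd
    (fun a i t => ∑ k ∈ Ioc (α t / a) (β t / a), B a k * f i k)
    (fun a => Real.sqrt D * ((h : ℝ) / a)) (fun a _ => by positivity) ?_
  · refine hmain.trans ?_
    have hsum : ∑ a ∈ Ioc U V, ‖A a‖ * (Real.sqrt D * ((h : ℝ) / a)) ≤
        Ga * Real.sqrt D * h * (CR * (Real.log X / Real.log z)) := by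
      have h1 : ∀ a ∈ Ioc U V, ‖A a‖ * (Real.sqrt D * ((h : ℝ) / a)) ≤
          Ga * Real.sqrt D * h * (rg z a / a) := by
        intro a _
        have h2 : ‖A a‖ * (Real.sqrt D * ((h : ℝ) / a)) ≤
            (Ga * rg z a) * (Real.sqrt D * ((h : ℝ) / a)) :=
          mul_le_mul_of_nonneg_right (hA a) (by positivity)
        refine h2.trans (le_of_eq ?_)
        ring
      refine (Finset.sum_le_sum h1).trans ?_
      rw [← Finset.mul_sum]
      refine mul_le_mul_of_nonneg_left ?_ (by positivity)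
      refine le_trans ?_ (hR z X hz2 w1.zX)
      refine Finset.sum_le_sum_of_subset_of_nonneg ?_ ?_
      · intro a ha
        rw [mem_Ioc] at ha
        rw [mem_Icc]
        have := w1.Vh
        have := w1.hX
        omega
      · intro a _ _
        exact div_nonneg (sdg_rg_nn z a) (Nat.cast_nonneg a)
    have hsum0 : 0 ≤ ∑ a ∈ Ioc U V, ‖A a‖ * (Real.sqrt D * ((h : ℝ) / a)) :=
      Finset.sum_nonneg fun a _ => by positivity
    have h3 : (Real.sqrt T * ∑ a ∈ Ioc U V, ‖A a‖ * (Real.sqrt D * ((h : ℝ) / a))) ^ 2 ≤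
        (Real.sqrt T * (Ga * Real.sqrt D * h * (CR * (Real.log X / Real.log z)))) ^ 2 :=
      pow_le_pow_left₀ (by positivity) (mul_le_mul_of_nonneg_left hsum (by positivity)) 2
    refine h3.trans ?_
    have e1 : (Real.sqrt T * (Ga * Real.sqrt D * h * (CR * (Real.log X / Real.log z)))) ^ 2 =
        6 * CS * CP * CR ^ 2 / G * Ga ^ 2 * (Real.sqrt T * h) ^ 2 *
          ((Real.log X) ^ 3 / (Real.log z) ^ 5) := by
      have e2 : (Real.sqrt T * (Ga * Real.sqrt D * h * (CR * (Real.log X / Real.log z)))) ^ 2 =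
        (Real.sqrt D) ^ 2 * ((Real.sqrt T * h) ^ 2 * Ga ^ 2 * CR ^ 2 *
          (Real.log X / Real.log z) ^ 2) := by ring
      rw [e2, Real.sq_sqrt hD0, hD]
      field_simp
    have e3 : 6 * CS * CP * CR ^ 2 * (q ^ 5 / G) * Ga ^ 2 * (Real.sqrt T * h / Real.log X) ^ 2 =
        6 * CS * CP * CR ^ 2 / G * Ga ^ 2 * (Real.sqrt T * h) ^ 2 * (q ^ 5 / (Real.log X) ^ 2) := by
      field_simp
    rw [e1, e3]
    refine mul_le_mul_of_nonneg_left ?_ (by positivity)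
    rw [div_le_div_iff₀ (by positivity) (by positivity)]
    have h4 : (Real.log X) ^ 5 ≤ (q * Real.log z) ^ 5 := pow_le_pow_left₀ hlX.le w1.Xz 5
    calc (Real.log X) ^ 3 * (Real.log X) ^ 2 = (Real.log X) ^ 5 := by ring
      _ ≤ (q * Real.log z) ^ 5 := h4
      _ = q ^ 5 * (Real.log z) ^ 5 := by ring
  · intro a ha hA0 t ht
    rw [mem_Ioc] at ha
    obtain ⟨c1, c2, c3, c4⟩ := hc t ht
    have ha0 : 0 < a := by omega
    have ha0' : (0 : ℝ) < a := by exact_mod_cast ha0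
    have hV0 : (0 : ℝ) < V := by
      have : 0 < V := by omega
      exact_mod_cast this
    have haV : (h : ℝ) / V ≤ (h : ℝ) / a :=
      div_le_div_of_nonneg_left hh0 ha0' (by exact_mod_cast ha.2)
    have huv : α t / a ≤ β t / a := Nat.div_le_div_right c2
    have hlen := sdg_len c3 ha0 (ha.2.trans w1.Vh)
    have hrg : ∀ k, B a k ≠ 0 → rg z k = 1 := by
      intro k hk
      refine sdg_rg_pos fun h0 => hk ?_
      have := hB a k
      rw [h0] at this
      exact norm_le_zero_iff.1 this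
    have hls := rg_ls hS hF hP0 hY hz2 (α t / a) (β t / a) huv (fun k => B a k)
      (fun k _ hk => hrg k hk)
    refine hls.trans ?_
    -- the support
    have hcard := hCl X z G W (2 * ((h : ℝ) / a)) hz2 w1.zX w1.lX hp.G1 hp.Gz (by
      have h0 := hp.WG
      have h1 : (0 : ℝ) ≤ (h : ℝ) / a := by positivity
      linarith) (γ a) (α t / a) (β t / a) hlen
    have hsup : ∑ k ∈ Ioc (α t / a) (β t / a), ‖B a k‖ ^ 2 ≤
        (((Ioc (α t / a) (β t / a)).filter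
          (fun k => rg z k = 1 ∧ k.minFac ≤ W ∧ cg G X k.minFac = γ a)).card : ℝ) := by
      rw [Finset.card_filter]
      push_cast
      refine Finset.sum_le_sum fun k hk => ?_
      rw [mem_Ioc] at hk
      by_cases hk0 : B a k = 0
      · rw [hk0, norm_zero]
        split_ifs <;> norm_num
      · have h1 := hB2 a ha.1 ha.2 hA0 k (lt_of_le_of_lt (Nat.zero_le _) hk.1) hk0
        rw [if_pos ⟨hrg k hk0, h1.1, h1.2⟩]
        have h2 : ‖B a k‖ ≤ 1 := (hB a k).trans (sdg_rg_le z k)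
        exact pow_le_one₀ (norm_nonneg _) h2
    have hfirst : CS * (((β t / a : ℕ) : ℝ) - ((α t / a : ℕ) : ℝ)) / Real.log z +
        (1 + N * P) * (z : ℝ) ^ (16 : ℕ) ≤ 3 * CS * ((h : ℝ) / a) / Real.log z := by
      have h1 : (1 + N * P) * (z : ℝ) ^ (16 : ℕ) ≤ 2 * N * (z : ℝ) ^ (16 : ℕ) * P := by
        have h2 : (0 : ℝ) ≤ (z : ℝ) ^ (16 : ℕ) := by positivity
        have h3 : (1 + N * P) * (z : ℝ) ^ (16 : ℕ) ≤ (2 * (N * P)) * (z : ℝ) ^ (16 : ℕ) :=
          mul_le_mul_of_nonneg_right (by linarith) h2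
        refine h3.trans (le_of_eq ?_)
        ring
      have h2 := w1.bV
      have h3 : CS * ((h : ℝ) / V) / Real.log z ≤ CS * ((h : ℝ) / a) / Real.log z :=
        div_le_div_of_nonneg_right (mul_le_mul_of_nonneg_left haV hCS.le) hlz.le
      have h4 : CS * (((β t / a : ℕ) : ℝ) - ((α t / a : ℕ) : ℝ)) / Real.log z ≤
          CS * (2 * ((h : ℝ) / a)) / Real.log z :=
        div_le_div_of_nonneg_right (mul_le_mul_of_nonneg_left hlen hCS.le) hlz.le
      have h5 : 3 * CS * ((h : ℝ) / a) / Real.log z =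
          CS * (2 * ((h : ℝ) / a)) / Real.log z + CS * ((h : ℝ) / a) / Real.log z := by ring
      linarith
    have hnn : (0 : ℝ) ≤ ∑ k ∈ Ioc (α t / a) (β t / a), ‖B a k‖ ^ 2 :=
      Finset.sum_nonneg fun k _ => by positivity
    calc (CS * (((β t / a : ℕ) : ℝ) - ((α t / a : ℕ) : ℝ)) / Real.log z +
          (1 + N * P) * (z : ℝ) ^ (16 : ℕ)) * ∑ k ∈ Ioc (α t / a) (β t / a), ‖B a k‖ ^ 2
        ≤ (3 * CS * ((h : ℝ) / a) / Real.log z) *
          (CP * (2 * ((h : ℝ) / a)) * (Real.log X / G) / (Real.log z) ^ 2) :=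
          mul_le_mul hfirst (hsup.trans hcard) hnn (by positivity)
      _ = (Real.sqrt D * ((h : ℝ) / a)) ^ 2 := by
          rw [mul_pow, Real.sq_sqrt hD0, hD]
          field_simp
          ring

end Pool.MP_dd84fd_nt.BY
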