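import Pool.Agent.Lib.MP_dd84fd_nt.BY.SDefs
import Pool.Agent.Lib.MP_dd84fd_nt.HX.DcSmo
import Pool.Agent.Lib.MP_dd84fd_nt.HX.DcRg

/-!
# BY/SId (1 h): the identity (helper18, helper45)

`A(n) = rg y n ∑_{l ∣ n} c l`, `c` supported on `y`-rough numbers.  Proof.  `rg y n = rg y l rg y (n/l)`
(`HX.rg_mul`), and `rg y l = 1` if `c l ≠ 0`, so `A(n) = ∑_{l ∣ n} c l rg y (n/l)`.  The terms with
`l > U` are the last sum.  For `l ≤ U`: `HX.rg_smo y l (n/l) (U+1)` (its condition `(l : ℝ) < U + 1`):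
`rg y (n/l) = ∑_{f ∣ n/l} [Smo y f, l f < U+1] mr f + ∑_{e ∣ n/l} [Smo y e, U+1 ≤ l e,
l e < (U+1) minFac e, minFac e ≤ all primes of n/(l e)] mr e`.  If `rg z n = 0` both sides of `id_A`
are `0` (`z ≤ y`: `rg y n ≤ rg z n`; first sum: `rg z m rg z (n/m) = rg z n`; second: same; third: `c l ≠ 0`
and `rg y (n/l) ≠ 0` give `Rgh y n`).  If `rg z n = 1`, all divisors are `z`-rough.  Bijections
`(l, f) ↦ m = l f`, `l = ro y m`, `f = sm y m` (`HX.ro_sm_unique`, `HX.ro_mul_sm`, `ro_rgh`, `sm_smo`) for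
`m ∣ n`, `m ≤ U`, and `(l, e) ↦ a = l e` for `a ∣ n`, `U < a < (U+1) minFac (sm y a)`; conversely `l ≤ U`
because `l e < (U+1) minFac e ≤ (U+1) e`.  (As KX/Rep `smoE_id`, IY/BTy1.)

`ga_le`: `U < a`, `ga y U c a ≠ 0`: then `sm y a ≠ 1` (else `a < U + 1`), so `minFac (sm y a)` is a prime
factor of the `y`-smooth number `sm y a`, hence `< y`, and `a < (U+1) y`.
-/

set_option autoImplicit false

namespace Pool.MP_dd84fd_nt.BY

open Finset
open Pool.MP_dd84fd_nt.HX (rg Rgh ro sm mr Smo)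

private theorem SId_bij (y n : ℕ) (hn : n ≠ 0) (F : ℕ → ℕ → ℝ) :
    ∑ l ∈ n.divisors, ∑ f ∈ (n / l).divisors,
      (open Classical in if Rgh y l ∧ Smo y f then F l f else 0) =
      ∑ m ∈ n.divisors, F (ro y m) (sm y m) := by
  classical
  rw [Finset.sum_sigma']
  have h1 : ∑ x ∈ n.divisors.sigma (fun l => (n / l).divisors),
      (if Rgh y x.1 ∧ Smo y x.2 then F x.1 x.2 else 0) =
      ∑ x ∈ (n.divisors.sigma (fun l => (n / l).divisors)).filter
        (fun x => Rgh y x.1 ∧ Smo y x.2), F x.1 x.2 := (Finset.sum_filter _ _).symm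
  have h2 : ∑ x ∈ n.divisors.sigma (fun l => (n / l).divisors),
      (open Classical in if Rgh y x.1 ∧ Smo y x.2 then F x.1 x.2 else 0) =
      ∑ x ∈ (n.divisors.sigma (fun l => (n / l).divisors)).filter
        (fun x => Rgh y x.1 ∧ Smo y x.2), F x.1 x.2 := by
    rw [← h1]
  rw [h2]
  refine Finset.sum_nbij' (fun x => x.1 * x.2) (fun m => ⟨ro y m, sm y m⟩) ?_ ?_ ?_ ?_ ?_
  · rintro ⟨l, f⟩ h
    rw [mem_filter, mem_sigma, Nat.mem_divisors, Nat.mem_divisors] at h
    obtain ⟨⟨⟨⟨k, hk⟩, -⟩, ⟨hf, hnl⟩⟩, -⟩ := h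
    show l * f ∈ n.divisors
    rw [Nat.mem_divisors]
    have hl0 : 0 < l := by
      rcases Nat.eq_zero_or_pos l with h0 | h0
      · rw [h0, zero_mul] at hk
        exact absurd hk hn
      · exact h0
    dsimp only at hf
    rw [hk, Nat.mul_div_cancel_left _ hl0] at hf
    exact ⟨by rw [hk]; exact Nat.mul_dvd_mul_left l hf, hn⟩
  · intro m hm
    have hm1 := Nat.dvd_of_mem_divisors hm
    have hm0 : m ≠ 0 := fun h => hn (by rw [h, zero_dvd_iff] at hm1; exact hm1)
    have hrs := Pool.MP_dd84fd_nt.HX.ro_mul_sm y m hm0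
    have hr := Pool.MP_dd84fd_nt.HX.ro_rgh y m hm0
    rw [mem_filter, mem_sigma, Nat.mem_divisors, Nat.mem_divisors]
    have hrp : 0 < ro y m := Nat.pos_of_ne_zero hr.1
    obtain ⟨k, hk⟩ := hm1
    have hnk : n = ro y m * (sm y m * k) := by rw [← mul_assoc, hrs, ← hk]
    refine ⟨⟨⟨⟨_, hnk⟩, hn⟩, ?_, ?_⟩, hr, Pool.MP_dd84fd_nt.HX.sm_smo y m⟩
    · dsimp only
      rw [hnk, Nat.mul_div_cancel_left _ hrp]
      exact Dvd.intro _ rfl
    · dsimp only
      rw [hnk, Nat.mul_div_cancel_left _ hrp]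
      intro h0
      rw [h0, mul_zero] at hnk
      exact hn hnk
  · rintro ⟨l, f⟩ h
    rw [mem_filter, mem_sigma, Nat.mem_divisors, Nat.mem_divisors] at h
    obtain ⟨⟨⟨-, -⟩, ⟨hf, hnl⟩⟩, hl, hs⟩ := h
    have hf0 : f ≠ 0 := by
      rintro rfl
      exact hnl (zero_dvd_iff.1 hf)
    obtain ⟨h1, h2⟩ := Pool.MP_dd84fd_nt.HX.ro_sm_unique y l f hl hf0 hs
    simp only [h1, h2]
  · intro m hm
    have hm1 := Nat.dvd_of_mem_divisors hm
    have hm0 : m ≠ 0 := fun h => hn (by rw [h, zero_dvd_iff] at hm1; exact hm1)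
    exact Pool.MP_dd84fd_nt.HX.ro_mul_sm y m hm0
  · rintro ⟨l, f⟩ h
    rw [mem_filter, mem_sigma, Nat.mem_divisors, Nat.mem_divisors] at h
    obtain ⟨⟨⟨-, -⟩, ⟨hf, hnl⟩⟩, hl, hs⟩ := h
    have hf0 : f ≠ 0 := by
      rintro rfl
      exact hnl (zero_dvd_iff.1 hf)
    obtain ⟨h1, h2⟩ := Pool.MP_dd84fd_nt.HX.ro_sm_unique y l f hl hf0 hs
    simp only [h1, h2]

private theorem SId_mono {y z n : ℕ} (hzy : z ≤ y) (h : Rgh y n) : Rgh z n :=
  ⟨h.1, fun p hp => hzy.trans (h.2 p hp)⟩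

private theorem SId_div {n l : ℕ} (h : l ∈ n.divisors) : l * (n / l) = n :=
  Nat.mul_div_cancel' (Nat.dvd_of_mem_divisors h)

theorem id_A (y z U : ℕ) (hzy : z ≤ y) (c : ℕ → ℝ) (hc : ∀ l, c l ≠ 0 → Rgh y l) (n : ℕ)
    (hn : n ≠ 0) :
    rg y n * ∑ l ∈ n.divisors, c l =
      ∑ m ∈ n.divisors.filter (fun m => 0 < m), cA1 z y U c m * rg z (n / m) +
      ∑ a ∈ n.divisors.filter (fun a => U < a), cA2 z y U c a * kB2 z y a (n / a) +
      ∑ l ∈ n.divisors.filter (fun l => U < l), c l * rg y (n / l) := by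
  classical
  have h0 : rg y n * ∑ l ∈ n.divisors, c l = ∑ l ∈ n.divisors, c l * rg y (n / l) := by
    rw [mul_sum]
    refine sum_congr rfl fun l hl => ?_
    by_cases hcl : c l = 0
    · rw [hcl, mul_zero, zero_mul]
    · have h1 : rg y n = rg y l * rg y (n / l) := by
        rw [← Pool.MP_dd84fd_nt.HX.rg_mul, SId_div hl]
      have h2 : rg y l = 1 := by
        unfold rg
        rw [if_pos (hc l hcl)]
      rw [h1, h2, one_mul, mul_comm]
  have h1 : ∑ l ∈ n.divisors, c l * rg y (n / l) =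
      ∑ l ∈ n.divisors, (if l ≤ U then c l * rg y (n / l) else 0) +
      ∑ l ∈ n.divisors.filter (fun l => U < l), c l * rg y (n / l) := by
    rw [← Finset.sum_filter_add_sum_filter_not n.divisors (fun l => l ≤ U), Finset.sum_filter]
    congr 1
    refine sum_congr ?_ fun _ _ => rfl
    ext l
    simp only [mem_filter, not_le]
  rw [h0, h1]
  congr 1
  by_cases hz : Rgh z n
  · -- all divisors are `z`-rough
    have hdz : ∀ m ∈ n.divisors, Rgh z m ∧ Rgh z (n / m) := by
      intro m hm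
      rw [← Pool.MP_dd84fd_nt.HX.rgh_mul_iff, SId_div hm]
      exact hz
    have e1 : ∑ m ∈ n.divisors.filter (fun m => 0 < m), cA1 z y U c m * rg z (n / m) =
        ∑ m ∈ n.divisors, (if m ≤ U then gam y c m else 0) := by
      rw [Finset.filter_true_of_mem (fun m hm => Nat.pos_of_mem_divisors hm)]
      refine sum_congr rfl fun m hm => ?_
      unfold cA1 rg
      rw [if_pos (hdz m hm).1, if_pos (hdz m hm).2, one_mul, mul_one]
    have e2 : ∑ a ∈ n.divisors.filter (fun a => U < a), cA2 z y U c a * kB2 z y a (n / a) =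
        ∑ a ∈ n.divisors, (if U < a then ga y U c a *
          (if (∀ p ∈ (n / a).primeFactors, (sm y a).minFac ≤ p) then 1 else 0) else 0) := by
      rw [Finset.sum_filter]
      refine sum_congr rfl fun a ha => ?_
      by_cases hU : U < a
      · rw [if_pos hU, if_pos hU]
        unfold cA2 kB2 rg
        rw [if_pos (hdz a ha).1, one_mul, if_pos (hdz a ha).2]
      · rw [if_neg hU, if_neg hU]
    rw [e1, e2, ← sum_add_distrib]
    obtain ⟨F, hF⟩ : ∃ F : ℕ → ℕ → ℝ, F = fun (l f : ℕ) =>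
      if l ≤ U then c l * ((if (l : ℝ) * f < (U : ℝ) + 1 then mr f else 0) +
        (if (U : ℝ) + 1 ≤ (l : ℝ) * f ∧ (l : ℝ) * f < ((U : ℝ) + 1) * (f.minFac : ℝ) ∧
          (∀ p ∈ (n / l / f).primeFactors, f.minFac ≤ p) then mr f else 0)) else 0 := ⟨_, rfl⟩
    have e3 : ∑ l ∈ n.divisors, (if l ≤ U then c l * rg y (n / l) else 0) =
        ∑ l ∈ n.divisors, ∑ f ∈ (n / l).divisors, (if Rgh y l ∧ Smo y f then F l f else 0) := by
      refine sum_congr rfl fun l hl => ?_
      by_cases hlU : l ≤ U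
      · rw [if_pos hlU]
        by_cases hcl : c l = 0
        · rw [hcl, zero_mul]
          symm
          refine sum_eq_zero fun f _ => ?_
          rw [hF]
          simp only [hcl, zero_mul, ite_self]
        · have hR := hc l hcl
          have hnl : n / l ≠ 0 := by
            intro h
            have := SId_div hl
            rw [h, mul_zero] at this
            exact hn this.symm
          have hlU' : (l : ℝ) < (U : ℝ) + 1 := by exact_mod_cast Nat.lt_succ_of_le hlU
          rw [Pool.MP_dd84fd_nt.HX.rg_smo y l (n / l) ((U : ℝ) + 1) hlU' hnl, ← sum_add_distrib,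
            mul_sum]
          refine sum_congr rfl fun f _ => ?_
          rw [hF]
          simp only [hR, true_and, if_pos hlU]
          by_cases hs : Smo y f
          · simp only [hs, true_and, if_true]
          · simp only [hs, false_and, if_false, add_zero, mul_zero]
      · rw [if_neg hlU]
        symm
        refine sum_eq_zero fun f _ => ?_
        rw [hF]
        simp only [if_neg hlU, ite_self]
    have e4 := SId_bij y n hn F
    have e5 : ∑ l ∈ n.divisors, ∑ f ∈ (n / l).divisors, (if Rgh y l ∧ Smo y f then F l f else 0) =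
        ∑ m ∈ n.divisors, F (ro y m) (sm y m) := by
      rw [← e4]
    rw [e3, e5]
    refine sum_congr rfl fun m hm => ?_
    have hm1 := Nat.dvd_of_mem_divisors hm
    have hmp := Nat.pos_of_mem_divisors hm
    have hm0 : m ≠ 0 := hmp.ne'
    have hrs := Pool.MP_dd84fd_nt.HX.ro_mul_sm y m hm0
    have hsp := Pool.MP_dd84fd_nt.HX.sm_pos y m
    have hrp : 0 < ro y m := by
      rcases Nat.eq_zero_or_pos (ro y m) with h | h
      · rw [h, zero_mul] at hrs
        exact absurd hrs.symm hm0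
      · exact h
    have hrm : ro y m ≤ m := Nat.le_of_dvd hmp ⟨_, hrs.symm⟩
    have hcast : (ro y m : ℝ) * (sm y m : ℝ) = (m : ℝ) := by exact_mod_cast hrs
    have hdd : n / ro y m / sm y m = n / m := by rw [Nat.div_div_eq_div_mul, hrs]
    rw [hF]
    simp only [hcast, hdd]
    unfold ga gam
    by_cases hmU : m ≤ U
    · have h3 : ro y m ≤ U := hrm.trans hmU
      have h4 : (m : ℝ) < (U : ℝ) + 1 := by exact_mod_cast Nat.lt_succ_of_le hmU
      rw [if_pos h3, if_pos h4, if_pos hmU, if_neg (fun h => absurd h.1 (not_le.2 h4)),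
        if_neg (not_lt.2 hmU)]
      ring
    · have hmU' : U < m := not_le.1 hmU
      have h4 : (U : ℝ) + 1 ≤ (m : ℝ) := by exact_mod_cast hmU'
      rw [if_neg hmU, if_pos hmU', if_neg (not_lt.2 h4), zero_add, zero_add]
      by_cases h5 : (m : ℝ) < ((U : ℝ) + 1) * ((sm y m).minFac : ℝ)
      · rw [if_pos h5]
        have h6 : ro y m ≤ U := by
          have h7 : (ro y m : ℝ) * (sm y m : ℝ) < ((U : ℝ) + 1) * (sm y m : ℝ) := by
            rw [hcast]
            refine h5.trans_le ?_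
            have h8 : ((sm y m).minFac : ℝ) ≤ (sm y m : ℝ) := by
              exact_mod_cast Nat.minFac_le hsp
            exact mul_le_mul_of_nonneg_left h8 (by positivity)
          have h9 : (ro y m : ℝ) < (U : ℝ) + 1 :=
            lt_of_mul_lt_mul_right h7 (by positivity)
          have h10 : ro y m < U + 1 := by exact_mod_cast h9
          omega
        rw [if_pos h6]
        by_cases h7 : ∀ p ∈ (n / m).primeFactors, (sm y m).minFac ≤ p
        · rw [if_pos ⟨h4, h5, h7⟩, if_pos h7, mul_one]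
        · rw [if_neg (fun h => h7 h.2.2), if_neg h7, mul_zero, mul_zero]
      · have h6 : ¬ ((U : ℝ) + 1 ≤ (m : ℝ) ∧ (m : ℝ) < ((U : ℝ) + 1) * ((sm y m).minFac : ℝ) ∧
            ∀ p ∈ (n / m).primeFactors, (sm y m).minFac ≤ p) := fun h => h5 h.2.1
        rw [if_neg h5, zero_mul, if_neg h6, mul_zero, ite_self]
  · -- everything vanishes
    have hz0 : ∀ m ∈ n.divisors, rg z m * rg z (n / m) = 0 := by
      intro m hm
      rw [← Pool.MP_dd84fd_nt.HX.rg_mul, SId_div hm]
      unfold rg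
      rw [if_neg hz]
    have e0 : ∑ l ∈ n.divisors, (if l ≤ U then c l * rg y (n / l) else 0) = 0 := by
      refine sum_eq_zero fun l hl => ?_
      by_cases hcl : c l = 0
      · rw [hcl, zero_mul, ite_self]
      · have h2 : rg y (n / l) = 0 := by
          unfold rg
          rw [if_neg]
          intro h3
          apply hz
          have h4 : Rgh y (l * (n / l)) := (Pool.MP_dd84fd_nt.HX.rgh_mul_iff _ _ _).2 ⟨hc l hcl, h3⟩
          rw [SId_div hl] at h4
          exact SId_mono hzy h4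
        rw [h2, mul_zero, ite_self]
    rw [e0]
    symm
    have e1 : ∑ m ∈ n.divisors.filter (fun m => 0 < m), cA1 z y U c m * rg z (n / m) = 0 := by
      refine sum_eq_zero fun m hm => ?_
      unfold cA1
      split_ifs
      · rw [mul_right_comm, hz0 m (mem_filter.1 hm).1, zero_mul]
      · rw [zero_mul]
    have e2 : ∑ a ∈ n.divisors.filter (fun a => U < a), cA2 z y U c a * kB2 z y a (n / a) = 0 := by
      refine sum_eq_zero fun a ha => ?_
      unfold cA2 kB2
      split_ifs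
      · rw [mul_right_comm, hz0 a (mem_filter.1 ha).1, zero_mul]
      · rw [mul_zero]
    rw [e1, e2, add_zero]

theorem gam_abs (y : ℕ) (c : ℕ → ℝ) (Gc : ℝ) (hc : ∀ l, |c l| ≤ Gc) (m : ℕ) :
    |gam y c m| ≤ Gc := by
  unfold gam
  rw [abs_mul]
  have h1 := Pool.MP_dd84fd_nt.HX.mr_le (sm y m)
  calc |c (ro y m)| * |mr (sm y m)| ≤ |c (ro y m)| * 1 :=
        mul_le_mul_of_nonneg_left h1 (abs_nonneg _)
    _ ≤ Gc := by rw [mul_one]; exact hc _

theorem ga_abs (y U : ℕ) (c : ℕ → ℝ) (Gc : ℝ) (hc : ∀ l, |c l| ≤ Gc) (a : ℕ) :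
    |ga y U c a| ≤ Gc := by
  unfold ga
  split_ifs
  · exact gam_abs y c Gc hc a
  · rw [abs_zero]
    exact (abs_nonneg _).trans (hc 0)

theorem ga_le (y U : ℕ) (c : ℕ → ℝ) (a : ℕ) (ha : U < a) (h : ga y U c a ≠ 0) :
    a ≤ (U + 1) * y ∧ (sm y a).minFac < y := by
  unfold ga at h
  split_ifs at h with h1
  · have ha' : (U : ℝ) + 1 ≤ (a : ℝ) := by exact_mod_cast ha
    have h2 : sm y a ≠ 1 := by
      intro h3
      rw [h3, Nat.minFac_one, Nat.cast_one, mul_one] at h1
      linarith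
    have h3 : (sm y a).minFac < y := by
      refine Pool.MP_dd84fd_nt.HX.sm_smo y a _ ?_
      rw [Nat.mem_primeFactors]
      exact ⟨Nat.minFac_prime h2, Nat.minFac_dvd _, (Pool.MP_dd84fd_nt.HX.sm_pos y a).ne'⟩
    refine ⟨?_, h3⟩
    have h4 : (a : ℝ) < ((U : ℝ) + 1) * (y : ℝ) := by
      refine h1.trans_le ?_
      have h5 : ((sm y a).minFac : ℝ) ≤ (y : ℝ) := by exact_mod_cast h3.le
      exact mul_le_mul_of_nonneg_left h5 (by positivity)
    have h6 : a < (U + 1) * y := by exact_mod_cast h4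
    exact h6.le
  · exact absurd rfl h

end Pool.MP_dd84fd_nt.BY
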