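import Pool.Agent.Lib.MP_dd84fd_nt.BY.SDefs
import Pool.Agent.Lib.MP_dd84fd_nt.BX.LsB
import Pool.Agent.Lib.MP_dd84fd_nt.HX.DcRg

/-!
# BY/SRg (0.7 h): the large sieve for rough numbers and for the deficiency (helper18; helper39)

From `BX.ls_mul` (LsB) with the weight `w n = ∑_{e ∣ n} s e` (`b = 1`, level `z^16`, `∑ |s e| ≤ z^16`),
`w ≥ 1` on rough numbers (`lo`), so `∑ ‖a‖²/w ≤ ∑ ‖a‖²`; the first factor is
`∑ w + #Y z^16 P2 ≤ CS H / log z + z^16 + N z^16 P2`.  `th_ls`: weight `w = ∑ θ`, `a = D = ∑ s - rg`,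
`0 ≤ D ≤ w` (`lo`, `up`), `∑ D²/w ≤ ∑ w`.
-/

set_option autoImplicit false

namespace Pool.MP_dd84fd_nt.BY

open Finset
open Pool.MP_dd84fd_nt.HX (rg Rgh)
open Pool.MP_dd84fd_nt.BX (ChF nt Cells Bil)

private theorem srg_div (s : ℕ → ℝ) (N : ℕ) (hs : ∀ e, s e ≠ 0 → 1 ≤ e ∧ e ≤ N) (n : ℕ)
    (hn : 1 ≤ n) :
    ∑ e ∈ n.divisors, s e = ∑ e ∈ Icc 1 N, if e ∣ n then s e else 0 := by
  rw [← sum_filter]
  symm
  refine sum_subset ?_ ?_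
  · intro e he
    rw [mem_filter] at he
    exact Nat.mem_divisors.2 ⟨he.2, by omega⟩
  · intro e he he'
    by_contra h
    obtain ⟨h1, h2⟩ := hs e h
    exact he' (mem_filter.2 ⟨mem_Icc.2 ⟨h1, h2⟩, (Nat.mem_divisors.1 he).1⟩)

private theorem srg_abs (s : ℕ → ℝ) (N : ℕ) (hs : ∀ e, |s e| ≤ 1) :
    ∑ e ∈ Icc 1 N, |s e| ≤ N := by
  calc ∑ e ∈ Icc 1 N, |s e| ≤ ∑ _e ∈ Icc 1 N, (1 : ℝ) := sum_le_sum fun e _ => hs e
    _ = N := by simp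

private theorem srg_sup (s : ℕ → ℝ) (z k : ℕ) (hs : ∀ e, s e ≠ 0 → 1 ≤ e ∧ (e : ℝ) ≤ (z : ℝ) ^ k) :
    ∀ e, s e ≠ 0 → 1 ≤ e ∧ e ≤ z ^ k := by
  intro e he
  obtain ⟨h1, h2⟩ := hs e he
  exact ⟨h1, by exact_mod_cast h2⟩

/-- the number of rough numbers in an interval -/
theorem rg_cnt {CS : ℝ} (hS : SvIn CS) {z : ℕ} (hz : 2 ≤ z) (u v : ℕ) (huv : u ≤ v) :
    ∑ n ∈ Ioc u v, rg z n ≤ CS * ((v : ℝ) - u) / Real.log z + (z : ℝ) ^ (16 : ℕ) := by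
  obtain ⟨s, θ, h⟩ := hS 1 z hz
  refine le_trans (sum_le_sum fun n hn => h.lo n ?_) (h.ms u v huv)
  rw [mem_Ioc] at hn
  omega

theorem rg_ls {CS : ℝ} (hS : SvIn CS) {ι : Type} {Y : Finset ι} {f : ι → ℕ → ℂ} {P1 P2 N : ℝ}
    (hF : ChF Y f P1 P2) (hP2 : 0 ≤ P2) (hY : (Y.card : ℝ) ≤ N) {z : ℕ} (hz : 2 ≤ z) (u v : ℕ)
    (huv : u ≤ v) (a : ℕ → ℂ) (ha : ∀ n ∈ Ioc u v, a n ≠ 0 → rg z n = 1) :
    ∑ i ∈ Y, ‖∑ n ∈ Ioc u v, a n * f i n‖ ^ 2 ≤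
      (CS * ((v : ℝ) - u) / Real.log z + (1 + N * P2) * (z : ℝ) ^ (16 : ℕ)) *
        ∑ n ∈ Ioc u v, ‖a n‖ ^ 2 := by
  obtain ⟨s, θ, h⟩ := hS 1 z hz
  have hn1 : ∀ n ∈ Ioc u v, 1 ≤ n := fun n hn => by
    rw [mem_Ioc] at hn
    omega
  have hlo : ∀ n ∈ Ioc u v, rg z n ≤ ∑ e ∈ n.divisors, s e := fun n hn => h.lo n (hn1 n hn)
  have h1 := BX.ls_mul Y f hF.bd hF.mul P2 hP2 hF.pv2 (Icc 1 (z ^ (4 * 1 + 12))) s u v
    (fun n => ∑ e ∈ n.divisors, s e)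
    (fun n hn => srg_div s _ (srg_sup s z _ h.ss) n (hn1 n hn))
    (fun n hn => (HX.rg_nonneg z n).1.trans (hlo n hn)) a (fun n hn h0 => by
      by_contra h2
      have h3 := hlo n hn
      rw [ha n hn h2, h0] at h3
      linarith)
  have h2 : ∑ n ∈ Ioc u v, ‖a n‖ ^ 2 / (∑ e ∈ n.divisors, s e) ≤ ∑ n ∈ Ioc u v, ‖a n‖ ^ 2 := by
    refine sum_le_sum fun n hn => ?_
    by_cases h0 : a n = 0
    · rw [h0]
      simp
    · have h3 := hlo n hn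
      rw [ha n hn h0] at h3
      exact div_le_self (by positivity) h3
  have hms := h.ms u v huv
  have hab := srg_abs s (z ^ (4 * 1 + 12)) h.bs
  have hab0 : 0 ≤ ∑ e ∈ Icc 1 (z ^ (4 * 1 + 12)), |s e| := sum_nonneg fun e _ => abs_nonneg _
  push_cast at hab
  have hN : 0 ≤ N := (Nat.cast_nonneg _).trans hY
  have h3 : ∑ n ∈ Ioc u v, ∑ e ∈ n.divisors, s e +
      Y.card * (∑ e ∈ Icc 1 (z ^ (4 * 1 + 12)), |s e|) * P2 ≤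
      CS * ((v : ℝ) - u) / Real.log z + (1 + N * P2) * (z : ℝ) ^ (16 : ℕ) := by
    have h4 : (Y.card : ℝ) * (∑ e ∈ Icc 1 (z ^ (4 * 1 + 12)), |s e|) * P2 ≤
        N * (z : ℝ) ^ (4 * 1 + 12) * P2 :=
      mul_le_mul_of_nonneg_right (mul_le_mul hY hab hab0 hN) hP2
    calc _ ≤ (CS * ((v : ℝ) - u) / Real.log z + (z : ℝ) ^ (4 * 1 + 12)) +
          N * (z : ℝ) ^ (4 * 1 + 12) * P2 := add_le_add hms h4
      _ = _ := by ring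
  refine h1.trans (mul_le_mul h3 h2 (sum_nonneg fun n hn => ?_) (le_trans ?_ h3))
  · exact div_nonneg (by positivity) ((HX.rg_nonneg z n).1.trans (hlo n hn))
  · refine add_nonneg (sum_nonneg fun n hn => (HX.rg_nonneg z n).1.trans (hlo n hn)) ?_
    exact mul_nonneg (mul_nonneg (Nat.cast_nonneg _) hab0) hP2

theorem th_ls {CS : ℝ} {b z : ℕ} {s θ : ℕ → ℝ} (hS : SvD CS b z s θ) {ι : Type} {Y : Finset ι}
    {f : ι → ℕ → ℂ} {P1 P2 N : ℝ} (hF : ChF Y f P1 P2) (hP2 : 0 ≤ P2) (hY : (Y.card : ℝ) ≤ N)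
    (hz : 2 ≤ z) (u v : ℕ) (huv : u ≤ v) :
    ∑ i ∈ Y, ‖∑ n ∈ Ioc u v, ((∑ e ∈ n.divisors, s e - rg z n : ℝ) : ℂ) * f i n‖ ^ 2 ≤
      (CS * Real.exp (-b) * ((v : ℝ) - u) / Real.log z +
        (1 + N * P2) * (z : ℝ) ^ (4 * b + 12)) ^ 2 := by
  have hn1 : ∀ n ∈ Ioc u v, 1 ≤ n := fun n hn => by
    rw [mem_Ioc] at hn
    omega
  have hlo : ∀ n ∈ Ioc u v, 0 ≤ ∑ e ∈ n.divisors, s e - rg z n := fun n hn =>
    sub_nonneg.2 (hS.lo n (hn1 n hn))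
  have hup : ∀ n ∈ Ioc u v, ∑ e ∈ n.divisors, s e - rg z n ≤ ∑ e ∈ n.divisors, θ e :=
    fun n hn => hS.up n (hn1 n hn)
  have hw0 : ∀ n ∈ Ioc u v, 0 ≤ ∑ e ∈ n.divisors, θ e := fun n hn => (hlo n hn).trans (hup n hn)
  have h1 := BX.ls_mul Y f hF.bd hF.mul P2 hP2 hF.pv2 (Icc 1 (z ^ (4 * b + 12))) θ u v
    (fun n => ∑ e ∈ n.divisors, θ e)
    (fun n hn => srg_div θ _ (srg_sup θ z _ hS.st) n (hn1 n hn)) hw0
    (fun n => ((∑ e ∈ n.divisors, s e - rg z n : ℝ) : ℂ)) (fun n hn h0 => by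
      have h2 := hlo n hn
      have h3 := hup n hn
      rw [h0] at h3
      have h4 : ∑ e ∈ n.divisors, s e - rg z n = 0 := le_antisymm h3 h2
      show ((∑ e ∈ n.divisors, s e - rg z n : ℝ) : ℂ) = 0
      rw [h4]
      simp)
  have h2 : ∑ n ∈ Ioc u v, ‖((∑ e ∈ n.divisors, s e - rg z n : ℝ) : ℂ)‖ ^ 2 /
      (∑ e ∈ n.divisors, θ e) ≤ ∑ n ∈ Ioc u v, ∑ e ∈ n.divisors, θ e := by
    refine sum_le_sum fun n hn => ?_
    rw [Complex.norm_real, Real.norm_of_nonneg (hlo n hn)]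
    refine div_le_of_le_mul₀ (hw0 n hn) (hw0 n hn) ?_
    rw [← pow_two]
    exact pow_le_pow_left₀ (hlo n hn) (hup n hn) 2
  have hmt := hS.mt u v huv
  have hab := srg_abs θ (z ^ (4 * b + 12)) hS.bt
  have hab0 : 0 ≤ ∑ e ∈ Icc 1 (z ^ (4 * b + 12)), |θ e| := sum_nonneg fun e _ => abs_nonneg _
  push_cast at hab
  have hN : 0 ≤ N := (Nat.cast_nonneg _).trans hY
  have hW0 : 0 ≤ ∑ n ∈ Ioc u v, ∑ e ∈ n.divisors, θ e := sum_nonneg hw0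
  have h4 : (Y.card : ℝ) * (∑ e ∈ Icc 1 (z ^ (4 * b + 12)), |θ e|) * P2 ≤
      N * (z : ℝ) ^ (4 * b + 12) * P2 :=
    mul_le_mul_of_nonneg_right (mul_le_mul hY hab hab0 hN) hP2
  have h40 : 0 ≤ (Y.card : ℝ) * (∑ e ∈ Icc 1 (z ^ (4 * b + 12)), |θ e|) * P2 :=
    mul_nonneg (mul_nonneg (Nat.cast_nonneg _) hab0) hP2
  have h3 : ∑ n ∈ Ioc u v, ∑ e ∈ n.divisors, θ e +
      Y.card * (∑ e ∈ Icc 1 (z ^ (4 * b + 12)), |θ e|) * P2 ≤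
      CS * Real.exp (-b) * ((v : ℝ) - u) / Real.log z + (1 + N * P2) * (z : ℝ) ^ (4 * b + 12) := by
    calc _ ≤ (CS * Real.exp (-b) * ((v : ℝ) - u) / Real.log z + (z : ℝ) ^ (4 * b + 12)) +
          N * (z : ℝ) ^ (4 * b + 12) * P2 := add_le_add hmt h4
      _ = _ := by ring
  have h5 : ∑ n ∈ Ioc u v, ∑ e ∈ n.divisors, θ e ≤
      CS * Real.exp (-b) * ((v : ℝ) - u) / Real.log z + (1 + N * P2) * (z : ℝ) ^ (4 * b + 12) :=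
    le_trans (le_add_of_nonneg_right h40) h3
  rw [pow_two]
  refine h1.trans (mul_le_mul h3 (h2.trans h5) (sum_nonneg fun n hn => ?_) (hW0.trans h5))
  exact div_nonneg (by positivity) (hw0 n hn)

/-- the sieve weight against one character -/
theorem s_pv {CS : ℝ} {b z : ℕ} {s θ : ℕ → ℝ} (hS : SvD CS b z s θ) (f : ℕ → ℂ) (P : ℝ)
    (hm : ∀ m n, f (m * n) = f m * f n) (hf : ∀ n, ‖f n‖ ≤ 1)
    (hP : ∀ a b : ℕ, ‖∑ n ∈ Ioc a b, f n‖ ≤ P) (u v : ℕ) :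
    ‖∑ n ∈ Ioc u v, ((∑ e ∈ n.divisors, s e : ℝ) : ℂ) * f n‖ ≤ (z : ℝ) ^ (4 * b + 12) * P := by
  have hP0 : 0 ≤ P := (norm_nonneg _).trans (hP 0 0)
  have h1 : ∑ n ∈ Ioc u v, ((∑ e ∈ n.divisors, s e : ℝ) : ℂ) * f n =
      ∑ e ∈ Icc 1 (z ^ (4 * b + 12)), (s e : ℂ) * (f e * ∑ m ∈ Ioc (u / e) (v / e), f m) := by
    have h2 : ∀ n ∈ Ioc u v, ((∑ e ∈ n.divisors, s e : ℝ) : ℂ) * f n =
        ∑ e ∈ Icc 1 (z ^ (4 * b + 12)), (s e : ℂ) * (if e ∣ n then f n else 0) := by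
      intro n hn
      have hn1 : 1 ≤ n := by
        rw [mem_Ioc] at hn
        omega
      rw [srg_div s _ (srg_sup s z _ hS.ss) n hn1]
      push_cast
      rw [sum_mul]
      refine sum_congr rfl fun e _ => ?_
      split_ifs <;> simp
    rw [sum_congr rfl h2, sum_comm]
    refine sum_congr rfl fun e he => ?_
    rw [mem_Icc] at he
    have h3 : ∑ m ∈ Ioc (u / e) (v / e), f (e * m) = f e * ∑ m ∈ Ioc (u / e) (v / e), f m := by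
      rw [mul_sum]
      exact sum_congr rfl fun m _ => hm e m
    rw [← mul_sum, BX.sum_mult u v e he.1 f, h3]
  rw [h1]
  refine (norm_sum_le _ _).trans ?_
  have h3 : ∀ e ∈ Icc 1 (z ^ (4 * b + 12)),
      ‖(s e : ℂ) * (f e * ∑ m ∈ Ioc (u / e) (v / e), f m)‖ ≤ |s e| * P := by
    intro e _
    rw [norm_mul, norm_mul, Complex.norm_real, Real.norm_eq_abs]
    refine mul_le_mul_of_nonneg_left ?_ (abs_nonneg _)
    calc ‖f e‖ * ‖∑ m ∈ Ioc (u / e) (v / e), f m‖ ≤ 1 * P :=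
          mul_le_mul (hf e) (hP _ _) (norm_nonneg _) zero_le_one
      _ = P := one_mul P
  refine (sum_le_sum h3).trans ?_
  rw [← sum_mul]
  have hab := srg_abs s (z ^ (4 * b + 12)) hS.bs
  push_cast at hab
  exact mul_le_mul_of_nonneg_right hab hP0

end Pool.MP_dd84fd_nt.BY
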