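import Pool.Agent.Lib.MP_dd84fd_nt.BX.CWin
import Pool.Agent.Lib.MP_dd84fd_nt.BY.SRg

/-!
# BY/SWin (1 h): the window lemma for rough coefficients (helper18)

`BX.exists_grid` (`R δ ≤ 2 log V + 1 ≤ 3 log X`) and `BX.window` with `Ca = 3 CS Ga / log z`,
`Cb = 3 CS Gb / log z`.  `hA`: `gI U V δ r` is `Ioc A B` with `B - A ≤ δ y_r + 1 ≤ 2 δ y_r` (`y_r ≥ U`,
`dU`); `rg_ls`: first factor `≤ CS 2 δ y_r / log z + (1 + N P) z^16 ≤ 3 CS δ y_r / log z` (`1 + N P ≤ 2 N P`,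
`aU`, `y_r ≥ U`); `∑ ‖a‖² ≤ Ga² ∑ rg ≤ Ga² (3 CS δ y_r / log z)` (`rg_cnt`).  `hB`: the window has length
`≤ h / y_r + 1 ≤ 2 h / y_r` (`y_r < V ≤ h`), the same with `bV` (`h / y_r ≥ h / V`).
Result: `3 log X (3 CS / log z)² Ga Gb √T h + #Y √T 2 Ga Gb (δ X log X + V)`; `er`: the last term is
`≤ Ga Gb √T h / log X`; `log X ≤ q log z`: total `≤ 28 CS² q² Ga Gb √T h / log X`.
-/

set_option autoImplicit false

namespace Pool.MP_dd84fd_nt.BY

open Finset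
open Pool.MP_dd84fd_nt.HX (rg Rgh)
open Pool.MP_dd84fd_nt.BX (ChF nt Cells Bil)

private theorem sw_rg (z n : ℕ) : rg z n = 0 ∨ rg z n = 1 := by
  unfold rg
  split_ifs
  · right; rfl
  · left; rfl

private theorem sw_supp {z : ℕ} {a : ℕ → ℂ} {Ga : ℝ} (ha : ∀ l, ‖a l‖ ≤ Ga * rg z l) (n : ℕ)
    (h : a n ≠ 0) : rg z n = 1 := by
  rcases sw_rg z n with h0 | h1
  · exfalso
    apply h
    have := ha n
    rw [h0, mul_zero] at this
    exact norm_le_zero_iff.1 this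
  · exact h1

/-- the square bound on one interval of length at most `2 H` -/
private theorem sw_sq {CS : ℝ} (hS : SvIn CS) (hCS : 1 ≤ CS) {z : ℕ} {P N : ℝ} (hz : 2 ≤ z)
    (hP : 1 ≤ P) (hN : 1 ≤ N) {ι : Type} {Y : Finset ι} {f : ι → ℕ → ℂ}
    (hF : ChF Y f P P) (hY : (Y.card : ℝ) ≤ N) (a : ℕ → ℂ) (Ga : ℝ) (hGa : 0 ≤ Ga)
    (ha : ∀ l, ‖a l‖ ≤ Ga * rg z l) (u v : ℕ) (huv : u ≤ v) (H : ℝ) (hH : (v : ℝ) - u ≤ 2 * H)
    (hQ : 2 * N * (z : ℝ) ^ (16 : ℕ) * P ≤ CS * H / Real.log z) :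
    ∑ i ∈ Y, ‖∑ n ∈ Ioc u v, a n * f i n‖ ^ 2 ≤ (3 * CS * Ga / Real.log z * H) ^ 2 := by
  have hlz : 0 < Real.log z := Real.log_pos (by exact_mod_cast (by omega : 1 < z))
  have hCS0 : 0 ≤ CS := by linarith
  have hz16 : 0 ≤ (z : ℝ) ^ (16 : ℕ) := by positivity
  set Q : ℝ := CS * H / Real.log z with hQdef
  have hNP : 1 ≤ N * P := by nlinarith
  have e1 : CS * ((v : ℝ) - u) / Real.log z ≤ 2 * Q := by
    rw [hQdef, ← mul_div_assoc]
    apply div_le_div_of_nonneg_right _ hlz.le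
    calc CS * ((v : ℝ) - u) ≤ CS * (2 * H) := mul_le_mul_of_nonneg_left hH hCS0
      _ = 2 * (CS * H) := by ring
  have e2 : (1 + N * P) * (z : ℝ) ^ (16 : ℕ) ≤ Q := by
    refine le_trans ?_ hQ
    calc (1 + N * P) * (z : ℝ) ^ (16 : ℕ) ≤ (2 * (N * P)) * (z : ℝ) ^ (16 : ℕ) :=
          mul_le_mul_of_nonneg_right (by linarith) hz16
      _ = 2 * N * (z : ℝ) ^ (16 : ℕ) * P := by ring
  have e3 : (z : ℝ) ^ (16 : ℕ) ≤ Q := by
    refine le_trans ?_ e2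
    nlinarith
  have hQ0 : 0 ≤ Q := hz16.trans e3
  have h1 := rg_ls hS hF (by linarith) hY hz u v huv a (fun n _ hn => sw_supp ha n hn)
  have h2 : ∑ n ∈ Ioc u v, ‖a n‖ ^ 2 ≤ Ga ^ 2 * (3 * Q) := by
    calc ∑ n ∈ Ioc u v, ‖a n‖ ^ 2 ≤ ∑ n ∈ Ioc u v, Ga ^ 2 * rg z n := by
          refine sum_le_sum fun n _ => ?_
          have h3 : ‖a n‖ ^ 2 ≤ (Ga * rg z n) ^ 2 := pow_le_pow_left₀ (norm_nonneg _) (ha n) 2
          rcases sw_rg z n with h0 | h1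
          · rw [h0] at h3 ⊢
            simpa using h3
          · rw [h1] at h3 ⊢
            simpa using h3
      _ = Ga ^ 2 * ∑ n ∈ Ioc u v, rg z n := by rw [mul_sum]
      _ ≤ Ga ^ 2 * (3 * Q) := by
          refine mul_le_mul_of_nonneg_left ?_ (by positivity)
          have := rg_cnt hS hz u v huv
          linarith
  calc _ ≤ _ := h1
    _ ≤ (3 * Q) * (Ga ^ 2 * (3 * Q)) :=
        mul_le_mul (by linarith) h2 (sum_nonneg fun n _ => by positivity) (by linarith)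
    _ = (3 * CS * Ga / Real.log z * H) ^ 2 := by
        rw [hQdef]
        ring

theorem winR {CS : ℝ} (hS : SvIn CS) {X h z U V : ℕ} {q δ P N : ℝ}
    (hp : PW CS X h z U V q δ P N) {ι : Type} {Y : Finset ι} {f : ι → ℕ → ℂ}
    (hF : ChF Y f P P) (hY : (Y.card : ℝ) ≤ N) (T : ℕ) (α β : ℕ → ℕ) (hc : Cells X h T α β)
    (a b : ℕ → ℂ) (Ga Gb : ℝ) (hGa : 0 ≤ Ga) (hGb : 0 ≤ Gb) (ha : ∀ l, ‖a l‖ ≤ Ga * rg z l)
    (hb : ∀ k, ‖b k‖ ≤ Gb * rg z k) :
    ∑ i ∈ Y, nt T (fun t => Bil a b U V (f i) (α t) (β t)) ≤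
      28 * CS ^ 2 * q ^ 2 * (Ga * Gb) * (Real.sqrt T * h / Real.log X) := by
  obtain ⟨R, hR1, hR2, hR3⟩ := BX.exists_grid U V δ hp.U1 hp.UV hp.d0 hp.d1
  have hz := hp.z2
  have hlz : 0 < Real.log z := Real.log_pos (by exact_mod_cast (by omega : 1 < z))
  have hlX : 0 < Real.log X := by linarith [hp.lX]
  have hCS0 : 0 ≤ CS := by linarith [hp.CS1]
  have hVX : V ≤ X := hp.Vh.trans hp.hX
  have hU0 : (1 : ℝ) ≤ U := by exact_mod_cast hp.U1
  have hV0 : (0 : ℝ) < V := by exact_mod_cast (by have := hp.U1; have := hp.UV; omega : 0 < V)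
  have hVh : (V : ℝ) ≤ h := by exact_mod_cast hp.Vh
  have hy : ∀ r, (U : ℝ) ≤ BX.yg U δ r := by
    intro r
    unfold BX.yg
    have : (1 : ℝ) ≤ (1 + δ) ^ r := one_le_pow₀ (by linarith [hp.d0])
    nlinarith
  have hrg1 : ∀ n, rg z n ≤ 1 := by
    intro n
    rcases sw_rg z n with h | h <;> rw [h] <;> norm_num
  have hA : ∀ r < R, ∑ i ∈ Y, ‖BX.Aw a U V δ (f i) r‖ ^ 2 ≤
      (3 * CS * Ga / Real.log z * (δ * BX.yg U δ r)) ^ 2 := by
    intro r hr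
    have hyr := hy r
    have hyV := hR2 r hr
    have hfl : ⌊BX.yg U δ r⌋₊ ≤ V := by
      have : (⌊BX.yg U δ r⌋₊ : ℝ) ≤ BX.yg U δ r := Nat.floor_le (by linarith)
      exact_mod_cast this.trans hyV.le
    have hsucc : BX.yg U δ (r + 1) = (1 + δ) * BX.yg U δ r := by
      unfold BX.yg
      rw [pow_succ]
      ring
    have hd := hp.d0
    have hmono : BX.yg U δ r ≤ BX.yg U δ (r + 1) := by
      rw [hsucc]
      nlinarith
    have h1 : min ⌊BX.yg U δ r⌋₊ V ≤ min ⌊BX.yg U δ (r + 1)⌋₊ V :=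
      min_le_min_right _ (Nat.floor_le_floor hmono)
    have h2 : ((min ⌊BX.yg U δ (r + 1)⌋₊ V : ℕ) : ℝ) - ((min ⌊BX.yg U δ r⌋₊ V : ℕ) : ℝ) ≤
        2 * (δ * BX.yg U δ r) := by
      rw [min_eq_left hfl]
      have h3 : ((min ⌊BX.yg U δ (r + 1)⌋₊ V : ℕ) : ℝ) ≤ BX.yg U δ (r + 1) := by
        have h4 : (⌊BX.yg U δ (r + 1)⌋₊ : ℝ) ≤ BX.yg U δ (r + 1) := Nat.floor_le (by linarith)
        have h5 : ((min ⌊BX.yg U δ (r + 1)⌋₊ V : ℕ) : ℝ) ≤ (⌊BX.yg U δ (r + 1)⌋₊ : ℝ) := by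
          exact_mod_cast min_le_left _ _
        exact h5.trans h4
      have h6 := Nat.lt_floor_add_one (BX.yg U δ r)
      have h7 : 1 ≤ δ * BX.yg U δ r := hp.dU.trans (mul_le_mul_of_nonneg_left hyr hd.le)
      have h8 := h3.trans (le_of_eq hsucc)
      linarith
    unfold BX.Aw BX.gI
    refine sw_sq hS hp.CS1 hz hp.P1 hp.N1 hF hY a Ga hGa ha _ _ h1 _ h2 (hp.aU.trans ?_)
    apply div_le_div_of_nonneg_right _ hlz.le
    exact mul_le_mul_of_nonneg_left (mul_le_mul_of_nonneg_left hyr hd.le) hCS0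
  have hB : ∀ r < R, ∀ t ∈ Icc 1 T, ∑ i ∈ Y, ‖BX.Bw b U δ (f i) (α t) (β t) r‖ ^ 2 ≤
      (3 * CS * Gb / Real.log z * ((h : ℝ) / BX.yg U δ r)) ^ 2 := by
    intro r hr t ht
    obtain ⟨c1, c2, c3, c4⟩ := hc t ht
    have hyr := hy r
    have hyV := hR2 r hr
    have hy0 : 0 < BX.yg U δ r := by linarith
    have c2' : (α t : ℝ) ≤ β t := by exact_mod_cast c2
    have c3' : (β t : ℝ) ≤ α t + h := by exact_mod_cast c3
    have h1 : ⌊(α t : ℝ) / BX.yg U δ r⌋₊ ≤ ⌊(β t : ℝ) / BX.yg U δ r⌋₊ :=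
      Nat.floor_le_floor (div_le_div_of_nonneg_right c2' hy0.le)
    have h2 : (⌊(β t : ℝ) / BX.yg U δ r⌋₊ : ℝ) - (⌊(α t : ℝ) / BX.yg U δ r⌋₊ : ℝ) ≤
        2 * ((h : ℝ) / BX.yg U δ r) := by
      have h3 : (⌊(β t : ℝ) / BX.yg U δ r⌋₊ : ℝ) ≤ (β t : ℝ) / BX.yg U δ r :=
        Nat.floor_le (by positivity)
      have h4 := Nat.lt_floor_add_one ((α t : ℝ) / BX.yg U δ r)
      have h5 : (β t : ℝ) / BX.yg U δ r ≤ (α t : ℝ) / BX.yg U δ r + h / BX.yg U δ r := by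
        rw [← add_div]
        exact div_le_div_of_nonneg_right c3' hy0.le
      have h6 : 1 ≤ (h : ℝ) / BX.yg U δ r := by
        rw [le_div_iff₀ hy0]
        linarith
      linarith
    unfold BX.Bw
    refine sw_sq hS hp.CS1 hz hp.P1 hp.N1 hF hY b Gb hGb hb _ _ h1 _ h2 (hp.bV.trans ?_)
    apply div_le_div_of_nonneg_right _ hlz.le
    exact mul_le_mul_of_nonneg_left
      (div_le_div_of_nonneg_left (Nat.cast_nonneg _) hy0 hyV.le) hCS0
  have hw := BX.window Y f a b X T U V R δ h (3 * CS * Ga / Real.log z)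
    (3 * CS * Gb / Real.log z) Ga Gb α β (fun i hi n => hF.bd i hi n) hp.U1 hp.UV hVX hp.d0 hp.d1
    (Nat.cast_nonneg _) (by positivity) (by positivity) hGa hGb
    (fun l _ => (ha l).trans (by have := hrg1 l; nlinarith))
    (fun k _ => (hb k).trans (by have := hrg1 k; nlinarith)) hR1
    (fun t ht => ⟨(hc t ht).2.1, (hc t ht).2.2.2⟩) hA hB
  refine hw.trans ?_
  have hsT : 0 ≤ Real.sqrt T * h := by positivity
  have hG0 : 0 ≤ Ga * Gb := mul_nonneg hGa hGb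
  -- main term
  have m1 : R * δ ≤ 3 * Real.log X := by
    have : Real.log V ≤ Real.log X := Real.log_le_log hV0 (by exact_mod_cast hVX)
    linarith [hp.lX]
  have m2 : (3 * CS * Ga / Real.log z) * (3 * CS * Gb / Real.log z) * Real.log X ≤
      9 * CS ^ 2 * q ^ 2 * (Ga * Gb) / Real.log X := by
    rw [le_div_iff₀ hlX]
    have h1 : Real.log X ^ 2 ≤ (q * Real.log z) ^ 2 := pow_le_pow_left₀ hlX.le hp.Xz 2
    calc (3 * CS * Ga / Real.log z) * (3 * CS * Gb / Real.log z) * Real.log X * Real.log X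
        = 9 * CS ^ 2 * (Ga * Gb) / (Real.log z) ^ 2 * Real.log X ^ 2 := by ring
      _ ≤ 9 * CS ^ 2 * (Ga * Gb) / (Real.log z) ^ 2 * (q * Real.log z) ^ 2 :=
          mul_le_mul_of_nonneg_left h1 (by positivity)
      _ = 9 * CS ^ 2 * q ^ 2 * (Ga * Gb) := by
          field_simp
  have m3 : R * δ * ((3 * CS * Ga / Real.log z) * (3 * CS * Gb / Real.log z)) *
      (Real.sqrt T * h) ≤ 27 * CS ^ 2 * q ^ 2 * (Ga * Gb) * (Real.sqrt T * h / Real.log X) := by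
    have h1 : R * δ * ((3 * CS * Ga / Real.log z) * (3 * CS * Gb / Real.log z)) ≤
        3 * (9 * CS ^ 2 * q ^ 2 * (Ga * Gb) / Real.log X) := by
      calc R * δ * ((3 * CS * Ga / Real.log z) * (3 * CS * Gb / Real.log z))
          ≤ 3 * Real.log X * ((3 * CS * Ga / Real.log z) * (3 * CS * Gb / Real.log z)) :=
            mul_le_mul_of_nonneg_right m1 (by positivity)
        _ = 3 * ((3 * CS * Ga / Real.log z) * (3 * CS * Gb / Real.log z) * Real.log X) := by ring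
        _ ≤ _ := mul_le_mul_of_nonneg_left m2 (by norm_num)
    calc R * δ * ((3 * CS * Ga / Real.log z) * (3 * CS * Gb / Real.log z)) * (Real.sqrt T * h)
        ≤ 3 * (9 * CS ^ 2 * q ^ 2 * (Ga * Gb) / Real.log X) * (Real.sqrt T * h) :=
          mul_le_mul_of_nonneg_right h1 hsT
      _ = _ := by ring
  -- error term
  have e1 : (Y.card : ℝ) * (Real.sqrt T * (2 * Ga * Gb * (δ * X * Real.log X + V))) ≤
      (Ga * Gb) * (Real.sqrt T * h / Real.log X) := by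
    have hD : 0 ≤ δ * X * Real.log X + V := by
      have := hp.d0
      positivity
    have h1 : N * (2 * (δ * X * Real.log X + V)) ≤ h / Real.log X := by
      rw [le_div_iff₀ hlX]
      have := hp.er
      linarith
    calc (Y.card : ℝ) * (Real.sqrt T * (2 * Ga * Gb * (δ * X * Real.log X + V)))
        ≤ N * (Real.sqrt T * (2 * Ga * Gb * (δ * X * Real.log X + V))) :=
          mul_le_mul_of_nonneg_right hY (by positivity)
      _ = (Ga * Gb) * (Real.sqrt T * (N * (2 * (δ * X * Real.log X + V)))) := by ring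
      _ ≤ (Ga * Gb) * (Real.sqrt T * (h / Real.log X)) :=
          mul_le_mul_of_nonneg_left (mul_le_mul_of_nonneg_left h1 (Real.sqrt_nonneg _)) hG0
      _ = _ := by ring
  have e2 : (Ga * Gb) * (Real.sqrt T * h / Real.log X) ≤
      CS ^ 2 * q ^ 2 * (Ga * Gb) * (Real.sqrt T * h / Real.log X) := by
    have h1 : 1 ≤ CS ^ 2 * q ^ 2 := by
      have h2 : 1 ≤ CS * q := one_le_mul_of_one_le_of_one_le hp.CS1 hp.q1
      calc (1 : ℝ) ≤ (CS * q) ^ 2 := one_le_pow₀ h2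
        _ = _ := by ring
    have h2 : 0 ≤ (Ga * Gb) * (Real.sqrt T * h / Real.log X) := by positivity
    calc (Ga * Gb) * (Real.sqrt T * h / Real.log X)
        = 1 * ((Ga * Gb) * (Real.sqrt T * h / Real.log X)) := by ring
      _ ≤ CS ^ 2 * q ^ 2 * ((Ga * Gb) * (Real.sqrt T * h / Real.log X)) :=
          mul_le_mul_of_nonneg_right h1 h2
      _ = _ := by ring
  calc _ ≤ 27 * CS ^ 2 * q ^ 2 * (Ga * Gb) * (Real.sqrt T * h / Real.log X) +
        (Ga * Gb) * (Real.sqrt T * h / Real.log X) := add_le_add m3 e1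
    _ ≤ 27 * CS ^ 2 * q ^ 2 * (Ga * Gb) * (Real.sqrt T * h / Real.log X) +
        CS ^ 2 * q ^ 2 * (Ga * Gb) * (Real.sqrt T * h / Real.log X) := by linarith
    _ = _ := by ring

end Pool.MP_dd84fd_nt.BY
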