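import Pool.Agent.Lib.BV.Sep
import Pool.Agent.Lib.MP_dd84fd_nt.BY.SWin
import Pool.Agent.Lib.MP_dd84fd_nt.BY.SBil

/-!
# BY/SSep (0.8 h): the type II part with separated classes (helper18)

`Pool.BV.sep (G + 1)`: `[γ a + 1 ≤ γ' k] = ∑_{t ≤ G} D (γ' k) t · E t (γ a + 1)`, `‖D k t‖ ≤ F t`,
`∑ F ≤ 2 + log (G + 1)`, `‖E‖ ≤ 1`.  So the kernel form is `∑_t Bil (A · E t (γ · + 1)) (B · D (γ' ·) t)`;
`nt_sum`, `winR` for every `t` with `Ga`, `F t`.
-/

set_option autoImplicit false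

namespace Pool.MP_dd84fd_nt.BY

open Finset
open Pool.MP_dd84fd_nt.HX (rg Rgh)
open Pool.MP_dd84fd_nt.BX (ChF nt Cells Bil)

theorem sep_main {CS : ℝ} (hS : SvIn CS) {X h z U V : ℕ} {q δ P N : ℝ}
    (hp : PW CS X h z U V q δ P N) {ι : Type} {Y : Finset ι} {f : ι → ℕ → ℂ}
    (hF : ChF Y f P P) (hY : (Y.card : ℝ) ≤ N) (T : ℕ) (α β : ℕ → ℕ) (hc : Cells X h T α β)
    (A : ℕ → ℂ) (B : ℕ → ℂ) (Ga : ℝ) (hGa : 0 ≤ Ga) (hA : ∀ l, ‖A l‖ ≤ Ga * rg z l)
    (hB : ∀ k, ‖B k‖ ≤ rg z k) (G : ℕ) (γ γ' : ℕ → ℕ) (hγ : ∀ a ∈ Ioc U V, γ a ≤ G)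
    (hγ' : ∀ k ≤ X, γ' k ≤ G) :
    ∑ i ∈ Y, nt T (fun t => BilK A (fun a k => if γ a < γ' k then B k else 0) U V (f i)
        (α t) (β t)) ≤
      (2 + Real.log (G + 1)) * (28 * CS ^ 2 * q ^ 2 * Ga) *
        (Real.sqrt T * h / Real.log X) := by
  obtain ⟨F, D, E, hF0, hFs, hD, hE, hDE⟩ := Pool.BV.sep (G + 1) (by omega)
  have hlX : 0 < Real.log X := by linarith [hp.lX]
  have hCS : 1 ≤ CS := hp.CS1
  have hq : 1 ≤ q := hp.q1
  -- pointwise identity
  have key : ∀ i ∈ Y, ∀ t ∈ Icc 1 T,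
      BilK A (fun a k => if γ a < γ' k then B k else 0) U V (f i) (α t) (β t) =
        ∑ τ ∈ range (G + 1), Bil (fun a => A a * E τ (γ a + 1))
          (fun k => if k ≤ X then B k * D (γ' k) τ else 0) U V (f i) (α t) (β t) := by
    intro i _ t ht
    obtain ⟨_, _, _, hβ⟩ := hc t ht
    unfold BilK Bil
    rw [sum_comm]
    refine sum_congr rfl fun a ha => ?_
    have h1 : ∀ k ∈ Ioc (α t / a) (β t / a),
        (if γ a < γ' k then B k else 0) * f i k =
          ∑ τ ∈ range (G + 1), E τ (γ a + 1) *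
            ((if k ≤ X then B k * D (γ' k) τ else 0) * f i k) := by
      intro k hk
      have hkX : k ≤ X := (mem_Ioc.1 hk).2.trans ((Nat.div_le_self _ _).trans hβ)
      have h2 := hDE (γ' k) ((hγ' k hkX).trans (Nat.le_succ G)) (γ a + 1)
        (mem_Icc.2 ⟨by omega, by have := hγ a ha; omega⟩)
      have h3 : (if γ a < γ' k then B k else 0) = B k * (if γ a + 1 ≤ γ' k then 1 else 0) := by
        by_cases h4 : γ a < γ' k
        · rw [if_pos h4, if_pos (by omega), mul_one]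
        · rw [if_neg h4, if_neg (by omega), mul_zero]
      rw [h3, ← h2, mul_sum, sum_mul]
      refine sum_congr rfl fun τ _ => ?_
      rw [if_pos hkX]
      ring
    rw [sum_congr rfl h1, sum_comm, mul_sum]
    refine sum_congr rfl fun τ _ => ?_
    rw [← mul_sum]
    ring
  have h1 : ∀ i ∈ Y, nt T (fun t => BilK A (fun a k => if γ a < γ' k then B k else 0) U V (f i)
      (α t) (β t)) ≤ ∑ τ ∈ range (G + 1), nt T (fun t => Bil (fun a => A a * E τ (γ a + 1))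
        (fun k => if k ≤ X then B k * D (γ' k) τ else 0) U V (f i) (α t) (β t)) := by
    intro i hi
    rw [BX.nt_congr T _ _ (fun t ht => key i hi t ht)]
    exact BX.nt_sum T (range (G + 1)) (fun τ t => Bil (fun a => A a * E τ (γ a + 1))
        (fun k => if k ≤ X then B k * D (γ' k) τ else 0) U V (f i) (α t) (β t))
  refine (sum_le_sum h1).trans ?_
  rw [sum_comm]
  have hrg : ∀ n, 0 ≤ rg z n := by
    intro n
    unfold rg
    split_ifs <;> norm_num
  have h2 : ∀ τ ∈ range (G + 1), ∑ i ∈ Y, nt T (fun t => Bil (fun a => A a * E τ (γ a + 1))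
        (fun k => if k ≤ X then B k * D (γ' k) τ else 0) U V (f i) (α t) (β t)) ≤
      F τ * (28 * CS ^ 2 * q ^ 2 * Ga * (Real.sqrt T * h / Real.log X)) := by
    intro τ hτ
    have h3 := winR hS hp hF hY T α β hc (fun a => A a * E τ (γ a + 1))
      (fun k => if k ≤ X then B k * D (γ' k) τ else 0) Ga (F τ) hGa (hF0 τ) (by
        intro l
        show ‖A l * E τ (γ l + 1)‖ ≤ _
        rw [norm_mul]
        calc ‖A l‖ * ‖E τ (γ l + 1)‖ ≤ ‖A l‖ * 1 :=
              mul_le_mul_of_nonneg_left (hE _ _) (norm_nonneg _)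
          _ = ‖A l‖ := mul_one _
          _ ≤ _ := hA l) (by
        intro k
        show ‖if k ≤ X then B k * D (γ' k) τ else 0‖ ≤ _
        by_cases hk : k ≤ X
        · rw [if_pos hk, norm_mul, mul_comm]
          exact mul_le_mul (hD (γ' k) ((hγ' k hk).trans (Nat.le_succ G)) τ hτ) (hB k)
            (norm_nonneg _) (hF0 τ)
        · rw [if_neg hk, norm_zero]
          exact mul_nonneg (hF0 τ) (hrg k))
    calc _ ≤ _ := h3
      _ = _ := by ring
  refine (sum_le_sum h2).trans ?_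
  rw [← sum_mul]
  have h4 : 0 ≤ 28 * CS ^ 2 * q ^ 2 * Ga * (Real.sqrt T * h / Real.log X) := by positivity
  have h5 : ∑ τ ∈ range (G + 1), F τ ≤ 2 + Real.log (G + 1) := by
    have h6 := hFs
    push_cast at h6
    exact h6
  calc (∑ τ ∈ range (G + 1), F τ) * (28 * CS ^ 2 * q ^ 2 * Ga * (Real.sqrt T * h / Real.log X))
      ≤ (2 + Real.log (G + 1)) * (28 * CS ^ 2 * q ^ 2 * Ga * (Real.sqrt T * h / Real.log X)) :=
        mul_le_mul_of_nonneg_right h5 h4
    _ = _ := by ring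

end Pool.MP_dd84fd_nt.BY
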