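import Pool.Agent.Lib.MP_dd84fd_nt.BY.SRg
import Pool.Agent.Lib.MP_dd84fd_nt.BY.SBil

/-!
# BY/STyI (1.2 h): the type I part (helper18; helper39)

`s, θ` from `SvIn` at level `b`.  `rg z k = S k - D k`, `S = ∑ s`, `D = S - rg ∈ [0, Θ]` (`k ≥ 1`).
`S`-part: `s_pv`: inner sum `≤ z^(4b+12) P`, `∑_{m ≤ U} Ga`: `‖·‖ ≤ U Ga z^(4b+12) P` for every `t`, `i`;
`nt ≤ √T U Ga z^(4b+12) P` (`nt_const`), squares over `Y`: `≤ N T (..)² ≤ Ga² (√T h e^(-b) / log X)²` (`eI`,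
`N ≤ N²`).
`D`-part: `th_ls` on `(α/m, β/m]` (length `≤ h/m + 1 ≤ 2 h/m`): `≤ (2 CS e^(-b) (h/m) / log z + (1 + N P)
z^(4b+12))² ≤ (3 CS e^(-b) (h/m) / log z)²` (`bU`, `m ≤ U`); `mink_cells` with `A m`, `K m = 3 CS e^(-b) (h/m)
/ log z`: `∑_m Ga rg z m K m ≤ Ga 3 CS e^(-b) h CR log X / (log z)²`.
Total `≤ 2 (1 + 9 CS² CR² q⁴) e^(-2b) Ga² (√T h / log X)²`.
-/

set_option autoImplicit false

namespace Pool.MP_dd84fd_nt.BY

open Finset
open Pool.MP_dd84fd_nt.HX (rg Rgh)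
open Pool.MP_dd84fd_nt.BX (ChF nt Cells Bil)

/-- `rg` lies in `[0, 1]` -/
private theorem rg01 (z n : ℕ) : 0 ≤ rg z n ∧ rg z n ≤ 1 := by
  unfold rg
  split_ifs <;> norm_num

/-- squares of `nt` of a difference -/
private theorem nt_sub_sq (T : ℕ) (g g1 g2 : ℕ → ℂ) (h : ∀ t ∈ Icc 1 T, g t = g1 t - g2 t) :
    nt T g ^ 2 ≤ 2 * nt T g1 ^ 2 + 2 * nt T g2 ^ 2 := by
  rw [Pool.MP_dd84fd_nt.BX.nt_sq, Pool.MP_dd84fd_nt.BX.nt_sq, Pool.MP_dd84fd_nt.BX.nt_sq, mul_sum,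
    mul_sum, ← sum_add_distrib]
  refine sum_le_sum fun t ht => ?_
  rw [h t ht]
  have h1 := norm_sub_le (g1 t) (g2 t)
  have h2 := norm_nonneg (g1 t - g2 t)
  nlinarith [sq_nonneg (‖g1 t‖ - ‖g2 t‖), norm_nonneg (g1 t), norm_nonneg (g2 t)]

/-- lengths of the quotient cells -/
private theorem cell_len {α β h a U : ℕ} (ha : 1 ≤ a) (haU : a ≤ U) (hUh : U ≤ h)
    (hβ : β ≤ α + h) :
    (((β / a : ℕ) : ℝ) - ((α / a : ℕ) : ℝ)) ≤ 2 * ((h : ℝ) / a) := by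
  have ha0 : (0 : ℝ) < a := by exact_mod_cast ha
  have h1 : ((β / a : ℕ) : ℝ) ≤ (β : ℝ) / a := Nat.cast_div_le
  have h2 : (α : ℝ) / a ≤ ((α / a : ℕ) : ℝ) + 1 := by
    have := Nat.lt_div_mul_add (a := α) (b := a) (by omega)
    rw [div_le_iff₀ ha0]
    have h3 : (α : ℝ) < ((α / a : ℕ) : ℝ) * a + a := by exact_mod_cast this
    nlinarith
  have h3 : (β : ℝ) / a ≤ (α : ℝ) / a + (h : ℝ) / a := by
    rw [← add_div]
    refine div_le_div_of_nonneg_right ?_ ha0.le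
    exact_mod_cast hβ
  have h4 : (1 : ℝ) ≤ (h : ℝ) / a := by
    rw [le_div_iff₀ ha0, one_mul]
    exact_mod_cast haU.trans hUh
  linarith

theorem tyI {CS CR : ℝ} (hS : SvIn CS) (hR : RecIn CR) (hCR : 1 ≤ CR)
    {X h z y U V V2 W G b : ℕ} {q δ P N : ℝ} (hp : PY CS X h z y U V V2 W G b q δ P N)
    {ι : Type} {Y : Finset ι} {f : ι → ℕ → ℂ} (hF : ChF Y f P P) (hY : (Y.card : ℝ) ≤ N) (T : ℕ)
    (α β : ℕ → ℕ) (hc : Cells X h T α β) (A : ℕ → ℂ) (Ga : ℝ) (hGa : 0 ≤ Ga)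
    (hA : ∀ a, ‖A a‖ ≤ Ga * rg z a) :
    ∑ i ∈ Y, nt T (fun t => BilK A (fun _ k => ((rg z k : ℝ) : ℂ)) 0 U (f i) (α t) (β t)) ^ 2 ≤
      20 * CS ^ 2 * CR ^ 2 * (q ^ 4 * Real.exp (-b) ^ 2) * Ga ^ 2 *
        (Real.sqrt T * h / Real.log X) ^ 2 := by
  obtain ⟨s, θ, hD⟩ := hS b z hp.w1.z2
  have hCS := hp.w1.CS1
  have hq := hp.w1.q1
  have hN := hp.w1.N1
  have hP := hp.w1.P1
  have hlX := hp.w1.lX
  have hz2 := hp.w1.z2
  have hlz : 0 < Real.log z := Real.log_pos (by exact_mod_cast (by omega : 1 < z))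
  have hXz := hp.w1.Xz
  have hE : 0 < Real.exp (-(b : ℝ)) := Real.exp_pos _
  have hUh : U ≤ h := hp.w1.UV.trans hp.w1.Vh
  have hUX : U ≤ X := hUh.trans hp.w1.hX
  have hz0 : (0 : ℝ) < (z : ℝ) ^ (4 * b + 12) := by
    have : (0 : ℝ) < z := by exact_mod_cast (by omega : 0 < z)
    positivity
  obtain ⟨Z, hZ⟩ : ∃ Z : ℝ, Z = (z : ℝ) ^ (4 * b + 12) := ⟨_, rfl⟩
  obtain ⟨L, hL⟩ : ∃ L : ℝ, L = Real.log X := ⟨_, rfl⟩
  obtain ⟨l, hl⟩ : ∃ l : ℝ, l = Real.log z := ⟨_, rfl⟩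
  obtain ⟨E, hEd⟩ : ∃ E : ℝ, E = Real.exp (-(b : ℝ)) := ⟨_, rfl⟩
  have heI := hp.eI
  have hbU := hp.bU
  rw [← hZ, ← hL, ← hEd] at heI
  rw [← hZ, ← hEd, ← hl] at hbU
  rw [← hZ] at hz0
  rw [← hL] at hlX hXz
  rw [← hl] at hlz hXz
  rw [← hEd] at hE
  have hL0 : 0 < L := by linarith
  have hh0 : (0 : ℝ) ≤ h := Nat.cast_nonneg _
  have hT0 : (0 : ℝ) ≤ Real.sqrt T := Real.sqrt_nonneg _
  -- the two parts
  set gS : ι → ℕ → ℂ := fun i t => ∑ a ∈ Ioc 0 U, A a * f i a *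
    ∑ k ∈ Ioc (α t / a) (β t / a), ((∑ e ∈ k.divisors, s e : ℝ) : ℂ) * f i k with hgS
  set gD : ι → ℕ → ℂ := fun i t => ∑ a ∈ Ioc 0 U, A a * f i a *
    ∑ k ∈ Ioc (α t / a) (β t / a), ((∑ e ∈ k.divisors, s e - rg z k : ℝ) : ℂ) * f i k with hgD
  have hsplit : ∀ i t, BilK A (fun _ k => ((rg z k : ℝ) : ℂ)) 0 U (f i) (α t) (β t) =
      gS i t - gD i t := by
    intro i t
    simp only [hgS, hgD, BilK]
    rw [← sum_sub_distrib]
    refine sum_congr rfl fun a _ => ?_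
    rw [← mul_sub, ← sum_sub_distrib]
    congr 1
    refine sum_congr rfl fun k _ => ?_
    push_cast
    ring
  -- the sieve part
  have hSpart : ∑ i ∈ Y, nt T (gS i) ^ 2 ≤ (Real.sqrt T * (Ga * (h * E / L))) ^ 2 := by
    have hM0 : 0 ≤ (U : ℝ) * Ga * (Z * P) := by positivity
    have h1 : ∀ i ∈ Y, nt T (gS i) ^ 2 ≤ (Real.sqrt T * ((U : ℝ) * Ga * (Z * P))) ^ 2 := by
      intro i hi
      refine pow_le_pow_left₀ (Pool.MP_dd84fd_nt.BX.nt_nonneg _ _) ?_ 2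
      refine Pool.MP_dd84fd_nt.BX.nt_const T _ hM0 _ fun t _ => ?_
      simp only [hgS]
      calc ‖∑ a ∈ Ioc 0 U, A a * f i a *
            ∑ k ∈ Ioc (α t / a) (β t / a), ((∑ e ∈ k.divisors, s e : ℝ) : ℂ) * f i k‖
          ≤ ∑ a ∈ Ioc 0 U, ‖A a * f i a *
            ∑ k ∈ Ioc (α t / a) (β t / a), ((∑ e ∈ k.divisors, s e : ℝ) : ℂ) * f i k‖ :=
            norm_sum_le _ _
        _ ≤ ∑ _a ∈ Ioc 0 U, Ga * (Z * P) := by
            refine sum_le_sum fun a _ => ?_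
            rw [norm_mul, norm_mul]
            have k1 := hA a
            have k2 := hF.bd i hi a
            have k3 := s_pv hD (f i) P (hF.mul i hi) (hF.bd i hi) (hF.pv1 i hi) (α t / a) (β t / a)
            rw [← hZ] at k3
            have k4 := (rg01 z a).2
            have k5 : ‖A a‖ * ‖f i a‖ ≤ Ga := by
              calc ‖A a‖ * ‖f i a‖ ≤ (Ga * rg z a) * 1 :=
                    mul_le_mul k1 k2 (norm_nonneg _) (mul_nonneg hGa (rg01 z a).1)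
                _ ≤ Ga := by nlinarith
            exact mul_le_mul k5 k3 (norm_nonneg _) hGa
        _ = (U : ℝ) * Ga * (Z * P) := by
            rw [sum_const, Nat.card_Ioc, nsmul_eq_mul]
            simp only [Nat.sub_zero]
            ring
    have h2 : N * ((U : ℝ) * (Z * P)) ≤ h * E / L := by
      rw [le_div_iff₀ hL0]
      calc N * ((U : ℝ) * (Z * P)) * L = N * U * P * Z * L := by ring
        _ ≤ h * E := heI
    calc ∑ i ∈ Y, nt T (gS i) ^ 2 ≤ ∑ _i ∈ Y, (Real.sqrt T * ((U : ℝ) * Ga * (Z * P))) ^ 2 :=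
          sum_le_sum h1
      _ = (Y.card : ℝ) * (Real.sqrt T * ((U : ℝ) * Ga * (Z * P))) ^ 2 := by
          rw [sum_const, nsmul_eq_mul]
      _ ≤ N * (Real.sqrt T * ((U : ℝ) * Ga * (Z * P))) ^ 2 :=
          mul_le_mul_of_nonneg_right hY (sq_nonneg _)
      _ ≤ N ^ 2 * (Real.sqrt T * ((U : ℝ) * Ga * (Z * P))) ^ 2 :=
          mul_le_mul_of_nonneg_right (by nlinarith) (sq_nonneg _)
      _ = (Real.sqrt T * (Ga * (N * ((U : ℝ) * (Z * P))))) ^ 2 := by ring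
      _ ≤ (Real.sqrt T * (Ga * (h * E / L))) ^ 2 := by
          refine pow_le_pow_left₀ (by positivity) ?_ 2
          gcongr
  -- the deficiency part
  have hDpart : ∑ i ∈ Y, nt T (gD i) ^ 2 ≤
      (Real.sqrt T * (Ga * (3 * CS * CR * E * (q ^ 2) * (h / L)))) ^ 2 := by
    have h1 := mink_cells Y T (Ioc 0 U) A f hF.bd
      (fun a i t => ∑ k ∈ Ioc (α t / a) (β t / a), ((∑ e ∈ k.divisors, s e - rg z k : ℝ) : ℂ) * f i k)
      (fun a => 3 * CS * E * ((h : ℝ) / a) / l)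
      (fun a _ => by positivity)
      (by
        intro a ha _ t ht
        rw [mem_Ioc] at ha
        obtain ⟨hc1, hc2, hc3, hc4⟩ := hc t ht
        have k1 := th_ls hD hF (by linarith : (0 : ℝ) ≤ P) hY hz2 (α t / a) (β t / a)
          (Nat.div_le_div_right hc2)
        rw [← hZ, ← hEd, ← hl] at k1
        refine k1.trans ?_
        have ha0 : (0 : ℝ) < a := by exact_mod_cast ha.1
        have haU : (a : ℝ) ≤ U := by exact_mod_cast ha.2
        have k2 := cell_len ha.1 ha.2 hUh hc3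
        have k3 : CS * E * (((β t / a : ℕ) : ℝ) - ((α t / a : ℕ) : ℝ)) / l ≤
            2 * (CS * E * ((h : ℝ) / a) / l) := by
          rw [← mul_div_assoc]
          refine div_le_div_of_nonneg_right ?_ hlz.le
          have k4 : 0 ≤ CS * E := by positivity
          nlinarith
        have k4 : (1 + N * P) * Z ≤ CS * E * ((h : ℝ) / a) / l := by
          have k5 : (1 + N * P) * Z ≤ 2 * N * Z * P := by
            have : 1 ≤ N * P := by nlinarith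
            nlinarith
          refine k5.trans (hbU.trans ?_)
          refine div_le_div_of_nonneg_right ?_ hlz.le
          refine mul_le_mul_of_nonneg_left ?_ (by positivity)
          exact div_le_div_of_nonneg_left hh0 ha0 haU
        have k5 : 0 ≤ CS * E * (((β t / a : ℕ) : ℝ) - ((α t / a : ℕ) : ℝ)) / l := by
          have : ((α t / a : ℕ) : ℝ) ≤ ((β t / a : ℕ) : ℝ) := by
            exact_mod_cast Nat.div_le_div_right hc2
          have k6 : 0 ≤ ((β t / a : ℕ) : ℝ) - ((α t / a : ℕ) : ℝ) := by linarith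
          positivity
        refine pow_le_pow_left₀ (by positivity) ?_ 2
        calc CS * E * (((β t / a : ℕ) : ℝ) - ((α t / a : ℕ) : ℝ)) / l + (1 + N * P) * Z
            ≤ 2 * (CS * E * ((h : ℝ) / a) / l) + CS * E * ((h : ℝ) / a) / l := add_le_add k3 k4
          _ = 3 * CS * E * ((h : ℝ) / a) / l := by ring)
    refine h1.trans (pow_le_pow_left₀ ?_ ?_ 2)
    · exact mul_nonneg hT0 (sum_nonneg fun a _ => by positivity)
    · refine mul_le_mul_of_nonneg_left ?_ hT0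
      calc ∑ a ∈ Ioc 0 U, ‖A a‖ * (3 * CS * E * ((h : ℝ) / a) / l)
          ≤ ∑ a ∈ Ioc 0 U, Ga * (3 * CS * E * h / l) * (rg z a / a) := by
            refine sum_le_sum fun a _ => ?_
            calc ‖A a‖ * (3 * CS * E * ((h : ℝ) / a) / l)
                ≤ (Ga * rg z a) * (3 * CS * E * ((h : ℝ) / a) / l) :=
                  mul_le_mul_of_nonneg_right (hA a) (by positivity)
              _ = Ga * (3 * CS * E * h / l) * (rg z a / a) := by ring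
        _ = Ga * (3 * CS * E * h / l) * ∑ a ∈ Ioc 0 U, rg z a / a := by rw [mul_sum]
        _ ≤ Ga * (3 * CS * E * h / l) * (CR * (L / l)) := by
            refine mul_le_mul_of_nonneg_left ?_ (by positivity)
            have k1 := hR z X hz2 hp.w1.zX
            rw [← hL, ← hl] at k1
            refine le_trans ?_ k1
            refine sum_le_sum_of_subset_of_nonneg (fun a ha => ?_) fun a _ _ =>
              div_nonneg (rg01 z a).1 (Nat.cast_nonneg _)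
            rw [mem_Ioc] at ha
            rw [mem_Icc]
            omega
        _ = Ga * (3 * CS * CR * E * (L / l ^ 2) * h) := by field_simp
        _ ≤ Ga * (3 * CS * CR * E * (q ^ 2 / L) * h) := by
            have k1 : L / l ^ 2 ≤ q ^ 2 / L := by
              rw [div_le_div_iff₀ (by positivity) hL0]
              nlinarith [mul_le_mul hXz hXz hL0.le (by positivity)]
            gcongr
        _ = Ga * (3 * CS * CR * E * (q ^ 2) * (h / L)) := by ring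
  -- conclusion
  have hfin : ∑ i ∈ Y, nt T (fun t => BilK A (fun _ k => ((rg z k : ℝ) : ℂ)) 0 U (f i) (α t) (β t)) ^ 2
      ≤ 2 * (∑ i ∈ Y, nt T (gS i) ^ 2) + 2 * ∑ i ∈ Y, nt T (gD i) ^ 2 := by
    rw [mul_sum, mul_sum, ← sum_add_distrib]
    exact sum_le_sum fun i _ => nt_sub_sq T _ _ _ fun t _ => hsplit i t
  rw [← hL, ← hEd]
  have hone : 1 ≤ CS ^ 2 * CR ^ 2 * q ^ 4 := by
    have a1 : 1 ≤ CS ^ 2 := one_le_pow₀ hCS
    have a2 : 1 ≤ CR ^ 2 := one_le_pow₀ hCR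
    have a3 : 1 ≤ q ^ 4 := one_le_pow₀ hq
    have a4 : 1 ≤ CS ^ 2 * CR ^ 2 := by nlinarith
    nlinarith
  calc ∑ i ∈ Y, nt T (fun t => BilK A (fun _ k => ((rg z k : ℝ) : ℂ)) 0 U (f i) (α t) (β t)) ^ 2
      ≤ 2 * (Real.sqrt T * (Ga * (h * E / L))) ^ 2 +
        2 * (Real.sqrt T * (Ga * (3 * CS * CR * E * (q ^ 2) * (h / L)))) ^ 2 := by linarith
    _ = (2 + 18 * (CS ^ 2 * CR ^ 2 * q ^ 4)) * (E ^ 2 * Ga ^ 2 * (Real.sqrt T * h / L) ^ 2) := by ring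
    _ ≤ (20 * (CS ^ 2 * CR ^ 2 * q ^ 4)) * (E ^ 2 * Ga ^ 2 * (Real.sqrt T * h / L) ^ 2) :=
        mul_le_mul_of_nonneg_right (by linarith) (by positivity)
    _ = 20 * CS ^ 2 * CR ^ 2 * (q ^ 4 * E ^ 2) * Ga ^ 2 * (Real.sqrt T * h / L) ^ 2 := by ring

end Pool.MP_dd84fd_nt.BY
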