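import Pool.Agent.Lib.MP_dd84fd_nt.BY.SId
import Pool.Agent.Lib.MP_dd84fd_nt.BY.SDiag
import Pool.Agent.Lib.MP_dd84fd_nt.BY.SSep
import Pool.Agent.Lib.MP_dd84fd_nt.BY.STyI

/-!
# BY/SLev (1.2 h): one level, all parameters given (helper18)

`id_A` for every `n` in the cells (`n ≥ 1`), `bilK_sum` three times: `(0, U)` with `cA1`, `rg z`; `(U, V)`
with `cA2`, `kB2` (`ga_le`, `Vy`: `a ≤ V`); `(U, V2)` with `c`, `rg y`.  In the second form `k ≥ 2`
(`k > α / a ≥ ⌊h / V⌋ ≥ 2`: `WG`, `z ≥ 2`, `W ≥ y X^(1/G) ≥ 1`), so `kB2 z y a k = [p ≤ minFac k] rg z k`, `p = minFac (sm y a)`,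
`= [cg p < cg (minFac k)] rg z k + [cg p = cg (minFac k), p ≤ minFac k] rg z k` (`cg` is monotone).
First: `sep_main`, `γ a = cg G X (minFac (sm y a))` if `a ∈ Ioc U V`, `γ' k = cg G X (minFac k)`, both `≤ G`
(`p ≤ X`); second: `diag` (`cg (minFac k) = γ a` and `p < y` give `minFac k < y X^(1/G) ≤ W`).
The third form: `Bil`, `winR` with `w2`, `Ga = Gc`, `Gb = 1` (`y`-rough numbers are `z`-rough, `zy`).
`M i = (log X / (√T h)) (nt second main + nt third)`, `E i = (log X / (√T h)) (nt first + nt diag)`;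
`(x + y)² ≤ 2 x² + 2 y²`.
-/

set_option autoImplicit false

namespace Pool.MP_dd84fd_nt.BY

open Finset
open Pool.MP_dd84fd_nt.HX (rg Rgh ro sm mr Smo)
open Pool.MP_dd84fd_nt.BX (ChF nt Cells Bil nt_nonneg nt_congr nt_add)

theorem cg_le {G X p : ℕ} (hX : 0 < Real.log (X : ℝ)) (hp : p ≤ X) : cg G X p ≤ G := by
  unfold cg
  have h1 : Real.log (p : ℝ) ≤ Real.log X := by
    rcases Nat.eq_zero_or_pos p with rfl | h0
    · simp only [Nat.cast_zero, Real.log_zero]
      exact hX.le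
    · exact Real.log_le_log (by exact_mod_cast h0) (by exact_mod_cast hp)
  have h2 : (G : ℝ) * Real.log p / Real.log X ≤ G := by
    rw [div_le_iff₀ hX]
    exact mul_le_mul_of_nonneg_left h1 (Nat.cast_nonneg _)
  have h3 : ⌊(G : ℝ) * Real.log p / Real.log X⌋₊ ≤ ⌊(G : ℝ)⌋₊ := Nat.floor_mono h2
  rwa [Nat.floor_natCast] at h3

theorem cg_mono {G X p p' : ℕ} (hX : 0 < Real.log (X : ℝ)) (hp : 0 < p) (h : p ≤ p') :
    cg G X p ≤ cg G X p' := by
  unfold cg
  refine Nat.floor_mono ?_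
  refine div_le_div_of_nonneg_right (mul_le_mul_of_nonneg_left ?_ (Nat.cast_nonneg _)) hX.le
  exact Real.log_le_log (by exact_mod_cast hp) (by exact_mod_cast h)

/-- equal classes: close on the logarithmic scale -/
theorem cg_close {G X p p' : ℕ} (hX : 0 < Real.log (X : ℝ)) (hX0 : 0 < X) (hG : 1 ≤ G)
    (hp : 0 < p) (hp' : 0 < p') (h : cg G X p' = cg G X p) :
    (p' : ℝ) ≤ p * (X : ℝ) ^ (1 / (G : ℝ)) := by
  have hGr : (0 : ℝ) < G := by exact_mod_cast hG
  have hXr : (0 : ℝ) < X := by exact_mod_cast hX0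
  have hpr : (0 : ℝ) < p := by exact_mod_cast hp
  have hpr' : (0 : ℝ) < p' := by exact_mod_cast hp'
  have hl : 0 ≤ Real.log (p : ℝ) := Real.log_natCast_nonneg p
  unfold cg at h
  have h1 : (G : ℝ) * Real.log p' / Real.log X <
      ⌊(G : ℝ) * Real.log p' / Real.log X⌋₊ + 1 := Nat.lt_floor_add_one _
  have h2 : (⌊(G : ℝ) * Real.log p / Real.log X⌋₊ : ℝ) ≤ (G : ℝ) * Real.log p / Real.log X :=
    Nat.floor_le (by positivity)
  rw [h] at h1
  have h3 : (G : ℝ) * Real.log p' / Real.log X < (G : ℝ) * Real.log p / Real.log X + 1 := by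
    linarith
  have h4 : Real.log p' < Real.log p + Real.log X * (1 / (G : ℝ)) := by
    rw [div_lt_iff₀ hX, add_mul, div_mul_cancel₀ _ hX.ne', one_mul] at h3
    have h5 : Real.log p' = (G : ℝ) * Real.log p' / G := by field_simp
    have h6 : Real.log p + Real.log X * (1 / (G : ℝ)) =
        ((G : ℝ) * Real.log p + Real.log X) / G := by field_simp
    rw [h5, h6]
    exact div_lt_div_of_pos_right h3 hGr
  have h7 : Real.log ((p : ℝ) * (X : ℝ) ^ (1 / (G : ℝ))) =
      Real.log p + Real.log X * (1 / (G : ℝ)) := by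
    rw [Real.log_mul hpr.ne' (by positivity), Real.log_rpow hXr]
    ring
  rw [← h7] at h4
  exact ((Real.log_lt_log_iff hpr' (by positivity)).1 h4).le

theorem level {CS CP CR : ℝ} (hS : SvIn CS) (hCl : ClsIn CP) (hCP : 1 ≤ CP) (hR : RecIn CR)
    (hCR : 1 ≤ CR) {X h z y U V V2 W G b : ℕ} {q δ P N : ℝ}
    (hp : PY CS X h z y U V V2 W G b q δ P N) {ι : Type} {Y : Finset ι} {f : ι → ℕ → ℂ}
    (hF : ChF Y f P P) (hY : (Y.card : ℝ) ≤ N) (T : ℕ) (hT : 1 ≤ T) (α β : ℕ → ℕ)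
    (hc : Cells X h T α β) (c : ℕ → ℝ) (Gc : ℝ) (hGc : ∀ l, |c l| ≤ Gc)
    (hcr : ∀ l, c l ≠ 0 → Rgh y l) (hcV : ∀ l, c l ≠ 0 → l ≤ V2) :
    ∃ M E : ι → ℝ, (∀ i ∈ Y, 0 ≤ M i ∧ 0 ≤ E i ∧
      nt T (fun t => ∑ n ∈ Ioc (α t) (β t),
        ((rg y n * ∑ l ∈ n.divisors, c l : ℝ) : ℂ) * f i n) ≤
        (M i + E i) * (Real.sqrt T * h / Real.log X)) ∧
      ∑ i ∈ Y, M i ≤ 28 * CS ^ 2 * q ^ 2 * Gc * (3 + Real.log (G + 1)) ∧
      ∑ i ∈ Y, E i ^ 2 ≤ 40 * CS ^ 2 * CP * CR ^ 2 * Gc ^ 2 *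
        (q ^ 5 / G + q ^ 4 * Real.exp (-b) ^ 2) := by
  classical
  -- parameters
  have hGc0 : 0 ≤ Gc := (abs_nonneg _).trans (hGc 0)
  have hL0 : 0 < Real.log (X : ℝ) := lt_of_lt_of_le one_pos hp.w1.lX
  have hX0 : 0 < X := by
    rcases Nat.eq_zero_or_pos X with h0 | h0
    · rw [h0, Nat.cast_zero, Real.log_zero] at hL0
      exact absurd hL0 (lt_irrefl _)
    · exact h0
  have hVh : V ≤ h := hp.w1.Vh
  have hU1 : 1 ≤ U := hp.w1.U1
  have hUV : U ≤ V := hp.w1.UV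
  have hh1 : 1 ≤ h := hU1.trans (hUV.trans hVh)
  have hhX : h ≤ X := hp.w1.hX
  have hVX : V ≤ X := hVh.trans hhX
  have hCS1 : 1 ≤ CS := hp.w1.CS1
  have hq1 : 1 ≤ q := hp.w1.q1
  have hGr : (0 : ℝ) < G := by exact_mod_cast hp.G1
  have hz2 : 2 ≤ z := hp.w1.z2
  -- the normalisation
  obtain ⟨Q, hQ⟩ : ∃ Q : ℝ, Q = Real.sqrt T * h / Real.log X := ⟨_, rfl⟩
  have hQ0 : 0 < Q := by
    rw [hQ]
    have h1 : (0 : ℝ) < T := by exact_mod_cast hT
    have h2 : (0 : ℝ) < h := by exact_mod_cast hh1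
    have h3 := Real.sqrt_pos.2 h1
    positivity
  -- the pieces
  set γ : ℕ → ℕ := fun a => if a ∈ Ioc U V then cg G X (sm y a).minFac else 0 with hγ
  set γ' : ℕ → ℕ := fun k => cg G X k.minFac with hγ'
  set A1 : ℕ → ℂ := fun m => ((cA1 z y U c m : ℝ) : ℂ) with hA1
  set A2 : ℕ → ℂ := fun a => ((cA2 z y U c a : ℝ) : ℂ) with hA2
  set B2 : ℕ → ℕ → ℂ := fun a k => ((kB2 z y a k : ℝ) : ℂ) with hB2
  set R1 : ℕ → ℂ := fun k => ((rg z k : ℝ) : ℂ) with hR1
  set C3 : ℕ → ℂ := fun l => ((c l : ℝ) : ℂ) with hC3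
  set R3 : ℕ → ℂ := fun k => ((rg y k : ℝ) : ℂ) with hR3
  set BG : ℕ → ℕ → ℂ := fun a k => if γ a < γ' k then R1 k else 0 with hBG
  set BH : ℕ → ℕ → ℂ := fun a k =>
    if γ a = γ' k ∧ (sm y a).minFac ≤ k.minFac then R1 k else 0 with hBH
  set F1 : ι → ℕ → ℂ := fun i t => BilK A1 (fun _ k => R1 k) 0 U (f i) (α t) (β t) with hF1
  set FG : ι → ℕ → ℂ := fun i t => BilK A2 BG U V (f i) (α t) (β t) with hFG
  set FH : ι → ℕ → ℂ := fun i t => BilK A2 BH U V (f i) (α t) (β t) with hFH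
  set F3 : ι → ℕ → ℂ := fun i t => Bil C3 R3 U V2 (f i) (α t) (β t) with hF3
  -- bounds of the coefficients
  have rgn : ∀ n, 0 ≤ rg z n := fun n => (Pool.MP_dd84fd_nt.HX.rg_nonneg z n).1
  have rg1 : ∀ n, rg z n ≤ 1 := fun n => (Pool.MP_dd84fd_nt.HX.rg_nonneg z n).2
  have hR1n : ∀ k, ‖R1 k‖ ≤ rg z k := fun k => by
    rw [hR1]
    simp only [Complex.norm_real, Real.norm_eq_abs]
    exact (abs_of_nonneg (rgn k)).le
  have hA1n : ∀ m, ‖A1 m‖ ≤ Gc * rg z m := by
    intro m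
    rw [hA1]
    simp only [Complex.norm_real, Real.norm_eq_abs]
    unfold cA1
    split_ifs
    · rw [abs_mul, abs_of_nonneg (rgn m), mul_comm]
      exact mul_le_mul_of_nonneg_right (gam_abs y c Gc hGc m) (rgn m)
    · rw [abs_zero]
      exact mul_nonneg hGc0 (rgn m)
  have hA2n : ∀ a, ‖A2 a‖ ≤ Gc * rg z a := by
    intro a
    rw [hA2]
    simp only [Complex.norm_real, Real.norm_eq_abs]
    unfold cA2
    rw [abs_mul, abs_of_nonneg (rgn a), mul_comm]
    exact mul_le_mul_of_nonneg_right (ga_abs y U c Gc hGc a) (rgn a)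
  have hyz : ∀ n, rg y n ≤ rg z n := by
    intro n
    unfold rg
    by_cases h1 : Rgh y n
    · have h2 : Rgh z n := ⟨h1.1, fun p hp' => hp.zy.trans (h1.2 p hp')⟩
      rw [if_pos h1, if_pos h2]
    · rw [if_neg h1]
      split_ifs
      · exact zero_le_one
      · exact le_rfl
  have hC3n : ∀ l, ‖C3 l‖ ≤ Gc * rg z l := by
    intro l
    rw [hC3]
    simp only [Complex.norm_real, Real.norm_eq_abs]
    by_cases h0 : c l = 0
    · rw [h0, abs_zero]
      exact mul_nonneg hGc0 (rgn l)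
    · have h1 := hcr l h0
      have h2 : Rgh z l := ⟨h1.1, fun p hp' => hp.zy.trans (h1.2 p hp')⟩
      have h3 : rg z l = 1 := by unfold rg; rw [if_pos h2]
      rw [h3, mul_one]
      exact hGc l
  have hR3n : ∀ k, ‖R3 k‖ ≤ 1 * rg z k := by
    intro k
    rw [hR3]
    simp only [Complex.norm_real, Real.norm_eq_abs]
    rw [abs_of_nonneg (Pool.MP_dd84fd_nt.HX.rg_nonneg y k).1, one_mul]
    exact hyz k
  -- the identity on the cells
  have hkey : ∀ i ∈ Y, ∀ t ∈ Icc 1 T, ∑ n ∈ Ioc (α t) (β t),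
      ((rg y n * ∑ l ∈ n.divisors, c l : ℝ) : ℂ) * f i n =
      (F1 i t + FH i t) + (FG i t + F3 i t) := by
    intro i hi t ht
    obtain ⟨c1, c2, c3, c4⟩ := hc t ht
    have hmul := hF.mul i hi
    have e1 := bilK_sum A1 (fun _ k => R1 k) 0 U (f i) hmul (by
      intro a _ h0
      by_contra hcon
      apply h0
      rw [hA1]
      simp only [Complex.ofReal_eq_zero]
      unfold cA1
      rw [if_neg (by omega)]) (α t) (β t)
    have e2 := bilK_sum A2 B2 U V (f i) hmul (by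
      intro a ha h0
      have h1 : ga y U c a ≠ 0 := by
        intro h2
        apply h0
        rw [hA2]
        simp only [Complex.ofReal_eq_zero]
        unfold cA2
        rw [h2, mul_zero]
      exact (ga_le y U c a ha h1).1.trans hp.Vy) (α t) (β t)
    have e3 := bilK_sum C3 (fun _ k => R3 k) U V2 (f i) hmul (by
      intro a _ h0
      refine hcV a ?_
      intro h2
      apply h0
      rw [hC3]
      simp only [h2, Complex.ofReal_zero]) (α t) (β t)
    rw [bilK_bil] at e3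
    have e4 : BilK A2 B2 U V (f i) (α t) (β t) = FG i t + FH i t := by
      rw [hFG, hFH]
      simp only
      unfold BilK
      rw [← sum_add_distrib]
      refine sum_congr rfl fun a ha => ?_
      rw [← mul_add, ← sum_add_distrib]
      by_cases h0 : A2 a = 0
      · rw [h0, zero_mul, zero_mul, zero_mul]
      congr 1
      refine sum_congr rfl fun k hk => ?_
      rw [← add_mul]
      congr 1
      rw [mem_Ioc] at hk ha
      -- `k ≥ 2`
      have hγa : γ a = cg G X (sm y a).minFac := by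
        rw [hγ]
        simp only
        rw [if_pos (mem_Ioc.2 ha)]
      have hk2 : 2 ≤ k := by
        have h1 : (h : ℝ) / V ≥ 2 := by
          refine le_trans ?_ hp.WG
          have hy1 : (1 : ℝ) ≤ y := by
            have : 1 ≤ y := by have := hp.zy; omega
            exact_mod_cast this
          have hXG : (1 : ℝ) ≤ (X : ℝ) ^ (1 / (G : ℝ)) :=
            Real.one_le_rpow (by exact_mod_cast hX0) (by positivity)
          have hW1 : (1 : ℝ) ≤ W := by
            refine le_trans ?_ hp.yW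
            nlinarith
          have hz2r : (2 : ℝ) ≤ z := by exact_mod_cast hz2
          have h3 : (1 : ℝ) ≤ (W : ℝ) * (X : ℝ) ^ (1 / (G : ℝ)) := by nlinarith
          nlinarith
        have hV0 : (0 : ℝ) < V := by exact_mod_cast (by omega : 0 < V)
        have h2 : 2 * V ≤ h := by
          have h3 : 2 * (V : ℝ) ≤ h := by
            rw [ge_iff_le, le_div_iff₀ hV0] at h1
            exact h1
          exact_mod_cast h3
        have h4 : 2 ≤ α t / a := by
          rw [Nat.le_div_iff_mul_le (by omega)]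
          calc 2 * a ≤ 2 * V := by omega
            _ ≤ h := h2
            _ ≤ α t := c1
        omega
      have hsm : 0 < (sm y a).minFac := Nat.minFac_pos _
      have hiff : (∀ p ∈ k.primeFactors, (sm y a).minFac ≤ p) ↔ (sm y a).minFac ≤ k.minFac := by
        constructor
        · intro h1
          exact h1 _ (Nat.mem_primeFactors.2 ⟨Nat.minFac_prime (by omega), Nat.minFac_dvd k,
            by omega⟩)
        · intro h1 p hpk
          exact h1.trans (Nat.minFac_le_of_dvd (Nat.prime_of_mem_primeFactors hpk).two_le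
            (Nat.dvd_of_mem_primeFactors hpk))
      rw [hB2, hBG, hBH]
      simp only
      unfold kB2
      rw [hγa]
      by_cases h1 : (sm y a).minFac ≤ k.minFac
      · rw [if_pos (hiff.2 h1)]
        have h2 : cg G X (sm y a).minFac ≤ γ' k := cg_mono hL0 hsm h1
        rcases lt_or_eq_of_le h2 with h3 | h3
        · rw [if_pos h3, if_neg (fun h4 => absurd h4.1 h3.ne), add_zero]
        · rw [if_neg (by omega), if_pos ⟨h3, h1⟩, zero_add]
      · rw [if_neg (fun h2 => h1 (hiff.1 h2))]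
        have h2 : γ' k ≤ cg G X (sm y a).minFac :=
          cg_mono hL0 (Nat.minFac_pos k) (by omega)
        rw [if_neg (by omega), if_neg (fun h4 => h1 h4.2), add_zero, Complex.ofReal_zero]
    have e5 : ∑ n ∈ Ioc (α t) (β t), ((rg y n * ∑ l ∈ n.divisors, c l : ℝ) : ℂ) * f i n =
        ∑ n ∈ Ioc (α t) (β t), (∑ a ∈ n.divisors.filter (fun a => 0 < a), A1 a * R1 (n / a)) * f i n +
        ∑ n ∈ Ioc (α t) (β t), (∑ a ∈ n.divisors.filter (fun a => U < a),
          A2 a * B2 a (n / a)) * f i n +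
        ∑ n ∈ Ioc (α t) (β t), (∑ a ∈ n.divisors.filter (fun a => U < a),
          C3 a * R3 (n / a)) * f i n := by
      rw [← sum_add_distrib, ← sum_add_distrib]
      refine sum_congr rfl fun n hn => ?_
      rw [mem_Ioc] at hn
      rw [← add_mul, ← add_mul]
      congr 1
      rw [id_A y z U hp.zy c hcr n (by omega)]
      push_cast
      rfl
    rw [e5, e1, e2, e3, e4]
    rw [hF1, hF3]
    simp only
    ring
  -- the four bounds
  have hγG : ∀ a ∈ Ioc U V, γ a ≤ G := by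
    intro a ha
    rw [hγ]
    simp only
    rw [if_pos ha]
    rw [mem_Ioc] at ha
    refine cg_le hL0 ?_
    have h1 : (sm y a).minFac ≤ sm y a := Nat.minFac_le (Pool.MP_dd84fd_nt.HX.sm_pos y a)
    have h2 : sm y a ≤ a := by
      have := Pool.MP_dd84fd_nt.HX.ro_mul_sm y a (by omega)
      have h3 : sm y a ∣ a := ⟨ro y a, by rw [mul_comm]; exact this.symm⟩
      exact Nat.le_of_dvd (by omega) h3
    omega
  have hγG' : ∀ k ≤ X, γ' k ≤ G := by
    intro k hk
    refine cg_le hL0 ?_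
    rcases Nat.eq_zero_or_pos k with h0 | h0
    · rw [h0, Nat.minFac_zero]
      exact hz2.trans hp.w1.zX
    · exact (Nat.minFac_le h0).trans hk
  have b1 := tyI hS hR hCR hp hF hY T α β hc A1 Gc hGc0 hA1n
  have b2 := sep_main hS hp.w1 hF hY T α β hc A2 R1 Gc hGc0 hA2n hR1n G γ γ' hγG hγG'
  have b3 := winR hS hp.w2 hF hY T α β hc C3 R3 Gc 1 hGc0 zero_le_one hC3n hR3n
  have b4 := diag hS hCl hCP hR hp hF hY T α β hc A2 BH γ Gc hGc0 hA2n
    (by
      intro a k
      rw [hBH]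
      simp only
      split_ifs
      · exact hR1n k
      · rw [norm_zero]
        exact rgn k)
    (by
      intro a ha1 ha2 h0 k hk hB
      rw [hBH] at hB
      simp only at hB
      have hcond : γ a = γ' k ∧ (sm y a).minFac ≤ k.minFac := by
        by_contra hcon
        rw [if_neg hcon] at hB
        exact hB rfl
      have hγa : γ a = cg G X (sm y a).minFac := by
        rw [hγ]
        simp only
        rw [if_pos (mem_Ioc.2 ⟨ha1, ha2⟩)]
      have h1 : ga y U c a ≠ 0 := by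
        intro h2
        apply h0
        rw [hA2]
        simp only [Complex.ofReal_eq_zero]
        unfold cA2
        rw [h2, mul_zero]
      have h2 := (ga_le y U c a ha1 h1).2
      have h3 : cg G X k.minFac = cg G X (sm y a).minFac := by
        rw [← hγa]
        exact hcond.1.symm
      have h4 := cg_close hL0 hX0 hp.G1 (Nat.minFac_pos _) (Nat.minFac_pos _) h3
      refine ⟨?_, hcond.1.symm⟩
      have h5 : ((sm y a).minFac : ℝ) ≤ y := by exact_mod_cast h2.le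
      have h6 : (k.minFac : ℝ) ≤ W := by
        refine h4.trans (le_trans ?_ hp.yW)
        exact mul_le_mul_of_nonneg_right h5 (by positivity)
      exact_mod_cast h6)
  rw [← hQ] at b1 b2 b3 b4
  refine ⟨fun i => (nt T (FG i) + nt T (F3 i)) / Q, fun i => (nt T (F1 i) + nt T (FH i)) / Q,
    ?_, ?_, ?_⟩
  · intro i hi
    refine ⟨div_nonneg (add_nonneg (nt_nonneg _ _) (nt_nonneg _ _)) hQ0.le,
      div_nonneg (add_nonneg (nt_nonneg _ _) (nt_nonneg _ _)) hQ0.le, ?_⟩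
    rw [← hQ, ← add_div, div_mul_cancel₀ _ hQ0.ne']
    rw [nt_congr T _ (fun t => (F1 i t + FH i t) + (FG i t + F3 i t)) (hkey i hi)]
    refine (nt_add T _ _).trans ?_
    have h1 := nt_add T (F1 i) (FH i)
    have h2 := nt_add T (FG i) (F3 i)
    linarith
  · rw [← sum_div, sum_add_distrib, div_le_iff₀ hQ0]
    have h1 : ∑ i ∈ Y, nt T (FG i) ≤
        (2 + Real.log (G + 1)) * (28 * CS ^ 2 * q ^ 2 * Gc) * Q := b2
    have h2 : ∑ i ∈ Y, nt T (F3 i) ≤ 28 * CS ^ 2 * q ^ 2 * (Gc * 1) * Q := b3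
    calc _ ≤ (2 + Real.log (G + 1)) * (28 * CS ^ 2 * q ^ 2 * Gc) * Q +
        28 * CS ^ 2 * q ^ 2 * (Gc * 1) * Q := add_le_add h1 h2
      _ = _ := by ring
  · have h0 : ∀ i, ((nt T (F1 i) + nt T (FH i)) / Q) ^ 2 ≤
        (2 * nt T (F1 i) ^ 2 + 2 * nt T (FH i) ^ 2) / Q ^ 2 := by
      intro i
      rw [div_pow]
      refine div_le_div_of_nonneg_right ?_ (by positivity)
      nlinarith [sq_nonneg (nt T (F1 i) - nt T (FH i))]
    refine (sum_le_sum fun i _ => h0 i).trans ?_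
    rw [← sum_div, sum_add_distrib, ← mul_sum, ← mul_sum, div_le_iff₀ (by positivity)]
    have h1 : ∑ i ∈ Y, nt T (F1 i) ^ 2 ≤
        20 * CS ^ 2 * CR ^ 2 * (q ^ 4 * Real.exp (-b) ^ 2) * Gc ^ 2 * Q ^ 2 := b1
    have h2 : ∑ i ∈ Y, nt T (FH i) ^ 2 ≤
        6 * CS * CP * CR ^ 2 * (q ^ 5 / G) * Gc ^ 2 * Q ^ 2 := b4
    obtain ⟨a, ha⟩ : ∃ a : ℝ, a = q ^ 5 / G := ⟨_, rfl⟩
    obtain ⟨e, he⟩ : ∃ e : ℝ, e = q ^ 4 * Real.exp (-b) ^ 2 := ⟨_, rfl⟩
    have ha0 : 0 ≤ a := by rw [ha]; positivity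
    have he0 : 0 ≤ e := by rw [he]; positivity
    rw [← ha] at h2 ⊢
    rw [← he] at h1 ⊢
    have k1 : CS ≤ CS ^ 2 := by nlinarith
    have k2 : 20 * CS ^ 2 * CR ^ 2 * e * Gc ^ 2 * Q ^ 2 ≤
        20 * CS ^ 2 * CP * CR ^ 2 * Gc ^ 2 * e * Q ^ 2 := by
      have : 20 * CS ^ 2 * CR ^ 2 * e * Gc ^ 2 * Q ^ 2 * 1 ≤
          20 * CS ^ 2 * CR ^ 2 * e * Gc ^ 2 * Q ^ 2 * CP :=
        mul_le_mul_of_nonneg_left hCP (by positivity)
      linarith
    have k3 : 6 * CS * CP * CR ^ 2 * a * Gc ^ 2 * Q ^ 2 ≤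
        20 * CS ^ 2 * CP * CR ^ 2 * Gc ^ 2 * a * Q ^ 2 := by
      have h3 : 0 ≤ CP * CR ^ 2 * a * Gc ^ 2 * Q ^ 2 := by positivity
      have h4 : 6 * CS ≤ 20 * CS ^ 2 := by nlinarith
      have := mul_le_mul_of_nonneg_right h4 h3
      linarith
    calc _ ≤ 2 * (20 * CS ^ 2 * CP * CR ^ 2 * Gc ^ 2 * e * Q ^ 2) +
        2 * (20 * CS ^ 2 * CP * CR ^ 2 * Gc ^ 2 * a * Q ^ 2) := by linarith
      _ = _ := by ring

end Pool.MP_dd84fd_nt.BY
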