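import Pool.Agent.Lib.MP_dd84fd_nt.BY.VDefs
import Pool.Agent.Lib.MP_dd84fd_nt.MX.MFin
import Pool.Agent.Lib.MP_dd84fd_nt.LX.SvFam
import Pool.Agent.Lib.MP_dd84fd_nt.LX.LScale
import Pool.Agent.Lib.MP_dd84fd_nt.IY.Scale

/-!
# BY-VAdm (V4): the sieve families of Theorems M and L are families (`FmY`)

`wad_m`: `lam = lamM ..` (`MX.lamM_bd`, `MX.lamM_supp`; the parameters as in `MX.bdM`);
`wad_l`: `lamA`, `lamB` (`LX.lam_l`; support: cards `0, 1, 2`).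
`fm_m`, `fm_l`: `decM`, `decL`, `w1_ev`, `majI_ev` as in `DX/FinM.lean`, `DX/FinL.lean`.
-/

set_option autoImplicit false

namespace Pool.MP_dd84fd_nt.BY

open Finset Pool.MP_67663b_nt.Odd Pool.MP_dd84fd_nt.En Pool.MP_dd84fd_nt.E2 Pool.MP_dd84fd_nt.LS
open Pool.MP_dd84fd_nt.GX Pool.MP_dd84fd_nt.HX Pool.MP_dd84fd_nt.IX
open Pool.MP_dd84fd_nt.JX (wP gP DecJ Adm)
open Pool.MP_dd84fd_nt.KX (lK)
open Pool.MP_dd84fd_nt.LX (AdmX amL bmL)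
open Pool.MP_dd84fd_nt.MX (AdmM bmT)

/-- the type function of the minorant of Theorem L -/
noncomputable def aL (th e τ : ℝ) (B' X : ℕ) : Finset ℕ → ℝ :=
  amL τ (IY.bI th e) (lK th τ) (IY.kp B' X) X

/-- the type function of the majorant of Theorem L -/
noncomputable def bL (th e τ : ℝ) (B' X : ℕ) : Finset ℕ → ℝ :=
  bmL τ (IY.bI th e) (lK th τ) (IY.kp B' X) X

theorem admM_Y {th e τ : ℝ} (h : AdmM th e τ) (hτ : 1000 * τ ≤ 1) : AdmY th e τ := by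
  obtain ⟨h1, h2, h3, h4, h5, h6⟩ := h
  exact ⟨by linarith, h2, h3, h4, hτ, h6, by linarith⟩

theorem admX_Y {th e τ : ℝ} (h : AdmX th e τ) (hτ : 1000 * τ ≤ 1) : AdmY th e τ := by
  obtain ⟨h1, h2, h3, h4, h5, h6⟩ := h
  exact ⟨by linarith, h2, h3, h4, hτ, h6, by linarith⟩

private theorem l_big (c : ℝ) (hc : 0 < c) : ∃ X0 : ℕ, ∀ X : ℕ, X0 ≤ X →
    1 ≤ Real.log (Real.log X) ∧ 30 * Real.log (Real.log X) + 30 < c * Real.log X := by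
  obtain ⟨X1, hX1⟩ := IY.b_par (1 / 8) (3 / 8) (by norm_num) (by norm_num) (by norm_num) 0
  have ht : Filter.Tendsto (fun X : ℕ => Real.log (X : ℝ)) Filter.atTop Filter.atTop :=
    Real.tendsto_log_atTop.comp tendsto_natCast_atTop_atTop
  have h1 := (Real.isLittleO_log_id_atTop.bound (show (0 : ℝ) < c / 100 by positivity))
  have h2 : ∀ᶠ X : ℕ in Filter.atTop, ‖Real.log (Real.log (X : ℝ))‖ ≤
      c / 100 * ‖id (Real.log (X : ℝ))‖ := ht.eventually h1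
  have h3 : ∀ᶠ X : ℕ in Filter.atTop, 100 / c ≤ Real.log (X : ℝ) := ht.eventually_ge_atTop _
  obtain ⟨X2, hX2⟩ := Filter.eventually_atTop.1 (h2.and h3)
  refine ⟨max X1 X2, fun X hX => ?_⟩
  obtain ⟨g1, g2, g3, g4, g5, _, g7, _⟩ := hX1 X (le_trans (le_max_left _ _) hX)
  obtain ⟨g8, g9⟩ := hX2 X (le_trans (le_max_right _ _) hX)
  have g2' : 4 ≤ Real.log (X : ℝ) := by
    have := g2
    push_cast at this
    linarith
  refine ⟨g3, ?_⟩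
  rw [Real.norm_eq_abs, Real.norm_eq_abs, id,
    abs_of_nonneg (by linarith : (0:ℝ) ≤ Real.log X)] at g8
  have g10 := (le_abs_self _).trans g8
  have g11 : 100 ≤ c * Real.log X := by
    rw [div_le_iff₀ hc] at g9
    linarith
  linarith

theorem wad_m {th e τ : ℝ} (h : AdmM th e τ) (B' : ℕ) :
    WAdm th e τ B' (fun X => bmT th e τ B' X) := by
  obtain ⟨X1, hX1⟩ := l_big τ (MX.AdmM.pos h)
  refine ⟨X1, fun X hX => ?_⟩
  obtain ⟨g3, g6⟩ := hX1 X hX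
  obtain ⟨p1, p3⟩ := MX.par_m (κ := 0) h g3 (by norm_num) g6
  have h3b := p1.h3b
  refine ⟨MX.lamM (IY.vlog (IY.kp B' X) (IY.zt X)) (Real.log X) (IY.bI th e * Real.log X)
    (lK th τ * Real.log X) (Real.log (Real.log X)),
    fun S => (MX.lamM_bd (by linarith) p1.h2b S).trans (by norm_num),
    fun S hS => ⟨?_, MX.lamM_supp hS⟩, rfl⟩
  by_contra hc
  apply hS
  unfold MX.lamM
  rw [if_neg (fun h' => hc h'.1)]

theorem lamG_card {f c u : ℝ → ℝ} {w : ℝ} {v : ℕ → ℝ} {S : Finset ℕ}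
    (h : LX.lamG f c u w v S ≠ 0) : S.card ≤ 3 := by
  by_contra hc
  apply h
  unfold LX.lamG
  rw [if_neg (by omega), if_neg (by omega), if_neg (by omega)]

theorem wad_l {th e τ : ℝ} (h : AdmX th e τ) (B' : ℕ) :
    WAdm th e τ B' (fun X => aL th e τ B' X) ∧ WAdm th e τ B' (fun X => bL th e τ B' X) := by
  obtain ⟨X0, hl⟩ := LX.lam_l h
  constructor
  · refine ⟨X0, fun X hX => ?_⟩
    obtain ⟨m1, m2, m3, m4⟩ := hl X hX (IY.kp B' X)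
    exact ⟨LX.lamA (IY.vlog (IY.kp B' X) (IY.zt X)) (Real.log X) (lK th τ * Real.log X),
      fun S => (m1 S).trans (by norm_num), fun S hS => ⟨lamG_card hS, m3 S hS⟩, rfl⟩
  · refine ⟨X0, fun X hX => ?_⟩
    obtain ⟨m1, m2, m3, m4⟩ := hl X hX (IY.kp B' X)
    exact ⟨LX.lamB (IY.vlog (IY.kp B' X) (IY.zt X)) (Real.log X) (IY.bI th e * Real.log X)
      (lK th τ * Real.log X) (Real.log (Real.log X)),
      fun S => (m2 S).trans (by norm_num), fun S hS => ⟨lamG_card hS, m4 S hS⟩, rfl⟩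

private theorem w1_ev (B' K0 : ℕ) (hK : 1 ≤ K0) (W : ℕ → Finset ℕ → ℝ) (X1 : ℕ)
    (hW : ∀ X, X1 ≤ X → ∀ T, |W X T| ≤ K0) :
    W1 K0 (B' + 3) (wF B' W) (gF B' W) := by
  obtain ⟨X0, h⟩ := IY.w1_i B' K0 hK (fun X => if X1 ≤ X then W X else fun _ => 0) (by
    intro X T
    by_cases hX : X1 ≤ X
    · simp only [hX, if_true]
      exact hW X hX T
    · simp only [hX, if_false, abs_zero]
      exact Nat.cast_nonneg _)
  refine ⟨max X0 X1, fun X hX => ?_⟩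
  have h1 := h X ((le_max_left _ _).trans hX)
  have h2 : X1 ≤ X := (le_max_right _ _).trans hX
  simp only [h2, if_true] at h1
  exact h1

private theorem majI_ev (B' K0 : ℕ) (W : ℕ → Finset ℕ → ℝ) (X1 : ℕ)
    (hW : ∀ X, X1 ≤ X → ∀ T, |W X T| ≤ K0) :
    MajI (wF B' W) (gF B' W) := by
  have h0 := IY.majI_i B' K0 (fun X => if X1 ≤ X then W X else fun _ => 0) (by
    intro X T
    by_cases hX : X1 ≤ X
    · simp only [hX, if_true]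
      exact hW X hX T
    · simp only [hX, if_false, abs_zero]
      exact Nat.cast_nonneg _)
  intro A B
  obtain ⟨D0, h⟩ := h0 A B
  refine ⟨D0, fun D' hD' => ?_⟩
  obtain ⟨X0, h⟩ := h D' hD'
  refine ⟨max X0 X1, fun X hX θ hθ => ?_⟩
  have h1 := h X ((le_max_left _ _).trans hX) θ hθ
  have h2 : X1 ≤ X := (le_max_right _ _).trans hX
  unfold WI fI at h1 ⊢
  unfold wF gF
  simp only [h2, if_true] at h1
  exact h1

/-- the family of Theorem M -/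
theorem fm_m (B : ℕ) : ∃ B0 : ℕ, ∀ B' : ℕ, B0 ≤ B' → ∃ C2 : ℕ, ∀ th e τ : ℝ, AdmM th e τ →
    FmY B (2 ^ 24) (B' + 3) C2 B' th e τ (fun X => bmT th e τ B' X) := by
  obtain ⟨B0, h⟩ := MX.decM B
  refine ⟨B0, fun B' hB' => ?_⟩
  obtain ⟨C2, h⟩ := h B' hB'
  refine ⟨C2, fun th e τ hA => ?_⟩
  obtain ⟨Xb, hXb⟩ := MX.bdM hA B'
  have bB : ∀ X : ℕ, Xb ≤ X → ∀ T : Finset ℕ, |bmT th e τ B' X T| ≤ ((2 ^ 24 : ℕ) : ℝ) :=
    fun X hX T => (hXb X hX T).trans (by norm_num)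
  exact ⟨wad_m hA B', w1_ev B' (2 ^ 24) (by norm_num) _ Xb bB, h th e τ hA,
    majI_ev B' (2 ^ 24) _ Xb bB⟩

/-- the families of Theorem L -/
theorem fm_l (B : ℕ) : ∃ B0 : ℕ, ∀ B' : ℕ, B0 ≤ B' → ∃ C2 : ℕ, ∀ th e τ : ℝ, AdmX th e τ →
    FmY B (2 ^ 24) (B' + 3) C2 B' th e τ (fun X => aL th e τ B' X) ∧
    FmY B (2 ^ 24) (B' + 3) C2 B' th e τ (fun X => bL th e τ B' X) := by
  obtain ⟨B0, h⟩ := LX.decL B
  refine ⟨B0, fun B' hB' => ?_⟩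
  obtain ⟨C2, h⟩ := h B' hB'
  refine ⟨C2, fun th e τ hA => ?_⟩
  obtain ⟨Xb, hXb⟩ := LX.bdL hA B'
  obtain ⟨h1, h2, -⟩ := h th e τ hA
  obtain ⟨wa, wb⟩ := wad_l hA B'
  have bA : ∀ X : ℕ, Xb ≤ X → ∀ T : Finset ℕ, |aL th e τ B' X T| ≤ ((2 ^ 24 : ℕ) : ℝ) :=
    fun X hX T => (hXb X hX T).1.trans (by norm_num)
  have bB : ∀ X : ℕ, Xb ≤ X → ∀ T : Finset ℕ, |bL th e τ B' X T| ≤ ((2 ^ 24 : ℕ) : ℝ) :=
    fun X hX T => (hXb X hX T).2.trans (by norm_num)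
  exact ⟨⟨wa, w1_ev B' (2 ^ 24) (by norm_num) _ Xb bA, h1, majI_ev B' (2 ^ 24) _ Xb bA⟩,
    ⟨wb, w1_ev B' (2 ^ 24) (by norm_num) _ Xb bB, h2, majI_ev B' (2 ^ 24) _ Xb bB⟩⟩

end Pool.MP_dd84fd_nt.BY
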