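import Pool.Agent.Lib.MP_dd84fd_nt.MX.MLow
import Pool.Agent.Lib.MP_dd84fd_nt.LX.LFab
import Pool.Agent.Lib.MP_dd84fd_nt.BX.PgFin

/-!
# BY-VNum (V3): `final_mb`, `final_l` with an additional error `δ/16 SS n JJ n`

Copy the proofs of `MX.final_mb` and `LX.final_l`: the three (four) circle method errors are now
`Q + δ/16 V` instead of `Q`, `V = SS n JJ n`; together they cost `≤ δ/4 V` more, and there is one spare
`δ/4 V` (`2^27 Q ≤ δ/4 V`; if it does not fit use `main_lo` etc. with `δ/8`).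
`err_y`: `η (n/φ n) X/L² ≤ δ SS n JJ n` for `η = δ C2/16`, from `BX.ss_phi`, `IY.JJ_ge` (as `r1` in
`BX.scale_bd`).
-/

set_option autoImplicit false

namespace Pool.MP_dd84fd_nt.BY

open Finset Pool.MP_67663b_nt.Odd Pool.MP_dd84fd_nt.En Pool.MP_dd84fd_nt.E2 Pool.MP_dd84fd_nt.HX
  Pool.MP_dd84fd_nt.IX Pool.MP_dd84fd_nt.IY
open Pool.MP_dd84fd_nt.JX (wP gP wP_nonneg wP_le_one fI_gP)
open Pool.MP_dd84fd_nt.LX Pool.MP_dd84fd_nt.MX

/-- the circle method output for the primes and a family, with an error `δ SS n JJ n` -/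
def ClPY (δ : ℝ) (B' D' X : ℕ) (W : Finset ℕ → ℝ) (n : ℕ) : Prop :=
  |cvv (wP X) (IY.wty (IY.kp B' X) X W) n -
    cvv (fI gP X (wX D' X)) (fun m => IY.gty (IY.kp B' X) X W m * f1 (wX D' X) m) n| ≤
    X / (Real.log X) ^ 5 + δ * (SS n * JJ n)

/-- the circle method output for two families, with an error `δ SS n JJ n` -/
def Cl2Y (δ : ℝ) (B' D' X : ℕ) (V W : Finset ℕ → ℝ) (n : ℕ) : Prop :=
  |cvv (IY.wty (IY.kp B' X) X V) (IY.wty (IY.kp B' X) X W) n -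
    cvv (fun m => IY.gty (IY.kp B' X) X V m * f1 (wX D' X) m)
      (fun m => IY.gty (IY.kp B' X) X W m * f1 (wX D' X) m) n| ≤
    X / (Real.log X) ^ 5 + δ * (SS n * JJ n)

theorem final_mbY (B' : ℕ) (hB : 1 ≤ B') (b δ : ℝ) (hδ : 0 < δ) (hb : 1 ≤ b) :
    ∃ D0 : ℕ, ∀ D' : ℕ, D0 ≤ D' → ∃ X0 : ℕ, ∀ X : ℕ, X0 ≤ X →
    ∀ B : Finset ℕ → ℝ, TyMB (kp B' X) X B → (∀ T, |B T| ≤ 2 ^ 24) →
    (∀ n : ℕ, X5 X < n → n ≤ X → Real.log n * gty (kp B' X) X B n ≤ b) →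
    ∀ n : ℕ, X < 2 * n → n ≤ X → Even n → ClPY (δ / 16) B' D' X B n →
      Cl2Y (δ / 16) B' D' X B B n →
      (1 - (b - 1) ^ 2 - δ) * (SS n * JJ n) ≤ g n ∧ (g n : ℝ) ≤ (b + δ) * (SS n * JJ n) := by
  classical
  obtain ⟨D1, hD1⟩ := main_lo 1 (b - 1) (δ / 4) (by linarith) zero_le_one (by linarith)
  obtain ⟨D2, hD2⟩ := main_up2 1 b (δ / 4) zero_le_one (by linarith) (by linarith)
  obtain ⟨D4, hD4⟩ := f2_diff B' hB b (δ / (4 * b)) (by linarith) (by positivity)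
  refine ⟨max D1 (max D2 D4), fun D' hD' => ?_⟩
  simp only [max_le_iff] at hD'
  obtain ⟨k1, k2, k4⟩ := hD'
  obtain ⟨X1, hX1⟩ := hD1 D' k1
  obtain ⟨X2, hX2⟩ := hD2 D' k2
  obtain ⟨X4, hX4⟩ := hD4 D' k4
  obtain ⟨Y1, hY1⟩ := gty_PT B' hB
  obtain ⟨Y2, hY2⟩ := gty_AB B' hB
  obtain ⟨Y3, hY3⟩ := wty_AB B' hB
  obtain ⟨Y4, hY4⟩ := JJ_ge
  obtain ⟨Y5, hY5⟩ := IY.X5_ge
  obtain ⟨Y6, hY6⟩ := cvv_wP_pI (2 ^ 24) (by norm_num)
  obtain ⟨c0, hc⟩ : ∃ c0 : ℝ, c0 = 2 * C2 := ⟨_, rfl⟩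
  have hc0 : 0 < c0 := by have := C2_pos; rw [hc]; positivity
  obtain ⟨Y7, hY7⟩ := MP_log_large (2 ^ 33 / (δ * c0) + 1)
  refine ⟨max (max X1 (max X2 X4)) (max (max (max Y1 Y2) (max Y3 Y4)) (max (max Y5 Y6) (max Y7 2))),
    fun X hX B hT0 hbd hden n hn hnX hne hPB hBB => ?_⟩
  simp only [max_le_iff] at hX
  obtain ⟨⟨x1, x2, x4⟩, ⟨⟨y1, y2⟩, y3, y4⟩, ⟨y5, y6⟩, y7, y8⟩ := hX
  have hT := hT0.ml
  have hX0 : (0 : ℝ) < X := by exact_mod_cast (by omega : 0 < X)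
  obtain ⟨hz, hX5X⟩ := hY5 X y5
  have hz1 : (1 : ℝ) ≤ X5 X := by
    have : (0 : ℝ) ≤ (zt X : ℝ) := Nat.cast_nonneg _
    linarith
  -- densities
  have hzero : ∀ (W : Finset ℕ → ℝ) (m : ℕ), (m : ℝ) ≤ X5 X → gty (kp B' X) X W m = 0 := by
    intro W m hm
    have hcon : ¬ (X5 X < m ∧ m ≤ X) := fun h => absurd h.1 (not_lt.2 hm)
    unfold gty
    rw [if_neg hcon]
  have hval : ∀ m : ℕ, X5 X < m → m ≤ X → 0 < Real.log (m : ℝ) ∧
      Real.log m * gty (kp B' X) X PT m = 1 ∧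
      gty (kp B' X) X PT m ≤ gty (kp B' X) X B m ∧ 0 ≤ gty (kp B' X) X PT m := by
    intro m h1 h2
    have hl : 0 < Real.log (m : ℝ) := Real.log_pos (lt_of_le_of_lt hz1 h1)
    have h3 := hY1 X y1 m h1 h2
    obtain ⟨-, h5⟩ := hY2 X y2 PT B hT m h1 h2
    refine ⟨hl, ?_, ?_, ?_⟩
    · rw [h3]
      field_simp
    · rw [h3]; exact h5
    · rw [h3]; positivity
  -- main terms
  have m1 := hX1 X x1 (gty (kp B' X) X PT)
    (fun m => gty (kp B' X) X B m - gty (kp B' X) X PT m)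
    (fun m h1 h2 => by
      obtain ⟨v0, v1, v2, v4⟩ := hval m h1 h2
      have h6 := hden m h1 h2
      refine ⟨v1.ge, by linarith, ?_⟩
      rw [mul_sub, v1]
      linarith)
    (fun m h1 => ⟨hzero _ m h1, by rw [hzero _ m h1, hzero _ m h1, sub_zero]⟩) n hn hnX hne
  have m2 := hX2 X x2 (gty (kp B' X) X PT) (gty (kp B' X) X B)
    (fun m h1 h2 => by
      obtain ⟨v0, v1, v2, v4⟩ := hval m h1 h2
      exact ⟨v4, v1.le⟩)
    (fun m h1 h2 => by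
      obtain ⟨v0, v1, v2, v4⟩ := hval m h1 h2
      exact ⟨by linarith, hden m h1 h2⟩)
    (fun m h1 => ⟨hzero _ m h1, hzero _ m h1⟩) n hn hnX hne
  have m4 := hX4 X x4 (gty (kp B' X) X B)
    (fun m h1 h2 => by
      obtain ⟨v0, v1, v2, v4⟩ := hval m h1 h2
      exact ⟨by linarith, hden m h1 h2⟩)
    (fun m h1 => hzero _ m h1) n hn hnX hne
  -- numbers
  obtain ⟨n1, n2⟩ := vec_m (pI X) (wty (kp B' X) X B)
    (fun m => by unfold pI; split_ifs <;> norm_num) (fun m => (hY3 X y3 PT B hT m).2) n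
  have hwb : ∀ m, |wty (kp B' X) X B m| ≤ 2 ^ 24 := by
    intro m
    unfold wty
    split_ifs
    · exact hbd _
    · rw [abs_zero]; norm_num
  have n3 := hY6 X y6 _ hwb n hnX
  have n5 := pI_le_g X n
  have n6 := g_le_pI X n hnX (by linarith)
  -- circle method
  unfold ClPY at hPB
  unfold Cl2Y at hBB
  have hfp : (fI gP X (wX D' X)) = f2 (wX D' X) := funext fun m => fI_gP X (wX D' X) m
  rw [hfp] at hPB
  obtain ⟨w, hw⟩ : ∃ w : ℕ, w = wX D' X := ⟨_, rfl⟩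
  rw [← hw] at hPB hBB m1 m2 m4
  obtain ⟨p, hp⟩ : ∃ p : ℕ → ℝ, p = fun m => gty (kp B' X) X PT m * f1 w m := ⟨_, rfl⟩
  obtain ⟨β, hβ⟩ : ∃ β : ℕ → ℝ, β = fun m => gty (kp B' X) X B m * f1 w m := ⟨_, rfl⟩
  have e1 : (fun m => (gty (kp B' X) X B m - gty (kp B' X) X PT m) * f1 w m) =
      fun m => β m - p m := by
    rw [hp, hβ]
    funext m
    ring
  rw [e1, ← hp, cvv_sub2, cvv_comm β p] at m1
  rw [← hp, ← hβ] at m2 m4
  rw [← hβ] at hPB hBB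
  -- the error term
  have hL := hY7 X y7
  have hSS : c0 ≤ SS n := by rw [hc]; exact SS_ge n
  have hJJ := hY4 X y4 n hn hnX
  have hX5e : X5 X = X / (Real.log (X : ℝ)) ^ 5 := rfl
  rw [hX5e] at n3 n6 hz1
  obtain ⟨L, hLd⟩ : ∃ L : ℝ, L = Real.log (X : ℝ) := ⟨_, rfl⟩
  rw [← hLd] at n3 n6 hz1 hL hJJ hPB hBB
  have h1600 : 0 < 2 ^ 33 / (δ * c0) := by positivity
  have hL1 : 1 ≤ L := by linarith
  have hL0 : 0 < L := by linarith
  have hnr : (X : ℝ) < 2 * n := by exact_mod_cast hn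
  have hJ2 : X / (16 * L ^ 2) ≤ JJ n := by
    refine le_trans ?_ hJJ
    rw [div_le_div_iff₀ (by positivity) (by positivity)]
    have h12 : 0 < L ^ 2 := by positivity
    nlinarith
  have hJ0 : 0 ≤ JJ n := le_trans (by positivity) hJ2
  have herr : 2 ^ 27 * (X / L ^ 5) ≤ δ / 4 * (SS n * JJ n) := by
    have e1 : c0 * (X / (16 * L ^ 2)) ≤ SS n * JJ n :=
      mul_le_mul hSS hJ2 (by positivity) (hc0.le.trans hSS)
    have e2 : 2 ^ 27 * (X / L ^ 5) ≤ δ / 4 * (c0 * (X / (16 * L ^ 2))) := by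
      have e3 : δ / 4 * (c0 * (X / (16 * L ^ 2))) =
          (δ * c0 * L ^ 3 / 2 ^ 33) * (2 ^ 27 * (X / L ^ 5)) := by
        field_simp
        norm_num
      rw [e3]
      have e4 : 1 ≤ δ * c0 * L ^ 3 / 2 ^ 33 := by
        rw [le_div_iff₀ (by norm_num), one_mul]
        have e5 : 2 ^ 33 / (δ * c0) ≤ L ^ 3 := by
          calc 2 ^ 33 / (δ * c0) ≤ L := by linarith
            _ = L ^ 1 := (pow_one L).symm
            _ ≤ L ^ 3 := pow_le_pow_right₀ hL1 (by norm_num)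
        rw [div_le_iff₀ (by positivity)] at e5
        linarith
      exact le_mul_of_one_le_left (by positivity) e4
    have e6 : δ / 4 * (c0 * (X / (16 * L ^ 2))) ≤ δ / 4 * (SS n * JJ n) :=
      mul_le_mul_of_nonneg_left e1 (by linarith)
    linarith
  obtain ⟨V, hV⟩ : ∃ V : ℝ, V = SS n * JJ n := ⟨_, rfl⟩
  obtain ⟨Q, hQ⟩ : ∃ Q : ℝ, Q = X / L ^ 5 := ⟨_, rfl⟩
  rw [← hV] at m1 m2 m4 herr hPB hBB ⊢
  obtain ⟨m4l, m4u⟩ := m4
  rw [← hQ] at herr n3 n6 hz1 hPB hBB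
  have b1 := abs_le.1 hPB
  have b3 := abs_le.1 hBB
  have b5 := abs_le.1 n3
  have hV0 : 0 ≤ δ / 4 * V := by
    have : (0 : ℝ) ≤ 2 ^ 27 * Q := by linarith
    linarith
  have hηV : b * (δ / (4 * b) * V) = δ / 4 * V := by
    have : b ≠ 0 := by linarith
    field_simp
  rw [hηV] at m4u
  constructor
  · have f1 : (1 - (b - 1) ^ 2 - δ) * V = (1 ^ 2 - (b - 1) ^ 2 - δ / 4) * V -
        3 * (δ / 4 * V) := by ring
    rw [f1]
    linarith [b1.1, b3.2, b5.1, b5.2, m4l]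
  · have f1 : (b + δ) * V = (1 * b + δ / 4) * V + 3 * (δ / 4 * V) := by ring
    rw [f1]
    linarith [b1.1, b1.2, b5.1, b5.2, m4u, m2]

theorem final_lY (B' : ℕ) (hB : 1 ≤ B') (a b δ : ℝ) (hδ : 0 < δ) (ha : 0 ≤ a) (ha1 : a ≤ 1)
    (hb : 1 ≤ b) : ∃ D0 : ℕ, ∀ D' : ℕ, D0 ≤ D' → ∃ X0 : ℕ, ∀ X : ℕ, X0 ≤ X →
    ∀ A B : Finset ℕ → ℝ, TyML (kp B' X) X A B → (∀ T, |A T| ≤ 2 ^ 24 ∧ |B T| ≤ 2 ^ 24) →
    (∀ n : ℕ, X5 X < n → n ≤ X → a ≤ Real.log n * gty (kp B' X) X A n ∧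
      Real.log n * gty (kp B' X) X B n ≤ b) →
    ∀ n : ℕ, X < 2 * n → n ≤ X → Even n → ClPY (δ / 16) B' D' X A n →
      ClPY (δ / 16) B' D' X B n → Cl2Y (δ / 16) B' D' X A A n → Cl2Y (δ / 16) B' D' X A B n →
      (1 - (1 - a) ^ 2 - δ) * (SS n * JJ n) ≤ g n ∧
        (g n : ℝ) ≤ (1 + (b - 1) * (1 - a) + δ) * (SS n * JJ n) := by
  classical
  obtain ⟨η, hη⟩ : ∃ η : ℝ, η = δ / (4 * (1 + b)) := ⟨_, rfl⟩
  have hη0 : 0 < η := by rw [hη]; positivity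
  have hηb : (1 + b) * η = δ / 4 := by rw [hη]; field_simp
  obtain ⟨D1, hD1⟩ := main_lo 1 (1 - a) (δ / 8) (by linarith) zero_le_one (by linarith)
  obtain ⟨D2, hD2⟩ := main_up 1 (δ / 8) (by linarith)
  obtain ⟨D3, hD3⟩ := main_up2 (b - 1) (1 - a) (δ / 8) (by linarith) (by linarith) (by linarith)
  obtain ⟨D4, hD4⟩ := f2_diff B' hB 1 η zero_le_one hη0
  obtain ⟨D5, hD5⟩ := f2_diff B' hB b η (by linarith) hη0
  refine ⟨max (max D1 D2) (max D3 (max D4 D5)), fun D' hD' => ?_⟩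
  simp only [max_le_iff] at hD'
  obtain ⟨⟨k1, k2⟩, k3, k4, k5⟩ := hD'
  obtain ⟨X1, hX1⟩ := hD1 D' k1
  obtain ⟨X2, hX2⟩ := hD2 D' k2
  obtain ⟨X3, hX3⟩ := hD3 D' k3
  obtain ⟨X4, hX4⟩ := hD4 D' k4
  obtain ⟨X5', hX5'⟩ := hD5 D' k5
  obtain ⟨Y1, hY1⟩ := gty_PT B' hB
  obtain ⟨Y2, hY2⟩ := gty_AB B' hB
  obtain ⟨Y3, hY3⟩ := wty_AB B' hB
  obtain ⟨Y4, hY4⟩ := JJ_ge
  obtain ⟨Y5, hY5⟩ := IY.X5_ge
  obtain ⟨Y6, hY6⟩ := cvv_wP_pI (2 ^ 24) (by norm_num)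
  obtain ⟨c0, hc⟩ : ∃ c0 : ℝ, c0 = 2 * C2 := ⟨_, rfl⟩
  have hc0 : 0 < c0 := by have := C2_pos; rw [hc]; positivity
  obtain ⟨Y7, hY7⟩ := MP_log_large (2 ^ 33 / (δ * c0) + 1)
  refine ⟨max (max (max X1 X2) (max X3 (max X4 X5')))
    (max (max (max Y1 Y2) (max Y3 Y4)) (max (max Y5 Y6) (max Y7 2))),
    fun X hX A B hT hbd hden n hn hnX hne hPA hPB hAA hAB => ?_⟩
  simp only [max_le_iff] at hX
  obtain ⟨⟨⟨x1, x2⟩, x3, x4, x5⟩, ⟨⟨y1, y2⟩, y3, y4⟩, ⟨y5, y6⟩, y7, y8⟩ := hX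
  have hX0 : (0 : ℝ) < X := by exact_mod_cast (by omega : 0 < X)
  obtain ⟨hz, hX5X⟩ := hY5 X y5
  have hz1 : (1 : ℝ) ≤ X5 X := by
    have : (0 : ℝ) ≤ (zt X : ℝ) := Nat.cast_nonneg _
    linarith
  -- densities
  have hzero : ∀ (W : Finset ℕ → ℝ) (m : ℕ), (m : ℝ) ≤ X5 X → gty (kp B' X) X W m = 0 := by
    intro W m hm
    have hcon : ¬ (X5 X < m ∧ m ≤ X) := fun h => absurd h.1 (not_lt.2 hm)
    unfold gty
    rw [if_neg hcon]
  have hval : ∀ m : ℕ, X5 X < m → m ≤ X → 0 < Real.log (m : ℝ) ∧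
      Real.log m * gty (kp B' X) X PT m = 1 ∧
      gty (kp B' X) X A m ≤ gty (kp B' X) X PT m ∧
      gty (kp B' X) X PT m ≤ gty (kp B' X) X B m ∧ 0 ≤ gty (kp B' X) X A m := by
    intro m h1 h2
    have hl : 0 < Real.log (m : ℝ) := Real.log_pos (lt_of_le_of_lt hz1 h1)
    have h3 := hY1 X y1 m h1 h2
    obtain ⟨h4, h5⟩ := hY2 X y2 A B hT m h1 h2
    obtain ⟨h6, -⟩ := hden m h1 h2
    refine ⟨hl, ?_, ?_, ?_, ?_⟩
    · rw [h3]
      field_simp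
    · rw [h3]; exact h4
    · rw [h3]; exact h5
    · by_contra hcon
      have := mul_neg_of_pos_of_neg hl (not_le.1 hcon)
      linarith
  -- main terms
  have m1 := hX1 X x1 (gty (kp B' X) X PT)
    (fun m => gty (kp B' X) X PT m - gty (kp B' X) X A m)
    (fun m h1 h2 => by
      obtain ⟨v0, v1, v2, v3, v4⟩ := hval m h1 h2
      obtain ⟨h6, -⟩ := hden m h1 h2
      refine ⟨v1.ge, by linarith, ?_⟩
      rw [mul_sub, v1]
      linarith)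
    (fun m h1 => ⟨hzero _ m h1, by rw [hzero _ m h1, hzero _ m h1, sub_zero]⟩) n hn hnX hne
  have m2 := hX2 X x2 (gty (kp B' X) X PT)
    (fun m h1 h2 => by
      obtain ⟨v0, v1, v2, v3, v4⟩ := hval m h1 h2
      exact ⟨by linarith, v1.le⟩)
    (fun m h1 => hzero _ m h1) n hn hnX hne
  have m3 := hX3 X x3 (fun m => gty (kp B' X) X B m - gty (kp B' X) X PT m)
    (fun m => gty (kp B' X) X PT m - gty (kp B' X) X A m)
    (fun m h1 h2 => by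
      obtain ⟨v0, v1, v2, v3, v4⟩ := hval m h1 h2
      obtain ⟨-, h7⟩ := hden m h1 h2
      refine ⟨by linarith, ?_⟩
      rw [mul_sub, v1]
      linarith)
    (fun m h1 h2 => by
      obtain ⟨v0, v1, v2, v3, v4⟩ := hval m h1 h2
      obtain ⟨h6, -⟩ := hden m h1 h2
      refine ⟨by linarith, ?_⟩
      rw [mul_sub, v1]
      linarith)
    (fun m h1 => ⟨by rw [hzero _ m h1, hzero _ m h1, sub_zero],
      by rw [hzero _ m h1, hzero _ m h1, sub_zero]⟩) n hn hnX hne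
  have m4 := hX4 X x4 (gty (kp B' X) X A)
    (fun m h1 h2 => by
      obtain ⟨v0, v1, v2, v3, v4⟩ := hval m h1 h2
      refine ⟨v4, ?_⟩
      rw [← v1]
      exact mul_le_mul_of_nonneg_left v2 v0.le)
    (fun m h1 => hzero _ m h1) n hn hnX hne
  have m5 := hX5' X x5 (gty (kp B' X) X B)
    (fun m h1 h2 => by
      obtain ⟨v0, v1, v2, v3, v4⟩ := hval m h1 h2
      obtain ⟨-, h7⟩ := hden m h1 h2
      exact ⟨by linarith, h7⟩)
    (fun m h1 => hzero _ m h1) n hn hnX hne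
  -- numbers
  obtain ⟨n1, n2⟩ := vec_l (pI X) (wty (kp B' X) X A) (wty (kp B' X) X B) (hY3 X y3 A B hT) n
  have hwb : ∀ W : Finset ℕ → ℝ, (∀ T, |W T| ≤ 2 ^ 24) → ∀ m, |wty (kp B' X) X W m| ≤ 2 ^ 24 := by
    intro W hW m
    unfold wty
    split_ifs
    · exact hW _
    · rw [abs_zero]; norm_num
  have n3 := hY6 X y6 _ (hwb A fun T => (hbd T).1) n hnX
  have n4 := hY6 X y6 _ (hwb B fun T => (hbd T).2) n hnX
  have n5 := pI_le_g X n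
  have n6 := g_le_pI X n hnX (by linarith)
  -- circle method
  unfold ClPY at hPA hPB
  unfold Cl2Y at hAA hAB
  have hfp : (fI gP X (wX D' X)) = f2 (wX D' X) := funext fun m => fI_gP X (wX D' X) m
  rw [hfp] at hPA hPB
  obtain ⟨w, hw⟩ : ∃ w : ℕ, w = wX D' X := ⟨_, rfl⟩
  rw [← hw] at hPA hPB hAA hAB m1 m2 m3 m4 m5
  obtain ⟨p, hp⟩ : ∃ p : ℕ → ℝ, p = fun m => gty (kp B' X) X PT m * f1 w m := ⟨_, rfl⟩
  obtain ⟨α, hα⟩ : ∃ α : ℕ → ℝ, α = fun m => gty (kp B' X) X A m * f1 w m := ⟨_, rfl⟩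
  obtain ⟨β, hβ⟩ : ∃ β : ℕ → ℝ, β = fun m => gty (kp B' X) X B m * f1 w m := ⟨_, rfl⟩
  have e1 : (fun m => (gty (kp B' X) X PT m - gty (kp B' X) X A m) * f1 w m) =
      fun m => p m - α m := by
    rw [hp, hα]
    funext m
    ring
  have e2 : (fun m => (gty (kp B' X) X B m - gty (kp B' X) X PT m) * f1 w m) =
      fun m => β m - p m := by
    rw [hp, hβ]
    funext m
    ring
  rw [e1, ← hp, cvv_sub2, cvv_comm α p] at m1
  rw [← hp] at m2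
  rw [e1, e2, cvv_sub2, cvv_comm β p, cvv_comm β α] at m3
  rw [← hp, ← hα] at m4
  rw [← hp, ← hβ] at m5
  rw [← hα] at hPA hAA hAB
  rw [← hβ] at hPB hAB
  -- the error term
  have hL := hY7 X y7
  have hSS : c0 ≤ SS n := by rw [hc]; exact SS_ge n
  have hJJ := hY4 X y4 n hn hnX
  have hX5e : X5 X = X / (Real.log (X : ℝ)) ^ 5 := rfl
  rw [hX5e] at n3 n4 n6 hz1
  obtain ⟨L, hLd⟩ : ∃ L : ℝ, L = Real.log (X : ℝ) := ⟨_, rfl⟩
  rw [← hLd] at n3 n4 n6 hz1 hL hJJ hPA hPB hAA hAB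
  have h1600 : 0 < 2 ^ 33 / (δ * c0) := by positivity
  have hL1 : 1 ≤ L := by linarith
  have hL0 : 0 < L := by linarith
  have hnr : (X : ℝ) < 2 * n := by exact_mod_cast hn
  have hJ2 : X / (16 * L ^ 2) ≤ JJ n := by
    refine le_trans ?_ hJJ
    rw [div_le_div_iff₀ (by positivity) (by positivity)]
    have h12 : 0 < L ^ 2 := by positivity
    nlinarith
  have hJ0 : 0 ≤ JJ n := le_trans (by positivity) hJ2
  have herr : 2 ^ 27 * (X / L ^ 5) ≤ δ / 4 * (SS n * JJ n) := by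
    have e1 : c0 * (X / (16 * L ^ 2)) ≤ SS n * JJ n :=
      mul_le_mul hSS hJ2 (by positivity) (hc0.le.trans hSS)
    have e2 : 2 ^ 27 * (X / L ^ 5) ≤ δ / 4 * (c0 * (X / (16 * L ^ 2))) := by
      have e3 : δ / 4 * (c0 * (X / (16 * L ^ 2))) =
          (δ * c0 * L ^ 3 / 2 ^ 33) * (2 ^ 27 * (X / L ^ 5)) := by
        field_simp
        norm_num
      rw [e3]
      have e4 : 1 ≤ δ * c0 * L ^ 3 / 2 ^ 33 := by
        rw [le_div_iff₀ (by norm_num), one_mul]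
        have e5 : 2 ^ 33 / (δ * c0) ≤ L ^ 3 := by
          calc 2 ^ 33 / (δ * c0) ≤ L := by linarith
            _ = L ^ 1 := (pow_one L).symm
            _ ≤ L ^ 3 := pow_le_pow_right₀ hL1 (by norm_num)
        rw [div_le_iff₀ (by positivity)] at e5
        linarith
      exact le_mul_of_one_le_left (by positivity) e4
    have e6 : δ / 4 * (c0 * (X / (16 * L ^ 2))) ≤ δ / 4 * (SS n * JJ n) :=
      mul_le_mul_of_nonneg_left e1 (by linarith)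
    linarith
  obtain ⟨V, hV⟩ : ∃ V : ℝ, V = SS n * JJ n := ⟨_, rfl⟩
  obtain ⟨Q, hQ⟩ : ∃ Q : ℝ, Q = X / L ^ 5 := ⟨_, rfl⟩
  rw [← hV] at m1 m2 m3 m4 m5 herr hPA hPB hAA hAB ⊢
  rw [← hQ] at herr n3 n4 n6 hz1 hPA hPB hAA hAB
  have b1 := abs_le.1 hPA
  have b2 := abs_le.1 hPB
  have b3 := abs_le.1 hAA
  have b4 := abs_le.1 hAB
  have b5 := abs_le.1 n3
  have b6 := abs_le.1 n4
  have hηV : b * (η * V) + 1 * (η * V) = δ / 4 * V := by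
    rw [← hηb]
    ring
  have hV0 : 0 ≤ δ / 4 * V := by
    have : (0 : ℝ) ≤ 2 ^ 27 * Q := by linarith
    linarith
  constructor
  · have f1 : (1 - (1 - a) ^ 2 - δ) * V = (1 ^ 2 - (1 - a) ^ 2 - δ / 8) * V -
        7 / 2 * (δ / 4 * V) := by ring
    rw [f1]
    linarith [b1.1, b3.2, b5.1, b5.2, m4.1]
  · have f1 : (1 + (b - 1) * (1 - a) + δ) * V = (1 ^ 2 + δ / 8) * V +
        ((b - 1) * (1 - a) + δ / 8) * V + δ / 4 * V + δ / 4 * V + δ / 4 * V := by ring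
    rw [f1]
    linarith [b1.2, b2.2, b4.1, b5.2, b5.1, b6.1, b6.2, m4.2, m5.2]

theorem err_y : ∃ X0 : ℕ, ∀ X : ℕ, X0 ≤ X → ∀ δ : ℝ, 0 < δ → ∀ n : ℕ, X < 2 * n → n ≤ X →
    Even n → (δ * C2 / 16) * ((n : ℝ) / (Nat.totient n : ℝ)) * (X / (Real.log X) ^ 2) ≤
      δ * (SS n * JJ n) := by
  obtain ⟨X3, hX3⟩ := IY.JJ_ge
  obtain ⟨X4, hX4⟩ := MP_log_large 1
  refine ⟨max X3 (max X4 1), fun X hX δ hδ n n1 n2 n3 => ?_⟩
  simp only [max_le_iff] at hX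
  obtain ⟨x3, x4, x5⟩ := hX
  have hC2 := C2_pos
  have hJ := hX3 X x3 n n1 n2
  have hL1 := hX4 X x4
  obtain ⟨L, hLd⟩ : ∃ L : ℝ, L = Real.log X := ⟨_, rfl⟩
  rw [← hLd] at hJ hL1 ⊢
  have hL0 : 0 < L := by linarith
  have hX0 : (0 : ℝ) < X := by exact_mod_cast x5
  have hnX : (X : ℝ) ≤ 2 * n := by exact_mod_cast n1.le
  have hS1 := BX.ss_phi n n3 (by omega)
  have hS2 := SS_ge n
  have hS0 : 0 < SS n := by linarith
  have hJ1 : (X : ℝ) / L ^ 2 ≤ 16 * JJ n := by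
    have h3 : (X : ℝ) / L ^ 2 ≤ 16 * ((n : ℝ) / (8 * L ^ 2)) := by
      have h4 : 16 * ((n : ℝ) / (8 * L ^ 2)) = 2 * n / L ^ 2 := by
        field_simp
        ring
      rw [h4]
      exact div_le_div_of_nonneg_right hnX (by positivity)
    linarith
  have h3 : (n : ℝ) / (Nat.totient n : ℝ) ≤ SS n / C2 := by
    rw [le_div_iff₀ hC2]
    linarith
  calc (δ * C2 / 16) * ((n : ℝ) / (Nat.totient n : ℝ)) * (X / L ^ 2) ≤
      (δ * C2 / 16) * (SS n / C2) * (16 * JJ n) := by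
        apply mul_le_mul (mul_le_mul_of_nonneg_left h3 (by positivity)) hJ1 (by positivity)
        positivity
    _ = δ * (SS n * JJ n) := by
        field_simp

end Pool.MP_dd84fd_nt.BY
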