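import Pool.Agent.Lib.MP_dd84fd_nt.BY.VDefs
import Pool.Agent.Lib.MP_dd84fd_nt.DX.PfA
import Pool.Agent.Lib.MP_dd84fd_nt.E2.Rankin
import Pool.Agent.Lib.MP_dd84fd_nt.E2.FBound

/-!
# BY-VSec (V2b): `(ww - gg f1) * (gg2 f1)` is small for every `n`

As `DX/PfE.lean` for a general function `ww` with its density `gg`, from `PfAvg`.
-/

set_option autoImplicit false

namespace Pool.MP_dd84fd_nt.BY

open Finset Pool.MP_67663b_nt.Odd Pool.MP_dd84fd_nt.En Pool.MP_dd84fd_nt.E2 Pool.MP_dd84fd_nt.GX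
open Pool.MP_dd84fd_nt.HX Pool.MP_dd84fd_nt.IX
open Pool.MP_dd84fd_nt.JX (wP gP)

private theorem pfe_large (A : ℕ) (C : ℝ) (η : ℝ) (hη : 0 < η) : ∃ X0 : ℕ, ∀ X : ℕ, X0 ≤ X →
    C * Real.log X ^ A ≤ (X : ℝ) ^ η := by
  have hev2 : ∀ᶠ X : ℕ in Filter.atTop, ‖Real.log X ^ (A : ℝ)‖ ≤
      1 / (|C| + 1) * ‖(X : ℝ) ^ η‖ :=
    tendsto_natCast_atTop_atTop.eventually
      ((isLittleO_log_rpow_rpow_atTop (A : ℝ) hη).bound (by positivity))
  obtain ⟨X3, hX3⟩ := Filter.eventually_atTop.1 hev2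
  refine ⟨X3, fun X hX => ?_⟩
  have h := hX3 X hX
  have hl : 0 ≤ Real.log (X : ℝ) := Real.log_natCast_nonneg X
  rw [Real.rpow_natCast, Real.norm_of_nonneg (by positivity),
      Real.norm_of_nonneg (by positivity), one_div, ← div_eq_inv_mul,
      le_div_iff₀ (by positivity)] at h
  have h1 : 0 ≤ Real.log (X : ℝ) ^ A := by positivity
  have h2 := le_abs_self C
  nlinarith

/-- partial summation -/
private theorem pfe_abel (v G : ℕ → ℝ) (N : ℕ) :
    ∑ m ∈ Icc 1 N, v m * G m =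
      (∑ m ∈ Icc 1 N, v m) * G N - ∑ j ∈ range N, (∑ m ∈ Icc 1 j, v m) * (G (j + 1) - G j) := by
  induction N with
  | zero => simp
  | succ N ih =>
    rw [Finset.sum_Icc_succ_top (by omega), ih, Finset.sum_Icc_succ_top (by omega), sum_range_succ]
    ring

/-- the number of `m < n` with `d | n - m` -/
private theorem pfe_count (n d : ℕ) (hd : 1 ≤ d) :
    (((Icc 1 (n - 1)).filter (fun m => d ∣ n - m)).card : ℝ) ≤ (n : ℝ) / d := by
  have h1 : ((Icc 1 (n - 1)).filter (fun m => d ∣ n - m)).card ≤ (Icc 1 (n / d)).card := by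
    refine Finset.card_le_card_of_injOn (fun m => (n - m) / d) ?_ ?_
    · intro m hm
      have hm' := mem_filter.1 (Finset.mem_coe.1 hm)
      obtain ⟨h2, h3⟩ := hm'
      rw [mem_Icc] at h2
      rw [Finset.mem_coe, mem_Icc]
      refine ⟨Nat.div_pos (Nat.le_of_dvd (by omega) h3) (by omega), Nat.div_le_div_right (by omega)⟩
    · intro m hm m' hm' h
      have hm1 := mem_filter.1 (Finset.mem_coe.1 hm)
      have hm2 := mem_filter.1 (Finset.mem_coe.1 hm')
      rw [mem_Icc] at hm1 hm2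
      have e1 := Nat.div_mul_cancel hm1.2
      have e2 := Nat.div_mul_cancel hm2.2
      have h' : (n - m) / d = (n - m') / d := h
      rw [h'] at e1
      omega
  rw [Nat.card_Icc, Nat.add_sub_cancel] at h1
  calc (((Icc 1 (n - 1)).filter (fun m => d ∣ n - m)).card : ℝ) ≤ ((n / d : ℕ) : ℝ) := by
        exact_mod_cast h1
    _ ≤ (n : ℝ) / d := Nat.cast_div_le

/-- the progression sum with a weight of bounded variation -/
private theorem pfe_T (u g : ℕ → ℝ) (n d : ℕ) (hn : 1 ≤ n) (K : ℝ) (hK : |g 1| ≤ K) (M : ℕ → ℝ)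
    (hM : ∀ t, M t = |∑ m ∈ (Icc 1 t).filter (fun m => m ≡ n [MOD d]), u m|) :
    |∑ m ∈ (Icc 1 (n - 1)).filter (fun m => d ∣ n - m), u m * g (n - m)| ≤
      K * M (n - 1) + ∑ j ∈ range (n - 1), M j * |g (n - (j + 1)) - g (n - j)| := by
  have e1 : ∑ m ∈ (Icc 1 (n - 1)).filter (fun m => d ∣ n - m), u m * g (n - m) =
      ∑ m ∈ Icc 1 (n - 1), (if m ≡ n [MOD d] then u m else 0) * g (n - m) := by
    rw [sum_filter]
    refine sum_congr rfl fun m hm => ?_
    rw [mem_Icc] at hm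
    have h1 : (m ≡ n [MOD d]) ↔ d ∣ n - m := Nat.modEq_iff_dvd' (by omega)
    by_cases h : d ∣ n - m
    · rw [if_pos h, if_pos (h1.2 h)]
    · rw [if_neg h, if_neg (fun h2 => h (h1.1 h2)), zero_mul]
  rw [e1, pfe_abel (fun m => if m ≡ n [MOD d] then u m else 0) (fun m => g (n - m)) (n - 1)]
  have hMe : ∀ t, |∑ m ∈ Icc 1 t, (if m ≡ n [MOD d] then u m else 0)| = M t := by
    intro t
    rw [hM, sum_filter]
  have hM0 : ∀ t, 0 ≤ M t := fun t => by rw [hM]; exact abs_nonneg _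
  refine (abs_sub _ _).trans (add_le_add ?_ ?_)
  · rw [abs_mul, hMe, mul_comm]
    refine mul_le_mul_of_nonneg_right ?_ (hM0 _)
    rw [Nat.sub_sub_self hn]
    exact hK
  · refine (abs_sum_le_sum_abs _ _).trans (sum_le_sum fun j _ => ?_)
    rw [abs_mul, hMe]

/-- a divisor of `W` with a common factor with `n` -/
private theorem pfe_zero (ww gg : ℕ → ℕ → ℝ) (K0 X w n d m : ℕ)
    (hb : |ww X m| ≤ K0 * rg (zI X) m) (hw : w < zI X) (hd : d ∣ primorial w)
    (hdn : ¬ Nat.Coprime n d) (hm0 : m ≠ 0) (hm : m ≤ n) (hdm : d ∣ n - m) :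
    uI ww gg X w m = 0 := by
  obtain ⟨p, hp, hpn, hpd⟩ := Nat.Prime.not_coprime_iff_dvd.1 hdn
  have hpm : p ∣ m := by
    have h1 : p ∣ n - m := hpd.trans hdm
    have h2 := Nat.dvd_sub hpn h1
    rwa [Nat.sub_sub_self hm] at h2
  have hpw : p ≤ w := (hp.dvd_primorial_iff).mp (hpd.trans hd)
  have h1 : f1 w m = 0 := by
    unfold f1
    rw [if_neg]
    intro h
    exact Nat.Prime.not_coprime_iff_dvd.2 ⟨p, hp, hpm, hpd.trans hd⟩ h
  have h2 : ww X m = 0 := by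
    have h3 : rg (zI X) m = 0 := by
      unfold rg
      rw [if_neg]
      intro h4
      have := h4.2 p (Nat.mem_primeFactors.2 ⟨hp, hpm, hm0⟩)
      omega
    rw [h3, mul_zero] at hb
    exact abs_eq_zero.1 (le_antisymm hb (abs_nonneg _))
  unfold uI fI
  rw [h1, h2, mul_zero, sub_zero]

private theorem pfe_u (ww gg : ℕ → ℕ → ℝ) (K0 X w m : ℕ) (hb : |ww X m| ≤ K0 * rg (zI X) m)
    (hg : |gg X m| ≤ K0) (hL : 1 ≤ Real.log X) (hf : ∀ n : ℕ, f1 w n ≤ Real.log X) :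
    |uI ww gg X w m| ≤ 2 * K0 * Real.log X := by
  have hf0 : 0 ≤ f1 w m := by
    unfold f1
    split_ifs <;> positivity
  have hK : (0 : ℝ) ≤ K0 := Nat.cast_nonneg _
  have h1 : |ww X m| ≤ K0 := by
    refine hb.trans ?_
    unfold rg
    split_ifs
    · rw [mul_one]
    · rw [mul_zero]
      exact hK
  unfold uI fI
  refine (abs_sub _ _).trans ?_
  rw [abs_mul, abs_of_nonneg hf0]
  have h3 : |gg X m| * f1 w m ≤ K0 * Real.log X := mul_le_mul hg (hf m) hf0 hK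
  nlinarith

private theorem pfe_fin (X L K : ℝ) (A C : ℕ) (hX : 0 < X) (hL : 2 ≤ L) (hLK : K + 2 ≤ L)
    (_hK : 0 ≤ K) : L * ((K + L ^ C) * (X / L ^ (A + C + 4))) ≤ 1 / 2 * (X / L ^ A) := by
  have hL0 : 0 < L := by linarith
  have h1 : K + L ^ C ≤ L ^ (C + 1) := by
    have h2 : (1 : ℝ) ≤ L ^ C := one_le_pow₀ (by linarith)
    rw [pow_succ]
    nlinarith
  have e1 : L * ((K + L ^ C) * (X / L ^ (A + C + 4))) ≤
      L * (L ^ (C + 1) * (X / L ^ (A + C + 4))) := by gcongr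
  refine e1.trans ?_
  have e3 : L ^ (A + C + 4) = L ^ A * L ^ (C + 1) * L * L ^ 2 := by ring
  have n1 : L ^ (C + 1) ≠ 0 := by positivity
  have n2 : L ^ A ≠ 0 := by positivity
  have e2 : L * (L ^ (C + 1) * (X / L ^ (A + C + 4))) = X / L ^ A / L ^ 2 := by
    rw [e3]
    generalize L ^ (C + 1) = a at *
    generalize L ^ A = b at *
    field_simp
  rw [e2, div_le_iff₀ (by positivity)]
  have h3 : 2 ≤ L ^ 2 := by nlinarith
  have h4 : 0 < X / L ^ A := by positivity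
  nlinarith

/-- (V2b) -/
theorem secG : SecG := by
  intro A K0 C1 ww gg0 gg hww havg hgg
  obtain ⟨D0, hD0⟩ := havg (A + C1 + 4)
  refine ⟨max D0 1, fun D' hD' => ?_⟩
  obtain ⟨Ku, hKu⟩ : ∃ Ku : ℝ, Ku = 2 * K0 := ⟨_, rfl⟩
  have hKu0 : 0 ≤ Ku := by rw [hKu]; positivity
  obtain ⟨Y8, hY8⟩ := hww
  obtain ⟨η, hη0, hη1, Y1, hY1⟩ := hD0 D' ((le_max_left _ _).trans hD')
  have hD1 : 1 ≤ D' := (le_max_right _ _).trans hD'
  have hD1r : (1 : ℝ) ≤ D' := by exact_mod_cast hD1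
  obtain ⟨Y2, hY2⟩ := hgg
  obtain ⟨Y3, hY3⟩ := rankin D' hD1 (ε := η / (4 * D')) (by positivity)
  obtain ⟨Y4, hY4⟩ := f1_le D'
  obtain ⟨Y5, hY5⟩ := pfe_large D' 1 (1 / 10 - 1 / 20) (by norm_num)
  obtain ⟨Y6, hY6⟩ := pfe_large (A + 2) (2 * Ku * K0) (η / (4 * D')) (by positivity)
  have hev : ∀ᶠ X : ℕ in Filter.atTop, (K0 : ℝ) + 2 ≤ Real.log X :=
    (Real.tendsto_log_atTop.comp tendsto_natCast_atTop_atTop).eventually_ge_atTop _
  obtain ⟨Y7, hY7⟩ := Filter.eventually_atTop.1 hev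
  refine ⟨max (max (max Y1 Y2) (max Y3 Y4)) (max (max Y5 Y6) (max Y7 (max Y8 2))), fun X hX n hn => ?_⟩
  have hX1 : Y1 ≤ X := by omega
  have hX2 : Y2 ≤ X := by omega
  have hX3 : Y3 ≤ X := by omega
  have hX4 : Y4 ≤ X := by omega
  have hX5 : Y5 ≤ X := by omega
  have hX6 : Y6 ≤ X := by omega
  have hX7 : Y7 ≤ X := by omega
  have hX8 : 2 ≤ X := by omega
  have hX9 : Y8 ≤ X := by omega
  have hXr : (1 : ℝ) < X := by exact_mod_cast (by omega : 1 < X)
  have hXpos : (0 : ℝ) < X := by linarith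
  obtain ⟨L, hL⟩ : ∃ L, L = Real.log X := ⟨_, rfl⟩
  have hLK : (K0 : ℝ) + 2 ≤ L := by rw [hL]; exact hY7 X hX7
  have hK0 : (0 : ℝ) ≤ K0 := Nat.cast_nonneg _
  have hL2 : 2 ≤ L := by linarith
  have hL0 : 0 < L := by linarith
  have hTA : 0 < (X : ℝ) / L ^ A := by positivity
  rcases Nat.eq_zero_or_pos n with hn0 | hn0
  · subst hn0
    have : cvv (uI ww gg0 X (wX D' X)) (fI gg X (wX D' X)) 0 = 0 := by
      unfold cvv
      simp
    rw [this, abs_zero, ← hL]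
    exact hTA.le
  obtain ⟨w, hwd⟩ : ∃ w, w = wX D' X := ⟨_, rfl⟩
  rw [← hwd, ← hL]
  have hw : (w : ℝ) ≤ (Real.log X) ^ D' := by
    rw [hwd]
    exact Nat.floor_le (by positivity)
  obtain ⟨hκ1, hf1⟩ := hY4 X hX4 w hw
  obtain ⟨κ, hκ⟩ : ∃ κ, κ = (primorial w : ℝ) / (Nat.totient (primorial w) : ℝ) := ⟨_, rfl⟩
  rw [← hκ, ← hL] at hκ1
  have hκ0 : 0 ≤ κ := by rw [hκ]; positivity
  have hwz : w < zI X := by
    have h1 := hY5 X hX5
    rw [one_mul] at h1
    have h2 : (w : ℝ) < (X : ℝ) ^ (1 / 10 : ℝ) := by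
      refine lt_of_le_of_lt (hw.trans h1) ?_
      exact Real.rpow_lt_rpow_of_exponent_lt hXr (by norm_num)
    have h3 : (w : ℝ) < (zI X : ℝ) := lt_of_lt_of_le h2 (Nat.le_ceil _)
    exact_mod_cast h3
  obtain ⟨u, hu⟩ : ∃ u, u = uI ww gg0 X w := ⟨_, rfl⟩
  have hub : ∀ m, |u m| ≤ Ku * L := by
    intro m
    rw [hu, hL, hKu]
    exact pfe_u ww gg0 K0 X w m ((hY8 X hX9).1 m).1 ((hY8 X hX9).1 m).2 (by rw [← hL]; linarith) hf1
  obtain ⟨hg1, hg2⟩ := hY2 X hX2
  rw [← hL] at hg2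
  -- the divisors
  obtain ⟨T, hT⟩ : ∃ T : ℕ → ℝ, T = fun d => ∑ m ∈ (Icc 1 (n - 1)).filter (fun m => d ∣ n - m),
    u m * gg X (n - m) := ⟨_, rfl⟩
  have hPpos : 0 < primorial w := primorial_pos w
  have hexp : cvv u (fI gg X w) n =
      κ * ∑ d ∈ (primorial w).divisors, (ArithmeticFunction.moebius d : ℝ) * T d := by
    unfold cvv
    have h1 : ∀ m ∈ Icc 1 (n - 1), u m * fI gg X w (n - m) =
        κ * ∑ d ∈ (primorial w).divisors, (if d ∣ n - m then
          (ArithmeticFunction.moebius d : ℝ) * (u m * gg X (n - m)) else 0) := by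
      intro m _
      have h2 := RC_moebius (primorial w) hPpos (n - m)
      have h3 : f1 w (n - m) = κ * ∑ d ∈ (primorial w).divisors with d ∣ n - m,
          (ArithmeticFunction.moebius d : ℝ) := by
        rw [h2, hκ]
        unfold f1
        split_ifs
        · rw [mul_one]
        · rw [mul_zero]
      unfold fI
      rw [h3, ← sum_filter, ← sum_mul]
      ring
    rw [sum_congr rfl h1, ← mul_sum, sum_comm]
    congr 1
    refine sum_congr rfl fun d _ => ?_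
    rw [hT, ← sum_filter, ← mul_sum]
  rw [← hu, hexp, abs_mul, abs_of_nonneg hκ0]
  have habs : |∑ d ∈ (primorial w).divisors, (ArithmeticFunction.moebius d : ℝ) * T d| ≤
      ∑ d ∈ (primorial w).divisors, |T d| := by
    refine (abs_sum_le_sum_abs _ _).trans (sum_le_sum fun d _ => ?_)
    rw [abs_mul]
    have h1 : |(ArithmeticFunction.moebius d : ℝ)| ≤ 1 := by
      have := ArithmeticFunction.abs_moebius_le_one (n := d)
      exact_mod_cast this
    calc |(ArithmeticFunction.moebius d : ℝ)| * |T d| ≤ 1 * |T d| :=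
          mul_le_mul_of_nonneg_right h1 (abs_nonneg _)
      _ = |T d| := one_mul _
  -- large divisors
  have hnX : (n : ℝ) ≤ X := by exact_mod_cast hn
  obtain ⟨hr1, -⟩ := hY3 X hX3 w hw ((X : ℝ) ^ η) (Real.one_le_rpow hXr.le hη0.le)
  have hlarge : ∑ d ∈ (primorial w).divisors.filter (fun d : ℕ => (X : ℝ) ^ η < (d : ℝ)), |T d| ≤
      Ku * L * K0 * (X * (X : ℝ) ^ (-(η / (4 * D')))) := by
    have h1 : ∀ d ∈ (primorial w).divisors.filter (fun d : ℕ => (X : ℝ) ^ η < (d : ℝ)),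
        |T d| ≤ Ku * L * K0 * X * (1 / (d : ℝ)) := by
      intro d hd
      have hd1 : 1 ≤ d := Nat.pos_of_mem_divisors (mem_filter.1 hd).1
      have hdr : (0 : ℝ) < d := by exact_mod_cast hd1
      rw [hT]
      refine (abs_sum_le_sum_abs _ _).trans ?_
      have h2 : ∀ m ∈ (Icc 1 (n - 1)).filter (fun m => d ∣ n - m), |u m * gg X (n - m)| ≤
          Ku * L * K0 := by
        intro m _
        rw [abs_mul]
        exact mul_le_mul (hub m) (hg1 _) (abs_nonneg _) (by positivity)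
      refine (sum_le_sum h2).trans ?_
      rw [sum_const, nsmul_eq_mul]
      have h3 := pfe_count n d hd1
      calc (((Icc 1 (n - 1)).filter (fun m => d ∣ n - m)).card : ℝ) * (Ku * L * K0) ≤
          ((n : ℝ) / d) * (Ku * L * K0) := mul_le_mul_of_nonneg_right h3 (by positivity)
        _ ≤ ((X : ℝ) / d) * (Ku * L * K0) := by gcongr
        _ = _ := by ring
    refine (sum_le_sum h1).trans ?_
    rw [← mul_sum]
    have h2 : (X : ℝ) ^ (η / (4 * D')) * ((X : ℝ) ^ η) ^ (-(1 / (2 * (D' : ℝ)))) =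
        (X : ℝ) ^ (-(η / (4 * D'))) := by
      rw [← Real.rpow_mul hXpos.le, ← Real.rpow_add hXpos]
      congr 1
      field_simp
      ring
    rw [h2] at hr1
    calc Ku * L * K0 * X * ∑ d ∈ (primorial w).divisors.filter (fun d : ℕ => (X : ℝ) ^ η < (d : ℝ)),
          1 / (d : ℝ) ≤ Ku * L * K0 * X * (X : ℝ) ^ (-(η / (4 * D'))) :=
          mul_le_mul_of_nonneg_left hr1 (by positivity)
      _ = _ := by ring
  -- small divisors
  have hsmall : ∑ d ∈ (primorial w).divisors.filter (fun d : ℕ => ¬ (X : ℝ) ^ η < (d : ℝ)), |T d| ≤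
      (K0 + L ^ C1) * (X / L ^ (A + C1 + 4)) := by
    obtain ⟨M, hM⟩ : ∃ M : ℕ → ℕ → ℝ, M = fun d t =>
      |∑ m ∈ (Icc 1 t).filter (fun m => m ≡ n [MOD d]), u m| := ⟨_, rfl⟩
    obtain ⟨S, hS⟩ : ∃ S, S = (Icc 1 X).filter
      (fun k : ℕ => (k : ℝ) ≤ (X : ℝ) ^ η ∧ Nat.Coprime n k) := ⟨_, rfl⟩
    have hMS : ∀ t ≤ X, ∑ d ∈ S, M d t ≤ X / L ^ (A + C1 + 4) := by
      intro t ht
      have := hY1 X hX1 n t ht
      rw [← hwd, ← hu, ← hL, ← hS] at this
      rw [hM]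
      exact this
    have h1 : ∑ d ∈ (primorial w).divisors.filter (fun d : ℕ => ¬ (X : ℝ) ^ η < (d : ℝ)), |T d| ≤
        ∑ d ∈ S, |T d| := by
      rw [← sum_filter_add_sum_filter_not ((primorial w).divisors.filter
        (fun d : ℕ => ¬ (X : ℝ) ^ η < (d : ℝ))) (fun d => Nat.Coprime n d)]
      have h2 : ∑ d ∈ ((primorial w).divisors.filter (fun d : ℕ => ¬ (X : ℝ) ^ η < (d : ℝ))).filter
          (fun d => ¬ Nat.Coprime n d), |T d| = 0 := by
        refine sum_eq_zero fun d hd => ?_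
        rw [mem_filter, mem_filter, Nat.mem_divisors] at hd
        have : T d = 0 := by
          rw [hT]
          refine sum_eq_zero fun m hm => ?_
          rw [mem_filter, mem_Icc] at hm
          rw [hu, pfe_zero ww gg0 K0 X w n d m ((hY8 X hX9).1 m).1 hwz hd.1.1.1 hd.2 (by omega) (by omega) hm.2, zero_mul]
        rw [this, abs_zero]
      rw [h2, add_zero]
      refine sum_le_sum_of_subset_of_nonneg ?_ fun _ _ _ => abs_nonneg _
      intro d hd
      rw [mem_filter, mem_filter, Nat.mem_divisors] at hd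
      have hd1 : 1 ≤ d := Nat.pos_of_dvd_of_pos hd.1.1.1 hPpos
      have hd2 : (d : ℝ) ≤ (X : ℝ) ^ η := not_lt.1 hd.1.2
      rw [hS, mem_filter, mem_Icc]
      refine ⟨⟨hd1, ?_⟩, hd2, hd.2⟩
      have h3 : (X : ℝ) ^ η ≤ (X : ℝ) ^ (1 : ℝ) :=
        Real.rpow_le_rpow_of_exponent_le hXr.le (by linarith)
      rw [Real.rpow_one] at h3
      exact_mod_cast hd2.trans h3
    refine h1.trans ?_
    have h2 : ∀ d ∈ S, |T d| ≤ K0 * M d (n - 1) +
        ∑ j ∈ range (n - 1), M d j * |gg X (n - (j + 1)) - gg X (n - j)| := by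
      intro d _
      rw [hT]
      exact pfe_T u (gg X) n d hn0 K0 (hg1 1) (M d) (fun t => by rw [hM])
    refine (sum_le_sum h2).trans ?_
    rw [sum_add_distrib, ← mul_sum, sum_comm, add_mul]
    refine add_le_add (mul_le_mul_of_nonneg_left (hMS _ (by omega)) hK0) ?_
    have h3 : ∀ j ∈ range (n - 1), ∑ d ∈ S, M d j * |gg X (n - (j + 1)) - gg X (n - j)| ≤
        (X / L ^ (A + C1 + 4)) * |gg X (n - (j + 1)) - gg X (n - j)| := by
      intro j hj
      rw [mem_range] at hj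
      rw [← sum_mul]
      exact mul_le_mul_of_nonneg_right (hMS j (by omega)) (abs_nonneg _)
    refine (sum_le_sum h3).trans ?_
    rw [← mul_sum, mul_comm]
    refine mul_le_mul_of_nonneg_right ?_ (by positivity)
    refine le_trans ?_ hg2
    have h4 : ∑ j ∈ range (n - 1), |gg X (n - (j + 1)) - gg X (n - j)| =
        ∑ j ∈ range (n - 1), |gg X (j + 1 + 1) - gg X (j + 1)| := by
      rw [← sum_range_reflect]
      refine sum_congr rfl fun j hj => ?_
      rw [mem_range] at hj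
      have e1 : n - (n - 1 - 1 - j + 1) = j + 1 := by omega
      have e2 : n - (n - 1 - 1 - j) = j + 1 + 1 := by omega
      rw [e1, e2, abs_sub_comm]
    rw [h4]
    have h5 : ∑ k ∈ Ico 1 n, |gg X (k + 1) - gg X k| =
        ∑ j ∈ range (n - 1), |gg X (j + 1 + 1) - gg X (j + 1)| := by
      rw [sum_Ico_eq_sum_range]
      refine sum_congr rfl fun j _ => ?_
      rw [add_comm 1 j]
    rw [← h5]
    refine sum_le_sum_of_subset_of_nonneg ?_ fun _ _ _ => abs_nonneg _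
    exact Ico_subset_Ico le_rfl hn
  have hall : ∑ d ∈ (primorial w).divisors, |T d| ≤
      Ku * L * K0 * (X * (X : ℝ) ^ (-(η / (4 * D')))) + (K0 + L ^ C1) * (X / L ^ (A + C1 + 4)) := by
    rw [← sum_filter_add_sum_filter_not (primorial w).divisors
      (fun d : ℕ => (X : ℝ) ^ η < (d : ℝ))]
    exact add_le_add hlarge hsmall
  refine (mul_le_mul hκ1 (habs.trans hall) (abs_nonneg _) hL0.le).trans ?_
  rw [mul_add]
  have hhalf : (X : ℝ) / L ^ A = 1 / 2 * (X / L ^ A) + 1 / 2 * (X / L ^ A) := by ring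
  rw [hhalf]
  refine add_le_add ?_ ?_
  · have h1 := hY6 X hX6
    rw [← hL] at h1
    rw [Real.rpow_neg hXpos.le]
    have h2 : 0 < (X : ℝ) ^ (η / (4 * D')) := by positivity
    have e1 : L * (Ku * L * K0 * (X * ((X : ℝ) ^ (η / (4 * D')))⁻¹)) =
        (Ku * K0 * L ^ 2) * X / (X : ℝ) ^ (η / (4 * D')) := by
      rw [div_eq_mul_inv]
      ring
    have e2 : 1 / 2 * ((X : ℝ) / L ^ A) = X / (2 * L ^ A) := by
      field_simp
    rw [e1, e2, div_le_div_iff₀ h2 (by positivity)]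
    have h3 : 2 * Ku * (K0 : ℝ) * L ^ (A + 2) = (Ku * K0 * L ^ 2) * (2 * L ^ A) := by
      rw [pow_add]
      ring
    rw [h3] at h1
    nlinarith
  · exact pfe_fin X L K0 A C1 hXpos hL2 hLK hK0

end Pool.MP_dd84fd_nt.BY
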