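import Pool.Agent.Lib.MP_dd84fd_nt.BY.VDefs
import Pool.Agent.Lib.MP_dd84fd_nt.DX.PgGen
import Pool.Agent.Lib.MP_dd84fd_nt.DX.GenX

/-!
# BY-VGen (V1): one pair of families

`ww1 * ww2 - f1 * f2 = ww1 * (ww2 - f2) + (ww1 - f1) * f2`: the first term by the plug-in `DX.plugE`
(`s1 = 0`, `s2 = -1`) and `GreedyBY`, the second one is `SecY`.
-/

set_option autoImplicit false

namespace Pool.MP_dd84fd_nt.BY

open Finset Pool.MP_67663b_nt.Odd Pool.MP_dd84fd_nt.En Pool.MP_dd84fd_nt.E2 Pool.MP_dd84fd_nt.LS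
open Pool.MP_dd84fd_nt.GX Pool.MP_dd84fd_nt.HX Pool.MP_dd84fd_nt.IX
open Pool.MP_dd84fd_nt.JX (wP gP DecJ Adm)
open Pool.MP_dd84fd_nt.LX (DecW)
open Pool.MP_dd84fd_nt.DX (plugE id_p GoodE Dsk)

/-- (V1) -/
theorem con_y (A : ℕ) : ∃ B : ℕ, ∀ (K0 C1 C2 : ℕ) (th e τ : ℝ), Adm th e τ →
    ∀ ww1 gg1 ww2 gg2 : ℕ → ℕ → ℝ, W1 K0 C1 ww1 gg1 → DecW B C2 th e τ ww1 →
    W1 K0 C1 ww2 gg2 → DecJ B C2 th e τ ww2 → GreedyBY th e ww1 gg1 ww2 gg2 →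
    SecY (A + 1) ww1 gg1 gg2 → ConY A th e ww1 gg1 ww2 gg2 := by
  obtain ⟨B, hB⟩ := plugE (A + 1)
  refine ⟨B, fun K0 C1 C2 th e τ hA ww1 gg1 ww2 gg2 hw1 hd1 hw2 hd2 hG hS η hη => ?_⟩
  obtain ⟨K1, K2, h1⟩ := hB K0 C1 C2
  have h2 := h1 th e τ hA ww1 gg1 ww2 gg2 hw1 hd1 hw2 hd2
  obtain ⟨M, hM⟩ := hG η hη K1 K2
  refine ⟨M, fun K => ?_⟩
  obtain ⟨D1, h3⟩ := hM K
  obtain ⟨D2, h4⟩ := hS
  refine ⟨max D1 (max D2 1), fun D' hD' => ?_⟩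
  simp only [max_le_iff] at hD'
  obtain ⟨X1, h5⟩ := h3 D' hD'.1
  obtain ⟨X2, h6⟩ := h4 D' hD'.2.1
  obtain ⟨X3, h7⟩ := h2 D' hD'.2.2
  obtain ⟨X4, h8⟩ := MP_log_large 2
  refine ⟨max (max X1 X2) (max X3 (max X4 1)), fun X hX => ?_⟩
  simp only [max_le_iff] at hX
  obtain ⟨⟨x1, x2⟩, x3, x4, x5⟩ := hX
  obtain ⟨D, d1, d2, d3⟩ := h5 X x1
  obtain ⟨Ex, e1, e2⟩ := h7 X x3 0 (-1) (by norm_num) (by norm_num)
    (fun n => η * ((n : ℝ) / (Nat.totient n : ℝ)) * (X / (Real.log X) ^ 2))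
  have hL := h8 X x4
  have hX0 : (0 : ℝ) < X := by exact_mod_cast (by omega : 0 < X)
  refine ⟨D, Ex, d1, d2, e1, fun n n1 n2 n3 n4 => ?_⟩
  have q1 := e2 n n1 n2 n3 (by
    intro QQ N ρ hD hρ
    obtain ⟨-, -, k1, k2, k3, -, k4⟩ := hD
    exact d3 n n1 n2 n4 QQ N ρ k1 hρ k2 k3 k4)
  have q2 := h6 X x2 n n2
  have e3 : (fun m => ww2 X m + (-1) * fI gg2 X (wX D' X) m) =
      fun m => ww2 X m - fI gg2 X (wX D' X) m := by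
    funext m
    ring
  rw [e3] at q1
  rw [id_p]
  unfold uI at q2
  have q3 : (X : ℝ) / (Real.log X) ^ (A + 1) + X / (Real.log X) ^ (A + 1) ≤
      X / (Real.log X) ^ A := by
    have hp : 0 < (Real.log X) ^ A := by positivity
    have hl : 0 < Real.log X := by linarith
    rw [pow_succ, ← add_div, div_le_div_iff₀ (by positivity) hp]
    nlinarith [mul_pos hX0 hp]
  refine (abs_add_le _ _).trans ?_
  linarith

end Pool.MP_dd84fd_nt.BY
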